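import Pool.Agent.TH935.LF11
import Pool.Agent.TH935.GF2

set_option autoImplicit false

/-! Values of linear forms at primes in windows, for almost all members of thin families. -/

namespace Pool.Agent.TH935.LF

open Finset
open Pool.Agent.H373R2.T7 (ev_L' ev_log' energy)
open Pool.Agent.TH935.GF (En)


set_option maxHeartbeats 4000000 in
theorem fam_lin (h A B C D U : ℕ) (ε : ℝ) (hε : 0 < ε) (hε1 : ε ≤ 1 / 2) : ∃ N0 : ℕ, ∀ N : ℕ, N0 ≤ N →
    ∀ (x : ℕ) (s : ℕ → ℤ), (∀ m ∈ Icc 1 x, |s m| ≤ B * N ∧ s m ≠ 0) →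
    (energy h x s : ℝ) * N ≤ Real.log N ^ C * (x : ℝ) ^ (2 * h) →
    ∀ S : Finset ℕ, S ⊆ Icc 1 x → (∀ m ∈ S, ¬ HW ε A B D N (s m)) → (S.card : ℝ) ≤ x / Real.log N ^ U := by
  obtain ⟨X0, h0⟩ := gg_fam h (C + D + 2) D (A + 2 * D + 6) U
  obtain ⟨n1, h1⟩ := win_asym ε hε hε1 A B D
  obtain ⟨n2, h2⟩ := ev_L' (B * 2 ^ D + B + 2 ^ (D + 2) + 10)
  obtain ⟨n3, h3⟩ := ev_log' (D + 2) 1
  refine ⟨X0 + n1 + n2 + n3 + 3, fun N hN x s hs hE S hSx hS => ?_⟩
  have b2 := h2 N (by omega)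
  have b3 := h3 N (by omega)
  have hw := h1 N (by omega)
  obtain ⟨L, hL⟩ : ∃ L, L = Real.log (N : ℝ) := ⟨_, rfl⟩
  rw [← hL] at b2 b3 hw hE ⊢
  rw [one_mul] at b3
  have hB0 : (0 : ℝ) ≤ B := Nat.cast_nonneg _
  have hp : (0 : ℝ) < 2 ^ D := by positivity
  have hp2 : (0 : ℝ) < 2 ^ (D + 2) := by positivity
  have hBD : 0 ≤ (B : ℝ) * 2 ^ D := by positivity
  have hL10 : 10 ≤ L := by linarith
  have hL1 : 1 ≤ L := by linarith
  have hL0 : 0 < L := by linarith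
  have hNr : (3 : ℝ) ≤ N := by exact_mod_cast (by omega : 3 ≤ N)
  have hN0 : (0 : ℝ) < N := by linarith
  obtain ⟨X, hX⟩ : ∃ X : ℕ, X = N * ⌈L ^ (D + 1)⌉₊ := ⟨_, rfl⟩
  have hc1 : L ^ (D + 1) ≤ (⌈L ^ (D + 1)⌉₊ : ℝ) := Nat.le_ceil _
  have hc2 : (⌈L ^ (D + 1)⌉₊ : ℝ) ≤ L ^ (D + 2) := by
    have h5 : (⌈L ^ (D + 1)⌉₊ : ℝ) < L ^ (D + 1) + 1 := Nat.ceil_lt_add_one (by positivity)
    have h6 : 1 ≤ L ^ (D + 1) := one_le_pow₀ hL1
    rw [show D + 2 = (D + 1) + 1 by ring, pow_succ L (D + 1)]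
    nlinarith
  have hXr : (X : ℝ) = N * (⌈L ^ (D + 1)⌉₊ : ℝ) := by rw [hX]; push_cast; rfl
  have hX1 : (N : ℝ) * L ^ (D + 1) ≤ X := by rw [hXr]; exact mul_le_mul_of_nonneg_left hc1 hN0.le
  have hX2 : (X : ℝ) ≤ N * L ^ (D + 2) := by rw [hXr]; exact mul_le_mul_of_nonneg_left hc2 hN0.le
  have hNX : (N : ℝ) ≤ X := (le_mul_of_one_le_right hN0.le (one_le_pow₀ hL1)).trans hX1
  have hNXn : N ≤ X := by exact_mod_cast hNX
  have hX0 : (0 : ℝ) < X := by linarith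
  obtain ⟨LX, hLX⟩ : ∃ LX, LX = Real.log (X : ℝ) := ⟨_, rfl⟩
  have hLLX : L ≤ LX := by rw [hL, hLX]; exact Real.log_le_log hN0 hNX
  have hLX0 : 0 < LX := by linarith
  have hLX2 : LX ≤ 2 * L := by
    have e1 : (X : ℝ) ≤ N ^ 2 := by
      refine hX2.trans ?_
      rw [sq]
      apply mul_le_mul_of_nonneg_left _ hN0.le
      refine b3.trans ?_
      rw [Real.sqrt_le_left hN0.le]
      nlinarith
    have e2 := Real.log_le_log hX0 e1
    rw [Real.log_pow, ← hL, ← hLX] at e2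
    exact_mod_cast e2
  have hBX : (B : ℝ) * N ≤ X := by
    refine le_trans ?_ hX1
    rw [mul_comm]
    apply mul_le_mul_of_nonneg_left _ hN0.le
    have : L ≤ L ^ (D + 1) := le_self_pow₀ hL1 (by omega)
    linarith
  have hBXn : B * N ≤ X := by exact_mod_cast hBX
  have key := h0 X (by omega) (B * N) (by
      rw [← hLX]
      push_cast
      calc (B : ℝ) * N * LX ^ D ≤ B * N * (2 * L) ^ D := by gcongr
        _ = N * ((B * 2 ^ D) * L ^ D) := by rw [mul_pow]; ring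
        _ ≤ N * (L * L ^ D) := by
            apply mul_le_mul_of_nonneg_left _ hN0.le
            apply mul_le_mul_of_nonneg_right _ (by positivity)
            linarith
        _ = N * L ^ (D + 1) := by ring
        _ ≤ X := hX1) x s (fun m hm => ⟨(hs m hm).1.trans (by exact_mod_cast hBXn), (hs m hm).2⟩) (by
      rw [← hLX]
      calc (energy h x s : ℝ) * X ≤ energy h x s * (N * L ^ (D + 2)) := mul_le_mul_of_nonneg_left hX2 (Nat.cast_nonneg _)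
        _ = (energy h x s * N) * L ^ (D + 2) := by ring
        _ ≤ (L ^ C * (x : ℝ) ^ (2 * h)) * L ^ (D + 2) := mul_le_mul_of_nonneg_right hE (by positivity)
        _ = L ^ (C + D + 2) * (x : ℝ) ^ (2 * h) := by ring
        _ ≤ LX ^ (C + D + 2) * (x : ℝ) ^ (2 * h) := by gcongr) S hSx (by
      intro m hm hG
      apply hS m hm
      refine hw X hX1 hX2 (s m) ?_ hG
      have h5 := (hs m (hSx hm)).1
      have h6 : ((s m).natAbs : ℤ) ≤ ((B * N : ℕ) : ℤ) := by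
        rw [Int.natCast_natAbs]
        push_cast
        exact h5
      exact_mod_cast h6)
  refine key.trans ?_
  rw [← hLX]
  have hx0 : (0 : ℝ) ≤ x := Nat.cast_nonneg _
  apply div_le_div_of_nonneg_left hx0 (by positivity)
  exact pow_le_pow_left₀ hL0.le hLLX _


set_option maxHeartbeats 4000000 in
theorem transferZ (h B C U : ℕ) (P : ℕ → ℤ → Prop)
    (H : ∀ C U : ℕ, ∃ N₀ : ℕ, ∀ N : ℕ, N₀ ≤ N → ∀ (x : ℕ) (s : ℕ → ℤ),
      (∀ m ∈ Icc 1 x, |s m| ≤ B * N ∧ s m ≠ 0) →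
      (energy h x s : ℝ) * N ≤ Real.log N ^ C * (x : ℝ) ^ (2 * h) →
      ∀ S : Finset ℕ, S ⊆ Icc 1 x → (∀ m ∈ S, ¬ P N (s m)) →
      (S.card : ℝ) ≤ x / Real.log N ^ U) :
    ∃ N₀ : ℕ, ∀ N : ℕ, N₀ ≤ N → ∀ (ι : Type) [Fintype ι] (v : ι → ℤ),
      (∀ i, |v i| ≤ B * N) →
      (En h v : ℝ) * N ≤ Real.log N ^ C * (Fintype.card ι : ℝ) ^ (2 * h) →
      ∀ S : Finset ι, (∀ i ∈ S, v i ≠ 0 ∧ ¬ P N (v i)) →
      (S.card : ℝ) ≤ Fintype.card ι / Real.log N ^ U := by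
  classical
  obtain ⟨N₀, h0⟩ := H (C + 2 * h * U) U
  obtain ⟨N₁, h1⟩ := ev_L' 1
  refine ⟨N₀ + N₁ + 3, fun N hN ι _ v hv hE S hS => ?_⟩
  have hL := h1 N (by omega)
  have hL0 : 0 < Real.log (N : ℝ) := by linarith
  have hN0 : (0 : ℝ) < N := by exact_mod_cast (by omega : 0 < N)
  obtain ⟨L, hLd⟩ : ∃ L, L = Real.log (N : ℝ) := ⟨_, rfl⟩
  have c0 := h0 N (by omega)
  rw [← hLd] at hL hL0 hE c0 ⊢
  obtain ⟨T, hT⟩ : ∃ T : Finset ι, T = univ.filter (fun i => v i ≠ 0) := ⟨_, rfl⟩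
  have hST : S ⊆ T := by
    intro i hi
    rw [hT, mem_filter]
    exact ⟨mem_univ _, (hS i hi).1⟩
  have hSTc : (S.card : ℝ) ≤ T.card := by exact_mod_cast card_le_card hST
  rcases le_or_gt (T.card : ℝ) (Fintype.card ι / L ^ U) with hsm | hbig
  · exact hSTc.trans hsm
  have hT0 : 0 < T.card := by
    have : (0 : ℝ) ≤ Fintype.card ι / L ^ U := by positivity
    exact_mod_cast this.trans_lt hbig
  obtain ⟨i₀, hi₀⟩ := card_pos.1 hT0
  obtain ⟨x, hx⟩ : ∃ x, x = T.card := ⟨_, rfl⟩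
  obtain ⟨e⟩ : Nonempty ((Icc 1 x : Finset ℕ) ≃ T) := ⟨Finset.equivOfCardEq (by rw [Nat.card_Icc, hx]; omega)⟩
  obtain ⟨f, hf⟩ : ∃ f : ℕ → ι, f = fun m => if hm : m ∈ Icc 1 x then (e ⟨m, hm⟩ : ι) else i₀ := ⟨_, rfl⟩
  have hf1 : ∀ m (hm : m ∈ Icc 1 x), f m = (e ⟨m, hm⟩ : ι) := by
    intro m hm
    rw [hf]
    simp only
    rw [dif_pos hm]
  have hfT : ∀ m ∈ Icc 1 x, f m ∈ T := by
    intro m hm
    rw [hf1 m hm]
    exact (e ⟨m, hm⟩).2
  have hfinj : ∀ m ∈ Icc 1 x, ∀ m' ∈ Icc 1 x, f m = f m' → m = m' := by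
    intro m hm m' hm' h2
    rw [hf1 m hm, hf1 m' hm'] at h2
    have h3 := e.injective (Subtype.ext h2)
    exact congrArg Subtype.val h3
  have hfsurj : ∀ i ∈ T, ∃ m ∈ Icc 1 x, f m = i := by
    intro i hi
    refine ⟨(e.symm ⟨i, hi⟩ : ℕ), (e.symm ⟨i, hi⟩).2, ?_⟩
    rw [hf1 _ (e.symm ⟨i, hi⟩).2]
    simp
  have hxr : (T.card : ℝ) = x := by rw [hx]
  rw [hxr] at hbig
  have hιx : (Fintype.card ι : ℝ) ≤ x * L ^ U := by
    rw [div_lt_iff₀ (by positivity)] at hbig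
    exact hbig.le
  have hen : energy h x (fun m => v (f m)) ≤ En h v := by
    unfold energy En
    rw [Nat.card_eq_fintype_card, Fintype.card_subtype]
    apply card_le_card_of_injOn (fun q => (fun j => f (q.1 j), fun j => f (q.2 j)))
    · intro q hq
      rw [mem_coe, mem_filter, mem_product, Fintype.mem_piFinset, Fintype.mem_piFinset] at hq
      rw [mem_coe, mem_filter]
      exact ⟨mem_univ _, hq.2⟩
    · intro q hq q' hq' h2
      rw [mem_coe, mem_filter, mem_product, Fintype.mem_piFinset, Fintype.mem_piFinset] at hq hq'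
      simp only [Prod.mk.injEq] at h2
      apply Prod.ext
      · funext j
        exact hfinj _ (hq.1.1 j) _ (hq'.1.1 j) (congrFun h2.1 j)
      · funext j
        exact hfinj _ (hq.1.2 j) _ (hq'.1.2 j) (congrFun h2.2 j)
  have henr : (energy h x (fun m => v (f m)) : ℝ) ≤ En h v := by exact_mod_cast hen
  have key := c0 x (fun m => v (f m)) (by
    intro m hm
    have h2 := hfT m hm
    rw [hT, mem_filter] at h2
    exact ⟨hv (f m), h2.2⟩) (by
    calc (energy h x (fun m => v (f m)) : ℝ) * N ≤ En h v * N := mul_le_mul_of_nonneg_right henr hN0.le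
      _ ≤ L ^ C * (Fintype.card ι : ℝ) ^ (2 * h) := hE
      _ ≤ L ^ C * (x * L ^ U) ^ (2 * h) := by gcongr
      _ = L ^ (C + 2 * h * U) * (x : ℝ) ^ (2 * h) := by
          rw [mul_pow, pow_add, ← pow_mul, mul_comm U (2 * h)]
          ring)
    ((Icc 1 x).filter (fun m => f m ∈ S)) (filter_subset _ _) (by
      intro m hm
      rw [mem_filter] at hm
      exact (hS _ hm.2).2)
  have hcard : S.card ≤ ((Icc 1 x).filter (fun m => f m ∈ S)).card := by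
    refine le_trans (card_le_card ?_) (card_image_le (f := f))
    intro i hi
    obtain ⟨m, hm, hfm⟩ := hfsurj i (hST hi)
    rw [mem_image]
    exact ⟨m, mem_filter.2 ⟨hm, by rw [hfm]; exact hi⟩, hfm⟩
  have hxι : (x : ℝ) ≤ Fintype.card ι := by
    rw [hx]
    exact_mod_cast card_le_univ T
  calc (S.card : ℝ) ≤ ((Icc 1 x).filter (fun m => f m ∈ S)).card := by exact_mod_cast hcard
    _ ≤ x / L ^ U := key
    _ ≤ Fintype.card ι / L ^ U := by gcongr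

end Pool.Agent.TH935.LF
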