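import Pool.Agent.H560R3.GB.Defs
import Mathlib

set_option autoImplicit false

/-! The singular series and `n / φ(n)`. -/

namespace Pool.Agent.TH935.GF
open Finset
open Pool.Agent.H560R3.GB (sing C₂)

lemma fac_pos (p : ℕ) (hp : 3 ≤ p) : 0 < 1 - 1 / ((p : ℝ) - 1) ^ 2 := by
  have h3 : (3 : ℝ) ≤ p := by exact_mod_cast hp
  have h4 : (4 : ℝ) ≤ ((p : ℝ) - 1) ^ 2 := by nlinarith
  have : 1 / ((p : ℝ) - 1) ^ 2 ≤ 1 / 4 := one_div_le_one_div_of_le (by norm_num) h4
  linarith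

lemma fac_le (p : ℕ) : 1 - 1 / ((p : ℝ) - 1) ^ 2 ≤ 1 := by
  have : 0 ≤ 1 / ((p : ℝ) - 1) ^ 2 := by positivity
  linarith

lemma C₂_le_prod (F : Finset ℕ) (hF : ∀ p ∈ F, p.Prime ∧ 2 < p) :
    C₂ ≤ ∏ p ∈ F, (1 - 1 / ((p : ℝ) - 1) ^ 2) := by
  classical
  obtain ⟨z, hz⟩ : ∃ z : ℕ, ∀ p ∈ F, p ≤ z := ⟨F.sup id, fun p hp => le_sup (f := id) hp⟩
  have h1 : C₂ ≤ ∏ p ∈ (Icc 3 z).filter Nat.Prime, (1 - 1 / ((p : ℝ) - 1) ^ 2) := by
    unfold C₂
    apply ciInf_le
    refine ⟨0, ?_⟩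
    rintro _ ⟨w, rfl⟩
    apply prod_nonneg
    intro p hp
    rw [mem_filter, mem_Icc] at hp
    exact (fac_pos p hp.1.1).le
  refine h1.trans ?_
  have hsub : F ⊆ (Icc 3 z).filter Nat.Prime := by
    intro p hp
    rw [mem_filter, mem_Icc]
    exact ⟨⟨(hF p hp).2, hz p hp⟩, (hF p hp).1⟩
  rw [← prod_sdiff hsub]
  apply mul_le_of_le_one_left
  · apply prod_nonneg
    intro p hp
    exact (fac_pos p (hF p hp).2).le
  · apply prod_le_one
    · intro p hp
      rw [mem_sdiff, mem_filter, mem_Icc] at hp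
      exact (fac_pos p hp.1.1.1).le
    · intro p _
      exact fac_le p

/-- `n / φ(n)` for even `n` -/
lemma tot_prod (n : ℕ) (hn : n ≠ 0) (h2 : 2 ∣ n) :
    (n : ℝ) / n.totient = 2 * ∏ p ∈ n.primeFactors.filter (fun p => 2 < p), ((p : ℝ) / ((p : ℝ) - 1)) := by
  have h := Nat.totient_eq_mul_prod_factors n
  have hr : ((n.totient : ℕ) : ℝ) = n * ∏ p ∈ n.primeFactors, (1 - (p : ℝ)⁻¹) := by
    have : (((n.totient : ℕ) : ℚ) : ℝ) = ((n * ∏ p ∈ n.primeFactors, (1 - (p : ℚ)⁻¹) : ℚ) : ℝ) := by rw [h]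
    push_cast at this
    exact this
  have hn0 : (n : ℝ) ≠ 0 := by exact_mod_cast hn
  have h2m : 2 ∈ n.primeFactors := by
    rw [Nat.mem_primeFactors]
    exact ⟨Nat.prime_two, h2, hn⟩
  have hsplit : n.primeFactors = insert 2 (n.primeFactors.filter (fun p => 2 < p)) := by
    ext p
    rw [mem_insert, mem_filter]
    constructor
    · intro hp
      have := (Nat.prime_of_mem_primeFactors hp).two_le
      rcases this.eq_or_lt with h | h
      · exact Or.inl h.symm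
      · exact Or.inr ⟨hp, h⟩
    · rintro (h | h)
      · rw [h]; exact h2m
      · exact h.1
  have hprod : ∏ p ∈ n.primeFactors, (1 - (p : ℝ)⁻¹) =
      (1 / 2) * ∏ p ∈ n.primeFactors.filter (fun p => 2 < p), (1 - (p : ℝ)⁻¹) := by
    conv_lhs => rw [hsplit]
    rw [prod_insert (by simp)]
    norm_num
  rw [hr, hprod]
  have hpos : ∀ p ∈ n.primeFactors.filter (fun p => 2 < p), (0 : ℝ) < 1 - (p : ℝ)⁻¹ := by
    intro p hp
    rw [mem_filter] at hp
    have h3 : (3 : ℝ) ≤ p := by exact_mod_cast hp.2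
    have : (p : ℝ)⁻¹ ≤ 3⁻¹ := inv_anti₀ (by norm_num) h3
    have : (3 : ℝ)⁻¹ < 1 := by norm_num
    linarith
  have hP : 0 < ∏ p ∈ n.primeFactors.filter (fun p => 2 < p), (1 - (p : ℝ)⁻¹) := prod_pos hpos
  have e : ∏ p ∈ n.primeFactors.filter (fun p => 2 < p), ((p : ℝ) / ((p : ℝ) - 1)) =
      (∏ p ∈ n.primeFactors.filter (fun p => 2 < p), (1 - (p : ℝ)⁻¹))⁻¹ := by
    rw [← prod_inv_distrib]
    apply prod_congr rfl
    intro p hp
    rw [mem_filter] at hp
    have h3 : (3 : ℝ) ≤ p := by exact_mod_cast hp.2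
    have h4 : (p : ℝ) - 1 ≠ 0 := by linarith
    have h5 : (p : ℝ) ≠ 0 := by linarith
    rw [show 1 - (p : ℝ)⁻¹ = (p - 1) / p by field_simp, inv_div]
  rw [e]
  field_simp

/-- the singular series has the order of magnitude of `n / φ(n)`, with explicit constants -/
lemma sing_tot (n : ℕ) (hn : n ≠ 0) (h2 : 2 ∣ n) :
    C₂ * (n / n.totient) ≤ sing n ∧ sing n ≤ n / n.totient := by
  rw [tot_prod n hn h2]
  unfold sing
  have hC0 : 0 ≤ C₂ := by
    unfold C₂
    apply Real.iInf_nonneg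
    intro z
    apply prod_nonneg
    intro p hp
    rw [mem_filter, mem_Icc] at hp
    exact (fac_pos p hp.1.1).le
  have h3 : ∀ p ∈ n.primeFactors.filter (fun p => 2 < p), (3 : ℝ) ≤ p := by
    intro p hp
    rw [mem_filter] at hp
    exact_mod_cast hp.2
  have hle : ∏ p ∈ n.primeFactors.filter (fun p => 2 < p), ((p : ℝ) / ((p : ℝ) - 1)) ≤
      ∏ p ∈ n.primeFactors.filter (fun p => 2 < p), (((p : ℝ) - 1) / ((p : ℝ) - 2)) := by
    apply prod_le_prod
    · intro p hp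
      have := h3 p hp
      have h4 : 0 < (p : ℝ) - 1 := by linarith
      positivity
    · intro p hp
      have := h3 p hp
      rw [div_le_div_iff₀ (by linarith) (by linarith)]
      nlinarith
  constructor
  · calc C₂ * (2 * ∏ p ∈ n.primeFactors.filter (fun p => 2 < p), ((p : ℝ) / ((p : ℝ) - 1))) =
        2 * C₂ * ∏ p ∈ n.primeFactors.filter (fun p => 2 < p), ((p : ℝ) / ((p : ℝ) - 1)) := by ring
      _ ≤ _ := mul_le_mul_of_nonneg_left hle (by positivity)
  · have h5 := C₂_le_prod (n.primeFactors.filter (fun p => 2 < p)) (by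
      intro p hp
      rw [mem_filter] at hp
      exact ⟨Nat.prime_of_mem_primeFactors hp.1, hp.2⟩)
    have h6 : 0 ≤ ∏ p ∈ n.primeFactors.filter (fun p => 2 < p), (((p : ℝ) - 1) / ((p : ℝ) - 2)) := by
      apply prod_nonneg
      intro p hp
      have := h3 p hp
      apply div_nonneg <;> linarith
    calc 2 * C₂ * ∏ p ∈ n.primeFactors.filter (fun p => 2 < p), (((p : ℝ) - 1) / ((p : ℝ) - 2)) ≤
        2 * (∏ p ∈ n.primeFactors.filter (fun p => 2 < p), (1 - 1 / ((p : ℝ) - 1) ^ 2)) *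
          ∏ p ∈ n.primeFactors.filter (fun p => 2 < p), (((p : ℝ) - 1) / ((p : ℝ) - 2)) := by gcongr
      _ = 2 * ∏ p ∈ n.primeFactors.filter (fun p => 2 < p), ((p : ℝ) / ((p : ℝ) - 1)) := by
          rw [mul_assoc, ← prod_mul_distrib]
          congr 1
          apply prod_congr rfl
          intro p hp
          have := h3 p hp
          have h7 : (p : ℝ) - 1 ≠ 0 := by linarith
          have h8 : (p : ℝ) - 2 ≠ 0 := by linarith
          field_simp
          ring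

end Pool.Agent.TH935.GF
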