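import Pool.Agent.TH935.LF12

set_option autoImplicit false

/-! From families indexed by an interval to arbitrary finite families of integers, with a parameter. -/

namespace Pool.Agent.TH935.LF

open Finset
open Pool.Agent.H373R2.T7 (ev_L' ev_log' energy)
open Pool.Agent.TH935.GF (En)

set_option maxHeartbeats 4000000 in
theorem transferK (h B C U : ℕ) {κ : Type} (Adm : ℕ → κ → Prop) (P : ℕ → κ → ℤ → Prop)
    (H : ∀ C U : ℕ, ∃ N₀ : ℕ, ∀ N : ℕ, N₀ ≤ N → ∀ X : κ, Adm N X → ∀ (x : ℕ) (s : ℕ → ℤ),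
      (∀ m ∈ Icc 1 x, |s m| ≤ B * N ∧ s m ≠ 0) →
      (energy h x s : ℝ) * N ≤ Real.log N ^ C * (x : ℝ) ^ (2 * h) →
      ∀ S : Finset ℕ, S ⊆ Icc 1 x → (∀ m ∈ S, ¬ P N X (s m)) →
      (S.card : ℝ) ≤ x / Real.log N ^ U) :
    ∃ N₀ : ℕ, ∀ N : ℕ, N₀ ≤ N → ∀ X : κ, Adm N X → ∀ (ι : Type) [Fintype ι] (v : ι → ℤ),
      (∀ i, |v i| ≤ B * N) →
      (En h v : ℝ) * N ≤ Real.log N ^ C * (Fintype.card ι : ℝ) ^ (2 * h) →
      ∀ S : Finset ι, (∀ i ∈ S, v i ≠ 0 ∧ ¬ P N X (v i)) →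
      (S.card : ℝ) ≤ Fintype.card ι / Real.log N ^ U := by
  classical
  obtain ⟨N₀, h0⟩ := H (C + 2 * h * U) U
  obtain ⟨N₁, h1⟩ := ev_L' 1
  refine ⟨N₀ + N₁ + 3, fun N hN X hX ι _ v hv hE S hS => ?_⟩
  have hL := h1 N (by omega)
  have hL0 : 0 < Real.log (N : ℝ) := by linarith
  have hN0 : (0 : ℝ) < N := by exact_mod_cast (by omega : 0 < N)
  obtain ⟨L, hLd⟩ : ∃ L, L = Real.log (N : ℝ) := ⟨_, rfl⟩
  have c0 := h0 N (by omega) X hX
  rw [← hLd] at hL hL0 hE c0 ⊢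
  obtain ⟨T, hT⟩ : ∃ T : Finset ι, T = univ.filter (fun i => v i ≠ 0) := ⟨_, rfl⟩
  have hST : S ⊆ T := by
    intro i hi
    rw [hT, mem_filter]
    exact ⟨mem_univ _, (hS i hi).1⟩
  have hSTc : (S.card : ℝ) ≤ T.card := by exact_mod_cast card_le_card hST
  rcases le_or_gt (T.card : ℝ) (Fintype.card ι / L ^ U) with hsm | hbig
  · exact hSTc.trans hsm
  have hT0 : 0 < T.card := by
    have : (0 : ℝ) ≤ Fintype.card ι / L ^ U := by positivity
    exact_mod_cast this.trans_lt hbig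
  obtain ⟨i₀, hi₀⟩ := card_pos.1 hT0
  obtain ⟨x, hx⟩ : ∃ x, x = T.card := ⟨_, rfl⟩
  obtain ⟨e⟩ : Nonempty ((Icc 1 x : Finset ℕ) ≃ T) := ⟨Finset.equivOfCardEq (by rw [Nat.card_Icc, hx]; omega)⟩
  obtain ⟨f, hf⟩ : ∃ f : ℕ → ι, f = fun m => if hm : m ∈ Icc 1 x then (e ⟨m, hm⟩ : ι) else i₀ := ⟨_, rfl⟩
  have hf1 : ∀ m (hm : m ∈ Icc 1 x), f m = (e ⟨m, hm⟩ : ι) := by
    intro m hm
    rw [hf]
    simp only
    rw [dif_pos hm]
  have hfT : ∀ m ∈ Icc 1 x, f m ∈ T := by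
    intro m hm
    rw [hf1 m hm]
    exact (e ⟨m, hm⟩).2
  have hfinj : ∀ m ∈ Icc 1 x, ∀ m' ∈ Icc 1 x, f m = f m' → m = m' := by
    intro m hm m' hm' h2
    rw [hf1 m hm, hf1 m' hm'] at h2
    have h3 := e.injective (Subtype.ext h2)
    exact congrArg Subtype.val h3
  have hfsurj : ∀ i ∈ T, ∃ m ∈ Icc 1 x, f m = i := by
    intro i hi
    refine ⟨(e.symm ⟨i, hi⟩ : ℕ), (e.symm ⟨i, hi⟩).2, ?_⟩
    rw [hf1 _ (e.symm ⟨i, hi⟩).2]
    simp
  have hxr : (T.card : ℝ) = x := by rw [hx]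
  rw [hxr] at hbig
  have hιx : (Fintype.card ι : ℝ) ≤ x * L ^ U := by
    rw [div_lt_iff₀ (by positivity)] at hbig
    exact hbig.le
  have hen : energy h x (fun m => v (f m)) ≤ En h v := by
    unfold energy En
    rw [Nat.card_eq_fintype_card, Fintype.card_subtype]
    apply card_le_card_of_injOn (fun q => (fun j => f (q.1 j), fun j => f (q.2 j)))
    · intro q hq
      rw [mem_coe, mem_filter, mem_product, Fintype.mem_piFinset, Fintype.mem_piFinset] at hq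
      rw [mem_coe, mem_filter]
      exact ⟨mem_univ _, hq.2⟩
    · intro q hq q' hq' h2
      rw [mem_coe, mem_filter, mem_product, Fintype.mem_piFinset, Fintype.mem_piFinset] at hq hq'
      simp only [Prod.mk.injEq] at h2
      apply Prod.ext
      · funext j
        exact hfinj _ (hq.1.1 j) _ (hq'.1.1 j) (congrFun h2.1 j)
      · funext j
        exact hfinj _ (hq.1.2 j) _ (hq'.1.2 j) (congrFun h2.2 j)
  have henr : (energy h x (fun m => v (f m)) : ℝ) ≤ En h v := by exact_mod_cast hen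
  have key := c0 x (fun m => v (f m)) (by
    intro m hm
    have h2 := hfT m hm
    rw [hT, mem_filter] at h2
    exact ⟨hv (f m), h2.2⟩) (by
    calc (energy h x (fun m => v (f m)) : ℝ) * N ≤ En h v * N := mul_le_mul_of_nonneg_right henr hN0.le
      _ ≤ L ^ C * (Fintype.card ι : ℝ) ^ (2 * h) := hE
      _ ≤ L ^ C * (x * L ^ U) ^ (2 * h) := by gcongr
      _ = L ^ (C + 2 * h * U) * (x : ℝ) ^ (2 * h) := by
          rw [mul_pow, pow_add, ← pow_mul, mul_comm U (2 * h)]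
          ring)
    ((Icc 1 x).filter (fun m => f m ∈ S)) (filter_subset _ _) (by
      intro m hm
      rw [mem_filter] at hm
      exact (hS _ hm.2).2)
  have hcard : S.card ≤ ((Icc 1 x).filter (fun m => f m ∈ S)).card := by
    refine le_trans (card_le_card ?_) (card_image_le (f := f))
    intro i hi
    obtain ⟨m, hm, hfm⟩ := hfsurj i (hST hi)
    rw [mem_image]
    exact ⟨m, mem_filter.2 ⟨hm, by rw [hfm]; exact hi⟩, hfm⟩
  have hxι : (x : ℝ) ≤ Fintype.card ι := by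
    rw [hx]
    exact_mod_cast card_le_univ T
  calc (S.card : ℝ) ≤ ((Icc 1 x).filter (fun m => f m ∈ S)).card := by exact_mod_cast hcard
    _ ≤ x / L ^ U := key
    _ ≤ Fintype.card ι / L ^ U := by gcongr

end Pool.Agent.TH935.LF
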