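import Pool.Agent.W93.PG6
import Pool.Agent.W93.GB4

set_option autoImplicit false

/-! Goldbach pairs in windows for almost all members of thin families (small additive energy). -/

namespace Pool.Agent.TH935.GF
open Finset
open Pool.Agent.H373R2.T7 (lamI lamzI ev_L' ev_log')
open Pool.Agent.H560R3.GB
open Pool.Agent.W93.GB (vM_le energy_eq small_count)
open Pool.Agent.W93.PG (GoodG pg_det win_count WinP cnt)
open Pool.Agent.W93.PP (markov)

/-- the first moment over a family of small energy, for all windows `[1, y]` -/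
lemma mom (h B C U : ℕ) : ∃ B0 : ℕ, ∀ E : ℕ, ∃ N₀ : ℕ, ∀ N : ℕ, N₀ ≤ N → ∀ (x : ℕ) (s : ℕ → ℕ),
      (∀ m ∈ Icc 1 x, s m ≤ (B + 1) * N) →
      (energy h x s : ℝ) * N ≤ Real.log N ^ C * (x : ℝ) ^ (2 * h) →
      ∀ z : ℕ, Real.log N ^ B0 ≤ z → (z : ℝ) ≤ Real.log N ^ E →
      ∀ y : ℕ, y ≤ (B + 1) * N →
      ∑ m ∈ Icc 1 x, |∑ n ∈ Icc 1 y, ArithmeticFunction.vonMangoldt n *
        (lamI (((s m : ℕ) : ℤ) - n) - lamzI z (((s m : ℕ) : ℤ) - n))| ≤ 2 * Real.log N * (N * x / Real.log N ^ U) := by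
  classical
  obtain ⟨B0, hlam⟩ := Pool.Agent.H560R3.GB.lam_e h (B + 2) C U
  refine ⟨B0, fun E => ?_⟩
  obtain ⟨n1, h1⟩ := hlam E
  obtain ⟨n3, h3⟩ := ev_L' (B + 10)
  refine ⟨n1 + n3 + 3, fun N hN x s hs hE z hz1 hz2 y hy => ?_⟩
  have c1 := h1 N (by omega)
  have c3 := h3 N (by omega)
  have hN3 : 3 ≤ N := by omega
  have hNr : (3 : ℝ) ≤ N := by exact_mod_cast hN3
  have hN0 : (0 : ℝ) < N := by linarith
  obtain ⟨L, hLd⟩ : ∃ L, L = Real.log (N : ℝ) := ⟨_, rfl⟩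
  rw [← hLd] at c1 c3 hz1 hz2 hE ⊢
  have hB0r : (0 : ℝ) ≤ B := Nat.cast_nonneg _
  have hL0 : 0 < L := by linarith
  obtain ⟨M, hM⟩ : ∃ M, M = Real.log (((B + 1) * N : ℕ) : ℝ) := ⟨_, rfl⟩
  have hBN : 1 ≤ (B + 1) * N := Nat.mul_pos (by omega) (by omega)
  have hM2 : M ≤ 2 * L := by
    rw [hM, hLd]
    push_cast
    rw [Real.log_mul (by positivity) hN0.ne']
    have h7 : Real.log (B + 1) ≤ B := by
      have := Real.log_le_sub_one_of_pos (show (0 : ℝ) < B + 1 by positivity)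
      linarith
    rw [hLd] at c3
    linarith
  have hM0 : 0 < M := by
    rw [hM]
    apply Real.log_pos
    have : 3 ≤ (B + 1) * N := le_trans hN3 (Nat.le_mul_of_pos_left N (by omega))
    have h5 : (3 : ℝ) ≤ (((B + 1) * N : ℕ) : ℝ) := by exact_mod_cast this
    linarith
  have hBNz : (((B + 1) * N : ℕ) : ℤ) = (B + 1) * N := by push_cast; rfl
  have h5 := c1 x (fun m => ((s m : ℕ) : ℤ) - ((y : ℤ) + 1)) (by
      intro m hm
      have h5 := hs m hm
      have h7 : ((s m : ℕ) : ℤ) ≤ (B + 1) * N := by rw [← hBNz]; exact_mod_cast h5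
      have h8 : (0 : ℤ) ≤ ((s m : ℕ) : ℤ) := Int.natCast_nonneg _
      have h9 : (y : ℤ) ≤ (B + 1) * N := by rw [← hBNz]; exact_mod_cast hy
      have h10 : (3 : ℤ) ≤ N := by exact_mod_cast hN3
      have h11 : (0 : ℤ) ≤ y := Int.natCast_nonneg _
      have h12 : ((B + 2 : ℕ) : ℤ) * N = (B + 1) * N + N := by push_cast; ring
      rw [abs_le, h12]
      constructor <;> linarith) (by
      have e := energy_eq h x s ((y : ℤ) + 1)
      rw [e]; exact hE) y (hy.trans (Nat.mul_le_mul_right _ (by omega))) z hz1 hz2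
    (fun a => if a ∈ Icc 1 y then (((ArithmeticFunction.vonMangoldt (y + 1 - a) : ℝ) / M : ℝ) : ℂ) else 0) (by
      intro a
      split_ifs with ha
      · rw [mem_Icc] at ha
        rw [Complex.norm_real, Real.norm_eq_abs, abs_div, abs_of_nonneg ArithmeticFunction.vonMangoldt_nonneg,
          abs_of_pos hM0, div_le_one hM0, hM]
        exact vM_le _ _ hBN (by omega)
      · rw [norm_zero]; exact zero_le_one)
  have h6 : ∀ m ∈ Icc 1 x, ‖∑ a ∈ Icc 1 y,
      (if a ∈ Icc 1 y then (((ArithmeticFunction.vonMangoldt (y + 1 - a) : ℝ) / M : ℝ) : ℂ) else 0) *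
      ((lamI ((a : ℤ) + (((s m : ℕ) : ℤ) - ((y : ℤ) + 1))) - lamzI z ((a : ℤ) + (((s m : ℕ) : ℤ) - ((y : ℤ) + 1))) : ℝ) : ℂ)‖ =
      |∑ n ∈ Icc 1 y, ArithmeticFunction.vonMangoldt n *
        (lamI (((s m : ℕ) : ℤ) - n) - lamzI z (((s m : ℕ) : ℤ) - n))| / M := by
    intro m _
    have h7 := Pool.Agent.W93.PG.reflect (fun n => ArithmeticFunction.vonMangoldt n) z y ((s m : ℕ) : ℤ)
    rw [← h7]
    have h8 : (∑ a ∈ Icc 1 y,
      (if a ∈ Icc 1 y then (((ArithmeticFunction.vonMangoldt (y + 1 - a) : ℝ) / M : ℝ) : ℂ) else 0) *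
      ((lamI ((a : ℤ) + (((s m : ℕ) : ℤ) - ((y : ℤ) + 1))) - lamzI z ((a : ℤ) + (((s m : ℕ) : ℤ) - ((y : ℤ) + 1))) : ℝ) : ℂ)) =
      (((∑ a ∈ Icc 1 y, ArithmeticFunction.vonMangoldt (y + 1 - a) *
        (lamI ((a : ℤ) + (((s m : ℕ) : ℤ) - ((y : ℤ) + 1))) - lamzI z ((a : ℤ) + (((s m : ℕ) : ℤ) - ((y : ℤ) + 1))))) / M : ℝ) : ℂ) := by
      rw [sum_div, Complex.ofReal_sum]
      apply sum_congr rfl
      intro a ha
      rw [if_pos ha, ← Complex.ofReal_mul]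
      congr 1
      ring
    rw [h8, Complex.norm_real, Real.norm_eq_abs, abs_div, abs_of_pos hM0]
  rw [sum_congr rfl h6, ← sum_div, div_le_iff₀ hM0] at h5
  have h9 : 0 ≤ (N : ℝ) * x / L ^ U := by positivity
  calc _ ≤ _ := h5
    _ = M * (N * x / L ^ U) := by ring
    _ ≤ _ := mul_le_mul_of_nonneg_right hM2 h9

set_option maxHeartbeats 4000000 in
/-- almost all members of a family of small energy have the predicted numbers of Goldbach pairs in all windows -/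
theorem fam_win (h B C A U m₀ : ℕ) (hh : 1 ≤ h) (ε : ℝ) (hε : 0 < ε) (P : ℕ → Prop)
    (hP : ∀ m : ℕ, m₀ ≤ m → 2 ∣ m → WinP ε A m → P m) :
    ∃ N₀ : ℕ, ∀ N : ℕ, N₀ ≤ N → ∀ (x : ℕ) (s : ℕ → ℕ),
      (∀ m ∈ Icc 1 x, s m ≤ B * N ∧ 2 ∣ s m) →
      (energy h x s : ℝ) * N ≤ Real.log N ^ C * (x : ℝ) ^ (2 * h) →
      ∀ S : Finset ℕ, S ⊆ Icc 1 x → (∀ m ∈ S, ¬ P (s m)) →
      (S.card : ℝ) ≤ x / Real.log N ^ U := by
  classical
  obtain ⟨W, hW⟩ : ∃ W : ℕ, W = C + 1 + 2 * h * (U + 1) := ⟨_, rfl⟩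
  obtain ⟨V, hV⟩ : ∃ V : ℕ, V = A + W + 4 := ⟨_, rfl⟩
  obtain ⟨U', hU'⟩ : ∃ U' : ℕ, U' = U + 2 * V + 10 := ⟨_, rfl⟩
  obtain ⟨B0, hB0⟩ := mom h B C U'
  obtain ⟨E1, hE1⟩ : ∃ E1, E1 = B0 + V + 6 := ⟨_, rfl⟩
  obtain ⟨n1, h1⟩ := hB0 (E1 + 2)
  obtain ⟨X1, hdet⟩ := pg_det V E1 (by omega)
  obtain ⟨X2, hwin⟩ := win_count ε hε A W
  obtain ⟨n3, h3⟩ := ev_L' ((h + 1) * (B + 1) + 2 ^ (E1 + 1) + 2 ^ (2 * V + 8) + B + 10)
  obtain ⟨n4, h4⟩ := ev_log' W 1
  refine ⟨n1 + X1 + X2 + n3 + n4 + m₀ ^ 2 + 4, fun N hN x s hs hE S hSx hS => ?_⟩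
  have hN4 : 4 ≤ N := by omega
  have hNr : (4 : ℝ) ≤ N := by exact_mod_cast hN4
  have hN0 : (0 : ℝ) < N := by linarith
  have c1 := h1 N (by omega)
  have c3 := h3 N (by omega)
  obtain ⟨L, hLd⟩ : ∃ L, L = Real.log (N : ℝ) := ⟨_, rfl⟩
  rw [← hLd] at c1 c3 hE ⊢
  have hB0r : (0 : ℝ) ≤ B := Nat.cast_nonneg _
  have hh0r : (0 : ℝ) ≤ h := Nat.cast_nonneg _
  have hpe : (0 : ℝ) < 2 ^ (E1 + 1) := by positivity
  have hpv : (0 : ℝ) < 2 ^ (2 * V + 8) := by positivity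
  have hhB : (0 : ℝ) ≤ (h + 1) * (B + 1) := by positivity
  have hL10 : 10 ≤ L := by linarith
  have hL1 : 1 ≤ L := by linarith
  have hL0 : 0 < L := by linarith
  have hLhB : ((h : ℝ) + 1) * (B + 1) ≤ L := by linarith
  have hLE : (2 : ℝ) ^ (E1 + 1) ≤ L := by linarith
  have hLV : (2 : ℝ) ^ (2 * V + 8) ≤ L := by linarith
  -- the number `X`
  obtain ⟨X, hX⟩ : ∃ X : ℕ, X = (B + 1) * N := ⟨_, rfl⟩
  have hNX : N ≤ X := by rw [hX]; exact Nat.le_mul_of_pos_left N (by omega)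
  have hXr : (X : ℝ) = (B + 1) * N := by rw [hX]; push_cast; rfl
  have hX0 : (0 : ℝ) < X := by rw [hXr]; positivity
  have hX4 : (4 : ℝ) ≤ X := hNr.trans (by exact_mod_cast hNX)
  obtain ⟨M, hM⟩ : ∃ M, M = Real.log (X : ℝ) := ⟨_, rfl⟩
  have hLM : L ≤ M := by
    rw [hLd, hM]
    exact Real.log_le_log hN0 (by exact_mod_cast hNX)
  have hM2 : M ≤ 2 * L := by
    rw [hM, hXr, Real.log_mul (by positivity) hN0.ne', ← hLd]
    have h7 : Real.log (B + 1) ≤ B := by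
      have := Real.log_le_sub_one_of_pos (show (0 : ℝ) < B + 1 by positivity)
      linarith
    linarith
  have hM1 : 1 ≤ M := hL1.trans hLM
  have hM0 : 0 < M := by linarith
  have c4 := h4 X (by omega)
  rw [one_mul, ← hM] at c4
  have hss : √(X : ℝ) * √(X : ℝ) = X := Real.mul_self_sqrt hX0.le
  have hs0 : 0 < √(X : ℝ) := Real.sqrt_pos.2 hX0
  have hs1 : 1 ≤ √(X : ℝ) := (one_le_pow₀ hM1).trans c4
  have hfl : ∀ E : ℕ, M ^ E ≤ (⌈M ^ E⌉₊ : ℝ) ∧ (⌈M ^ E⌉₊ : ℝ) ≤ M ^ (E + 1) := by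
    intro E
    refine ⟨Nat.le_ceil _, ?_⟩
    have h5 : (⌈M ^ E⌉₊ : ℝ) < M ^ E + 1 := Nat.ceil_lt_add_one (by positivity)
    have h6 : 1 ≤ M ^ E := one_le_pow₀ hM1
    rw [pow_succ]
    nlinarith
  obtain ⟨z, hz⟩ : ∃ z, z = ⌈M ^ E1⌉₊ := ⟨_, rfl⟩
  have hz1 : M ^ E1 ≤ z := by rw [hz]; exact (hfl E1).1
  have hz2 : (z : ℝ) ≤ M ^ (E1 + 1) := by rw [hz]; exact (hfl E1).2
  obtain ⟨T, hT⟩ : ∃ T, T = ⌈M ^ (V + 3)⌉₊ := ⟨_, rfl⟩
  have hT1 : M ^ (V + 3) ≤ T := by rw [hT]; exact (hfl (V + 3)).1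
  have hT2 : (T : ℝ) ≤ M ^ (V + 4) := by rw [hT]; exact (hfl (V + 3)).2
  have hz3 : L ^ B0 ≤ z := by
    refine le_trans ?_ hz1
    calc L ^ B0 ≤ M ^ B0 := pow_le_pow_left₀ hL0.le hLM _
      _ ≤ M ^ E1 := pow_le_pow_right₀ hM1 (by omega)
  have hz4 : (z : ℝ) ≤ L ^ (E1 + 2) := by
    refine hz2.trans ?_
    calc M ^ (E1 + 1) ≤ (2 * L) ^ (E1 + 1) := pow_le_pow_left₀ hM0.le hM2 _
      _ = 2 ^ (E1 + 1) * L ^ (E1 + 1) := mul_pow _ _ _
      _ ≤ L * L ^ (E1 + 1) := mul_le_mul_of_nonneg_right hLE (by positivity)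
      _ = L ^ (E1 + 2) := by ring
  have hmom := c1 x s (fun m hm => (hs m hm).1.trans (Nat.mul_le_mul_right _ (by omega))) hE z hz3 hz4
  rw [← hX] at hmom
  have hx0 : (0 : ℝ) ≤ x := Nat.cast_nonneg _
  -- small members
  obtain ⟨S1, hS1⟩ : ∃ S1, S1 = S.filter (fun m => (s m : ℝ) < X / M ^ W) := ⟨_, rfl⟩
  obtain ⟨S2, hS2⟩ : ∃ S2, S2 = S.filter (fun m => ¬ (s m : ℝ) < X / M ^ W) := ⟨_, rfl⟩
  have hcard : S.card = S1.card + S2.card := by
    rw [hS1, hS2, card_filter_add_card_filter_not]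
  have hYpos : 1 ≤ (X : ℝ) / M ^ W := by
    rw [le_div_iff₀ (by positivity), one_mul]
    calc M ^ W ≤ √(X : ℝ) := c4
      _ ≤ √(X : ℝ) * √(X : ℝ) := le_mul_of_one_le_left hs0.le hs1
      _ = X := hss
  have hb1 : (S1.card : ℝ) ≤ x / L ^ (U + 1) := by
    have h5 := small_count h x ⌊(X : ℝ) / M ^ W⌋₊ s S1 (by rw [hS1]; exact (filter_subset _ _).trans hSx) (by
      intro m hm
      rw [hS1, mem_filter] at hm
      exact Nat.le_floor hm.2.le)
    have h6 : (S1.card : ℝ) ^ (2 * h) ≤ (h * ⌊(X : ℝ) / M ^ W⌋₊ + 1) * energy h x s := by exact_mod_cast h5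
    have h7 : ((h : ℝ) * ⌊(X : ℝ) / M ^ W⌋₊ + 1) ≤ (h + 1) * (X / M ^ W) := by
      have := Nat.floor_le (show 0 ≤ (X : ℝ) / M ^ W by positivity)
      have := mul_le_mul_of_nonneg_left this hh0r
      linarith
    have h8 : (S1.card : ℝ) ^ (2 * h) * N ≤ (x / L ^ (U + 1)) ^ (2 * h) * N := by
      calc (S1.card : ℝ) ^ (2 * h) * N ≤ ((h * ⌊(X : ℝ) / M ^ W⌋₊ + 1) * energy h x s) * N :=
            mul_le_mul_of_nonneg_right h6 hN0.le
        _ = (h * ⌊(X : ℝ) / M ^ W⌋₊ + 1) * (energy h x s * N) := by ring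
        _ ≤ ((h + 1) * (X / M ^ W)) * (L ^ C * (x : ℝ) ^ (2 * h)) := by
            apply mul_le_mul h7 hE (by positivity) (by positivity)
        _ ≤ ((h + 1) * (X / L ^ W)) * (L ^ C * (x : ℝ) ^ (2 * h)) := by
            apply mul_le_mul_of_nonneg_right _ (by positivity)
            apply mul_le_mul_of_nonneg_left _ (by positivity)
            exact div_le_div_of_nonneg_left hX0.le (by positivity) (pow_le_pow_left₀ hL0.le hLM _)
        _ = (((h + 1) * (B + 1)) * (N / L ^ W)) * (L ^ C * (x : ℝ) ^ (2 * h)) := by rw [hXr]; ring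
        _ ≤ (L * (N / L ^ W)) * (L ^ C * (x : ℝ) ^ (2 * h)) := by
            apply mul_le_mul_of_nonneg_right _ (by positivity)
            apply mul_le_mul_of_nonneg_right hLhB (by positivity)
        _ = (x / L ^ (U + 1)) ^ (2 * h) * N := by
            have e : L ^ W = L ^ C * L * (L ^ (U + 1)) ^ (2 * h) := by
              rw [hW, ← pow_mul, ← pow_succ, ← pow_add]
              congr 1
              ring
            rw [e, div_pow]
            field_simp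
    have h9 := le_of_mul_le_mul_right h8 hN0
    exact le_of_pow_le_pow_left₀ (by omega) (by positivity) h9
  -- the other members
  have hb2 : (S2.card : ℝ) ≤ x / L ^ (U + 1) := by
    have key := markov (Icc 1 x) (range (T + 1)) (fun _ => (1 : ℝ)) (fun _ _ => zero_le_one)
      (fun m i => |∑ n ∈ Icc 1 (min (i * (X / T + 1)) X), ArithmeticFunction.vonMangoldt n *
        (lamI (((s m : ℕ) : ℤ) - n) - lamzI z (((s m : ℕ) : ℤ) - n))|)
      (fun _ _ => abs_nonneg _) (fun m => m ∈ S2) (X / M ^ (V + 2)) (2 * L * (N * x / L ^ U')) (by positivity) (by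
        intro m hm hmS
        by_contra hcon
        push Not at hcon
        rw [hS2, mem_filter, not_lt] at hmS
        obtain ⟨a1, a2⟩ := hs m hm
        have hmX : s m ≤ X := by rw [hX]; exact a1.trans (Nat.mul_le_mul_right _ (by omega))
        have hm0 : s m ≠ 0 := by
          intro h0
          have := hYpos.trans hmS.2
          rw [h0] at this
          norm_num at this
        have hG : GoodG V X (s m) := by
          intro y hy
          refine hdet X (by omega) (s m) hmX a2 hm0 z (by rw [← hM]; exact hz1) (by rw [← hM]; exact hz2) T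
            (by rw [← hM]; exact hT1) ?_ y hy
          intro i hi
          rw [← hM]
          exact (hcon i hi).le
        have hmsq : √(X : ℝ) ≤ s m := by
          refine le_trans ?_ hmS.2
          rw [le_div_iff₀ (by positivity)]
          calc √(X : ℝ) * M ^ W ≤ √(X : ℝ) * √(X : ℝ) := mul_le_mul_of_nonneg_left c4 hs0.le
            _ = X := hss
        have hmm : m₀ ≤ s m := by
          have h5 : ((m₀ : ℕ) : ℝ) ≤ √(X : ℝ) := by
            apply Real.le_sqrt_of_sq_le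
            exact_mod_cast (by omega : m₀ ^ 2 ≤ X)
          exact_mod_cast h5.trans hmsq
        apply hS m hmS.1
        apply hP (s m) hmm a2
        intro y₁ y₂ h12 hy2 hΔ
        exact hwin X (by omega) (s m) hmX (by rw [← hM]; exact hmS.2) (by rw [← hV]; exact hG) y₁ y₂ h12 hy2 hΔ)
      (by
        intro i _
        refine le_trans (le_of_eq ?_) (hmom (min (i * (X / T + 1)) X) (min_le_right _ _))
        apply sum_congr rfl
        intro m _
        rw [one_mul])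
    have hleft : (S2.card : ℝ) = ∑ m ∈ Icc 1 x, (if m ∈ S2 then (1 : ℝ) else 0) := by
      have hsub : S2 ⊆ Icc 1 x := by rw [hS2]; exact (filter_subset _ _).trans hSx
      rw [sum_ite_mem, inter_eq_right.2 hsub, sum_const, nsmul_eq_mul, mul_one]
    rw [← hleft, card_range] at key
    refine key.trans ?_
    push_cast
    have hT3 : (T : ℝ) + 1 ≤ M ^ (V + 5) := by
      have h6 : 1 ≤ M ^ (V + 4) := one_le_pow₀ hM1
      have h7 : 2 ≤ M := by linarith
      rw [show V + 5 = (V + 4) + 1 by ring, pow_succ M (V + 4)]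
      nlinarith
    calc ((T : ℝ) + 1) * (2 * L * (N * x / L ^ U')) / (X / M ^ (V + 2))
        ≤ M ^ (V + 5) * (2 * L * (N * x / L ^ U')) / (N / M ^ (V + 2)) := by
          have : (N : ℝ) ≤ X := by exact_mod_cast hNX
          gcongr
      _ = 2 * M ^ (2 * V + 7) * (x * L / L ^ U') := by
          rw [show 2 * V + 7 = (V + 5) + (V + 2) by ring, pow_add M (V + 5) (V + 2)]
          field_simp
      _ ≤ 2 * (2 * L) ^ (2 * V + 7) * (x * L / L ^ U') := by gcongr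
      _ = 2 ^ (2 * V + 8) * (x * L ^ (2 * V + 8) / L ^ U') := by
          rw [mul_pow, pow_succ (2 : ℝ) (2 * V + 7), pow_succ L (2 * V + 7)]
          ring
      _ ≤ L * (x * L ^ (2 * V + 8) / L ^ U') := mul_le_mul_of_nonneg_right hLV (by positivity)
      _ = x / L ^ (U + 1) := by
          have e : L ^ U' = L ^ (U + 1) * (L * L ^ (2 * V + 8)) := by
            rw [hU', ← pow_succ', ← pow_add]
            congr 1
            ring
          rw [e]
          field_simp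
  rw [hcard]
  push_cast
  have e1 : (x : ℝ) / L ^ (U + 1) = x / L ^ U / L := by rw [pow_succ, div_div]
  have hq : 0 ≤ (x : ℝ) / L ^ U := by positivity
  have i1 : (x : ℝ) / L ^ U / L ≤ (x / L ^ U) / 2 := div_le_div_of_nonneg_left hq (by norm_num) (by linarith)
  calc (S1.card : ℝ) + S2.card ≤ x / L ^ (U + 1) + x / L ^ (U + 1) := add_le_add hb1 hb2
    _ ≤ (x / L ^ U) / 2 + (x / L ^ U) / 2 := by rw [e1]; exact add_le_add i1 i1
    _ = x / L ^ U := by ring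

end Pool.Agent.TH935.GF
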