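import Pool.Agent.TH935.LF1
import Pool.Agent.H373R2.T7.SupE2

set_option autoImplicit false

/-! The von Mangoldt function minus its model on the values of a linear form, along a family of nearly
minimal additive energy. -/

namespace Pool.Agent.TH935.LF

open Finset Pool.Agent.H373R2.T7
open Pool.Agent.H807R2.Dav

/-- the dilated difference -/
noncomputable def fa (z a n : ℕ) : ℂ :=
  if a ∣ n then ((ArithmeticFunction.vonMangoldt (n / a) - lamz z (n / a) : ℝ) : ℂ) else 0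

/-- the dilated difference on the integers -/
noncomputable def Dz (z a : ℕ) (k : ℤ) : ℝ :=
  if (a : ℤ) ∣ k then lamI (k / a) - lamzI z (k / a) else 0

lemma fz_fa (z a H : ℕ) (ha : 1 ≤ a) (k : ℤ) (hk : k ≤ H) : fz (fa z a) H k = ((Dz z a k : ℝ) : ℂ) := by
  unfold fz fa Dz
  have ha0 : (0 : ℤ) < a := by exact_mod_cast ha
  by_cases h1 : 1 ≤ k
  · rw [if_pos ⟨h1, hk⟩]
    obtain ⟨n, hn⟩ : ∃ n : ℕ, (n : ℤ) = k := ⟨k.toNat, Int.toNat_of_nonneg (by omega)⟩
    subst hn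
    rw [Int.toNat_natCast]
    by_cases h2 : a ∣ n
    · have h3 : (a : ℤ) ∣ (n : ℤ) := by exact_mod_cast h2
      rw [if_pos h2, if_pos h3]
      have h4 : (n : ℤ) / (a : ℤ) = ((n / a : ℕ) : ℤ) := by norm_cast
      have h5 : 1 ≤ n / a := by
        obtain ⟨c, hc⟩ := h2
        rw [hc, Nat.mul_div_cancel_left _ (by omega)]
        rcases Nat.eq_zero_or_pos c with h | h
        · rw [h] at hc; omega
        · exact h
      unfold lamI lamzI
      rw [h4, if_pos (by exact_mod_cast h5), if_pos (by exact_mod_cast h5), Int.toNat_natCast]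
    · have h3 : ¬ (a : ℤ) ∣ (n : ℤ) := by exact_mod_cast h2
      rw [if_neg h2, if_neg h3]
      simp
  · rw [if_neg (fun h => h1 h.1)]
    by_cases h3 : (a : ℤ) ∣ k
    · rw [if_pos h3]
      have h4 : ¬ 1 ≤ k / a := by
        intro h5
        have h6 := Int.ediv_mul_cancel h3
        nlinarith
      unfold lamI lamzI
      rw [if_neg h4, if_neg h4]
      simp
    · rw [if_neg h3]
      simp

lemma fa_sup (D U : ℕ) : ∃ B0 : ℕ, ∀ E : ℕ, ∃ N0 : ℕ, ∀ H : ℕ, N0 ≤ H → ∀ z : ℕ, Real.log H ^ B0 ≤ z →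
    (z : ℝ) ≤ Real.log H ^ E → ∀ a : ℕ, 1 ≤ a → (a : ℝ) ≤ Real.log H ^ D → ∀ α : ℝ,
    ‖∑ n ∈ Icc 1 H, fa z a n * ee ((n : ℝ) * α)‖ ≤ H / Real.log H ^ U := by
  obtain ⟨B1, hB1⟩ := sup_diff (U + 1)
  refine ⟨B1, fun E => ?_⟩
  obtain ⟨n1, h1⟩ := hB1 (E + 1)
  obtain ⟨n2, h2⟩ := ev_log' (D + 1) 1
  obtain ⟨n3, h3⟩ := ev_L' (2 ^ (U + 1) + 2 * 2 ^ E + 4)
  refine ⟨n1 ^ 2 + n2 + n3 + 4, fun H hH z hz1 hz2 a ha1 ha2 α => ?_⟩
  have b2 := h2 H (by omega)
  have b3 := h3 H (by omega)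
  obtain ⟨L, hL⟩ : ∃ L, L = Real.log (H : ℝ) := ⟨_, rfl⟩
  rw [← hL] at b2 b3 hz1 hz2 ha2 ⊢
  rw [one_mul] at b2
  have hp1 : (0 : ℝ) < 2 ^ (U + 1) := by positivity
  have hp2 : (0 : ℝ) < 2 ^ E := by positivity
  have hL4 : 4 ≤ L := by linarith
  have hL1 : 1 ≤ L := by linarith
  have hL0 : 0 < L := by linarith
  have hH4 : (4 : ℝ) ≤ H := by exact_mod_cast (by omega : 4 ≤ H)
  have hH0 : (0 : ℝ) < H := by linarith
  have hss : √(H : ℝ) * √(H : ℝ) = H := Real.mul_self_sqrt hH0.le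
  have hs0 : 0 < √(H : ℝ) := Real.sqrt_pos.2 hH0
  have ha0 : (0 : ℝ) < a := by exact_mod_cast ha1
  have hsH2 : 2 ≤ √(H : ℝ) := by
    apply Real.le_sqrt_of_sq_le
    linarith
  -- the length
  obtain ⟨H', hH'⟩ : ∃ H', H' = H / a := ⟨_, rfl⟩
  have hq : √(H : ℝ) ≤ H' := by
    have e1 : (H : ℝ) / a - 1 ≤ H' := by
      rw [hH']
      have := Nat.lt_floor_add_one ((H : ℝ) / a)
      rw [Nat.floor_div_natCast, Nat.floor_natCast] at this
      linarith
    have e2 : √(H : ℝ) * L ≤ (H : ℝ) / a := by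
      rw [le_div_iff₀ ha0]
      calc √(H : ℝ) * L * a ≤ √(H : ℝ) * L * L ^ D := mul_le_mul_of_nonneg_left ha2 (by positivity)
        _ = √(H : ℝ) * L ^ (D + 1) := by ring
        _ ≤ √(H : ℝ) * √(H : ℝ) := mul_le_mul_of_nonneg_left b2 hs0.le
        _ = H := hss
    nlinarith
  have hH'n : n1 ≤ H' := by
    have e1 : ((n1 : ℕ) : ℝ) ≤ √(H : ℝ) := by
      apply Real.le_sqrt_of_sq_le
      exact_mod_cast (by omega : n1 ^ 2 ≤ H)
    exact_mod_cast e1.trans hq
  have hH'0 : (0 : ℝ) < H' := by linarith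
  have hH'le : (H' : ℝ) ≤ H := by
    rw [hH']
    exact_mod_cast Nat.div_le_self H a
  have hl1 : L / 2 ≤ Real.log H' := by
    have e1 : Real.log (√(H : ℝ)) = L / 2 := by rw [Real.log_sqrt hH0.le, ← hL]
    rw [← e1]
    exact Real.log_le_log hs0 hq
  have hl2 : Real.log H' ≤ L := by rw [hL]; exact Real.log_le_log hH'0 hH'le
  have hl0 : 0 < Real.log H' := by linarith
  have key := h1 H' hH'n z ((pow_le_pow_left₀ hl0.le hl2 _).trans hz1) (by
    refine hz2.trans ?_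
    calc L ^ E ≤ (2 * Real.log H') ^ E := pow_le_pow_left₀ hL0.le (by linarith) _
      _ = 2 ^ E * Real.log H' ^ E := mul_pow _ _ _
      _ ≤ Real.log H' * Real.log H' ^ E := by
          apply mul_le_mul_of_nonneg_right _ (by positivity)
          linarith
      _ = Real.log H' ^ (E + 1) := by ring) ((a : ℝ) * α)
  have hsum : ∑ n ∈ Icc 1 H, fa z a n * ee ((n : ℝ) * α) =
      ∑ n ∈ Icc 1 H', ((ArithmeticFunction.vonMangoldt n - lamz z n : ℝ) : ℂ) * ee ((n : ℝ) * (a * α)) := by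
    have e1 : ∑ n ∈ Icc 1 H, fa z a n * ee ((n : ℝ) * α) =
        ∑ n ∈ (Icc 1 H).filter (fun n => a ∣ n), fa z a n * ee ((n : ℝ) * α) := by
      rw [sum_filter]
      apply sum_congr rfl
      intro n _
      unfold fa
      split_ifs
      · rfl
      · rw [zero_mul]
    rw [e1]
    symm
    apply sum_bij (fun n _ => a * n)
    · intro n hn
      rw [mem_Icc] at hn
      rw [mem_filter, mem_Icc]
      refine ⟨⟨?_, ?_⟩, dvd_mul_right _ _⟩
      · exact Nat.mul_pos (by omega) (by omega)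
      · calc a * n ≤ a * (H / a) := Nat.mul_le_mul_left _ (by rw [← hH']; exact hn.2)
          _ ≤ H := Nat.mul_div_le H a
    · intro n _ n' _ h
      exact Nat.eq_of_mul_eq_mul_left (by omega) h
    · intro m hm
      rw [mem_filter, mem_Icc] at hm
      obtain ⟨n, hn⟩ := hm.2
      subst hn
      refine ⟨n, ?_, rfl⟩
      rw [mem_Icc]
      constructor
      · rcases Nat.eq_zero_or_pos n with h | h
        · rw [h] at hm; omega
        · exact h
      · rw [hH']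
        exact (Nat.le_div_iff_mul_le (by omega)).2 (by rw [mul_comm]; exact hm.1.2)
    · intro n _
      unfold fa
      rw [if_pos (dvd_mul_right _ _), Nat.mul_div_cancel_left _ (by omega)]
      congr 2
      push_cast
      ring
  rw [hsum]
  refine key.trans ?_
  have f1 : (L / 2) ^ (U + 1) ≤ Real.log H' ^ (U + 1) := pow_le_pow_left₀ (by linarith) hl1 _
  rw [div_le_div_iff₀ (by positivity) (by positivity)]
  calc (H' : ℝ) * L ^ U ≤ H * L ^ U := mul_le_mul_of_nonneg_right hH'le (by positivity)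
    _ ≤ H * Real.log H' ^ (U + 1) := by
        apply mul_le_mul_of_nonneg_left _ hH0.le
        refine le_trans ?_ f1
        rw [div_pow, le_div_iff₀ hp1, pow_succ L U]
        apply mul_le_mul_of_nonneg_left _ (by positivity)
        linarith

/-- reindexing -/
lemma reidx (y A : ℕ) (φ : ℕ → ℕ) (hφ : ∀ q ∈ Icc 1 y, φ q ∈ Icc 1 A)
    (hinj : ∀ q ∈ Icc 1 y, ∀ q' ∈ Icc 1 y, φ q = φ q' → q = q') (G : ℕ → ℝ) (K : ℝ) (hK : 0 < K)
    (hG : ∀ q ∈ Icc 1 y, |G q| ≤ K) :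
    ∃ G' : ℕ → ℂ, (∀ a, ‖G' a‖ ≤ 1) ∧ ∀ F : ℕ → ℝ,
      (((∑ q ∈ Icc 1 y, G q * F (φ q)) / K : ℝ) : ℂ) = ∑ a ∈ Icc 1 A, G' a * ((F a : ℝ) : ℂ) := by
  classical
  refine ⟨fun a => (((∑ q ∈ Icc 1 y, if φ q = a then G q else 0) / K : ℝ) : ℂ), ?_, ?_⟩
  · intro a
    rw [Complex.norm_real, Real.norm_eq_abs, abs_div, abs_of_pos hK, div_le_one hK]
    by_cases h : ∃ q ∈ Icc 1 y, φ q = a
    · obtain ⟨q, hq, hqa⟩ := h
      rw [sum_eq_single_of_mem q hq]
      · rw [if_pos hqa]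
        exact hG q hq
      · intro q' hq' hne
        rw [if_neg]
        intro h2
        exact hne (hinj q' hq' q hq (h2.trans hqa.symm))
    · rw [sum_eq_zero]
      · rw [abs_zero]; exact hK.le
      · intro q hq
        rw [if_neg]
        intro h2
        exact h ⟨q, hq, h2⟩
  · intro F
    have e1 : ∑ a ∈ Icc 1 A, (∑ q ∈ Icc 1 y, if φ q = a then G q else 0) * F a = ∑ q ∈ Icc 1 y, G q * F (φ q) := by
      simp only [sum_mul]
      rw [sum_comm]
      apply sum_congr rfl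
      intro q hq
      rw [sum_eq_single_of_mem (φ q) (hφ q hq)]
      · rw [if_pos rfl]
      · intro a _ hne
        rw [if_neg (Ne.symm hne), zero_mul]
    rw [← e1, sum_div]
    push_cast
    apply sum_congr rfl
    intro a _
    ring

end Pool.Agent.TH935.LF
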