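import Pool.Agent.TH935.LF10

set_option autoImplicit false

/-! Values of linear forms at primes in windows: the asymptotic formula for the numbers of prime pairs. -/

namespace Pool.Agent.TH935.LF

open Finset Pool.Agent.H373R2.T7
open Pool.Agent.H560R3.GB (sing)
open Pool.Agent.W93.GB (one_le_sing)

/-- all windows contain the expected number of prime pairs, for all admissible linear forms with small
coefficients -/
def HW (ε : ℝ) (A B D N : ℕ) (c : ℤ) : Prop :=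
  ∀ (a : ℕ) (b : ℤ), 1 ≤ a → (a : ℝ) ≤ Real.log N ^ D → b ≠ 0 → (b.natAbs : ℝ) ≤ Real.log N ^ D →
    IsCoprime (a : ℤ) b → IsCoprime (a : ℤ) c → IsCoprime b c → 2 ∣ a * b * c →
    ∀ y₁ y₂ : ℕ, y₁ < y₂ → y₂ ≤ B * N → (N : ℝ) / Real.log N ^ A ≤ (y₂ : ℝ) - y₁ →
    (∀ q ∈ Ioc y₁ y₂, 0 < c + b * (q : ℤ)) →
      |(cn a b c y₁ y₂ : ℝ) - sing (a * b * c).natAbs * ((y₂ : ℝ) - y₁) / (a * Real.log N ^ 2)| ≤
        ε * (sing (a * b * c).natAbs * ((y₂ : ℝ) - y₁) / (a * Real.log N ^ 2))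

lemma num2 (ε : ℝ) (hε : 0 < ε) (hε1 : ε ≤ 1 / 2) :
    1 ≤ (1 + ε / 2) * (1 - ε / 8) ^ 2 ∧ (1 + ε / 16) * (1 + ε / 2) + ε / 4 ≤ 1 + ε ∧
      (1 - ε) * (1 + ε / 8) ^ 2 ≤ 1 - ε / 2 := by
  have h1 : ε * ε ≤ ε / 2 := by nlinarith
  have h3 : 0 ≤ ε * ε * ε := by positivity
  have h2 : 0 ≤ ε * ε := by positivity
  refine ⟨?_, ?_, ?_⟩
  · have e : (1 + ε / 2) * (1 - ε / 8) ^ 2 = 1 + ε / 4 - 7 / 64 * (ε * ε) + 1 / 128 * (ε * ε * ε) := by ring
    rw [e]
    linarith
  · have e : (1 + ε / 16) * (1 + ε / 2) + ε / 4 = 1 + 13 / 16 * ε + 1 / 32 * (ε * ε) := by ring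
    rw [e]
    linarith
  · have e : (1 - ε) * (1 + ε / 8) ^ 2 = 1 - 3 / 4 * ε - 15 / 64 * (ε * ε) - 1 / 64 * (ε * ε * ε) := by ring
    rw [e]
    linarith

set_option maxHeartbeats 4000000 in
theorem win_asym (ε : ℝ) (hε : 0 < ε) (hε1 : ε ≤ 1 / 2) (A B D : ℕ) : ∃ N0 : ℕ, ∀ N : ℕ, N0 ≤ N → ∀ X : ℕ,
    (N : ℝ) * Real.log N ^ (D + 1) ≤ X → (X : ℝ) ≤ N * Real.log N ^ (D + 2) → ∀ c : ℤ, c.natAbs ≤ B * N →
    GG (A + 2 * D + 6) D X (B * N) c → HW ε A B D N c := by
  obtain ⟨n1, h1⟩ := ev_L' ((32 * (A + D + 4) / ε) ^ 2 + 64 / ε + 64 + B)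
  obtain ⟨n2, h2⟩ := ev_log' (A + 2 * D + 10) 1
  refine ⟨n1 + n2 + 4, fun N hN X hX1 hX2 c hc hG a b ha haL hb hbL hab hac hbc h2abc y₁ y₂ h12 hy2 hΔ hpos => ?_⟩
  have b1 := h1 N (by omega)
  have b2 := h2 N (by omega)
  obtain ⟨L, hL⟩ : ∃ L, L = Real.log (N : ℝ) := ⟨_, rfl⟩
  rw [← hL] at b1 b2 hX1 hX2 haL hbL hΔ ⊢
  rw [one_mul] at b2
  have hp1 : 0 < (32 * ((A : ℝ) + D + 4) / ε) ^ 2 := by positivity
  have hp2 : 0 < 64 / ε := by positivity
  have hB0 : (0 : ℝ) ≤ B := Nat.cast_nonneg _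
  have hL64 : 64 ≤ L := by linarith
  have hL1 : 1 ≤ L := by linarith
  have hL0 : 0 < L := by linarith
  have hLB : (B : ℝ) ≤ L := by linarith
  have hLε : 64 ≤ L * ε := by
    have : 64 / ε ≤ L := by linarith
    rwa [div_le_iff₀ hε] at this
  have hNr : (4 : ℝ) ≤ N := by exact_mod_cast (by omega : 4 ≤ N)
  have hN0 : (0 : ℝ) < N := by linarith
  have hss : √(N : ℝ) * √(N : ℝ) = N := Real.mul_self_sqrt hN0.le
  have hs0 : 0 < √(N : ℝ) := Real.sqrt_pos.2 hN0
  have hs1 : 1 ≤ √(N : ℝ) := (one_le_pow₀ hL1).trans b2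
  -- `X`
  have hNX : (N : ℝ) ≤ X := (le_mul_of_one_le_right hN0.le (one_le_pow₀ hL1)).trans hX1
  have hX0 : (0 : ℝ) < X := by linarith
  have hXn : 1 ≤ X := by exact_mod_cast (show (0 : ℝ) < X from hX0)
  obtain ⟨LX, hLX⟩ : ∃ LX, LX = Real.log (X : ℝ) := ⟨_, rfl⟩
  have hLLX : L ≤ LX := by rw [hL, hLX]; exact Real.log_le_log hN0 hNX
  have hLX0 : 0 < LX := by linarith
  -- logarithms
  have hlogL : ((A : ℝ) + D + 4) * Real.log L ≤ ε / 16 * L := by
    have d2 : Real.log L ≤ 2 * √L := by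
      have d3 := Real.log_le_sub_one_of_pos (Real.sqrt_pos.2 hL0)
      rw [Real.log_sqrt hL0.le] at d3
      linarith [Real.sqrt_nonneg L]
    have d4 : 32 * ((A : ℝ) + D + 4) / ε ≤ √L := by
      apply Real.le_sqrt_of_sq_le
      linarith
    have d5 : 32 * ((A : ℝ) + D + 4) ≤ √L * ε := by rwa [div_le_iff₀ hε] at d4
    have d6 : √L * √L = L := Real.mul_self_sqrt hL0.le
    calc ((A : ℝ) + D + 4) * Real.log L ≤ ((A : ℝ) + D + 4) * (2 * √L) := mul_le_mul_of_nonneg_left d2 (by positivity)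
      _ = (32 * ((A : ℝ) + D + 4)) * √L / 16 := by ring
      _ ≤ (√L * ε) * √L / 16 := by
          apply div_le_div_of_nonneg_right _ (by norm_num)
          exact mul_le_mul_of_nonneg_right d5 (Real.sqrt_nonneg _)
      _ = ε / 16 * (√L * √L) := by ring
      _ = ε / 16 * L := by rw [d6]
  have hlL0 : 0 ≤ Real.log L := Real.log_nonneg hL1
  have hlog2X : Real.log (2 * X : ℕ) ≤ (1 + ε / 8) * L := by
    have e1 : ((2 * X : ℕ) : ℝ) ≤ 2 * (N * L ^ (D + 2)) := by push_cast; linarith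
    have e2 := Real.log_le_log (by push_cast; linarith) e1
    rw [Real.log_mul (by norm_num) (by positivity), Real.log_mul (by positivity) (by positivity), Real.log_pow, ← hL] at e2
    have e3 : Real.log 2 ≤ 1 := by
      have := Real.log_le_sub_one_of_pos (show (0 : ℝ) < 2 by norm_num)
      linarith
    have e4 : ((D + 2 : ℕ) : ℝ) * Real.log L ≤ ε / 16 * L := by
      refine le_trans ?_ hlogL
      apply mul_le_mul_of_nonneg_right _ hlL0
      push_cast
      have : (0 : ℝ) ≤ A := Nat.cast_nonneg _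
      linarith
    have e5 : 1 ≤ ε / 16 * L := by linarith
    linarith
  have hlog2X0 : 0 < Real.log (2 * X : ℕ) := by
    apply Real.log_pos
    push_cast
    linarith
  -- the main quantity
  have ha0 : (0 : ℝ) < a := by exact_mod_cast ha
  have ha1 : (1 : ℝ) ≤ a := by exact_mod_cast ha
  obtain ⟨S, hS⟩ : ∃ S, S = sing (a * b * c).natAbs := ⟨_, rfl⟩
  have hS1 : 1 ≤ S := by rw [hS]; exact one_le_sing _
  obtain ⟨Q, hQ⟩ : ∃ Q, Q = S / a * ((y₂ : ℝ) - y₁) := ⟨_, rfl⟩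
  have hΔ0 : 0 < (y₂ : ℝ) - y₁ := lt_of_lt_of_le (by positivity) hΔ
  have hQ0 : 0 < Q := by rw [hQ]; positivity
  have hQlow : (N : ℝ) / L ^ (A + D) ≤ Q := by
    have e1 : 1 / L ^ D ≤ S / a := by
      rw [div_le_div_iff₀ (by positivity) ha0, one_mul]
      calc (a : ℝ) ≤ L ^ D := haL
        _ ≤ S * L ^ D := le_mul_of_one_le_left (by positivity) hS1
    calc (N : ℝ) / L ^ (A + D) = 1 / L ^ D * (N / L ^ A) := by rw [pow_add]; field_simp
      _ ≤ S / a * ((y₂ : ℝ) - y₁) := mul_le_mul e1 hΔ (by positivity) (by positivity)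
      _ = Q := hQ.symm
  have hgoal : sing (a * b * c).natAbs * ((y₂ : ℝ) - y₁) / (a * L ^ 2) = Q / L ^ 2 := by
    rw [hQ, ← hS]; field_simp
  rw [hgoal]
  -- the weighted number
  have hWt : |Wt a b c y₁ y₂ - Q| ≤ Q / L := by
    have g1 := hG a b ha (haL.trans (by rw [← hLX]; exact pow_le_pow_left₀ hL0.le hLLX _)) hb
      (hbL.trans (by rw [← hLX]; exact pow_le_pow_left₀ hL0.le hLLX _)) hab hac hbc h2abc y₁ y₂ h12.le hy2 hpos
    rw [← hS, ← hQ, ← hLX] at g1
    refine g1.trans ?_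
    have e1 : (X : ℝ) / LX ^ (A + 2 * D + 6) ≤ N * L ^ (D + 2) / L ^ (A + 2 * D + 6) := by
      apply div_le_div₀ (by positivity) hX2 (by positivity)
      exact pow_le_pow_left₀ hL0.le hLLX _
    have e2 : (N : ℝ) * L ^ (D + 2) / L ^ (A + 2 * D + 6) = N / L ^ (A + D) / L ^ 4 := by
      rw [show A + 2 * D + 6 = (D + 2) + (A + D) + 4 by ring, pow_add L (D + 2 + (A + D)) 4, pow_add L (D + 2) (A + D)]
      field_simp
    rw [e2] at e1
    refine e1.trans ?_
    calc (N : ℝ) / L ^ (A + D) / L ^ 4 ≤ Q / L ^ 4 := div_le_div_of_nonneg_right hQlow (by positivity)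
      _ ≤ Q / L := by
          apply div_le_div_of_nonneg_left hQ0.le hL0
          exact le_self_pow₀ hL1 (by norm_num)
  rw [abs_le] at hWt
  have hQL : Q / L ≤ Q * (ε / 64) := by
    rw [div_le_iff₀ hL0]
    nlinarith
  obtain ⟨num_a, num_b, num_c⟩ := num2 ε hε hε1
  have hBN : y₂ ≤ X := by
    have h5 : (y₂ : ℝ) ≤ X := by
      have e1 : (y₂ : ℝ) ≤ B * N := by exact_mod_cast hy2
      have e2 : (B : ℝ) * N ≤ N * L ^ (D + 1) := by
        rw [mul_comm]
        apply mul_le_mul_of_nonneg_left _ hN0.le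
        exact hLB.trans (le_self_pow₀ hL1 (by omega))
      linarith
    exact_mod_cast h5
  rw [abs_le]
  constructor
  · -- lower bound
    have g2 := wt_le a b c (2 * X) y₁ y₂ ha hb (by omega) (by omega) (by
      intro q hq
      refine ⟨hpos q hq, ?_⟩
      rw [mem_Ioc] at hq
      have e1 : c ≤ X := by
        have e2 : c ≤ c.natAbs := Int.le_natAbs
        have e3 : (c.natAbs : ℝ) ≤ X := by
          have e4 : (c.natAbs : ℝ) ≤ B * N := by exact_mod_cast hc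
          have e5 : (B : ℝ) * N ≤ N * L ^ (D + 1) := by
            rw [mul_comm]
            apply mul_le_mul_of_nonneg_left _ hN0.le
            exact hLB.trans (le_self_pow₀ hL1 (by omega))
          linarith
        have e6 : c.natAbs ≤ X := by exact_mod_cast e3
        have e7 : (c.natAbs : ℤ) ≤ X := by exact_mod_cast e6
        linarith
      have e2 : b * (q : ℤ) ≤ X := by
        have f1 : b * (q : ℤ) ≤ b.natAbs * q := mul_le_mul_of_nonneg_right Int.le_natAbs (Int.natCast_nonneg _)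
        have f2 : ((b.natAbs * q : ℕ) : ℝ) ≤ X := by
          push_cast
          have f3 : (q : ℝ) ≤ B * N := by exact_mod_cast hq.2.trans hy2
          calc (b.natAbs : ℝ) * q ≤ L ^ D * (B * N) := mul_le_mul hbL f3 (Nat.cast_nonneg _) (by positivity)
            _ ≤ L ^ D * (L * N) := by gcongr
            _ = N * L ^ (D + 1) := by ring
            _ ≤ X := hX1
        have f4 : b.natAbs * q ≤ X := by exact_mod_cast f2
        have f5 : (b.natAbs : ℤ) * q ≤ X := by exact_mod_cast f4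
        linarith
      push_cast
      linarith)
    have g3 : 4 * √((2 * X : ℕ) : ℝ) * Real.log (2 * X : ℕ) ^ 2 ≤ Q / L := by
      have e1 : ((2 * X : ℕ) : ℝ) ≤ N * (L ^ (D + 2) * 2) := by push_cast; linarith
      have e2 : √((2 * X : ℕ) : ℝ) ≤ √(N : ℝ) * (L ^ (D + 2) * 2) := by
        rw [Real.sqrt_le_left (by positivity)]
        refine e1.trans ?_
        rw [mul_pow, Real.sq_sqrt hN0.le]
        apply mul_le_mul_of_nonneg_left _ hN0.le
        have : 1 ≤ L ^ (D + 2) * 2 := by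
          have := one_le_pow₀ (n := D + 2) hL1
          linarith
        nlinarith
      have e3 : Real.log (2 * X : ℕ) ≤ 2 * L := by
        refine hlog2X.trans ?_
        nlinarith
      have e4 : Real.log (2 * X : ℕ) ^ 2 ≤ (2 * L) ^ 2 := pow_le_pow_left₀ hlog2X0.le e3 _
      calc 4 * √((2 * X : ℕ) : ℝ) * Real.log (2 * X : ℕ) ^ 2 ≤ 4 * (√(N : ℝ) * (L ^ (D + 2) * 2)) * (2 * L) ^ 2 := by gcongr
        _ = 32 * L ^ (D + 4) * √N := by ring
        _ ≤ L * L ^ (D + 4) * √N := by gcongr; linarith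
        _ = √N * L ^ (D + 5) := by ring
        _ ≤ Q / L := by
            rw [le_div_iff₀ hL0]
            refine le_trans ?_ hQlow
            rw [le_div_iff₀ (by positivity)]
            calc √(N : ℝ) * L ^ (D + 5) * L * L ^ (A + D) = √N * L ^ (A + 2 * D + 6) := by ring
              _ ≤ √N * L ^ (A + 2 * D + 10) := by
                  apply mul_le_mul_of_nonneg_left _ hs0.le
                  exact pow_le_pow_right₀ hL1 (by omega)
              _ ≤ √N * √N := mul_le_mul_of_nonneg_left b2 hs0.le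
              _ = N := hss
    have g4 : Q * (1 - ε / 2) ≤ cn a b c y₁ y₂ * Real.log (2 * X : ℕ) ^ 2 := by
      have : 0 ≤ Q * ε := by positivity
      have e0 : Q * (1 - ε / 2) = Q - Q * ε / 2 := by ring
      rw [e0]
      linarith [hWt.1]
    have g5 : Q * (1 - ε) / L ^ 2 ≤ cn a b c y₁ y₂ := by
      rw [div_le_iff₀ (by positivity)]
      have e1 : Real.log (2 * X : ℕ) ^ 2 ≤ ((1 + ε / 8) * L) ^ 2 := pow_le_pow_left₀ hlog2X0.le hlog2X _
      have e2 : (cn a b c y₁ y₂ : ℝ) * Real.log (2 * X : ℕ) ^ 2 ≤ cn a b c y₁ y₂ * ((1 + ε / 8) * L) ^ 2 :=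
        mul_le_mul_of_nonneg_left e1 (Nat.cast_nonneg _)
      have e3 : 0 < (1 + ε / 8) ^ 2 := by positivity
      have e4 : Q * (1 - ε) * (1 + ε / 8) ^ 2 ≤ cn a b c y₁ y₂ * L ^ 2 * (1 + ε / 8) ^ 2 := by
        calc Q * (1 - ε) * (1 + ε / 8) ^ 2 = Q * ((1 - ε) * (1 + ε / 8) ^ 2) := by ring
          _ ≤ Q * (1 - ε / 2) := mul_le_mul_of_nonneg_left num_c hQ0.le
          _ ≤ cn a b c y₁ y₂ * ((1 + ε / 8) * L) ^ 2 := g4.trans e2
          _ = _ := by ring
      exact le_of_mul_le_mul_right e4 e3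
    have g6 : Q * (1 - ε) / L ^ 2 = Q / L ^ 2 - ε * (Q / L ^ 2) := by ring
    linarith
  · -- upper bound
    obtain ⟨y, hy⟩ : ∃ y, y = ⌈(N : ℝ) / L ^ (A + D + 3)⌉₊ := ⟨_, rfl⟩
    have hq : √(N : ℝ) ≤ (N : ℝ) / L ^ (A + D + 3) := by
      rw [le_div_iff₀ (by positivity)]
      calc √(N : ℝ) * L ^ (A + D + 3) ≤ √(N : ℝ) * L ^ (A + 2 * D + 10) :=
            mul_le_mul_of_nonneg_left (pow_le_pow_right₀ hL1 (by omega)) hs0.le
        _ ≤ √(N : ℝ) * √(N : ℝ) := mul_le_mul_of_nonneg_left b2 hs0.le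
        _ = N := hss
    have hsN2 : 2 ≤ √(N : ℝ) := by
      apply Real.le_sqrt_of_sq_le
      linarith
    have hy1 : (N : ℝ) / L ^ (A + D + 3) ≤ y := by rw [hy]; exact Nat.le_ceil _
    have hy2' : (y : ℝ) ≤ (N : ℝ) / L ^ (A + D + 3) + 1 := by rw [hy]; exact (Nat.ceil_lt_add_one (by positivity)).le
    have hy2n : 2 ≤ y := by
      have : (2 : ℝ) ≤ y := by linarith
      exact_mod_cast this
    have c0 := cn_le a b c y₁ y₂ y ha hb hy2n
    have c1 : 2 * (y : ℝ) ≤ ε / 4 * (Q / L ^ 2) := by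
      have d1 : (N : ℝ) / L ^ (A + D + 3) ≤ Q / L ^ 3 := by
        have : (N : ℝ) / L ^ (A + D + 3) = N / L ^ (A + D) / L ^ 3 := by rw [pow_add, div_div]
        rw [this]
        exact div_le_div_of_nonneg_right hQlow (by positivity)
      have d2 : Q / L ^ 3 ≤ ε / 64 * (Q / L ^ 2) := by
        have : Q / L ^ 3 = Q / L / L ^ 2 := by rw [pow_succ L 2]; field_simp
        rw [this]
        calc Q / L / L ^ 2 ≤ Q * (ε / 64) / L ^ 2 := div_le_div_of_nonneg_right hQL (by positivity)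
          _ = _ := by ring
      linarith
    have hlogy : (1 - ε / 8) * L ≤ Real.log y := by
      have d1 : Real.log ((N : ℝ) / L ^ (A + D + 3)) ≤ Real.log y := Real.log_le_log (by positivity) hy1
      rw [Real.log_div hN0.ne' (by positivity), Real.log_pow, ← hL] at d1
      have d7 : ((A + D + 3 : ℕ) : ℝ) * Real.log L ≤ ε / 8 * L := by
        have : ((A + D + 3 : ℕ) : ℝ) * Real.log L ≤ ((A : ℝ) + D + 4) * Real.log L := by
          apply mul_le_mul_of_nonneg_right _ hlL0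
          push_cast
          linarith
        have h6 : 0 ≤ ε * L := by positivity
        linarith
      linarith
    have hεM : 0 < (1 - ε / 8) * L := mul_pos (by linarith) hL0
    have hly0 : 0 < Real.log y := lt_of_lt_of_le hεM hlogy
    have c2 : Wt a b c y₁ y₂ / Real.log y ^ 2 ≤ Q * (1 + ε / 16) * (1 + ε / 2) / L ^ 2 := by
      have d1 : Wt a b c y₁ y₂ ≤ Q * (1 + ε / 16) := by
        have d0 : Q * (1 + ε / 16) = Q + Q * (ε / 64) * 4 := by ring
        rw [d0]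
        have : 0 ≤ Q * (ε / 64) := by positivity
        linarith [hWt.2]
      have d2 : ((1 - ε / 8) * L) ^ 2 ≤ Real.log y ^ 2 := pow_le_pow_left₀ hεM.le hlogy 2
      rw [div_le_div_iff₀ (by positivity) (by positivity)]
      calc Wt a b c y₁ y₂ * L ^ 2 ≤ (Q * (1 + ε / 16)) * L ^ 2 := mul_le_mul_of_nonneg_right d1 (by positivity)
        _ ≤ (Q * (1 + ε / 16)) * (((1 + ε / 2) * (1 - ε / 8) ^ 2) * L ^ 2) := by
            apply mul_le_mul_of_nonneg_left _ (by positivity)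
            exact le_mul_of_one_le_left (sq_nonneg L) num_a
        _ = Q * (1 + ε / 16) * (1 + ε / 2) * ((1 - ε / 8) * L) ^ 2 := by ring
        _ ≤ Q * (1 + ε / 16) * (1 + ε / 2) * Real.log y ^ 2 := mul_le_mul_of_nonneg_left d2 (by positivity)
    have c4 : Q * (1 + ε / 16) * (1 + ε / 2) / L ^ 2 = (1 + ε / 16) * (1 + ε / 2) * (Q / L ^ 2) := by ring
    rw [c4] at c2
    have c6 : 0 ≤ Q / L ^ 2 := by positivity
    have c5 := mul_le_mul_of_nonneg_right num_b c6
    linarith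

end Pool.Agent.TH935.LF
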