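import Pool.Agent.W93.PP8
import Pool.Agent.TH935.LF12

set_option autoImplicit false

/-! Prime pairs in progressions with a given difference: weighted sums, the deterministic part. -/

namespace Pool.Agent.TH935.DF
open Finset
open Pool.Agent.H373R2.T7
open Pool.Agent.H560R3.GB (sing C₂)
open Pool.Agent.W93.GB
open Pool.Agent.W93.PP

/-- the weighted sums over prime pairs in progressions are as predicted -/
def GW (B V X h : ℕ) : Prop :=
  ∀ q a : ℕ, 1 ≤ q → (q : ℝ) ≤ Real.log X ^ B → Nat.Coprime a q → Nat.Coprime (a + h) q →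
    ∀ y : ℕ, y ≤ X → |∑ n ∈ Icc 1 y, (if n ≡ a [MOD q] then ArithmeticFunction.vonMangoldt n else 0) *
      lamI ((n : ℤ) + (h : ℤ)) - sing h / Cnt q h * y| ≤ X / Real.log X ^ V

set_option maxHeartbeats 1000000 in
theorem det_w (B C E1 : ℕ) (hE1 : C + 7 + B ≤ E1) : ∃ X0 : ℕ, ∀ X : ℕ, X0 ≤ X → ∀ h : ℕ, h ≤ X → 2 ∣ h → h ≠ 0 →
    ∀ z : ℕ, Real.log X ^ E1 ≤ z → (z : ℝ) ≤ Real.log X ^ (E1 + 1) →
    ∀ T : ℕ, Real.log X ^ (C + 4) ≤ T → (T : ℝ) ≤ Real.log X ^ (C + 5) →
    (∀ i ∈ range (T + 1), ∀ q a : ℕ, 1 ≤ q → (q : ℝ) ≤ Real.log X ^ B → a < q →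
      |∑ n ∈ Icc 1 (min (i * (X / T + 1)) X), (if n ≡ a [MOD q] then ArithmeticFunction.vonMangoldt n else 0) *
        (lamI ((n : ℤ) + (h : ℤ)) - lamzI z ((n : ℤ) + (h : ℤ)))| ≤ X / Real.log X ^ (C + 3)) → GW B (C + 1) X h := by
  classical
  obtain ⟨N0, h0⟩ := ap_main (E1 + 2) (C + 4)
  obtain ⟨X1, hcounts⟩ : ∃ X1 : ℕ, X1 = 0 := ⟨_, rfl⟩
  obtain ⟨n2, h2⟩ := ev_L' (2 ^ (E1 + 5) + 2 ^ (C + 4) + 100)
  obtain ⟨n3, h3⟩ := Vz_inv_small (E1 + 1)
  obtain ⟨n4, h4⟩ := ev_log' (C + 8) 1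
  refine ⟨max (max (N0 ^ 2) X1) (max (max n2 n3) (max n4 4)), fun X hX h hhXn h2d hne z hz1 hz2 T hT1 hT2 hyp => ?_⟩
  have b1 := le_trans (le_trans (le_max_left _ _) (le_max_left _ _)) hX
  have b2 := le_trans (le_trans (le_max_right _ _) (le_max_left _ _)) hX
  have b3 := le_trans (le_trans (le_trans (le_max_left _ _) (le_max_left _ _)) (le_max_right _ _)) hX
  have b4 := le_trans (le_trans (le_trans (le_max_right _ _) (le_max_left _ _)) (le_max_right _ _)) hX
  have b5 := le_trans (le_trans (le_trans (le_max_left _ _) (le_max_right _ _)) (le_max_right _ _)) hX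
  have hX4 : 4 ≤ X := le_trans (le_trans (le_trans (le_max_right _ _) (le_max_right _ _)) (le_max_right _ _)) hX
  have hL := h2 X b3
  have hV := h3 X b4 z
  have a4 := h4 X b5
  obtain ⟨L, hLd⟩ : ∃ L, L = Real.log (X : ℝ) := ⟨_, rfl⟩
  unfold GW
  rw [← hLd] at hL hV a4 hz1 hz2 hT1 hT2 hyp ⊢
  rw [one_mul] at a4
  have hp1 : (0 : ℝ) < 2 ^ (E1 + 5) := by positivity
  have hp2 : (0 : ℝ) < 2 ^ (C + 4) := by positivity
  have hL100 : 100 ≤ L := by linarith
  have hL1 : 1 ≤ L := by linarith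
  have hL0 : 0 < L := by linarith
  have hXr : (4 : ℝ) ≤ X := by exact_mod_cast hX4
  have hX0 : (0 : ℝ) < X := by linarith
  have hss : √(X : ℝ) * √(X : ℝ) = X := Real.mul_self_sqrt hX0.le
  have hs0 : 0 < √(X : ℝ) := Real.sqrt_pos.2 hX0
  have hs1 : 1 ≤ √(X : ℝ) := (one_le_pow₀ hL1).trans a4
  have hz0 : (1 : ℝ) ≤ z := (one_le_pow₀ hL1).trans hz1
  have hzn : 1 ≤ z := by exact_mod_cast hz0
  have hV' := hV hzn hz2
  have hT0 : (1 : ℝ) ≤ T := (one_le_pow₀ hL1).trans hT1
  have hTn : 1 ≤ T := by exact_mod_cast hT0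
  intro q a hq1 hq2 ha hah
  have hqz : q ≤ z := by
    have h5 : (q : ℝ) ≤ z := by
      refine hq2.trans (le_trans ?_ hz1)
      exact pow_le_pow_right₀ hL1 (by omega)
    exact_mod_cast h5
  -- the residue class
  obtain ⟨a', ha'⟩ : ∃ a', a' = a % q := ⟨_, rfl⟩
  have haq : a' < q := by rw [ha']; exact Nat.mod_lt _ (by omega)
  have hmod : a' ≡ a [MOD q] := by rw [ha']; exact Nat.mod_modEq _ _
  have ha1 : Nat.Coprime a' q := by
    have := hmod.gcd_eq
    unfold Nat.Coprime at ha ⊢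
    rw [this, ha]
  have hah1 : Nat.Coprime (a' + h) q := by
    have := (hmod.add_right h).gcd_eq
    unfold Nat.Coprime at hah ⊢
    rw [this, hah]
  have hcnt : 0 < Cnt q h := by
    unfold Cnt
    rw [card_pos]
    exact ⟨a', mem_filter.2 ⟨mem_range.2 haq, ha1, hah1⟩⟩
  have hif : ∀ n : ℕ, (if n ≡ a [MOD q] then ArithmeticFunction.vonMangoldt n else 0) = (if n ≡ a' [MOD q] then ArithmeticFunction.vonMangoldt n else 0) := by
    intro n
    by_cases h5 : n ≡ a [MOD q]
    · rw [if_pos h5, if_pos (h5.trans hmod.symm)]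
    · rw [if_neg h5, if_neg (fun h6 => h5 (h6.trans hmod))]
  have hlogh : (Nat.log 2 h : ℝ) ≤ 2 * L := by
    have h5 : Nat.log 2 h ≤ Nat.log 2 X := Nat.log_mono_right hhXn
    have h6 : (Nat.log 2 h : ℝ) ≤ Nat.log 2 X := by exact_mod_cast h5
    have h7 := natlog_le X (by omega)
    rw [← hLd] at h7
    exact h6.trans h7
  have hzL : 8 * L ^ (C + 5) ≤ z := by
    refine le_trans ?_ hz1
    calc 8 * L ^ (C + 5) ≤ L * L ^ (C + 5) := mul_le_mul_of_nonneg_right (by linarith) (by positivity)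
      _ = L ^ (C + 6) := by ring
      _ ≤ L ^ E1 := pow_le_pow_right₀ hL1 (by omega)
  obtain ⟨m1, m2, m3⟩ := MT_sing z q h L hL1 hq1 hqz h2d hne hcnt hV' hlogh (by
    refine le_trans ?_ hzL
    have : L ≤ L ^ (C + 5) := le_self_pow₀ hL1 (by omega)
    linarith)
  obtain ⟨S, hS⟩ : ∃ S, S = sing h / Cnt q h := ⟨_, rfl⟩
  rw [← hS] at m1 m2 m3 ⊢
  have m1' : |MT z q h - S| ≤ 1 / L ^ (C + 3) := by
    refine m1.trans ?_
    rw [div_le_div_iff₀ (by linarith) (by positivity)]
    calc 8 * L ^ 2 * L ^ (C + 3) = 8 * L ^ (C + 5) := by ring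
      _ ≤ 1 * z := by linarith
  obtain ⟨s, hs⟩ : ∃ s, s = X / T + 1 := ⟨_, rfl⟩
  have hsT : X < T * s := by
    rw [hs]
    have := Nat.lt_div_mul_add (a := X) (b := T) (by omega)
    calc X < X / T * T + T := this
      _ = T * (X / T + 1) := by ring
  obtain ⟨ε, hε⟩ : ∃ ε : ℝ, ε = X / L ^ (C + 3) := ⟨_, rfl⟩
  have hε0 : 0 < ε := by rw [hε]; positivity
  rw [← hs] at hyp
  have hsr : (s : ℝ) ≤ 2 * (X / L ^ (C + 4)) := by
    rw [hs]
    push_cast
    have h5 : ((X / T : ℕ) : ℝ) ≤ X / T := Nat.cast_div_le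
    have h6 : (X : ℝ) / T ≤ X / L ^ (C + 4) := div_le_div_of_nonneg_left hX0.le (by positivity) hT1
    have h7 : 1 ≤ X / L ^ (C + 4) := by
      rw [le_div_iff₀ (by positivity), one_mul]
      calc L ^ (C + 4) ≤ L ^ (C + 8) := pow_le_pow_right₀ hL1 (by omega)
        _ ≤ √X := a4
        _ ≤ √X * √X := by nlinarith
        _ = X := hss
    linarith
  have hgrid : ∀ i ∈ range (T + 1), |(fun y : ℕ => ∑ n ∈ Icc 1 y, (if n ≡ a' [MOD q] then ArithmeticFunction.vonMangoldt n else 0) * lamI ((n : ℤ) + (h : ℤ))) (min (i * s) X) -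
      S * ((min (i * s) X : ℕ) : ℝ)| ≤ 3 * ε := by
    intro i hi
    obtain ⟨y, hy⟩ : ∃ y, y = min (i * s) X := ⟨_, rfl⟩
    have g1 := hyp i hi q a' hq1 hq2 haq
    rw [← hy, ← hε] at g1
    simp only
    rw [← hy]
    have hyX : y ≤ X := by rw [hy]; exact min_le_right _ _
    have hyXr : (y : ℝ) ≤ X := by exact_mod_cast hyX
    rcases Nat.eq_zero_or_pos i with h5 | h5
    · have : y = 0 := by rw [hy, h5]; simp
      rw [this]
      simp
      linarith
    · -- y is large
      have hyl : (X : ℝ) / L ^ (C + 5) ≤ y := by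
        have h6 : X / T < y := by
          rw [hy, lt_min_iff]
          constructor
          · calc X / T < s := by rw [hs]; omega
              _ ≤ i * s := Nat.le_mul_of_pos_left _ h5
          · exact Nat.div_lt_self (by omega) (by
              have : (2 : ℝ) ≤ T := by
                refine le_trans ?_ hT1
                have : L ≤ L ^ (C + 4) := le_self_pow₀ hL1 (by omega)
                linarith
              exact_mod_cast this)
        have h7 : (X : ℝ) / T ≤ y := by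
          rw [div_le_iff₀ (by linarith)]
          have h8 : X < (X / T + 1) * T := by
            have := Nat.lt_div_mul_add (a := X) (b := T) (by omega)
            rw [add_mul, one_mul]
            exact this
          have h9 : X ≤ y * T := h8.le.trans (Nat.mul_le_mul_right _ h6)
          exact_mod_cast h9
        refine le_trans ?_ h7
        exact div_le_div_of_nonneg_left hX0.le (by linarith) hT2
      have hysq : √(X : ℝ) ≤ y := by
        refine le_trans ?_ hyl
        rw [le_div_iff₀ (by positivity)]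
        calc √(X : ℝ) * L ^ (C + 5) ≤ √(X : ℝ) * L ^ (C + 8) :=
              mul_le_mul_of_nonneg_left (pow_le_pow_right₀ hL1 (by omega)) hs0.le
          _ ≤ √(X : ℝ) * √(X : ℝ) := mul_le_mul_of_nonneg_left a4 hs0.le
          _ = X := hss
      have hy0 : (0 : ℝ) < y := lt_of_lt_of_le hs0 hysq
      have hlogy : L / 2 ≤ Real.log y := by
        have h6 : Real.log (√(X : ℝ)) = L / 2 := by rw [Real.log_sqrt hX0.le, ← hLd]
        rw [← h6]
        exact Real.log_le_log hs0 hysq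
      have hyN : N0 ≤ y := by
        have h6 : ((N0 : ℝ)) ≤ √(X : ℝ) := by
          apply Real.le_sqrt_of_sq_le
          exact_mod_cast b1
        exact_mod_cast h6.trans hysq
      have hLy : ∀ j : ℕ, j ≤ E1 + 1 → L ^ j ≤ Real.log y ^ (E1 + 2) := by
        intro j hj
        have h6 : (L / 2) ^ (E1 + 2) ≤ Real.log y ^ (E1 + 2) := pow_le_pow_left₀ (by linarith) hlogy _
        refine le_trans ?_ h6
        calc L ^ j ≤ L ^ (E1 + 1) := pow_le_pow_right₀ hL1 hj
          _ ≤ (L / 2) ^ (E1 + 2) := by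
              rw [div_pow, le_div_iff₀ (by positivity), show E1 + 2 = (E1 + 1) + 1 by ring, pow_succ L (E1 + 1)]
              apply mul_le_mul_of_nonneg_left _ (by positivity)
              have : (2 : ℝ) ^ (E1 + 1 + 1) ≤ 2 ^ (E1 + 5) := pow_le_pow_right₀ (by norm_num) (by omega)
              linarith
      have g2 := h0 y hyN z hzn (hz2.trans (hLy (E1 + 1) le_rfl)) q a' h hq1 (hq2.trans (hLy B (by omega))) ha1 hah1
      have hly0 : 0 < Real.log y := by linarith
      have g3 : (y : ℝ) / Real.log y ^ (C + 4) ≤ ε := by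
        rw [hε, div_le_div_iff₀ (by positivity) (by positivity)]
        calc (y : ℝ) * L ^ (C + 3) ≤ X * L ^ (C + 3) := mul_le_mul_of_nonneg_right hyXr (by positivity)
          _ ≤ X * (L / 2) ^ (C + 4) := by
              apply mul_le_mul_of_nonneg_left _ hX0.le
              rw [div_pow, le_div_iff₀ (by positivity), show C + 4 = (C + 3) + 1 by ring, pow_succ L (C + 3)]
              apply mul_le_mul_of_nonneg_left _ (by positivity)
              rw [show C + 3 + 1 = C + 4 by ring]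
              linarith
          _ ≤ X * Real.log y ^ (C + 4) := by
              apply mul_le_mul_of_nonneg_left _ hX0.le
              exact pow_le_pow_left₀ (by linarith) hlogy _
      have g4 : |MT z q h - S| * y ≤ ε := by
        calc |MT z q h - S| * y ≤ 1 / L ^ (C + 3) * X := mul_le_mul m1' hyXr hy0.le (by positivity)
          _ = ε := by rw [hε]; ring
      have e1 : ∑ n ∈ Icc 1 y, (if n ≡ a' [MOD q] then ArithmeticFunction.vonMangoldt n else 0) *
        (lamI ((n : ℤ) + (h : ℤ)) - lamzI z ((n : ℤ) + (h : ℤ))) =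
        ∑ n ∈ Icc 1 y, (if n ≡ a' [MOD q] then ArithmeticFunction.vonMangoldt n else 0) * lamI ((n : ℤ) + (h : ℤ)) -
        ∑ n ∈ Icc 1 y, (if n ≡ a' [MOD q] then ArithmeticFunction.vonMangoldt n else 0) * lamzI z ((n : ℤ) + (h : ℤ)) := by
        rw [← sum_sub_distrib]
        apply sum_congr rfl
        intro n _
        ring
      rw [e1] at g1
      have e2 : ∑ n ∈ Icc 1 y, (if n ≡ a' [MOD q] then ArithmeticFunction.vonMangoldt n else 0) * lamI ((n : ℤ) + (h : ℤ)) - S * y =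
        (∑ n ∈ Icc 1 y, (if n ≡ a' [MOD q] then ArithmeticFunction.vonMangoldt n else 0) * lamI ((n : ℤ) + (h : ℤ)) -
        ∑ n ∈ Icc 1 y, (if n ≡ a' [MOD q] then ArithmeticFunction.vonMangoldt n else 0) * lamzI z ((n : ℤ) + (h : ℤ))) +
        (∑ n ∈ Icc 1 y, (if n ≡ a' [MOD q] then ArithmeticFunction.vonMangoldt n else 0) * lamzI z ((n : ℤ) + (h : ℤ)) - MT z q h * y) +
        (MT z q h - S) * y := by ring
      rw [e2]
      refine (abs_add_le _ _).trans ?_
      have f1 := abs_add_le (∑ n ∈ Icc 1 y, (if n ≡ a' [MOD q] then ArithmeticFunction.vonMangoldt n else 0) * lamI ((n : ℤ) + (h : ℤ)) -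
        ∑ n ∈ Icc 1 y, (if n ≡ a' [MOD q] then ArithmeticFunction.vonMangoldt n else 0) * lamzI z ((n : ℤ) + (h : ℤ)))
        (∑ n ∈ Icc 1 y, (if n ≡ a' [MOD q] then ArithmeticFunction.vonMangoldt n else 0) * lamzI z ((n : ℤ) + (h : ℤ)) - MT z q h * y)
      have f2 : |(MT z q h - S) * y| ≤ ε := by rw [abs_mul, abs_of_nonneg hy0.le]; exact g4
      linarith [g2.trans g3]
  have hall := grid (fun y : ℕ => ∑ n ∈ Icc 1 y, (if n ≡ a' [MOD q] then ArithmeticFunction.vonMangoldt n else 0) * lamI ((n : ℤ) + (h : ℤ)))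
    (fun y y' hyy => by
      apply sum_le_sum_of_subset_of_nonneg (Icc_subset_Icc_right hyy)
      intro n _ _
      apply mul_nonneg _ (lamI_nonneg _)
      split_ifs
      · exact ArithmeticFunction.vonMangoldt_nonneg
      · exact le_rfl) S (3 * ε) m2 X s T (by rw [hs]; exact Nat.le_add_left 1 _) hsT hgrid
  have hbound : 3 * ε + S * s ≤ X / L ^ (C + 1) := by
    have h5 : S * s ≤ 4 * ε := by
      calc S * s ≤ 2 * L * (2 * (X / L ^ (C + 4))) := mul_le_mul m3 hsr (Nat.cast_nonneg _) (by positivity)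
        _ = 4 * ε := by
            rw [hε, show C + 4 = (C + 3) + 1 by ring, pow_succ L (C + 3)]
            field_simp
            ring
    have h6 : X / L ^ (C + 1) = ε * L ^ 2 := by
      rw [hε, show C + 3 = (C + 1) + 2 by ring, pow_add L (C + 1) 2]
      field_simp
    rw [h6]
    have h8 : (7 : ℝ) ≤ L ^ 2 := by nlinarith
    have h9 := mul_le_mul_of_nonneg_left h8 hε0.le
    linarith
  intro y hy
  have e0 : ∑ n ∈ Icc 1 y, (if n ≡ a [MOD q] then ArithmeticFunction.vonMangoldt n else 0) * lamI ((n : ℤ) + (h : ℤ)) =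
      ∑ n ∈ Icc 1 y, (if n ≡ a' [MOD q] then ArithmeticFunction.vonMangoldt n else 0) * lamI ((n : ℤ) + (h : ℤ)) :=
    sum_congr rfl fun n _ => by rw [hif]
  rw [e0]
  exact (hall y hy).trans hbound

end Pool.Agent.TH935.DF
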