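import Pool.Agent.TH935.DF2

set_option autoImplicit false

/-! Prime pairs in progressions: from weighted sums to numbers of prime pairs. -/

namespace Pool.Agent.TH935.DF

open Finset Pool.Agent.H373R2.T7
open Pool.Agent.H560R3.GB (sing)
open Pool.Agent.W93.GB (vM_le one_le_sing pp pp_nonneg lam_nat sum_pp)
open Pool.Agent.W93.PP (Cnt)

open Classical in
/-- the number of primes `p` in `(y₁, y₂]` with `p ≡ a (mod q)` for which `p + h` is a prime -/
noncomputable def cc (q a h y₁ y₂ : ℕ) : ℕ :=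
  ((Ioc y₁ y₂).filter (fun p : ℕ => p.Prime ∧ (p + h).Prime ∧ p ≡ a [MOD q])).card

/-- the weighted number -/
noncomputable def Wc (q a h y₁ y₂ : ℕ) : ℝ :=
  ∑ n ∈ Ioc y₁ y₂, (if n ≡ a [MOD q] then ArithmeticFunction.vonMangoldt n else 0) * lamI ((n : ℤ) + (h : ℤ))

lemma wc_le (q a h X y₁ y₂ : ℕ) (hX : 1 ≤ X) (hy : y₂ + h ≤ X) :
    Wc q a h y₁ y₂ ≤ cc q a h y₁ y₂ * Real.log X ^ 2 + 4 * √(X : ℝ) * Real.log X ^ 2 := by
  classical
  have hlog : 0 ≤ Real.log X := Real.log_natCast_nonneg X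
  have key : ∀ n : ℕ, n ≤ X → lamP (n : ℤ) ≤ Real.log X := by
    intro n hn
    have := lamP_le (n : ℤ)
    rw [lam_nat] at this
    exact this.trans (vM_le n X hX hn)
  have h1 : ∀ n ∈ Ioc y₁ y₂, (if n ≡ a [MOD q] then ArithmeticFunction.vonMangoldt n else 0) * lamI ((n : ℤ) + (h : ℤ)) ≤
      (if n.Prime ∧ (n + h).Prime ∧ n ≡ a [MOD q] then Real.log X ^ 2 else 0) +
        Real.log X * (pp n + pp (n + h)) := by
    intro n hn
    have hn' := mem_Ioc.1 hn
    have a4 := pp_nonneg n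
    have a5 := pp_nonneg (n + h)
    have hite : 0 ≤ (if n.Prime ∧ (n + h).Prime ∧ n ≡ a [MOD q] then Real.log X ^ 2 else (0 : ℝ)) := by
      split_ifs
      · positivity
      · exact le_rfl
    have ecast : (n : ℤ) + (h : ℤ) = ((n + h : ℕ) : ℤ) := by push_cast; rfl
    by_cases hd : n ≡ a [MOD q]
    · rw [if_pos hd, ecast, lam_nat]
      have a1 := vM_le (n + h) X hX (by omega)
      have a3 := key n (by omega)
      have a3' := key (n + h) (by omega)
      have a7 := lamP_nonneg (n : ℤ)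
      have a7' := lamP_nonneg ((n + h : ℕ) : ℤ)
      have e : ArithmeticFunction.vonMangoldt n * ArithmeticFunction.vonMangoldt (n + h) =
          lamP (n : ℤ) * lamP ((n + h : ℕ) : ℤ) + (pp n * ArithmeticFunction.vonMangoldt (n + h) + lamP (n : ℤ) * pp (n + h)) := by
        unfold pp
        ring
      rw [e]
      have a8 : pp n * ArithmeticFunction.vonMangoldt (n + h) ≤ pp n * Real.log X := mul_le_mul_of_nonneg_left a1 a4
      have a9 : lamP (n : ℤ) * pp (n + h) ≤ Real.log X * pp (n + h) := mul_le_mul_of_nonneg_right a3 a5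
      have a10 : lamP (n : ℤ) * lamP ((n + h : ℕ) : ℤ) ≤
          (if n.Prime ∧ (n + h).Prime ∧ n ≡ a [MOD q] then Real.log X ^ 2 else 0) := by
        by_cases hc : n.Prime ∧ (n + h).Prime
        · rw [if_pos ⟨hc.1, hc.2, hd⟩, sq]
          exact mul_le_mul a3 a3' a7' hlog
        · refine le_trans (le_of_eq ?_) hite
          unfold lamP
          rw [Int.toNat_natCast, Int.toNat_natCast]
          rw [not_and_or] at hc
          rcases hc with hc | hc
          · rw [if_neg hc, zero_mul]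
          · rw [if_neg hc, mul_zero]
      linarith
    · rw [if_neg hd, zero_mul]
      have := mul_nonneg hlog (add_nonneg a4 a5)
      linarith
  unfold Wc
  refine (sum_le_sum h1).trans ?_
  rw [sum_add_distrib, ← mul_sum, sum_add_distrib]
  have h2 : ∑ n ∈ Ioc y₁ y₂, (if n.Prime ∧ (n + h).Prime ∧ n ≡ a [MOD q] then Real.log X ^ 2 else (0 : ℝ)) =
      cc q a h y₁ y₂ * Real.log X ^ 2 := by
    rw [← sum_filter, sum_const, nsmul_eq_mul]
    rfl
  have h3 : ∑ n ∈ Ioc y₁ y₂, pp n ≤ 2 * √(X : ℝ) * Real.log X := by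
    refine le_trans ?_ (sum_pp X hX)
    apply sum_le_sum_of_subset_of_nonneg
    · intro n hn
      rw [mem_Ioc] at hn
      rw [mem_Icc]
      omega
    · intro n _ _
      exact pp_nonneg n
  have h4 : ∑ n ∈ Ioc y₁ y₂, pp (n + h) ≤ 2 * √(X : ℝ) * Real.log X := by
    refine le_trans ?_ (sum_pp X hX)
    rw [← sum_image (f := fun n => pp n) (s := Ioc y₁ y₂) (g := fun n => n + h)]
    · apply sum_le_sum_of_subset_of_nonneg
      · intro n hn
        rw [mem_image] at hn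
        obtain ⟨q, hq, rfl⟩ := hn
        rw [mem_Ioc] at hq
        rw [mem_Icc]
        omega
      · intro n _ _
        exact pp_nonneg n
    · intro n _ n' _ h
      simp only at h
      omega
  rw [h2]
  have h5 : Real.log X * (∑ n ∈ Ioc y₁ y₂, pp n + ∑ n ∈ Ioc y₁ y₂, pp (n + h)) ≤
      Real.log X * (2 * √(X : ℝ) * Real.log X + 2 * √(X : ℝ) * Real.log X) :=
    mul_le_mul_of_nonneg_left (add_le_add h3 h4) hlog
  have e : Real.log X * (2 * √(X : ℝ) * Real.log X + 2 * √(X : ℝ) * Real.log X) = 4 * √(X : ℝ) * Real.log X ^ 2 := by ring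
  linarith

lemma cc_le (q a h y₁ y₂ y : ℕ) (hy : 2 ≤ y) :
    (cc q a h y₁ y₂ : ℝ) ≤ y + Wc q a h y₁ y₂ / Real.log y ^ 2 := by
  classical
  have hly : 0 < Real.log y := Real.log_pos (by exact_mod_cast (by omega : 1 < y))
  obtain ⟨P, hP⟩ : ∃ P : Finset ℕ, P = (Ioc y₁ y₂).filter (fun p : ℕ => p.Prime ∧ (p + h).Prime ∧ p ≡ a [MOD q]) := ⟨_, rfl⟩
  have hcn : cc q a h y₁ y₂ = P.card := by rw [hP]; rfl
  obtain ⟨P1, hP1⟩ : ∃ P1 : Finset ℕ, P1 = P.filter (fun p => p ≤ y) := ⟨_, rfl⟩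
  obtain ⟨P3, hP3⟩ : ∃ P3 : Finset ℕ, P3 = (Ioc y₁ y₂).filter (fun p : ℕ => y < p ∧ p.Prime ∧ (p + h).Prime ∧ p ≡ a [MOD q]) := ⟨_, rfl⟩
  have hsub : P ⊆ P1 ∪ P3 := by
    intro p hp
    have hp0 := hp
    rw [hP, mem_filter] at hp
    rw [mem_union, hP1, hP3, mem_filter, mem_filter]
    by_cases h1 : p ≤ y
    · exact Or.inl ⟨hp0, h1⟩
    · exact Or.inr ⟨hp.1, by omega, hp.2⟩
  have hc1 : P1.card ≤ y := by
    have : P1 ⊆ Icc 1 y := by
      intro p hp
      rw [hP1, mem_filter, hP, mem_filter] at hp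
      exact mem_Icc.2 ⟨hp.1.2.1.one_lt.le, hp.2⟩
    refine (card_le_card this).trans ?_
    rw [Nat.card_Icc]; omega
  have hc3 : (P3.card : ℝ) * Real.log y ^ 2 ≤ Wc q a h y₁ y₂ := by
    rw [hP3, card_filter]
    push_cast
    rw [sum_mul]
    unfold Wc
    apply sum_le_sum
    intro n _
    split_ifs with h1 h2
    · obtain ⟨hyq, hq, hq', hm⟩ := h1
      have ecast : (n : ℤ) + (h : ℤ) = ((n + h : ℕ) : ℤ) := by push_cast; rfl
      rw [ecast, lam_nat, ArithmeticFunction.vonMangoldt_apply_prime hq, ArithmeticFunction.vonMangoldt_apply_prime hq', one_mul, sq]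
      have a1 : Real.log y ≤ Real.log n := Real.log_le_log (by exact_mod_cast (by omega : 0 < y)) (by exact_mod_cast hyq.le)
      have a2 : Real.log y ≤ Real.log (n + h : ℕ) := Real.log_le_log (by exact_mod_cast (by omega : 0 < y)) (by exact_mod_cast (by omega : y ≤ n + h))
      exact mul_le_mul a1 a2 hly.le (hly.le.trans a1)
    · exact absurd h1.2.2.2 h2
    · rw [zero_mul]
      exact mul_nonneg ArithmeticFunction.vonMangoldt_nonneg (lamI_nonneg _)
    · rw [zero_mul, zero_mul]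
  have h4 : P.card ≤ y + P3.card := by
    refine (card_le_card hsub).trans ((card_union_le _ _).trans ?_)
    omega
  have h5 : (P3.card : ℝ) ≤ Wc q a h y₁ y₂ / Real.log y ^ 2 := by
    rw [le_div_iff₀ (by positivity)]
    exact hc3
  have h6 : (P.card : ℝ) ≤ ((y + P3.card : ℕ) : ℝ) := by exact_mod_cast h4
  push_cast at h6
  rw [hcn]
  linarith

/-- windows -/
lemma wc_win (B V X h : ℕ) (hG : GW B V X h) (q a : ℕ) (hq : 1 ≤ q) (hqL : (q : ℝ) ≤ Real.log X ^ B) (ha : Nat.Coprime a q)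
    (hah : Nat.Coprime (a + h) q) (y₁ y₂ : ℕ) (h12 : y₁ ≤ y₂) (hy : y₂ ≤ X) :
    |Wc q a h y₁ y₂ - sing h / Cnt q h * ((y₂ : ℝ) - y₁)| ≤ 2 * (X / Real.log X ^ V) := by
  have g1 := hG q a hq hqL ha hah y₁ (h12.trans hy)
  have g2 := hG q a hq hqL ha hah y₂ hy
  have hs : ∑ n ∈ Icc 1 y₂, (if n ≡ a [MOD q] then ArithmeticFunction.vonMangoldt n else 0) * lamI ((n : ℤ) + (h : ℤ)) =
      ∑ n ∈ Icc 1 y₁, (if n ≡ a [MOD q] then ArithmeticFunction.vonMangoldt n else 0) * lamI ((n : ℤ) + (h : ℤ)) + Wc q a h y₁ y₂ := by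
    unfold Wc
    have h3 : Icc 1 y₂ = Icc 1 y₁ ∪ Ioc y₁ y₂ := by
      ext n
      rw [mem_union, mem_Icc, mem_Icc, mem_Ioc]
      omega
    have h4 : Disjoint (Icc 1 y₁) (Ioc y₁ y₂) := by
      rw [disjoint_left]
      intro n h5 h6
      rw [mem_Icc] at h5
      rw [mem_Ioc] at h6
      omega
    rw [h3, sum_union h4]
  rw [hs] at g2
  rw [abs_le] at g1 g2 ⊢
  have e : sing h / (Cnt q h : ℝ) * ((y₂ : ℝ) - y₁) = sing h / (Cnt q h : ℝ) * y₂ - sing h / (Cnt q h : ℝ) * y₁ := by ring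
  rw [e]
  constructor <;> linarith [g1.1, g1.2, g2.1, g2.2]

end Pool.Agent.TH935.DF
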