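import Pool.Agent.TH935.DF3

set_option autoImplicit false

/-! Prime pairs in progressions: the asymptotic formula in windows. -/

namespace Pool.Agent.TH935.DF

open Finset Pool.Agent.H373R2.T7
open Pool.Agent.H560R3.GB (sing)
open Pool.Agent.W93.GB (one_le_sing)
open Pool.Agent.W93.PP (Cnt)
open Pool.Agent.TH935.LF (num2 energy_shift)

/-- all windows and all admissible residue classes to small moduli contain the expected number of prime
pairs -/
def HC (ε : ℝ) (A B W N h : ℕ) : Prop :=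
  ∀ q a : ℕ, 1 ≤ q → (q : ℝ) ≤ Real.log N ^ B → Nat.Coprime a q → Nat.Coprime (a + h) q →
    ∀ y₁ y₂ : ℕ, y₁ < y₂ → y₂ ≤ W * N → (N : ℝ) / Real.log N ^ A ≤ (y₂ : ℝ) - y₁ →
      |(cc q a h y₁ y₂ : ℝ) - sing h * ((y₂ : ℝ) - y₁) / (Cnt q h * Real.log N ^ 2)| ≤
        ε * (sing h * ((y₂ : ℝ) - y₁) / (Cnt q h * Real.log N ^ 2))

lemma cnt_pos (q a h : ℕ) (hq : 1 ≤ q) (ha : Nat.Coprime a q) (hah : Nat.Coprime (a + h) q) : 0 < Cnt q h := by
  have haq : a % q < q := Nat.mod_lt _ (by omega)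
  have hmod : a % q ≡ a [MOD q] := Nat.mod_modEq _ _
  have ha1 : Nat.Coprime (a % q) q := by
    have := hmod.gcd_eq
    unfold Nat.Coprime at ha ⊢
    rw [this, ha]
  have hah1 : Nat.Coprime (a % q + h) q := by
    have := (hmod.add_right h).gcd_eq
    unfold Nat.Coprime at hah ⊢
    rw [this, hah]
  unfold Cnt
  rw [card_pos]
  exact ⟨a % q, mem_filter.2 ⟨mem_range.2 haq, ha1, hah1⟩⟩

lemma cnt_le (q h : ℕ) : Cnt q h ≤ q := by
  unfold Cnt
  refine (card_filter_le _ _).trans ?_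
  rw [card_range]

set_option maxHeartbeats 4000000 in
theorem win_c (ε : ℝ) (hε : 0 < ε) (hε1 : ε ≤ 1 / 2) (A B W : ℕ) : ∃ N0 : ℕ, ∀ N : ℕ, N0 ≤ N → ∀ h : ℕ, h ≤ W * N →
    GW B (A + B + 3) ((W + 1) * N) h → HC ε A B W N h := by
  obtain ⟨n1, h1⟩ := ev_L' ((32 * (A + B + 4) / ε) ^ 2 + 64 / ε + 64 + 32 * (W + 1))
  obtain ⟨n2, h2⟩ := ev_log' (A + 2 * B + 10) 1
  refine ⟨n1 + n2 + 4, fun N hN h hh hG q a hq hqL ha hah y₁ y₂ h12 hy2 hΔ => ?_⟩
  have b1 := h1 N (by omega)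
  have b2 := h2 N (by omega)
  obtain ⟨L, hL⟩ : ∃ L, L = Real.log (N : ℝ) := ⟨_, rfl⟩
  rw [← hL] at b1 b2 hqL hΔ ⊢
  rw [one_mul] at b2
  have hp1 : 0 < (32 * ((A : ℝ) + B + 4) / ε) ^ 2 := by positivity
  have hp2 : 0 < 64 / ε := by positivity
  have hW0 : (0 : ℝ) ≤ W := Nat.cast_nonneg _
  have hA0 : (0 : ℝ) ≤ A := Nat.cast_nonneg _
  have hB0 : (0 : ℝ) ≤ B := Nat.cast_nonneg _
  have hL64 : 64 ≤ L := by linarith
  have hL1 : 1 ≤ L := by linarith
  have hL0 : 0 < L := by linarith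
  have hLW : 32 * ((W : ℝ) + 1) ≤ L := by linarith
  have hLε : 64 ≤ L * ε := by
    have : 64 / ε ≤ L := by linarith
    rwa [div_le_iff₀ hε] at this
  have hNr : (4 : ℝ) ≤ N := by exact_mod_cast (by omega : 4 ≤ N)
  have hN0 : (0 : ℝ) < N := by linarith
  have hNn : 4 ≤ N := by omega
  have hss : √(N : ℝ) * √(N : ℝ) = N := Real.mul_self_sqrt hN0.le
  have hs0 : 0 < √(N : ℝ) := Real.sqrt_pos.2 hN0
  have hs1 : 1 ≤ √(N : ℝ) := (one_le_pow₀ hL1).trans b2
  -- `X`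
  obtain ⟨X, hX⟩ : ∃ X, X = (W + 1) * N := ⟨_, rfl⟩
  rw [← hX] at hG
  have hXr : (X : ℝ) = (W + 1) * N := by rw [hX]; push_cast; rfl
  have hNX : (N : ℝ) ≤ X := by rw [hXr]; nlinarith
  have hX0 : (0 : ℝ) < X := by linarith
  obtain ⟨LX, hLX⟩ : ∃ LX, LX = Real.log (X : ℝ) := ⟨_, rfl⟩
  have hLLX : L ≤ LX := by rw [hL, hLX]; exact Real.log_le_log hN0 hNX
  have hLX0 : 0 < LX := by linarith
  -- logarithms
  have hlogL : ((A : ℝ) + B + 4) * Real.log L ≤ ε / 16 * L := by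
    have d2 : Real.log L ≤ 2 * √L := by
      have d3 := Real.log_le_sub_one_of_pos (Real.sqrt_pos.2 hL0)
      rw [Real.log_sqrt hL0.le] at d3
      linarith [Real.sqrt_nonneg L]
    have d4 : 32 * ((A : ℝ) + B + 4) / ε ≤ √L := by
      apply Real.le_sqrt_of_sq_le
      linarith
    have d5 : 32 * ((A : ℝ) + B + 4) ≤ √L * ε := by rwa [div_le_iff₀ hε] at d4
    have d6 : √L * √L = L := Real.mul_self_sqrt hL0.le
    calc ((A : ℝ) + B + 4) * Real.log L ≤ ((A : ℝ) + B + 4) * (2 * √L) := mul_le_mul_of_nonneg_left d2 (by positivity)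
      _ = (32 * ((A : ℝ) + B + 4)) * √L / 16 := by ring
      _ ≤ (√L * ε) * √L / 16 := by
          apply div_le_div_of_nonneg_right _ (by norm_num)
          exact mul_le_mul_of_nonneg_right d5 (Real.sqrt_nonneg _)
      _ = ε / 16 * (√L * √L) := by ring
      _ = ε / 16 * L := by rw [d6]
  have hlL0 : 0 ≤ Real.log L := Real.log_nonneg hL1
  have hX2L : ((2 * X : ℕ) : ℝ) ≤ N * L := by
    push_cast
    rw [hXr]
    nlinarith
  have hlog2X : Real.log (2 * X : ℕ) ≤ (1 + ε / 8) * L := by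
    have e2 := Real.log_le_log (by push_cast; linarith) hX2L
    rw [Real.log_mul (by positivity) (by positivity), ← hL] at e2
    have e4 : Real.log L ≤ ε / 16 * L := by
      refine le_trans ?_ hlogL
      exact le_mul_of_one_le_left hlL0 (by linarith)
    have e5 : 0 ≤ ε / 16 * L := by positivity
    linarith
  have hlog2X0 : 0 < Real.log (2 * X : ℕ) := by
    apply Real.log_pos
    push_cast
    linarith
  -- the main quantity
  have hcnt := cnt_pos q a h hq ha hah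
  obtain ⟨K, hK⟩ : ∃ K : ℝ, K = Cnt q h := ⟨_, rfl⟩
  have hK0 : 0 < K := by rw [hK]; exact_mod_cast hcnt
  have hKL : K ≤ L ^ B := by
    refine le_trans ?_ hqL
    rw [hK]
    exact_mod_cast cnt_le q h
  obtain ⟨S, hS⟩ : ∃ S, S = sing h := ⟨_, rfl⟩
  have hS1 : 1 ≤ S := by rw [hS]; exact one_le_sing _
  obtain ⟨Q, hQ⟩ : ∃ Q, Q = S / K * ((y₂ : ℝ) - y₁) := ⟨_, rfl⟩
  have hΔ0 : 0 < (y₂ : ℝ) - y₁ := lt_of_lt_of_le (by positivity) hΔ
  have hQ0 : 0 < Q := by rw [hQ]; positivity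
  have hQlow : (N : ℝ) / L ^ (A + B) ≤ Q := by
    have e1 : 1 / L ^ B ≤ S / K := by
      rw [div_le_div_iff₀ (by positivity) hK0, one_mul]
      calc K ≤ L ^ B := hKL
        _ ≤ S * L ^ B := le_mul_of_one_le_left (by positivity) hS1
    calc (N : ℝ) / L ^ (A + B) = 1 / L ^ B * (N / L ^ A) := by rw [pow_add]; field_simp
      _ ≤ S / K * ((y₂ : ℝ) - y₁) := mul_le_mul e1 hΔ (by positivity) (by positivity)
      _ = Q := hQ.symm
  have hgoal : sing h * ((y₂ : ℝ) - y₁) / (Cnt q h * L ^ 2) = Q / L ^ 2 := by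
    rw [hQ, ← hS, ← hK]; field_simp
  rw [hgoal]
  have hy2X : y₂ ≤ X := by
    rw [hX, add_mul, one_mul]
    omega
  have hhX : h ≤ X := by
    rw [hX, add_mul, one_mul]
    omega
  -- the weighted number
  have hWt : |Wc q a h y₁ y₂ - Q| ≤ Q / L := by
    have g1 := wc_win B (A + B + 3) X h hG q a hq (hqL.trans (by rw [← hLX]; exact pow_le_pow_left₀ hL0.le hLLX _)) ha hah y₁ y₂ h12.le hy2X
    rw [← hS, ← hK, ← hQ, ← hLX] at g1
    refine g1.trans ?_
    have e1 : 2 * ((X : ℝ) / LX ^ (A + B + 3)) ≤ N * L / L ^ (A + B + 3) := by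
      calc 2 * ((X : ℝ) / LX ^ (A + B + 3)) = (2 * X) / LX ^ (A + B + 3) := by ring
        _ ≤ N * L / L ^ (A + B + 3) := by
            apply div_le_div₀ (by positivity) (by push_cast at hX2L; exact hX2L) (by positivity)
            exact pow_le_pow_left₀ hL0.le hLLX _
    have e2 : (N : ℝ) * L / L ^ (A + B + 3) = N / L ^ (A + B) / L ^ 2 := by
      rw [show A + B + 3 = (A + B) + 2 + 1 by ring, pow_succ L (A + B + 2), pow_add L (A + B) 2]
      field_simp
    rw [e2] at e1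
    refine e1.trans ?_
    calc (N : ℝ) / L ^ (A + B) / L ^ 2 ≤ Q / L ^ 2 := div_le_div_of_nonneg_right hQlow (by positivity)
      _ ≤ Q / L := by
          apply div_le_div_of_nonneg_left hQ0.le hL0
          exact le_self_pow₀ hL1 (by norm_num)
  rw [abs_le] at hWt
  have hQL : Q / L ≤ Q * (ε / 64) := by
    rw [div_le_iff₀ hL0]
    nlinarith
  obtain ⟨num_a, num_b, num_c⟩ := num2 ε hε hε1
  rw [abs_le]
  constructor
  · -- lower bound
    have g2 := wc_le q a h (2 * X) y₁ y₂ (by omega) (by omega)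
    have g3 : 4 * √((2 * X : ℕ) : ℝ) * Real.log (2 * X : ℕ) ^ 2 ≤ Q / L := by
      have e2 : √((2 * X : ℕ) : ℝ) ≤ √(N : ℝ) * L := by
        rw [Real.sqrt_le_left (by positivity)]
        refine hX2L.trans ?_
        rw [mul_pow, Real.sq_sqrt hN0.le]
        apply mul_le_mul_of_nonneg_left _ hN0.le
        nlinarith
      have e3 : Real.log (2 * X : ℕ) ≤ 2 * L := by
        refine hlog2X.trans ?_
        nlinarith
      have e4 : Real.log (2 * X : ℕ) ^ 2 ≤ (2 * L) ^ 2 := pow_le_pow_left₀ hlog2X0.le e3 _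
      calc 4 * √((2 * X : ℕ) : ℝ) * Real.log (2 * X : ℕ) ^ 2 ≤ 4 * (√(N : ℝ) * L) * (2 * L) ^ 2 := by gcongr
        _ = 16 * L ^ 3 * √N := by ring
        _ ≤ L * L ^ 3 * √N := by gcongr; linarith
        _ = √N * L ^ 4 := by ring
        _ ≤ Q / L := by
            rw [le_div_iff₀ hL0]
            refine le_trans ?_ hQlow
            rw [le_div_iff₀ (by positivity)]
            calc √(N : ℝ) * L ^ 4 * L * L ^ (A + B) = √N * L ^ (A + B + 5) := by ring
              _ ≤ √N * L ^ (A + 2 * B + 10) := by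
                  apply mul_le_mul_of_nonneg_left _ hs0.le
                  exact pow_le_pow_right₀ hL1 (by omega)
              _ ≤ √N * √N := mul_le_mul_of_nonneg_left b2 hs0.le
              _ = N := hss
    have g4 : Q * (1 - ε / 2) ≤ cc q a h y₁ y₂ * Real.log (2 * X : ℕ) ^ 2 := by
      have : 0 ≤ Q * ε := by positivity
      have e0 : Q * (1 - ε / 2) = Q - Q * ε / 2 := by ring
      rw [e0]
      linarith [hWt.1]
    have g5 : Q * (1 - ε) / L ^ 2 ≤ cc q a h y₁ y₂ := by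
      rw [div_le_iff₀ (by positivity)]
      have e1 : Real.log (2 * X : ℕ) ^ 2 ≤ ((1 + ε / 8) * L) ^ 2 := pow_le_pow_left₀ hlog2X0.le hlog2X _
      have e2 : (cc q a h y₁ y₂ : ℝ) * Real.log (2 * X : ℕ) ^ 2 ≤ cc q a h y₁ y₂ * ((1 + ε / 8) * L) ^ 2 :=
        mul_le_mul_of_nonneg_left e1 (Nat.cast_nonneg _)
      have e3 : 0 < (1 + ε / 8) ^ 2 := by positivity
      have e4 : Q * (1 - ε) * (1 + ε / 8) ^ 2 ≤ cc q a h y₁ y₂ * L ^ 2 * (1 + ε / 8) ^ 2 := by
        calc Q * (1 - ε) * (1 + ε / 8) ^ 2 = Q * ((1 - ε) * (1 + ε / 8) ^ 2) := by ring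
          _ ≤ Q * (1 - ε / 2) := mul_le_mul_of_nonneg_left num_c hQ0.le
          _ ≤ cc q a h y₁ y₂ * ((1 + ε / 8) * L) ^ 2 := g4.trans e2
          _ = _ := by ring
      exact le_of_mul_le_mul_right e4 e3
    have g6 : Q * (1 - ε) / L ^ 2 = Q / L ^ 2 - ε * (Q / L ^ 2) := by ring
    linarith
  · -- upper bound
    obtain ⟨y, hy⟩ : ∃ y, y = ⌈(N : ℝ) / L ^ (A + B + 3)⌉₊ := ⟨_, rfl⟩
    have hq : √(N : ℝ) ≤ (N : ℝ) / L ^ (A + B + 3) := by
      rw [le_div_iff₀ (by positivity)]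
      calc √(N : ℝ) * L ^ (A + B + 3) ≤ √(N : ℝ) * L ^ (A + 2 * B + 10) :=
            mul_le_mul_of_nonneg_left (pow_le_pow_right₀ hL1 (by omega)) hs0.le
        _ ≤ √(N : ℝ) * √(N : ℝ) := mul_le_mul_of_nonneg_left b2 hs0.le
        _ = N := hss
    have hsN2 : 2 ≤ √(N : ℝ) := by
      apply Real.le_sqrt_of_sq_le
      linarith
    have hy1 : (N : ℝ) / L ^ (A + B + 3) ≤ y := by rw [hy]; exact Nat.le_ceil _
    have hy2' : (y : ℝ) ≤ (N : ℝ) / L ^ (A + B + 3) + 1 := by rw [hy]; exact (Nat.ceil_lt_add_one (by positivity)).le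
    have hy2n : 2 ≤ y := by
      have : (2 : ℝ) ≤ y := by linarith
      exact_mod_cast this
    have c0 := cc_le q a h y₁ y₂ y hy2n
    have c1 : (y : ℝ) ≤ ε / 4 * (Q / L ^ 2) := by
      have d1 : (N : ℝ) / L ^ (A + B + 3) ≤ Q / L ^ 3 := by
        have : (N : ℝ) / L ^ (A + B + 3) = N / L ^ (A + B) / L ^ 3 := by rw [pow_add, div_div]
        rw [this]
        exact div_le_div_of_nonneg_right hQlow (by positivity)
      have d2 : Q / L ^ 3 ≤ ε / 64 * (Q / L ^ 2) := by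
        have : Q / L ^ 3 = Q / L / L ^ 2 := by rw [pow_succ L 2]; field_simp
        rw [this]
        calc Q / L / L ^ 2 ≤ Q * (ε / 64) / L ^ 2 := div_le_div_of_nonneg_right hQL (by positivity)
          _ = _ := by ring
      linarith
    have hlogy : (1 - ε / 8) * L ≤ Real.log y := by
      have d1 : Real.log ((N : ℝ) / L ^ (A + B + 3)) ≤ Real.log y := Real.log_le_log (by positivity) hy1
      rw [Real.log_div hN0.ne' (by positivity), Real.log_pow, ← hL] at d1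
      have d7 : ((A + B + 3 : ℕ) : ℝ) * Real.log L ≤ ε / 8 * L := by
        have : ((A + B + 3 : ℕ) : ℝ) * Real.log L ≤ ((A : ℝ) + B + 4) * Real.log L := by
          apply mul_le_mul_of_nonneg_right _ hlL0
          push_cast
          linarith
        have h6 : 0 ≤ ε * L := by positivity
        linarith
      linarith
    have hεM : 0 < (1 - ε / 8) * L := mul_pos (by linarith) hL0
    have hly0 : 0 < Real.log y := lt_of_lt_of_le hεM hlogy
    have c2 : Wc q a h y₁ y₂ / Real.log y ^ 2 ≤ Q * (1 + ε / 16) * (1 + ε / 2) / L ^ 2 := by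
      have d1 : Wc q a h y₁ y₂ ≤ Q * (1 + ε / 16) := by
        have d0 : Q * (1 + ε / 16) = Q + Q * (ε / 64) * 4 := by ring
        rw [d0]
        have : 0 ≤ Q * (ε / 64) := by positivity
        linarith [hWt.2]
      have d2 : ((1 - ε / 8) * L) ^ 2 ≤ Real.log y ^ 2 := pow_le_pow_left₀ hεM.le hlogy 2
      rw [div_le_div_iff₀ (by positivity) (by positivity)]
      calc Wc q a h y₁ y₂ * L ^ 2 ≤ (Q * (1 + ε / 16)) * L ^ 2 := mul_le_mul_of_nonneg_right d1 (by positivity)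
        _ ≤ (Q * (1 + ε / 16)) * (((1 + ε / 2) * (1 - ε / 8) ^ 2) * L ^ 2) := by
            apply mul_le_mul_of_nonneg_left _ (by positivity)
            exact le_mul_of_one_le_left (sq_nonneg L) num_a
        _ = Q * (1 + ε / 16) * (1 + ε / 2) * ((1 - ε / 8) * L) ^ 2 := by ring
        _ ≤ Q * (1 + ε / 16) * (1 + ε / 2) * Real.log y ^ 2 := mul_le_mul_of_nonneg_left d2 (by positivity)
    have c4 : Q * (1 + ε / 16) * (1 + ε / 2) / L ^ 2 = (1 + ε / 16) * (1 + ε / 2) * (Q / L ^ 2) := by ring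
    rw [c4] at c2
    have c6 : 0 ≤ Q / L ^ 2 := by positivity
    have c5 := mul_le_mul_of_nonneg_right num_b c6
    linarith

/-- almost all members of a family of small energy -/
theorem fam_c (h A B C W U : ℕ) (ε : ℝ) (hε : 0 < ε) (hε1 : ε ≤ 1 / 2) : ∃ N0 : ℕ, ∀ N : ℕ, N0 ≤ N →
    ∀ (x : ℕ) (s : ℕ → ℤ), (∀ m ∈ Icc 1 x, |s m| ≤ W * N) →
    (energy h x s : ℝ) * N ≤ Real.log N ^ C * (x : ℝ) ^ (2 * h) →
    ∀ S : Finset ℕ, S ⊆ Icc 1 x → (∀ m ∈ S, 0 < s m ∧ Even (s m) ∧ ¬ HC ε A B W N (s m).toNat) →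
      (S.card : ℝ) ≤ x / Real.log N ^ U := by
  obtain ⟨X0, h0⟩ := gw_fam h (C + 1) B (A + B + 2) U
  obtain ⟨n1, h1⟩ := win_c ε hε hε1 A B W
  obtain ⟨n2, h2⟩ := ev_L' (W + 1)
  refine ⟨X0 + n1 + n2 + 3, fun N hN x s hs hE S hSx hS => ?_⟩
  have hw := h1 N (by omega)
  have b2 := h2 N (by omega)
  obtain ⟨L, hL⟩ : ∃ L, L = Real.log (N : ℝ) := ⟨_, rfl⟩
  rw [← hL] at b2 hE ⊢
  have hW0 : (0 : ℝ) ≤ W := Nat.cast_nonneg _
  have hL1 : 1 ≤ L := by linarith
  have hL0 : 0 < L := by linarith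
  have hNr : (3 : ℝ) ≤ N := by exact_mod_cast (by omega : 3 ≤ N)
  have hN0 : (0 : ℝ) < N := by linarith
  obtain ⟨X, hX⟩ : ∃ X, X = (W + 1) * N := ⟨_, rfl⟩
  have hXr : (X : ℝ) = (W + 1) * N := by rw [hX]; push_cast; rfl
  have hNX : (N : ℝ) ≤ X := by rw [hXr]; nlinarith
  have hNXn : N ≤ X := by exact_mod_cast hNX
  have hX0 : (0 : ℝ) < X := by linarith
  obtain ⟨LX, hLX⟩ : ∃ LX, LX = Real.log (X : ℝ) := ⟨_, rfl⟩
  have hLLX : L ≤ LX := by rw [hL, hLX]; exact Real.log_le_log hN0 hNX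
  have key := h0 X (by omega) x s (fun m hm => (hs m hm).trans (by
      rw [hX]
      push_cast
      have : (0 : ℤ) ≤ N := Int.natCast_nonneg _
      linarith)) (by
      rw [← hLX]
      calc (energy h x s : ℝ) * X = (W + 1) * (energy h x s * N) := by rw [hXr]; ring
        _ ≤ L * (L ^ C * (x : ℝ) ^ (2 * h)) := mul_le_mul b2 hE (by positivity) (by positivity)
        _ = L ^ (C + 1) * (x : ℝ) ^ (2 * h) := by ring
        _ ≤ LX ^ (C + 1) * (x : ℝ) ^ (2 * h) := by gcongr) S hSx (by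
      intro m hm
      obtain ⟨e1, e2, e3⟩ := hS m hm
      refine ⟨e1, e2, fun hG => e3 ?_⟩
      have h5 := hs m (hSx hm)
      have e4 : (((s m).toNat : ℕ) : ℤ) = s m := Int.toNat_of_nonneg e1.le
      rw [abs_of_pos e1, ← e4] at h5
      refine hw (s m).toNat (by exact_mod_cast h5) ?_
      rw [← hX]
      exact hG)
  refine key.trans ?_
  rw [← hLX]
  have hx0 : (0 : ℝ) ≤ x := Nat.cast_nonneg _
  apply div_le_div_of_nonneg_left hx0 (by positivity)
  exact pow_le_pow_left₀ hL0.le hLLX _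

end Pool.Agent.TH935.DF
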