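import Pool.Agent.TH935.DF4

set_option autoImplicit false

/-! Prime pairs in progressions, uniformly in the modulus, for almost all differences in thin families. -/

namespace Pool.Agent.TH935.DF

open Finset Pool.Agent.H373R2.T7
open Pool.Agent.W93.PP (GoodD det_good)
open Pool.Agent.TH935.LF (energy_shift)

set_option maxHeartbeats 4000000 in
theorem gd_fam (h A B C U C0 B0 W : ℕ) : ∃ N0 : ℕ, ∀ N : ℕ, N0 ≤ N → ∀ (x : ℕ) (s : ℕ → ℤ), (∀ m ∈ Icc 1 x, |s m| ≤ B0 * N) →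
    (energy h x s : ℝ) * N ≤ Real.log N ^ C0 * (x : ℝ) ^ (2 * h) →
    ∀ X : ℕ, N ≤ X → (N : ℝ) * Real.log X ^ (C + 6) ≤ X → (X : ℝ) ≤ N * Real.log X ^ W →
    ∀ S : Finset ℕ, S ⊆ Icc 1 x → (∀ m ∈ S, 0 ≤ s m ∧ ¬ GoodD A B C X (s m).toNat) → (S.card : ℝ) ≤ x / Real.log N ^ U := by
  classical
  obtain ⟨b0, hb0⟩ := mom h (C0 + W) B (C + 3) (C + 5) (U + A + 1)
  obtain ⟨E1, hE1⟩ : ∃ E1, E1 = b0 + C + 7 + B := ⟨_, rfl⟩
  obtain ⟨n1, h1⟩ := hb0 (E1 + 1)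
  obtain ⟨X1, hdet⟩ := det_good A B C E1 (by omega)
  obtain ⟨n3, h3⟩ := ev_L' (B0 + 10)
  obtain ⟨n4, h4⟩ := ev_log' A 1
  refine ⟨n1 + X1 + n3 + n4 + 3, fun N hN x s hs hE X hNX hX1 hX2 S hSx hS => ?_⟩
  have hLN := h3 N (by omega)
  have hN3 : (3 : ℝ) ≤ N := by exact_mod_cast (by omega : 3 ≤ N)
  have hN0 : (0 : ℝ) < N := by linarith
  have hB00 : (0 : ℝ) ≤ B0 := Nat.cast_nonneg _
  have hNXr : (N : ℝ) ≤ X := by exact_mod_cast hNX
  have hX0 : (0 : ℝ) < X := by linarith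
  have hXA := h4 X (by omega)
  have c1 := h1 X (by omega)
  have hdet' := hdet X (by omega)
  obtain ⟨l, hl⟩ : ∃ l, l = Real.log (N : ℝ) := ⟨_, rfl⟩
  obtain ⟨L, hL⟩ : ∃ L, L = Real.log (X : ℝ) := ⟨_, rfl⟩
  have hlL : l ≤ L := by rw [hl, hL]; exact Real.log_le_log hN0 hNXr
  rw [← hL] at hXA c1 hdet' hX1 hX2
  rw [← hl] at hLN hE ⊢
  rw [one_mul] at hXA
  have hl1 : 1 ≤ l := by linarith
  have hl0 : 0 < l := by linarith
  have hL10 : (B0 : ℝ) + 10 ≤ L := by linarith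
  have hL1 : 1 ≤ L := by linarith
  have hL0 : 0 < L := by linarith
  have hfl : ∀ E : ℕ, L ^ E ≤ (⌈L ^ E⌉₊ : ℝ) ∧ (⌈L ^ E⌉₊ : ℝ) ≤ L ^ (E + 1) := by
    intro E
    refine ⟨Nat.le_ceil _, ?_⟩
    have h5 : (⌈L ^ E⌉₊ : ℝ) < L ^ E + 1 := Nat.ceil_lt_add_one (by positivity)
    have h6 : 1 ≤ L ^ E := one_le_pow₀ hL1
    rw [pow_succ]
    nlinarith
  obtain ⟨z, hz⟩ : ∃ z, z = ⌈L ^ E1⌉₊ := ⟨_, rfl⟩
  obtain ⟨T, hT⟩ : ∃ T, T = ⌈L ^ (C + 4)⌉₊ := ⟨_, rfl⟩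
  have hz1 : L ^ E1 ≤ z := by rw [hz]; exact (hfl E1).1
  have hz2 : (z : ℝ) ≤ L ^ (E1 + 1) := by rw [hz]; exact (hfl E1).2
  have hT1 : L ^ (C + 4) ≤ T := by rw [hT]; exact (hfl (C + 4)).1
  have hT2 : (T : ℝ) ≤ L ^ (C + 5) := by rw [hT]; exact (hfl (C + 4)).2
  have hE' : (energy h x s : ℝ) * X ≤ L ^ (C0 + W) * (x : ℝ) ^ (2 * h) := by
    calc (energy h x s : ℝ) * X ≤ energy h x s * (N * L ^ W) := mul_le_mul_of_nonneg_left hX2 (Nat.cast_nonneg _)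
      _ = (energy h x s * N) * L ^ W := by ring
      _ ≤ (l ^ C0 * (x : ℝ) ^ (2 * h)) * L ^ W := mul_le_mul_of_nonneg_right hE (by positivity)
      _ ≤ (L ^ C0 * (x : ℝ) ^ (2 * h)) * L ^ W := by gcongr
      _ = L ^ (C0 + W) * (x : ℝ) ^ (2 * h) := by rw [pow_add]; ring
  -- sizes
  have hsX : ∀ m ∈ Icc 1 x, |s m| * ⌈L ^ 0⌉₊ ≤ X ∧ (|s m| : ℝ) ≤ X / L ^ (C + 5) := by
    intro m hm
    have h5 : ((|s m| : ℤ) : ℝ) ≤ B0 * N := by
      have := hs m hm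
      exact_mod_cast this
    have h6 : ((|s m| : ℤ) : ℝ) ≤ X / L ^ (C + 5) := by
      rw [le_div_iff₀ (by positivity)]
      calc ((|s m| : ℤ) : ℝ) * L ^ (C + 5) ≤ (B0 * N) * L ^ (C + 5) := mul_le_mul_of_nonneg_right h5 (by positivity)
        _ ≤ (L * N) * L ^ (C + 5) := by
            apply mul_le_mul_of_nonneg_right _ (by positivity)
            apply mul_le_mul_of_nonneg_right _ hN0.le
            linarith
        _ = N * L ^ (C + 6) := by ring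
        _ ≤ X := hX1
    refine ⟨?_, by push_cast at h6; exact h6⟩
    have h7 : ((|s m| : ℤ) : ℝ) ≤ X := h6.trans (div_le_self hX0.le (one_le_pow₀ hL1))
    have h8 : |s m| ≤ X := by exact_mod_cast h7
    simpa using h8
  obtain ⟨R, hR⟩ : ∃ R : ℕ, R = ⌊L ^ A⌋₊ := ⟨_, rfl⟩
  have hRL : (R : ℝ) ≤ L ^ A := by rw [hR]; exact Nat.floor_le (by positivity)
  have hRX : R ≤ X := by
    have h5 : (R : ℝ) ≤ X := by
      refine hRL.trans (hXA.trans ?_)
      rw [Real.sqrt_le_left hX0.le]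
      nlinarith
    exact_mod_cast h5
  obtain ⟨P, hP⟩ : ∃ P : ℕ → ℕ → Prop, P = fun δ : ℕ => fun m => ∃ i ∈ range (T + 1), ∃ q a : ℕ, (q : ℝ) ≤ L ^ B ∧ a < q ∧
      X / L ^ (C + 3) < |∑ n ∈ Icc 1 (min (i * (X / T + 1)) X), (if n ≡ a [MOD q] then ArithmeticFunction.vonMangoldt n else 0) *
        (lamI ((n : ℤ) + (s m - (-(δ : ℤ)))) - lamzI z ((n : ℤ) + (s m - (-(δ : ℤ)))))| := ⟨_, rfl⟩
  obtain ⟨F, hF⟩ : ∃ F : ℕ → Finset ℕ, F = fun δ : ℕ => S.filter (fun m => P δ m) := ⟨_, rfl⟩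
  have hsub : S ⊆ (range (R + 1)).biUnion F := by
    intro m hm
    obtain ⟨hm0, hbad⟩ := hS m hm
    by_contra hcon
    apply hbad
    have e1 : (((s m).toNat : ℕ) : ℤ) = s m := Int.toNat_of_nonneg hm0
    have e2 : (((s m).toNat : ℕ) : ℝ) = ((|s m| : ℤ) : ℝ) := by
      rw [abs_of_nonneg hm0]
      exact_mod_cast e1
    refine hdet' (s m).toNat ?_ z hz1 hz2 T hT1 hT2 ?_
    · rw [e2]
      have := (hsX m (hSx hm)).2
      push_cast
      exact this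
    · intro i hi δ q a hδ hq1 hq2 haq
      by_contra hlt
      push Not at hlt
      apply hcon
      rw [mem_biUnion]
      refine ⟨δ, mem_range.2 ?_, ?_⟩
      · have : δ ≤ R := by rw [hR]; exact Nat.le_floor hδ
        omega
      · rw [hF]
        simp only
        rw [mem_filter]
        refine ⟨hm, ?_⟩
        rw [hP]
        refine ⟨i, hi, q, a, hq2, haq, ?_⟩
        have e3 : (((s m).toNat + δ : ℕ) : ℤ) = s m - (-(δ : ℤ)) := by push_cast; rw [e1]; ring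
        rw [← e3]
        exact hlt
  have hone : ∀ δ ∈ range (R + 1), ((F δ).card : ℝ) ≤ x / L ^ (U + A + 1) := by
    intro δ hδ
    rw [mem_range] at hδ
    apply c1 z ((pow_le_pow_right₀ hL1 (by omega)).trans hz1) hz2 T (X / T + 1) hT2 x (fun m => s m - (-(δ : ℤ)))
    · intro m hm
      have h5 := (hsX m hm).1
      have h6 : |s m| ≤ X := by simpa using h5
      have h7 : (δ : ℤ) ≤ X := by exact_mod_cast (by omega : δ ≤ X)
      refine (abs_sub _ _).trans ?_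
      rw [abs_neg, Nat.abs_cast]
      linarith
    · rw [energy_shift]
      exact hE'
    · rw [hF]
      exact (filter_subset _ _).trans hSx
    · intro m hm
      rw [hF] at hm
      simp only at hm
      rw [mem_filter, hP] at hm
      exact hm.2
  have hx0 : (0 : ℝ) ≤ x := Nat.cast_nonneg _
  calc (S.card : ℝ) ≤ (((range (R + 1)).biUnion F).card : ℝ) := by exact_mod_cast card_le_card hsub
    _ ≤ ((∑ δ ∈ range (R + 1), (F δ).card : ℕ) : ℝ) := by exact_mod_cast card_biUnion_le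
    _ = ∑ δ ∈ range (R + 1), ((F δ).card : ℝ) := by push_cast; rfl
    _ ≤ ∑ _δ ∈ range (R + 1), (x : ℝ) / L ^ (U + A + 1) := sum_le_sum hone
    _ = (R + 1) * (x / L ^ (U + A + 1)) := by
        rw [sum_const, card_range, nsmul_eq_mul]
        push_cast
        rfl
    _ ≤ L ^ (A + 1) * (x / L ^ (U + A + 1)) := by
        apply mul_le_mul_of_nonneg_right _ (by positivity)
        have h6 : 1 ≤ L ^ A := one_le_pow₀ hL1
        rw [pow_succ]
        nlinarith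
    _ = x / L ^ U := by
        rw [show U + A + 1 = U + (A + 1) by ring, pow_add L U (A + 1)]
        field_simp
    _ ≤ x / l ^ U := by
        apply div_le_div_of_nonneg_left hx0 (by positivity)
        exact pow_le_pow_left₀ hl0.le hlL _

end Pool.Agent.TH935.DF
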