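import Pool.Agent.TH935.LF7
import Pool.Agent.TH935.DF1

set_option autoImplicit false

/-! Goldbach representations in progressions: the deterministic part. -/

namespace Pool.Agent.TH935.DG
open Finset
open Pool.Agent.H373R2.T7
open Pool.Agent.H560R3.GB (sing)
open Pool.Agent.W93.GB (vM_le one_le_sing)
open Pool.Agent.W93.PP (MT PS mem_PS Cnt MT_sing)
open Pool.Agent.TH935.LF (TT ap_all exists_shift)

/-- the weighted sums over Goldbach representations in progressions are as predicted -/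
def GV (B V X n : ℕ) : Prop :=
  ∀ k r : ℕ, 1 ≤ k → (k : ℝ) ≤ Real.log X ^ B → Nat.Coprime r k → IsCoprime ((n : ℤ) - r) (k : ℤ) →
    ∀ y : ℕ, y < n → |∑ q ∈ Icc 1 y, (if q ≡ r [MOD k] then ArithmeticFunction.vonMangoldt q else 0) *
      lamI ((n : ℤ) - (q : ℤ)) - sing n / Cnt k n * y| ≤ X / Real.log X ^ V

lemma cnt_pos' (k r n : ℕ) (hk : 1 ≤ k) (hr : Nat.Coprime r k) (hrn : IsCoprime ((n : ℤ) - r) (k : ℤ)) : 0 < Cnt k n := by
  have hk0 : (0 : ℤ) < k := by exact_mod_cast hk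
  obtain ⟨A, hA⟩ : ∃ A : ℕ, (A : ℤ) = (-(r : ℤ)) % k := ⟨((-(r : ℤ)) % k).toNat, Int.toNat_of_nonneg (Int.emod_nonneg _ hk0.ne')⟩
  have hAk : A < k := by
    have : (A : ℤ) < k := by rw [hA]; exact Int.emod_lt_of_pos _ hk0
    exact_mod_cast this
  have e : (A : ℤ) = -r + k * (-((-(r : ℤ)) / k)) := by
    have := Int.emod_add_mul_ediv (-(r : ℤ)) k
    rw [hA]; linarith
  unfold Cnt
  rw [card_pos]
  refine ⟨A, mem_filter.2 ⟨mem_range.2 hAk, ?_, ?_⟩⟩
  · rw [← Nat.isCoprime_iff_coprime, e]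
    have h1 : IsCoprime (-(r : ℤ)) (k : ℤ) := (Nat.isCoprime_iff_coprime.2 hr).neg_left
    exact h1.add_mul_left_left _
  · rw [← Nat.isCoprime_iff_coprime]
    push_cast
    rw [e]
    have h1 : -(r : ℤ) + k * (-((-(r : ℤ)) / k)) + n = ((n : ℤ) - r) + k * (-((-(r : ℤ)) / k)) := by ring
    rw [h1]
    exact hrn.add_mul_left_left _

/-- the model at `n - q` and at `q + t` -/
lemma model_eq (z n t q : ℕ) (hq : 1 ≤ q) (ht : ∀ p : ℕ, p.Prime → p ≤ z → (p : ℤ) ∣ (n : ℤ) + t) :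
    lamzI z ((n : ℤ) - (q : ℤ)) ≤ lamzI z ((q : ℤ) + (t : ℤ)) ∧ (q < n → lamzI z ((n : ℤ) - (q : ℤ)) = lamzI z ((q : ℤ) + (t : ℤ))) := by
  have key : q < n → lamzI z ((n : ℤ) - (q : ℤ)) = lamzI z ((q : ℤ) + (t : ℤ)) := by
    intro hqn
    unfold lamzI
    rw [if_pos (show (1 : ℤ) ≤ (n : ℤ) - (q : ℤ) by omega), if_pos (show (1 : ℤ) ≤ (q : ℤ) + (t : ℤ) by omega)]
    unfold lamz
    have hiff : ∀ p ∈ pz z, (p ∣ ((n : ℤ) - (q : ℤ)).toNat ↔ p ∣ ((q : ℤ) + (t : ℤ)).toNat) := by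
      intro p hp
      obtain ⟨hpz, hpp⟩ := mem_pz.1 hp
      have h1 := ht p hpp hpz
      have e1 : (p ∣ ((n : ℤ) - (q : ℤ)).toNat) ↔ (p : ℤ) ∣ (n : ℤ) - (q : ℤ) := by
        rw [← Int.natCast_dvd_natCast, Int.toNat_of_nonneg (by omega)]
      have e2 : (p ∣ ((q : ℤ) + (t : ℤ)).toNat) ↔ (p : ℤ) ∣ (q : ℤ) + (t : ℤ) := by
        rw [← Int.natCast_dvd_natCast, Int.toNat_of_nonneg (by omega)]
      rw [e1, e2]
      constructor
      · intro h
        have := dvd_sub h1 h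
        rwa [show (n : ℤ) + t - ((n : ℤ) - q) = q + t by ring] at this
      · intro h
        have := dvd_sub h1 h
        rwa [show (n : ℤ) + t - ((q : ℤ) + t) = n - q by ring] at this
    by_cases hall : ∀ p ∈ pz z, ¬ p ∣ ((n : ℤ) - (q : ℤ)).toNat
    · rw [if_pos hall, if_pos (fun p hp h => hall p hp ((hiff p hp).2 h))]
    · rw [if_neg hall, if_neg (fun h => hall fun p hp h' => h p hp ((hiff p hp).1 h'))]
  refine ⟨?_, key⟩
  by_cases hqn : q < n
  · rw [key hqn]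
  · have : lamzI z ((n : ℤ) - (q : ℤ)) = 0 := by
      unfold lamzI
      rw [if_neg (by omega)]
    rw [this]
    exact lamzI_nonneg _ _

set_option maxHeartbeats 4000000 in
theorem det_g (B C E1 : ℕ) (hE1 : C + 7 + B ≤ E1) : ∃ X0 : ℕ, ∀ X : ℕ, X0 ≤ X → ∀ n : ℕ, n ≤ X → 2 ∣ n → n ≠ 0 →
    ∀ z : ℕ, Real.log X ^ E1 ≤ z → (z : ℝ) ≤ Real.log X ^ (E1 + 1) →
    ∀ T : ℕ, Real.log X ^ (C + 4) ≤ T →
    (∀ i ∈ range (T + 1), ∀ k r : ℕ, 1 ≤ k → (k : ℝ) ≤ Real.log X ^ B → r < k →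
      |∑ q ∈ Icc 1 (min (i * (X / T + 1)) X), (if q ≡ r [MOD k] then ArithmeticFunction.vonMangoldt q else 0) *
        (lamI ((n : ℤ) - (q : ℤ)) - lamzI z ((n : ℤ) - (q : ℤ)))| ≤ X / Real.log X ^ (C + 3)) → GV B (C + 1) X n := by
  classical
  obtain ⟨N0, h0⟩ := ap_all (E1 + 1) (C + 3)
  obtain ⟨n2, h2⟩ := ev_L' 100
  obtain ⟨n3, h3⟩ := Vz_inv_small (E1 + 1)
  obtain ⟨n4, h4⟩ := ev_log' (C + 8) 1
  refine ⟨N0 + n2 + n3 + n4 + 4, fun X hX n hnX h2n hn0 z hz1 hz2 T hT1 hyp => ?_⟩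
  have hap := h0 X (by omega)
  have hL := h2 X (by omega)
  have hV := h3 X (by omega) z
  have a4 := h4 X (by omega)
  obtain ⟨L, hLd⟩ : ∃ L, L = Real.log (X : ℝ) := ⟨_, rfl⟩
  unfold GV
  rw [← hLd] at hap hL hV a4 hz1 hz2 hT1 hyp ⊢
  rw [one_mul] at a4
  have hL1 : 1 ≤ L := by linarith
  have hL0 : 0 < L := by linarith
  have hXr : (4 : ℝ) ≤ X := by exact_mod_cast (by omega : 4 ≤ X)
  have hX0 : (0 : ℝ) < X := by linarith
  have hss : √(X : ℝ) * √(X : ℝ) = X := Real.mul_self_sqrt hX0.le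
  have hs0 : 0 < √(X : ℝ) := Real.sqrt_pos.2 hX0
  have hs1 : 1 ≤ √(X : ℝ) := (one_le_pow₀ hL1).trans a4
  have hz0 : (1 : ℝ) ≤ z := (one_le_pow₀ hL1).trans hz1
  have hzn : 1 ≤ z := by exact_mod_cast hz0
  have hV' := hV hzn hz2
  have hT0 : (1 : ℝ) ≤ T := (one_le_pow₀ hL1).trans hT1
  have hTn : 1 ≤ T := by exact_mod_cast hT0
  intro k r hk1 hk2 hr hrn y hyn
  have hkz : k ≤ z := by
    have h5 : (k : ℝ) ≤ z := by
      refine hk2.trans (le_trans ?_ hz1)
      exact pow_le_pow_right₀ hL1 (by omega)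
    exact_mod_cast h5
  -- the residue class
  obtain ⟨r', hr'⟩ : ∃ r', r' = r % k := ⟨_, rfl⟩
  have hrk : r' < k := by rw [hr']; exact Nat.mod_lt _ (by omega)
  have hmod : r' ≡ r [MOD k] := by rw [hr']; exact Nat.mod_modEq _ _
  have hr1 : Nat.Coprime r' k := by
    have := hmod.gcd_eq
    unfold Nat.Coprime at hr ⊢
    rw [this, hr]
  have hrn1 : IsCoprime ((n : ℤ) - r') (k : ℤ) := by
    have h5 : (k : ℤ) ∣ (r : ℤ) - r' := Nat.modEq_iff_dvd.1 hmod
    obtain ⟨j, hj⟩ := h5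
    have h6 : (n : ℤ) - r' = ((n : ℤ) - r) + k * j := by rw [← hj]; ring
    rw [h6]
    exact hrn.add_mul_left_left _
  have hif : ∀ q : ℕ, (if q ≡ r [MOD k] then ArithmeticFunction.vonMangoldt q else 0) = (if q ≡ r' [MOD k] then ArithmeticFunction.vonMangoldt q else 0) := by
    intro q
    by_cases h5 : q ≡ r [MOD k]
    · rw [if_pos h5, if_pos (h5.trans hmod.symm)]
    · rw [if_neg h5, if_neg (fun h6 => h5 (h6.trans hmod))]
  have hcnt := cnt_pos' k r' n hk1 hr1 hrn1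
  -- the shift
  obtain ⟨t, ht⟩ := exists_shift z 1 (-1) (n : ℤ)
  have ht' : ∀ p : ℕ, p.Prime → p ≤ z → (p : ℤ) ∣ (n : ℤ) + t := by
    intro p hp hpz
    have h5 := (ht p hp hpz).2 (by
      intro h6
      have h7 : (p : ℤ) ∣ 1 := by
        have := (dvd_neg).1 (show (p : ℤ) ∣ -1 by simpa using h6)
        exact this
      have h8 : p ∣ 1 := by exact_mod_cast h7
      exact hp.one_lt.ne' (Nat.dvd_one.1 h8))
    have h6 : (-1 : ℤ) * t - n = -((n : ℤ) + t) := by ring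
    rw [h6] at h5
    exact (dvd_neg).1 h5
  have hrt : Nat.Coprime (r' + t) k := by
    by_contra hcon
    obtain ⟨p, hp, hp1, hp2⟩ := Nat.Prime.not_coprime_iff_dvd.1 hcon
    have hpz : p ≤ z := (Nat.le_of_dvd (by omega) hp2).trans hkz
    have h5 := ht' p hp hpz
    have h6 : (p : ℤ) ∣ (r' : ℤ) + t := by exact_mod_cast hp1
    have h7 : (p : ℤ) ∣ (n : ℤ) - r' := by
      have := dvd_sub h5 h6
      rwa [show (n : ℤ) + t - ((r' : ℤ) + t) = n - r' by ring] at this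
    have h8 : (p : ℤ) ∣ (k : ℤ) := by exact_mod_cast hp2
    exact (Nat.prime_iff_prime_int.1 hp).not_isUnit (hrn1.isUnit_of_dvd' h7 h8)
  have hMT : MT z k t = MT z k n := by
    have hPS : PS z k t = PS z k n := by
      ext p
      rw [mem_PS, mem_PS]
      have h1 : ∀ hp : p ≤ z ∧ p.Prime, (¬ p ∣ t ↔ ¬ p ∣ n) := by
        rintro ⟨hpz, hp⟩
        have h5 := ht' p hp hpz
        have e1 : p ∣ t ↔ (p : ℤ) ∣ (t : ℤ) := Int.natCast_dvd_natCast.symm
        have e2 : p ∣ n ↔ (p : ℤ) ∣ (n : ℤ) := Int.natCast_dvd_natCast.symm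
        rw [e1, e2]
        exact not_congr ⟨fun h => (dvd_add_left h).1 h5, fun h => (dvd_add_right h).1 h5⟩
      constructor
      · rintro ⟨h2, h3, h4⟩
        exact ⟨h2, h3, (h1 h2).1 h4⟩
      · rintro ⟨h2, h3, h4⟩
        exact ⟨h2, h3, (h1 h2).2 h4⟩
    unfold MT
    rw [hPS]
  have hlogn : (Nat.log 2 n : ℝ) ≤ 2 * L := by
    have h5 : Nat.log 2 n ≤ Nat.log 2 X := Nat.log_mono_right hnX
    have h6 : (Nat.log 2 n : ℝ) ≤ Nat.log 2 X := by exact_mod_cast h5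
    have h7 := natlog_le X (by omega)
    rw [← hLd] at h7
    exact h6.trans h7
  have hzL : 8 * L ^ (C + 5) ≤ z := by
    refine le_trans ?_ hz1
    calc 8 * L ^ (C + 5) ≤ L * L ^ (C + 5) := mul_le_mul_of_nonneg_right (by linarith) (by positivity)
      _ = L ^ (C + 6) := by ring
      _ ≤ L ^ E1 := pow_le_pow_right₀ hL1 (by omega)
  obtain ⟨m1, m2, m3⟩ := MT_sing z k n L hL1 hk1 hkz h2n hn0 hcnt hV' hlogn (by
    refine le_trans ?_ hzL
    have : L ≤ L ^ (C + 5) := le_self_pow₀ hL1 (by omega)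
    linarith)
  obtain ⟨S, hS⟩ : ∃ S, S = sing n / Cnt k n := ⟨_, rfl⟩
  rw [← hS] at m1 m2 m3 ⊢
  rw [← hMT] at m1
  have m1' : |MT z k t - S| ≤ 1 / L ^ (C + 3) := by
    refine m1.trans ?_
    rw [div_le_div_iff₀ (by linarith) (by positivity)]
    calc 8 * L ^ 2 * L ^ (C + 3) = 8 * L ^ (C + 5) := by ring
      _ ≤ 1 * z := by linarith
  obtain ⟨δ, hδ⟩ : ∃ δ : ℝ, δ = X / L ^ (C + 3) := ⟨_, rfl⟩
  have hδ0 : 0 < δ := by rw [hδ]; positivity
  -- the model sums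
  have hN : ∀ g : ℕ, g ≤ X → |TT z k r' t g - S * g| ≤ 2 * δ := by
    intro g hg
    have h5 := hap z hzn hz2 k r' t hk1 (hk2.trans (pow_le_pow_right₀ hL1 (by omega))) hr1 hrt g hg
    rw [← hδ] at h5
    have hgX : (g : ℝ) ≤ X := by exact_mod_cast hg
    have h6 : |(MT z k t - S) * g| ≤ δ := by
      rw [abs_mul, Nat.abs_cast]
      calc |MT z k t - S| * g ≤ 1 / L ^ (C + 3) * X := mul_le_mul m1' hgX (Nat.cast_nonneg _) (by positivity)
        _ = δ := by rw [hδ]; ring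
    have e : TT z k r' t g - S * g = (TT z k r' t g - MT z k t * g) + (MT z k t - S) * g := by ring
    rw [e]
    refine (abs_add_le _ _).trans ?_
    linarith
  obtain ⟨F, hF⟩ : ∃ F : ℕ → ℝ, F = fun y => ∑ q ∈ Icc 1 y, (if q ≡ r' [MOD k] then ArithmeticFunction.vonMangoldt q else 0) *
      lamI ((n : ℤ) - (q : ℤ)) := ⟨_, rfl⟩
  obtain ⟨M, hM⟩ : ∃ M : ℕ → ℝ, M = fun y => ∑ q ∈ Icc 1 y, (if q ≡ r' [MOD k] then ArithmeticFunction.vonMangoldt q else 0) *
      lamzI z ((n : ℤ) - (q : ℤ)) := ⟨_, rfl⟩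
  have hw : ∀ q : ℕ, 0 ≤ (if q ≡ r' [MOD k] then ArithmeticFunction.vonMangoldt q else 0) := by
    intro q
    split_ifs
    · exact ArithmeticFunction.vonMangoldt_nonneg
    · exact le_rfl
  have hFmono : ∀ u v : ℕ, u ≤ v → F u ≤ F v := by
    intro u v huv
    rw [hF]
    apply sum_le_sum_of_subset_of_nonneg (Icc_subset_Icc_right huv)
    intro q _ _
    exact mul_nonneg (hw q) (lamI_nonneg _)
  have hMle : ∀ g : ℕ, M g ≤ TT z k r' t g := by
    intro g
    rw [hM]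
    unfold TT
    apply sum_le_sum
    intro q hq
    exact mul_le_mul_of_nonneg_left (model_eq z n t q (mem_Icc.1 hq).1 ht').1 (hw q)
  have hMeq : ∀ g : ℕ, g < n → M g = TT z k r' t g := by
    intro g hg
    rw [hM]
    unfold TT
    apply sum_congr rfl
    intro q hq
    have hq' := mem_Icc.1 hq
    rw [(model_eq z n t q hq'.1 ht').2 (by omega)]
  obtain ⟨s, hs⟩ : ∃ s, s = X / T + 1 := ⟨_, rfl⟩
  rw [← hs] at hyp
  have hFM : ∀ i ≤ T, |F (min (i * s) X) - M (min (i * s) X)| ≤ δ := by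
    intro i hi
    have h5 := hyp i (mem_range.2 (by omega)) k r' hk1 hk2 hrk
    rw [hF, hM]
    simp only
    rw [← sum_sub_distrib]
    rw [← hδ] at h5
    refine le_trans (le_of_eq ?_) h5
    congr 1
    apply sum_congr rfl
    intro q _
    ring
  have hspos : 0 < s := by rw [hs]; exact Nat.succ_pos _
  have hsT : X < T * s := by
    rw [hs]
    have := Nat.lt_div_mul_add (a := X) (b := T) (by omega)
    calc X < X / T * T + T := this
      _ = T * (X / T + 1) := by ring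
  have hsr : (s : ℝ) ≤ 2 * (X / L ^ (C + 4)) := by
    rw [hs]
    push_cast
    have h5 : ((X / T : ℕ) : ℝ) ≤ X / T := Nat.cast_div_le
    have h6 : (X : ℝ) / T ≤ X / L ^ (C + 4) := div_le_div_of_nonneg_left hX0.le (by positivity) hT1
    have h7 : 1 ≤ X / L ^ (C + 4) := by
      rw [le_div_iff₀ (by positivity), one_mul]
      calc L ^ (C + 4) ≤ L ^ (C + 8) := pow_le_pow_right₀ hL1 (by omega)
        _ ≤ √X := a4
        _ ≤ √X * √X := by nlinarith
        _ = X := hss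
    linarith
  have hSs : S * s ≤ 4 * δ := by
    calc S * s ≤ 2 * L * (2 * (X / L ^ (C + 4))) := mul_le_mul m3 hsr (Nat.cast_nonneg _) (by positivity)
      _ = 4 * δ := by
          rw [hδ, show C + 4 = (C + 3) + 1 by ring, pow_succ L (C + 3)]
          field_simp
          ring
  have hfin : 7 * δ ≤ X / L ^ (C + 1) := by
    have h6 : X / L ^ (C + 1) = δ * L ^ 2 := by
      rw [hδ, show C + 3 = (C + 1) + 2 by ring, pow_add L (C + 1) 2]
      field_simp
    rw [h6]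
    have h8 : (7 : ℝ) ≤ L ^ 2 := by nlinarith
    have h9 := mul_le_mul_of_nonneg_left h8 hδ0.le
    linarith
  have e0 : ∑ q ∈ Icc 1 y, (if q ≡ r [MOD k] then ArithmeticFunction.vonMangoldt q else 0) * lamI ((n : ℤ) - (q : ℤ)) = F y := by
    rw [hF]
    exact sum_congr rfl fun q _ => by rw [hif]
  rw [e0]
  have hyX : y < X := by omega
  obtain ⟨i, hi⟩ : ∃ i, i = y / s := ⟨_, rfl⟩
  have b1 : i * s ≤ y := by rw [hi]; exact Nat.div_mul_le_self y s
  have b2 : y < (i + 1) * s := by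
    rw [hi]
    have := Nat.lt_div_mul_add hspos (a := y)
    rw [add_mul, one_mul]
    exact this
  have hiT : i < T := by
    by_contra hcon
    have : T * s ≤ i * s := Nat.mul_le_mul_right _ (by omega)
    omega
  have b1r : ((i * s : ℕ) : ℝ) ≤ y := by exact_mod_cast b1
  have b2r : (y : ℝ) ≤ ((i * s : ℕ) : ℝ) + s := by
    have : y ≤ i * s + s := by rw [add_mul, one_mul] at b2; omega
    exact_mod_cast this
  have k1 := hFM i (by omega)
  have k2 := hFM (i + 1) (by omega)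
  obtain ⟨g, hg⟩ : ∃ g, g = min ((i + 1) * s) X := ⟨_, rfl⟩
  rw [← hg] at k2
  rw [show min (i * s) X = i * s from min_eq_left (by omega)] at k1
  have hyg : y ≤ g := by rw [hg]; exact le_min b2.le hyX.le
  have hgX : g ≤ X := by rw [hg]; exact min_le_right _ _
  have hgr : (g : ℝ) ≤ y + s := by
    have : g ≤ y + s := by
      rw [hg]
      refine (min_le_left _ _).trans ?_
      rw [add_mul, one_mul]
      omega
    exact_mod_cast this
  have k3 := hN g hgX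
  have k4 := hN (i * s) (by omega)
  have k5 := hMle g
  have k6 := hMeq (i * s) (by omega)
  have k7 := hFmono y g hyg
  have k8 := hFmono (i * s) y b1
  rw [abs_le] at k1 k2 k3 k4 ⊢
  have n1 := mul_le_mul_of_nonneg_left hgr m2
  have n2 := mul_le_mul_of_nonneg_left b2r m2
  rw [mul_add] at n1 n2
  constructor
  · linarith [k1.1, k4.1]
  · linarith [k2.2, k3.2]

end Pool.Agent.TH935.DG
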