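import Pool.Agent.TH935.DG1
import Pool.Agent.TH935.LF12
import Pool.Agent.TH935.DF2

set_option autoImplicit false

/-! Goldbach representations in progressions, for almost all members of thin families: weighted sums. -/

namespace Pool.Agent.TH935.DG
open Finset
open Pool.Agent.H373R2.T7
open Pool.Agent.W93.GB (vM_le)
open Pool.Agent.W93.PP (markov)
open Pool.Agent.TH935.LF (lin_mom Dz Dz_eq La Lz)

lemma Dz_one (z : ℕ) (k : ℤ) : Dz z 1 k = lamI k - lamzI z k := by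
  rw [Dz_eq]
  unfold La Lz
  simp

/-- the first moment, and Markov's inequality -/
theorem mom_g (h C B V E1 U : ℕ) : ∃ B0 : ℕ, ∀ E : ℕ, ∃ X0 : ℕ, ∀ X : ℕ, X0 ≤ X → ∀ z : ℕ, Real.log X ^ B0 ≤ z → (z : ℝ) ≤ Real.log X ^ E →
    ∀ T s₀ : ℕ, (T : ℝ) ≤ Real.log X ^ E1 →
    ∀ (x : ℕ) (s : ℕ → ℤ), (∀ m ∈ Icc 1 x, |s m| ≤ X) →
    (energy h x s : ℝ) * X ≤ Real.log X ^ C * (x : ℝ) ^ (2 * h) →
    ∀ S : Finset ℕ, S ⊆ Icc 1 x → (∀ m ∈ S, ∃ i ∈ range (T + 1), ∃ k r : ℕ, (k : ℝ) ≤ Real.log X ^ B ∧ r < k ∧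
      X / Real.log X ^ V < |∑ q ∈ Icc 1 (min (i * s₀) X), (if q ≡ r [MOD k] then ArithmeticFunction.vonMangoldt q else 0) *
        (lamI (s m - (q : ℤ)) - lamzI z (s m - (q : ℤ)))|) → (S.card : ℝ) ≤ x / Real.log X ^ U := by
  classical
  obtain ⟨U', hU'⟩ : ∃ U', U' = U + V + E1 + 2 * B + 5 := ⟨_, rfl⟩
  obtain ⟨B0, hB0⟩ := lin_mom h C U' 0
  refine ⟨B0, fun E => ?_⟩
  obtain ⟨n1, h1⟩ := hB0 E
  obtain ⟨n2, h2⟩ := ev_L' 3
  refine ⟨n1 + n2 + 3, fun X hX z hz1 hz2 T s₀ hT x s hs hE S hSx hS => ?_⟩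
  have c1 := h1 X (by omega) x s hs hE
  have c2 := h2 X (by omega)
  obtain ⟨L, hL⟩ : ∃ L, L = Real.log (X : ℝ) := ⟨_, rfl⟩
  rw [← hL] at c1 c2 hE hz1 hz2 hT hS ⊢
  have hL1 : 1 ≤ L := by linarith
  have hL0 : 0 < L := by linarith
  have hX3 : (3 : ℝ) ≤ X := by exact_mod_cast (by omega : 3 ≤ X)
  have hX0 : (0 : ℝ) < X := by linarith
  have hfr : ∀ E : ℕ, ((⌊L ^ E⌋₊ + 1 : ℕ) : ℝ) ≤ L ^ (E + 1) := by
    intro E
    have h5 : (⌊L ^ E⌋₊ : ℝ) ≤ L ^ E := Nat.floor_le (by positivity)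
    have h6 : 1 ≤ L ^ E := one_le_pow₀ hL1
    push_cast
    rw [pow_succ]
    nlinarith
  obtain ⟨I, hI⟩ : ∃ I, I = range (T + 1) ×ˢ range (⌊L ^ B⌋₊ + 1) ×ˢ range (⌊L ^ B⌋₊ + 1) := ⟨_, rfl⟩
  have hIcard : (I.card : ℝ) ≤ L ^ (E1 + 2 * B + 4) := by
    rw [hI, card_product, card_product, card_range, card_range]
    push_cast
    have f1 : (T : ℝ) + 1 ≤ L ^ (E1 + 1) := by
      have h6 : 1 ≤ L ^ E1 := one_le_pow₀ hL1
      rw [pow_succ]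
      nlinarith
    have f3 := hfr B
    push_cast at f3
    have g1 : (0 : ℝ) ≤ T := Nat.cast_nonneg _
    have g3 : (0 : ℝ) ≤ (⌊L ^ B⌋₊ : ℝ) := Nat.cast_nonneg _
    calc ((T : ℝ) + 1) * (((⌊L ^ B⌋₊ : ℝ) + 1) * ((⌊L ^ B⌋₊ : ℝ) + 1)) ≤ L ^ (E1 + 1) * (L ^ (B + 1) * L ^ (B + 1)) := by gcongr
      _ = L ^ (E1 + 2 * B + 3) := by rw [← pow_add, ← pow_add]; congr 1; ring
      _ ≤ L ^ (E1 + 2 * B + 4) := pow_le_pow_right₀ hL1 (by omega)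
  have key := markov (Icc 1 x) I (fun _ => (1 : ℝ)) (fun _ _ => zero_le_one)
    (fun m i => |∑ q ∈ Icc 1 (min (i.1 * s₀) X), (if q ≡ i.2.2 [MOD i.2.1] then ArithmeticFunction.vonMangoldt q else 0) *
        (lamI (s m - (q : ℤ)) - lamzI z (s m - (q : ℤ)))|)
    (fun _ _ => abs_nonneg _) (fun m => m ∈ S) (X / L ^ V) (L * (X * x / L ^ U')) (by positivity) (by
      intro m hm hmS
      obtain ⟨i, hi, q, a, hq, haq, hlt⟩ := hS m hmS
      refine ⟨(i, q, a), ?_, hlt.le⟩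
      rw [hI, mem_product, mem_product]
      have c2 : q ≤ ⌊L ^ B⌋₊ := Nat.le_floor hq
      exact ⟨hi, mem_range.2 (by simp only; omega), mem_range.2 (by simp only; omega)⟩)
    (by
      intro i hi
      simp only [one_mul]
      have h5 := c1 z hz1 hz2 1 le_rfl (by simp) (-1) (by norm_num) (min (i.1 * s₀) X)
        (by simp) L hL0
        (fun n => if n ≡ i.2.2 [MOD i.2.1] then ArithmeticFunction.vonMangoldt n else 0) (by
          intro n hn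
          rw [mem_Icc] at hn
          split_ifs
          · rw [abs_of_nonneg ArithmeticFunction.vonMangoldt_nonneg, hL]
            exact vM_le n X (by omega) (hn.2.trans (min_le_right _ _))
          · rw [abs_zero]
            exact hL0.le)
      refine le_trans (le_of_eq ?_) h5
      apply sum_congr rfl
      intro m _
      congr 1
      apply sum_congr rfl
      intro q _
      rw [Dz_one, show s m + -1 * (q : ℤ) = s m - q by ring])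
  have hleft : (S.card : ℝ) = ∑ m ∈ Icc 1 x, (if m ∈ S then (1 : ℝ) else 0) := by
    rw [sum_ite_mem, inter_eq_right.2 hSx, sum_const, nsmul_eq_mul, mul_one]
  rw [← hleft] at key
  refine key.trans ?_
  have hx0 : (0 : ℝ) ≤ x := Nat.cast_nonneg _
  calc (I.card : ℝ) * (L * (X * x / L ^ U')) / (X / L ^ V)
      ≤ L ^ (E1 + 2 * B + 4) * (L * (X * x / L ^ U')) / (X / L ^ V) := by gcongr
    _ = x * L ^ (V + E1 + 2 * B + 5) / L ^ U' := by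
        rw [show V + E1 + 2 * B + 5 = (E1 + 2 * B + 4) + 1 + V by ring, pow_add L (E1 + 2 * B + 4 + 1), pow_succ L (E1 + 2 * B + 4)]
        field_simp
    _ ≤ x / L ^ U := by
        rw [div_le_div_iff₀ (by positivity) (by positivity)]
        apply le_of_eq
        rw [hU', mul_assoc, ← pow_add]
        congr 2
        ring

set_option maxHeartbeats 4000000 in
theorem gv_fam (h C B V U : ℕ) : ∃ X0 : ℕ, ∀ X : ℕ, X0 ≤ X →
    ∀ (x : ℕ) (s : ℕ → ℤ), (∀ m ∈ Icc 1 x, |s m| ≤ X) →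
    (energy h x s : ℝ) * X ≤ Real.log X ^ C * (x : ℝ) ^ (2 * h) →
    ∀ S : Finset ℕ, S ⊆ Icc 1 x → (∀ m ∈ S, 0 < s m ∧ Even (s m) ∧ ¬ GV B (V + 1) X (s m).toNat) →
      (S.card : ℝ) ≤ x / Real.log X ^ U := by
  classical
  obtain ⟨B0, hB0⟩ := mom_g h C B (V + 3) (V + 5) U
  obtain ⟨E1, hE1⟩ : ∃ E1, E1 = B0 + V + 7 + B := ⟨_, rfl⟩
  obtain ⟨n1, h1⟩ := hB0 (E1 + 1)
  obtain ⟨X1, hdet⟩ := det_g B V E1 (by omega)
  obtain ⟨n3, h3⟩ := ev_L' 10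
  refine ⟨n1 + X1 + n3 + 3, fun X hX x s hs hE S hSx hS => ?_⟩
  have c1 := h1 X (by omega)
  have c3 := h3 X (by omega)
  obtain ⟨L, hL⟩ : ∃ L, L = Real.log (X : ℝ) := ⟨_, rfl⟩
  rw [← hL] at c1 c3 hE ⊢
  have hL1 : 1 ≤ L := by linarith
  have hL0 : 0 < L := by linarith
  have hfl : ∀ E : ℕ, L ^ E ≤ (⌈L ^ E⌉₊ : ℝ) ∧ (⌈L ^ E⌉₊ : ℝ) ≤ L ^ (E + 1) := by
    intro E
    refine ⟨Nat.le_ceil _, ?_⟩
    have h5 : (⌈L ^ E⌉₊ : ℝ) < L ^ E + 1 := Nat.ceil_lt_add_one (by positivity)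
    have h6 : 1 ≤ L ^ E := one_le_pow₀ hL1
    rw [pow_succ]
    nlinarith
  obtain ⟨z, hz⟩ : ∃ z, z = ⌈L ^ E1⌉₊ := ⟨_, rfl⟩
  obtain ⟨T, hT⟩ : ∃ T, T = ⌈L ^ (V + 4)⌉₊ := ⟨_, rfl⟩
  have hz1 : L ^ E1 ≤ z := by rw [hz]; exact (hfl E1).1
  have hz2 : (z : ℝ) ≤ L ^ (E1 + 1) := by rw [hz]; exact (hfl E1).2
  have hT1 : L ^ (V + 4) ≤ T := by rw [hT]; exact (hfl (V + 4)).1
  have hT2 : (T : ℝ) ≤ L ^ (V + 5) := by rw [hT]; exact (hfl (V + 4)).2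
  refine c1 z ((pow_le_pow_right₀ hL1 (by omega)).trans hz1) hz2 T (X / T + 1) hT2 x s hs hE S hSx ?_
  intro m hm
  obtain ⟨hm0, hm2, hbad⟩ := hS m hm
  by_contra hcon
  push Not at hcon
  apply hbad
  have e1 : (((s m).toNat : ℕ) : ℤ) = s m := Int.toNat_of_nonneg hm0.le
  have h5 := hs m (hSx hm)
  rw [abs_of_pos hm0, ← e1] at h5
  refine hdet X (by omega) (s m).toNat (by exact_mod_cast h5) ?_ (by omega) z (by rw [← hL]; exact hz1) (by rw [← hL]; exact hz2)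
    T (by rw [← hL]; exact hT1) ?_
  · have h6 : (2 : ℤ) ∣ (((s m).toNat : ℕ) : ℤ) := by rw [e1]; exact hm2.two_dvd
    exact_mod_cast h6
  · intro i hi q a hq1 hq2 haq
    rw [← hL] at hq2 ⊢
    rw [e1]
    exact hcon i hi q a hq2 haq

end Pool.Agent.TH935.DG
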