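import Pool.Agent.TH935.DG2
import Pool.Agent.TH935.DF4

set_option autoImplicit false

/-! Goldbach representations in progressions: from weighted sums to numbers of representations. -/

namespace Pool.Agent.TH935.DG

open Finset Pool.Agent.H373R2.T7
open Pool.Agent.H560R3.GB (sing)
open Pool.Agent.W93.GB (vM_le one_le_sing pp pp_nonneg lam_nat sum_pp)
open Pool.Agent.W93.PP (Cnt)

open Classical in
/-- the number of primes `q` in `(y₁, y₂]` with `q ≡ r (mod k)` for which `n - q` is a prime -/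
noncomputable def cg (k r n y₁ y₂ : ℕ) : ℕ :=
  ((Ioc y₁ y₂).filter (fun q : ℕ => q.Prime ∧ (n - q).Prime ∧ q ≡ r [MOD k])).card

/-- the weighted number -/
noncomputable def Wg (k r n y₁ y₂ : ℕ) : ℝ :=
  ∑ q ∈ Ioc y₁ y₂, (if q ≡ r [MOD k] then ArithmeticFunction.vonMangoldt q else 0) * lamI ((n : ℤ) - (q : ℤ))

lemma wg_le (k r n X y₁ y₂ : ℕ) (hX : 1 ≤ X) (hy : y₂ < n) (hn : n ≤ X) :
    Wg k r n y₁ y₂ ≤ cg k r n y₁ y₂ * Real.log X ^ 2 + 4 * √(X : ℝ) * Real.log X ^ 2 := by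
  classical
  have hlog : 0 ≤ Real.log X := Real.log_natCast_nonneg X
  have key : ∀ n : ℕ, n ≤ X → lamP (n : ℤ) ≤ Real.log X := by
    intro n hn
    have := lamP_le (n : ℤ)
    rw [lam_nat] at this
    exact this.trans (vM_le n X hX hn)
  have h1 : ∀ q ∈ Ioc y₁ y₂, (if q ≡ r [MOD k] then ArithmeticFunction.vonMangoldt q else 0) * lamI ((n : ℤ) - (q : ℤ)) ≤
      (if q.Prime ∧ (n - q).Prime ∧ q ≡ r [MOD k] then Real.log X ^ 2 else 0) +
        Real.log X * (pp q + pp (n - q)) := by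
    intro q hq
    have hq' := mem_Ioc.1 hq
    have a4 := pp_nonneg q
    have a5 := pp_nonneg (n - q)
    have hite : 0 ≤ (if q.Prime ∧ (n - q).Prime ∧ q ≡ r [MOD k] then Real.log X ^ 2 else (0 : ℝ)) := by
      split_ifs
      · positivity
      · exact le_rfl
    have ecast : (n : ℤ) - (q : ℤ) = ((n - q : ℕ) : ℤ) := by
      rw [Nat.cast_sub (by omega)]
    by_cases hd : q ≡ r [MOD k]
    · rw [if_pos hd, ecast, lam_nat]
      have a1 := vM_le (n - q) X hX (by omega)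
      have a3 := key q (by omega)
      have a3' := key (n - q) (by omega)
      have a7 := lamP_nonneg (q : ℤ)
      have a7' := lamP_nonneg ((n - q : ℕ) : ℤ)
      have e : ArithmeticFunction.vonMangoldt q * ArithmeticFunction.vonMangoldt (n - q) =
          lamP (q : ℤ) * lamP ((n - q : ℕ) : ℤ) + (pp q * ArithmeticFunction.vonMangoldt (n - q) + lamP (q : ℤ) * pp (n - q)) := by
        unfold pp
        ring
      rw [e]
      have a8 : pp q * ArithmeticFunction.vonMangoldt (n - q) ≤ pp q * Real.log X := mul_le_mul_of_nonneg_left a1 a4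
      have a9 : lamP (q : ℤ) * pp (n - q) ≤ Real.log X * pp (n - q) := mul_le_mul_of_nonneg_right a3 a5
      have a10 : lamP (q : ℤ) * lamP ((n - q : ℕ) : ℤ) ≤
          (if q.Prime ∧ (n - q).Prime ∧ q ≡ r [MOD k] then Real.log X ^ 2 else 0) := by
        by_cases hc : q.Prime ∧ (n - q).Prime
        · rw [if_pos ⟨hc.1, hc.2, hd⟩, sq]
          exact mul_le_mul a3 a3' a7' hlog
        · refine le_trans (le_of_eq ?_) hite
          unfold lamP
          rw [Int.toNat_natCast, Int.toNat_natCast]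
          rw [not_and_or] at hc
          rcases hc with hc | hc
          · rw [if_neg hc, zero_mul]
          · rw [if_neg hc, mul_zero]
      linarith
    · rw [if_neg hd, zero_mul]
      have := mul_nonneg hlog (add_nonneg a4 a5)
      linarith
  unfold Wg
  refine (sum_le_sum h1).trans ?_
  rw [sum_add_distrib, ← mul_sum, sum_add_distrib]
  have h2 : ∑ q ∈ Ioc y₁ y₂, (if q.Prime ∧ (n - q).Prime ∧ q ≡ r [MOD k] then Real.log X ^ 2 else (0 : ℝ)) =
      cg k r n y₁ y₂ * Real.log X ^ 2 := by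
    rw [← sum_filter, sum_const, nsmul_eq_mul]
    rfl
  have h3 : ∑ q ∈ Ioc y₁ y₂, pp q ≤ 2 * √(X : ℝ) * Real.log X := by
    refine le_trans ?_ (sum_pp X hX)
    apply sum_le_sum_of_subset_of_nonneg
    · intro n hn
      rw [mem_Ioc] at hn
      rw [mem_Icc]
      omega
    · intro n _ _
      exact pp_nonneg n
  have h4 : ∑ q ∈ Ioc y₁ y₂, pp (n - q) ≤ 2 * √(X : ℝ) * Real.log X := by
    refine le_trans ?_ (sum_pp X hX)
    rw [← sum_image (f := fun n => pp n) (s := Ioc y₁ y₂) (g := fun q => n - q)]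
    · apply sum_le_sum_of_subset_of_nonneg
      · intro m hm
        rw [mem_image] at hm
        obtain ⟨q, hq, rfl⟩ := hm
        rw [mem_Ioc] at hq
        rw [mem_Icc]
        omega
      · intro n _ _
        exact pp_nonneg n
    · intro q hq q' hq' h
      rw [mem_coe, mem_Ioc] at hq hq'
      simp only at h
      omega
  rw [h2]
  have h5 : Real.log X * (∑ q ∈ Ioc y₁ y₂, pp q + ∑ q ∈ Ioc y₁ y₂, pp (n - q)) ≤
      Real.log X * (2 * √(X : ℝ) * Real.log X + 2 * √(X : ℝ) * Real.log X) :=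
    mul_le_mul_of_nonneg_left (add_le_add h3 h4) hlog
  have e : Real.log X * (2 * √(X : ℝ) * Real.log X + 2 * √(X : ℝ) * Real.log X) = 4 * √(X : ℝ) * Real.log X ^ 2 := by ring
  linarith

lemma cg_le (k r n y₁ y₂ y : ℕ) (hy : 2 ≤ y) (hn : y₂ < n) :
    (cg k r n y₁ y₂ : ℝ) ≤ 2 * y + Wg k r n y₁ y₂ / Real.log y ^ 2 := by
  classical
  have hly : 0 < Real.log y := Real.log_pos (by exact_mod_cast (by omega : 1 < y))
  obtain ⟨P, hP⟩ : ∃ P : Finset ℕ, P = (Ioc y₁ y₂).filter (fun q : ℕ => q.Prime ∧ (n - q).Prime ∧ q ≡ r [MOD k]) := ⟨_, rfl⟩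
  have hcn : cg k r n y₁ y₂ = P.card := by rw [hP]; rfl
  obtain ⟨P1, hP1⟩ : ∃ P1 : Finset ℕ, P1 = P.filter (fun q => q ≤ y) := ⟨_, rfl⟩
  obtain ⟨P2, hP2⟩ : ∃ P2 : Finset ℕ, P2 = P.filter (fun q => n - q ≤ y) := ⟨_, rfl⟩
  obtain ⟨P3, hP3⟩ : ∃ P3 : Finset ℕ, P3 = (Ioc y₁ y₂).filter (fun q : ℕ => y < q ∧ y < n - q ∧ q.Prime ∧ (n - q).Prime ∧ q ≡ r [MOD k]) := ⟨_, rfl⟩
  have hsub : P ⊆ P1 ∪ P2 ∪ P3 := by
    intro q hq
    have hq0 := hq
    rw [hP, mem_filter] at hq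
    rw [mem_union, mem_union, hP1, hP2, hP3, mem_filter, mem_filter, mem_filter]
    by_cases h1 : q ≤ y
    · exact Or.inl (Or.inl ⟨hq0, h1⟩)
    · by_cases h2 : n - q ≤ y
      · exact Or.inl (Or.inr ⟨hq0, h2⟩)
      · exact Or.inr ⟨hq.1, by omega, by omega, hq.2⟩
  have hc1 : P1.card ≤ y := by
    have : P1 ⊆ Icc 1 y := by
      intro p hp
      rw [hP1, mem_filter, hP, mem_filter] at hp
      exact mem_Icc.2 ⟨hp.1.2.1.one_lt.le, hp.2⟩
    refine (card_le_card this).trans ?_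
    rw [Nat.card_Icc]; omega
  have hc2 : P2.card ≤ y := by
    have h1 : P2.card ≤ (Icc 1 y).card := by
      apply card_le_card_of_injOn (fun q : ℕ => n - q)
      · intro q hq
        rw [hP2, mem_coe, mem_filter, hP, mem_filter] at hq
        rw [mem_coe, mem_Icc]
        exact ⟨hq.1.2.2.1.one_lt.le, hq.2⟩
      · intro q hq q' hq' h
        rw [hP2, mem_coe, mem_filter, hP, mem_filter, mem_Ioc] at hq hq'
        simp only at h
        omega
    rw [Nat.card_Icc] at h1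
    omega
  have hc3 : (P3.card : ℝ) * Real.log y ^ 2 ≤ Wg k r n y₁ y₂ := by
    rw [hP3, card_filter]
    push_cast
    rw [sum_mul]
    unfold Wg
    apply sum_le_sum
    intro q hq
    rw [mem_Ioc] at hq
    split_ifs with h1 h2
    · obtain ⟨hyq, hyq', hq1, hq2, hm⟩ := h1
      have ecast : (n : ℤ) - (q : ℤ) = ((n - q : ℕ) : ℤ) := by
        rw [Nat.cast_sub (by omega)]
      rw [ecast, lam_nat, ArithmeticFunction.vonMangoldt_apply_prime hq1, ArithmeticFunction.vonMangoldt_apply_prime hq2, one_mul, sq]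
      have a1 : Real.log y ≤ Real.log q := Real.log_le_log (by exact_mod_cast (by omega : 0 < y)) (by exact_mod_cast hyq.le)
      have a2 : Real.log y ≤ Real.log (n - q : ℕ) := Real.log_le_log (by exact_mod_cast (by omega : 0 < y)) (by exact_mod_cast hyq'.le)
      exact mul_le_mul a1 a2 hly.le (hly.le.trans a1)
    · exact absurd h1.2.2.2.2 h2
    · rw [zero_mul]
      exact mul_nonneg ArithmeticFunction.vonMangoldt_nonneg (lamI_nonneg _)
    · rw [zero_mul, zero_mul]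
  have h4 : P.card ≤ y + y + P3.card := by
    refine (card_le_card hsub).trans ((card_union_le _ _).trans ?_)
    have := card_union_le P1 P2
    omega
  have h5 : (P3.card : ℝ) ≤ Wg k r n y₁ y₂ / Real.log y ^ 2 := by
    rw [le_div_iff₀ (by positivity)]
    exact hc3
  have h6 : (P.card : ℝ) ≤ ((y + y + P3.card : ℕ) : ℝ) := by exact_mod_cast h4
  push_cast at h6
  rw [hcn]
  linarith

/-- windows -/
lemma wg_win (B V X n : ℕ) (hG : GV B V X n) (k r : ℕ) (hk : 1 ≤ k) (hkL : (k : ℝ) ≤ Real.log X ^ B) (hr : Nat.Coprime r k)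
    (hrn : IsCoprime ((n : ℤ) - r) (k : ℤ)) (y₁ y₂ : ℕ) (h12 : y₁ ≤ y₂) (hy : y₂ < n) :
    |Wg k r n y₁ y₂ - sing n / Cnt k n * ((y₂ : ℝ) - y₁)| ≤ 2 * (X / Real.log X ^ V) := by
  have g1 := hG k r hk hkL hr hrn y₁ (by omega)
  have g2 := hG k r hk hkL hr hrn y₂ hy
  have hs : ∑ q ∈ Icc 1 y₂, (if q ≡ r [MOD k] then ArithmeticFunction.vonMangoldt q else 0) * lamI ((n : ℤ) - (q : ℤ)) =
      ∑ q ∈ Icc 1 y₁, (if q ≡ r [MOD k] then ArithmeticFunction.vonMangoldt q else 0) * lamI ((n : ℤ) - (q : ℤ)) + Wg k r n y₁ y₂ := by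
    unfold Wg
    have h3 : Icc 1 y₂ = Icc 1 y₁ ∪ Ioc y₁ y₂ := by
      ext n
      rw [mem_union, mem_Icc, mem_Icc, mem_Ioc]
      omega
    have h4 : Disjoint (Icc 1 y₁) (Ioc y₁ y₂) := by
      rw [disjoint_left]
      intro n h5 h6
      rw [mem_Icc] at h5
      rw [mem_Ioc] at h6
      omega
    rw [h3, sum_union h4]
  rw [hs] at g2
  rw [abs_le] at g1 g2 ⊢
  have e : sing n / (Cnt k n : ℝ) * ((y₂ : ℝ) - y₁) = sing n / (Cnt k n : ℝ) * y₂ - sing n / (Cnt k n : ℝ) * y₁ := by ring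
  rw [e]
  constructor <;> linarith [g1.1, g1.2, g2.1, g2.2]

/-- all windows and all admissible residue classes to small moduli contain the expected number of Goldbach
representations -/
def HG (ε : ℝ) (A B N n : ℕ) : Prop :=
  ∀ k r : ℕ, 1 ≤ k → (k : ℝ) ≤ Real.log N ^ B → Nat.Coprime r k → IsCoprime ((n : ℤ) - r) (k : ℤ) →
    ∀ y₁ y₂ : ℕ, y₁ < y₂ → y₂ < n → (N : ℝ) / Real.log N ^ A ≤ (y₂ : ℝ) - y₁ →
      |(cg k r n y₁ y₂ : ℝ) - sing n * ((y₂ : ℝ) - y₁) / (Cnt k n * Real.log N ^ 2)| ≤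
        ε * (sing n * ((y₂ : ℝ) - y₁) / (Cnt k n * Real.log N ^ 2))

end Pool.Agent.TH935.DG
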