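import Pool.Agent.W93.LV2

set_option autoImplicit false

/-! The higher divisor functions: a decomposition by the size of one factor. -/

namespace Pool.Agent.TH935.DS
open Finset
open Pool.Agent.W93.LV (dir harm tau_mul log1_nonneg)

/-- moments of the divisor function -/
lemma tau_pow_div (m X : ℕ) : ∑ n ∈ Icc 1 X, (n.divisors.card : ℝ) ^ m / n ≤ (1 + Real.log X) ^ (2 ^ m) := by
  induction m with
  | zero =>
    simp only [pow_zero, pow_one]
    exact harm X
  | succ m ih =>
    have e1 := dir X (fun d k => ((d.divisors.card : ℝ) ^ m / d) * ((k.divisors.card : ℝ) ^ m / k))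
    have e2 : ∀ n ∈ Icc 1 X, (n.divisors.card : ℝ) ^ (m + 1) / n ≤
        ∑ d ∈ n.divisors, ((d.divisors.card : ℝ) ^ m / d) * (((n / d).divisors.card : ℝ) ^ m / ((n / d : ℕ) : ℝ)) := by
      intro n hn
      rw [mem_Icc] at hn
      have hn0 : (0 : ℝ) < n := by exact_mod_cast hn.1
      have e3 : ∀ d ∈ n.divisors, (n.divisors.card : ℝ) ^ m / n ≤
          ((d.divisors.card : ℝ) ^ m / d) * (((n / d).divisors.card : ℝ) ^ m / ((n / d : ℕ) : ℝ)) := by
        intro d hd
        have h1 := Nat.dvd_of_mem_divisors hd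
        have h2 := tau_mul d (n / d)
        rw [Nat.mul_div_cancel' h1] at h2
        have h3 : (n.divisors.card : ℝ) ^ m ≤ (d.divisors.card : ℝ) ^ m * ((n / d).divisors.card : ℝ) ^ m := by
          rw [← mul_pow]
          exact pow_le_pow_left₀ (Nat.cast_nonneg _) (by exact_mod_cast h2) m
        have h4 : (n : ℝ) = (d : ℝ) * ((n / d : ℕ) : ℝ) := by
          rw [← Nat.cast_mul, Nat.mul_div_cancel' h1]
        calc (n.divisors.card : ℝ) ^ m / n ≤ (d.divisors.card : ℝ) ^ m * ((n / d).divisors.card : ℝ) ^ m / n :=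
              div_le_div_of_nonneg_right h3 hn0.le
          _ = _ := by rw [h4, mul_div_mul_comm]
      have e4 := sum_le_sum e3
      rw [sum_const, nsmul_eq_mul] at e4
      refine le_trans (le_of_eq ?_) e4
      ring
    refine (sum_le_sum e2).trans ?_
    rw [e1]
    have hnn : ∀ k : ℕ, 0 ≤ (k.divisors.card : ℝ) ^ m / k := fun k => by positivity
    have e5 : ∀ d ∈ Icc 1 X, ∑ k ∈ Icc 1 (X / d), ((d.divisors.card : ℝ) ^ m / d) * ((k.divisors.card : ℝ) ^ m / k) ≤
        ((d.divisors.card : ℝ) ^ m / d) * (1 + Real.log X) ^ (2 ^ m) := by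
      intro d _
      rw [← mul_sum]
      apply mul_le_mul_of_nonneg_left _ (hnn d)
      refine le_trans ?_ ih
      exact sum_le_sum_of_subset_of_nonneg (Icc_subset_Icc_right (Nat.div_le_self _ _)) (fun k _ _ => hnn k)
    refine (sum_le_sum e5).trans ?_
    rw [← sum_mul]
    refine (mul_le_mul_of_nonneg_right ih (pow_nonneg (log1_nonneg X) _)).trans (le_of_eq ?_)
    rw [← pow_add, pow_succ]
    congr 1
    omega

lemma tau_pow_sum (m X : ℕ) : ∑ n ∈ Icc 1 X, (n.divisors.card : ℝ) ^ m ≤ X * (1 + Real.log X) ^ (2 ^ m) := by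
  have h1 : ∀ n ∈ Icc 1 X, (n.divisors.card : ℝ) ^ m ≤ X * ((n.divisors.card : ℝ) ^ m / n) := by
    intro n hn
    rw [mem_Icc] at hn
    have hn0 : (0 : ℝ) < n := by exact_mod_cast hn.1
    have hX : (n : ℝ) ≤ X := by exact_mod_cast hn.2
    rw [mul_div_assoc', le_div_iff₀ hn0, mul_comm]
    exact mul_le_mul_of_nonneg_right hX (by positivity)
  refine (sum_le_sum h1).trans ?_
  rw [← mul_sum]
  exact mul_le_mul_of_nonneg_left (tau_pow_div m X) (Nat.cast_nonneg _)

/-- the divisor functions -/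
def dk (r : ℕ) : ArithmeticFunction ℕ := (ArithmeticFunction.zeta : ArithmeticFunction ℕ) ^ r

/-- the indicator of `[1, Y]` -/
def sI (Y : ℕ) : ArithmeticFunction ℕ := ⟨fun n => if 1 ≤ n ∧ n ≤ Y then 1 else 0, by simp⟩

/-- the indicator of `(Y, ∞)` -/
def lI (Y : ℕ) : ArithmeticFunction ℕ := ⟨fun n => if Y < n then 1 else 0, by simp⟩

lemma sI_apply (Y n : ℕ) : sI Y n = if 1 ≤ n ∧ n ≤ Y then 1 else 0 := rfl
lemma lI_apply (Y n : ℕ) : lI Y n = if Y < n then 1 else 0 := rfl

lemma zeta_eq (Y : ℕ) : (ArithmeticFunction.zeta : ArithmeticFunction ℕ) = lI Y + sI Y := by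
  ext n
  rw [ArithmeticFunction.add_apply, ArithmeticFunction.zeta_apply, sI_apply, lI_apply]
  split_ifs <;> omega

/-- the weight of the divisors -/
def EE (r Y : ℕ) : ArithmeticFunction ℕ :=
  ∑ i ∈ range r, (ArithmeticFunction.zeta : ArithmeticFunction ℕ) ^ i * sI Y ^ (r - 1 - i)

lemma dk_eq (r Y : ℕ) : dk r = EE r Y * lI Y + sI Y ^ r := by
  unfold dk EE
  have h := geom_sum₂_mul_add (lI Y) (sI Y) r
  rw [← zeta_eq Y] at h
  exact h.symm

lemma mul_le_pt {f g f' g' : ArithmeticFunction ℕ} (h1 : ∀ n, f n ≤ f' n) (h2 : ∀ n, g n ≤ g' n) (n : ℕ) :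
    (f * g) n ≤ (f' * g') n := by
  rw [ArithmeticFunction.mul_apply, ArithmeticFunction.mul_apply]
  exact sum_le_sum fun x _ => Nat.mul_le_mul (h1 _) (h2 _)

lemma sI_le (Y n : ℕ) : sI Y n ≤ (ArithmeticFunction.zeta : ArithmeticFunction ℕ) n := by
  rw [sI_apply, ArithmeticFunction.zeta_apply]
  split_ifs <;> omega

lemma sI_pow_le (Y k n : ℕ) : (sI Y ^ k) n ≤ ((ArithmeticFunction.zeta : ArithmeticFunction ℕ) ^ k) n := by
  induction k generalizing n with
  | zero => rw [pow_zero, pow_zero]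
  | succ k ih =>
    rw [pow_succ, pow_succ]
    exact mul_le_pt (fun n => ih n) (sI_le Y) n

lemma af_sum_apply (s : Finset ℕ) (f : ℕ → ArithmeticFunction ℕ) (n : ℕ) : (∑ i ∈ s, f i) n = ∑ i ∈ s, f i n := by
  classical
  induction s using Finset.induction_on with
  | empty => simp
  | insert a s ha ih => rw [sum_insert ha, sum_insert ha, ArithmeticFunction.add_apply, ih]

lemma EE_le (r Y n : ℕ) : EE r Y n ≤ r * dk (r - 1) n := by
  unfold EE
  rw [af_sum_apply]
  refine (sum_le_sum (g := fun _ => dk (r - 1) n) ?_).trans ?_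
  · intro i hi
    rw [mem_range] at hi
    have h1 : dk (r - 1) = (ArithmeticFunction.zeta : ArithmeticFunction ℕ) ^ i * (ArithmeticFunction.zeta : ArithmeticFunction ℕ) ^ (r - 1 - i) := by
      unfold dk
      rw [← pow_add]
      congr 1
      omega
    rw [h1]
    exact mul_le_pt (fun n => le_rfl) (fun n => sI_pow_le Y _ n) n
  · rw [sum_const, card_range, smul_eq_mul]

lemma dk_succ (r n : ℕ) : dk (r + 1) n = ∑ d ∈ n.divisors, dk r d := by
  unfold dk
  rw [pow_succ, ArithmeticFunction.mul_zeta_apply]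

lemma dk_zero_le (n : ℕ) : dk 0 n ≤ 1 := by
  unfold dk
  rw [pow_zero, ArithmeticFunction.one_apply]
  split_ifs <;> omega

lemma divisors_card_le {d n : ℕ} (h : d ∣ n) (hn : n ≠ 0) : d.divisors.card ≤ n.divisors.card :=
  card_le_card (Nat.divisors_subset_of_dvd hn h)

lemma dk_le (r n : ℕ) : dk r n ≤ n.divisors.card ^ r := by
  induction r generalizing n with
  | zero => exact (dk_zero_le n).trans (by simp)
  | succ r ih =>
    rw [dk_succ]
    refine (sum_le_sum (g := fun _ => n.divisors.card ^ r) ?_).trans ?_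
    · intro d hd
      refine (ih d).trans (Nat.pow_le_pow_left (divisors_card_le (Nat.dvd_of_mem_divisors hd) ?_) _)
      intro h
      rw [h] at hd
      simp at hd
    · rw [sum_const, smul_eq_mul, pow_succ, mul_comm]

lemma EE_le_tau (r Y n : ℕ) : (EE r Y n : ℝ) ≤ r * (n.divisors.card : ℝ) ^ r := by
  rcases Nat.eq_zero_or_pos n with h | h
  · subst h; simp; positivity
  have h1 : EE r Y n ≤ r * n.divisors.card ^ (r - 1) := (EE_le r Y n).trans (Nat.mul_le_mul_left _ (dk_le _ _))
  have h2 : n.divisors.card ^ (r - 1) ≤ n.divisors.card ^ r := by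
    apply Nat.pow_le_pow_right
    · exact card_pos.2 ⟨1, Nat.one_mem_divisors.2 (by omega)⟩
    · omega
  exact_mod_cast h1.trans (Nat.mul_le_mul_left _ h2)

/-- products of small factors are small -/
lemma sI_pow_zero (Y k n : ℕ) (h : Y ^ k < n) : (sI Y ^ k) n = 0 := by
  induction k generalizing n with
  | zero =>
    rw [pow_zero] at h
    rw [pow_zero, ArithmeticFunction.one_apply, if_neg (by omega)]
  | succ k ih =>
    rw [pow_succ, ArithmeticFunction.mul_apply]
    apply sum_eq_zero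
    intro x hx
    rw [Nat.mem_divisorsAntidiagonal] at hx
    by_cases h1 : Y ^ k < x.1
    · rw [ih _ h1, zero_mul]
    · rw [sI_apply, if_neg, mul_zero]
      rintro ⟨_, h2⟩
      have h3 : x.1 * x.2 ≤ Y ^ k * Y := Nat.mul_le_mul (by omega) h2
      rw [hx.1, ← pow_succ] at h3
      omega

/-- the decomposition, pointwise -/
lemma dk_dec (r Y n : ℕ) : dk r n = ∑ a ∈ n.divisors, EE r Y a * lI Y (n / a) + (sI Y ^ r) n := by
  rw [dk_eq r Y, ArithmeticFunction.add_apply, ArithmeticFunction.mul_apply]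
  congr 1
  rw [← Nat.map_div_right_divisors, sum_map]
  rfl

end Pool.Agent.TH935.DS
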