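import Pool.Agent.TH935.DS3

set_option autoImplicit false

/-! Correlations of the models. -/

namespace Pool.Agent.TH935.DS
open Finset
open Pool.Agent.H807R2.Dav
open Pool.Agent.W93.LV (log1_nonneg)
open Pool.Agent.H373R2.T7 (exI)

/-- partial summation for monotone weights -/
lemma abel_mono (F : ℕ → ℂ) (w : ℕ → ℝ) (hw0 : ∀ n, 0 ≤ w n) (hw : ∀ n, w n ≤ w (n + 1)) (S : ℝ) (X : ℕ)
    (hS : ∀ y : ℕ, y ≤ X → ‖∑ n ∈ Icc 1 y, F n‖ ≤ S) :
    ‖∑ n ∈ Icc 1 X, (w n : ℂ) * F n‖ ≤ 2 * w X * S := by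
  have key : ∀ y : ℕ, y ≤ X → ‖∑ n ∈ Icc 1 y, (w n : ℂ) * F n - w y * ∑ n ∈ Icc 1 y, F n‖ ≤ (w y - w 0) * S := by
    intro y
    induction y with
    | zero => intro _; simp
    | succ y ih =>
      intro hy
      have h1 := ih (by omega)
      rw [sum_Icc_succ_top (by omega), sum_Icc_succ_top (by omega)]
      have h2 : ∑ n ∈ Icc 1 y, (w n : ℂ) * F n + w (y + 1) * F (y + 1) - w (y + 1) * (∑ n ∈ Icc 1 y, F n + F (y + 1)) =
          (∑ n ∈ Icc 1 y, (w n : ℂ) * F n - w y * ∑ n ∈ Icc 1 y, F n) - ((w (y + 1) - w y : ℝ) : ℂ) * ∑ n ∈ Icc 1 y, F n := by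
        push_cast
        ring
      rw [h2]
      refine (norm_sub_le _ _).trans ?_
      rw [norm_mul, Complex.norm_real, Real.norm_of_nonneg (by linarith [hw y])]
      have h3 : (w (y + 1) - w y) * ‖∑ n ∈ Icc 1 y, F n‖ ≤ (w (y + 1) - w y) * S :=
        mul_le_mul_of_nonneg_left (hS y (by omega)) (by linarith [hw y])
      linarith
  have h1 := key X le_rfl
  have h2 : ∑ n ∈ Icc 1 X, (w n : ℂ) * F n = (∑ n ∈ Icc 1 X, (w n : ℂ) * F n - w X * ∑ n ∈ Icc 1 X, F n) +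
      w X * ∑ n ∈ Icc 1 X, F n := by ring
  rw [h2]
  refine (norm_add_le _ _).trans ?_
  have h3 : ‖(w X : ℂ) * ∑ n ∈ Icc 1 X, F n‖ ≤ w X * S := by
    rw [norm_mul, Complex.norm_real, Real.norm_of_nonneg (hw0 X)]
    exact mul_le_mul_of_nonneg_left (hS X le_rfl) (hw0 X)
  have hS0 : 0 ≤ S := (norm_nonneg _).trans (hS X le_rfl)
  have h4 : 0 ≤ w 0 * S := mul_nonneg (hw0 0) hS0
  linarith

lemma ww_mono (r Y q n : ℕ) : ww r Y q n ≤ ww r Y q (n + 1) := by
  unfold ww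
  apply sum_le_sum_of_subset_of_nonneg
  · intro a ha
    rw [mem_filter, mem_Icc] at ha ⊢
    exact ⟨⟨ha.1.1, by omega⟩, by omega, ha.2.2⟩
  · intro a _ _
    positivity

/-- the coefficients at integers -/
noncomputable def wI (r Y q : ℕ) (k : ℤ) : ℝ := if 1 ≤ k then ww r Y q k.toNat else 0

lemma wI_nonneg (r Y q : ℕ) (k : ℤ) : 0 ≤ wI r Y q k := by
  unfold wI
  split_ifs
  · exact ww_nonneg _ _ _ _
  · exact le_rfl

lemma wI_mono (r Y q : ℕ) (k : ℤ) : wI r Y q k ≤ wI r Y q (k + 1) := by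
  by_cases h : 1 ≤ k
  · unfold wI
    rw [if_pos h, if_pos (by omega)]
    have : (k + 1).toNat = k.toNat + 1 := by omega
    rw [this]
    exact ww_mono _ _ _ _
  · unfold wI
    rw [if_neg h]
    exact wI_nonneg r Y q (k + 1)

lemma ww_le' (r Y q n X : ℕ) (h : n ≤ X) : ww r Y q n ≤ r * (1 + Real.log X) ^ (2 ^ r) := by
  unfold ww
  have h1 : ∀ a ∈ (Icc 1 n).filter (fun a => a * Y < n ∧ q ∣ a), (EE r Y a : ℝ) / a ≤ r * ((a.divisors.card : ℝ) ^ r / a) := by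
    intro a _
    rw [mul_div_assoc']
    exact div_le_div_of_nonneg_right (EE_le_tau r Y a) (Nat.cast_nonneg _)
  refine (sum_le_sum h1).trans ?_
  rw [← mul_sum]
  apply mul_le_mul_of_nonneg_left _ (Nat.cast_nonneg _)
  refine (sum_le_sum_of_subset_of_nonneg (filter_subset _ _) (fun a _ _ => by positivity)).trans ?_
  exact (tau_pow_div r n).trans (pow_le_pow_left₀ (log1_nonneg _) (log_mono1 h) _)

lemma exists_res (q : ℕ) (hq : 1 ≤ q) (c : ℤ) (hc : IsCoprime c (q : ℤ)) :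
    ∃ b0 ∈ (range q).filter (fun b => Nat.Coprime b q), (q : ℤ) ∣ c + b0 ∧
      ∀ b ∈ (range q).filter (fun b => Nat.Coprime b q), (q : ℤ) ∣ c + b → b = b0 := by
  have hq' : (0 : ℤ) < q := by exact_mod_cast hq
  obtain ⟨b0, hb0⟩ : ∃ b0 : ℕ, b0 = ((-c) % (q : ℤ)).toNat := ⟨_, rfl⟩
  have hnn := Int.emod_nonneg (-c) hq'.ne'
  have hlt := Int.emod_lt_of_pos (-c) hq'
  have hb0z : (b0 : ℤ) = (-c) % q := by rw [hb0, Int.toNat_of_nonneg hnn]
  have hb0lt : b0 < q := by omega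
  have hdvd : (q : ℤ) ∣ c + b0 := by
    rw [hb0z]
    have := Int.emod_add_mul_ediv (-c) q
    refine ⟨-((-c) / q), ?_⟩
    linarith
  have hcop : Nat.Coprime b0 q := by
    rw [← Nat.isCoprime_iff_coprime]
    obtain ⟨k, hk⟩ := hdvd
    have : (b0 : ℤ) = -c + q * k := by linarith
    rw [this]
    exact IsCoprime.add_mul_left_left (IsCoprime.neg_left hc) k
  refine ⟨b0, by rw [mem_filter, mem_range]; exact ⟨hb0lt, hcop⟩, hdvd, ?_⟩
  intro b hb h
  rw [mem_filter, mem_range] at hb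
  have h9 : (q : ℤ) ∣ (b : ℤ) - b0 := by
    have := dvd_sub h hdvd
    have e : c + (b : ℤ) - (c + b0) = b - b0 := by ring
    rwa [e] at this
  have h10 : |(b : ℤ) - b0| < q := by
    rw [abs_lt]
    constructor <;> omega
  have := Int.eq_zero_of_abs_lt_dvd h9 h10
  omega

/-- the expansion of the model at integers -/
lemma dsh_exp (r Y z : ℕ) (n : ℕ) : ((dsh r Y z n : ℝ) : ℂ) = ∑ q ∈ Icc 1 z, ∑ b ∈ (range q).filter (fun b => Nat.Coprime b q),
    ((ww r Y q n : ℝ) : ℂ) * ee ((n : ℝ) * ((b : ℝ) / q)) := by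
  unfold dsh
  push_cast
  apply sum_congr rfl
  intro q hq
  rw [mem_Icc] at hq
  have h2 := rexp_eq q hq.1 (n : ℤ)
  rw [Int.natAbs_natCast] at h2
  rw [← h2]
  unfold rexp
  rw [sum_mul]
  apply sum_congr rfl
  intro b _
  push_cast
  ring

lemma exI_dsh_exp (r Y z : ℕ) (k : ℤ) : exI (fun n => ((dsh r Y z n : ℝ) : ℂ)) k =
    ∑ q ∈ Icc 1 z, ∑ b ∈ (range q).filter (fun b => Nat.Coprime b q),
    ((wI r Y q k : ℝ) : ℂ) * ee ((k : ℝ) * ((b : ℝ) / q)) := by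
  unfold exI wI
  by_cases h : 1 ≤ k
  · rw [if_pos h]
    beta_reduce
    rw [dsh_exp]
    apply sum_congr rfl
    intro q _
    apply sum_congr rfl
    intro b _
    rw [if_pos h]
    have h1 : ((k.toNat : ℕ) : ℝ) = (k : ℝ) := by
      have : ((k.toNat : ℕ) : ℤ) = k := Int.toNat_of_nonneg (by omega)
      exact_mod_cast this
    rw [h1]
  · rw [if_neg h]
    symm
    apply sum_eq_zero
    intro q _
    apply sum_eq_zero
    intro b _
    rw [if_neg h]
    simp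

/-- the correlation of two models -/
theorem dsh_cor (k l Yk Yl z X X1 : ℕ) (s : ℤ) (hX : X ≤ X1) (hXs : (X : ℤ) + s ≤ X1) :
    ‖∑ n ∈ Icc 1 X, ((dsh k Yk z n : ℝ) : ℂ) * exI (fun n => ((dsh l Yl z n : ℝ) : ℂ)) (n + s) -
      ∑ q ∈ Icc 1 z, (ram q s.natAbs : ℂ) * ∑ n ∈ Icc 1 X, ((ww k Yk q n * wI l Yl q (n + s) : ℝ) : ℂ)‖ ≤
      (z : ℝ) ^ 4 * (2 * ((k * (1 + Real.log X1) ^ (2 ^ k)) * (l * (1 + Real.log X1) ^ (2 ^ l))) * (3 / 4 * (z : ℝ) ^ 2)) := by
  obtain ⟨R, hR⟩ : ∃ R : ℕ → Finset ℕ, R = fun q => (range q).filter (fun b => Nat.Coprime b q) := ⟨_, rfl⟩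
  obtain ⟨Wm, hWm⟩ : ∃ Wm, Wm = (k * (1 + Real.log X1) ^ (2 ^ k)) * (l * (1 + Real.log X1) ^ (2 ^ l)) := ⟨_, rfl⟩
  have hWm0 : 0 ≤ Wm := by
    rw [hWm]
    have := log1_nonneg X1
    positivity
  rw [← hWm]
  obtain ⟨P, hP⟩ : ∃ P : ℕ → ℕ → ℕ → ℕ → ℂ, P = fun (q b q' b' : ℕ) => ∑ n ∈ Icc 1 X,
      ((ww k Yk q n * wI l Yl q' (n + s) : ℝ) : ℂ) * ee ((n : ℝ) * ((b : ℝ) / q + (b' : ℝ) / q')) := ⟨_, rfl⟩
  have h1 : ∑ n ∈ Icc 1 X, ((dsh k Yk z n : ℝ) : ℂ) * exI (fun n => ((dsh l Yl z n : ℝ) : ℂ)) (n + s) =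
      ∑ q ∈ Icc 1 z, ∑ q' ∈ Icc 1 z, ∑ b' ∈ R q', ∑ b ∈ R q, ee ((s : ℝ) * ((b' : ℝ) / q')) * P q b q' b' := by
    have h2 : ∀ n ∈ Icc 1 X, ((dsh k Yk z n : ℝ) : ℂ) * exI (fun n => ((dsh l Yl z n : ℝ) : ℂ)) (n + s) =
        ∑ q ∈ Icc 1 z, ∑ q' ∈ Icc 1 z, ∑ b' ∈ R q', ∑ b ∈ R q, ee ((s : ℝ) * ((b' : ℝ) / q')) *
          (((ww k Yk q n * wI l Yl q' (n + s) : ℝ) : ℂ) * ee ((n : ℝ) * ((b : ℝ) / q + (b' : ℝ) / q'))) := by
      intro n _
      rw [dsh_exp, exI_dsh_exp, sum_mul]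
      apply sum_congr rfl
      intro q _
      rw [mul_sum]
      apply sum_congr rfl
      intro q' _
      rw [hR]
      simp only
      rw [sum_mul_sum, sum_comm]
      apply sum_congr rfl
      intro b' _
      apply sum_congr rfl
      intro b _
      rw [mul_add, ee_add]
      push_cast
      rw [add_mul, ee_add]
      ring
    rw [sum_congr rfl h2, sum_comm]
    apply sum_congr rfl
    intro q _
    rw [sum_comm]
    apply sum_congr rfl
    intro q' _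
    rw [sum_comm]
    apply sum_congr rfl
    intro b' _
    rw [sum_comm]
    apply sum_congr rfl
    intro b _
    rw [hP, mul_sum]
  have h2 : ∑ q ∈ Icc 1 z, (ram q s.natAbs : ℂ) * ∑ n ∈ Icc 1 X, ((ww k Yk q n * wI l Yl q (n + s) : ℝ) : ℂ) =
      ∑ q ∈ Icc 1 z, ∑ q' ∈ Icc 1 z, ∑ b' ∈ R q', ∑ b ∈ R q,
        if q' = q ∧ (q : ℤ) ∣ b' + b then ee ((s : ℝ) * ((b' : ℝ) / q')) * P q b q' b' else 0 := by
    apply sum_congr rfl
    intro q hq
    have hq1 := (mem_Icc.1 hq).1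
    have hq0 : (0 : ℝ) < q := by exact_mod_cast hq1
    refine Eq.trans ?_ (Finset.sum_eq_single q ?_ ?_).symm
    · rw [← rexp_eq q hq1 s]
      unfold rexp
      rw [hR]
      simp only
      rw [sum_mul]
      apply sum_congr rfl
      intro b' hb'
      rw [mem_filter, mem_range] at hb'
      obtain ⟨b0, hb0, hd, huniq⟩ := exists_res q hq1 (b' : ℤ) (Nat.isCoprime_iff_coprime.2 hb'.2)
      refine Eq.trans ?_ (Finset.sum_eq_single b0 ?_ ?_).symm
      · rw [if_pos ⟨trivial, hd⟩, hP]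
        simp only
        congr 1
        apply sum_congr rfl
        intro n _
        obtain ⟨j, hj⟩ := hd
        have h8 : (n : ℝ) * ((b0 : ℝ) / q + (b' : ℝ) / q) = ((n * j : ℤ) : ℝ) := by
          have h9 : (b' : ℝ) + b0 = q * j := by exact_mod_cast hj
          rw [← add_div, add_comm, h9]
          push_cast
          field_simp
        rw [h8, ee_int, mul_one]
      · intro b hb hne
        rw [if_neg]
        rintro ⟨_, h⟩
        exact hne (huniq b hb h)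
      · intro h
        exact absurd hb0 h
    · intro q' _ hne
      apply sum_eq_zero
      intro b' _
      apply sum_eq_zero
      intro b _
      rw [if_neg (fun h => hne h.1)]
    · intro h
      exact absurd hq h
  rw [h1, h2, ← sum_sub_distrib]
  -- one term
  have hterm : ∀ q ∈ Icc 1 z, ∀ q' ∈ Icc 1 z, ∀ b' ∈ R q', ∀ b ∈ R q, ‖ee ((s : ℝ) * ((b' : ℝ) / q')) * P q b q' b' -
      (if q' = q ∧ (q : ℤ) ∣ b' + b then ee ((s : ℝ) * ((b' : ℝ) / q')) * P q b q' b' else 0)‖ ≤ 2 * Wm * (3 / 4 * (z : ℝ) ^ 2) := by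
    intro q hq q' hq' b' hb' b hb
    rw [mem_Icc] at hq hq'
    rw [hR] at hb hb'
    simp only at hb hb'
    rw [mem_filter, mem_range] at hb hb'
    have hq0 : (0 : ℝ) < q := by exact_mod_cast hq.1
    have hq0' : (0 : ℝ) < q' := by exact_mod_cast hq'.1
    have hqz : (q : ℝ) ≤ z := by exact_mod_cast hq.2
    have hqz' : (q' : ℝ) ≤ z := by exact_mod_cast hq'.2
    by_cases h3 : q' = q ∧ (q : ℤ) ∣ b' + b
    · rw [if_pos h3, sub_self, norm_zero]
      positivity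
    · rw [if_neg h3, sub_zero, norm_mul, norm_ee, one_mul, hP]
      simp only
      have h4 := dd_frac (q * q') (Nat.mul_pos hq.1 hq'.1) ((b : ℤ) * q' + b' * q) (by
        intro h5
        have h6 := reso q q' hq.1 hq'.1 (b : ℤ) (Nat.isCoprime_iff_coprime.2 hb.2) b' hb'.2 h5
        apply h3
        refine ⟨h6.1, ?_⟩
        rw [add_comm]
        exact h6.2)
      have h5 := frac_add q q' hq.1 hq'.1 (b : ℤ) b'
      have h5' : ((b : ℤ) : ℝ) = (b : ℝ) := by simp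
      rw [h5'] at h5
      rw [← h5] at h4
      have hpos : (0 : ℝ) < ((q * q' : ℕ) : ℝ) := by exact_mod_cast Nat.mul_pos hq.1 hq'.1
      have h6 : ∀ y : ℕ, y ≤ X → ‖∑ n ∈ Icc 1 y, ee ((n : ℝ) * ((b : ℝ) / q + (b' : ℝ) / q'))‖ ≤ 3 / 4 * (z : ℝ) ^ 2 := by
        intro y _
        have h7 : Icc 1 y = Ioc 0 y := by
          ext n
          rw [mem_Icc, mem_Ioc]
          omega
        rw [h7]
        refine (geo_Ioc 0 y _ _ (by positivity) h4).trans ?_
        push_cast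
        have h11 : 3 / (4 / ((q : ℝ) * q')) = 3 / 4 * (q * q') := by field_simp
        rw [h11, pow_two]
        apply mul_le_mul_of_nonneg_left _ (by norm_num)
        exact mul_le_mul hqz hqz' hq0'.le (Nat.cast_nonneg _)
      have h7 := abel_mono (fun n => ee ((n : ℝ) * ((b : ℝ) / q + (b' : ℝ) / q')))
        (fun n => ww k Yk q n * wI l Yl q' (n + s)) (fun n => mul_nonneg (ww_nonneg _ _ _ _) (wI_nonneg _ _ _ _))
        (fun n => by
          have e1 := ww_mono k Yk q n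
          have e2 := wI_mono l Yl q' (n + s)
          have e3 : ((n + 1 : ℕ) : ℤ) + s = (n + s) + 1 := by push_cast; ring
          rw [e3]
          exact mul_le_mul e1 e2 (wI_nonneg _ _ _ _) ((ww_nonneg _ _ _ _).trans e1)) (3 / 4 * (z : ℝ) ^ 2) X h6
      refine h7.trans ?_
      apply mul_le_mul_of_nonneg_right _ (by positivity)
      apply mul_le_mul_of_nonneg_left _ (by norm_num)
      rw [hWm]
      apply mul_le_mul (ww_le' k Yk q X X1 hX) _ (wI_nonneg _ _ _ _)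
      · have := log1_nonneg X1
        positivity
      · unfold wI
        split_ifs with h8
        · exact ww_le' l Yl q' _ X1 (by omega)
        · have := log1_nonneg X1
          positivity
  have hcard : ∀ q ∈ Icc 1 z, ((R q).card : ℝ) ≤ z := by
    intro q hq
    rw [mem_Icc] at hq
    rw [hR]
    have h3 : ((range q).filter (fun b => Nat.Coprime b q)).card ≤ q := (card_filter_le _ _).trans (by rw [card_range])
    exact_mod_cast h3.trans hq.2
  have s1 : ∀ q ∈ Icc 1 z, ‖∑ q' ∈ Icc 1 z, ∑ b' ∈ R q', ∑ b ∈ R q, ee ((s : ℝ) * ((b' : ℝ) / q')) * P q b q' b' -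
      ∑ q' ∈ Icc 1 z, ∑ b' ∈ R q', ∑ b ∈ R q,
        (if q' = q ∧ (q : ℤ) ∣ b' + b then ee ((s : ℝ) * ((b' : ℝ) / q')) * P q b q' b' else 0)‖ ≤
      z * (z * (z * (2 * Wm * (3 / 4 * (z : ℝ) ^ 2)))) := by
    intro q hq
    rw [← sum_sub_distrib]
    refine (norm_sum_le _ _).trans ?_
    have s2 : ∀ q' ∈ Icc 1 z, ‖∑ b' ∈ R q', ∑ b ∈ R q, ee ((s : ℝ) * ((b' : ℝ) / q')) * P q b q' b' -
        ∑ b' ∈ R q', ∑ b ∈ R q,
        (if q' = q ∧ (q : ℤ) ∣ b' + b then ee ((s : ℝ) * ((b' : ℝ) / q')) * P q b q' b' else 0)‖ ≤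
        z * (z * (2 * Wm * (3 / 4 * (z : ℝ) ^ 2))) := by
      intro q' hq'
      rw [← sum_sub_distrib]
      refine (norm_sum_le _ _).trans ?_
      have s3 : ∀ b' ∈ R q', ‖∑ b ∈ R q, ee ((s : ℝ) * ((b' : ℝ) / q')) * P q b q' b' -
          ∑ b ∈ R q, (if q' = q ∧ (q : ℤ) ∣ b' + b then ee ((s : ℝ) * ((b' : ℝ) / q')) * P q b q' b' else 0)‖ ≤
          z * (2 * Wm * (3 / 4 * (z : ℝ) ^ 2)) := by
        intro b' hb'
        rw [← sum_sub_distrib]
        refine (norm_sum_le _ _).trans ((sum_le_sum fun b hb => hterm q hq q' hq' b' hb' b hb).trans ?_)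
        rw [sum_const, nsmul_eq_mul]
        exact mul_le_mul_of_nonneg_right (hcard q hq) (by positivity)
      refine (sum_le_sum s3).trans ?_
      rw [sum_const, nsmul_eq_mul]
      exact mul_le_mul_of_nonneg_right (hcard q' hq') (by positivity)
    refine (sum_le_sum s2).trans ?_
    rw [sum_const, nsmul_eq_mul, Nat.card_Icc, Nat.add_sub_cancel]
  refine (norm_sum_le _ _).trans ((sum_le_sum s1).trans ?_)
  rw [sum_const, nsmul_eq_mul, Nat.card_Icc, Nat.add_sub_cancel]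
  apply le_of_eq
  ring

end Pool.Agent.TH935.DS
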