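import Pool.Agent.TH935.DS8
import Pool.Agent.TH935.DS9
import Pool.Agent.TH823.Fam.Fam2

set_option autoImplicit false

/-! Correlations of the divisor functions for almost all shifts of a family of nearly minimal energy. -/

namespace Pool.Agent.TH935.DS
open Finset
open Pool.Agent.H807R2.Dav
open Pool.Agent.W93.LV (log1_nonneg)
open Pool.Agent.H373R2.T7 (exI energy ev_L')
open Pool.Agent.TH823.Fam (log_pow_small energy_neg)

/-- the divisor function minus the model -/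
noncomputable def fl (r Y z n : ℕ) : ℂ := (dk r n : ℂ) - (dsh r Y z n : ℂ)

lemma le_pow_log {N a b : ℕ} {W : ℝ} (hW : 1 ≤ W) (h : a ≤ b) : (N : ℝ) * W ^ a ≤ N * W ^ b :=
  mul_le_mul_of_nonneg_left (pow_le_pow_right₀ hW h) (Nat.cast_nonneg _)

/-- arbitrary weights -/
theorem weights (r p B C K U : ℕ) (hr : 1 ≤ r) : ∃ B0 : ℕ, ∀ B' : ℕ, B0 ≤ B' → ∃ N0 : ℕ, ∀ N : ℕ, N0 ≤ N →
    ∀ Y z : ℕ, Par r B' N Y z →
    ∀ (x : ℕ) (s : ℕ → ℤ), (∀ m ∈ Icc 1 x, |s m| ≤ B * N) →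
    (energy p x s : ℝ) * N ≤ Real.log N ^ C * (x : ℝ) ^ (2 * p) →
    ∀ (Lc : ℕ), (Lc : ℝ) ≤ Real.log N ^ K → ∀ g : ℕ → ℕ → ℂ,
    (∀ l < Lc, ∑ a ∈ Icc 1 (B * N), ‖g l a‖ ^ 4 ≤ N * Real.log N ^ K) →
    ∀ E : ℕ → Prop, [DecidablePred E] →
    (∀ m ∈ Icc 1 x, E m → ∃ l < Lc, ∃ X : ℕ, X ≤ B * N ∧
      (N : ℝ) / Real.log N ^ U < ‖∑ n ∈ Icc 1 X, g l n * exI (fl r Y z) (n + s m)‖) →
    (((Icc 1 x).filter E).card : ℝ) ≤ x / Real.log N ^ U := by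
  obtain ⟨κ, hκ⟩ : ∃ κ, κ = 2 * (B + 1) := ⟨_, rfl⟩
  have hκ1 : 1 ≤ κ := by omega
  obtain ⟨K2, N2, h2⟩ := moms r κ 2 hκ1
  obtain ⟨K4, N4, h4⟩ := moms r κ 4 hκ1
  obtain ⟨K', hK'⟩ : ∃ K', K' = K + K2 + K4 := ⟨_, rfl⟩
  obtain ⟨V, N1, h1⟩ := fam_gen p B C K' U
  obtain ⟨B0, h0⟩ := sup_N r κ V hr hκ1
  refine ⟨B0, fun B' hB' => ?_⟩
  obtain ⟨N3, h3⟩ := h0 B' hB'
  obtain ⟨N5, h5⟩ := ev_L' 1
  refine ⟨N1 + N2 + N3 + N4 + N5, fun N hN Y z hpar x s hs hE Lc hLc g hg E _ hEm => ?_⟩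
  obtain ⟨⟨hzN, hz1⟩, hsup⟩ := h3 N (by omega) Y z hpar
  have hW1 := h5 N (by omega)
  have hκN : 2 * ((B + 1) * N) = κ * N := by rw [hκ]; ring
  have hNκ : N ≤ κ * N := Nat.le_mul_of_pos_left _ hκ1
  have hbd : ∀ n ∈ Icc 1 (κ * N), ‖fl r Y z n‖ ≤ 2 * r * (1 + Real.log (κ * N : ℕ)) ^ (2 * 2 ^ r) * (n.divisors.card : ℝ) ^ (r + 1) := by
    intro n hn
    rw [mem_Icc] at hn
    exact bd_diff r Y z n (κ * N) hr (hzN.trans hNκ) hn.2 hn.1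
  refine h1 N (by omega) x s hs hE (fl r Y z) ?_ ?_ ?_ Lc ?_ g ?_ E hEm
  · rw [hκN]
    exact hsup
  · rw [hκN]
    exact (h2 N (by omega) _ hbd).trans (le_pow_log hW1 (by omega))
  · rw [hκN]
    exact (h4 N (by omega) _ hbd).trans (le_pow_log hW1 (by omega))
  · exact hLc.trans (pow_le_pow_right₀ hW1 (by omega))
  · intro l hl
    exact (hg l hl).trans (le_pow_log hW1 (by omega))

lemma flip (f G : ℕ → ℂ) (X : ℕ) (s : ℤ) :
    ∑ n ∈ Icc 1 X, f n * exI G (n + s) = ∑ a ∈ Icc 1 ((X : ℤ) + s).toNat, G a * exI f (a + -s) := by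
  unfold exI
  simp only [mul_ite, mul_zero]
  rw [← sum_filter, ← sum_filter]
  apply sum_nbij' (fun n : ℕ => ((n : ℤ) + s).toNat) (fun a : ℕ => ((a : ℤ) + -s).toNat)
  · intro n hn
    rw [mem_filter, mem_Icc] at hn ⊢
    omega
  · intro n hn
    rw [mem_filter, mem_Icc] at hn ⊢
    omega
  · intro n hn
    rw [mem_filter, mem_Icc] at hn
    omega
  · intro n hn
    rw [mem_filter, mem_Icc] at hn
    omega
  · intro n hn
    rw [mem_filter, mem_Icc] at hn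
    have h1 : ((((n : ℤ) + s).toNat : ℤ) + -s).toNat = n := by omega
    rw [h1, mul_comm]

/-- the main term -/
noncomputable def MT (k l Yk Yl z X : ℕ) (s : ℤ) : ℂ :=
  ∑ q ∈ Icc 1 z, (ram q s.natAbs : ℂ) * ∑ n ∈ Icc 1 X, ((ww k Yk q n * wI l Yl q (n + s) : ℝ) : ℂ)

set_option maxHeartbeats 1000000 in
/-- correlations of two divisor functions -/
theorem pair (k l p B C U : ℕ) (hk : 1 ≤ k) (hl : 1 ≤ l) : ∃ B0 : ℕ, ∀ B' : ℕ, B0 ≤ B' → ∃ N0 : ℕ, ∀ N : ℕ, N0 ≤ N →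
    ∀ Yk Yl z : ℕ, Par k B' N Yk z → Par l B' N Yl z →
    ∀ (x : ℕ) (s : ℕ → ℤ), (∀ m ∈ Icc 1 x, |s m| ≤ B * N) →
    (energy p x s : ℝ) * N ≤ Real.log N ^ C * (x : ℝ) ^ (2 * p) →
    ∀ E : ℕ → Prop, [DecidablePred E] →
    (∀ m ∈ Icc 1 x, E m → ∃ X : ℕ, X ≤ B * N ∧
      (N : ℝ) / Real.log N ^ U < ‖∑ n ∈ Icc 1 X, (dk k n : ℂ) * exI (fun n => (dk l n : ℂ)) (n + s m) - MT k l Yk Yl z X (s m)‖) →
    (((Icc 1 x).filter E).card : ℝ) ≤ x / Real.log N ^ U := by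
  classical
  obtain ⟨κ, hκ⟩ : ∃ κ, κ = 2 * B + 1 := ⟨_, rfl⟩
  have hκ1 : 1 ≤ κ := by omega
  obtain ⟨K1, M1, hm1⟩ := moms k κ 4 hκ1
  obtain ⟨K2, M2, hm2⟩ := moms l κ 4 hκ1
  obtain ⟨B1, h1⟩ := weights l p B C (K1 + K2) (U + 2) hl
  obtain ⟨B2, h2⟩ := weights k p (2 * B) C (K1 + K2) (U + 2) hk
  obtain ⟨B3, h3⟩ := sup_N l 1 1 hl le_rfl
  refine ⟨B1 + B2 + B3, fun B' hB' => ?_⟩
  obtain ⟨N1, h1⟩ := h1 B' (by omega)
  obtain ⟨N2, h2⟩ := h2 B' (by omega)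
  obtain ⟨N3, h3⟩ := h3 B' (by omega)
  obtain ⟨N4, h4⟩ := ev_L' (2 * (k * l) + 2)
  obtain ⟨N5, h5⟩ := logH κ hκ1
  obtain ⟨Q, hQ⟩ : ∃ Q, Q = 6 * (B' + 1) + 2 * (2 ^ k + 2 ^ l) + 1 + (U + 2) := ⟨_, rfl⟩
  obtain ⟨N6, h6⟩ := log_pow_small Q
  refine ⟨N1 + N2 + N3 + N4 + N5 + N6 + M1 + M2, fun N hN Yk Yl z hpk hpl x s hs hE E _ hEm => ?_⟩
  have a1 := h1 N (by omega) Yl z hpl x s hs hE
  have a2 := h2 N (by omega) Yk z hpk x (fun m => - s m) (fun m hm => by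
    rw [abs_neg]
    refine (hs m hm).trans ?_
    push_cast
    have : (0 : ℤ) ≤ B * N := by positivity
    linarith) (by
    rw [energy_neg]
    exact hE)
  obtain ⟨⟨hzN, hz1⟩, _⟩ := h3 N (by omega) Yl z hpl
  have a4 := h4 N (by omega)
  obtain ⟨hN1, hW2, hlogκ⟩ := h5 N (by omega)
  have a6 := h6 N (by omega)
  have hz2 := hpl.2.2.2
  obtain ⟨W, hW⟩ : ∃ W, W = Real.log (N : ℝ) := ⟨_, rfl⟩
  have hm1' := hm1 N (by omega)
  have hm2' := hm2 N (by omega)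
  rw [← hW] at a1 a2 a4 hW2 hlogκ a6 hEm hz2 hm1' hm2' ⊢
  have hkl0 : (0 : ℝ) ≤ (k : ℝ) * l := by positivity
  have hW1 : 1 ≤ W := by linarith
  have hW0 : 0 < W := by linarith
  have hN0 : (0 : ℝ) < N := by exact_mod_cast hN1
  have hNκ : N ≤ κ * N := Nat.le_mul_of_pos_left _ hκ1
  have hBκ : B * N ≤ κ * N := Nat.mul_le_mul_right _ (by omega)
  have h2Bκ : 2 * B * N ≤ κ * N := Nat.mul_le_mul_right _ (by omega)
  -- the two exceptional sets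
  have b1 := a1 1 (by push_cast; exact one_le_pow₀ hW1) (fun _ n => (dk k n : ℂ)) (by
    intro _ _
    refine (sum_le_sum_of_subset_of_nonneg (Icc_subset_Icc_right hBκ) (fun _ _ _ => by positivity)).trans ?_
    refine (hm1' (fun n => (dk k n : ℂ)) ?_).trans (le_pow_log hW1 (by omega))
    intro n hn
    rw [mem_Icc] at hn
    exact bd_dk k n (κ * N) hk hn.1)
    (fun m => ∃ X : ℕ, X ≤ B * N ∧ (N : ℝ) / W ^ (U + 2) < ‖∑ n ∈ Icc 1 X, (dk k n : ℂ) * exI (fl l Yl z) (n + s m)‖)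
    (fun m _ hm => ⟨0, by norm_num, hm⟩)
  have b2 := a2 1 (by push_cast; exact one_le_pow₀ hW1) (fun _ n => ((dsh l Yl z n : ℝ) : ℂ)) (by
    intro _ _
    refine (sum_le_sum_of_subset_of_nonneg (Icc_subset_Icc_right h2Bκ) (fun _ _ _ => by positivity)).trans ?_
    refine (hm2' (fun n => ((dsh l Yl z n : ℝ) : ℂ)) ?_).trans (le_pow_log hW1 (by omega))
    intro n hn
    rw [mem_Icc] at hn
    exact bd_dsh l Yl z n (κ * N) (hzN.trans hNκ) hn.2 hn.1)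
    (fun m => ∃ X : ℕ, X ≤ 2 * B * N ∧ (N : ℝ) / W ^ (U + 2) < ‖∑ n ∈ Icc 1 X, ((dsh l Yl z n : ℝ) : ℂ) * exI (fl k Yk z) (n + -s m)‖)
    (fun m _ hm => ⟨0, by norm_num, hm⟩)
  have hsub : (Icc 1 x).filter E ⊆
      (Icc 1 x).filter (fun m => ∃ X : ℕ, X ≤ B * N ∧ (N : ℝ) / W ^ (U + 2) < ‖∑ n ∈ Icc 1 X, (dk k n : ℂ) * exI (fl l Yl z) (n + s m)‖) ∪
      (Icc 1 x).filter (fun m => ∃ X : ℕ, X ≤ 2 * B * N ∧ (N : ℝ) / W ^ (U + 2) <
        ‖∑ n ∈ Icc 1 X, ((dsh l Yl z n : ℝ) : ℂ) * exI (fl k Yk z) (n + -s m)‖) := by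
    intro m hm
    rw [mem_filter] at hm
    obtain ⟨X, hX, hlt⟩ := hEm m hm.1 hm.2
    rw [mem_union, mem_filter, mem_filter]
    by_contra hcon
    push Not at hcon
    have c1 := hcon.1 hm.1 X hX
    have hsm := abs_le.1 (hs m hm.1)
    have hXz : (X : ℤ) ≤ B * N := by exact_mod_cast hX
    have c2 := hcon.2 hm.1 ((X : ℤ) + s m).toNat (by
      have h7 : (X : ℤ) + s m ≤ ((2 * B * N : ℕ) : ℤ) := by
        push_cast
        linarith [hsm.2]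
      omega)
    rw [← flip] at c2
    have hid : ∑ n ∈ Icc 1 X, (dk k n : ℂ) * exI (fun n => (dk l n : ℂ)) (n + s m) - MT k l Yk Yl z X (s m) =
        ∑ n ∈ Icc 1 X, (dk k n : ℂ) * exI (fl l Yl z) (n + s m) +
        ∑ n ∈ Icc 1 X, fl k Yk z n * exI (fun n => ((dsh l Yl z n : ℝ) : ℂ)) (n + s m) +
        (∑ n ∈ Icc 1 X, ((dsh k Yk z n : ℝ) : ℂ) * exI (fun n => ((dsh l Yl z n : ℝ) : ℂ)) (n + s m) - MT k l Yk Yl z X (s m)) := by
      rw [← sub_eq_zero]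
      have : ∀ a b c d e : ℂ, a - d - (b + c + (e - d)) = a - b - c - e := by intros; ring
      rw [this, ← sum_sub_distrib, ← sum_sub_distrib, ← sum_sub_distrib]
      apply sum_eq_zero
      intro n _
      unfold exI fl
      split_ifs <;> ring
    rw [hid] at hlt
    have c3 := dsh_cor k l Yk Yl z X (κ * N) (s m) (hX.trans hBκ) (by
      have : ((κ * N : ℕ) : ℤ) = 2 * (B * N) + N := by rw [hκ]; push_cast; ring
      rw [this]
      linarith [hsm.2])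
    have c4 : (z : ℝ) ^ 4 * (2 * ((k * (1 + Real.log (κ * N : ℕ)) ^ (2 ^ k)) * (l * (1 + Real.log (κ * N : ℕ)) ^ (2 ^ l))) * (3 / 4 * (z : ℝ) ^ 2)) ≤
        N / W ^ (U + 2) := by
      obtain ⟨L, hL⟩ : ∃ L, L = 1 + Real.log (κ * N : ℕ) := ⟨_, rfl⟩
      have hL0 : 0 ≤ L := by rw [hL]; exact log1_nonneg _
      rw [← hL] at hlogκ ⊢
      have hzW : (z : ℝ) ≤ W ^ (B' + 1) := by
        rw [pow_succ]
        have : 0 < W ^ B' := by positivity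
        nlinarith
      rw [le_div_iff₀ (by positivity)]
      calc (z : ℝ) ^ 4 * (2 * ((k * L ^ (2 ^ k)) * (l * L ^ (2 ^ l))) * (3 / 4 * (z : ℝ) ^ 2)) * W ^ (U + 2) =
          3 / 4 * (2 * (k * l)) * (z : ℝ) ^ 6 * L ^ (2 ^ k + 2 ^ l) * W ^ (U + 2) := by ring
        _ ≤ 1 * W * (W ^ (B' + 1)) ^ 6 * (W ^ 2) ^ (2 ^ k + 2 ^ l) * W ^ (U + 2) := by
            have : (0 : ℝ) ≤ z := Nat.cast_nonneg _
            gcongr
            · norm_num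
            · linarith
        _ = W ^ Q := by
            rw [hQ, ← pow_mul, ← pow_mul, one_mul, mul_comm (B' + 1) 6]
            rw [pow_add W (6 * (B' + 1) + 2 * (2 ^ k + 2 ^ l) + 1), pow_succ W (6 * (B' + 1) + 2 * (2 ^ k + 2 ^ l)),
              pow_add W (6 * (B' + 1)) (2 * (2 ^ k + 2 ^ l))]
            ring
        _ ≤ 4 * W ^ Q := by
            have : 0 < W ^ Q := by positivity
            linarith
        _ ≤ N := a6
    have c5 : ‖∑ n ∈ Icc 1 X, ((dsh k Yk z n : ℝ) : ℂ) * exI (fun n => ((dsh l Yl z n : ℝ) : ℂ)) (n + s m) - MT k l Yk Yl z X (s m)‖ ≤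
        N / W ^ (U + 2) := c3.trans c4
    have c6 : (N : ℝ) / W ^ (U + 2) = N / W ^ U * (1 / (W * W)) := by
      rw [show U + 2 = U + 1 + 1 by ring, pow_succ, pow_succ]
      field_simp
    have c7 : 1 / (W * W) ≤ 1 / 4 := by
      apply one_div_le_one_div_of_le (by norm_num)
      nlinarith
    have c8 : (N : ℝ) / W ^ (U + 2) ≤ N / W ^ U * (1 / 4) := by
      rw [c6]
      exact mul_le_mul_of_nonneg_left c7 (by positivity)
    have c9 := hlt.trans_le ((norm_add_le _ _).trans (add_le_add (norm_add_le _ _) le_rfl))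
    have c10 : 0 < (N : ℝ) / W ^ U := by positivity
    linarith
  have hx0 : (0 : ℝ) ≤ x := Nat.cast_nonneg _
  have hcc : (((Icc 1 x).filter E).card : ℝ) ≤
      (((Icc 1 x).filter (fun m => ∃ X : ℕ, X ≤ B * N ∧ (N : ℝ) / W ^ (U + 2) < ‖∑ n ∈ Icc 1 X, (dk k n : ℂ) * exI (fl l Yl z) (n + s m)‖)).card : ℝ) +
      (((Icc 1 x).filter (fun m => ∃ X : ℕ, X ≤ 2 * B * N ∧ (N : ℝ) / W ^ (U + 2) <
        ‖∑ n ∈ Icc 1 X, ((dsh l Yl z n : ℝ) : ℂ) * exI (fl k Yk z) (n + -s m)‖)).card : ℝ) := by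
    exact_mod_cast (card_le_card hsub).trans (card_union_le _ _)
  calc (((Icc 1 x).filter E).card : ℝ) ≤ x / W ^ (U + 2) + x / W ^ (U + 2) := hcc.trans (add_le_add b1 b2)
    _ = x / W ^ U * (2 / (W * W)) := by
        rw [show U + 2 = U + 1 + 1 by ring, pow_succ, pow_succ]
        field_simp
        ring
    _ ≤ x / W ^ U * 1 := by
        apply mul_le_mul_of_nonneg_left _ (by positivity)
        rw [div_le_one (by positivity)]
        nlinarith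
    _ = _ := mul_one _

end Pool.Agent.TH935.DS
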