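import Pool.Agent.TH935.DS8
import Pool.Agent.TH935.DS9

set_option autoImplicit false

/-! The sums of the coefficients of the model. -/

namespace Pool.Agent.TH935.DS
open Finset
open Pool.Agent.H807R2.Dav
open Pool.Agent.W93.LV (log1_nonneg)
open Pool.Agent.H373R2.T7 (exI ev_L')
open Pool.Agent.TH823.Fam (log_pow_small)

/-- the model at a rational frequency -/
lemma dsh_at (r Y z y q0 X : ℕ) (hz : q0 ≤ z) (h0 : 1 ≤ q0) (c : ℕ) (hc : Nat.Coprime c q0) (hyX : y ≤ X) :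
    ‖∑ n ∈ Icc 1 y, ((dsh r Y z n : ℝ) : ℂ) * ee ((n : ℝ) * ((c : ℝ) / q0)) - ((∑ n ∈ Icc 1 y, ww r Y q0 n : ℝ) : ℂ)‖ ≤
      z * (z * (2 * (r * (1 + Real.log X) ^ (2 ^ r)) * (3 / 4 * (z : ℝ) ^ 2))) := by
  obtain ⟨R, hR⟩ : ∃ R : ℕ → Finset ℕ, R = fun q => (range q).filter (fun b => Nat.Coprime b q) := ⟨_, rfl⟩
  obtain ⟨P, hP⟩ : ∃ P : ℕ → ℕ → ℂ, P = fun (q b : ℕ) => ∑ n ∈ Icc 1 y,
      ((ww r Y q n : ℝ) : ℂ) * ee ((n : ℝ) * ((b : ℝ) / q + (c : ℝ) / q0)) := ⟨_, rfl⟩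
  have hWm0 : 0 ≤ r * (1 + Real.log X) ^ (2 ^ r) := by
    have := log1_nonneg X
    positivity
  have h1 : ∑ n ∈ Icc 1 y, ((dsh r Y z n : ℝ) : ℂ) * ee ((n : ℝ) * ((c : ℝ) / q0)) = ∑ q ∈ Icc 1 z, ∑ b ∈ R q, P q b := by
    have h2 : ∀ n ∈ Icc 1 y, ((dsh r Y z n : ℝ) : ℂ) * ee ((n : ℝ) * ((c : ℝ) / q0)) =
        ∑ q ∈ Icc 1 z, ∑ b ∈ R q, ((ww r Y q n : ℝ) : ℂ) * ee ((n : ℝ) * ((b : ℝ) / q + (c : ℝ) / q0)) := by
      intro n _
      rw [dsh_exp, sum_mul]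
      apply sum_congr rfl
      intro q _
      rw [hR]
      simp only
      rw [sum_mul]
      apply sum_congr rfl
      intro b _
      rw [mul_add, ee_add]
      ring
    rw [sum_congr rfl h2, sum_comm]
    apply sum_congr rfl
    intro q _
    rw [sum_comm, hP]
  have h2 : ((∑ n ∈ Icc 1 y, ww r Y q0 n : ℝ) : ℂ) =
      ∑ q ∈ Icc 1 z, ∑ b ∈ R q, if q = q0 ∧ (q : ℤ) ∣ b + c then P q b else 0 := by
    refine Eq.trans ?_ (Finset.sum_eq_single q0 ?_ ?_).symm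
    · obtain ⟨b0, hb0, hd, huniq⟩ := exists_res q0 h0 (c : ℤ) (Nat.isCoprime_iff_coprime.2 hc)
      have hb0R : b0 ∈ R q0 := by rw [hR]; exact hb0
      refine Eq.trans ?_ (Finset.sum_eq_single b0 ?_ ?_).symm
      · have hq0 : (0 : ℝ) < q0 := by exact_mod_cast h0
        rw [if_pos ⟨rfl, by rw [add_comm]; exact hd⟩, hP]
        simp only
        push_cast
        apply sum_congr rfl
        intro n _
        obtain ⟨j, hj⟩ := hd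
        have h8 : (n : ℝ) * ((b0 : ℝ) / q0 + (c : ℝ) / q0) = ((n * j : ℤ) : ℝ) := by
          have h9 : (c : ℝ) + b0 = q0 * j := by exact_mod_cast hj
          rw [← add_div, add_comm, h9]
          push_cast
          field_simp
        rw [h8, ee_int, mul_one]
      · intro b hb hne
        rw [if_neg]
        rintro ⟨_, h⟩
        rw [hR] at hb
        exact hne (huniq b hb (by rw [add_comm]; exact h))
      · intro h
        exact absurd hb0R h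
    · intro q _ hne
      apply sum_eq_zero
      intro b _
      rw [if_neg (fun h => hne h.1)]
    · intro h
      exact absurd (mem_Icc.2 ⟨h0, hz⟩) h
  rw [h1, h2, ← sum_sub_distrib]
  have hterm : ∀ q ∈ Icc 1 z, ∀ b ∈ R q, ‖P q b - (if q = q0 ∧ (q : ℤ) ∣ b + c then P q b else 0)‖ ≤
      2 * (r * (1 + Real.log X) ^ (2 ^ r)) * (3 / 4 * (z : ℝ) ^ 2) := by
    intro q hq b hb
    rw [mem_Icc] at hq
    rw [hR] at hb
    simp only at hb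
    rw [mem_filter, mem_range] at hb
    have hq0 : (0 : ℝ) < q := by exact_mod_cast hq.1
    have hq0' : (0 : ℝ) < q0 := by exact_mod_cast h0
    have hqz : (q : ℝ) ≤ z := by exact_mod_cast hq.2
    have hqz' : (q0 : ℝ) ≤ z := by exact_mod_cast hz
    by_cases h3 : q = q0 ∧ (q : ℤ) ∣ b + c
    · rw [if_pos h3, sub_self, norm_zero]
      positivity
    · rw [if_neg h3, sub_zero, hP]
      simp only
      have h4 := dd_frac (q * q0) (Nat.mul_pos hq.1 h0) ((b : ℤ) * q0 + c * q) (by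
        intro h5
        have h6 := reso q q0 hq.1 h0 (b : ℤ) (Nat.isCoprime_iff_coprime.2 hb.2) c hc h5
        apply h3
        exact ⟨h6.1.symm, h6.2⟩)
      have h5 := frac_add q q0 hq.1 h0 (b : ℤ) c
      have h5' : ((b : ℤ) : ℝ) = (b : ℝ) := by simp
      rw [h5'] at h5
      rw [← h5] at h4
      have hpos : (0 : ℝ) < ((q * q0 : ℕ) : ℝ) := by exact_mod_cast Nat.mul_pos hq.1 h0
      have h6 : ∀ y' : ℕ, y' ≤ y → ‖∑ n ∈ Icc 1 y', ee ((n : ℝ) * ((b : ℝ) / q + (c : ℝ) / q0))‖ ≤ 3 / 4 * (z : ℝ) ^ 2 := by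
        intro y' _
        have h7 : Icc 1 y' = Ioc 0 y' := by
          ext n
          rw [mem_Icc, mem_Ioc]
          omega
        rw [h7]
        refine (geo_Ioc 0 y' _ _ (by positivity) h4).trans ?_
        push_cast
        have h11 : 3 / (4 / ((q : ℝ) * q0)) = 3 / 4 * (q * q0) := by field_simp
        rw [h11, pow_two]
        apply mul_le_mul_of_nonneg_left _ (by norm_num)
        exact mul_le_mul hqz hqz' hq0'.le (Nat.cast_nonneg _)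
      have h7 := abel_mono (fun n => ee ((n : ℝ) * ((b : ℝ) / q + (c : ℝ) / q0)))
        (fun n => ww r Y q n) (fun n => ww_nonneg _ _ _ _) (fun n => ww_mono r Y q n) (3 / 4 * (z : ℝ) ^ 2) y h6
      refine h7.trans ?_
      apply mul_le_mul_of_nonneg_right _ (by positivity)
      apply mul_le_mul_of_nonneg_left _ (by norm_num)
      exact ww_le' r Y q y X hyX
  have s1 : ∀ q ∈ Icc 1 z, ‖∑ b ∈ R q, P q b - ∑ b ∈ R q, (if q = q0 ∧ (q : ℤ) ∣ b + c then P q b else 0)‖ ≤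
      z * (2 * (r * (1 + Real.log X) ^ (2 ^ r)) * (3 / 4 * (z : ℝ) ^ 2)) := by
    intro q hq
    rw [← sum_sub_distrib]
    refine (norm_sum_le _ _).trans ((sum_le_sum fun b hb => hterm q hq b hb).trans ?_)
    rw [sum_const, nsmul_eq_mul]
    apply mul_le_mul_of_nonneg_right _ (by positivity)
    rw [hR]
    have h3 : ((range q).filter (fun b => Nat.Coprime b q)).card ≤ q := (card_filter_le _ _).trans (by rw [card_range])
    exact_mod_cast h3.trans (mem_Icc.1 hq).2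
  refine (norm_sum_le _ _).trans ((sum_le_sum s1).trans ?_)
  rw [sum_const, nsmul_eq_mul, Nat.card_Icc, Nat.add_sub_cancel]

lemma card_cop (q : ℕ) : ((range q).filter (fun b => Nat.Coprime b q)).card = Nat.totient q := by
  rw [Nat.totient_eq_card_coprime]
  congr 1
  apply filter_congr
  intro b _
  exact Nat.coprime_comm

/-- the mean values of the coefficients -/
lemma Fq_bd (r Y z y q X : ℕ) (hY : 1 ≤ Y) (hz : q ≤ z) (h0 : 1 ≤ q) (hyX : y ≤ X) (hYr : Y ^ r ≤ X) :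
    |∑ n ∈ Icc 1 y, (dk r n : ℝ) * (ram q n : ℝ) - (Nat.totient q : ℝ) * ∑ n ∈ Icc 1 y, ww r Y q n| ≤
      q * ((3 * (z : ℝ) ^ 4 * (r * ((X : ℝ) / Y * (1 + Real.log X) ^ (2 ^ r))) + (Y : ℝ) ^ r * (1 + Real.log X) ^ (2 ^ r)) +
        z * (z * (2 * (r * (1 + Real.log X) ^ (2 ^ r)) * (3 / 4 * (z : ℝ) ^ 2)))) := by
  obtain ⟨E, hE⟩ : ∃ E, E = (3 * (z : ℝ) ^ 4 * (r * ((X : ℝ) / Y * (1 + Real.log X) ^ (2 ^ r))) + (Y : ℝ) ^ r * (1 + Real.log X) ^ (2 ^ r)) +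
        z * (z * (2 * (r * (1 + Real.log X) ^ (2 ^ r)) * (3 / 4 * (z : ℝ) ^ 2))) := ⟨_, rfl⟩
  have hE0 : 0 ≤ E := by
    rw [hE]
    have := log1_nonneg X
    positivity
  rw [← hE]
  have h1 : ((∑ n ∈ Icc 1 y, (dk r n : ℝ) * (ram q n : ℝ) - (Nat.totient q : ℝ) * ∑ n ∈ Icc 1 y, ww r Y q n : ℝ) : ℂ) =
      ∑ c ∈ (range q).filter (fun b => Nat.Coprime b q), (∑ n ∈ Icc 1 y, (dk r n : ℂ) * ee ((n : ℝ) * ((c : ℝ) / q)) -
        ((∑ n ∈ Icc 1 y, ww r Y q n : ℝ) : ℂ)) := by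
    rw [sum_sub_distrib, sum_const, card_cop, nsmul_eq_mul, sum_comm]
    push_cast
    congr 1
    apply sum_congr rfl
    intro n _
    have h2 := rexp_eq q h0 (n : ℤ)
    rw [Int.natAbs_natCast] at h2
    rw [← h2]
    unfold rexp
    rw [mul_sum]
    apply sum_congr rfl
    intro c _
    push_cast
    ring
  have h2 : ∀ c ∈ (range q).filter (fun b => Nat.Coprime b q), ‖∑ n ∈ Icc 1 y, (dk r n : ℂ) * ee ((n : ℝ) * ((c : ℝ) / q)) -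
        ((∑ n ∈ Icc 1 y, ww r Y q n : ℝ) : ℂ)‖ ≤ E := by
    intro c hc
    rw [mem_filter] at hc
    have e1 := dsh_at r Y z y q X hz h0 c hc.2 hyX
    have e2 := major0 r Y z y q X hY hz h0 (c : ℤ) (Nat.isCoprime_iff_coprime.2 hc.2) hyX hYr
    have e3 : ∑ n ∈ Icc 1 y, (dk r n : ℂ) * ee ((n : ℝ) * ((c : ℝ) / q)) - ((∑ n ∈ Icc 1 y, ww r Y q n : ℝ) : ℂ) =
        ∑ n ∈ Icc 1 y, ((dk r n : ℂ) - (dsh r Y z n : ℂ)) * ee ((n : ℝ) * (((c : ℤ) : ℝ) / q)) +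
        (∑ n ∈ Icc 1 y, ((dsh r Y z n : ℝ) : ℂ) * ee ((n : ℝ) * ((c : ℝ) / q)) - ((∑ n ∈ Icc 1 y, ww r Y q n : ℝ) : ℂ)) := by
      have e4 : ((c : ℤ) : ℝ) = (c : ℝ) := by simp
      rw [e4]
      simp only [sub_mul]
      rw [sum_sub_distrib]
      ring
    rw [e3, hE]
    exact (norm_add_le _ _).trans (add_le_add e2 e1)
  have h3 : |∑ n ∈ Icc 1 y, (dk r n : ℝ) * (ram q n : ℝ) - (Nat.totient q : ℝ) * ∑ n ∈ Icc 1 y, ww r Y q n| =
      ‖((∑ n ∈ Icc 1 y, (dk r n : ℝ) * (ram q n : ℝ) - (Nat.totient q : ℝ) * ∑ n ∈ Icc 1 y, ww r Y q n : ℝ) : ℂ)‖ := by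
    rw [Complex.norm_real, Real.norm_eq_abs]
  rw [h3, h1]
  refine (norm_sum_le _ _).trans ((sum_le_sum h2).trans ?_)
  rw [sum_const, card_cop, nsmul_eq_mul]
  apply mul_le_mul_of_nonneg_right _ hE0
  exact_mod_cast Nat.totient_le q

/-- the mean values of the coefficients, asymptotically -/
theorem Fq_N (r κ q B' : ℕ) (hr : 1 ≤ r) (hκ : 1 ≤ κ) (hq : 1 ≤ q) (hB' : 1 ≤ B') : ∃ N0 : ℕ, ∀ N : ℕ, N0 ≤ N →
    ∀ Y z : ℕ, Par r B' N Y z → q ≤ z ∧ ∀ y : ℕ, y ≤ κ * N →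
    |∑ n ∈ Icc 1 y, (dk r n : ℝ) * (ram q n : ℝ) - (Nat.totient q : ℝ) * ∑ n ∈ Icc 1 y, ww r Y q n| ≤ N := by
  obtain ⟨M, hM⟩ : ∃ M, M = 4 * (B' + 1) + 2 * 2 ^ r + 1 := ⟨_, rfl⟩
  obtain ⟨N1, h1⟩ := logH κ hκ
  obtain ⟨N2, h2⟩ := ev_L' (6 * r * κ * q)
  obtain ⟨N3, h3⟩ := Y_large r M
  refine ⟨N1 + N2 + N3, fun N hN Y z hpar => ?_⟩
  obtain ⟨hY1, hY2, hz1, hz2⟩ := hpar
  obtain ⟨hN1, hW2, hH⟩ := h1 N (by omega)
  have e2 := h2 N (by omega)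
  have e3 := h3 N (by omega) Y hY2
  obtain ⟨W, hW⟩ : ∃ W, W = Real.log (N : ℝ) := ⟨_, rfl⟩
  rw [← hW] at hW2 hH e2 e3 hz1 hz2
  have hW0 : 0 < W := by linarith
  have hW1 : 1 ≤ W := by linarith
  have hN0 : (0 : ℝ) < N := by exact_mod_cast hN1
  have hr1 : (1 : ℝ) ≤ r := by exact_mod_cast hr
  have hκ1 : (1 : ℝ) ≤ κ := by exact_mod_cast hκ
  have hq1 : (1 : ℝ) ≤ q := by exact_mod_cast hq
  have hzW : (z : ℝ) ≤ W ^ (B' + 1) := by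
    rw [pow_succ]
    have : 0 < W ^ B' := by positivity
    nlinarith
  have hqz : q ≤ z := by
    have a1 : (q : ℝ) ≤ W := by
      refine le_trans ?_ e2
      have : (1 : ℝ) ≤ 6 * r * κ := by nlinarith
      nlinarith
    have a2 : W ≤ W ^ B' := le_self_pow₀ hW1 (by omega)
    have a3 : (q : ℝ) ≤ z := a1.trans (a2.trans hz1)
    exact_mod_cast a3
  refine ⟨hqz, fun y hy => ?_⟩
  have hYpos : (0 : ℝ) < Y := lt_of_lt_of_le (by positivity) e3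
  have hY1' : 1 ≤ Y := by exact_mod_cast hYpos
  have hNκ : N ≤ κ * N := Nat.le_mul_of_pos_left _ hκ
  have hYrN : Y ^ r ≤ N := (Nat.pow_le_pow_right hY1' (by omega)).trans hY1
  refine (Fq_bd r Y z y q (κ * N) hY1' hqz hq hy (hYrN.trans hNκ)).trans ?_
  obtain ⟨L, hL⟩ : ∃ L, L = 1 + Real.log (κ * N : ℕ) := ⟨_, rfl⟩
  have hL0 : 0 ≤ L := by rw [hL]; exact log1_nonneg _
  rw [← hL] at hH ⊢
  have hLr : L ^ (2 ^ r) ≤ W ^ (2 * 2 ^ r) := by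
    rw [pow_mul]
    exact pow_le_pow_left₀ hL0 hH _
  have hYr2 : (Y : ℝ) ^ r ≤ N / Y := by
    rw [le_div_iff₀ hYpos]
    have h1 : Y ^ r * Y ≤ N := by
      calc Y ^ r * Y = Y ^ (r + 1) := by rw [pow_succ]
        _ ≤ Y ^ (2 * r) := Nat.pow_le_pow_right hY1' (by omega)
        _ ≤ N := hY1
    exact_mod_cast h1
  have hNY : 1 ≤ (N : ℝ) / Y := by
    refine le_trans ?_ hYr2
    exact one_le_pow₀ (by exact_mod_cast hY1')
  have hz0 : (1 : ℝ) ≤ z := by exact_mod_cast hq.trans hqz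
  have hz4 : (1 : ℝ) ≤ (z : ℝ) ^ 4 := one_le_pow₀ hz0
  have hz4W : (z : ℝ) ^ 4 ≤ W ^ (4 * (B' + 1)) := by
    have h5 : (z : ℝ) ^ 4 ≤ (W ^ (B' + 1)) ^ 4 := pow_le_pow_left₀ (by linarith) hzW 4
    rwa [← pow_mul, mul_comm (B' + 1) 4] at h5
  obtain ⟨A, hA⟩ : ∃ A, A = (z : ℝ) ^ 4 * r * κ * (N / Y) * L ^ (2 ^ r) := ⟨_, rfl⟩
  have t1 : 3 * (z : ℝ) ^ 4 * (r * (((κ * N : ℕ) : ℝ) / Y * L ^ (2 ^ r))) = 3 * A := by
    rw [hA]; push_cast; ring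
  have t2 : (Y : ℝ) ^ r * L ^ (2 ^ r) ≤ A := by
    calc (Y : ℝ) ^ r * L ^ (2 ^ r) ≤ (N / Y) * L ^ (2 ^ r) := by gcongr
      _ = 1 * 1 * 1 * (N / Y) * L ^ (2 ^ r) := by ring
      _ ≤ _ := by rw [hA]; gcongr
  have t3 : (z : ℝ) * (z * (2 * (r * L ^ (2 ^ r)) * (3 / 4 * (z : ℝ) ^ 2))) ≤ 2 * A := by
    calc (z : ℝ) * (z * (2 * (r * L ^ (2 ^ r)) * (3 / 4 * (z : ℝ) ^ 2))) = 3 / 2 * ((z : ℝ) ^ 4 * r * 1 * 1 * L ^ (2 ^ r)) := by ring
      _ ≤ 2 * ((z : ℝ) ^ 4 * r * κ * (N / Y) * L ^ (2 ^ r)) := by gcongr; norm_num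
      _ = _ := by rw [hA]
  have t4 : (q : ℝ) * (6 * A) ≤ N := by
    calc (q : ℝ) * (6 * A) = (6 * r * κ * q) * (z : ℝ) ^ 4 * L ^ (2 ^ r) * N * (1 / Y) := by rw [hA]; ring
      _ ≤ W * W ^ (4 * (B' + 1)) * W ^ (2 * 2 ^ r) * N * (1 / W ^ M) := by gcongr
      _ = N := by
          rw [hM, pow_succ W (4 * (B' + 1) + 2 * 2 ^ r), pow_add W (4 * (B' + 1)) (2 * 2 ^ r)]
          field_simp
  have hq0 : (0 : ℝ) ≤ q := by linarith
  calc (q : ℝ) * (3 * (z : ℝ) ^ 4 * (r * (((κ * N : ℕ) : ℝ) / Y * L ^ (2 ^ r))) + (Y : ℝ) ^ r * L ^ (2 ^ r) +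
      z * (z * (2 * (r * L ^ (2 ^ r)) * (3 / 4 * (z : ℝ) ^ 2)))) ≤ q * (6 * A) := by
        apply mul_le_mul_of_nonneg_left _ hq0
        rw [t1]
        linarith
    _ ≤ N := t4

end Pool.Agent.TH935.DS
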