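import Pool.Agent.TH935.DS2

set_option autoImplicit false

/-! Mean values of the divisor functions over multiples. -/

namespace Pool.Agent.TH935.DS
open Finset
open Pool.Agent.W93.LV (dir harm log1_nonneg)

/-- the logarithmic sum over multiples -/
noncomputable def AA (r e X : ℕ) : ℝ := ∑ a ∈ (Icc 1 X).filter (fun a => e ∣ a), (dk r a : ℝ) / a

/-- the sum over multiples -/
noncomputable def TT (r g X : ℕ) : ℝ := ∑ n ∈ (Icc 1 X).filter (fun n => g ∣ n), (dk r n : ℝ)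

/-- the densities -/
noncomputable def gam : ℕ → ℕ → ℝ
  | 0, e => if e = 1 then 1 else 0
  | r + 1, g => (1 / (g : ℝ)) * ∑ e ∈ g.divisors, (Nat.totient e : ℝ) * gam r e

lemma gam_nonneg (r g : ℕ) : 0 ≤ gam r g := by
  induction r generalizing g with
  | zero => unfold gam; split_ifs <;> norm_num
  | succ r ih =>
    unfold gam
    apply mul_nonneg (by positivity)
    exact sum_nonneg fun e _ => mul_nonneg (Nat.cast_nonneg _) (ih e)

lemma AA_nonneg (r e X : ℕ) : 0 ≤ AA r e X := sum_nonneg fun _ _ => by positivity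

lemma AA_le (r X : ℕ) : ∑ a ∈ Icc 1 X, (dk r a : ℝ) / a ≤ (1 + Real.log X) ^ r := by
  induction r with
  | zero =>
    rcases Nat.eq_zero_or_pos X with h | h
    · subst h; simp
    · have h1 : ∀ a ∈ Icc 1 X, (dk 0 a : ℝ) / a = if a = 1 then 1 else 0 := by
        intro a _
        unfold dk
        rw [pow_zero, ArithmeticFunction.one_apply]
        split_ifs with h2
        · subst h2; simp
        · simp
      rw [sum_congr rfl h1, sum_ite_eq', if_pos (by rw [mem_Icc]; omega)]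
      simp
  | succ r ih =>
    have e1 := dir X (fun d m => (dk r d : ℝ) / d * (1 / (m : ℝ)))
    have e2 : ∀ n ∈ Icc 1 X, (dk (r + 1) n : ℝ) / n = ∑ d ∈ n.divisors, (dk r d : ℝ) / d * (1 / ((n / d : ℕ) : ℝ)) := by
      intro n hn
      rw [dk_succ]
      push_cast
      rw [sum_div]
      apply sum_congr rfl
      intro d hd
      have h1 := Nat.dvd_of_mem_divisors hd
      have h2 : (0 : ℝ) < d := by exact_mod_cast Nat.pos_of_mem_divisors hd
      have h3 : (0 : ℝ) < n := by exact_mod_cast (mem_Icc.1 hn).1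
      rw [Nat.cast_div h1 h2.ne']
      field_simp
    rw [sum_congr rfl e2, e1]
    have e3 : ∀ d ∈ Icc 1 X, ∑ m ∈ Icc 1 (X / d), (dk r d : ℝ) / d * (1 / (m : ℝ)) ≤ (dk r d : ℝ) / d * (1 + Real.log X) := by
      intro d _
      rw [← mul_sum]
      apply mul_le_mul_of_nonneg_left _ (by positivity)
      exact (harm _).trans (log_mono1 (Nat.div_le_self _ _))
    refine (sum_le_sum e3).trans ?_
    rw [← sum_mul, pow_succ]
    exact mul_le_mul_of_nonneg_right ih (log1_nonneg X)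

/-- partial summation -/
lemma abel_log (a : ℕ → ℝ) (X : ℕ) : ∑ n ∈ Icc 1 X, a n / n =
    (∑ n ∈ Icc 1 X, a n) / ((X : ℝ) + 1) + ∑ k ∈ Icc 1 X, (∑ n ∈ Icc 1 k, a n) / ((k : ℝ) * (k + 1)) := by
  induction X with
  | zero => simp
  | succ X ih =>
    rw [sum_Icc_succ_top (by omega), ih, sum_Icc_succ_top (b := X) (f := fun k => (∑ n ∈ Icc 1 k, a n) / ((k : ℝ) * (k + 1))) (by omega),
      sum_Icc_succ_top (b := X) (f := fun n => a n) (by omega)]
    have h1 : (0 : ℝ) < (X : ℝ) + 1 := by positivity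
    have h2 : (0 : ℝ) < (X : ℝ) + 2 := by positivity
    push_cast
    have h3 : (X : ℝ) + 1 + 1 = X + 2 := by ring
    rw [h3]
    field_simp
    ring

lemma card_mult (e M : ℕ) (he : 1 ≤ e) : ((Icc 1 M).filter (fun m => e ∣ m)).card = M / e := by
  have h1 : Icc 1 M = Ioc 0 M := by
    ext n
    rw [mem_Icc, mem_Ioc]
    omega
  rw [h1, Nat.Ioc_filter_dvd_card_eq_div]

/-- the recursion for the sums over multiples -/
lemma TT_rec (r g X : ℕ) (hg : 1 ≤ g) :
    TT (r + 1) g X = ∑ a ∈ Icc 1 X, (dk r a : ℝ) * ((X / a / (g / Nat.gcd g a) : ℕ) : ℝ) := by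
  unfold TT
  have e1 := dir X (fun d m => if g ∣ d * m then (dk r d : ℝ) else 0)
  have e2 : ∑ n ∈ (Icc 1 X).filter (fun n => g ∣ n), (dk (r + 1) n : ℝ) =
      ∑ n ∈ Icc 1 X, ∑ d ∈ n.divisors, (if g ∣ d * (n / d) then (dk r d : ℝ) else 0) := by
    rw [sum_filter]
    apply sum_congr rfl
    intro n _
    rw [dk_succ]
    push_cast
    split_ifs with h
    · apply sum_congr rfl
      intro d hd
      rw [Nat.mul_div_cancel' (Nat.dvd_of_mem_divisors hd), if_pos h]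
    · symm
      apply sum_eq_zero
      intro d hd
      rw [Nat.mul_div_cancel' (Nat.dvd_of_mem_divisors hd), if_neg h]
  rw [e2, e1]
  apply sum_congr rfl
  intro a ha
  rw [mem_Icc] at ha
  rw [← sum_filter, sum_const, nsmul_eq_mul, mul_comm]
  congr 1
  have hgcd : 0 < Nat.gcd g a := Nat.gcd_pos_of_pos_left _ (by omega)
  have h1 : (Icc 1 (X / a)).filter (fun m => g ∣ a * m) = (Icc 1 (X / a)).filter (fun m => (g / Nat.gcd g a) ∣ m) := by
    apply filter_congr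
    intro m _
    constructor
    · intro h
      have h2 : Nat.Coprime (g / Nat.gcd g a) (a / Nat.gcd g a) := Nat.coprime_div_gcd_div_gcd hgcd
      apply h2.dvd_of_dvd_mul_left
      obtain ⟨k, hk⟩ := h
      refine ⟨k, ?_⟩
      apply Nat.eq_of_mul_eq_mul_left hgcd
      have h3 := Nat.mul_div_cancel' (Nat.gcd_dvd_left g a)
      have h4 := Nat.mul_div_cancel' (Nat.gcd_dvd_right g a)
      calc Nat.gcd g a * (a / Nat.gcd g a * m) = (Nat.gcd g a * (a / Nat.gcd g a)) * m := by ring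
        _ = a * m := by rw [h4]
        _ = g * k := hk
        _ = (Nat.gcd g a * (g / Nat.gcd g a)) * k := by rw [h3]
        _ = _ := by ring
    · intro h
      have h3 := Nat.mul_div_cancel' (Nat.gcd_dvd_left g a)
      calc g = Nat.gcd g a * (g / Nat.gcd g a) := h3.symm
        _ ∣ a * m := Nat.mul_dvd_mul (Nat.gcd_dvd_right g a) h
  rw [h1, card_mult _ _ (Nat.div_pos (Nat.le_of_dvd (by omega) (Nat.gcd_dvd_left g a)) hgcd)]

/-- the main coefficient -/
noncomputable def PP (r g X : ℕ) : ℝ := (1 / (g : ℝ)) * ∑ e ∈ g.divisors, (Nat.totient e : ℝ) * AA r e X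

lemma PP_eq (r g X : ℕ) (hg : 1 ≤ g) : PP r g X = (1 / (g : ℝ)) * ∑ a ∈ Icc 1 X, (dk r a : ℝ) / a * (Nat.gcd g a : ℝ) := by
  unfold PP AA
  congr 1
  have h1 : ∀ a ∈ Icc 1 X, (dk r a : ℝ) / a * (Nat.gcd g a : ℝ) =
      ∑ e ∈ g.divisors, if e ∣ a then (Nat.totient e : ℝ) * ((dk r a : ℝ) / a) else 0 := by
    intro a _
    have h2 := Nat.sum_totient (Nat.gcd g a)
    have h3 : (Nat.gcd g a : ℝ) = ∑ e ∈ (Nat.gcd g a).divisors, (Nat.totient e : ℝ) := by
      rw [← Nat.cast_sum, h2]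
    rw [h3, ← sum_filter, mul_sum]
    have h4 : (Nat.gcd g a).divisors = g.divisors.filter (fun e => e ∣ a) := by
      ext e
      rw [mem_filter, Nat.mem_divisors, Nat.mem_divisors, Nat.dvd_gcd_iff]
      have : Nat.gcd g a ≠ 0 := Nat.gcd_ne_zero_left (by omega)
      constructor
      · rintro ⟨⟨h1, h2⟩, _⟩
        exact ⟨⟨h1, by omega⟩, h2⟩
      · rintro ⟨⟨h1, h2⟩, h3⟩
        exact ⟨⟨h1, h3⟩, this⟩
    rw [h4]
    apply sum_congr rfl
    intro e _
    ring
  rw [sum_congr rfl h1, sum_comm]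
  apply sum_congr rfl
  intro e _
  rw [← sum_filter, ← mul_sum]

lemma TT_approx (r g X : ℕ) (hg : 1 ≤ g) : |TT (r + 1) g X - X * PP r g X| ≤ ∑ a ∈ Icc 1 X, (dk r a : ℝ) := by
  rw [TT_rec r g X hg, PP_eq r g X hg, mul_sum, mul_sum, ← sum_sub_distrib]
  refine (abs_sum_le_sum_abs _ _).trans (sum_le_sum fun a ha => ?_)
  rw [mem_Icc] at ha
  have hgcd : 0 < Nat.gcd g a := Nat.gcd_pos_of_pos_left _ (by omega)
  have ha0 : (0 : ℝ) < a := by exact_mod_cast ha.1
  have hg0 : (0 : ℝ) < g := by exact_mod_cast hg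
  have hgc0 : (0 : ℝ) < Nat.gcd g a := by exact_mod_cast hgcd
  obtain ⟨e, he⟩ : ∃ e, e = g / Nat.gcd g a := ⟨_, rfl⟩
  have hge : Nat.gcd g a * e = g := by rw [he]; exact Nat.mul_div_cancel' (Nat.gcd_dvd_left g a)
  have he1 : 1 ≤ e := by
    by_contra hcon
    have : e = 0 := by omega
    rw [this, mul_zero] at hge
    omega
  have he0 : (0 : ℝ) < e := by exact_mod_cast he1
  rw [← he, Nat.div_div_eq_div_mul]
  have hger : (g : ℝ) = (Nat.gcd g a : ℝ) * e := by exact_mod_cast hge.symm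
  have h1 : (X : ℝ) * (1 / (g : ℝ) * ((dk r a : ℝ) / a * (Nat.gcd g a : ℝ))) = (dk r a : ℝ) * ((X : ℝ) / (a * e)) := by
    rw [hger]
    field_simp
  rw [h1, ← mul_sub, abs_mul, abs_of_nonneg (Nat.cast_nonneg _)]
  apply mul_le_of_le_one_right (Nat.cast_nonneg _)
  have h2 : ((X / (a * e) : ℕ) : ℝ) ≤ (X : ℝ) / (a * e) := by
    have := Nat.cast_div_le (α := ℝ) (m := X) (n := a * e)
    push_cast at this
    exact this
  have h3 : (X : ℝ) / (a * e) < ((X / (a * e) : ℕ) : ℝ) + 1 := by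
    rw [div_lt_iff₀ (by positivity)]
    have := Nat.lt_mul_div_succ X (show 0 < a * e from Nat.mul_pos ha.1 he1)
    have h9 : (X : ℝ) < ((a * e : ℕ) : ℝ) * (((X / (a * e) : ℕ) : ℝ) + 1) := by exact_mod_cast this
    push_cast at h9
    linarith
  rw [abs_le]
  constructor <;> linarith

lemma pow_diff (r : ℕ) {u v : ℝ} (hv : 0 ≤ v) (h : v ≤ u) :
    ((r : ℝ) + 1) * (v ^ r * (u - v)) ≤ u ^ (r + 1) - v ^ (r + 1) ∧ u ^ (r + 1) - v ^ (r + 1) ≤ ((r : ℝ) + 1) * (u ^ r * (u - v)) := by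
  have hu : 0 ≤ u := hv.trans h
  have hd : 0 ≤ u - v := by linarith
  induction r with
  | zero => simp
  | succ r ih =>
    obtain ⟨h1, h2⟩ := ih
    have e : u ^ (r + 1 + 1) - v ^ (r + 1 + 1) = u * (u ^ (r + 1) - v ^ (r + 1)) + v ^ (r + 1) * (u - v) := by ring
    rw [e]
    have hvr : 0 ≤ v ^ r * (u - v) := by positivity
    have hur : v ^ (r + 1) ≤ u ^ (r + 1) := pow_le_pow_left₀ hv h _
    have h3 : v * (((r : ℝ) + 1) * (v ^ r * (u - v))) ≤ u * (u ^ (r + 1) - v ^ (r + 1)) := by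
      apply mul_le_mul h h1 (by positivity) hu
    have h4 : u * (u ^ (r + 1) - v ^ (r + 1)) ≤ u * (((r : ℝ) + 1) * (u ^ r * (u - v))) := mul_le_mul_of_nonneg_left h2 hu
    have h5 : v ^ (r + 1) * (u - v) ≤ u ^ (r + 1) * (u - v) := mul_le_mul_of_nonneg_right hur hd
    push_cast
    constructor
    · have e2 : ((r : ℝ) + 1 + 1) * (v ^ (r + 1) * (u - v)) = v * (((r : ℝ) + 1) * (v ^ r * (u - v))) + v ^ (r + 1) * (u - v) := by ring
      rw [e2]
      linarith
    · have e2 : ((r : ℝ) + 1 + 1) * (u ^ (r + 1) * (u - v)) = u * (((r : ℝ) + 1) * (u ^ r * (u - v))) + u ^ (r + 1) * (u - v) := by ring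
      rw [e2]
      linarith

lemma log_step (X : ℕ) (hX : 1 ≤ X) : 1 / ((X : ℝ) + 1) ≤ Real.log (X + 1 : ℕ) - Real.log X ∧
    Real.log (X + 1 : ℕ) - Real.log X ≤ 1 / (X : ℝ) := by
  have hX0 : (0 : ℝ) < X := by exact_mod_cast hX
  rw [← Real.log_div (by positivity) hX0.ne']
  push_cast
  constructor
  · have h1 := Real.one_sub_inv_le_log_of_pos (show 0 < ((X : ℝ) + 1) / X by positivity)
    have h2 : 1 - (((X : ℝ) + 1) / X)⁻¹ = 1 / ((X : ℝ) + 1) := by
      field_simp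
      ring
    linarith
  · have h1 := Real.log_le_sub_one_of_pos (show 0 < ((X : ℝ) + 1) / X by positivity)
    have h2 : ((X : ℝ) + 1) / X - 1 = 1 / X := by field_simp; ring
    linarith

/-- the sum of powers of the logarithm -/
lemma log_sum (r X : ℕ) (hX : 1 ≤ X) :
    |∑ k ∈ Icc 1 X, Real.log k ^ r / ((k : ℝ) + 1) - Real.log X ^ (r + 1) / ((r : ℝ) + 1)| ≤ 2 * Real.log X ^ r := by
  have hr0 : (0 : ℝ) < (r : ℝ) + 1 := by positivity
  have key : ∑ k ∈ Icc 1 X, Real.log k ^ r / ((k : ℝ) + 1) ≤ Real.log X ^ (r + 1) / ((r : ℝ) + 1) + Real.log X ^ r ∧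
      Real.log X ^ (r + 1) / ((r : ℝ) + 1) ≤ ∑ k ∈ Icc 1 X, Real.log k ^ r / ((k : ℝ) + 1) +
        Real.log X ^ r * (3 / 2 - 1 / (X : ℝ) - 1 / ((X : ℝ) + 1)) := by
    induction X, hX using Nat.le_induction with
    | base =>
      simp only [Icc_self, sum_singleton, Nat.cast_one, Real.log_one]
      rcases Nat.eq_zero_or_pos r with h | h
      · subst h; norm_num
      · rw [zero_pow (by omega), zero_pow (by omega)]; norm_num
    | succ X hX ih =>
      obtain ⟨h1, h2⟩ := ih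
      have hX0 : (0 : ℝ) < X := by exact_mod_cast hX
      obtain ⟨l1, l2⟩ := log_step X hX
      have hv : 0 ≤ Real.log X := Real.log_natCast_nonneg X
      have hp : 0 < 1 / ((X : ℝ) + 1) := by positivity
      have huv : Real.log X ≤ Real.log (X + 1 : ℕ) := by linarith
      obtain ⟨p1, p2⟩ := pow_diff r hv huv
      obtain ⟨u, hu⟩ : ∃ u, u = Real.log (X + 1 : ℕ) := ⟨_, rfl⟩
      obtain ⟨v, hv'⟩ : ∃ v, v = Real.log (X : ℝ) := ⟨_, rfl⟩
      rw [sum_Icc_succ_top (by omega)]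
      rw [← hu] at l1 l2 huv p1 p2 ⊢
      rw [← hv'] at hv l1 l2 huv p1 p2 h1 h2
      have hu0 : 0 ≤ u := hv.trans huv
      have hvr : 0 ≤ v ^ r := by positivity
      have hur : 0 ≤ u ^ r := by positivity
      have hvu : v ^ r ≤ u ^ r := pow_le_pow_left₀ hv huv r
      have p1' : v ^ r * (1 / ((X : ℝ) + 1)) ≤ (u ^ (r + 1) - v ^ (r + 1)) / ((r : ℝ) + 1) := by
        rw [le_div_iff₀ hr0]
        calc v ^ r * (1 / ((X : ℝ) + 1)) * ((r : ℝ) + 1) ≤ v ^ r * (u - v) * ((r : ℝ) + 1) := by gcongr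
          _ = ((r : ℝ) + 1) * (v ^ r * (u - v)) := by ring
          _ ≤ _ := p1
      have p2' : (u ^ (r + 1) - v ^ (r + 1)) / ((r : ℝ) + 1) ≤ u ^ r * (1 / (X : ℝ)) := by
        rw [div_le_iff₀ hr0]
        calc u ^ (r + 1) - v ^ (r + 1) ≤ ((r : ℝ) + 1) * (u ^ r * (u - v)) := p2
          _ ≤ ((r : ℝ) + 1) * (u ^ r * (1 / (X : ℝ))) := by gcongr
          _ = _ := by ring
      rw [sub_div] at p1' p2'
      push_cast
      have c1 : (X : ℝ) + 1 + 1 = X + 2 := by ring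
      rw [c1]
      have c2 : u ^ r / ((X : ℝ) + 2) = u ^ r * (1 / ((X : ℝ) + 2)) := by ring
      rw [c2]
      constructor
      · have c3 : v ^ r * (1 - 1 / ((X : ℝ) + 1)) ≤ u ^ r * (1 - 1 / ((X : ℝ) + 2)) := by
          apply mul_le_mul hvu _ _ hur
          · have : 1 / ((X : ℝ) + 2) ≤ 1 / ((X : ℝ) + 1) := one_div_le_one_div_of_le (by positivity) (by linarith)
            linarith
          · have : 1 / ((X : ℝ) + 1) ≤ 1 := by rw [div_le_one (by positivity)]; linarith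
            linarith
        have c4 : v ^ r * (1 - 1 / ((X : ℝ) + 1)) = v ^ r - v ^ r * (1 / ((X : ℝ) + 1)) := by ring
        have c5 : u ^ r * (1 - 1 / ((X : ℝ) + 2)) = u ^ r - u ^ r * (1 / ((X : ℝ) + 2)) := by ring
        linarith
      · have c0 : 0 ≤ 3 / 2 - 1 / (X : ℝ) - 1 / ((X : ℝ) + 1) := by
          have b1 : (1 : ℝ) ≤ X := by exact_mod_cast hX
          have b2 : 1 / (X : ℝ) ≤ 1 := by rw [div_le_one hX0]; exact b1
          have b3 : 1 / ((X : ℝ) + 1) ≤ 1 / 2 := one_div_le_one_div_of_le (by norm_num) (by linarith)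
          linarith
        have c3 : v ^ r * (3 / 2 - 1 / (X : ℝ) - 1 / ((X : ℝ) + 1)) ≤ u ^ r * (3 / 2 - 1 / (X : ℝ) - 1 / ((X : ℝ) + 1)) :=
          mul_le_mul_of_nonneg_right hvu c0
        have c4 : u ^ r * (3 / 2 - 1 / ((X : ℝ) + 1) - 1 / ((X : ℝ) + 2)) =
            u ^ r * (3 / 2 - 1 / (X : ℝ) - 1 / ((X : ℝ) + 1)) + u ^ r * (1 / (X : ℝ)) - u ^ r * (1 / ((X : ℝ) + 2)) := by ring
        linarith
  obtain ⟨h1, h2⟩ := key
  have hv : 0 ≤ Real.log X := Real.log_natCast_nonneg X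
  have hvr : 0 ≤ Real.log X ^ r := by positivity
  have hX0 : (0 : ℝ) < X := by exact_mod_cast hX
  have c3 : Real.log X ^ r * (3 / 2 - 1 / (X : ℝ) - 1 / ((X : ℝ) + 1)) ≤ Real.log X ^ r * 2 := by
    apply mul_le_mul_of_nonneg_left _ hvr
    have b1 : 0 < 1 / (X : ℝ) := by positivity
    have b2 : 0 < 1 / ((X : ℝ) + 1) := by positivity
    linarith
  rw [abs_le]
  constructor <;> linarith

end Pool.Agent.TH935.DS
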