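import Pool.Agent.TH935.DS12

set_option autoImplicit false

/-! Mean values of the divisor functions over multiples: the leading term. -/

namespace Pool.Agent.TH935.DS
open Finset
open Pool.Agent.W93.LV (dir harm log1_nonneg)

lemma totient_sum_real (g : ℕ) : ∑ e ∈ g.divisors, (Nat.totient e : ℝ) = g := by
  rw [← Nat.cast_sum, Nat.sum_totient]

lemma PP_nonneg (r g X : ℕ) : 0 ≤ PP r g X := by
  unfold PP
  apply mul_nonneg (by positivity)
  exact sum_nonneg fun e _ => mul_nonneg (Nat.cast_nonneg _) (AA_nonneg r e X)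

lemma PP_approx (r g X : ℕ) (hg : 1 ≤ g) (η : ℝ)
    (hA : ∀ e ∈ g.divisors, |AA r e X - gam r e * (Real.log X ^ r / (r.factorial : ℝ))| ≤ η) :
    |PP r g X - gam (r + 1) g * (Real.log X ^ r / (r.factorial : ℝ))| ≤ η := by
  have hg0 : (0 : ℝ) < g := by exact_mod_cast hg
  unfold PP
  have h1 : gam (r + 1) g = (1 / (g : ℝ)) * ∑ e ∈ g.divisors, (Nat.totient e : ℝ) * gam r e := rfl
  rw [h1, mul_assoc, ← mul_sub, sum_mul, ← sum_sub_distrib, abs_mul, abs_of_pos (by positivity : (0 : ℝ) < 1 / (g : ℝ))]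
  have h2 : |∑ e ∈ g.divisors, ((Nat.totient e : ℝ) * AA r e X - (Nat.totient e : ℝ) * gam r e * (Real.log X ^ r / (r.factorial : ℝ)))| ≤ g * η := by
    refine (abs_sum_le_sum_abs _ _).trans ?_
    have h3 : ∀ e ∈ g.divisors, |(Nat.totient e : ℝ) * AA r e X - (Nat.totient e : ℝ) * gam r e * (Real.log X ^ r / (r.factorial : ℝ))| ≤
        (Nat.totient e : ℝ) * η := by
      intro e he
      rw [mul_assoc, ← mul_sub, abs_mul, abs_of_nonneg (Nat.cast_nonneg _)]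
      exact mul_le_mul_of_nonneg_left (hA e he) (Nat.cast_nonneg _)
    refine (sum_le_sum h3).trans (le_of_eq ?_)
    rw [← sum_mul, totient_sum_real]
  calc 1 / (g : ℝ) * |∑ e ∈ g.divisors, ((Nat.totient e : ℝ) * AA r e X - (Nat.totient e : ℝ) * gam r e * (Real.log X ^ r / (r.factorial : ℝ)))| ≤
      1 / (g : ℝ) * (g * η) := mul_le_mul_of_nonneg_left h2 (by positivity)
    _ = η := by field_simp

lemma sum_inv_succ (X : ℕ) : ∑ k ∈ Icc 1 X, 1 / ((k : ℝ) + 1) ≤ 1 + Real.log X := by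
  refine le_trans ?_ (harm X)
  apply sum_le_sum
  intro k hk
  have : (0 : ℝ) < k := by exact_mod_cast (mem_Icc.1 hk).1
  exact one_div_le_one_div_of_le this (by linarith)

lemma log_mono0 {n X : ℕ} (h : n ≤ X) : Real.log n ≤ Real.log X := by
  have := log_mono1 h
  linarith

/-- one step of the recursion -/
lemma A_step (r g X : ℕ) (hg : 1 ≤ g) (hX : 1 ≤ X) (η : ℝ)
    (hA : ∀ k ∈ Icc 1 X, ∀ e ∈ g.divisors, |AA r e k - gam r e * (Real.log k ^ r / (r.factorial : ℝ))| ≤ η) :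
    |AA (r + 1) g X - gam (r + 1) g * (Real.log X ^ (r + 1) / ((r + 1).factorial : ℝ))| ≤
      (1 + 3 * gam (r + 1) g) * (1 + Real.log X) ^ r + 2 * η * (1 + Real.log X) := by
  obtain ⟨c, hc⟩ : ∃ c, c = gam (r + 1) g := ⟨_, rfl⟩
  have hc0 : 0 ≤ c := by rw [hc]; exact gam_nonneg _ _
  obtain ⟨f, hf⟩ : ∃ f, f = (r.factorial : ℝ) := ⟨_, rfl⟩
  have hf1 : 1 ≤ f := by rw [hf]; exact_mod_cast Nat.one_le_iff_ne_zero.2 (Nat.factorial_ne_zero r)
  have hf0 : 0 < f := by linarith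
  have hP : ∀ k ∈ Icc 1 X, |PP r g k - c * (Real.log k ^ r / f)| ≤ η := by
    intro k hk
    rw [hc, hf]
    exact PP_approx r g k hg η (hA k hk)
  have hη : 0 ≤ η := (abs_nonneg _).trans (hP X (by rw [mem_Icc]; omega))
  rw [← hc]
  obtain ⟨ℓ, hℓ⟩ : ∃ ℓ, ℓ = Real.log (X : ℝ) := ⟨_, rfl⟩
  have hℓ0 : 0 ≤ ℓ := by rw [hℓ]; exact Real.log_natCast_nonneg X
  have hX0 : (0 : ℝ) < X := by exact_mod_cast hX
  -- Abel summation
  have h1 : AA (r + 1) g X = TT (r + 1) g X / ((X : ℝ) + 1) + ∑ k ∈ Icc 1 X, TT (r + 1) g k / ((k : ℝ) * (k + 1)) := by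
    have e := abel_log (fun n => if g ∣ n then (dk (r + 1) n : ℝ) else 0) X
    unfold AA TT
    rw [sum_filter]
    simp only [sum_filter]
    rw [← e]
    apply sum_congr rfl
    intro n _
    split_ifs <;> simp
  have h2 : ∑ a ∈ Icc 1 X, (dk r a : ℝ) / a = (∑ a ∈ Icc 1 X, (dk r a : ℝ)) / ((X : ℝ) + 1) +
      ∑ k ∈ Icc 1 X, (∑ a ∈ Icc 1 k, (dk r a : ℝ)) / ((k : ℝ) * (k + 1)) := abel_log (fun a => (dk r a : ℝ)) X
  have h3 : |AA (r + 1) g X - (X * PP r g X / ((X : ℝ) + 1) + ∑ k ∈ Icc 1 X, PP r g k / ((k : ℝ) + 1))| ≤ (1 + ℓ) ^ r := by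
    rw [h1]
    have e1 : TT (r + 1) g X / ((X : ℝ) + 1) + ∑ k ∈ Icc 1 X, TT (r + 1) g k / ((k : ℝ) * (k + 1)) -
        (X * PP r g X / ((X : ℝ) + 1) + ∑ k ∈ Icc 1 X, PP r g k / ((k : ℝ) + 1)) =
        (TT (r + 1) g X - X * PP r g X) / ((X : ℝ) + 1) + ∑ k ∈ Icc 1 X, (TT (r + 1) g k - k * PP r g k) / ((k : ℝ) * (k + 1)) := by
      have e2 : ∑ k ∈ Icc 1 X, (TT (r + 1) g k - k * PP r g k) / ((k : ℝ) * (k + 1)) =
          ∑ k ∈ Icc 1 X, TT (r + 1) g k / ((k : ℝ) * (k + 1)) - ∑ k ∈ Icc 1 X, PP r g k / ((k : ℝ) + 1) := by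
        rw [← sum_sub_distrib]
        apply sum_congr rfl
        intro k hk
        have : (0 : ℝ) < k := by exact_mod_cast (mem_Icc.1 hk).1
        field_simp
      rw [e2, sub_div]
      ring
    rw [e1]
    refine (abs_add_le _ _).trans ?_
    have e3 : |(TT (r + 1) g X - X * PP r g X) / ((X : ℝ) + 1)| ≤ (∑ a ∈ Icc 1 X, (dk r a : ℝ)) / ((X : ℝ) + 1) := by
      rw [abs_div, abs_of_pos (by positivity : (0 : ℝ) < (X : ℝ) + 1)]
      exact div_le_div_of_nonneg_right (TT_approx r g X hg) (by positivity)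
    have e4 : |∑ k ∈ Icc 1 X, (TT (r + 1) g k - k * PP r g k) / ((k : ℝ) * (k + 1))| ≤
        ∑ k ∈ Icc 1 X, (∑ a ∈ Icc 1 k, (dk r a : ℝ)) / ((k : ℝ) * (k + 1)) := by
      refine (abs_sum_le_sum_abs _ _).trans (sum_le_sum fun k hk => ?_)
      have hk0 : (0 : ℝ) < k := by exact_mod_cast (mem_Icc.1 hk).1
      rw [abs_div, abs_of_pos (by positivity : (0 : ℝ) < (k : ℝ) * (k + 1))]
      exact div_le_div_of_nonneg_right (TT_approx r g k hg) (by positivity)
    refine (add_le_add e3 e4).trans ?_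
    rw [← h2, hℓ]
    exact AA_le r X
  -- the main term
  have h4 : |X * PP r g X / ((X : ℝ) + 1)| ≤ c * ℓ ^ r + η := by
    have e1 := abs_le.1 (hP X (by rw [mem_Icc]; omega))
    rw [← hℓ] at e1
    have e2 : 0 ≤ PP r g X := PP_nonneg r g X
    have e3 : ℓ ^ r / f ≤ ℓ ^ r := div_le_self (by positivity) hf1
    have e4 : c * (ℓ ^ r / f) ≤ c * ℓ ^ r := mul_le_mul_of_nonneg_left e3 hc0
    rw [abs_of_nonneg (by positivity), div_le_iff₀ (by positivity)]
    have e5 : PP r g X ≤ c * ℓ ^ r + η := by linarith [e1.2]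
    have e6 : 0 ≤ c * ℓ ^ r + η := e2.trans e5
    nlinarith
  have h5 : |∑ k ∈ Icc 1 X, PP r g k / ((k : ℝ) + 1) - c / f * ∑ k ∈ Icc 1 X, Real.log k ^ r / ((k : ℝ) + 1)| ≤ η * (1 + ℓ) := by
    rw [mul_sum, ← sum_sub_distrib]
    refine (abs_sum_le_sum_abs _ _).trans ?_
    have e1 : ∀ k ∈ Icc 1 X, |PP r g k / ((k : ℝ) + 1) - c / f * (Real.log k ^ r / ((k : ℝ) + 1))| ≤ η * (1 / ((k : ℝ) + 1)) := by
      intro k hk
      have e2 : PP r g k / ((k : ℝ) + 1) - c / f * (Real.log k ^ r / ((k : ℝ) + 1)) =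
          (PP r g k - c * (Real.log k ^ r / f)) * (1 / ((k : ℝ) + 1)) := by
        ring
      rw [e2, abs_mul, abs_of_pos (by positivity : (0 : ℝ) < 1 / ((k : ℝ) + 1))]
      exact mul_le_mul_of_nonneg_right (hP k hk) (by positivity)
    refine (sum_le_sum e1).trans ?_
    rw [← mul_sum, hℓ]
    exact mul_le_mul_of_nonneg_left (sum_inv_succ X) hη
  have h6 := log_sum r X hX
  rw [← hℓ] at h6
  have h7 : |c / f * ∑ k ∈ Icc 1 X, Real.log k ^ r / ((k : ℝ) + 1) - c * (ℓ ^ (r + 1) / ((r + 1).factorial : ℝ))| ≤ 2 * c * ℓ ^ r := by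
    have e1 : c / f * ∑ k ∈ Icc 1 X, Real.log k ^ r / ((k : ℝ) + 1) - c * (ℓ ^ (r + 1) / ((r + 1).factorial : ℝ)) =
        c / f * (∑ k ∈ Icc 1 X, Real.log k ^ r / ((k : ℝ) + 1) - ℓ ^ (r + 1) / ((r : ℝ) + 1)) := by
      rw [Nat.factorial_succ]
      push_cast
      rw [← hf]
      field_simp
    rw [e1, abs_mul, abs_of_nonneg (by positivity)]
    calc c / f * |∑ k ∈ Icc 1 X, Real.log k ^ r / ((k : ℝ) + 1) - ℓ ^ (r + 1) / ((r : ℝ) + 1)| ≤ c / f * (2 * ℓ ^ r) :=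
          mul_le_mul_of_nonneg_left h6 (by positivity)
      _ ≤ c * (2 * ℓ ^ r) := by
          apply mul_le_mul_of_nonneg_right _ (by positivity)
          exact div_le_self hc0 hf1
      _ = _ := by ring
  have h8 : ℓ ^ r ≤ (1 + ℓ) ^ r := pow_le_pow_left₀ hℓ0 (by linarith) r
  rw [← hℓ]
  have h9 : c * ℓ ^ r ≤ c * (1 + ℓ) ^ r := mul_le_mul_of_nonneg_left h8 hc0
  have h10 : η ≤ η * (1 + ℓ) := by nlinarith
  rw [abs_le] at h3 h4 h5 h7 ⊢
  constructor <;> nlinarith [h3.1, h3.2, h4.1, h4.2, h5.1, h5.2, h7.1, h7.2]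

/-- the leading term of the logarithmic sums -/
theorem A_asym (r e : ℕ) (hr : 1 ≤ r) (he : 1 ≤ e) : ∃ K : ℝ, 0 ≤ K ∧ ∀ X : ℕ, 1 ≤ X →
    |AA r e X - gam r e * (Real.log X ^ r / (r.factorial : ℝ))| ≤ K * (1 + Real.log X) ^ (r - 1) := by
  induction r, hr using Nat.le_induction generalizing e with
  | base =>
    refine ⟨1 + 3 * gam 1 e, by have := gam_nonneg 1 e; positivity, fun X hX => ?_⟩
    have h1 := A_step 0 e X he hX 0 (by
      intro k hk d hd
      have hk1 := (mem_Icc.1 hk).1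
      have hd1 : 1 ≤ d := Nat.pos_of_mem_divisors hd
      have h2 : AA 0 d k = gam 0 d := by
        unfold AA gam
        have h3 : ∀ a ∈ (Icc 1 k).filter (fun a => d ∣ a), (dk 0 a : ℝ) / a = if a = 1 then 1 else 0 := by
          intro a _
          unfold dk
          rw [pow_zero, ArithmeticFunction.one_apply]
          split_ifs with h2
          · subst h2; simp
          · simp
        rw [sum_congr rfl h3, sum_ite_eq']
        by_cases h4 : d = 1
        · rw [if_pos h4, if_pos]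
          rw [mem_filter, mem_Icc, h4]
          exact ⟨⟨le_rfl, hk1⟩, one_dvd _⟩
        · rw [if_neg h4, if_neg]
          intro h5
          rw [mem_filter] at h5
          exact h4 (Nat.dvd_one.1 h5.2)
      rw [h2]
      simp)
    simpa using h1
  | succ r hr ih =>
    choose! K hK using ih
    refine ⟨(1 + 3 * gam (r + 1) e) + 2 * ∑ d ∈ e.divisors, K d, ?_, fun X hX => ?_⟩
    · have h1 := gam_nonneg (r + 1) e
      have h2 : 0 ≤ ∑ d ∈ e.divisors, K d := sum_nonneg fun d hd => (hK d (Nat.pos_of_mem_divisors hd)).1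
      positivity
    · have hℓ0 : 0 ≤ Real.log X := Real.log_natCast_nonneg X
      have h1 := A_step r e X he hX ((∑ d ∈ e.divisors, K d) * (1 + Real.log X) ^ (r - 1)) (by
        intro k hk d hd
        rw [mem_Icc] at hk
        have hd1 : 1 ≤ d := Nat.pos_of_mem_divisors hd
        refine ((hK d hd1).2 k hk.1).trans ?_
        apply mul_le_mul
        · exact single_le_sum (f := K) (fun d hd => (hK d (Nat.pos_of_mem_divisors hd)).1) hd
        · exact pow_le_pow_left₀ (log1_nonneg k) (log_mono1 hk.2) _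
        · exact pow_nonneg (log1_nonneg k) _
        · exact sum_nonneg fun d hd => (hK d (Nat.pos_of_mem_divisors hd)).1)
      refine h1.trans (le_of_eq ?_)
      rw [Nat.add_sub_cancel]
      have h2 : (1 + Real.log X) ^ r = (1 + Real.log X) ^ (r - 1) * (1 + Real.log X) := by
        rw [← pow_succ]
        congr 1
        omega
      rw [h2]
      ring

/-- sums of the divisor function -/
lemma D_le (r X : ℕ) (hr : 1 ≤ r) : ∑ a ∈ Icc 1 X, (dk r a : ℝ) ≤ X * (1 + Real.log X) ^ (r - 1) := by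
  obtain ⟨j, rfl⟩ : ∃ j, r = j + 1 := ⟨r - 1, by omega⟩
  have e1 := dir X (fun d _ => (dk j d : ℝ))
  have e2 : ∀ n ∈ Icc 1 X, (dk (j + 1) n : ℝ) = ∑ d ∈ n.divisors, (dk j d : ℝ) := by
    intro n _
    rw [dk_succ]
    push_cast
    rfl
  rw [sum_congr rfl e2, e1]
  have e3 : ∀ d ∈ Icc 1 X, ∑ m ∈ Icc 1 (X / d), (dk j d : ℝ) ≤ X * ((dk j d : ℝ) / d) := by
    intro d _
    rw [sum_const, nsmul_eq_mul, Nat.card_Icc, Nat.add_sub_cancel]
    have h1 : ((X / d : ℕ) : ℝ) ≤ X / d := Nat.cast_div_le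
    calc ((X / d : ℕ) : ℝ) * (dk j d : ℝ) ≤ (X / d : ℝ) * (dk j d : ℝ) := mul_le_mul_of_nonneg_right h1 (Nat.cast_nonneg _)
      _ = _ := by ring
  refine (sum_le_sum e3).trans ?_
  rw [← mul_sum, Nat.add_sub_cancel]
  exact mul_le_mul_of_nonneg_left (AA_le j X) (Nat.cast_nonneg _)

/-- the mean value of the divisor function twisted by a Ramanujan sum -/
lemma ram_mean (j q y : ℕ) (hj : 1 ≤ j) (hq : 1 ≤ q) :
    |∑ n ∈ Icc 1 y, (dk (j + 1) n : ℝ) * (ram q n : ℝ) - y * ((Nat.totient q : ℝ) * AA j q y)| ≤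
      (∑ g ∈ q.divisors, (g : ℝ)) * (y * (1 + Real.log y) ^ (j - 1)) := by
  have h1 : ∑ n ∈ Icc 1 y, (dk (j + 1) n : ℝ) * (ram q n : ℝ) =
      ∑ g ∈ q.divisors, (g : ℝ) * ((ArithmeticFunction.moebius (q / g) : ℤ) : ℝ) * TT (j + 1) g y := by
    unfold TT
    have e1 : ∀ n ∈ Icc 1 y, (dk (j + 1) n : ℝ) * (ram q n : ℝ) =
        ∑ g ∈ q.divisors, if g ∣ n then (g : ℝ) * ((ArithmeticFunction.moebius (q / g) : ℤ) : ℝ) * (dk (j + 1) n : ℝ) else 0 := by
      intro n _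
      unfold ram
      have h4 : (Nat.gcd q n).divisors = q.divisors.filter (fun g => g ∣ n) := by
        ext g
        rw [mem_filter, Nat.mem_divisors, Nat.mem_divisors, Nat.dvd_gcd_iff]
        have : Nat.gcd q n ≠ 0 := Nat.gcd_ne_zero_left (by omega)
        constructor
        · rintro ⟨⟨h1, h2⟩, _⟩
          exact ⟨⟨h1, by omega⟩, h2⟩
        · rintro ⟨⟨h1, h2⟩, h3⟩
          exact ⟨⟨h1, h3⟩, this⟩
      rw [h4, ← sum_filter]
      push_cast
      rw [mul_sum]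
      apply sum_congr rfl
      intro g _
      ring
    rw [sum_congr rfl e1, sum_comm]
    apply sum_congr rfl
    intro g _
    rw [← sum_filter, ← mul_sum]
  have h2 : (y : ℝ) * ((Nat.totient q : ℝ) * AA j q y) =
      ∑ g ∈ q.divisors, (g : ℝ) * ((ArithmeticFunction.moebius (q / g) : ℤ) : ℝ) * (y * PP j g y) := by
    have e1 := (ArithmeticFunction.sum_eq_iff_sum_mul_moebius_eq (R := ℝ) (f := fun e => (Nat.totient e : ℝ) * AA j e y)
      (g := fun n => ∑ e ∈ n.divisors, (Nat.totient e : ℝ) * AA j e y)).1 (fun n _ => rfl) q hq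
    rw [Nat.sum_divisorsAntidiagonal' (f := fun a b => ((ArithmeticFunction.moebius a : ℤ) : ℝ) *
      ∑ e ∈ b.divisors, (Nat.totient e : ℝ) * AA j e y)] at e1
    rw [← e1, mul_sum]
    apply sum_congr rfl
    intro g hg
    have hg0 : (0 : ℝ) < g := by exact_mod_cast Nat.pos_of_mem_divisors hg
    unfold PP
    field_simp
  rw [h1, h2, ← sum_sub_distrib, sum_mul]
  refine (abs_sum_le_sum_abs _ _).trans (sum_le_sum fun g hg => ?_)
  have hg1 : 1 ≤ g := Nat.pos_of_mem_divisors hg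
  rw [← mul_sub, abs_mul, abs_mul, abs_of_nonneg (Nat.cast_nonneg g)]
  have e1 : |((ArithmeticFunction.moebius (q / g) : ℤ) : ℝ)| ≤ 1 := by
    exact_mod_cast ArithmeticFunction.abs_moebius_le_one
  have e2 := (TT_approx j g y hg1).trans (D_le j y hj)
  calc (g : ℝ) * |((ArithmeticFunction.moebius (q / g) : ℤ) : ℝ)| * |TT (j + 1) g y - y * PP j g y| ≤
      (g : ℝ) * 1 * (y * (1 + Real.log y) ^ (j - 1)) := by gcongr
    _ = _ := by ring

end Pool.Agent.TH935.DS
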