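import Pool.Agent.TH935.DS11
import Pool.Agent.TH935.DS13

set_option autoImplicit false

/-! The size of the coefficients of the model. -/

namespace Pool.Agent.TH935.DS
open Finset
open Pool.Agent.W93.LV (harm log1_nonneg)
open Pool.Agent.H373R2.T7 (ev_L')

lemma pow_diff' (j : ℕ) (hj : 1 ≤ j) {u v : ℝ} (hv : 0 ≤ v) (h : v ≤ u) : u ^ j - v ^ j ≤ (j : ℝ) * (u ^ (j - 1) * (u - v)) := by
  obtain ⟨i, rfl⟩ : ∃ i, j = i + 1 := ⟨j - 1, by omega⟩
  have := (pow_diff i hv h).2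
  rw [Nat.add_sub_cancel]
  push_cast
  exact this

/-- replacing the logarithm of the length -/
lemma log_replace (j κ : ℕ) (hj : 1 ≤ j) (hκ : 1 ≤ κ) : ∃ K : ℝ, 0 ≤ K ∧ ∃ N0 : ℕ, ∀ N : ℕ, N0 ≤ N → ∀ y : ℕ, 1 ≤ y → y ≤ κ * N →
    (y : ℝ) * |Real.log y ^ j - Real.log N ^ j| ≤ K * (N * Real.log N ^ (j - 1)) := by
  have hlκ : 0 ≤ Real.log κ := Real.log_natCast_nonneg κ
  refine ⟨j + j * 2 ^ (j - 1) * κ * Real.log κ, by positivity, ?_⟩
  obtain ⟨N1, h1⟩ := ev_L' (1 + Real.log κ)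
  refine ⟨N1 + 1, fun N hN y hy1 hy2 => ?_⟩
  have hW := h1 N (by omega)
  obtain ⟨W, hWd⟩ : ∃ W, W = Real.log (N : ℝ) := ⟨_, rfl⟩
  rw [← hWd] at hW ⊢
  have hW1 : 1 ≤ W := by linarith
  have hN0 : (0 : ℝ) < N := by exact_mod_cast (by omega : 0 < N)
  have hy0 : (0 : ℝ) < y := by exact_mod_cast hy1
  have hly : 0 ≤ Real.log y := Real.log_natCast_nonneg y
  have hj0 : (0 : ℝ) ≤ j := Nat.cast_nonneg _
  rcases le_or_gt y N with h | h
  · have hyN : Real.log y ≤ W := by rw [hWd]; exact log_mono0 h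
    have e1 : Real.log y ^ j ≤ W ^ j := pow_le_pow_left₀ hly hyN j
    rw [abs_sub_comm, abs_of_nonneg (by linarith)]
    have e2 := pow_diff' j hj hly hyN
    have e3 : (y : ℝ) * (W - Real.log y) ≤ N := by
      rw [hWd, ← Real.log_div hN0.ne' hy0.ne']
      have e4 := Real.log_le_sub_one_of_pos (show 0 < (N : ℝ) / y by positivity)
      calc (y : ℝ) * Real.log (N / y) ≤ y * (N / y - 1) := mul_le_mul_of_nonneg_left e4 hy0.le
        _ = N - y := by field_simp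
        _ ≤ N := by linarith
    have e5 : 0 ≤ (j : ℝ) * 2 ^ (j - 1) * κ * Real.log κ := by positivity
    calc (y : ℝ) * (W ^ j - Real.log y ^ j) ≤ y * (j * (W ^ (j - 1) * (W - Real.log y))) := mul_le_mul_of_nonneg_left e2 hy0.le
      _ = j * W ^ (j - 1) * (y * (W - Real.log y)) := by ring
      _ ≤ j * W ^ (j - 1) * N := mul_le_mul_of_nonneg_left e3 (by positivity)
      _ = j * (N * W ^ (j - 1)) := by ring
      _ ≤ _ := by
          apply mul_le_mul_of_nonneg_right _ (by positivity)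
          linarith
  · have hyN : W ≤ Real.log y := by rw [hWd]; exact log_mono0 h.le
    have hyK : Real.log y ≤ W + Real.log κ := by
      have e1 := log_mono0 hy2
      push_cast at e1
      rw [Real.log_mul (by exact_mod_cast (by omega : κ ≠ 0)) hN0.ne', ← hWd] at e1
      linarith
    have e1 : W ^ j ≤ Real.log y ^ j := pow_le_pow_left₀ (by linarith) hyN j
    rw [abs_of_nonneg (by linarith)]
    have e2 := pow_diff' j hj (by linarith : 0 ≤ W) hyN
    have e3 : Real.log y ^ (j - 1) ≤ (2 * W) ^ (j - 1) := pow_le_pow_left₀ hly (by linarith) _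
    have e4 : Real.log y - W ≤ Real.log κ := by linarith
    have hyr : (y : ℝ) ≤ κ * N := by exact_mod_cast hy2
    calc (y : ℝ) * (Real.log y ^ j - W ^ j) ≤ (κ * N) * (j * ((2 * W) ^ (j - 1) * Real.log κ)) := by
          apply mul_le_mul hyr _ (by linarith) (by positivity)
          refine e2.trans ?_
          apply mul_le_mul_of_nonneg_left _ hj0
          apply mul_le_mul e3 e4 (by linarith) (by positivity)
      _ = (j * 2 ^ (j - 1) * κ * Real.log κ) * (N * W ^ (j - 1)) := by rw [mul_pow]; ring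
      _ ≤ _ := by
          apply mul_le_mul_of_nonneg_right _ (by positivity)
          linarith

/-- the sums of the coefficients -/
theorem F_asym (j κ q B' : ℕ) (hj : 1 ≤ j) (hκ : 1 ≤ κ) (hq : 1 ≤ q) (hB' : 1 ≤ B') :
    ∃ K : ℝ, 0 ≤ K ∧ ∃ N0 : ℕ, ∀ N : ℕ, N0 ≤ N → ∀ Y z : ℕ, Par (j + 1) B' N Y z → q ≤ z ∧ ∀ y : ℕ, y ≤ κ * N →
    |∑ n ∈ Icc 1 y, ww (j + 1) Y q n - y * (gam j q / (j.factorial : ℝ) * Real.log N ^ j)| ≤ K * (N * Real.log N ^ (j - 1)) := by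
  obtain ⟨N1, h1⟩ := Fq_N (j + 1) κ q B' (by omega) hκ hq hB'
  obtain ⟨K2, hK2, h2⟩ := A_asym j q hj hq
  obtain ⟨K3, hK3, N3, h3⟩ := log_replace j κ hj hκ
  obtain ⟨N4, h4⟩ := ev_L' (1 + Real.log κ)
  have hlκ : 0 ≤ Real.log κ := Real.log_natCast_nonneg κ
  obtain ⟨σ, hσ⟩ : ∃ σ, σ = ∑ g ∈ q.divisors, (g : ℝ) := ⟨_, rfl⟩
  have hσ0 : 0 ≤ σ := by rw [hσ]; exact sum_nonneg fun _ _ => Nat.cast_nonneg _
  obtain ⟨f, hf⟩ : ∃ f, f = (j.factorial : ℝ) := ⟨_, rfl⟩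
  have hf1 : 1 ≤ f := by rw [hf]; exact_mod_cast Nat.one_le_iff_ne_zero.2 (Nat.factorial_ne_zero j)
  have hf0 : 0 < f := by linarith
  have hg0 := gam_nonneg j q
  refine ⟨1 + (σ + K2) * (κ * 2 ^ (j - 1)) + gam j q * K3, by positivity, N1 + N3 + N4 + 1, fun N hN Y z hpar => ?_⟩
  obtain ⟨hqz, h5⟩ := h1 N (by omega) Y z hpar
  refine ⟨hqz, fun y hy => ?_⟩
  have hW := h4 N (by omega)
  obtain ⟨W, hWd⟩ : ∃ W, W = Real.log (N : ℝ) := ⟨_, rfl⟩
  have hN0 : (0 : ℝ) < N := by exact_mod_cast (by omega : 0 < N)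
  rcases Nat.eq_zero_or_pos y with hy0 | hy0
  · subst hy0
    simp only [Icc_eq_empty_of_lt Nat.zero_lt_one, sum_empty, Nat.cast_zero, zero_mul, sub_zero, abs_zero]
    rw [← hWd] at hW ⊢
    have : 0 ≤ W := by linarith
    positivity
  have e5 := h5 y hy
  have e2 := h2 y hy0
  have e3 := h3 N (by omega) y hy0 hy
  rw [← hWd] at hW e3 ⊢
  rw [← hf] at e2 ⊢
  have hW1 : 1 ≤ W := by linarith
  have hy0r : (0 : ℝ) < y := by exact_mod_cast hy0
  have hyr : (y : ℝ) ≤ κ * N := by exact_mod_cast hy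
  have e6 := ram_mean j q y hj hq
  rw [← hσ] at e6
  have hφ0 : (0 : ℝ) < Nat.totient q := by exact_mod_cast Nat.totient_pos.2 hq
  have hφ1 : (1 : ℝ) ≤ Nat.totient q := by exact_mod_cast Nat.totient_pos.2 hq
  have hlog : 1 + Real.log y ≤ 2 * W := by
    have e1 := log_mono0 hy
    push_cast at e1
    rw [Real.log_mul (by exact_mod_cast (by omega : κ ≠ 0)) hN0.ne', ← hWd] at e1
    linarith
  have hlogp : (1 + Real.log y) ^ (j - 1) ≤ 2 ^ (j - 1) * W ^ (j - 1) := by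
    rw [← mul_pow]
    exact pow_le_pow_left₀ (log1_nonneg y) hlog _
  obtain ⟨P, hP⟩ : ∃ P, P = (1 + Real.log y) ^ (j - 1) := ⟨_, rfl⟩
  have hP0 : 0 ≤ P := by rw [hP]; exact pow_nonneg (log1_nonneg y) _
  rw [← hP] at e2 e6 hlogp
  -- combine
  obtain ⟨S, hS⟩ : ∃ S, S = ∑ n ∈ Icc 1 y, ww (j + 1) Y q n := ⟨_, rfl⟩
  rw [← hS] at e5 ⊢
  have c1 : (Nat.totient q : ℝ) * |S - y * AA j q y| ≤ N + σ * (y * P) := by
    have c2 : (Nat.totient q : ℝ) * |S - y * AA j q y| = |(Nat.totient q : ℝ) * S - y * ((Nat.totient q : ℝ) * AA j q y)| := by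
      rw [← abs_of_pos hφ0, ← abs_mul, abs_of_pos hφ0]
      congr 1
      ring
    rw [c2]
    rw [abs_le] at e5 e6 ⊢
    constructor <;> linarith [e5.1, e5.2, e6.1, e6.2]
  have c2 : |S - y * AA j q y| ≤ N + σ * (y * P) := by
    refine le_trans ?_ c1
    have := abs_nonneg (S - y * AA j q y)
    nlinarith
  have c3 : |y * AA j q y - y * (gam j q * (Real.log y ^ j / f))| ≤ y * (K2 * P) := by
    rw [← mul_sub, abs_mul, abs_of_pos hy0r]
    exact mul_le_mul_of_nonneg_left e2 hy0r.le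
  have c4 : |y * (gam j q * (Real.log y ^ j / f)) - y * (gam j q / f * W ^ j)| ≤ gam j q * (K3 * (N * W ^ (j - 1))) := by
    have c5 : y * (gam j q * (Real.log y ^ j / f)) - y * (gam j q / f * W ^ j) = gam j q / f * (y * (Real.log y ^ j - W ^ j)) := by ring
    rw [c5, abs_mul, abs_mul, abs_of_nonneg (by positivity : 0 ≤ gam j q / f), abs_of_pos hy0r]
    apply mul_le_mul _ e3 (by positivity) hg0
    exact div_le_self hg0 hf1
  have c6 : y * P ≤ (κ * 2 ^ (j - 1)) * (N * W ^ (j - 1)) := by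
    calc y * P ≤ (κ * N) * (2 ^ (j - 1) * W ^ (j - 1)) := mul_le_mul hyr hlogp hP0 (by positivity)
      _ = _ := by ring
  have c7 : (N : ℝ) ≤ N * W ^ (j - 1) := le_mul_of_one_le_right hN0.le (one_le_pow₀ hW1)
  have c8 : |S - y * (gam j q / f * W ^ j)| ≤ |S - y * AA j q y| + |y * AA j q y - y * (gam j q * (Real.log y ^ j / f))| +
      |y * (gam j q * (Real.log y ^ j / f)) - y * (gam j q / f * W ^ j)| := by
    have := abs_add_three (S - y * AA j q y) (y * AA j q y - y * (gam j q * (Real.log y ^ j / f)))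
      (y * (gam j q * (Real.log y ^ j / f)) - y * (gam j q / f * W ^ j))
    refine le_trans (le_of_eq ?_) this
    congr 1
    ring
  refine c8.trans ?_
  have c9 : σ * (y * P) ≤ σ * ((κ * 2 ^ (j - 1)) * (N * W ^ (j - 1))) := mul_le_mul_of_nonneg_left c6 hσ0
  have c10 : y * (K2 * P) ≤ K2 * ((κ * 2 ^ (j - 1)) * (N * W ^ (j - 1))) := by
    calc y * (K2 * P) = K2 * (y * P) := by ring
      _ ≤ _ := mul_le_mul_of_nonneg_left c6 hK2
  calc |S - y * AA j q y| + |y * AA j q y - y * (gam j q * (Real.log y ^ j / f))| +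
      |y * (gam j q * (Real.log y ^ j / f)) - y * (gam j q / f * W ^ j)| ≤
      (N * W ^ (j - 1) + σ * ((κ * 2 ^ (j - 1)) * (N * W ^ (j - 1)))) + K2 * ((κ * 2 ^ (j - 1)) * (N * W ^ (j - 1))) +
        gam j q * (K3 * (N * W ^ (j - 1))) := by linarith
    _ = _ := by ring

/-- the coefficients at one point -/
theorem w_asym (j κ q B' : ℕ) (hj : 1 ≤ j) (hκ : 1 ≤ κ) (hq : 1 ≤ q) (hB' : 1 ≤ B') (δ : ℝ) (hδ : 0 < δ) (hδ1 : δ ≤ 1) :
    ∃ N0 : ℕ, ∀ N : ℕ, N0 ≤ N → ∀ Y z : ℕ, Par (j + 1) B' N Y z → q ≤ z ∧ ∀ n : ℕ, δ * N ≤ n → n ≤ κ * N →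
    |ww (j + 1) Y q n - gam j q / (j.factorial : ℝ) * Real.log N ^ j| ≤ δ * Real.log N ^ j := by
  obtain ⟨K, hK, N1, h1⟩ := F_asym j (κ + 1) q B' hj (by omega) hq hB'
  obtain ⟨N2, h2⟩ := ev_L' (4 * K / δ ^ 2 + 1)
  obtain ⟨N3, h3⟩ := exists_nat_ge (2 / δ)
  refine ⟨N1 + N2 + N3 + 1, fun N hN Y z hpar => ?_⟩
  obtain ⟨hqz, h4⟩ := h1 N (by omega) Y z hpar
  refine ⟨hqz, fun n hn1 hn2 => ?_⟩
  have hW := h2 N (by omega)
  obtain ⟨W, hWd⟩ : ∃ W, W = Real.log (N : ℝ) := ⟨_, rfl⟩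
  rw [← hWd] at hW h4 ⊢
  have hN0 : (0 : ℝ) < N := by exact_mod_cast (by omega : 0 < N)
  have hK4 : 0 ≤ 4 * K / δ ^ 2 := by positivity
  have hW1 : 1 ≤ W := by linarith
  have hNδ : 2 ≤ δ * N := by
    have e1 : (N3 : ℝ) ≤ N := by exact_mod_cast (by omega : N3 ≤ N)
    have e2 := h3.trans e1
    rw [div_le_iff₀ hδ] at e2
    linarith
  obtain ⟨D, hD⟩ : ∃ D, D = ⌊δ * (N : ℝ)⌋₊ := ⟨_, rfl⟩
  have hD1 : (D : ℝ) ≤ δ * N := by rw [hD]; exact Nat.floor_le (by positivity)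
  have hD2 : δ * N / 2 ≤ D := by
    have e1 : δ * N < D + 1 := by rw [hD]; exact Nat.lt_floor_add_one _
    linarith
  have hD0 : (0 : ℝ) < D := by linarith
  have hDn : D ≤ n := by
    have : (D : ℝ) ≤ n := by linarith
    exact_mod_cast this
  have hDN : D ≤ N := by
    have : (D : ℝ) ≤ N := by nlinarith
    exact_mod_cast this
  obtain ⟨c, hc⟩ : ∃ c, c = gam j q / (j.factorial : ℝ) * W ^ j := ⟨_, rfl⟩
  rw [← hc] at h4 ⊢
  have f1 := abs_le.1 (h4 (n + D) (by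
    rw [Nat.add_mul, one_mul]
    omega))
  have f2 := abs_le.1 (h4 n (by rw [Nat.add_mul, one_mul]; omega))
  have f3 := abs_le.1 (h4 (n - D) (by rw [Nat.add_mul, one_mul]; omega))
  have hup : (D : ℝ) * ww (j + 1) Y q n ≤ ∑ m ∈ Icc 1 (n + D), ww (j + 1) Y q m - ∑ m ∈ Icc 1 n, ww (j + 1) Y q m := by
    have e1 : Icc 1 (n + D) = Icc 1 n ∪ Ioc n (n + D) := by
      ext m
      rw [mem_union, mem_Icc, mem_Icc, mem_Ioc]
      omega
    have e2 : Disjoint (Icc 1 n) (Ioc n (n + D)) := by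
      rw [disjoint_left]
      intro m hm hm'
      rw [mem_Icc] at hm
      rw [mem_Ioc] at hm'
      omega
    rw [e1, sum_union e2, add_sub_cancel_left]
    have e3 : ∀ m ∈ Ioc n (n + D), ww (j + 1) Y q n ≤ ww (j + 1) Y q m := by
      intro m hm
      rw [mem_Ioc] at hm
      exact monotone_nat_of_le_succ (fun k => ww_mono (j + 1) Y q k) hm.1.le
    have e4 := sum_le_sum e3
    rw [sum_const, Nat.card_Ioc, nsmul_eq_mul, Nat.add_sub_cancel_left] at e4
    exact e4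
  have hlow : ∑ m ∈ Icc 1 n, ww (j + 1) Y q m - ∑ m ∈ Icc 1 (n - D), ww (j + 1) Y q m ≤ (D : ℝ) * ww (j + 1) Y q n := by
    have e1 : Icc 1 n = Icc 1 (n - D) ∪ Ioc (n - D) n := by
      ext m
      rw [mem_union, mem_Icc, mem_Icc, mem_Ioc]
      omega
    have e2 : Disjoint (Icc 1 (n - D)) (Ioc (n - D) n) := by
      rw [disjoint_left]
      intro m hm hm'
      rw [mem_Icc] at hm
      rw [mem_Ioc] at hm'
      omega
    rw [e1, sum_union e2, add_sub_cancel_left]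
    have e3 : ∀ m ∈ Ioc (n - D) n, ww (j + 1) Y q m ≤ ww (j + 1) Y q n := by
      intro m hm
      rw [mem_Ioc] at hm
      exact monotone_nat_of_le_succ (fun k => ww_mono (j + 1) Y q k) hm.2
    have e4 := sum_le_sum e3
    rw [sum_const, Nat.card_Ioc, nsmul_eq_mul] at e4
    have e5 : n - (n - D) = D := by omega
    rw [e5] at e4
    exact e4
  push_cast at f1
  have hcast : ((n - D : ℕ) : ℝ) = n - D := by rw [Nat.cast_sub hDn]
  rw [hcast] at f3
  obtain ⟨E, hE⟩ : ∃ E, E = K * (N * W ^ (j - 1)) := ⟨_, rfl⟩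
  rw [← hE] at f1 f2 f3
  have hmain : |ww (j + 1) Y q n - c| ≤ 2 * E / D := by
    rw [abs_le]
    constructor
    · rw [neg_le_iff_add_nonneg, ← sub_nonneg]
      have : 0 ≤ (ww (j + 1) Y q n - c + 2 * E / D) * D := by
        have e1 : (ww (j + 1) Y q n - c + 2 * E / D) * D = D * ww (j + 1) Y q n - D * c + 2 * E := by
          field_simp
        rw [e1]
        linarith [f2.1, f3.2]
      have := nonneg_of_mul_nonneg_left this hD0
      linarith
    · rw [← sub_nonneg]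
      have : 0 ≤ (2 * E / D - (ww (j + 1) Y q n - c)) * D := by
        have e1 : (2 * E / D - (ww (j + 1) Y q n - c)) * D = 2 * E - (D * ww (j + 1) Y q n - D * c) := by
          field_simp
        rw [e1]
        linarith [f1.2, f2.1]
      have := nonneg_of_mul_nonneg_left this hD0
      linarith
  refine hmain.trans ?_
  have hE0 : 0 ≤ E := by rw [hE]; positivity
  calc 2 * E / D ≤ 2 * E / (δ * N / 2) := div_le_div_of_nonneg_left (by positivity) (by positivity) hD2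
    _ = δ * ((4 * K / δ ^ 2) * W ^ (j - 1)) := by rw [hE]; field_simp; ring
    _ ≤ δ * (W * W ^ (j - 1)) := by
        apply mul_le_mul_of_nonneg_left _ hδ.le
        apply mul_le_mul_of_nonneg_right _ (by positivity)
        linarith
    _ = δ * W ^ j := by
        rw [← pow_succ']
        congr 2
        omega

end Pool.Agent.TH935.DS
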