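import Pool.Agent.TH935.DS14

set_option autoImplicit false

/-! The sums of the products of the coefficients of the model. -/

namespace Pool.Agent.TH935.DS
open Finset
open Pool.Agent.W93.LV (harm log1_nonneg)
open Pool.Agent.H373R2.T7 (ev_L')

lemma sum_div_mul_le (F : ℕ → ℕ) (a b : ℕ) :
    ∑ d ∈ (a * b).divisors, F d ≤ ∑ x ∈ a.divisors ×ˢ b.divisors, F (x.1 * x.2) := by
  rw [Nat.divisors_mul, Finset.mul_def]
  rw [Finset.sum_comp F (fun x : ℕ × ℕ => x.1 * x.2)]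
  apply sum_le_sum
  intro d hd
  rw [mem_image] at hd
  obtain ⟨x, hx, rfl⟩ := hd
  rw [smul_eq_mul]
  apply Nat.le_mul_of_pos_left
  apply card_pos.2
  exact ⟨x, by rw [mem_filter]; exact ⟨hx, rfl⟩⟩

lemma dk_mul_le (k a b : ℕ) : dk k (a * b) ≤ dk k a * dk k b := by
  induction k generalizing a b with
  | zero =>
    unfold dk
    rw [pow_zero, ArithmeticFunction.one_apply, ArithmeticFunction.one_apply, ArithmeticFunction.one_apply]
    split_ifs with h1 h2 h3 <;> simp_all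
  | succ k ih =>
    rw [dk_succ, dk_succ, dk_succ]
    refine (sum_div_mul_le (fun d => dk k d) a b).trans ?_
    rw [sum_mul_sum, ← sum_product']
    exact sum_le_sum fun x _ => ih x.1 x.2

/-- the sharp bound for the coefficients -/
lemma ww_up (j Y q n X : ℕ) (hq : 1 ≤ q) (hn : n ≤ X) :
    ww (j + 1) Y q n ≤ ((j : ℝ) + 1) * ((q.divisors.card : ℝ) ^ j / q * (1 + Real.log X) ^ j) := by
  unfold ww
  have hq0 : (0 : ℝ) < q := by exact_mod_cast hq
  have h1 : ∀ a ∈ (Icc 1 n).filter (fun a => a * Y < n ∧ q ∣ a), (EE (j + 1) Y a : ℝ) / a ≤ ((j : ℝ) + 1) * ((dk j a : ℝ) / a) := by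
    intro a _
    rw [mul_div_assoc']
    apply div_le_div_of_nonneg_right _ (Nat.cast_nonneg _)
    have := EE_le (j + 1) Y a
    rw [Nat.add_sub_cancel] at this
    exact_mod_cast this
  refine (sum_le_sum h1).trans ?_
  rw [← mul_sum]
  apply mul_le_mul_of_nonneg_left _ (by positivity)
  refine (sum_le_sum_of_subset_of_nonneg (t := (Icc 1 n).filter (fun a => q ∣ a)) ?_ (fun a _ _ => by positivity)).trans ?_
  · intro a ha
    rw [mem_filter] at ha ⊢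
    exact ⟨ha.1, ha.2.2⟩
  rw [sum_mult q n hq (fun a => (dk j a : ℝ) / a)]
  have h2 : ∀ m ∈ Icc 1 (n / q), (dk j (q * m) : ℝ) / ((q * m : ℕ) : ℝ) ≤ (q.divisors.card : ℝ) ^ j / q * ((dk j m : ℝ) / m) := by
    intro m _
    push_cast
    rw [div_mul_div_comm]
    apply div_le_div_of_nonneg_right _ (by positivity)
    have e1 : dk j (q * m) ≤ q.divisors.card ^ j * dk j m := (dk_mul_le j q m).trans (Nat.mul_le_mul_right _ (dk_le j q))
    exact_mod_cast e1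
  refine (sum_le_sum h2).trans ?_
  rw [← mul_sum]
  apply mul_le_mul_of_nonneg_left _ (by positivity)
  exact (AA_le j _).trans (pow_le_pow_left₀ (log1_nonneg _) (log_mono1 ((Nat.div_le_self _ _).trans hn)) _)

/-- the number of the summands -/
def JJ (X : ℕ) (s : ℤ) : ℕ := ((Icc 1 X).filter (fun n : ℕ => 1 ≤ (n : ℤ) + s)).card

lemma JJ_le (X : ℕ) (s : ℤ) : JJ X s ≤ X := (card_filter_le _ _).trans (by simp)

lemma card_small (X : ℕ) (t : ℝ) (ht : 0 ≤ t) : (((Icc 1 X).filter (fun n : ℕ => (n : ℝ) < t)).card : ℝ) ≤ t := by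
  have h1 : (Icc 1 X).filter (fun n : ℕ => (n : ℝ) < t) ⊆ Icc 1 ⌊t⌋₊ := by
    intro n hn
    rw [mem_filter, mem_Icc] at hn
    rw [mem_Icc]
    exact ⟨hn.1.1, Nat.le_floor hn.2.le⟩
  have h2 := card_le_card h1
  rw [Nat.card_Icc, Nat.add_sub_cancel] at h2
  exact (by exact_mod_cast h2 : (((Icc 1 X).filter (fun n : ℕ => (n : ℝ) < t)).card : ℝ) ≤ (⌊t⌋₊ : ℝ)).trans (Nat.floor_le ht)

lemma card_small' (X : ℕ) (s : ℤ) (t : ℝ) (ht : 0 ≤ t) :
    (((Icc 1 X).filter (fun n : ℕ => 1 ≤ (n : ℤ) + s ∧ (((n : ℤ) + s).toNat : ℝ) < t)).card : ℝ) ≤ t := by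
  have h1 : ((Icc 1 X).filter (fun n : ℕ => 1 ≤ (n : ℤ) + s ∧ (((n : ℤ) + s).toNat : ℝ) < t)).card ≤ (Icc 1 ⌊t⌋₊).card := by
    apply card_le_card_of_injOn (fun n : ℕ => ((n : ℤ) + s).toNat)
    · intro n hn
      rw [mem_coe, mem_filter, mem_Icc] at hn
      rw [mem_coe, mem_Icc]
      have h2 : 1 ≤ ((n : ℤ) + s).toNat := by omega
      exact ⟨h2, Nat.le_floor hn.2.2.le⟩
    · intro a ha b hb hab
      rw [mem_coe, mem_filter, mem_Icc] at ha hb
      simp only at hab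
      omega
  rw [Nat.card_Icc, Nat.add_sub_cancel] at h1
  exact (by exact_mod_cast h1 : (((Icc 1 X).filter (fun n : ℕ => 1 ≤ (n : ℤ) + s ∧ (((n : ℤ) + s).toNat : ℝ) < t)).card : ℝ) ≤ (⌊t⌋₊ : ℝ)).trans (Nat.floor_le ht)

/-- one modulus -/
theorem R_asym (j B q B' : ℕ) (hj : 1 ≤ j) (hq : 1 ≤ q) (hB' : 1 ≤ B') (δ : ℝ) (hδ : 0 < δ) :
    ∃ N0 : ℕ, ∀ N : ℕ, N0 ≤ N → ∀ Y z : ℕ, Par (j + 1) B' N Y z → q ≤ z ∧ ∀ (X : ℕ) (s : ℤ), X ≤ B * N → |s| ≤ B * N →
    |∑ n ∈ Icc 1 X, ww (j + 1) Y q n * wI (j + 1) Y q (n + s) - (gam j q / (j.factorial : ℝ)) ^ 2 * (JJ X s * Real.log N ^ (2 * j))| ≤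
      δ * (N * Real.log N ^ (2 * j)) := by
  obtain ⟨c0, hc0⟩ : ∃ c0, c0 = gam j q / (j.factorial : ℝ) := ⟨_, rfl⟩
  have hc00 : 0 ≤ c0 := by rw [hc0]; exact div_nonneg (gam_nonneg j q) (Nat.cast_nonneg _)
  obtain ⟨δ1, hδ1⟩ : ∃ δ1, δ1 = min 1 (δ / ((c0 + 1) ^ 2 * (2 * B + 2))) := ⟨_, rfl⟩
  have hδ1pos : 0 < δ1 := by
    rw [hδ1]
    apply lt_min (by norm_num)
    positivity
  have hδ1le : δ1 ≤ 1 := by rw [hδ1]; exact min_le_left _ _
  have hδ1le' : δ1 * ((c0 + 1) ^ 2 * (2 * B + 2)) ≤ δ := by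
    have : δ1 ≤ δ / ((c0 + 1) ^ 2 * (2 * B + 2)) := by rw [hδ1]; exact min_le_right _ _
    rwa [le_div_iff₀ (by positivity)] at this
  obtain ⟨N1, h1⟩ := w_asym j (2 * B + 1) q B' hj (by omega) hq hB' δ1 hδ1pos hδ1le
  obtain ⟨N2, h2⟩ := ev_L' 1
  refine ⟨N1 + N2 + 1, fun N hN Y z hpar => ?_⟩
  obtain ⟨hqz, h3⟩ := h1 N (by omega) Y z hpar
  refine ⟨hqz, fun X s hX hs => ?_⟩
  have hW1 := h2 N (by omega)
  obtain ⟨W, hWd⟩ : ∃ W, W = Real.log (N : ℝ) := ⟨_, rfl⟩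
  rw [← hWd, ← hc0] at h3
  rw [← hWd] at hW1 ⊢
  rw [← hc0]
  have hN0 : (0 : ℝ) < N := by exact_mod_cast (by omega : 0 < N)
  have hWj : 0 < W ^ j := by positivity
  obtain ⟨c, hc⟩ : ∃ c, c = c0 * W ^ j := ⟨_, rfl⟩
  have hc1 : 0 ≤ c := by rw [hc]; positivity
  obtain ⟨M, hM⟩ : ∃ M, M = (c0 + 1) * W ^ j := ⟨_, rfl⟩
  have hM0 : 0 ≤ M := by rw [hM]; positivity
  have hcM : c ≤ M := by rw [hc, hM]; nlinarith
  rw [← hc] at h3
  have hs' := abs_le.1 hs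
  have hXz : (X : ℤ) ≤ B * N := by exact_mod_cast hX
  -- upper bound
  have hκN : (((2 * B + 1) * N : ℕ) : ℝ) ≤ ((2 * B + 1 : ℕ) : ℝ) * N := by push_cast; exact le_rfl
  have hwM : ∀ n : ℕ, n ≤ (2 * B + 1) * N → ww (j + 1) Y q n ≤ M := by
    intro n hn
    have e1 : ww (j + 1) Y q n ≤ ww (j + 1) Y q ((2 * B + 1) * N) := monotone_nat_of_le_succ (fun k => ww_mono (j + 1) Y q k) hn
    have e2 := h3 ((2 * B + 1) * N) (by
      push_cast
      have : (0 : ℝ) ≤ B := Nat.cast_nonneg _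
      nlinarith) le_rfl
    have e3 := (abs_le.1 e2).2
    refine e1.trans ?_
    rw [hM]
    nlinarith
  have hXN : X ≤ (2 * B + 1) * N := hX.trans (Nat.mul_le_mul_right _ (by omega))
  have hid : (c0 ^ 2 * (JJ X s * W ^ (2 * j)) : ℝ) = ∑ n ∈ Icc 1 X, if 1 ≤ (n : ℤ) + s then c ^ 2 else 0 := by
    rw [← sum_filter, sum_const, nsmul_eq_mul, hc]
    unfold JJ
    rw [mul_pow, ← pow_mul, mul_comm j 2]
    ring
  rw [hid, ← sum_sub_distrib]
  refine (abs_sum_le_sum_abs _ _).trans ?_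
  have hterm : ∀ n ∈ Icc 1 X, |ww (j + 1) Y q n * wI (j + 1) Y q (n + s) - (if 1 ≤ (n : ℤ) + s then c ^ 2 else 0)| ≤
      2 * (δ1 * W ^ j) * M + (if (n : ℝ) < δ1 * N then M ^ 2 else 0) +
        (if 1 ≤ (n : ℤ) + s ∧ (((n : ℤ) + s).toNat : ℝ) < δ1 * N then M ^ 2 else 0) := by
    intro n hn
    rw [mem_Icc] at hn
    have hM2 : 0 ≤ M ^ 2 := by positivity
    have hδW : 0 ≤ 2 * (δ1 * W ^ j) * M := by positivity
    unfold wI
    by_cases h4 : 1 ≤ (n : ℤ) + s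
    · rw [if_pos h4, if_pos h4]
      obtain ⟨m, hm⟩ : ∃ m, m = ((n : ℤ) + s).toNat := ⟨_, rfl⟩
      rw [← hm]
      have hmN : m ≤ (2 * B + 1) * N := by
        have : ((m : ℕ) : ℤ) ≤ (((2 * B + 1) * N : ℕ) : ℤ) := by
          push_cast
          have h5 : (n : ℤ) ≤ X := by exact_mod_cast hn.2
          have h6 : (m : ℤ) = n + s := by rw [hm]; exact Int.toNat_of_nonneg (by omega)
          have h7 : (0 : ℤ) ≤ N := by positivity
          rw [h6]
          linarith [hs'.2]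
        exact_mod_cast this
      obtain ⟨u, hu⟩ : ∃ u, u = ww (j + 1) Y q n := ⟨_, rfl⟩
      obtain ⟨v, hv⟩ : ∃ v, v = ww (j + 1) Y q m := ⟨_, rfl⟩
      have hu0 : 0 ≤ u := by rw [hu]; exact ww_nonneg _ _ _ _
      have hv0 : 0 ≤ v := by rw [hv]; exact ww_nonneg _ _ _ _
      have huM : u ≤ M := by rw [hu]; exact hwM n (hn.2.trans hXN)
      have hvM : v ≤ M := by rw [hv]; exact hwM m hmN
      rw [← hu, ← hv]
      have hcrude : |u * v - c ^ 2| ≤ M ^ 2 := by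
        have e1 : u * v ≤ M * M := mul_le_mul huM hvM hv0 hM0
        have e2 : c ^ 2 ≤ M ^ 2 := pow_le_pow_left₀ hc1 hcM 2
        have e3 : 0 ≤ u * v := by positivity
        have e4 : 0 ≤ c ^ 2 := by positivity
        rw [abs_le]
        constructor <;> nlinarith
      by_cases h5 : (n : ℝ) < δ1 * N
      · rw [if_pos h5]
        split_ifs <;> linarith
      · by_cases h6 : (m : ℝ) < δ1 * N
        · rw [if_neg h5, if_pos ⟨h4, h6⟩]
          linarith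
        · rw [if_neg h5, if_neg (fun h => h6 h.2)]
          push Not at h5 h6
          have e1 := h3 n h5 (hn.2.trans hXN)
          have e2 := h3 m h6 hmN
          rw [← hu] at e1
          rw [← hv] at e2
          have e3 : u * v - c ^ 2 = (u - c) * v + c * (v - c) := by ring
          rw [e3]
          refine (abs_add_le _ _).trans ?_
          rw [abs_mul, abs_mul, abs_of_nonneg hv0, abs_of_nonneg hc1]
          have e4 : |u - c| * v ≤ (δ1 * W ^ j) * M := mul_le_mul e1 hvM hv0 (by positivity)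
          have e5 : c * |v - c| ≤ M * (δ1 * W ^ j) := mul_le_mul hcM e2 (abs_nonneg _) hM0
          linarith
    · rw [if_neg h4, if_neg h4, mul_zero, sub_zero, abs_zero]
      split_ifs <;> positivity
  refine (sum_le_sum hterm).trans ?_
  rw [sum_add_distrib, sum_add_distrib, sum_const, ← sum_filter, ← sum_filter, sum_const, sum_const, nsmul_eq_mul, nsmul_eq_mul,
    nsmul_eq_mul, Nat.card_Icc, Nat.add_sub_cancel]
  have a1 := card_small X (δ1 * N) (by positivity)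
  have a2 := card_small' X s (δ1 * N) (by positivity)
  have hXr : (X : ℝ) ≤ B * N := by exact_mod_cast hX
  have hM2 : 0 ≤ M ^ 2 := by positivity
  calc (X : ℝ) * (2 * (δ1 * W ^ j) * M) + (((Icc 1 X).filter (fun n : ℕ => (n : ℝ) < δ1 * N)).card : ℝ) * M ^ 2 +
      (((Icc 1 X).filter (fun n : ℕ => 1 ≤ (n : ℤ) + s ∧ (((n : ℤ) + s).toNat : ℝ) < δ1 * N)).card : ℝ) * M ^ 2 ≤
      (B * N) * (2 * (δ1 * W ^ j) * M) + (δ1 * N) * M ^ 2 + (δ1 * N) * M ^ 2 := by gcongr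
    _ = δ1 * (2 * B * (c0 + 1) + 2 * (c0 + 1) ^ 2) * (N * (W ^ j * W ^ j)) := by rw [hM]; ring
    _ ≤ δ1 * ((c0 + 1) ^ 2 * (2 * B + 2)) * (N * (W ^ j * W ^ j)) := by
        apply mul_le_mul_of_nonneg_right _ (by positivity)
        apply mul_le_mul_of_nonneg_left _ hδ1pos.le
        have hB0 : (0 : ℝ) ≤ B := Nat.cast_nonneg _
        have : 0 ≤ B * c0 * (c0 + 1) := by positivity
        nlinarith
    _ ≤ δ * (N * (W ^ j * W ^ j)) := mul_le_mul_of_nonneg_right hδ1le' (by positivity)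
    _ = _ := by
        rw [← pow_add]
        congr 3
        ring

end Pool.Agent.TH935.DS
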