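import Pool.Agent.TH935.DS12
import Pool.Agent.Helper112.Arith

set_option autoImplicit false

/-! The tails of the singular series. -/

namespace Pool.Agent.TH935.DS
open Finset
open Pool.Agent.Helper112 (divisor_bound)

/-- the sum of the common divisors -/
noncomputable def sg (q h : ℕ) : ℝ := ∑ g ∈ (Nat.gcd q h).divisors, (g : ℝ)

/-- the weight of the shift -/
noncomputable def GG (h : ℕ) : ℝ := ∑ g ∈ h.divisors, (g : ℝ) ^ (-(1 / 2 : ℝ))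

lemma sg_nonneg (q h : ℕ) : 0 ≤ sg q h := sum_nonneg fun _ _ => Nat.cast_nonneg _

lemma GG_nonneg (h : ℕ) : 0 ≤ GG h := sum_nonneg fun _ _ => by positivity

lemma one_le_GG (h : ℕ) (hh : h ≠ 0) : 1 ≤ GG h := by
  unfold GG
  have h1 : (1 : ℝ) = ((1 : ℕ) : ℝ) ^ (-(1 / 2 : ℝ)) := by simp
  calc (1 : ℝ) = ((1 : ℕ) : ℝ) ^ (-(1 / 2 : ℝ)) := h1
    _ ≤ _ := single_le_sum (f := fun g : ℕ => (g : ℝ) ^ (-(1 / 2 : ℝ))) (fun g _ => by positivity) (Nat.one_mem_divisors.2 hh)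

lemma sg_eq (q h : ℕ) (hh : h ≠ 0) : sg q h = ∑ g ∈ h.divisors, if g ∣ q then (g : ℝ) else 0 := by
  unfold sg
  rw [← sum_filter]
  apply sum_congr _ fun _ _ => rfl
  ext g
  rw [mem_filter, Nat.mem_divisors, Nat.mem_divisors, Nat.dvd_gcd_iff]
  have : Nat.gcd q h ≠ 0 := Nat.gcd_ne_zero_right hh
  constructor
  · rintro ⟨⟨h1, h2⟩, _⟩
    exact ⟨⟨h2, hh⟩, h1⟩
  · rintro ⟨⟨h1, _⟩, h3⟩
    exact ⟨⟨h3, h1⟩, this⟩

/-- the constant -/
noncomputable def Z3 : ℝ := ∑' m : ℕ, (m : ℝ) ^ (-(3 / 2 : ℝ))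

lemma Z3_sum : Summable (fun m : ℕ => (m : ℝ) ^ (-(3 / 2 : ℝ))) := Real.summable_nat_rpow.2 (by norm_num)

lemma Z3_nonneg : 0 ≤ Z3 := tsum_nonneg fun m => by positivity

lemma sum_U (h Q : ℕ) (hh : h ≠ 0) : ∑ q ∈ Icc 1 Q, sg q h * (q : ℝ) ^ (-(3 / 2 : ℝ)) ≤ Z3 * GG h := by
  have h1 : ∀ q ∈ Icc 1 Q, sg q h * (q : ℝ) ^ (-(3 / 2 : ℝ)) =
      ∑ g ∈ h.divisors, if g ∣ q then (g : ℝ) * (q : ℝ) ^ (-(3 / 2 : ℝ)) else 0 := by
    intro q _
    rw [sg_eq q h hh, sum_mul]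
    apply sum_congr rfl
    intro g _
    split_ifs <;> simp
  rw [sum_congr rfl h1, sum_comm]
  unfold GG
  rw [mul_sum]
  apply sum_le_sum
  intro g hg
  have hg1 : 1 ≤ g := Nat.pos_of_mem_divisors hg
  have hg0 : (0 : ℝ) < g := by exact_mod_cast hg1
  rw [← sum_filter, sum_mult g Q hg1 (fun q => (g : ℝ) * (q : ℝ) ^ (-(3 / 2 : ℝ)))]
  have h2 : ∀ m ∈ Icc 1 (Q / g), (g : ℝ) * ((g * m : ℕ) : ℝ) ^ (-(3 / 2 : ℝ)) =
      (g : ℝ) ^ (-(1 / 2 : ℝ)) * (m : ℝ) ^ (-(3 / 2 : ℝ)) := by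
    intro m _
    push_cast
    rw [Real.mul_rpow hg0.le (Nat.cast_nonneg _), ← mul_assoc]
    congr 1
    nth_rw 1 [← Real.rpow_one (g : ℝ)]
    rw [← Real.rpow_add hg0]
    norm_num
  rw [sum_congr rfl h2, ← mul_sum, mul_comm]
  apply mul_le_mul_of_nonneg_right _ (by positivity)
  exact Z3_sum.sum_le_tsum _ (fun m _ => by positivity)

/-- the weights -/
lemma tail_fin (h Q0 Q : ℕ) (hQ0 : 1 ≤ Q0) (hh : h ≠ 0) :
    ∑ q ∈ (Icc 1 Q).filter (fun q => Q0 < q), sg q h * (q : ℝ) ^ (-(7 / 4 : ℝ)) ≤ (Q0 : ℝ) ^ (-(1 / 4 : ℝ)) * (Z3 * GG h) := by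
  have hQ0r : (0 : ℝ) < Q0 := by exact_mod_cast hQ0
  have h1 : ∀ q ∈ (Icc 1 Q).filter (fun q => Q0 < q), sg q h * (q : ℝ) ^ (-(7 / 4 : ℝ)) ≤
      (Q0 : ℝ) ^ (-(1 / 4 : ℝ)) * (sg q h * (q : ℝ) ^ (-(3 / 2 : ℝ))) := by
    intro q hq
    rw [mem_filter] at hq
    have hqr : (Q0 : ℝ) < q := by exact_mod_cast hq.2
    have hq0 : (0 : ℝ) < q := hQ0r.trans hqr
    have e1 : (q : ℝ) ^ (-(7 / 4 : ℝ)) = (q : ℝ) ^ (-(1 / 4 : ℝ)) * (q : ℝ) ^ (-(3 / 2 : ℝ)) := by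
      rw [← Real.rpow_add hq0]
      norm_num
    have e2 : (q : ℝ) ^ (-(1 / 4 : ℝ)) ≤ (Q0 : ℝ) ^ (-(1 / 4 : ℝ)) :=
      Real.rpow_le_rpow_of_nonpos hQ0r hqr.le (by norm_num)
    rw [e1]
    calc sg q h * ((q : ℝ) ^ (-(1 / 4 : ℝ)) * (q : ℝ) ^ (-(3 / 2 : ℝ))) =
        (q : ℝ) ^ (-(1 / 4 : ℝ)) * (sg q h * (q : ℝ) ^ (-(3 / 2 : ℝ))) := by ring
      _ ≤ _ := mul_le_mul_of_nonneg_right e2 (mul_nonneg (sg_nonneg q h) (by positivity))
  refine (sum_le_sum h1).trans ?_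
  rw [← mul_sum]
  apply mul_le_mul_of_nonneg_left _ (by positivity)
  refine le_trans ?_ (sum_U h Q hh)
  apply sum_le_sum_of_subset_of_nonneg (filter_subset _ _)
  intro q _ _
  exact mul_nonneg (sg_nonneg q h) (by positivity)

lemma range_Icc (f : ℕ → ℝ) (n : ℕ) : ∑ i ∈ range n, f (i + 1) = ∑ q ∈ Icc 1 n, f q := by
  induction n with
  | zero => simp
  | succ n ih => rw [sum_range_succ, sum_Icc_succ_top (by omega), ih]

lemma summable_sg (h : ℕ) (hh : h ≠ 0) : Summable (fun q : ℕ => sg (q + 1) h * ((q + 1 : ℕ) : ℝ) ^ (-(7 / 4 : ℝ))) := by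
  apply summable_of_sum_range_le (c := Z3 * GG h)
  · intro q
    exact mul_nonneg (sg_nonneg _ h) (by positivity)
  · intro n
    rw [range_Icc (fun q => sg q h * (q : ℝ) ^ (-(7 / 4 : ℝ)))]
    refine le_trans ?_ (sum_U h n hh)
    apply sum_le_sum
    intro q hq
    have hq1 : (1 : ℝ) ≤ q := by exact_mod_cast (mem_Icc.1 hq).1
    apply mul_le_mul_of_nonneg_left _ (sg_nonneg q h)
    exact Real.rpow_le_rpow_of_exponent_le hq1 (by norm_num)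

/-- powers of the divisor function -/
lemma tau_pow_small (j : ℕ) : ∃ C : ℝ, 1 ≤ C ∧ ∀ q : ℕ, 1 ≤ q → ((q.divisors.card : ℝ) ^ j / q) ^ 2 ≤ C * (q : ℝ) ^ (-(7 / 4 : ℝ)) := by
  obtain ⟨C, hC, h⟩ := divisor_bound (1 / (4 * (2 * j + 1))) (by positivity)
  refine ⟨max 1 (C ^ (2 * j)), le_max_left _ _, fun q hq => ?_⟩
  have hq0 : (0 : ℝ) < q := by exact_mod_cast hq
  have hq1 : (1 : ℝ) ≤ q := by exact_mod_cast hq
  have h1 : (q.divisors.card : ℝ) ^ (2 * j) ≤ C ^ (2 * j) * (q : ℝ) ^ (1 / 4 : ℝ) := by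
    refine (pow_le_pow_left₀ (Nat.cast_nonneg _) (h q hq) (2 * j)).trans ?_
    rw [mul_pow]
    apply mul_le_mul_of_nonneg_left _ (by positivity)
    rw [← Real.rpow_natCast, ← Real.rpow_mul hq0.le]
    apply Real.rpow_le_rpow_of_exponent_le hq1
    push_cast
    rw [div_mul_eq_mul_div, one_mul, div_le_div_iff₀ (by positivity) (by norm_num)]
    have : (0 : ℝ) ≤ j := Nat.cast_nonneg _
    nlinarith
  rw [div_pow, ← pow_mul, mul_comm j 2, div_le_iff₀ (by positivity)]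
  have h2 : (q : ℝ) ^ (-(7 / 4 : ℝ)) * (q : ℝ) ^ 2 = (q : ℝ) ^ (1 / 4 : ℝ) := by
    rw [← Real.rpow_natCast, ← Real.rpow_add hq0]
    norm_num
  rw [mul_assoc, h2]
  refine h1.trans ?_
  apply mul_le_mul_of_nonneg_right (le_max_right _ _) (by positivity)

lemma gam_le (j q : ℕ) (hq : 1 ≤ q) : gam (j + 1) q ≤ (q.divisors.card : ℝ) ^ (j + 1) / q := by
  induction j generalizing q with
  | zero =>
    unfold gam gam
    have hq0 : (0 : ℝ) < q := by exact_mod_cast hq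
    have h1 : ∑ e ∈ q.divisors, (Nat.totient e : ℝ) * (if e = 1 then (1 : ℝ) else 0) = 1 := by
      rw [sum_eq_single 1]
      · simp
      · intro e _ he
        rw [if_neg he, mul_zero]
      · intro h
        exact absurd (Nat.one_mem_divisors.2 (by omega)) h
    rw [h1, zero_add, pow_one, mul_one]
    apply div_le_div_of_nonneg_right _ hq0.le
    have : 1 ≤ q.divisors.card := card_pos.2 ⟨1, Nat.one_mem_divisors.2 (by omega)⟩
    exact_mod_cast this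
  | succ j ih =>
    have hq0 : (0 : ℝ) < q := by exact_mod_cast hq
    have h1 : gam (j + 1 + 1) q = (1 / (q : ℝ)) * ∑ e ∈ q.divisors, (Nat.totient e : ℝ) * gam (j + 1) e := rfl
    rw [h1]
    have h2 : ∀ e ∈ q.divisors, (Nat.totient e : ℝ) * gam (j + 1) e ≤ (q.divisors.card : ℝ) ^ (j + 1) := by
      intro e he
      have he1 : 1 ≤ e := Nat.pos_of_mem_divisors he
      have he0 : (0 : ℝ) < e := by exact_mod_cast he1
      have e1 : (Nat.totient e : ℝ) ≤ e := by exact_mod_cast Nat.totient_le e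
      calc (Nat.totient e : ℝ) * gam (j + 1) e ≤ e * ((e.divisors.card : ℝ) ^ (j + 1) / e) :=
            mul_le_mul e1 (ih e he1) (gam_nonneg _ _) he0.le
        _ = (e.divisors.card : ℝ) ^ (j + 1) := by field_simp
        _ ≤ (q.divisors.card : ℝ) ^ (j + 1) := by
            apply pow_le_pow_left₀ (Nat.cast_nonneg _)
            exact_mod_cast divisors_card_le (Nat.dvd_of_mem_divisors he) (by omega)
    have h3 := sum_le_sum h2
    rw [sum_const, nsmul_eq_mul] at h3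
    calc (1 / (q : ℝ)) * ∑ e ∈ q.divisors, (Nat.totient e : ℝ) * gam (j + 1) e ≤
        (1 / (q : ℝ)) * ((q.divisors.card : ℝ) * (q.divisors.card : ℝ) ^ (j + 1)) := mul_le_mul_of_nonneg_left h3 (by positivity)
      _ = _ := by rw [pow_succ _ (j + 1)]; ring

end Pool.Agent.TH935.DS
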