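import Pool.Agent.TH935.DS15
import Pool.Agent.TH935.DS16

set_option autoImplicit false

/-! The main term: the leading term. -/

namespace Pool.Agent.TH935.DS
open Finset
open Pool.Agent.W93.LV (harm log1_nonneg)
open Pool.Agent.H373R2.T7 (ev_L')

/-- the singular series -/
noncomputable def SS (j h : ℕ) : ℝ := ∑' q : ℕ, (ram q h : ℝ) * gam j q ^ 2

lemma ram_zero (h : ℕ) : ram 0 h = 0 := by
  unfold ram
  apply sum_eq_zero
  intro g _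
  rw [Nat.zero_div]
  simp

lemma term_le (j : ℕ) (hj : 1 ≤ j) : ∃ C : ℝ, 1 ≤ C ∧ (∀ q : ℕ, 1 ≤ q → ((q.divisors.card : ℝ) ^ j / q) ^ 2 ≤ C * (q : ℝ) ^ (-(7 / 4 : ℝ))) ∧
    ∀ q h : ℕ, 1 ≤ q → |(ram q h : ℝ) * gam j q ^ 2| ≤ C * (sg q h * (q : ℝ) ^ (-(7 / 4 : ℝ))) := by
  obtain ⟨C, hC, h1⟩ := tau_pow_small j
  refine ⟨C, hC, h1, fun q h hq => ?_⟩
  rw [abs_mul, abs_of_nonneg (by positivity : (0 : ℝ) ≤ gam j q ^ 2)]
  obtain ⟨i, rfl⟩ : ∃ i, j = i + 1 := ⟨j - 1, by omega⟩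
  have h2 : gam (i + 1) q ^ 2 ≤ C * (q : ℝ) ^ (-(7 / 4 : ℝ)) :=
    (pow_le_pow_left₀ (gam_nonneg _ _) (gam_le i q hq) 2).trans (h1 q hq)
  calc |(ram q h : ℝ)| * gam (i + 1) q ^ 2 ≤ sg q h * (C * (q : ℝ) ^ (-(7 / 4 : ℝ))) :=
        mul_le_mul (ram_le q h) h2 (by positivity) (sg_nonneg q h)
    _ = _ := by ring

lemma filter_range (f : ℕ → ℝ) (Q0 n : ℕ) : ∑ i ∈ range n, f (i + (Q0 + 1)) = ∑ q ∈ (Icc 1 (n + Q0)).filter (fun q => Q0 < q), f q := by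
  induction n with
  | zero =>
    rw [range_zero, sum_empty]
    symm
    apply sum_eq_zero
    intro q hq
    rw [mem_filter, mem_Icc] at hq
    omega
  | succ n ih =>
    rw [sum_range_succ, ih, sum_filter, sum_filter, show n + 1 + Q0 = (n + Q0) + 1 by ring, sum_Icc_succ_top (by omega)]
    congr 1
    rw [if_pos (by omega)]
    rfl

/-- the tail of the singular series -/
lemma SS_tail (j : ℕ) (hj : 1 ≤ j) (C : ℝ) (hC : 1 ≤ C)
    (hterm : ∀ q h : ℕ, 1 ≤ q → |(ram q h : ℝ) * gam j q ^ 2| ≤ C * (sg q h * (q : ℝ) ^ (-(7 / 4 : ℝ))))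
    (h Q0 : ℕ) (hh : h ≠ 0) (hQ0 : 1 ≤ Q0) :
    |SS j h - ∑ q ∈ Icc 1 Q0, (ram q h : ℝ) * gam j q ^ 2| ≤ C * ((Q0 : ℝ) ^ (-(1 / 4 : ℝ)) * (Z3 * GG h)) := by
  obtain ⟨f, hf⟩ : ∃ f : ℕ → ℝ, f = fun q => (ram q h : ℝ) * gam j q ^ 2 := ⟨_, rfl⟩
  have hC0 : 0 ≤ C := by linarith
  have hf0 : f 0 = 0 := by rw [hf]; simp [ram_zero]
  have habs : Summable (fun q => |f (q + 1)|) := by
    apply Summable.of_nonneg_of_le (fun _ => abs_nonneg _) (fun q => ?_) ((summable_sg h hh).mul_left C)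
    rw [hf]
    exact hterm (q + 1) h (by omega)
  have hsum1 : Summable (fun q => f (q + 1)) := habs.of_abs
  have hsum : Summable f := (summable_nat_add_iff 1).1 hsum1
  have habs' : Summable (fun q => |f q|) := (summable_nat_add_iff (f := fun q => |f q|) 1).1 habs
  have h1 : SS j h = ∑ q ∈ range (Q0 + 1), f q + ∑' i, f (i + (Q0 + 1)) := by
    unfold SS
    rw [hsum.sum_add_tsum_nat_add, hf]
  have h2 : ∑ q ∈ range (Q0 + 1), f q = ∑ q ∈ Icc 1 Q0, f q := by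
    rw [sum_range_succ', hf0, add_zero, range_Icc]
  have h3 : ∑ q ∈ Icc 1 Q0, (ram q h : ℝ) * gam j q ^ 2 = ∑ q ∈ Icc 1 Q0, f q := by rw [hf]
  rw [h1, h2, h3, add_sub_cancel_left]
  have h4 : Summable (fun i => |f (i + (Q0 + 1))|) := (summable_nat_add_iff (f := fun q => |f q|) (Q0 + 1)).2 habs'
  have h5 : |∑' i, f (i + (Q0 + 1))| ≤ ∑' i, |f (i + (Q0 + 1))| := by
    have := norm_tsum_le_tsum_norm (f := fun i => f (i + (Q0 + 1))) (by simpa using h4)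
    simpa using this
  refine h5.trans ?_
  apply Real.tsum_le_of_sum_range_le (fun _ => abs_nonneg _)
  intro n
  rw [filter_range (fun q => |f q|) Q0 n]
  have h6 : ∀ q ∈ (Icc 1 (n + Q0)).filter (fun q => Q0 < q), |f q| ≤ C * (sg q h * (q : ℝ) ^ (-(7 / 4 : ℝ))) := by
    intro q hq
    rw [mem_filter, mem_Icc] at hq
    rw [hf]
    exact hterm q h hq.1.1
  refine (sum_le_sum h6).trans ?_
  rw [← mul_sum]
  exact mul_le_mul_of_nonneg_left (tail_fin h Q0 (n + Q0) hQ0 hh) hC0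

lemma sg_le (q h : ℕ) (hq : 1 ≤ q) : sg q h ≤ ∑ g ∈ q.divisors, (g : ℝ) := by
  unfold sg
  apply sum_le_sum_of_subset_of_nonneg
  · exact Nat.divisors_subset_of_dvd (by omega) (Nat.gcd_dvd_left q h)
  · intro g _ _
    exact Nat.cast_nonneg _

lemma small_power (c : ℝ) (hc : 0 < c) : ∃ Q0 : ℕ, 1 ≤ Q0 ∧ (Q0 : ℝ) ^ (-(1 / 4 : ℝ)) ≤ c := by
  obtain ⟨Q0, h⟩ := exists_nat_ge ((1 / c) ^ 4 + 1)
  have h1 : 0 < (1 / c) ^ 4 := by positivity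
  have hQ : (1 : ℝ) ≤ Q0 := by linarith
  refine ⟨Q0, by exact_mod_cast hQ, ?_⟩
  have hQ0 : (0 : ℝ) < Q0 := by linarith
  rw [Real.rpow_neg hQ0.le, inv_le_comm₀ (by positivity) hc, ← one_div]
  have h2 : 1 / c = ((1 / c) ^ 4) ^ (1 / 4 : ℝ) := by
    rw [← Real.rpow_natCast, ← Real.rpow_mul (by positivity)]
    norm_num
  rw [h2]
  exact Real.rpow_le_rpow h1.le (by linarith) (by norm_num)

set_option maxHeartbeats 1000000 in
/-- the leading term of the main term -/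
theorem main_asym (j B B' : ℕ) (hj : 1 ≤ j) (hB' : 1 ≤ B') (ε : ℝ) (hε : 0 < ε) :
    ∃ N0 : ℕ, ∀ N : ℕ, N0 ≤ N → ∀ Y z : ℕ, Par (j + 1) B' N Y z → ∀ (X : ℕ) (s : ℤ), X ≤ B * N → |s| ≤ B * N → s ≠ 0 →
    |∑ q ∈ Icc 1 z, (ram q s.natAbs : ℝ) * ∑ n ∈ Icc 1 X, ww (j + 1) Y q n * wI (j + 1) Y q (n + s) -
      SS j s.natAbs / (j.factorial : ℝ) ^ 2 * (JJ X s * Real.log N ^ (2 * j))| ≤
      ε * GG s.natAbs * (N * Real.log N ^ (2 * j)) := by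
  obtain ⟨C, hC, hτ, hterm⟩ := term_le j hj
  have hC0 : 0 < C := by linarith
  obtain ⟨T, hT⟩ : ∃ T, T = C * ((B + 1) * ((j + 1) ^ 2 * 4 ^ j + 1)) * (Z3 + 1) := ⟨_, rfl⟩
  have hZ := Z3_nonneg
  have hT0 : 0 < T := by rw [hT]; positivity
  obtain ⟨Q0, hQ0, hQs⟩ := small_power (ε / 3 / T) (by positivity)
  have hQs' : T * (Q0 : ℝ) ^ (-(1 / 4 : ℝ)) ≤ ε / 3 := by
    rw [le_div_iff₀ hT0] at hQs
    linarith
  obtain ⟨S0, hS⟩ : ∃ S0, S0 = ∑ q ∈ Icc 1 Q0, ∑ g ∈ q.divisors, (g : ℝ) := ⟨_, rfl⟩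
  have hS0 : 0 ≤ S0 := by rw [hS]; exact sum_nonneg fun _ _ => sum_nonneg fun _ _ => Nat.cast_nonneg _
  obtain ⟨δ, hδ⟩ : ∃ δ, δ = ε / 3 / (S0 + 1) := ⟨_, rfl⟩
  have hδ0 : 0 < δ := by rw [hδ]; positivity
  have hδS : δ * S0 ≤ ε / 3 := by
    rw [hδ, div_mul_eq_mul_div, div_le_iff₀ (by positivity)]
    nlinarith
  have hR : ∀ q : ℕ, ∃ N0 : ℕ, 1 ≤ q → ∀ N : ℕ, N0 ≤ N → ∀ Y z : ℕ, Par (j + 1) B' N Y z → q ≤ z ∧ ∀ (X : ℕ) (s : ℤ), X ≤ B * N → |s| ≤ B * N →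
      |∑ n ∈ Icc 1 X, ww (j + 1) Y q n * wI (j + 1) Y q (n + s) - (gam j q / (j.factorial : ℝ)) ^ 2 * (JJ X s * Real.log N ^ (2 * j))| ≤
        δ * (N * Real.log N ^ (2 * j)) := by
    intro q
    by_cases hq : 1 ≤ q
    · obtain ⟨N0, h0⟩ := R_asym j B q B' hj hq hB' δ hδ0
      exact ⟨N0, fun _ => h0⟩
    · exact ⟨0, fun h => absurd h hq⟩
  choose NR hNR using hR
  obtain ⟨N2, h2⟩ := ev_L' (1 + Real.log (2 * B + 1 : ℕ))
  refine ⟨∑ q ∈ Icc 1 Q0, NR q + N2 + 1, fun N hN Y z hpar X s hX hs hs0 => ?_⟩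
  have hW := h2 N (by omega)
  have hlκ : 0 ≤ Real.log (2 * B + 1 : ℕ) := Real.log_natCast_nonneg _
  have hN0 : (0 : ℝ) < N := by exact_mod_cast (by omega : 0 < N)
  have hlogκ : 1 + Real.log ((2 * B + 1) * N : ℕ) ≤ 2 * Real.log N := by
    push_cast at hW hlκ ⊢
    rw [Real.log_mul (by positivity) hN0.ne']
    linarith
  obtain ⟨W, hWd⟩ : ∃ W, W = Real.log (N : ℝ) := ⟨_, rfl⟩
  have hNRN : ∀ q ∈ Icc 1 Q0, NR q ≤ N := by
    intro q hq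
    have := single_le_sum (f := NR) (fun _ _ => Nat.zero_le _) hq
    omega
  have hone : ∀ q ∈ Icc 1 Q0, q ≤ z ∧ |∑ n ∈ Icc 1 X, ww (j + 1) Y q n * wI (j + 1) Y q (n + s) -
      (gam j q / (j.factorial : ℝ)) ^ 2 * (JJ X s * W ^ (2 * j))| ≤ δ * (N * W ^ (2 * j)) := by
    intro q hq
    have h3 := hNR q (mem_Icc.1 hq).1 N (hNRN q hq) Y z hpar
    rw [hWd]
    exact ⟨h3.1, h3.2 X s hX hs⟩
  rw [← hWd] at hW hlogκ ⊢
  have hW1 : 1 ≤ W := by linarith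
  have hQ0z : Q0 ≤ z := (hone Q0 (by rw [mem_Icc]; omega)).1
  obtain ⟨h, hh⟩ : ∃ h, h = s.natAbs := ⟨_, rfl⟩
  have hh0 : h ≠ 0 := by rw [hh]; exact Int.natAbs_ne_zero.2 hs0
  rw [← hh]
  have hG1 := one_le_GG h hh0
  have hG0 : 0 ≤ GG h := by linarith
  obtain ⟨R, hRd⟩ : ∃ R : ℕ → ℝ, R = fun q => ∑ n ∈ Icc 1 X, ww (j + 1) Y q n * wI (j + 1) Y q (n + s) := ⟨_, rfl⟩
  obtain ⟨J, hJd⟩ : ∃ J : ℝ, J = JJ X s := ⟨_, rfl⟩
  have hJ0 : 0 ≤ J := by rw [hJd]; exact Nat.cast_nonneg _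
  have hXr : (X : ℝ) ≤ B * N := by exact_mod_cast hX
  have hJX : J ≤ B * N := by
    rw [hJd]
    exact (by exact_mod_cast JJ_le X s : (JJ X s : ℝ) ≤ X).trans hXr
  obtain ⟨f, hf⟩ : ∃ f, f = (j.factorial : ℝ) := ⟨_, rfl⟩
  have hf1 : 1 ≤ f := by rw [hf]; exact_mod_cast Nat.one_le_iff_ne_zero.2 (Nat.factorial_ne_zero j)
  rw [← hf, ← hJd] at hone
  rw [← hf, ← hJd]
  have hf2 : 1 ≤ f ^ 2 := one_le_pow₀ hf1
  obtain ⟨NW, hNW⟩ : ∃ NW, NW = N * W ^ (2 * j) := ⟨_, rfl⟩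
  have hNW0 : 0 ≤ NW := by rw [hNW]; positivity
  have hs' := abs_le.1 hs
  have hXz : (X : ℤ) ≤ B * N := by exact_mod_cast hX
  -- splitting
  have hsplit : ∑ q ∈ Icc 1 z, (ram q h : ℝ) * R q = ∑ q ∈ Icc 1 Q0, (ram q h : ℝ) * R q +
      ∑ q ∈ (Icc 1 z).filter (fun q => Q0 < q), (ram q h : ℝ) * R q := by
    rw [← sum_filter_add_sum_filter_not (Icc 1 z) (fun q => q ≤ Q0)]
    congr 1
    · apply sum_congr _ fun _ _ => rfl
      ext q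
      rw [mem_filter, mem_Icc, mem_Icc]
      omega
    · apply sum_congr _ fun _ _ => rfl
      ext q
      rw [mem_filter, mem_filter, not_le]
  have hR' : ∑ q ∈ Icc 1 z, (ram q h : ℝ) * ∑ n ∈ Icc 1 X, ww (j + 1) Y q n * wI (j + 1) Y q (n + s) =
      ∑ q ∈ Icc 1 z, (ram q h : ℝ) * R q := by rw [hRd]
  rw [hR', hsplit]
  -- first part
  have p1 : |∑ q ∈ Icc 1 Q0, (ram q h : ℝ) * R q - (∑ q ∈ Icc 1 Q0, (ram q h : ℝ) * gam j q ^ 2) / f ^ 2 * (J * W ^ (2 * j))| ≤ ε / 3 * NW := by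
    have e1 : ∑ q ∈ Icc 1 Q0, (ram q h : ℝ) * R q - (∑ q ∈ Icc 1 Q0, (ram q h : ℝ) * gam j q ^ 2) / f ^ 2 * (J * W ^ (2 * j)) =
        ∑ q ∈ Icc 1 Q0, (ram q h : ℝ) * (R q - (gam j q / f) ^ 2 * (J * W ^ (2 * j))) := by
      rw [sum_div, sum_mul, ← sum_sub_distrib]
      apply sum_congr rfl
      intro q _
      rw [div_pow]
      ring
    rw [e1]
    refine (abs_sum_le_sum_abs _ _).trans ?_
    have e2 : ∀ q ∈ Icc 1 Q0, |(ram q h : ℝ) * (R q - (gam j q / f) ^ 2 * (J * W ^ (2 * j)))| ≤ (∑ g ∈ q.divisors, (g : ℝ)) * (δ * NW) := by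
      intro q hq
      rw [abs_mul]
      apply mul_le_mul _ _ (abs_nonneg _) (sum_nonneg fun _ _ => Nat.cast_nonneg _)
      · exact (ram_le q h).trans (sg_le q h (mem_Icc.1 hq).1)
      · rw [hNW, hRd]
        exact (hone q hq).2
    refine (sum_le_sum e2).trans ?_
    rw [← sum_mul, ← hS]
    calc S0 * (δ * NW) = (δ * S0) * NW := by ring
      _ ≤ _ := mul_le_mul_of_nonneg_right hδS hNW0
  -- tail of the sum
  have p2 : |∑ q ∈ (Icc 1 z).filter (fun q => Q0 < q), (ram q h : ℝ) * R q| ≤ ε / 3 * (GG h * NW) := by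
    refine (abs_sum_le_sum_abs _ _).trans ?_
    have e1 : ∀ q ∈ (Icc 1 z).filter (fun q => Q0 < q), |(ram q h : ℝ) * R q| ≤
        (C * (B * ((j + 1) ^ 2 * 4 ^ j)) * NW) * (sg q h * (q : ℝ) ^ (-(7 / 4 : ℝ))) := by
      intro q hq
      rw [mem_filter, mem_Icc] at hq
      have hq1 := hq.1.1
      have hq0 : (0 : ℝ) < q := by exact_mod_cast hq1
      obtain ⟨u, hu⟩ : ∃ u, u = ((j : ℝ) + 1) * ((q.divisors.card : ℝ) ^ j / q * (2 * W) ^ j) := ⟨_, rfl⟩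
      have hu0 : 0 ≤ u := by rw [hu]; positivity
      have hup : ∀ n : ℕ, n ≤ (2 * B + 1) * N → ww (j + 1) Y q n ≤ u := by
        intro n hn
        refine (ww_up j Y q n ((2 * B + 1) * N) hq1 hn).trans ?_
        rw [hu]
        have := log1_nonneg ((2 * B + 1) * N)
        gcongr
      have hRq0 : 0 ≤ R q := by
        rw [hRd]
        exact sum_nonneg fun n _ => mul_nonneg (ww_nonneg _ _ _ _) (wI_nonneg _ _ _ _)
      have hRq : R q ≤ X * (u * u) := by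
        rw [hRd]
        have e2 : ∀ n ∈ Icc 1 X, ww (j + 1) Y q n * wI (j + 1) Y q (n + s) ≤ u * u := by
          intro n hn
          rw [mem_Icc] at hn
          apply mul_le_mul _ _ (wI_nonneg _ _ _ _) hu0
          · exact hup n (hn.2.trans (hX.trans (Nat.mul_le_mul_right _ (by omega))))
          · unfold wI
            split_ifs with h4
            · apply hup
              have h5 : (((n : ℤ) + s).toNat : ℤ) ≤ (((2 * B + 1) * N : ℕ) : ℤ) := by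
                push_cast
                have h5 : (n : ℤ) ≤ X := by exact_mod_cast hn.2
                have h6 : (((n : ℤ) + s).toNat : ℤ) = n + s := Int.toNat_of_nonneg (by omega)
                have h7 : (0 : ℤ) ≤ N := by positivity
                rw [h6]
                linarith [hs'.2]
              exact_mod_cast h5
            · exact hu0
        refine (sum_le_sum e2).trans (le_of_eq ?_)
        rw [sum_const, Nat.card_Icc, nsmul_eq_mul, Nat.add_sub_cancel]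
      rw [abs_mul, abs_of_nonneg hRq0]
      have e3 : u * u ≤ (C * ((j + 1) ^ 2 * 4 ^ j)) * (q : ℝ) ^ (-(7 / 4 : ℝ)) * W ^ (2 * j) := by
        have e4 := hτ q hq1
        have e5 : u * u = (((j : ℝ) + 1) ^ 2 * 4 ^ j) * W ^ (2 * j) * ((q.divisors.card : ℝ) ^ j / q) ^ 2 := by
          rw [hu, mul_pow, show (4 : ℝ) ^ j = 2 ^ j * 2 ^ j by rw [← mul_pow]; norm_num, two_mul j, pow_add W j j]
          ring
        rw [e5]
        calc (((j : ℝ) + 1) ^ 2 * 4 ^ j) * W ^ (2 * j) * ((q.divisors.card : ℝ) ^ j / q) ^ 2 ≤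
            (((j : ℝ) + 1) ^ 2 * 4 ^ j) * W ^ (2 * j) * (C * (q : ℝ) ^ (-(7 / 4 : ℝ))) := mul_le_mul_of_nonneg_left e4 (by positivity)
          _ = _ := by ring
      calc |(ram q h : ℝ)| * R q ≤ sg q h * ((B * N) * ((C * ((j + 1) ^ 2 * 4 ^ j)) * (q : ℝ) ^ (-(7 / 4 : ℝ)) * W ^ (2 * j))) := by
            apply mul_le_mul (ram_le q h) _ hRq0 (sg_nonneg q h)
            exact hRq.trans (mul_le_mul hXr e3 (by positivity) (by positivity))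
        _ = _ := by rw [hNW]; ring
    refine (sum_le_sum e1).trans ?_
    rw [← mul_sum]
    have e2 := tail_fin h Q0 z hQ0 hh0
    calc (C * (B * ((j + 1) ^ 2 * 4 ^ j)) * NW) * ∑ q ∈ (Icc 1 z).filter (fun q => Q0 < q), sg q h * (q : ℝ) ^ (-(7 / 4 : ℝ)) ≤
        (C * (B * ((j + 1) ^ 2 * 4 ^ j)) * NW) * ((Q0 : ℝ) ^ (-(1 / 4 : ℝ)) * (Z3 * GG h)) := mul_le_mul_of_nonneg_left e2 (by positivity)
      _ ≤ (C * ((B + 1) * ((j + 1) ^ 2 * 4 ^ j + 1)) * NW) * ((Q0 : ℝ) ^ (-(1 / 4 : ℝ)) * ((Z3 + 1) * GG h)) := by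
          have b1 : (0 : ℝ) ≤ (Q0 : ℝ) ^ (-(1 / 4 : ℝ)) := by positivity
          gcongr <;> linarith
      _ = (T * (Q0 : ℝ) ^ (-(1 / 4 : ℝ))) * (GG h * NW) := by rw [hT]; ring
      _ ≤ _ := mul_le_mul_of_nonneg_right hQs' (by positivity)
  -- tail of the series
  have p3 : |(SS j h - ∑ q ∈ Icc 1 Q0, (ram q h : ℝ) * gam j q ^ 2) / f ^ 2 * (J * W ^ (2 * j))| ≤ ε / 3 * (GG h * NW) := by
    have e1 := SS_tail j hj C hC hterm h Q0 hh0 hQ0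
    rw [abs_mul, abs_div, abs_of_pos (by positivity : (0 : ℝ) < f ^ 2), abs_of_nonneg (by positivity : 0 ≤ J * W ^ (2 * j))]
    have e2 : |SS j h - ∑ q ∈ Icc 1 Q0, (ram q h : ℝ) * gam j q ^ 2| / f ^ 2 ≤ C * ((Q0 : ℝ) ^ (-(1 / 4 : ℝ)) * (Z3 * GG h)) :=
      (div_le_self (abs_nonneg _) hf2).trans e1
    have e3 : J * W ^ (2 * j) ≤ B * NW := by
      rw [hNW, ← mul_assoc]
      exact mul_le_mul_of_nonneg_right hJX (by positivity)
    have b1 : (0 : ℝ) ≤ (Q0 : ℝ) ^ (-(1 / 4 : ℝ)) := by positivity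
    calc |SS j h - ∑ q ∈ Icc 1 Q0, (ram q h : ℝ) * gam j q ^ 2| / f ^ 2 * (J * W ^ (2 * j)) ≤
        (C * ((Q0 : ℝ) ^ (-(1 / 4 : ℝ)) * (Z3 * GG h))) * (B * NW) := mul_le_mul e2 e3 (by positivity) (by positivity)
      _ ≤ (C * ((Q0 : ℝ) ^ (-(1 / 4 : ℝ)) * ((Z3 + 1) * GG h))) * (((B + 1) * ((j + 1) ^ 2 * 4 ^ j + 1)) * NW) := by
          have b2 : (B : ℝ) ≤ (B + 1) * ((j + 1) ^ 2 * 4 ^ j + 1) := by
            have b3 : (0 : ℝ) ≤ (j + 1) ^ 2 * 4 ^ j := by positivity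
            have b4 : (0 : ℝ) ≤ B := Nat.cast_nonneg _
            nlinarith
          gcongr
          linarith
      _ = (T * (Q0 : ℝ) ^ (-(1 / 4 : ℝ))) * (GG h * NW) := by rw [hT]; ring
      _ ≤ _ := mul_le_mul_of_nonneg_right hQs' (by positivity)
  have p4 : ε / 3 * NW ≤ ε / 3 * (GG h * NW) := by
    apply mul_le_mul_of_nonneg_left _ (by positivity)
    exact le_mul_of_one_le_left hNW0 hG1
  have hid : ∑ q ∈ Icc 1 Q0, (ram q h : ℝ) * R q + ∑ q ∈ (Icc 1 z).filter (fun q => Q0 < q), (ram q h : ℝ) * R q -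
      SS j h / f ^ 2 * (J * W ^ (2 * j)) =
      (∑ q ∈ Icc 1 Q0, (ram q h : ℝ) * R q - (∑ q ∈ Icc 1 Q0, (ram q h : ℝ) * gam j q ^ 2) / f ^ 2 * (J * W ^ (2 * j))) +
      ∑ q ∈ (Icc 1 z).filter (fun q => Q0 < q), (ram q h : ℝ) * R q -
      (SS j h - ∑ q ∈ Icc 1 Q0, (ram q h : ℝ) * gam j q ^ 2) / f ^ 2 * (J * W ^ (2 * j)) := by ring
  rw [hid]
  refine (abs_sub _ _).trans ?_
  refine (add_le_add (abs_add_le _ _) le_rfl).trans ?_
  have hfin : ε * GG h * NW = ε / 3 * (GG h * NW) + ε / 3 * (GG h * NW) + ε / 3 * (GG h * NW) := by ring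
  rw [← hNW, hfin]
  exact add_le_add (add_le_add (p1.trans p4) p2) p3

end Pool.Agent.TH935.DS
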