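import Pool.Agent.TH935.DS1
import Pool.Agent.H373R2.T7.BilE

set_option autoImplicit false

/-! Ramanujan sums and the model of the divisor functions. -/

namespace Pool.Agent.TH935.DS
open Finset
open Pool.Agent.H807R2.Dav
open Pool.Agent.W93.LV (dir harm tau_mul log1_nonneg)
open Pool.Agent.H373R2.T7 (orth)

/-- Ramanujan's sum -/
def ram (q n : ℕ) : ℤ := ∑ g ∈ (Nat.gcd q n).divisors, (g : ℤ) * ArithmeticFunction.moebius (q / g)

/-- Ramanujan's sum, exponential form -/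
noncomputable def rexp (q : ℕ) (n : ℤ) : ℂ :=
  ∑ b ∈ (range q).filter (fun b => Nat.Coprime b q), ee ((n : ℝ) * ((b : ℝ) / q))

lemma frac_sum (a : ℕ) (ha : 1 ≤ a) (F : ℝ → ℂ) :
    ∑ j ∈ range a, F ((j : ℝ) / a) =
      ∑ q ∈ a.divisors, ∑ b ∈ (range q).filter (fun b => Nat.Coprime b q), F ((b : ℝ) / q) := by
  rw [← sum_fiberwise_of_maps_to (s := range a) (t := a.divisors) (g := fun j => a / Nat.gcd a j) (by
    intro j _
    rw [Nat.mem_divisors]
    exact ⟨Nat.div_dvd_of_dvd (Nat.gcd_dvd_left _ _), by omega⟩)]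
  apply sum_congr rfl
  intro q hq
  rw [Nat.mem_divisors] at hq
  obtain ⟨⟨d, rfl⟩, _⟩ := hq
  have hq0 : 0 < q := Nat.pos_of_ne_zero (by rintro rfl; simp at ha)
  have hd0 : 0 < d := Nat.pos_of_ne_zero (by rintro rfl; simp at ha)
  have key : ∀ j, (q * d) / Nat.gcd (q * d) j = q → Nat.gcd (q * d) j = d := by
    intro j hj
    have h1 := Nat.div_mul_cancel (Nat.gcd_dvd_left (q * d) j)
    rw [hj] at h1
    exact Nat.eq_of_mul_eq_mul_left hq0 h1
  apply sum_nbij' (fun j => j / d) (fun b => d * b)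
  · intro j hj
    rw [mem_filter, mem_range] at hj
    have h1 := key j hj.2
    have hdj : d ∣ j := by rw [← h1]; exact Nat.gcd_dvd_right _ _
    obtain ⟨b, rfl⟩ := hdj
    rw [Nat.mul_div_cancel_left _ hd0, mem_filter, mem_range]
    refine ⟨?_, ?_⟩
    · have := hj.1
      rw [mul_comm] at this
      exact Nat.lt_of_mul_lt_mul_right this
    · rw [mul_comm q d, Nat.gcd_mul_left] at h1
      have h2 : Nat.gcd q b = 1 := Nat.eq_of_mul_eq_mul_left hd0 (by rw [h1, mul_one])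
      exact (Nat.coprime_iff_gcd_eq_one.2 h2).symm
  · intro b hb
    rw [mem_filter, mem_range] at hb
    rw [mem_filter, mem_range]
    refine ⟨by rw [mul_comm]; exact Nat.mul_lt_mul_of_pos_right hb.1 hd0, ?_⟩
    rw [mul_comm q d, Nat.gcd_mul_left, Nat.coprime_iff_gcd_eq_one.1 hb.2.symm, mul_one,
      Nat.mul_div_cancel_left _ hd0]
  · intro j hj
    rw [mem_filter, mem_range] at hj
    have h1 := key j hj.2
    have hdj : d ∣ j := by rw [← h1]; exact Nat.gcd_dvd_right _ _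
    exact Nat.mul_div_cancel' hdj
  · intro b _
    exact Nat.mul_div_cancel_left _ hd0
  · intro j hj
    rw [mem_filter, mem_range] at hj
    have h1 := key j hj.2
    have hdj : d ∣ j := by rw [← h1]; exact Nat.gcd_dvd_right _ _
    obtain ⟨b, rfl⟩ := hdj
    rw [Nat.mul_div_cancel_left _ hd0]
    congr 1
    have : (0 : ℝ) < d := by exact_mod_cast hd0
    have : (0 : ℝ) < q := by exact_mod_cast hq0
    push_cast
    field_simp

lemma rexp_sum (a : ℕ) (ha : 1 ≤ a) (n : ℤ) : ∑ q ∈ a.divisors, rexp q n = if (a : ℤ) ∣ n then (a : ℂ) else 0 := by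
  have h1 := frac_sum a ha (fun x => ee ((n : ℝ) * x))
  unfold rexp
  rw [← h1, ← orth a ha n]
  apply sum_congr rfl
  intro j _
  congr 1
  ring

lemma rexp_eq (q : ℕ) (hq : 1 ≤ q) (n : ℤ) : rexp q n = ram q n.natAbs := by
  have h1 := (ArithmeticFunction.sum_eq_iff_sum_mul_moebius_eq (R := ℂ) (f := fun q => rexp q n)
    (g := fun a => if (a : ℤ) ∣ n then (a : ℂ) else 0)).1 (fun a ha => rexp_sum a ha n) q hq
  rw [← h1]
  unfold ram
  push_cast
  rw [Nat.sum_divisorsAntidiagonal' (f := fun x y => ((ArithmeticFunction.moebius x : ℤ) : ℂ) * if (y : ℤ) ∣ n then (y : ℂ) else 0)]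
  have h2 : (Nat.gcd q n.natAbs).divisors = q.divisors.filter (fun g => g ∣ n.natAbs) := by
    ext g
    rw [mem_filter, Nat.mem_divisors, Nat.mem_divisors, Nat.dvd_gcd_iff]
    have : Nat.gcd q n.natAbs ≠ 0 := Nat.gcd_ne_zero_left (by omega)
    constructor
    · rintro ⟨⟨h1, h2⟩, _⟩
      exact ⟨⟨h1, by omega⟩, h2⟩
    · rintro ⟨⟨h1, h2⟩, h3⟩
      exact ⟨⟨h1, h3⟩, this⟩
  rw [h2, sum_filter]
  apply sum_congr rfl
  intro g _
  have h3 : ((g : ℤ) ∣ n) ↔ g ∣ n.natAbs := Int.natCast_dvd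
  by_cases h : g ∣ n.natAbs
  · rw [if_pos h, if_pos (h3.2 h)]; ring
  · rw [if_neg h, if_neg (fun h4 => h (h3.1 h4)), mul_zero]

lemma ram_le (q n : ℕ) : |(ram q n : ℝ)| ≤ ∑ g ∈ (Nat.gcd q n).divisors, (g : ℝ) := by
  unfold ram
  push_cast
  refine (abs_sum_le_sum_abs _ _).trans (sum_le_sum fun g _ => ?_)
  rw [abs_mul, abs_of_nonneg (Nat.cast_nonneg g)]
  have h1 : |((ArithmeticFunction.moebius (q / g) : ℤ) : ℝ)| ≤ 1 := by
    exact_mod_cast ArithmeticFunction.abs_moebius_le_one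
  have h2 : (0 : ℝ) ≤ g := Nat.cast_nonneg g
  nlinarith

/-- the coefficients of the model -/
noncomputable def ww (r Y q n : ℕ) : ℝ := ∑ a ∈ (Icc 1 n).filter (fun a => a * Y < n ∧ q ∣ a), (EE r Y a : ℝ) / a

/-- the model -/
noncomputable def dsh (r Y z n : ℕ) : ℝ := ∑ q ∈ Icc 1 z, (ram q n : ℝ) * ww r Y q n

lemma ww_nonneg (r Y q n : ℕ) : 0 ≤ ww r Y q n := sum_nonneg fun _ _ => by positivity

lemma sum_mult (q n : ℕ) (hq : 1 ≤ q) (F : ℕ → ℝ) :
    ∑ a ∈ (Icc 1 n).filter (fun a => q ∣ a), F a = ∑ m ∈ Icc 1 (n / q), F (q * m) := by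
  apply sum_nbij' (fun n => n / q) (fun m => q * m)
  · intro n hn
    rw [mem_filter, mem_Icc] at hn
    rw [mem_Icc]
    obtain ⟨⟨h1, h2⟩, c, rfl⟩ := hn
    rw [Nat.mul_div_cancel_left _ (by omega)]
    refine ⟨Nat.pos_of_ne_zero (by rintro rfl; simp at h1), ?_⟩
    rw [Nat.le_div_iff_mul_le (by omega), mul_comm]
    exact h2
  · intro m hm
    rw [mem_Icc] at hm
    rw [mem_filter, mem_Icc]
    refine ⟨⟨Nat.mul_pos (by omega) (by omega), ?_⟩, dvd_mul_right _ _⟩
    have := (Nat.le_div_iff_mul_le (by omega : 0 < q)).1 hm.2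
    rw [mul_comm]
    exact this
  · intro n hn
    rw [mem_filter] at hn
    exact Nat.mul_div_cancel' hn.2
  · intro m _
    exact Nat.mul_div_cancel_left _ (by omega)
  · intro n hn
    rw [mem_filter] at hn
    rw [Nat.mul_div_cancel' hn.2]

lemma tau_mul_pow (r a b : ℕ) : ((a * b).divisors.card : ℝ) ^ r ≤ (a.divisors.card : ℝ) ^ r * (b.divisors.card : ℝ) ^ r := by
  rw [← mul_pow]
  exact pow_le_pow_left₀ (Nat.cast_nonneg _) (by exact_mod_cast tau_mul a b) r

lemma log_mono1 {n X : ℕ} (h : n ≤ X) : 1 + Real.log n ≤ 1 + Real.log X := by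
  rcases Nat.eq_zero_or_pos n with h0 | h0
  · subst h0
    have := Real.log_natCast_nonneg X
    simp; linarith
  · have := Real.log_le_log (by exact_mod_cast h0 : (0 : ℝ) < n) (by exact_mod_cast h : (n : ℝ) ≤ X)
    linarith

/-- multiples, weighted by a power of the divisor function -/
lemma mult_tau (r q n X : ℕ) (hq : 1 ≤ q) (hn : n ≤ X) :
    ∑ a ∈ (Icc 1 n).filter (fun a => q ∣ a), (a.divisors.card : ℝ) ^ r / a ≤
      (q.divisors.card : ℝ) ^ r / q * (1 + Real.log X) ^ (2 ^ r) := by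
  rw [sum_mult q n hq (fun a => (a.divisors.card : ℝ) ^ r / a)]
  have h1 : ∀ m ∈ Icc 1 (n / q), ((q * m).divisors.card : ℝ) ^ r / ((q * m : ℕ) : ℝ) ≤
      (q.divisors.card : ℝ) ^ r / q * ((m.divisors.card : ℝ) ^ r / m) := by
    intro m _
    push_cast
    rw [div_mul_div_comm]
    apply div_le_div_of_nonneg_right (tau_mul_pow r q m) (by positivity)
  refine (sum_le_sum h1).trans ?_
  rw [← mul_sum]
  apply mul_le_mul_of_nonneg_left _ (by positivity)
  refine (tau_pow_div r _).trans ?_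
  apply pow_le_pow_left₀ (log1_nonneg _)
  exact log_mono1 ((Nat.div_le_self _ _).trans hn)

lemma ww_le (r Y q n X : ℕ) (hq : 1 ≤ q) (hn : n ≤ X) :
    ww r Y q n ≤ r * ((q.divisors.card : ℝ) ^ r / q * (1 + Real.log X) ^ (2 ^ r)) := by
  unfold ww
  have h1 : ∀ a ∈ (Icc 1 n).filter (fun a => a * Y < n ∧ q ∣ a), (EE r Y a : ℝ) / a ≤ r * ((a.divisors.card : ℝ) ^ r / a) := by
    intro a _
    rw [mul_div_assoc']
    exact div_le_div_of_nonneg_right (EE_le_tau r Y a) (Nat.cast_nonneg _)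
  refine (sum_le_sum h1).trans ?_
  rw [← mul_sum]
  apply mul_le_mul_of_nonneg_left _ (Nat.cast_nonneg _)
  refine le_trans ?_ (mult_tau r q n X hq hn)
  apply sum_le_sum_of_subset_of_nonneg
  · intro a ha
    rw [mem_filter] at ha ⊢
    exact ⟨ha.1, ha.2.2⟩
  · intro a _ _
    positivity

/-- the pointwise bound for the model -/
lemma dsh_le (r Y z n X : ℕ) (hz : z ≤ X) (hn : n ≤ X) (hn1 : 1 ≤ n) :
    |dsh r Y z n| ≤ r * (1 + Real.log X) ^ (2 * 2 ^ r) * (n.divisors.card : ℝ) ^ (r + 1) := by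
  obtain ⟨L, hL⟩ : ∃ L, L = (1 + Real.log X) ^ (2 ^ r) := ⟨_, rfl⟩
  have hL0 : 0 ≤ L := by rw [hL]; exact pow_nonneg (log1_nonneg X) _
  have hL2 : (1 + Real.log X) ^ (2 * 2 ^ r) = L * L := by rw [hL, two_mul, pow_add]
  rw [hL2]
  unfold dsh
  refine (abs_sum_le_sum_abs _ _).trans ?_
  have h1 : ∀ q ∈ Icc 1 z, |(ram q n : ℝ) * ww r Y q n| ≤
      ∑ g ∈ n.divisors, if g ∣ q then (g : ℝ) * (r * ((q.divisors.card : ℝ) ^ r / q * L)) else 0 := by
    intro q hq
    rw [mem_Icc] at hq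
    rw [abs_mul, abs_of_nonneg (ww_nonneg r Y q n), ← sum_filter]
    have h2 : (Nat.gcd q n).divisors = n.divisors.filter (fun g => g ∣ q) := by
      ext g
      rw [mem_filter, Nat.mem_divisors, Nat.mem_divisors, Nat.dvd_gcd_iff]
      have : Nat.gcd q n ≠ 0 := Nat.gcd_ne_zero_left (by omega)
      constructor
      · rintro ⟨⟨h1, h2⟩, _⟩
        exact ⟨⟨h2, by omega⟩, h1⟩
      · rintro ⟨⟨h1, h2⟩, h3⟩
        exact ⟨⟨h3, h1⟩, this⟩
    have h3 := ram_le q n
    rw [h2] at h3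
    refine (mul_le_mul_of_nonneg_right h3 (ww_nonneg _ _ _ _)).trans ?_
    rw [sum_mul]
    apply sum_le_sum
    intro g _
    apply mul_le_mul_of_nonneg_left _ (Nat.cast_nonneg _)
    rw [hL]
    exact ww_le r Y q n X hq.1 hn
  refine (sum_le_sum h1).trans ?_
  rw [sum_comm]
  have h4 : ∀ g ∈ n.divisors, ∑ q ∈ Icc 1 z, (if g ∣ q then (g : ℝ) * (r * ((q.divisors.card : ℝ) ^ r / q * L)) else 0) ≤
      r * (L * L) * (n.divisors.card : ℝ) ^ r := by
    intro g hg
    have hgn := Nat.dvd_of_mem_divisors hg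
    have hg1 : 1 ≤ g := Nat.pos_of_mem_divisors hg
    have hg0 : (0 : ℝ) < g := by exact_mod_cast hg1
    rw [← sum_filter]
    have h5 : ∀ q ∈ (Icc 1 z).filter (fun q => g ∣ q), (g : ℝ) * (r * ((q.divisors.card : ℝ) ^ r / q * L)) =
        (g * r * L) * ((q.divisors.card : ℝ) ^ r / q) := by
      intro q _
      ring
    rw [sum_congr rfl h5, ← mul_sum]
    have h6 := mult_tau r g z X hg1 hz
    rw [← hL] at h6
    calc (g * r * L) * ∑ q ∈ (Icc 1 z).filter (fun q => g ∣ q), ((q.divisors.card : ℝ) ^ r / q) ≤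
        (g * r * L) * ((g.divisors.card : ℝ) ^ r / g * L) := mul_le_mul_of_nonneg_left h6 (by positivity)
      _ = r * (L * L) * (g.divisors.card : ℝ) ^ r := by field_simp
      _ ≤ r * (L * L) * (n.divisors.card : ℝ) ^ r := by
        apply mul_le_mul_of_nonneg_left _ (by positivity)
        apply pow_le_pow_left₀ (Nat.cast_nonneg _)
        exact_mod_cast divisors_card_le hgn (by omega)
  refine (sum_le_sum h4).trans (le_of_eq ?_)
  rw [sum_const, nsmul_eq_mul, pow_succ]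
  ring

end Pool.Agent.TH935.DS
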