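import Pool.Agent.TH935.DS3

set_option autoImplicit false

/-! Exponential sums of the divisor functions minus the model: minor and major arcs. -/

namespace Pool.Agent.TH935.DS
open Finset
open Pool.Agent.H807R2.Dav
open Pool.Agent.W93.LV (harm tau_mul log1_nonneg)
open Pool.Agent.H373R2.T7 (orth typeI_lin)

lemma cop_card (q : ℕ) : ((range q).filter (fun b => Nat.Coprime b q)).card ≤ q :=
  (card_filter_le _ _).trans (by rw [card_range])

lemma sum_EE_div (r Y n X : ℕ) (h : n ≤ X) : ∑ a ∈ Icc 1 n, (EE r Y a : ℝ) / a ≤ r * (1 + Real.log X) ^ (2 ^ r) := by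
  have h1 : ∀ a ∈ Icc 1 n, (EE r Y a : ℝ) / a ≤ r * ((a.divisors.card : ℝ) ^ r / a) := by
    intro a _
    rw [mul_div_assoc']
    exact div_le_div_of_nonneg_right (EE_le_tau r Y a) (Nat.cast_nonneg _)
  refine (sum_le_sum h1).trans ?_
  rw [← mul_sum]
  apply mul_le_mul_of_nonneg_left _ (Nat.cast_nonneg _)
  exact (tau_pow_div r n).trans (pow_le_pow_left₀ (log1_nonneg _) (log_mono1 h) _)

lemma sum_EE (r Y n X : ℕ) (h : n ≤ X) : ∑ a ∈ Icc 1 n, (EE r Y a : ℝ) ≤ r * (n * (1 + Real.log X) ^ (2 ^ r)) := by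
  have h1 : ∀ a ∈ Icc 1 n, (EE r Y a : ℝ) ≤ r * ((a.divisors.card : ℝ) ^ r) := fun a _ => EE_le_tau r Y a
  refine (sum_le_sum h1).trans ?_
  rw [← mul_sum]
  apply mul_le_mul_of_nonneg_left _ (Nat.cast_nonneg _)
  refine (tau_pow_sum r n).trans ?_
  apply mul_le_mul_of_nonneg_left _ (Nat.cast_nonneg _)
  exact pow_le_pow_left₀ (log1_nonneg _) (log_mono1 h) _

lemma sum_sI (r Y y X : ℕ) (h : Y ^ r ≤ X) : ∑ n ∈ Icc 1 y, ((sI Y ^ r) n : ℝ) ≤ (Y : ℝ) ^ r * (1 + Real.log X) ^ (2 ^ r) := by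
  have h1 : ∑ n ∈ Icc 1 y, ((sI Y ^ r) n : ℝ) ≤ ∑ n ∈ Icc 1 (Y ^ r), (n.divisors.card : ℝ) ^ r := by
    have h2 : ∑ n ∈ Icc 1 y, ((sI Y ^ r) n : ℝ) = ∑ n ∈ (Icc 1 y).filter (fun n => n ≤ Y ^ r), ((sI Y ^ r) n : ℝ) := by
      rw [sum_filter]
      apply sum_congr rfl
      intro n _
      split_ifs with h3
      · rfl
      · rw [sI_pow_zero Y r n (by omega)]
        simp
    rw [h2]
    refine (sum_le_sum_of_subset_of_nonneg (t := Icc 1 (Y ^ r)) ?_ (fun n _ _ => Nat.cast_nonneg _)).trans ?_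
    · intro n hn
      rw [mem_filter, mem_Icc] at hn
      rw [mem_Icc]
      exact ⟨hn.1.1, hn.2⟩
    · apply sum_le_sum
      intro n _
      have h3 := (sI_pow_le Y r n).trans (dk_le r n)
      exact_mod_cast h3
  refine h1.trans ((tau_pow_sum r _).trans ?_)
  push_cast
  apply mul_le_mul_of_nonneg_left _ (by positivity)
  apply pow_le_pow_left₀
  · have := log1_nonneg (Y ^ r)
    push_cast at this
    exact this
  · have := log_mono1 h
    push_cast at this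
    exact this

lemma norm_sI (r Y y X : ℕ) (h : Y ^ r ≤ X) (θ : ℝ) :
    ‖∑ n ∈ Icc 1 y, ((sI Y ^ r) n : ℂ) * ee ((n : ℝ) * θ)‖ ≤ (Y : ℝ) ^ r * (1 + Real.log X) ^ (2 ^ r) := by
  refine (norm_sum_le _ _).trans (le_trans (le_of_eq ?_) (sum_sI r Y y X h))
  apply sum_congr rfl
  intro n _
  rw [norm_mul, norm_ee, mul_one, Complex.norm_natCast]

/-- minor arcs: the model -/
lemma dsh_minor (r Y z y q0 X : ℕ) (hY : 1 ≤ Y) (hz : 1 ≤ z) (hzq : z < q0) (c : ℤ) (hc : IsCoprime c (q0 : ℤ))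
    (α : ℝ) (hα : 2 * Real.pi * |α - c / q0| ≤ 2 / (q0 * z)) (hyX : y ≤ X) :
    ‖∑ n ∈ Icc 1 y, (dsh r Y z n : ℂ) * ee ((n : ℝ) * α)‖ ≤ 3 / 2 * q0 * (z : ℝ) ^ 3 * (r * (1 + Real.log X) ^ (2 ^ r)) := by
  rw [sum_dsh r Y z y hY α]
  have hz0 : (0 : ℝ) < z := by exact_mod_cast hz
  have hq00 : (0 : ℝ) < q0 := by exact_mod_cast (by omega : 0 < q0)
  have h1 : ∀ a ∈ Icc 1 y, ‖(EE r Y a : ℂ) * ((1 / (a : ℂ)) * ∑ q ∈ (Icc 1 z).filter (fun q => q ∣ a),
      ∑ b ∈ (range q).filter (fun b => Nat.Coprime b q), ∑ n ∈ Ioc (a * Y) y, ee ((n : ℝ) * (α + (b : ℝ) / q)))‖ ≤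
      (3 / 2 * q0 * (z : ℝ) ^ 3) * ((EE r Y a : ℝ) / a) := by
    intro a ha
    rw [mem_Icc] at ha
    rw [norm_mul, norm_mul, Complex.norm_natCast, norm_div, norm_one, Complex.norm_natCast]
    have h2 : ∀ q ∈ (Icc 1 z).filter (fun q => q ∣ a), ‖∑ b ∈ (range q).filter (fun b => Nat.Coprime b q),
        ∑ n ∈ Ioc (a * Y) y, ee ((n : ℝ) * (α + (b : ℝ) / q))‖ ≤ z * (3 / 2 * q0 * z) := by
      intro q hq
      rw [mem_filter, mem_Icc] at hq
      have hq0 : (0 : ℝ) < q := by exact_mod_cast hq.1.1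
      have hqz : (q : ℝ) ≤ z := by exact_mod_cast hq.1.2
      have h3 : ∀ b ∈ (range q).filter (fun b => Nat.Coprime b q), ‖∑ n ∈ Ioc (a * Y) y, ee ((n : ℝ) * (α + (b : ℝ) / q))‖ ≤
          3 / 2 * q0 * z := by
        intro b hb
        rw [mem_filter] at hb
        have h4 : 2 / ((q0 : ℝ) * z) ≤ dd (α + (b : ℝ) / q) := by
          have h5 : α + (b : ℝ) / q = ((c : ℝ) / q0 + (b : ℝ) / q) + (α - c / q0) := by ring
          rw [h5]
          refine le_trans ?_ (dd_add_ge _ _)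
          rw [frac_add q0 q (by omega) hq.1.1 c b]
          have h6 := dd_frac (q0 * q) (Nat.mul_pos (by omega) hq.1.1) (c * q + b * q0) (by
            intro h7
            have := (reso q0 q (by omega) hq.1.1 c hc b hb.2 h7).1
            omega)
          have h7 : 4 / ((q0 : ℝ) * z) ≤ 4 / ((q0 * q : ℕ) : ℝ) := by
            push_cast
            apply div_le_div_of_nonneg_left (by norm_num) (by positivity)
            exact mul_le_mul_of_nonneg_left hqz hq00.le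
          have h8 : 4 / ((q0 : ℝ) * z) = 2 / ((q0 : ℝ) * z) + 2 / ((q0 : ℝ) * z) := by ring
          linarith
        refine (geo_Ioc _ _ _ _ (by positivity) h4).trans (le_of_eq ?_)
        field_simp
      refine (norm_sum_le _ _).trans ((sum_le_sum h3).trans ?_)
      rw [sum_const, nsmul_eq_mul]
      apply mul_le_mul_of_nonneg_right _ (by positivity)
      exact (by exact_mod_cast cop_card q : (((range q).filter (fun b => Nat.Coprime b q)).card : ℝ) ≤ q).trans hqz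
    have h3 : ‖∑ q ∈ (Icc 1 z).filter (fun q => q ∣ a), ∑ b ∈ (range q).filter (fun b => Nat.Coprime b q),
        ∑ n ∈ Ioc (a * Y) y, ee ((n : ℝ) * (α + (b : ℝ) / q))‖ ≤ z * (z * (3 / 2 * q0 * z)) := by
      refine (norm_sum_le _ _).trans ((sum_le_sum h2).trans ?_)
      rw [sum_const, nsmul_eq_mul]
      apply mul_le_mul_of_nonneg_right _ (by positivity)
      have : ((Icc 1 z).filter (fun q => q ∣ a)).card ≤ z := (card_filter_le _ _).trans (by simp)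
      exact_mod_cast this
    calc (EE r Y a : ℝ) * (1 / (a : ℝ) * ‖∑ q ∈ (Icc 1 z).filter (fun q => q ∣ a),
          ∑ b ∈ (range q).filter (fun b => Nat.Coprime b q), ∑ n ∈ Ioc (a * Y) y, ee ((n : ℝ) * (α + (b : ℝ) / q))‖) ≤
        (EE r Y a : ℝ) * (1 / (a : ℝ) * (z * (z * (3 / 2 * q0 * z)))) := by gcongr
      _ = _ := by ring
  refine (norm_sum_le _ _).trans ((sum_le_sum h1).trans ?_)
  rw [← mul_sum]
  exact mul_le_mul_of_nonneg_left (sum_EE_div r Y y X hyX) (by positivity)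

/-- type I sums with the weights of the divisors -/
theorem typeI_EE {q : ℕ} (hq : 1 ≤ q) {a : ℤ} (hcop : IsCoprime a (q : ℤ)) {α : ℝ}
    (hα : |α - a / q| ≤ 1 / (q : ℝ) ^ 2) (r Y N D : ℕ) (hN : 1 ≤ N) (hD : 1 ≤ D) :
    ∑ d ∈ Icc 1 D, (EE r Y d : ℝ) * KK (2 * N / d) (d * α) ≤
      Real.sqrt (6 * N * (r ^ 2 * (1 + Real.log D) ^ (2 ^ (2 * r)))) *
        Real.sqrt (600 * (Nat.log 2 D + 1 : ℝ) * ((N : ℝ) / q + D + q) * (1 + Real.log q)) := by
  have hN0 : (0 : ℝ) < N := by exact_mod_cast hN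
  have hKK0 : ∀ d : ℕ, 0 ≤ KK (2 * N / d) (d * α) := fun d => KK_nonneg (by positivity) _
  have h1 := sum_mul_sq_le_sq_mul_sq (Icc 1 D) (fun d => (EE r Y d : ℝ) * Real.sqrt (KK (2 * N / d) (d * α)))
    (fun d => Real.sqrt (KK (2 * N / d) (d * α)))
  have e1 : ∑ d ∈ Icc 1 D, (EE r Y d : ℝ) * Real.sqrt (KK (2 * N / d) (d * α)) * Real.sqrt (KK (2 * N / d) (d * α)) =
      ∑ d ∈ Icc 1 D, (EE r Y d : ℝ) * KK (2 * N / d) (d * α) := by
    apply sum_congr rfl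
    intro d _
    rw [mul_assoc, Real.mul_self_sqrt (hKK0 d)]
  have e2 : ∑ d ∈ Icc 1 D, Real.sqrt (KK (2 * N / d) (d * α)) ^ 2 = ∑ d ∈ Icc 1 D, KK (2 * N / d) (d * α) := by
    apply sum_congr rfl
    intro d _
    rw [Real.sq_sqrt (hKK0 d)]
  have hlD : 0 ≤ 1 + Real.log D := log1_nonneg D
  have e3 : ∑ d ∈ Icc 1 D, ((EE r Y d : ℝ) * Real.sqrt (KK (2 * N / d) (d * α))) ^ 2 ≤
      6 * N * (r ^ 2 * (1 + Real.log D) ^ (2 ^ (2 * r))) := by
    calc ∑ d ∈ Icc 1 D, ((EE r Y d : ℝ) * Real.sqrt (KK (2 * N / d) (d * α))) ^ 2 ≤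
          ∑ d ∈ Icc 1 D, 6 * N * (r ^ 2 * ((d.divisors.card : ℝ) ^ (2 * r) / d)) := by
          apply sum_le_sum
          intro d hd
          rw [mem_Icc] at hd
          have hd0 : (0 : ℝ) < d := by exact_mod_cast hd.1
          rw [mul_pow, Real.sq_sqrt (hKK0 d)]
          have h2 := KK_le (M := 2 * N / d) (by positivity) (d * α)
          have h3 : (EE r Y d : ℝ) ^ 2 ≤ (r * (d.divisors.card : ℝ) ^ r) ^ 2 :=
            pow_le_pow_left₀ (Nat.cast_nonneg _) (EE_le_tau r Y d) 2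
          calc (EE r Y d : ℝ) ^ 2 * KK (2 * N / d) (d * α) ≤ (r * (d.divisors.card : ℝ) ^ r) ^ 2 * (3 * (2 * N / d)) := by
                apply mul_le_mul h3 h2 (hKK0 d) (by positivity)
            _ = _ := by
                have : (d.divisors.card : ℝ) ^ (2 * r) = ((d.divisors.card : ℝ) ^ r) ^ 2 := by rw [← pow_mul, mul_comm]
                rw [this]
                field_simp; ring
      _ = 6 * N * (r ^ 2 * ∑ d ∈ Icc 1 D, ((d.divisors.card : ℝ) ^ (2 * r) / d)) := by rw [mul_sum, mul_sum]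
      _ ≤ _ := by
          apply mul_le_mul_of_nonneg_left _ (by positivity)
          apply mul_le_mul_of_nonneg_left _ (by positivity)
          exact tau_pow_div (2 * r) D
  rw [e1, e2] at h1
  have h2 := h1.trans (mul_le_mul e3 (typeI_lin hq hcop hα N D hN hD) (sum_nonneg fun d _ => hKK0 d) (by positivity))
  have h3 := Real.sqrt_le_sqrt h2
  rw [Real.sqrt_sq (sum_nonneg fun d _ => mul_nonneg (by positivity) (hKK0 d)), Real.sqrt_mul (by positivity)] at h3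
  exact h3

/-- minor arcs: the divisor function -/
lemma dk_minor (r Y y q0 : ℕ) (hY : 1 ≤ Y) (hYy : Y ≤ y) (hYr : Y ^ r ≤ y) (hq : 1 ≤ q0) (c : ℤ) (hc : IsCoprime c (q0 : ℤ))
    (α : ℝ) (hα : |α - c / q0| ≤ 1 / (q0 : ℝ) ^ 2) :
    ‖∑ n ∈ Icc 1 y, (dk r n : ℂ) * ee ((n : ℝ) * α)‖ ≤
      Real.sqrt (6 * y * (r ^ 2 * (1 + Real.log (y / Y : ℕ)) ^ (2 ^ (2 * r)))) *
        Real.sqrt (600 * (Nat.log 2 (y / Y) + 1 : ℝ) * ((y : ℝ) / q0 + (y / Y : ℕ) + q0) * (1 + Real.log q0)) +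
      (Y : ℝ) ^ r * (1 + Real.log y) ^ (2 ^ r) := by
  rw [sum_dk r Y y α]
  refine (norm_add_le _ _).trans (add_le_add ?_ (norm_sI r Y y y hYr α))
  have hD : 1 ≤ y / Y := Nat.div_pos hYy hY
  refine le_trans ?_ (typeI_EE hq hc hα r Y y (y / Y) (hY.trans hYy) hD)
  have h1 : ∑ a ∈ Icc 1 y, (EE r Y a : ℂ) * ∑ b ∈ Ioc Y (y / a), ee ((b : ℝ) * (a * α)) =
      ∑ a ∈ Icc 1 (y / Y), (EE r Y a : ℂ) * ∑ b ∈ Ioc Y (y / a), ee ((b : ℝ) * (a * α)) := by
    symm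
    apply sum_subset (Icc_subset_Icc_right (Nat.div_le_self _ _))
    intro a ha hna
    rw [mem_Icc] at ha hna
    have h2 : y / Y < a := by
      by_contra hcon
      exact hna ⟨ha.1, by omega⟩
    have h3 : y / a ≤ Y := by
      have h4 : y < a * Y := (Nat.div_lt_iff_lt_mul hY).1 h2
      exact Nat.div_le_of_le_mul h4.le
    rw [Ioc_eq_empty (by omega), sum_empty, mul_zero]
  rw [h1]
  refine (norm_sum_le _ _).trans (sum_le_sum fun a ha => ?_)
  rw [mem_Icc] at ha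
  rw [norm_mul, Complex.norm_natCast]
  apply mul_le_mul_of_nonneg_left _ (Nat.cast_nonneg _)
  have ha0 : (0 : ℝ) < a := by exact_mod_cast ha.1
  apply geo_Ioc' _ _ _ _ (by positivity)
  have h2 : ((y / a : ℕ) : ℝ) ≤ (y : ℝ) / a := Nat.cast_div_le
  have h3 : (0 : ℝ) ≤ Y := Nat.cast_nonneg _
  have h4 : (2 * (y : ℝ) / a) = 2 * ((y : ℝ) / a) := by ring
  have h5 : 0 ≤ (y : ℝ) / a := by positivity
  linarith

end Pool.Agent.TH935.DS
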