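import Pool.Agent.TH935.DS4
import Pool.Agent.W93.MC

set_option autoImplicit false

/-! Exponential sums of the divisor functions minus the model: the bound for every frequency. -/

namespace Pool.Agent.TH935.DS
open Finset
open Pool.Agent.H807R2.Dav
open Pool.Agent.W93.LV (harm tau_mul log1_nonneg)
open Pool.Agent.H373R2.T7 (orth abel_ee)

lemma inner_model (Y z y q0 a : ℕ) (h0 : 1 ≤ q0) (hq0z : q0 ≤ z) (c : ℤ) (hc : IsCoprime c (q0 : ℤ)) :
    ‖∑ q ∈ (Icc 1 z).filter (fun q => q ∣ a), ∑ b ∈ (range q).filter (fun b => Nat.Coprime b q),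
      ∑ n ∈ Ioc (a * Y) y, ee ((n : ℝ) * ((c : ℝ) / q0 + (b : ℝ) / q)) -
      (if q0 ∣ a then ((y - a * Y : ℕ) : ℂ) else 0)‖ ≤ z * (z * (3 / 4 * (z : ℝ) ^ 2)) := by
  have hq00 : (0 : ℝ) < q0 := by exact_mod_cast h0
  have hq0z' : (0 : ℤ) < q0 := by exact_mod_cast h0
  obtain ⟨b0, hb0⟩ : ∃ b0 : ℕ, b0 = ((-c) % (q0 : ℤ)).toNat := ⟨_, rfl⟩
  have hnn := Int.emod_nonneg (-c) hq0z'.ne'
  have hlt := Int.emod_lt_of_pos (-c) hq0z'
  have hb0z : (b0 : ℤ) = (-c) % q0 := by rw [hb0, Int.toNat_of_nonneg hnn]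
  have hb0lt : b0 < q0 := by omega
  have hdvd : (q0 : ℤ) ∣ c + b0 := by
    rw [hb0z]
    have := Int.emod_add_mul_ediv (-c) q0
    refine ⟨-((-c) / q0), ?_⟩
    linarith
  have hcop : Nat.Coprime b0 q0 := by
    rw [← Nat.isCoprime_iff_coprime]
    obtain ⟨k, hk⟩ := hdvd
    have : (b0 : ℤ) = -c + q0 * k := by linarith
    rw [this]
    exact IsCoprime.add_mul_left_left (IsCoprime.neg_left hc) k
  have hmain : (if q0 ∣ a then ((y - a * Y : ℕ) : ℂ) else 0) =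
      ∑ q ∈ (Icc 1 z).filter (fun q => q ∣ a), ∑ b ∈ (range q).filter (fun b => Nat.Coprime b q),
        if q = q0 ∧ b = b0 then ((y - a * Y : ℕ) : ℂ) else 0 := by
    by_cases h1 : q0 ∣ a
    · rw [if_pos h1, sum_eq_single q0, sum_eq_single b0, if_pos ⟨rfl, rfl⟩]
      · intro b _ hb
        rw [if_neg (fun h => hb h.2)]
      · intro h2
        exact absurd (by rw [mem_filter, mem_range]; exact ⟨hb0lt, hcop⟩) h2
      · intro q _ hq
        apply sum_eq_zero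
        intro b _
        rw [if_neg (fun h => hq h.1)]
      · intro h2
        exact absurd (by rw [mem_filter, mem_Icc]; exact ⟨⟨h0, hq0z⟩, h1⟩) h2
    · rw [if_neg h1]
      symm
      apply sum_eq_zero
      intro q hq
      rw [mem_filter] at hq
      apply sum_eq_zero
      intro b _
      rw [if_neg]
      rintro ⟨rfl, _⟩
      exact h1 hq.2
  rw [hmain, ← sum_sub_distrib]
  have h2 : ∀ q ∈ (Icc 1 z).filter (fun q => q ∣ a), ‖∑ b ∈ (range q).filter (fun b => Nat.Coprime b q),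
      ∑ n ∈ Ioc (a * Y) y, ee ((n : ℝ) * ((c : ℝ) / q0 + (b : ℝ) / q)) -
      ∑ b ∈ (range q).filter (fun b => Nat.Coprime b q), (if q = q0 ∧ b = b0 then ((y - a * Y : ℕ) : ℂ) else 0)‖ ≤
      z * (3 / 4 * (z : ℝ) ^ 2) := by
    intro q hq
    rw [mem_filter, mem_Icc] at hq
    have hqp : (0 : ℝ) < q := by exact_mod_cast hq.1.1
    have hqz : (q : ℝ) ≤ z := by exact_mod_cast hq.1.2
    have hq0zr : (q0 : ℝ) ≤ z := by exact_mod_cast hq0z
    rw [← sum_sub_distrib]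
    have h3 : ∀ b ∈ (range q).filter (fun b => Nat.Coprime b q),
        ‖∑ n ∈ Ioc (a * Y) y, ee ((n : ℝ) * ((c : ℝ) / q0 + (b : ℝ) / q)) -
        (if q = q0 ∧ b = b0 then ((y - a * Y : ℕ) : ℂ) else 0)‖ ≤ 3 / 4 * (z : ℝ) ^ 2 := by
      intro b hb
      rw [mem_filter, mem_range] at hb
      by_cases h4 : q = q0 ∧ b = b0
      · rw [if_pos h4]
        obtain ⟨h5, h6⟩ := h4
        subst h5 h6
        obtain ⟨k, hk⟩ := hdvd
        have h7 : ∀ n ∈ Ioc (a * Y) y, ee ((n : ℝ) * ((c : ℝ) / q + (b : ℝ) / q)) = 1 := by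
          intro n _
          have h8 : (c : ℝ) / q + (b : ℝ) / q = k := by
            have h9 : (c : ℝ) + b = q * k := by exact_mod_cast hk
            rw [← add_div, h9]
            field_simp
          rw [h8]
          have h10 : (n : ℝ) * (k : ℝ) = ((n * k : ℤ) : ℝ) := by push_cast; ring
          rw [h10, ee_int]
        rw [sum_congr rfl h7, sum_const, Nat.card_Ioc, nsmul_eq_mul, mul_one, sub_self, norm_zero]
        positivity
      · rw [if_neg h4, sub_zero, frac_add q0 q h0 hq.1.1 c b]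
        have h6 := dd_frac (q0 * q) (Nat.mul_pos h0 hq.1.1) (c * q + b * q0) (by
            intro h7
            have h8 := reso q0 q h0 hq.1.1 c hc b hb.2 h7
            apply h4
            refine ⟨h8.1, ?_⟩
            have h9 : (q0 : ℤ) ∣ (b : ℤ) - b0 := by
              have := dvd_sub h8.2 hdvd
              have e : c + (b : ℤ) - (c + b0) = b - b0 := by ring
              rwa [e] at this
            have h10 : |(b : ℤ) - b0| < q0 := by
              have := h8.1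
              rw [abs_lt]
              constructor <;> omega
            have := Int.eq_zero_of_abs_lt_dvd h9 h10
            omega)
        have hpos : (0 : ℝ) < ((q0 * q : ℕ) : ℝ) := by exact_mod_cast Nat.mul_pos h0 hq.1.1
        refine (geo_Ioc _ _ _ _ (by positivity) h6).trans ?_
        push_cast
        have h11 : 3 / (4 / ((q0 : ℝ) * q)) = 3 / 4 * (q0 * q) := by field_simp
        rw [h11, pow_two]
        apply mul_le_mul_of_nonneg_left _ (by norm_num)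
        exact mul_le_mul hq0zr hqz hqp.le (Nat.cast_nonneg _)
    refine (norm_sum_le _ _).trans ((sum_le_sum h3).trans ?_)
    rw [sum_const, nsmul_eq_mul]
    apply mul_le_mul_of_nonneg_right _ (by positivity)
    exact (by exact_mod_cast cop_card q : (((range q).filter (fun b => Nat.Coprime b q)).card : ℝ) ≤ q).trans hqz
  refine (norm_sum_le _ _).trans ((sum_le_sum h2).trans ?_)
  rw [sum_const, nsmul_eq_mul]
  apply mul_le_mul_of_nonneg_right _ (by positivity)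
  have : ((Icc 1 z).filter (fun q => q ∣ a)).card ≤ z := (card_filter_le _ _).trans (by simp)
  exact_mod_cast this

lemma inner_div (Y y q0 a : ℕ) (h0 : 1 ≤ q0) (c : ℤ) (hc : IsCoprime c (q0 : ℤ)) :
    ‖∑ b ∈ Ioc Y (y / a), ee ((b : ℝ) * (a * ((c : ℝ) / q0))) - (if q0 ∣ a then ((y / a - Y : ℕ) : ℂ) else 0)‖ ≤ q0 := by
  have hq00 : (0 : ℝ) < q0 := by exact_mod_cast h0
  by_cases h1 : q0 ∣ a
  · rw [if_pos h1]
    obtain ⟨k, rfl⟩ := h1
    have h7 : ∀ b ∈ Ioc Y (y / (q0 * k)), ee ((b : ℝ) * (((q0 * k : ℕ) : ℝ) * ((c : ℝ) / q0))) = 1 := by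
      intro b _
      have h8 : (b : ℝ) * (((q0 * k : ℕ) : ℝ) * ((c : ℝ) / q0)) = ((b * k * c : ℤ) : ℝ) := by
        push_cast
        field_simp
      rw [h8, ee_int]
    rw [sum_congr rfl h7, sum_const, Nat.card_Ioc, nsmul_eq_mul, mul_one, sub_self, norm_zero]
    positivity
  · rw [if_neg h1, sub_zero]
    have h2 : (a : ℝ) * ((c : ℝ) / q0) = ((a * c : ℤ) : ℝ) / q0 := by push_cast; ring
    have h3 := dd_frac q0 h0 (a * c) (by
      intro h4
      have h5 : (q0 : ℤ) ∣ a := hc.symm.dvd_of_dvd_mul_right h4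
      exact h1 (Int.natCast_dvd_natCast.1 h5))
    rw [h2]
    refine (geo_Ioc _ _ _ _ (by positivity) h3).trans ?_
    have h11 : 3 / (4 / (q0 : ℝ)) = 3 / 4 * q0 := by field_simp
    rw [h11]
    linarith

/-- exact frequencies -/
lemma major0 (r Y z y q0 X : ℕ) (hY : 1 ≤ Y) (hz : q0 ≤ z) (h0 : 1 ≤ q0) (c : ℤ) (hc : IsCoprime c (q0 : ℤ))
    (hyX : y ≤ X) (hYr : Y ^ r ≤ X) :
    ‖∑ n ∈ Icc 1 y, ((dk r n : ℂ) - (dsh r Y z n : ℂ)) * ee ((n : ℝ) * ((c : ℝ) / q0))‖ ≤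
      3 * (z : ℝ) ^ 4 * (r * ((X : ℝ) / Y * (1 + Real.log X) ^ (2 ^ r))) + (Y : ℝ) ^ r * (1 + Real.log X) ^ (2 ^ r) := by
  have hz1 : (1 : ℝ) ≤ z := by exact_mod_cast h0.trans hz
  have hz4 : (z : ℝ) ≤ (z : ℝ) ^ 4 := le_self_pow₀ hz1 (by norm_num)
  have hq0z : (q0 : ℝ) ≤ z := by exact_mod_cast hz
  have h1 : ∑ n ∈ Icc 1 y, ((dk r n : ℂ) - (dsh r Y z n : ℂ)) * ee ((n : ℝ) * ((c : ℝ) / q0)) =
      ∑ a ∈ Icc 1 y, (EE r Y a : ℂ) * (∑ b ∈ Ioc Y (y / a), ee ((b : ℝ) * (a * ((c : ℝ) / q0))) -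
        (1 / (a : ℂ)) * ∑ q ∈ (Icc 1 z).filter (fun q => q ∣ a),
      ∑ b ∈ (range q).filter (fun b => Nat.Coprime b q), ∑ n ∈ Ioc (a * Y) y, ee ((n : ℝ) * ((c : ℝ) / q0 + (b : ℝ) / q))) +
      ∑ n ∈ Icc 1 y, ((sI Y ^ r) n : ℂ) * ee ((n : ℝ) * ((c : ℝ) / q0)) := by
    simp only [sub_mul, mul_sub]
    rw [sum_sub_distrib, sum_sub_distrib, sum_dk r Y y, sum_dsh r Y z y hY]
    ring
  rw [h1]
  refine (norm_add_le _ _).trans (add_le_add ?_ (norm_sI r Y y X hYr _))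
  have h2 : ∀ a ∈ Icc 1 y, ‖(EE r Y a : ℂ) * (∑ b ∈ Ioc Y (y / a), ee ((b : ℝ) * (a * ((c : ℝ) / q0))) -
        (1 / (a : ℂ)) * ∑ q ∈ (Icc 1 z).filter (fun q => q ∣ a),
      ∑ b ∈ (range q).filter (fun b => Nat.Coprime b q), ∑ n ∈ Ioc (a * Y) y, ee ((n : ℝ) * ((c : ℝ) / q0 + (b : ℝ) / q)))‖ ≤
      if a ≤ y / Y then (3 * (z : ℝ) ^ 4) * (EE r Y a : ℝ) else 0 := by
    intro a ha
    rw [mem_Icc] at ha
    have ha0 : (0 : ℝ) < a := by exact_mod_cast ha.1
    have ha1 : (1 : ℝ) ≤ a := by exact_mod_cast ha.1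
    by_cases h3 : a ≤ y / Y
    · rw [if_pos h3, norm_mul, Complex.norm_natCast, mul_comm]
      apply mul_le_mul_of_nonneg_right _ (Nat.cast_nonneg _)
      have haY : a * Y ≤ y := (Nat.le_div_iff_mul_le hY).1 h3
      have e1 := inner_div Y y q0 a h0 c hc
      have e2 := inner_model Y z y q0 a h0 hz c hc
      obtain ⟨T, hT⟩ : ∃ T, T = ∑ b ∈ Ioc Y (y / a), ee ((b : ℝ) * (a * ((c : ℝ) / q0))) := ⟨_, rfl⟩
      obtain ⟨M, hM⟩ : ∃ M, M = ∑ q ∈ (Icc 1 z).filter (fun q => q ∣ a),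
        ∑ b ∈ (range q).filter (fun b => Nat.Coprime b q), ∑ n ∈ Ioc (a * Y) y, ee ((n : ℝ) * ((c : ℝ) / q0 + (b : ℝ) / q)) := ⟨_, rfl⟩
      rw [← hT] at e1 ⊢
      rw [← hM] at e2 ⊢
      obtain ⟨t, ht⟩ : ∃ t : ℂ, t = (if q0 ∣ a then ((y / a - Y : ℕ) : ℂ) else 0) := ⟨_, rfl⟩
      obtain ⟨m, hm⟩ : ∃ m : ℂ, m = (if q0 ∣ a then ((y - a * Y : ℕ) : ℂ) else 0) := ⟨_, rfl⟩
      rw [← ht] at e1
      rw [← hm] at e2
      have e3 : ‖t - (1 / (a : ℂ)) * m‖ ≤ 1 := by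
        rw [ht, hm]
        split_ifs with h4
        · have h5 : Y ≤ y / a := by
            rw [Nat.le_div_iff_mul_le ha.1, mul_comm]
            exact haY
          have h6 : (((y / a - Y : ℕ) : ℂ)) - (1 / (a : ℂ)) * ((y - a * Y : ℕ) : ℂ) =
              (((((y / a : ℕ) : ℝ) - (y : ℝ) / a : ℝ)) : ℂ) := by
            rw [Nat.cast_sub h5, Nat.cast_sub haY]
            have : (a : ℂ) ≠ 0 := by exact_mod_cast ha0.ne'
            push_cast
            field_simp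
            ring
          rw [h6, Complex.norm_real, Real.norm_eq_abs, abs_le]
          have h7 : ((y / a : ℕ) : ℝ) ≤ (y : ℝ) / a := Nat.cast_div_le
          have h8 : (y : ℝ) / a < ((y / a : ℕ) : ℝ) + 1 := by
            rw [div_lt_iff₀ ha0]
            have := Nat.lt_mul_div_succ y (show 0 < a by omega)
            have h9 : (y : ℝ) < a * (((y / a : ℕ) : ℝ) + 1) := by exact_mod_cast this
            linarith
          constructor <;> linarith
        · simp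
      have e4 : T - (1 / (a : ℂ)) * M = (T - t) + (t - (1 / (a : ℂ)) * m) - (1 / (a : ℂ)) * (M - m) := by ring
      rw [e4]
      refine (norm_sub_le _ _).trans ?_
      refine (add_le_add (norm_add_le _ _) le_rfl).trans ?_
      have e5 : ‖(1 / (a : ℂ)) * (M - m)‖ ≤ (z : ℝ) ^ 4 := by
        rw [norm_mul, norm_div, norm_one, Complex.norm_natCast]
        have h5 : 1 / (a : ℝ) ≤ 1 := by rw [div_le_one ha0]; exact ha1
        calc 1 / (a : ℝ) * ‖M - m‖ ≤ 1 * ‖M - m‖ := mul_le_mul_of_nonneg_right h5 (norm_nonneg _)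
          _ ≤ 1 * (z * (z * (3 / 4 * (z : ℝ) ^ 2))) := mul_le_mul_of_nonneg_left e2 (by norm_num)
          _ = 3 / 4 * (z : ℝ) ^ 4 := by ring
          _ ≤ _ := by linarith
      linarith
    · rw [if_neg h3]
      have h4 : y < a * Y := (Nat.div_lt_iff_lt_mul hY).1 (by omega)
      have h5 : y / a ≤ Y := Nat.div_le_of_le_mul h4.le
      rw [Ioc_eq_empty (by omega : ¬ Y < y / a), Ioc_eq_empty (by omega : ¬ a * Y < y)]
      simp
  refine (norm_sum_le _ _).trans ((sum_le_sum h2).trans ?_)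
  rw [← sum_filter]
  have h3 : (Icc 1 y).filter (fun a => a ≤ y / Y) = Icc 1 (y / Y) := by
    ext a
    rw [mem_filter, mem_Icc, mem_Icc]
    have := Nat.div_le_self y Y
    omega
  rw [h3, ← mul_sum]
  apply mul_le_mul_of_nonneg_left _ (by positivity)
  refine (sum_EE r Y (y / Y) X ((Nat.div_le_self _ _).trans hyX)).trans ?_
  apply mul_le_mul_of_nonneg_left _ (Nat.cast_nonneg _)
  apply mul_le_mul_of_nonneg_right _ (pow_nonneg (log1_nonneg X) _)
  refine (Nat.cast_div_le (α := ℝ)).trans ?_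
  apply div_le_div_of_nonneg_right _ (Nat.cast_nonneg _)
  exact_mod_cast hyX

lemma natlog_le (D : ℕ) : (Nat.log 2 D + 1 : ℝ) ≤ 2 * (1 + Real.log D) := by
  rcases Nat.eq_zero_or_pos D with h | h
  · subst h; simp
  · have h1 : 2 ^ Nat.log 2 D ≤ D := Nat.pow_log_le_self 2 (by omega)
    have h2 : Real.log ((2 : ℝ) ^ Nat.log 2 D) ≤ Real.log D := by
      apply Real.log_le_log (by positivity)
      exact_mod_cast h1
    rw [Real.log_pow] at h2
    have h3 := Real.log_two_gt_d9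
    have h4 : (0 : ℝ) ≤ Nat.log 2 D := Nat.cast_nonneg _
    have h5 : 0 ≤ Real.log D := Real.log_natCast_nonneg D
    nlinarith

/-- the bound for every frequency -/
theorem sup_gen (r Y z H : ℕ) (hr : 1 ≤ r) (hz : 2 ≤ z) (hzY : z ≤ Y) (hYH : Y ^ (2 * r) ≤ H) (hzH : 4 * z ^ 9 ≤ H) (α : ℝ) :
    ‖∑ n ∈ Icc 1 H, ((dk r n : ℂ) - (dsh r Y z n : ℂ)) * ee ((n : ℝ) * α)‖ ≤
      200 * r * (1 + Real.log H) ^ (2 ^ (2 * r) + 2) * (H / Real.sqrt z + (z : ℝ) ^ 8 * (H / Y)) := by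
  obtain ⟨V, hV⟩ : ∃ V, V = z ^ 4 := ⟨_, rfl⟩
  have hz1 : 1 ≤ z := by omega
  have hY1 : 1 ≤ Y := by omega
  have hzr : (2 : ℝ) ≤ z := by exact_mod_cast hz
  have hz0 : (0 : ℝ) < z := by linarith
  have hY0 : (0 : ℝ) < Y := by exact_mod_cast hY1
  have hzYr : (z : ℝ) ≤ Y := by exact_mod_cast hzY
  have hr1 : (1 : ℝ) ≤ r := by exact_mod_cast hr
  have hVr : (V : ℝ) = (z : ℝ) ^ 4 := by rw [hV]; push_cast; ring
  have hV1 : 1 ≤ V := by rw [hV]; exact Nat.one_le_pow _ _ hz1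
  have hVH : V * V ≤ H := by
    calc V * V = z ^ 8 := by rw [hV]; ring
      _ ≤ z ^ 9 := Nat.pow_le_pow_right hz1 (by norm_num)
      _ ≤ H := by omega
  have hH1 : 1 ≤ H := by
    have := Nat.mul_le_mul hV1 hV1
    omega
  have hH0 : (0 : ℝ) < H := by exact_mod_cast hH1
  have hYle : Y ≤ Y ^ (2 * r) := Nat.le_self_pow (by omega) _
  have hYH1 : Y ≤ H := hYle.trans hYH
  have hYr : Y ^ r ≤ H := (Nat.pow_le_pow_right hY1 (by omega)).trans hYH
  have hYr2 : (Y : ℝ) ^ r ≤ H / Y := by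
    rw [le_div_iff₀ hY0]
    have h1 : Y ^ r * Y ≤ H := by
      calc Y ^ r * Y = Y ^ (r + 1) := by rw [pow_succ]
        _ ≤ Y ^ (2 * r) := Nat.pow_le_pow_right hY1 (by omega)
        _ ≤ H := hYH
    exact_mod_cast h1
  obtain ⟨L, hL⟩ : ∃ L, L = 1 + Real.log H := ⟨_, rfl⟩
  have hL1 : 1 ≤ L := by
    rw [hL]
    have := Real.log_natCast_nonneg H
    linarith
  have hL0 : 0 < L := by linarith
  obtain ⟨K, hK⟩ : ∃ K, K = 2 ^ (2 * r) + 2 := ⟨_, rfl⟩
  have hLK : L ^ (2 ^ r) ≤ L ^ K := by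
    apply pow_le_pow_right₀ hL1
    rw [hK]
    have : 2 ^ r ≤ 2 ^ (2 * r) := Nat.pow_le_pow_right (by norm_num) (by omega)
    omega
  have hLK1 : 1 ≤ L ^ K := one_le_pow₀ hL1
  have hsz : 0 < Real.sqrt z := Real.sqrt_pos.2 hz0
  rw [← hL, ← hK]
  obtain ⟨q, c, hq, hc, hcase⟩ := Pool.Agent.W93.DG.diri H V hV1 hVH α
  have hq0 : (0 : ℝ) < q := by exact_mod_cast hq
  have hq1 : (1 : ℝ) ≤ q := by exact_mod_cast hq
  by_cases hqz : q ≤ z
  · -- major arcs
    have hqV : (q : ℝ) * (H * |α - c / q|) ≤ V := by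
      rcases hcase with h | h
      · exact h.2
      · exfalso
        have : z ≤ z ^ 4 := Nat.le_self_pow (by norm_num) _
        omega
    obtain ⟨β, hβ⟩ : ∃ β, β = α - c / q := ⟨_, rfl⟩
    rw [← hβ] at hqV
    have hHβ : H * |β| ≤ V := by
      have h1 : 0 ≤ H * |β| := by positivity
      nlinarith
    have h1 := abel_ee (fun n => ((dk r n : ℂ) - (dsh r Y z n : ℂ)) * ee ((n : ℝ) * ((c : ℝ) / q))) β
      (3 * (z : ℝ) ^ 4 * (r * ((H : ℝ) / Y * (1 + Real.log H) ^ (2 ^ r))) + (Y : ℝ) ^ r * (1 + Real.log H) ^ (2 ^ r)) H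
      (fun y hy => major0 r Y z y q H hY1 hqz hq c hc hy hYr)
    have h2 : ∑ n ∈ Icc 1 H, ((dk r n : ℂ) - (dsh r Y z n : ℂ)) * ee ((n : ℝ) * α) =
        ∑ n ∈ Icc 1 H, ((dk r n : ℂ) - (dsh r Y z n : ℂ)) * ee ((n : ℝ) * ((c : ℝ) / q)) * ee ((n : ℝ) * β) := by
      apply sum_congr rfl
      intro n _
      rw [mul_assoc, ← ee_add]
      congr 2
      rw [hβ]
      ring
    rw [h2]
    refine h1.trans ?_
    rw [← hL]
    have h3 : ‖ee β - 1‖ ≤ 2 * Real.pi * |β| := by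
      have : ‖ee β - 1‖ = dd β := by unfold dd; rw [← norm_neg, neg_sub]
      rw [this]
      exact dd_le β
    have h4 : 1 + (H : ℝ) * ‖ee β - 1‖ ≤ 8 * (z : ℝ) ^ 4 := by
      have h5 : (H : ℝ) * ‖ee β - 1‖ ≤ H * (2 * Real.pi * |β|) := mul_le_mul_of_nonneg_left h3 hH0.le
      have h6 : (H : ℝ) * (2 * Real.pi * |β|) = 2 * Real.pi * (H * |β|) := by ring
      have h7 : 2 * Real.pi * (H * |β|) ≤ 2 * Real.pi * V := mul_le_mul_of_nonneg_left hHβ (by positivity)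
      have h8 : (1 : ℝ) ≤ (z : ℝ) ^ 4 := one_le_pow₀ (by linarith)
      rw [hVr] at h7
      have h9 : 2 * Real.pi * (z : ℝ) ^ 4 ≤ 7 * (z : ℝ) ^ 4 := by
        apply mul_le_mul_of_nonneg_right _ (by positivity)
        linarith [Real.pi_lt_d2]
      linarith
    have h5 : 3 * (z : ℝ) ^ 4 * (r * ((H : ℝ) / Y * L ^ (2 ^ r))) + (Y : ℝ) ^ r * L ^ (2 ^ r) ≤
        4 * (z : ℝ) ^ 4 * (r * ((H : ℝ) / Y * L ^ K)) := by
      have e1 : 3 * (z : ℝ) ^ 4 * (r * ((H : ℝ) / Y * L ^ (2 ^ r))) ≤ 3 * (z : ℝ) ^ 4 * (r * ((H : ℝ) / Y * L ^ K)) := by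
        gcongr
      have e2 : (Y : ℝ) ^ r * L ^ (2 ^ r) ≤ (z : ℝ) ^ 4 * (r * ((H : ℝ) / Y * L ^ K)) := by
        have e3 : (1 : ℝ) ≤ (z : ℝ) ^ 4 := one_le_pow₀ (by linarith)
        calc (Y : ℝ) ^ r * L ^ (2 ^ r) ≤ (H / Y) * L ^ K := mul_le_mul hYr2 hLK (by positivity) (by positivity)
          _ = 1 * (1 * ((H / Y) * L ^ K)) := by ring
          _ ≤ _ := by gcongr
      linarith
    calc (3 * (z : ℝ) ^ 4 * (r * ((H : ℝ) / Y * L ^ (2 ^ r))) + (Y : ℝ) ^ r * L ^ (2 ^ r)) * (1 + (H : ℝ) * ‖ee β - 1‖) ≤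
        (4 * (z : ℝ) ^ 4 * (r * ((H : ℝ) / Y * L ^ K))) * (8 * (z : ℝ) ^ 4) := by
          apply mul_le_mul h5 h4 (by positivity) (by positivity)
      _ = 32 * r * L ^ K * (0 + (z : ℝ) ^ 8 * (H / Y)) := by ring
      _ ≤ 200 * r * L ^ K * (H / Real.sqrt z + (z : ℝ) ^ 8 * (H / Y)) := by
          have g1 : (0 : ℝ) ≤ H / Real.sqrt z := by positivity
          have g2 : (0 : ℝ) ≤ (z : ℝ) ^ 8 * (H / Y) := by positivity
          have g3 : (0 : ℝ) ≤ r * L ^ K := by positivity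
          have g4 : 0 ≤ r * L ^ K * (H / Real.sqrt z) := by positivity
          have g5 : 0 ≤ r * L ^ K * ((z : ℝ) ^ 8 * (H / Y)) := by positivity
          have g6 : 32 * r * L ^ K * (0 + (z : ℝ) ^ 8 * (H / Y)) = 32 * (r * L ^ K * ((z : ℝ) ^ 8 * (H / Y))) := by ring
          have g7 : 200 * r * L ^ K * (H / Real.sqrt z + (z : ℝ) ^ 8 * (H / Y)) =
              200 * (r * L ^ K * (H / Real.sqrt z)) + 200 * (r * L ^ K * ((z : ℝ) ^ 8 * (H / Y))) := by ring
          rw [g6, g7]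
          linarith
  · -- minor arcs
    push Not at hqz
    have hqzr : (z : ℝ) < q := by exact_mod_cast hqz
    have hqVH : q * V ≤ H := by
      rcases hcase with h | h
      · exact (Nat.mul_le_mul_right _ h.1).trans hVH
      · exact h.2.1
    have hqVHr : (q : ℝ) * V ≤ H := by exact_mod_cast hqVH
    have hβ1 : |α - c / q| ≤ 1 / (q : ℝ) ^ 2 := by
      rcases hcase with h | h
      · rw [le_div_iff₀ (by positivity)]
        have h1 : |α - c / q| * (q : ℝ) * H ≤ V := by linarith [h.2]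
        have h2 : |α - c / q| * (q : ℝ) ^ 2 * H ≤ V * q := by nlinarith
        have h3 : |α - c / q| * (q : ℝ) ^ 2 * H ≤ 1 * H := by linarith
        exact le_of_mul_le_mul_right h3 hH0
      · exact h.2.2
    have hβ2 : 2 * Real.pi * |α - c / q| ≤ 2 / (q * z) := by
      rw [le_div_iff₀ (by positivity)]
      rcases hcase with h | h
      · have h1 : |α - c / q| * (q : ℝ) * H ≤ V := by linarith [h.2]
        have h2 : 4 * (V : ℝ) * z ≤ H := by
          have h3 : 4 * (V * z) ≤ H := by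
            calc 4 * (V * z) = 4 * z ^ 5 := by rw [hV]; ring
              _ ≤ 4 * z ^ 9 := Nat.mul_le_mul_left _ (Nat.pow_le_pow_right hz1 (by norm_num))
              _ ≤ H := hzH
          have h4 : 4 * ((V : ℝ) * z) ≤ H := by exact_mod_cast h3
          linarith
        have h3 : 2 * Real.pi * |α - c / q| * (q * z) * H ≤ 2 * H := by
          calc 2 * Real.pi * |α - c / q| * (q * z) * H = 2 * Real.pi * z * (|α - c / q| * q * H) := by ring
            _ ≤ 2 * Real.pi * z * V := mul_le_mul_of_nonneg_left h1 (by positivity)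
            _ ≤ 2 * 4 * z * V := by
                apply mul_le_mul_of_nonneg_right _ (Nat.cast_nonneg _)
                apply mul_le_mul_of_nonneg_right _ hz0.le
                linarith [Real.pi_lt_d2]
            _ ≤ 2 * H := by linarith
        exact le_of_mul_le_mul_right h3 hH0
      · have h1 : |α - c / q| * (q : ℝ) ^ 2 ≤ 1 := by
          have := h.2.2
          rwa [le_div_iff₀ (by positivity)] at this
        have h2 : 4 * (z : ℝ) ≤ q := by
          have h3 : 4 * z ≤ q := by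
            have h4 : z ^ 4 = z ^ 3 * z := by ring
            have h5 : 2 ^ 3 ≤ z ^ 3 := Nat.pow_le_pow_left hz 3
            have h6 : 2 ^ 3 * z ≤ z ^ 3 * z := Nat.mul_le_mul_right _ h5
            omega
          exact_mod_cast h3
        have h0 : 0 ≤ |α - c / q| := abs_nonneg _
        calc 2 * Real.pi * |α - c / q| * (q * z) = (2 * Real.pi / 4) * (|α - c / q| * q * (4 * z)) := by ring
          _ ≤ (2 * Real.pi / 4) * (|α - c / q| * q * q) := by gcongr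
          _ ≤ (2 * Real.pi / 4) * 1 := by
              apply mul_le_mul_of_nonneg_left _ (by positivity)
              rw [pow_two, ← mul_assoc] at h1
              exact h1
          _ ≤ 2 := by linarith [Real.pi_lt_d2]
    have hqHz : (q : ℝ) ≤ H / (z : ℝ) ^ 4 := by
      rw [le_div_iff₀ (by positivity), ← hVr]
      exact hqVHr
    have h1 := dsh_minor r Y z H q H hY1 hz1 hqz c hc α hβ2 le_rfl
    have h2 := dk_minor r Y H q hY1 hYH1 hYr hq c hc α hβ1
    rw [← hL] at h1 h2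
    have h3 : ∑ n ∈ Icc 1 H, ((dk r n : ℂ) - (dsh r Y z n : ℂ)) * ee ((n : ℝ) * α) =
        ∑ n ∈ Icc 1 H, (dk r n : ℂ) * ee ((n : ℝ) * α) - ∑ n ∈ Icc 1 H, (dsh r Y z n : ℂ) * ee ((n : ℝ) * α) := by
      rw [← sum_sub_distrib]
      exact sum_congr rfl fun n _ => by ring
    rw [h3]
    refine (norm_sub_le _ _).trans ((add_le_add h2 h1).trans ?_)
    have hHz : (H : ℝ) / z ≤ H / Real.sqrt z := by
      apply div_le_div_of_nonneg_left hH0.le hsz
      rw [Real.sqrt_le_left hz0.le]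
      nlinarith
    have e1 : 3 / 2 * (q : ℝ) * (z : ℝ) ^ 3 * (r * L ^ (2 ^ r)) ≤ 3 / 2 * r * L ^ K * (H / Real.sqrt z) := by
      calc 3 / 2 * (q : ℝ) * (z : ℝ) ^ 3 * (r * L ^ (2 ^ r)) ≤ 3 / 2 * (H / (z : ℝ) ^ 4) * (z : ℝ) ^ 3 * (r * L ^ K) := by gcongr
        _ = 3 / 2 * r * L ^ K * (H / z) := by field_simp
        _ ≤ _ := mul_le_mul_of_nonneg_left hHz (by positivity)
    have e2 : (Y : ℝ) ^ r * L ^ (2 ^ r) ≤ r * L ^ K * ((z : ℝ) ^ 8 * (H / Y)) := by
      have e3 : (1 : ℝ) ≤ (z : ℝ) ^ 8 := one_le_pow₀ (by linarith)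
      calc (Y : ℝ) ^ r * L ^ (2 ^ r) ≤ (H / Y) * L ^ K := mul_le_mul hYr2 hLK (by positivity) (by positivity)
        _ = 1 * L ^ K * (1 * (H / Y)) := by ring
        _ ≤ _ := by gcongr
    have hDle : H / Y ≤ H := Nat.div_le_self _ _
    have hD1 : 1 ≤ H / Y := Nat.div_pos hYH1 hY1
    have hlD : 1 + Real.log (H / Y : ℕ) ≤ L := by rw [hL]; exact log_mono1 hDle
    have hlD0 : 0 ≤ 1 + Real.log (H / Y : ℕ) := log1_nonneg _
    have hqH : q ≤ H := (Nat.le_mul_of_pos_right _ hV1).trans hqVH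
    have hlq : 1 + Real.log q ≤ L := by rw [hL]; exact log_mono1 hqH
    have hlq0 : 0 ≤ 1 + Real.log q := log1_nonneg _
    have hHz0 : (H : ℝ) / q + (H / Y : ℕ) + q ≤ 3 * (H / z) := by
      have a1 : (H : ℝ) / q ≤ H / z := div_le_div_of_nonneg_left hH0.le hz0 hqzr.le
      have a2 : ((H / Y : ℕ) : ℝ) ≤ H / z := Nat.cast_div_le.trans (div_le_div_of_nonneg_left hH0.le hz0 hzYr)
      have a3 : (q : ℝ) ≤ H / z := by
        refine hqHz.trans (div_le_div_of_nonneg_left hH0.le hz0 ?_)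
        exact le_self_pow₀ (by linarith) (by norm_num)
      linarith
    have e4 : Real.sqrt (6 * H * (r ^ 2 * (1 + Real.log (H / Y : ℕ)) ^ (2 ^ (2 * r)))) *
        Real.sqrt (600 * (Nat.log 2 (H / Y) + 1 : ℝ) * ((H : ℝ) / q + (H / Y : ℕ) + q) * (1 + Real.log q)) ≤
        150 * r * L ^ K * (H / Real.sqrt z) := by
      rw [← Real.sqrt_mul (by positivity)]
      apply Real.sqrt_le_iff.2
      refine ⟨by positivity, ?_⟩
      have b1 := natlog_le (H / Y)
      have b2 : (Nat.log 2 (H / Y) + 1 : ℝ) ≤ 2 * L := b1.trans (by linarith)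
      have b0 : (0 : ℝ) ≤ (Nat.log 2 (H / Y) + 1 : ℝ) := by positivity
      calc 6 * (H : ℝ) * (r ^ 2 * (1 + Real.log (H / Y : ℕ)) ^ (2 ^ (2 * r))) *
          (600 * (Nat.log 2 (H / Y) + 1 : ℝ) * ((H : ℝ) / q + (H / Y : ℕ) + q) * (1 + Real.log q)) ≤
          6 * (H : ℝ) * (r ^ 2 * L ^ (2 ^ (2 * r))) * (600 * (2 * L) * (3 * (H / z)) * L) := by gcongr
        _ = 21600 * (H ^ 2 / z) * r ^ 2 * (L ^ (2 ^ (2 * r)) * L ^ 2) := by ring
        _ = 21600 * (H ^ 2 / z) * r ^ 2 * L ^ K := by rw [hK, pow_add]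
        _ ≤ 22500 * (H ^ 2 / z) * r ^ 2 * (L ^ K * L ^ K) := by
            have b3 : L ^ K ≤ L ^ K * L ^ K := le_mul_of_one_le_left (by positivity) hLK1
            have b4 : (0 : ℝ) ≤ H ^ 2 / z * r ^ 2 := by positivity
            have b5 : 0 ≤ L ^ K * L ^ K := by positivity
            calc 21600 * ((H : ℝ) ^ 2 / z) * r ^ 2 * L ^ K = 21600 * ((H : ℝ) ^ 2 / z * r ^ 2) * L ^ K := by ring
              _ ≤ 22500 * ((H : ℝ) ^ 2 / z * r ^ 2) * (L ^ K * L ^ K) := by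
                  apply mul_le_mul _ b3 (by positivity) (by positivity)
                  linarith
              _ = _ := by ring
        _ = (150 * r * L ^ K * (H / Real.sqrt z)) ^ 2 := by
            rw [mul_pow, mul_pow, mul_pow, div_pow, Real.sq_sqrt hz0.le]
            ring
    have e5 : 0 ≤ r * L ^ K * (H / Real.sqrt z) := by positivity
    have e6 : 0 ≤ r * L ^ K * ((z : ℝ) ^ 8 * (H / Y)) := by positivity
    calc _ ≤ (150 * r * L ^ K * (H / Real.sqrt z) + r * L ^ K * ((z : ℝ) ^ 8 * (H / Y))) + 3 / 2 * r * L ^ K * (H / Real.sqrt z) :=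
          add_le_add (add_le_add e4 e2) e1
      _ = 303 / 2 * (r * L ^ K * (H / Real.sqrt z)) + r * L ^ K * ((z : ℝ) ^ 8 * (H / Y)) := by ring
      _ ≤ 200 * (r * L ^ K * (H / Real.sqrt z)) + 200 * (r * L ^ K * ((z : ℝ) ^ 8 * (H / Y))) := by linarith
      _ = _ := by ring

end Pool.Agent.TH935.DS
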