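import Pool.Agent.TH823.Fam.Fam1

set_option autoImplicit false

/-! Correlations with a function with small exponential sums, for almost all shifts of a family of nearly minimal
energy: functions with bounded moments. -/

namespace Pool.Agent.TH935.DS
open Finset
open Pool.Agent.H807R2.Dav
open Pool.Agent.H373R2.T7 (exI energy fz bil_main moment_energy ev_L')
open Pool.Agent.TH823.Fam (log_pow_small grid_size)

lemma shift_sum (φ : ℕ → ℝ) (hφ : ∀ n, 0 ≤ φ n) (A H : ℕ) (s : ℤ) (hA : (A : ℤ) + s ≤ H) :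
    ∑ a ∈ Icc 1 A, (if 1 ≤ (a : ℤ) + s then φ ((a : ℤ) + s).toNat else 0) ≤ ∑ n ∈ Icc 1 H, φ n := by
  rw [← sum_filter, ← sum_image (f := φ) (g := fun a : ℕ => ((a : ℤ) + s).toNat)]
  · apply sum_le_sum_of_subset_of_nonneg
    · intro n hn
      rw [mem_image] at hn
      obtain ⟨a, ha, rfl⟩ := hn
      rw [mem_filter, mem_Icc] at ha
      rw [mem_Icc]
      omega
    · intro n _ _
      exact hφ n
  · intro a ha b hb hab
    rw [mem_coe, mem_filter, mem_Icc] at ha hb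
    simp only at hab
    omega

lemma exI_pow (f : ℕ → ℂ) (j : ℕ) (hj : j ≠ 0) (k : ℤ) : ‖exI f k‖ ^ j = if 1 ≤ k then ‖f k.toNat‖ ^ j else 0 := by
  unfold exI
  split_ifs
  · rfl
  · rw [norm_zero, zero_pow hj]

lemma exI_sum (f : ℕ → ℂ) (j : ℕ) (hj : j ≠ 0) (A H : ℕ) (s : ℤ) (hA : (A : ℤ) + s ≤ H) :
    ∑ a ∈ Icc 1 A, ‖exI f (a + s)‖ ^ j ≤ ∑ n ∈ Icc 1 H, ‖f n‖ ^ j := by
  refine le_trans (le_of_eq ?_) (shift_sum (fun n => ‖f n‖ ^ j) (fun n => by positivity) A H s hA)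
  apply sum_congr rfl
  intro a _
  exact exI_pow f j hj _

set_option maxHeartbeats 1000000 in
/-- the first moment over a family of shifts of nearly minimal energy -/
theorem l1_gen (p B C K U : ℕ) : ∃ V N0 : ℕ, ∀ N : ℕ, N0 ≤ N →
    ∀ (x : ℕ) (s : ℕ → ℤ), (∀ m ∈ Icc 1 x, |s m| ≤ B * N) →
    (energy p x s : ℝ) * N ≤ Real.log N ^ C * (x : ℝ) ^ (2 * p) →
    ∀ f : ℕ → ℂ, (∀ α : ℝ, ‖∑ n ∈ Icc 1 (2 * ((B + 1) * N)), f n * ee ((n : ℝ) * α)‖ ≤ N / Real.log N ^ V) →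
    (∑ n ∈ Icc 1 (2 * ((B + 1) * N)), ‖f n‖ ^ 2 ≤ N * Real.log N ^ K) →
    ∀ A : ℕ, A ≤ B * N → ∀ G : ℕ → ℂ, (∑ a ∈ Icc 1 A, ‖G a‖ ^ 4 ≤ N * Real.log N ^ K) →
    ∑ m ∈ Icc 1 x, ‖∑ a ∈ Icc 1 A, G a * exI f (a + s m)‖ ≤ N * x / Real.log N ^ U := by
  obtain ⟨b, hb⟩ : ∃ b, b = K + U + 1 := ⟨_, rfl⟩
  obtain ⟨a0, ha0⟩ : ∃ a0, a0 = b + K + U + 1 := ⟨_, rfl⟩
  obtain ⟨V, hV⟩ : ∃ V, V = b + C + 2 * p * a0 + U + 1 := ⟨_, rfl⟩
  obtain ⟨m3, h3⟩ := ev_L' ((4 * p + 5) * (B + 1) + (B + 1) + 2 : ℝ)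
  refine ⟨V, m3 + 3, fun N hN x s hs hE f hsup hf2 A hA G hG => ?_⟩
  have hL := h3 N (by omega)
  have hNr : (3 : ℝ) ≤ N := by exact_mod_cast (by omega : 3 ≤ N)
  have hN0 : (0 : ℝ) < N := by linarith
  obtain ⟨L, hLd⟩ : ∃ L, L = Real.log (N : ℝ) := ⟨_, rfl⟩
  rw [← hLd] at hL hE hsup hf2 hG ⊢
  obtain ⟨B1, hB1⟩ : ∃ B1, B1 = B + 1 := ⟨_, rfl⟩
  have hB1r' : (B1 : ℝ) = B + 1 := by rw [hB1]; push_cast; ring
  have hB1pos : 1 ≤ B1 := by omega
  have hB1r : (1 : ℝ) ≤ B1 := by exact_mod_cast hB1pos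
  have hp0 : (0 : ℝ) ≤ p := Nat.cast_nonneg _
  have hpB : 0 ≤ (4 * (p : ℝ) + 5) * B1 := by positivity
  have hL' : (4 * (p : ℝ) + 5) * B1 + B1 + 2 ≤ L := by rw [hB1r']; linarith
  have hLge1 : 1 ≤ L := by linarith
  have hL0 : 0 < L := by linarith
  rcases Nat.eq_zero_or_pos x with hx | hx
  · rw [hx]; simp
  have hx0 : (0 : ℝ) < x := by exact_mod_cast hx
  obtain ⟨H, hH⟩ : ∃ H, H = 2 * (B1 * N) := ⟨_, rfl⟩
  obtain ⟨M, hM⟩ : ∃ M, M = (4 * p + 5) * (B1 * N) := ⟨_, rfl⟩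
  rw [← hB1, ← hH] at hsup hf2
  have hBN : B * N ≤ B1 * N := Nat.mul_le_mul_right _ (by omega)
  have hB1N : 1 ≤ B1 * N := Nat.mul_pos hB1pos (by omega)
  have hM5 : 5 * (B1 * N) ≤ M := by
    rw [hM]; exact Nat.mul_le_mul_right _ (by omega)
  have hM1 : 1 ≤ M := by omega
  have hHM : H ≤ M := by omega
  have hMr : (M : ℝ) = (4 * p + 5) * (B1 * N) := by rw [hM]; push_cast; ring
  have hcond : ∀ a ∈ Icc 1 A, ∀ m ∈ Icc 1 x, ∀ n ∈ Icc 1 H, |(a : ℤ) + s m - n| < M := by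
    intro a ha m hm n hn
    have h4 := abs_le.1 (hs m hm)
    rw [mem_Icc] at ha hn
    have h5 : (a : ℤ) ≤ B * N := by exact_mod_cast ha.2.trans hA
    have h6 : (n : ℤ) ≤ 2 * (B1 * N) := by rw [hH] at hn; exact_mod_cast hn.2
    have h7 : (5 : ℤ) * (B1 * N) ≤ M := by exact_mod_cast hM5
    have h8 : (B : ℤ) * N ≤ B1 * N := by exact_mod_cast hBN
    have h9 : (1 : ℤ) ≤ B1 * N := by exact_mod_cast hB1N
    have h10 : (0 : ℤ) ≤ a := by positivity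
    have h11 : (0 : ℤ) ≤ n := by positivity
    rw [abs_lt]
    constructor <;> linarith [h4.1, h4.2]
  have hAM : A ≤ M := hA.trans (by omega)
  have hmomE := moment_energy p x s M (B * N) hM1 (fun m hm => by
    have := hs m hm
    push_cast
    exact this) (by
    have h4 : 2 * p * (B * N) ≤ 2 * p * (B1 * N) := Nat.mul_le_mul_left _ hBN
    have h5 : 2 * p * (B1 * N) < (4 * p + 5) * (B1 * N) := Nat.mul_lt_mul_of_pos_right (by omega) hB1N
    omega)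
  obtain ⟨C0, hC0⟩ : ∃ C0, C0 = (4 * (p : ℝ) + 5) * B1 * L ^ C := ⟨_, rfl⟩
  have hmom : ∑ t ∈ range M, (‖∑ m ∈ Icc 1 x, ee ((t : ℝ) * ((s m : ℝ) / M))‖ / x) ^ (2 * p) ≤ C0 := by
    have h2 : ∑ t ∈ range M, (‖∑ m ∈ Icc 1 x, ee ((t : ℝ) * ((s m : ℝ) / M))‖ / x) ^ (2 * p) =
        (M * energy p x s) / (x : ℝ) ^ (2 * p) := by
      rw [← hmomE, sum_div]
      exact sum_congr rfl fun t _ => div_pow _ _ _
    rw [h2, div_le_iff₀ (by positivity), hMr]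
    calc (4 * (p : ℝ) + 5) * (B1 * N) * energy p x s = (4 * p + 5) * B1 * (energy p x s * N) := by ring
      _ ≤ (4 * p + 5) * B1 * (L ^ C * (x : ℝ) ^ (2 * p)) := mul_le_mul_of_nonneg_left hE (by positivity)
      _ = _ := by rw [hC0]; ring
  -- truncation
  obtain ⟨T, hT⟩ : ∃ T, T = L ^ b := ⟨_, rfl⟩
  have hT0 : 0 < T := by rw [hT]; positivity
  obtain ⟨G1, hG1⟩ : ∃ G1 : ℕ → ℂ, G1 = fun a => if ‖G a‖ ≤ T then G a / (T : ℂ) else 0 := ⟨_, rfl⟩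
  have hTn : ‖(T : ℂ)‖ = T := by rw [Complex.norm_real, Real.norm_of_nonneg hT0.le]
  have hTne : (T : ℂ) ≠ 0 := by exact_mod_cast hT0.ne'
  have hG1b : ∀ a, ‖G1 a‖ ≤ 1 := by
    intro a
    rw [hG1]
    simp only
    split_ifs with h4
    · rw [norm_div, hTn, div_le_one hT0]
      exact h4
    · simp
  obtain ⟨S1, hS1⟩ : ∃ S1 : ℕ → ℂ, S1 = fun m => ∑ a ∈ Icc 1 A, G1 a * exI f (a + s m) := ⟨_, rfl⟩
  have hη : 0 < 1 / L ^ a0 := by positivity
  obtain ⟨c, hc⟩ : ∃ c : ℕ → ℂ, c = fun m => (starRingEnd ℂ) (S1 m) / ‖S1 m‖ := ⟨_, rfl⟩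
  have hc1 : ∀ m, ‖c m‖ ≤ 1 := by
    intro m
    rw [hc]
    simp only [norm_div, RCLike.norm_conj, Complex.norm_real, norm_norm]
    exact div_self_le_one _
  have key := bil_main A H x M hM1 f G1 c s (N / L ^ V) (1 / L ^ a0) p C0
    (N * L ^ K) hcond hAM hHM hx hsup hG1b hc1 hmom hf2 hη
  have heq : ∑ a ∈ Icc 1 A, ∑ m ∈ Icc 1 x, G1 a * c m * fz f H (a + s m) =
      ((∑ m ∈ Icc 1 x, ‖S1 m‖ : ℝ) : ℂ) := by
    have e0 : ∑ a ∈ Icc 1 A, ∑ m ∈ Icc 1 x, G1 a * c m * fz f H (a + s m) =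
        ∑ a ∈ Icc 1 A, ∑ m ∈ Icc 1 x, G1 a * c m * exI f (a + s m) := by
      apply sum_congr rfl
      intro a ha
      apply sum_congr rfl
      intro m hm
      congr 1
      unfold fz exI
      have h4 := abs_le.1 (hs m hm)
      rw [mem_Icc] at ha
      have h5 : (a : ℤ) ≤ B * N := by exact_mod_cast ha.2.trans hA
      have h8 : (B : ℤ) * N ≤ B1 * N := by exact_mod_cast hBN
      have h9 : (H : ℤ) = 2 * (B1 * N) := by rw [hH]; push_cast; ring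
      by_cases h6 : 1 ≤ (a : ℤ) + s m
      · rw [if_pos h6, if_pos ⟨h6, by linarith [h4.2]⟩]
      · rw [if_neg h6, if_neg (fun h => h6 h.1)]
    rw [e0, sum_comm]
    push_cast
    apply sum_congr rfl
    intro m _
    have e1 : ∑ a ∈ Icc 1 A, G1 a * c m * exI f (a + s m) = c m * S1 m := by
      rw [hS1, mul_sum]
      apply sum_congr rfl
      intro a _
      ring
    rw [e1, hc]
    simp only
    by_cases h0 : ‖S1 m‖ = 0
    · rw [norm_eq_zero.1 h0]; simp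
    · have h0' : ((‖S1 m‖ : ℝ) : ℂ) ≠ 0 := by exact_mod_cast h0
      rw [div_mul_eq_mul_div, mul_comm, Complex.mul_conj', pow_two]
      field_simp
  rw [heq, Complex.norm_real, Real.norm_of_nonneg (sum_nonneg fun _ _ => norm_nonneg _)] at key
  -- the rest
  have hrest : ∀ m ∈ Icc 1 x, ‖∑ a ∈ Icc 1 A, G a * exI f (a + s m)‖ ≤ T * ‖S1 m‖ + 1 / T * (2 * (N * L ^ K)) := by
    intro m hm
    have e1 : ∑ a ∈ Icc 1 A, G a * exI f (a + s m) = (T : ℂ) * S1 m + ∑ a ∈ Icc 1 A, (G a - T * G1 a) * exI f (a + s m) := by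
      rw [hS1, mul_sum, ← sum_add_distrib]
      apply sum_congr rfl
      intro a _
      ring
    rw [e1]
    refine (norm_add_le _ _).trans ?_
    rw [norm_mul, hTn]
    apply add_le_add le_rfl
    have e2 : ∀ a ∈ Icc 1 A, ‖(G a - T * G1 a) * exI f (a + s m)‖ ≤ 1 / T * (‖G a‖ ^ 4 + ‖exI f (a + s m)‖ ^ 2) := by
      intro a _
      rw [norm_mul, hG1]
      simp only
      split_ifs with h4
      · rw [mul_div_cancel₀ _ hTne, sub_self, norm_zero, zero_mul]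
        positivity
      · push Not at h4
        rw [mul_zero, sub_zero, one_div, ← div_eq_inv_mul, le_div_iff₀ hT0]
        have u0 : 0 ≤ ‖G a‖ := norm_nonneg _
        have v0 : 0 ≤ ‖exI f (a + s m)‖ := norm_nonneg _
        have e3 : ‖G a‖ * ‖exI f (a + s m)‖ * T ≤ ‖G a‖ ^ 2 * ‖exI f (a + s m)‖ := by
          calc ‖G a‖ * ‖exI f (a + s m)‖ * T ≤ ‖G a‖ * ‖exI f (a + s m)‖ * ‖G a‖ := by gcongr
            _ = _ := by ring
        have e4 : ‖G a‖ ^ 2 * ‖exI f (a + s m)‖ ≤ ‖G a‖ ^ 4 + ‖exI f (a + s m)‖ ^ 2 := by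
          nlinarith [sq_nonneg (‖G a‖ ^ 2 - ‖exI f (a + s m)‖), sq_nonneg (‖G a‖ ^ 2), sq_nonneg ‖exI f (a + s m)‖]
        linarith
    refine (norm_sum_le _ _).trans ((sum_le_sum e2).trans ?_)
    rw [← mul_sum, sum_add_distrib]
    apply mul_le_mul_of_nonneg_left _ (by positivity)
    have e3 := exI_sum f 2 (by norm_num) A H (s m) (by
      have h4 := abs_le.1 (hs m hm)
      have h5 : (A : ℤ) ≤ B * N := by exact_mod_cast hA
      have h8 : (B : ℤ) * N ≤ B1 * N := by exact_mod_cast hBN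
      have h9 : (H : ℤ) = 2 * (B1 * N) := by rw [hH]; push_cast; ring
      linarith [h4.2])
    linarith
  refine (sum_le_sum hrest).trans ?_
  rw [sum_add_distrib, ← mul_sum, sum_const, Nat.card_Icc, nsmul_eq_mul, Nat.add_sub_cancel]
  have hAr : (A : ℝ) ≤ B1 * N := by exact_mod_cast hA.trans hBN
  have hA0 : (0 : ℝ) ≤ A := Nat.cast_nonneg _
  have hM0 : (0 : ℝ) < M := by exact_mod_cast hM1
  have hAM' : (A : ℝ) ≤ M := by exact_mod_cast hAM
  have t1 : T * (C0 / (1 / L ^ a0) ^ (2 * p) * (N / L ^ V) * A * x / M) ≤ ((4 * p + 5) * B1 / L) * (N * x / L ^ U) := by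
    have h4 : T * (C0 / (1 / L ^ a0) ^ (2 * p) * (N / L ^ V)) = (4 * p + 5) * B1 * N / L ^ (U + 1) := by
      rw [div_pow, one_pow, ← pow_mul, hV, hC0, hT]
      have e : L ^ (b + C + 2 * p * a0 + U + 1) = L ^ b * L ^ C * L ^ (a0 * (2 * p)) * L ^ (U + 1) := by
        rw [← pow_add, ← pow_add, ← pow_add]; congr 1; ring
      rw [e]
      field_simp
    have h5 : T * (C0 / (1 / L ^ a0) ^ (2 * p) * (N / L ^ V) * A * x / M) =
        (4 * p + 5) * B1 * N / L ^ (U + 1) * x * (A / M) := by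
      rw [← h4]
      ring
    rw [h5]
    have h6 : (A : ℝ) / M ≤ 1 := by rw [div_le_one hM0]; exact hAM'
    calc (4 * (p : ℝ) + 5) * B1 * N / L ^ (U + 1) * x * (A / M) ≤ (4 * p + 5) * B1 * N / L ^ (U + 1) * x * 1 := by gcongr
      _ = _ := by rw [pow_succ]; field_simp
  have t2 : T * (1 / L ^ a0 * x * Real.sqrt (N * L ^ K * A)) ≤ (B1 / L) * (N * x / L ^ U) := by
    have h4 : Real.sqrt (N * L ^ K * A) ≤ N * L ^ K * B1 := by
      rw [Real.sqrt_le_left (by positivity)]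
      have hLK : 1 ≤ L ^ K := one_le_pow₀ hLge1
      calc (N : ℝ) * L ^ K * A ≤ N * L ^ K * (B1 * N) := mul_le_mul_of_nonneg_left hAr (by positivity)
        _ = (N ^ 2 * (L ^ K * 1)) * (B1 * 1) := by ring
        _ ≤ (N ^ 2 * (L ^ K * L ^ K)) * (B1 * B1) := by gcongr
        _ = _ := by ring
    calc T * (1 / L ^ a0 * x * Real.sqrt (N * L ^ K * A)) ≤ T * (1 / L ^ a0 * x * (N * L ^ K * B1)) := by gcongr
      _ = _ := by
          rw [hT, ha0]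
          have e : L ^ (b + K + U + 1) = L ^ b * L ^ K * L ^ U * L := by
            rw [pow_succ, pow_add, pow_add]
          rw [e]
          field_simp
  have t3 : x * (1 / T * (2 * (N * L ^ K))) ≤ (2 / L) * (N * x / L ^ U) := by
    rw [hT, hb]
    have e : L ^ (K + U + 1) = L ^ K * L ^ U * L := by
      rw [pow_succ, pow_add]
    rw [e]
    apply le_of_eq
    field_simp
  calc T * ∑ m ∈ Icc 1 x, ‖S1 m‖ + x * (1 / T * (2 * (N * L ^ K))) ≤
      T * (C0 / (1 / L ^ a0) ^ (2 * p) * (N / L ^ V) * A * x / M + 1 / L ^ a0 * x * Real.sqrt (N * L ^ K * A)) +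
        x * (1 / T * (2 * (N * L ^ K))) := by
        apply add_le_add (mul_le_mul_of_nonneg_left key hT0.le) le_rfl
    _ ≤ ((4 * p + 5) * B1 / L) * (N * x / L ^ U) + (B1 / L) * (N * x / L ^ U) + (2 / L) * (N * x / L ^ U) := by
        rw [mul_add]
        exact add_le_add (add_le_add t1 t2) t3
    _ = (((4 * (p : ℝ) + 5) * B1 + B1 + 2) / L) * (N * x / L ^ U) := by ring
    _ ≤ 1 * (N * x / L ^ U) := by
        apply mul_le_mul_of_nonneg_right _ (by positivity)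
        rw [div_le_one hL0]
        exact hL'
    _ = _ := one_mul _

end Pool.Agent.TH935.DS
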