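import Pool.Agent.TH935.DS6

set_option autoImplicit false

/-! Correlations with a function with small exponential sums, for almost all shifts of a family of nearly minimal
energy: functions with bounded moments, all lengths. -/

namespace Pool.Agent.TH935.DS
open Finset
open Pool.Agent.H807R2.Dav
open Pool.Agent.H373R2.T7 (exI energy ev_L')
open Pool.Agent.TH823.Fam (log_pow_small grid_size)

/-- going to the nearest point of a grid -/
lemma grid_gen (G : ℕ → ℂ) (f : ℕ → ℂ) (X D A H : ℕ) (hD : 1 ≤ D) (s : ℤ) (T S : ℝ) (hT : 0 < T) (hXA : X ≤ A)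
    (hAH : (A : ℤ) + s ≤ H) (hG : ∑ a ∈ Icc 1 A, ‖G a‖ ^ 4 ≤ S) (hf : ∑ n ∈ Icc 1 H, ‖f n‖ ^ 4 ≤ S) :
    ‖∑ a ∈ Icc 1 X, G a * exI f (a + s)‖ ≤ ‖∑ a ∈ Icc 1 (X / D * D), G a * exI f (a + s)‖ + (T * D + 2 * S / T) := by
  have h1 : X / D * D ≤ X := Nat.div_mul_le_self _ _
  have h2 : X < X / D * D + D := by
    have := Nat.lt_div_mul_add (a := X) (b := D) (by omega)
    exact this
  have h3 : Icc 1 X = Icc 1 (X / D * D) ∪ Ioc (X / D * D) X := by
    ext m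
    rw [mem_union, mem_Icc, mem_Icc, mem_Ioc]
    omega
  have h4 : Disjoint (Icc 1 (X / D * D)) (Ioc (X / D * D) X) := by
    rw [disjoint_left]
    intro m hm hm'
    rw [mem_Icc] at hm
    rw [mem_Ioc] at hm'
    omega
  rw [h3, sum_union h4]
  refine (norm_add_le _ _).trans ?_
  apply add_le_add le_rfl
  refine (norm_sum_le _ _).trans ?_
  have h5 : ∀ m ∈ Ioc (X / D * D) X, ‖G m * exI f (m + s)‖ ≤ T + 1 / T * (‖G m‖ ^ 4 + ‖exI f (m + s)‖ ^ 4) := by
    intro m _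
    rw [norm_mul]
    obtain ⟨u, hu⟩ : ∃ u, u = ‖G m‖ := ⟨_, rfl⟩
    obtain ⟨v, hv⟩ : ∃ v, v = ‖exI f (m + s)‖ := ⟨_, rfl⟩
    rw [← hu, ← hv]
    have hTT : T * (1 / T) = 1 := by field_simp
    have e1 : u ^ 2 * v ^ 2 ≤ u ^ 4 + v ^ 4 := by nlinarith [sq_nonneg (u ^ 2 - v ^ 2), sq_nonneg (u ^ 2), sq_nonneg (v ^ 2)]
    have e2 : u * v ≤ T + 1 / T * (u * v) ^ 2 := by
      have e3 : 0 ≤ 1 / T * (T - u * v) ^ 2 := by positivity
      have e4 : 1 / T * (T - u * v) ^ 2 = T * (T * (1 / T)) - 2 * (T * (1 / T)) * (u * v) + 1 / T * (u * v) ^ 2 := by ring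
      rw [e4, hTT] at e3
      have e5 : 0 ≤ 1 / T * (u * v) ^ 2 := by positivity
      by_cases h6 : 0 ≤ u * v
      · linarith
      · push Not at h6
        linarith
    have e3 : 1 / T * (u * v) ^ 2 ≤ 1 / T * (u ^ 4 + v ^ 4) := by
      apply mul_le_mul_of_nonneg_left _ (by positivity)
      rw [mul_pow]
      exact e1
    linarith
  refine (sum_le_sum h5).trans ?_
  rw [sum_add_distrib, sum_const, Nat.card_Ioc, nsmul_eq_mul, ← mul_sum, sum_add_distrib]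
  have h6 : ((X - X / D * D : ℕ) : ℝ) ≤ D := by exact_mod_cast (by omega : X - X / D * D ≤ D)
  have hsub : Ioc (X / D * D) X ⊆ Icc 1 A := by
    intro m hm
    rw [mem_Ioc] at hm
    rw [mem_Icc]
    omega
  have h7 : ∑ a ∈ Ioc (X / D * D) X, ‖G a‖ ^ 4 ≤ S :=
    (sum_le_sum_of_subset_of_nonneg hsub (fun _ _ _ => by positivity)).trans hG
  have h8 : ∑ a ∈ Ioc (X / D * D) X, ‖exI f (a + s)‖ ^ 4 ≤ S :=
    (sum_le_sum_of_subset_of_nonneg hsub (fun _ _ _ => by positivity)).trans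
      ((exI_sum f 4 (by norm_num) A H s hAH).trans hf)
  calc ((X - X / D * D : ℕ) : ℝ) * T + 1 / T * (∑ a ∈ Ioc (X / D * D) X, ‖G a‖ ^ 4 + ∑ a ∈ Ioc (X / D * D) X, ‖exI f (a + s)‖ ^ 4) ≤
      D * T + 1 / T * (S + S) := by gcongr
    _ = _ := by ring

set_option maxHeartbeats 1000000 in
/-- almost all shifts, families of weights, all lengths -/
theorem fam_gen (p B C K U : ℕ) : ∃ V N0 : ℕ, ∀ N : ℕ, N0 ≤ N →
    ∀ (x : ℕ) (s : ℕ → ℤ), (∀ m ∈ Icc 1 x, |s m| ≤ B * N) →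
    (energy p x s : ℝ) * N ≤ Real.log N ^ C * (x : ℝ) ^ (2 * p) →
    ∀ f : ℕ → ℂ, (∀ α : ℝ, ‖∑ n ∈ Icc 1 (2 * ((B + 1) * N)), f n * ee ((n : ℝ) * α)‖ ≤ N / Real.log N ^ V) →
    (∑ n ∈ Icc 1 (2 * ((B + 1) * N)), ‖f n‖ ^ 2 ≤ N * Real.log N ^ K) →
    (∑ n ∈ Icc 1 (2 * ((B + 1) * N)), ‖f n‖ ^ 4 ≤ N * Real.log N ^ K) →
    ∀ (Lc : ℕ), (Lc : ℝ) ≤ Real.log N ^ K → ∀ g : ℕ → ℕ → ℂ,
    (∀ l < Lc, ∑ a ∈ Icc 1 (B * N), ‖g l a‖ ^ 4 ≤ N * Real.log N ^ K) →
    ∀ E : ℕ → Prop, [DecidablePred E] →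
    (∀ m ∈ Icc 1 x, E m → ∃ l < Lc, ∃ X : ℕ, X ≤ B * N ∧
      (N : ℝ) / Real.log N ^ U < ‖∑ n ∈ Icc 1 X, g l n * exI f (n + s m)‖) →
    (((Icc 1 x).filter E).card : ℝ) ≤ x / Real.log N ^ U := by
  classical
  obtain ⟨U2, hU2⟩ : ∃ U2, U2 = K + 2 * U + 3 := ⟨_, rfl⟩
  obtain ⟨U1, hU1⟩ : ∃ U1, U1 = K + U2 + 2 * U + 2 := ⟨_, rfl⟩
  obtain ⟨V, N1, h1⟩ := l1_gen p B C K U1
  obtain ⟨N2, h2⟩ := ev_L' (4 * B + 16)
  obtain ⟨N3, h3⟩ := log_pow_small U2
  refine ⟨V, N1 + N2 + N3 + 3, fun N hN x s hs hE f hsup hf2 hf4 Lc hLc g hg E _ hEm => ?_⟩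
  have hN3 : (3 : ℝ) ≤ N := by exact_mod_cast (by omega : 3 ≤ N)
  have hN0 : (0 : ℝ) < N := by linarith
  have hlog := h2 N (by omega)
  have hsm := h3 N (by omega)
  have hl1 := h1 N (by omega) x s hs hE f hsup hf2
  obtain ⟨W, hW⟩ : ∃ W, W = Real.log (N : ℝ) := ⟨_, rfl⟩
  rw [← hW] at hlog hE hLc hEm hg hsm hl1 hf2 hf4 ⊢
  have hB0 : (0 : ℝ) ≤ B := Nat.cast_nonneg _
  have hW16 : 16 ≤ W := by linarith
  have hW1 : 1 ≤ W := by linarith
  have hW0 : 0 < W := by linarith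
  obtain ⟨g1, g2, g3⟩ := grid_size N B (W ^ U2) (one_le_pow₀ hW1) hsm
  obtain ⟨D, hD⟩ : ∃ D, D = ⌊(N : ℝ) / (2 * W ^ U2)⌋₊ := ⟨_, rfl⟩
  rw [← hD] at g1 g2 g3
  obtain ⟨J, hJ⟩ : ∃ J, J = B * N / D := ⟨_, rfl⟩
  rw [← hJ] at g3
  have hJD : ∀ j ∈ range (J + 1), j * D ≤ B * N := by
    intro j hj
    rw [mem_range] at hj
    calc j * D ≤ J * D := Nat.mul_le_mul_right _ (by omega)
      _ ≤ B * N := by rw [hJ]; exact Nat.div_mul_le_self _ _
  obtain ⟨T, hT⟩ : ∃ T : ℕ → ℕ → Finset ℕ, T = fun l j => (Icc 1 x).filter (fun m : ℕ =>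
      (N : ℝ) / (2 * W ^ U) < ‖∑ a ∈ Icc 1 (j * D), g l a * exI f (a + s m)‖) := ⟨_, rfl⟩
  have hTc : ∀ l ∈ range Lc, ∀ j ∈ range (J + 1), ((T l j).card : ℝ) ≤ 2 * W ^ U * (x / W ^ U1) := by
    intro l hl j hj
    rw [mem_range] at hl
    have e1 := hl1 (j * D) (hJD j hj) (g l) (by
      refine le_trans ?_ (hg l hl)
      exact sum_le_sum_of_subset_of_nonneg (Icc_subset_Icc_right (hJD j hj)) (fun _ _ _ => by positivity))
    have e2 : ((T l j).card : ℝ) * (N / (2 * W ^ U)) ≤ ∑ m ∈ Icc 1 x, ‖∑ a ∈ Icc 1 (j * D), g l a * exI f (a + s m)‖ := by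
      rw [← nsmul_eq_mul, ← sum_const]
      refine (sum_le_sum (g := fun m => ‖∑ a ∈ Icc 1 (j * D), g l a * exI f (a + s m)‖) ?_).trans ?_
      · intro m hm
        rw [hT] at hm
        simp only at hm
        rw [mem_filter] at hm
        exact hm.2.le
      · apply sum_le_sum_of_subset_of_nonneg
        · rw [hT]; exact filter_subset _ _
        · intro m _ _
          exact norm_nonneg _
    have e3 := e2.trans e1
    rw [← le_div_iff₀ (by positivity)] at e3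
    refine e3.trans (le_of_eq ?_)
    field_simp
  have hsub : (Icc 1 x).filter E ⊆ (range Lc).biUnion (fun l => (range (J + 1)).biUnion (fun j => T l j)) := by
    intro m hm
    rw [mem_filter] at hm
    obtain ⟨l, hl, X, hX, hbad⟩ := hEm m hm.1 hm.2
    have e2 := grid_gen (g l) f X D (B * N) (2 * ((B + 1) * N)) g1 (s m) (W ^ (K + U + 2)) (N * W ^ K) (by positivity) hX (by
        have h4 := abs_le.1 (hs m hm.1)
        have h5 : (0 : ℤ) ≤ N := by positivity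
        have h6 : (0 : ℤ) ≤ B * N := by positivity
        push_cast
        nlinarith [h4.2]) (hg l hl) hf4
    have hj : X / D ∈ range (J + 1) := by
      rw [mem_range, hJ]
      have : X / D ≤ B * N / D := Nat.div_le_div_right hX
      omega
    rw [mem_biUnion]
    refine ⟨l, mem_range.2 hl, ?_⟩
    rw [mem_biUnion]
    refine ⟨_, hj, ?_⟩
    rw [hT]
    simp only
    rw [mem_filter]
    refine ⟨hm.1, ?_⟩
    have e5 : W ^ (K + U + 2) * D ≤ (1 / 4) * (N / W ^ U) := by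
      have q1 : (D : ℝ) * W ^ U2 = W ^ (K + U + 2) * D * (W ^ U * W) := by
        rw [hU2, show K + 2 * U + 3 = (K + U + 2) + U + 1 by ring, pow_succ, pow_add W (K + U + 2) U]; ring
      rw [q1] at g2
      have q2 : W ^ (K + U + 2) * D ≤ (N : ℝ) / 2 / (W ^ U * W) := by
        rw [le_div_iff₀ (by positivity)]
        exact g2
      refine q2.trans ?_
      rw [div_le_iff₀ (by positivity)]
      have q3 : 1 / 4 * ((N : ℝ) / W ^ U) * (W ^ U * W) = 1 / 4 * N * W := by field_simp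
      rw [q3]
      nlinarith
    have e6 : 2 * (N * W ^ K) / W ^ (K + U + 2) ≤ (1 / 4) * (N / W ^ U) := by
      rw [div_le_iff₀ (by positivity)]
      have q3 : 1 / 4 * ((N : ℝ) / W ^ U) * W ^ (K + U + 2) = 1 / 4 * (N * W ^ K) * (W * W) := by
        rw [show K + U + 2 = K + 1 + 1 + U by ring, pow_add W (K + 1 + 1) U, pow_succ, pow_succ]
        field_simp
      rw [q3]
      have q4 : 0 ≤ N * W ^ K := by positivity
      nlinarith [mul_le_mul hW16 hW16 (by norm_num) hW0.le]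
    have e7 : (N : ℝ) / (2 * W ^ U) = 1 / 2 * (N / W ^ U) := by field_simp
    rw [e7]
    linarith
  have hcard : (((Icc 1 x).filter E).card : ℝ) ≤ (Lc : ℝ) * ((J + 1 : ℕ) * (2 * W ^ U * (x / W ^ U1))) := by
    have e1 : (((Icc 1 x).filter E).card : ℝ) ≤ ∑ l ∈ range Lc, ∑ j ∈ range (J + 1), ((T l j).card : ℝ) := by
      have e2 := card_le_card hsub
      have e3 : ((range Lc).biUnion (fun l => (range (J + 1)).biUnion (fun j => T l j))).card ≤
          ∑ l ∈ range Lc, ∑ j ∈ range (J + 1), (T l j).card := by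
        refine card_biUnion_le.trans ?_
        exact sum_le_sum fun l _ => card_biUnion_le
      exact_mod_cast e2.trans e3
    refine e1.trans ?_
    refine (sum_le_sum fun l hl => sum_le_sum fun j hj => hTc l hl j hj).trans (le_of_eq ?_)
    rw [sum_const, card_range, sum_const, card_range, nsmul_eq_mul, nsmul_eq_mul]
  refine hcard.trans ?_
  have hx0 : (0 : ℝ) ≤ x := Nat.cast_nonneg _
  have g7 : ((J + 1 : ℕ) : ℝ) ≤ W * W ^ U2 := by
    have e1 : (1 : ℝ) ≤ W ^ U2 := one_le_pow₀ hW1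
    push_cast
    nlinarith
  calc (Lc : ℝ) * ((J + 1 : ℕ) * (2 * W ^ U * (x / W ^ U1))) ≤
        W ^ K * ((W * W ^ U2) * (W * W ^ U * (x / W ^ U1))) := by
        apply mul_le_mul hLc _ (by positivity) (by positivity)
        apply mul_le_mul g7 _ (by positivity) (by positivity)
        apply mul_le_mul_of_nonneg_right _ (by positivity)
        apply mul_le_mul_of_nonneg_right _ (by positivity)
        linarith
    _ = x / W ^ U := by
        rw [hU1, show K + U2 + 2 * U + 2 = K + U2 + U + U + 1 + 1 by ring, pow_succ, pow_succ, pow_add W (K + U2 + U) U,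
          pow_add W (K + U2) U, pow_add W K U2]
        field_simp

end Pool.Agent.TH935.DS
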