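import Pool.Agent.TH935.DS5
import Pool.Agent.TH935.DS7

set_option autoImplicit false

/-! The choice of the parameters. -/

namespace Pool.Agent.TH935.DS
open Finset
open Pool.Agent.H807R2.Dav
open Pool.Agent.W93.LV (log1_nonneg)
open Pool.Agent.H373R2.T7 (exI energy ev_L')
open Pool.Agent.TH823.Fam (log_pow_small)

lemma logH (κ : ℕ) (hκ : 1 ≤ κ) : ∃ N0 : ℕ, ∀ N : ℕ, N0 ≤ N → 1 ≤ N ∧ 2 ≤ Real.log N ∧ 1 + Real.log (κ * N : ℕ) ≤ Real.log N ^ 2 := by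
  obtain ⟨N1, h1⟩ := ev_L' (2 + Real.log κ)
  refine ⟨N1 + 1, fun N hN => ?_⟩
  have h2 := h1 N (by omega)
  have hl : 0 ≤ Real.log κ := Real.log_natCast_nonneg κ
  have hN1 : 1 ≤ N := by omega
  refine ⟨hN1, by linarith, ?_⟩
  push_cast
  rw [Real.log_mul (by exact_mod_cast (by omega : κ ≠ 0)) (by exact_mod_cast (by omega : N ≠ 0))]
  nlinarith

/-- moments of functions bounded by powers of the logarithm and of the divisor function -/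
lemma moms (r κ j : ℕ) (hκ : 1 ≤ κ) : ∃ K N0 : ℕ, ∀ N : ℕ, N0 ≤ N → ∀ f : ℕ → ℂ,
    (∀ n ∈ Icc 1 (κ * N), ‖f n‖ ≤ 2 * r * (1 + Real.log (κ * N : ℕ)) ^ (2 * 2 ^ r) * (n.divisors.card : ℝ) ^ (r + 1)) →
    ∑ n ∈ Icc 1 (κ * N), ‖f n‖ ^ j ≤ N * Real.log N ^ K := by
  obtain ⟨N1, h1⟩ := logH κ hκ
  obtain ⟨N2, h2⟩ := ev_L' ((2 * r) ^ j * κ)
  obtain ⟨e, he⟩ : ∃ e, e = 2 * 2 ^ r := ⟨_, rfl⟩
  obtain ⟨e2, he2⟩ : ∃ e2, e2 = 2 ^ ((r + 1) * j) := ⟨_, rfl⟩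
  refine ⟨2 * (e * j + e2) + 1, N1 + N2, fun N hN f hf => ?_⟩
  obtain ⟨hN1, hW2, hH⟩ := h1 N (by omega)
  have h3 := h2 N (by omega)
  obtain ⟨W, hW⟩ : ∃ W, W = Real.log (N : ℝ) := ⟨_, rfl⟩
  rw [← hW] at hW2 hH h3 ⊢
  obtain ⟨L, hL⟩ : ∃ L, L = 1 + Real.log (κ * N : ℕ) := ⟨_, rfl⟩
  have hL0 : 0 ≤ L := by rw [hL]; exact log1_nonneg _
  rw [← he, ← hL] at hf
  rw [← hL] at hH
  have e1 : ∀ n ∈ Icc 1 (κ * N), ‖f n‖ ^ j ≤ (2 * r * L ^ e) ^ j * (n.divisors.card : ℝ) ^ ((r + 1) * j) := by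
    intro n hn
    refine (pow_le_pow_left₀ (norm_nonneg _) (hf n hn) j).trans (le_of_eq ?_)
    rw [mul_pow, ← pow_mul]
  refine (sum_le_sum e1).trans ?_
  rw [← mul_sum]
  have e3 := tau_pow_sum ((r + 1) * j) (κ * N)
  rw [← hL, ← he2] at e3
  calc (2 * r * L ^ e) ^ j * ∑ n ∈ Icc 1 (κ * N), (n.divisors.card : ℝ) ^ ((r + 1) * j) ≤
      (2 * r * L ^ e) ^ j * (((κ * N : ℕ) : ℝ) * L ^ e2) := mul_le_mul_of_nonneg_left e3 (by positivity)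
    _ = ((2 * r) ^ j * κ) * (N * L ^ (e * j + e2)) := by
        rw [mul_pow, ← pow_mul, pow_add]
        push_cast
        ring
    _ ≤ W * (N * (W ^ 2) ^ (e * j + e2)) := by gcongr
    _ = _ := by
        rw [← pow_mul, pow_succ]
        ring

lemma one_le_tau {n : ℕ} (hn : 1 ≤ n) : (1 : ℝ) ≤ (n.divisors.card : ℝ) := by
  have : 1 ≤ n.divisors.card := card_pos.2 ⟨1, Nat.one_mem_divisors.2 (by omega)⟩
  exact_mod_cast this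

lemma dk_bd (r n X : ℕ) (hr : 1 ≤ r) (hn : 1 ≤ n) :
    (dk r n : ℝ) ≤ r * (1 + Real.log X) ^ (2 * 2 ^ r) * (n.divisors.card : ℝ) ^ (r + 1) := by
  have h1 : (dk r n : ℝ) ≤ (n.divisors.card : ℝ) ^ r := by exact_mod_cast dk_le r n
  have h2 := one_le_tau hn
  have h3 : (1 : ℝ) ≤ (1 + Real.log X) ^ (2 * 2 ^ r) := by
    apply one_le_pow₀
    have := Real.log_natCast_nonneg X
    linarith
  have hr1 : (1 : ℝ) ≤ r := by exact_mod_cast hr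
  calc (dk r n : ℝ) ≤ (n.divisors.card : ℝ) ^ r := h1
    _ ≤ (n.divisors.card : ℝ) ^ (r + 1) := pow_le_pow_right₀ h2 (by omega)
    _ = 1 * 1 * (n.divisors.card : ℝ) ^ (r + 1) := by ring
    _ ≤ _ := by gcongr

/-- the three functions are bounded -/
lemma bd_dk (r n X : ℕ) (hr : 1 ≤ r) (hn : 1 ≤ n) :
    ‖(dk r n : ℂ)‖ ≤ 2 * r * (1 + Real.log X) ^ (2 * 2 ^ r) * (n.divisors.card : ℝ) ^ (r + 1) := by
  rw [Complex.norm_natCast]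
  have h1 := dk_bd r n X hr hn
  have h2 : 0 ≤ r * (1 + Real.log X) ^ (2 * 2 ^ r) * (n.divisors.card : ℝ) ^ (r + 1) := by
    have := log1_nonneg X
    positivity
  linarith

lemma bd_dsh (r Y z n X : ℕ) (hz : z ≤ X) (hn : n ≤ X) (hn1 : 1 ≤ n) :
    ‖((dsh r Y z n : ℝ) : ℂ)‖ ≤ 2 * r * (1 + Real.log X) ^ (2 * 2 ^ r) * (n.divisors.card : ℝ) ^ (r + 1) := by
  rw [Complex.norm_real, Real.norm_eq_abs]
  have h1 := dsh_le r Y z n X hz hn hn1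
  have h2 : 0 ≤ r * (1 + Real.log X) ^ (2 * 2 ^ r) * (n.divisors.card : ℝ) ^ (r + 1) := by
    have := log1_nonneg X
    positivity
  linarith

lemma bd_diff (r Y z n X : ℕ) (hr : 1 ≤ r) (hz : z ≤ X) (hn : n ≤ X) (hn1 : 1 ≤ n) :
    ‖(dk r n : ℂ) - ((dsh r Y z n : ℝ) : ℂ)‖ ≤ 2 * r * (1 + Real.log X) ^ (2 * 2 ^ r) * (n.divisors.card : ℝ) ^ (r + 1) := by
  refine (norm_sub_le _ _).trans ?_
  rw [Complex.norm_natCast, Complex.norm_real, Real.norm_eq_abs]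
  have h1 := dk_bd r n X hr hn1
  have h2 := dsh_le r Y z n X hz hn hn1
  linarith

/-- the size of the parameters -/
def Par (r B' N Y z : ℕ) : Prop :=
  Y ^ (2 * r) ≤ N ∧ N < (Y + 1) ^ (2 * r) ∧ Real.log N ^ B' ≤ z ∧ (z : ℝ) ≤ 2 * Real.log N ^ B'

lemma Y_large (r M : ℕ) : ∃ N0 : ℕ, ∀ N : ℕ, N0 ≤ N → ∀ Y : ℕ, N < (Y + 1) ^ (2 * r) → Real.log N ^ M ≤ Y := by
  obtain ⟨N1, h1⟩ := log_pow_small ((M + 1) * (2 * r))
  obtain ⟨N2, h2⟩ := ev_L' 2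
  refine ⟨N1 + N2 + 1, fun N hN Y hY => ?_⟩
  have h3 := h1 N (by omega)
  have h4 := h2 N (by omega)
  by_contra hcon
  push Not at hcon
  obtain ⟨W, hW⟩ : ∃ W, W = Real.log (N : ℝ) := ⟨_, rfl⟩
  rw [← hW] at h3 h4 hcon
  have h5 : 1 ≤ W ^ M := one_le_pow₀ (by linarith)
  have h6 : (Y : ℝ) + 1 ≤ W ^ (M + 1) := by
    rw [pow_succ]
    nlinarith
  have h7 : (N : ℝ) < ((Y : ℝ) + 1) ^ (2 * r) := by exact_mod_cast hY
  have h8 : ((Y : ℝ) + 1) ^ (2 * r) ≤ (W ^ (M + 1)) ^ (2 * r) := pow_le_pow_left₀ (by positivity) h6 _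
  rw [← pow_mul] at h8
  have h9 : (1 : ℝ) ≤ N := by exact_mod_cast (by omega : 1 ≤ N)
  linarith

set_option maxHeartbeats 1000000 in
/-- the exponential sums -/
lemma sup_N (r κ V : ℕ) (hr : 1 ≤ r) (hκ : 1 ≤ κ) : ∃ B0 : ℕ, ∀ B' : ℕ, B0 ≤ B' → ∃ N0 : ℕ, ∀ N : ℕ, N0 ≤ N →
    ∀ Y z : ℕ, Par r B' N Y z → (z ≤ N ∧ 1 ≤ z) ∧
    ∀ α : ℝ, ‖∑ n ∈ Icc 1 (κ * N), ((dk r n : ℂ) - (dsh r Y z n : ℂ)) * ee ((n : ℝ) * α)‖ ≤ N / Real.log N ^ V := by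
  obtain ⟨K, hK⟩ : ∃ K, K = 2 ^ (2 * r) + 2 := ⟨_, rfl⟩
  refine ⟨2 * (2 * K + V + 2), fun B' hB' => ?_⟩
  obtain ⟨M, hM⟩ : ∃ M, M = 2 * K + 8 * (B' + 1) + V + 2 := ⟨_, rfl⟩
  obtain ⟨N1, h1⟩ := logH κ hκ
  obtain ⟨N2, h2⟩ := ev_L' (200 * r * κ)
  obtain ⟨N3, h3⟩ := Y_large r M
  obtain ⟨N4, h4⟩ := log_pow_small (9 * (B' + 1))
  refine ⟨N1 + N2 + N3 + N4, fun N hN Y z hpar => ?_⟩
  obtain ⟨hY1, hY2, hz1, hz2⟩ := hpar
  obtain ⟨hN1, hW2, hH⟩ := h1 N (by omega)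
  have e2 := h2 N (by omega)
  have e3 := h3 N (by omega) Y hY2
  have e4 := h4 N (by omega)
  obtain ⟨W, hW⟩ : ∃ W, W = Real.log (N : ℝ) := ⟨_, rfl⟩
  rw [← hW] at hW2 hH e2 e3 e4 hz1 hz2 ⊢
  have hW0 : 0 < W := by linarith
  have hW1 : 1 ≤ W := by linarith
  have hN0 : (0 : ℝ) < N := by exact_mod_cast hN1
  have hzW : (z : ℝ) ≤ W ^ (B' + 1) := by
    rw [pow_succ]
    have : 0 < W ^ B' := by positivity
    nlinarith
  have hz2' : (2 : ℝ) ≤ z := by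
    have : W ≤ W ^ B' := le_self_pow₀ hW1 (by omega)
    linarith
  have hz2n : 2 ≤ z := by exact_mod_cast hz2'
  have hz0 : (0 : ℝ) < z := by linarith
  have hzY : z ≤ Y := by
    have h5 : W ^ (B' + 1) ≤ W ^ M := pow_le_pow_right₀ hW1 (by omega)
    have h6 : (z : ℝ) ≤ Y := hzW.trans (h5.trans e3)
    exact_mod_cast h6
  have hz9 : 4 * z ^ 9 ≤ N := by
    have h5 : (z : ℝ) ^ 9 ≤ (W ^ (B' + 1)) ^ 9 := pow_le_pow_left₀ hz0.le hzW 9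
    rw [← pow_mul, mul_comm (B' + 1) 9] at h5
    have h6 : 4 * (z : ℝ) ^ 9 ≤ N := by linarith
    exact_mod_cast h6
  have hNκ : N ≤ κ * N := Nat.le_mul_of_pos_left _ hκ
  have hzN : z ≤ N := by
    have h5 : z ≤ z ^ 9 := Nat.le_self_pow (by norm_num) _
    omega
  refine ⟨⟨hzN, by omega⟩, fun α => ?_⟩
  refine (sup_gen r Y z (κ * N) hr hz2n hzY (hY1.trans hNκ) (hz9.trans hNκ) α).trans ?_
  rw [← hK]
  obtain ⟨L, hL⟩ : ∃ L, L = 1 + Real.log (κ * N : ℕ) := ⟨_, rfl⟩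
  rw [← hL] at hH ⊢
  have hL0 : 0 ≤ L := by rw [hL]; exact log1_nonneg _
  have hκr : (1 : ℝ) ≤ κ := by exact_mod_cast hκ
  have hY0 : (0 : ℝ) < Y := by
    have : 0 < W ^ M := by positivity
    linarith
  have hsz : W ^ (2 * K + V + 2) ≤ Real.sqrt z := by
    apply Real.le_sqrt_of_sq_le
    rw [← pow_mul]
    refine (pow_le_pow_right₀ hW1 ?_).trans hz1
    omega
  have hsz0 : 0 < Real.sqrt z := Real.sqrt_pos.2 hz0
  have t1 : (N : ℝ) * W ^ (2 * K + 1) * (1 / Real.sqrt z) ≤ N / W ^ V / 2 := by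
    have h5 : 1 / Real.sqrt z ≤ 1 / W ^ (2 * K + V + 2) := one_div_le_one_div_of_le (by positivity) hsz
    calc (N : ℝ) * W ^ (2 * K + 1) * (1 / Real.sqrt z) ≤ N * W ^ (2 * K + 1) * (1 / W ^ (2 * K + V + 2)) := by gcongr
      _ = N / W ^ V * (1 / W) := by
          rw [show 2 * K + V + 2 = 2 * K + 1 + V + 1 by ring, pow_succ W (2 * K + 1 + V), pow_add W (2 * K + 1) V]
          field_simp
      _ ≤ N / W ^ V * (1 / 2) := by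
          apply mul_le_mul_of_nonneg_left _ (by positivity)
          exact one_div_le_one_div_of_le (by norm_num) hW2
      _ = _ := by ring
  have t2 : (N : ℝ) * W ^ (2 * K + 1) * ((z : ℝ) ^ 8 * (1 / Y)) ≤ N / W ^ V / 2 := by
    have h5 : 1 / (Y : ℝ) ≤ 1 / W ^ M := one_div_le_one_div_of_le (by positivity) e3
    have h6 : (z : ℝ) ^ 8 ≤ W ^ (8 * (B' + 1)) := by
      have h5 : (z : ℝ) ^ 8 ≤ (W ^ (B' + 1)) ^ 8 := pow_le_pow_left₀ hz0.le hzW 8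
      rwa [← pow_mul, mul_comm (B' + 1) 8] at h5
    calc (N : ℝ) * W ^ (2 * K + 1) * ((z : ℝ) ^ 8 * (1 / Y)) ≤ N * W ^ (2 * K + 1) * (W ^ (8 * (B' + 1)) * (1 / W ^ M)) := by gcongr
      _ = N / W ^ V * (1 / W) := by
          rw [hM, show 2 * K + 8 * (B' + 1) + V + 2 = 2 * K + 1 + 8 * (B' + 1) + V + 1 by ring, pow_succ W (2 * K + 1 + 8 * (B' + 1) + V),
            pow_add W (2 * K + 1 + 8 * (B' + 1)) V, pow_add W (2 * K + 1) (8 * (B' + 1))]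
          field_simp
      _ ≤ N / W ^ V * (1 / 2) := by
          apply mul_le_mul_of_nonneg_left _ (by positivity)
          exact one_div_le_one_div_of_le (by norm_num) hW2
      _ = _ := by ring
  calc 200 * (r : ℝ) * L ^ K * (((κ * N : ℕ) : ℝ) / Real.sqrt z + (z : ℝ) ^ 8 * (((κ * N : ℕ) : ℝ) / Y)) =
      (200 * r * κ) * L ^ K * N * (1 / Real.sqrt z + (z : ℝ) ^ 8 * (1 / Y)) := by
        push_cast
        ring
    _ ≤ W * (W ^ 2) ^ K * N * (1 / Real.sqrt z + (z : ℝ) ^ 8 * (1 / Y)) := by gcongr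
    _ = N * W ^ (2 * K + 1) * (1 / Real.sqrt z) + N * W ^ (2 * K + 1) * ((z : ℝ) ^ 8 * (1 / Y)) := by
        rw [← pow_mul, pow_succ]
        ring
    _ ≤ N / W ^ V / 2 + N / W ^ V / 2 := add_le_add t1 t2
    _ = _ := by ring

end Pool.Agent.TH935.DS
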