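import Pool.Agent.W24.Katai
import Pool.Agent.H373R2.T7.SupE2
import Pool.Agent.H373R2.T7.BilE

set_option autoImplicit false

/-! The exponential sums of bounded multiplicative functions with small means in residue classes, uniformly. -/

namespace Pool.Agent.TH935.EL
open Finset
open Pool.Agent.H807R2.Dav
open Pool.Agent.W24.Katai (Mul1 SS cor step1 step2 step5 sum_inv_sq_le exists_SS)

/-- the criterion of Daboussi and Kátai, for one length -/
theorem katai_fin {ε : ℝ} (hε : 0 < ε) : ∃ P : Finset ℕ, (∀ p ∈ P, p.Prime) ∧ ∃ N0 : ℕ, ∀ N : ℕ, N0 ≤ N →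
    ∀ F : ℕ → ℂ, (∀ n, ‖F n‖ ≤ 1) →
    (∀ p ∈ P, ∀ q ∈ P, p ≠ q → ∀ M : ℕ, M ≤ N → ‖cor F p q M‖ ≤ 1 / ((P.card : ℝ) ^ 2 + 1) * N) →
    ∀ g : ℕ → ℂ, Mul1 g → ‖∑ n ∈ Ioc 0 N, g n * F n‖ ≤ ε * N := by
  obtain ⟨P, hP, hS⟩ := exists_SS (max 1 (64 / ε ^ 2))
  have hS1 : 1 ≤ SS P := (le_max_left _ _).trans hS
  have hS2 : 64 / ε ^ 2 ≤ SS P := (le_max_right _ _).trans hS
  obtain ⟨S, hSdef⟩ : ∃ S, S = SS P := ⟨_, rfl⟩
  rw [← hSdef] at hS1 hS2
  have hS0 : 0 < S := by linarith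
  obtain ⟨c, hc⟩ : ∃ c, c = (P.card : ℝ) := ⟨_, rfl⟩
  have hc0 : 0 ≤ c := by rw [hc]; exact Nat.cast_nonneg _
  obtain ⟨N2, hN2⟩ := exists_nat_ge (2 * c)
  refine ⟨P, hP, N2, fun N hN F hF hcor g hg => ?_⟩
  rw [← hc] at hcor
  have hNN2 : 2 * c ≤ N := hN2.trans (by exact_mod_cast hN)
  have hN0 : (0:ℝ) ≤ N := Nat.cast_nonneg N
  have s1 := step1 hP hF hg N
  have s2 := step2 hP hF hg N
  have s5 := step5 hP hF hg N (B := 1 / (c^2 + 1) * N) (by positivity)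
    (fun p hp q hq hne M hM => hcor p hp q hq hne M hM)
  have s6 := sum_inv_sq_le hP
  rw [← hSdef, ← hc] at s1 s5
  have hsS : √S ≤ S := by
    rw [Real.sqrt_le_left hS0.le]; nlinarith
  have hs1 : 1 ≤ √S := by rw [Real.one_le_sqrt]; exact hS1
  have r1 : √(N * (N * S + 2 * S * c)) ≤ 2 * √S * N := by
    rw [Real.sqrt_le_left (by positivity)]
    have : (2 * √S * N)^2 = 4 * S * N^2 := by
      rw [mul_pow, mul_pow, Real.sq_sqrt hS0.le]; ring
    rw [this]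
    have : 2 * S * c ≤ S * N := by nlinarith
    nlinarith [mul_le_mul_of_nonneg_left this hN0]
  have r5 : √(N * (N * S + c^2 * (1 / (c^2 + 1) * N))) ≤ 2 * √S * N := by
    rw [Real.sqrt_le_left (by positivity)]
    have : (2 * √S * N)^2 = 4 * S * N^2 := by
      rw [mul_pow, mul_pow, Real.sq_sqrt hS0.le]; ring
    rw [this]
    have e1 : c^2 * (1 / (c^2 + 1) * N) ≤ N := by
      have : c^2 / (c^2+1) ≤ 1 := by rw [div_le_one (by positivity)]; linarith
      calc c^2 * (1 / (c^2 + 1) * (N:ℝ)) = c^2 / (c^2+1) * (N:ℝ) := by ring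
        _ ≤ 1 * (N:ℝ) := by gcongr
        _ = N := one_mul _
    have e2 : N * S + c^2 * (1 / (c^2 + 1) * N) ≤ 3 * S * N := by nlinarith
    nlinarith [mul_le_mul_of_nonneg_left e2 hN0, mul_nonneg hS0.le (sq_nonneg (N:ℝ))]
  have t1 : ‖(S : ℂ) * ∑ n ∈ Ioc 0 N, g n * F n‖ ≤ 2 * √S * N + 2 * N + 2 * √S * N := by
    have e1 : (S : ℂ) * ∑ n ∈ Ioc 0 N, g n * F n =
        ((S : ℂ) * ∑ n ∈ Ioc 0 N, g n * F n - ∑ p ∈ P, ∑ m ∈ Ioc 0 (N / p), g (p * m) * F (p * m)) +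
        (∑ p ∈ P, ∑ m ∈ Ioc 0 (N / p), g (p * m) * F (p * m) -
      ∑ p ∈ P, ∑ m ∈ Ioc 0 (N / p), g p * g m * F (p * m)) +
        ∑ p ∈ P, ∑ m ∈ Ioc 0 (N / p), g p * g m * F (p * m) := by ring
    rw [e1]
    refine (norm_add_le _ _).trans ?_
    refine (add_le_add (norm_add_le _ _) le_rfl).trans ?_
    have : 2 * (N:ℝ) * ∑ p ∈ P, 1 / (p:ℝ)^2 ≤ 2 * N * 1 := by gcongr
    linarith
  rw [norm_mul, Complex.norm_real, Real.norm_eq_abs, abs_of_pos hS0] at t1
  have t2 : S * ‖∑ n ∈ Ioc 0 N, g n * F n‖ ≤ 8 * √S * N := by nlinarith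
  have t3 : √S * ‖∑ n ∈ Ioc 0 N, g n * F n‖ ≤ 8 * N := by
    have e1 : S = √S * √S := (Real.mul_self_sqrt hS0.le).symm
    have hs0 : 0 < √S := by linarith
    have : √S * (√S * ‖∑ n ∈ Ioc 0 N, g n * F n‖) ≤ √S * (8 * N) := by
      calc √S * (√S * ‖∑ n ∈ Ioc 0 N, g n * F n‖) = S * ‖∑ n ∈ Ioc 0 N, g n * F n‖ := by
            rw [← mul_assoc, ← e1]
        _ ≤ 8 * √S * N := t2
        _ = _ := by ring
    exact le_of_mul_le_mul_left this hs0
  have t4 : 8 / ε ≤ √S := by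
    apply Real.le_sqrt_of_sq_le
    refine le_trans (le_of_eq ?_) hS2
    rw [div_pow]; norm_num
  have t5 : 8 / ε * ‖∑ n ∈ Ioc 0 N, g n * F n‖ ≤ 8 * N :=
    (mul_le_mul_of_nonneg_right t4 (norm_nonneg _)).trans t3
  have t6 : ‖∑ n ∈ Ioc 0 N, g n * F n‖ = ε / 8 * (8 / ε * ‖∑ n ∈ Ioc 0 N, g n * F n‖) := by
    field_simp
  rw [t6]
  calc ε / 8 * (8 / ε * ‖∑ n ∈ Ioc 0 N, g n * F n‖) ≤ ε / 8 * (8 * N) := by gcongr
    _ = ε * N := by ring

/-- sums twisted by a rational frequency from sums in progressions -/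
lemma rat_twist (f : ℕ → ℂ) (y q : ℕ) (hq : 1 ≤ q) (b : ℤ) (δ : ℝ)
    (h : ∀ c : ℕ, ‖∑ n ∈ (Icc 1 y).filter (fun n => n ≡ c [MOD q]), f n‖ ≤ δ) :
    ‖∑ n ∈ Icc 1 y, f n * ee (n * ((b : ℝ) / q))‖ ≤ q * δ := by
  have hq0 : (q : ℝ) ≠ 0 := by
    have : (0 : ℝ) < q := by exact_mod_cast hq
    exact this.ne'
  have h1 : ∑ n ∈ Icc 1 y, f n * ee (n * ((b : ℝ) / q)) =
      ∑ c ∈ range q, (∑ n ∈ (Icc 1 y).filter (fun n => n ≡ c [MOD q]), f n) * ee (c * ((b : ℝ) / q)) := by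
    rw [← sum_fiberwise_of_maps_to (s := Icc 1 y) (t := range q)
      (g := fun n => n % q) (fun n _ => mem_range.2 (Nat.mod_lt _ (by omega)))]
    apply sum_congr rfl
    intro c hc
    rw [mem_range] at hc
    rw [sum_mul]
    have h2 : (Icc 1 y).filter (fun n => n % q = c) = (Icc 1 y).filter (fun n => n ≡ c [MOD q]) := by
      apply filter_congr
      intro n _
      unfold Nat.ModEq
      rw [Nat.mod_eq_of_lt hc]
    rw [h2]
    apply sum_congr rfl
    intro n hn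
    rw [mem_filter] at hn
    congr 1
    have h3 : ((q : ℤ)) ∣ (n : ℤ) - c := by
      have := (Nat.modEq_iff_dvd.1 hn.2.symm)
      exact this
    obtain ⟨k, hk⟩ := h3
    have h4 : (n : ℝ) = c + q * k := by
      have : (n : ℤ) = c + q * k := by linarith
      exact_mod_cast this
    rw [h4]
    have h5 : ((c : ℝ) + q * k) * ((b : ℝ) / q) = c * ((b : ℝ) / q) + ((k * b : ℤ) : ℝ) := by
      push_cast
      field_simp
    rw [h5, ee_add_int]
  rw [h1]
  refine (norm_sum_le _ _).trans ?_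
  have h2 : ∀ c ∈ range q, ‖(∑ n ∈ (Icc 1 y).filter (fun n => n ≡ c [MOD q]), f n) * ee (c * ((b : ℝ) / q))‖ ≤ δ := by
    intro c _
    rw [norm_mul, norm_ee, mul_one]
    exact h c
  refine (sum_le_sum h2).trans ?_
  rw [sum_const, card_range, nsmul_eq_mul]

lemma dd_eq (x : ℝ) : ‖ee x - 1‖ = dd x := by
  unfold dd
  rw [← norm_neg, neg_sub]

/-- the nearest integer -/
lemma near_int (x : ℝ) : ∃ b : ℤ, 4 * |x - b| ≤ dd x := by
  refine ⟨round x, ?_⟩
  have h1 : |x - round x| ≤ 1 / 2 := abs_sub_round x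
  have h2 : dd x = dd |x - round x| := by
    have h3 : dd x = dd (x - round x) := by
      have := dd_add_int (x - round x) (round x)
      rw [← this]
      congr 1
      ring
    rw [h3]
    rcases abs_cases (x - round x) with ⟨h, _⟩ | ⟨h, _⟩
    · rw [h]
    · rw [h, dd_neg]
  rw [h2]
  have h4 := dd_ge (abs_nonneg (x - round x)) (by linarith)
  rw [min_eq_left (by linarith)] at h4
  exact h4

lemma cor_ee (α : ℝ) (p q M : ℕ) : cor (fun n => ee (n * α)) p q M = ∑ m ∈ Ico 1 (M + 1), ee (m * (((p : ℝ) - q) * α)) := by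
  unfold cor
  have h0 : Ioc 0 M = Ico 1 (M + 1) := by
    ext m
    rw [mem_Ioc, mem_Ico]
    omega
  rw [h0]
  apply sum_congr rfl
  intro m _
  rw [Pool.Agent.H373R2.T7.conj_ee, ← ee_add]
  congr 1
  push_cast
  ring

/-- the exponential sum of a multiplicative function with small means in residue classes -/
theorem sup_mul {δ : ℝ} (hδ : 0 < δ) : ∃ A H0 : ℕ, 1 ≤ A ∧ ∀ H : ℕ, H0 ≤ H → ∀ f : ℕ → ℂ, Mul1 f →
    (∀ q r y : ℕ, 1 ≤ q → q ≤ A → y ≤ H → ‖∑ n ∈ (Icc 1 y).filter (fun n => n ≡ r [MOD q]), f n‖ ≤ H / A) →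
    ∀ α : ℝ, ‖∑ n ∈ Icc 1 H, f n * ee (n * α)‖ ≤ δ * H := by
  obtain ⟨P, hP, N0, hk⟩ := katai_fin hδ
  obtain ⟨D, hD⟩ : ∃ D, D = P.sup id + 1 := ⟨_, rfl⟩
  obtain ⟨c, hc⟩ : ∃ c, c = (P.card : ℝ) := ⟨_, rfl⟩
  rw [← hc] at hk
  obtain ⟨K, hK⟩ : ∃ K, K = 3 * (c ^ 2 + 1) := ⟨_, rfl⟩
  have hK3 : 3 ≤ K := by rw [hK]; nlinarith [sq_nonneg c]
  have hD1 : 1 ≤ D := by omega
  have hD0 : (0 : ℝ) < D := by exact_mod_cast hD1
  obtain ⟨A, hA⟩ := exists_nat_ge (D * (1 + 2 * K) / δ + D + 1)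
  have hAD : (D : ℝ) * (1 + 2 * K) / δ ≤ A := by linarith
  have hq1 : 0 ≤ (D : ℝ) * (1 + 2 * K) / δ := by positivity
  have hAD2 : D ≤ A := by
    have : (D : ℝ) ≤ A := by linarith
    exact_mod_cast this
  have hA1 : 1 ≤ A := by omega
  have hA0 : (0 : ℝ) < A := by exact_mod_cast hA1
  refine ⟨A, N0 + 1, hA1, fun H hH f hf hsm α => ?_⟩
  have hH0 : (0 : ℝ) < H := by exact_mod_cast (by omega : 0 < H)
  by_cases hex : ∃ d ∈ Icc 1 D, dd (d * α) < K / H
  · obtain ⟨d, hd, hdd⟩ := hex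
    rw [mem_Icc] at hd
    have hd0 : (0 : ℝ) < d := by exact_mod_cast hd.1
    have hd1 : (1 : ℝ) ≤ d := by exact_mod_cast hd.1
    obtain ⟨b, hb⟩ := near_int (d * α)
    obtain ⟨γ, hγ⟩ : ∃ γ, γ = α - (b : ℝ) / d := ⟨_, rfl⟩
    have hγ1 : |γ| ≤ K / H / 4 := by
      have h1 : (d : ℝ) * γ = d * α - b := by rw [hγ]; field_simp
      have h2 : (d : ℝ) * |γ| = |(d : ℝ) * α - b| := by rw [← h1, abs_mul, abs_of_pos hd0]
      have h3 : |γ| ≤ d * |γ| := by
        have := abs_nonneg γ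
        nlinarith
      linarith
    have hpart : ∀ y : ℕ, y ≤ H → ‖∑ n ∈ Icc 1 y, f n * ee (n * ((b : ℝ) / d))‖ ≤ D * (H / A) := by
      intro y hy
      refine (rat_twist f y d hd.1 b (H / A) (fun r => hsm d r y hd.1 (hd.2.trans hAD2) hy)).trans ?_
      apply mul_le_mul_of_nonneg_right _ (by positivity)
      exact_mod_cast hd.2
    have h1 := Pool.Agent.H373R2.T7.abel_ee (fun n => f n * ee (n * ((b : ℝ) / d))) γ (D * (H / A)) H hpart
    have h2 : ∑ n ∈ Icc 1 H, f n * ee ((n : ℝ) * α) =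
        ∑ n ∈ Icc 1 H, (f n * ee (n * ((b : ℝ) / d))) * ee (n * γ) := by
      apply sum_congr rfl
      intro n _
      rw [mul_assoc, ← ee_add]
      congr 2
      rw [hγ]
      ring
    rw [h2]
    refine h1.trans ?_
    rw [dd_eq]
    have h3 : dd γ ≤ 2 * (K / H) := by
      refine (dd_le γ).trans ?_
      have h4 : 2 * Real.pi * |γ| ≤ 2 * Real.pi * (K / H / 4) := mul_le_mul_of_nonneg_left hγ1 (by positivity)
      have h5 : 0 ≤ K / H := by positivity
      nlinarith [Real.pi_lt_d2]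
    have h4 : (H : ℝ) * dd γ ≤ 2 * K := by
      calc (H : ℝ) * dd γ ≤ H * (2 * (K / H)) := mul_le_mul_of_nonneg_left h3 hH0.le
        _ = 2 * K := by field_simp
    calc (D : ℝ) * (H / A) * (1 + H * dd γ) ≤ D * (H / A) * (1 + 2 * K) :=
          mul_le_mul_of_nonneg_left (by linarith) (by positivity)
      _ = (D * (1 + 2 * K) / A) * H := by ring
      _ ≤ δ * H := by
        apply mul_le_mul_of_nonneg_right _ hH0.le
        rw [div_le_iff₀ hA0]
        rw [div_le_iff₀ hδ] at hAD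
        linarith
  · push Not at hex
    have h1 := hk H (by omega) (fun n => ee (n * α)) (fun n => (norm_ee _).le) (by
      intro p hp q hq hne M hM
      rw [cor_ee]
      have hpD : p < D := by
        have := Finset.le_sup (f := id) hp
        simp only [id] at this
        omega
      have hqD : q < D := by
        have := Finset.le_sup (f := id) hq
        simp only [id] at this
        omega
      have hdd : K / H ≤ dd (((p : ℝ) - q) * α) := by
        rcases lt_or_gt_of_ne hne with h | h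
        · have h2 := hex (q - p) (by rw [mem_Icc]; omega)
          have h3 : ((p : ℝ) - q) * α = -(((q - p : ℕ) : ℝ) * α) := by
            rw [Nat.cast_sub h.le]; ring
          rw [h3, dd_neg]
          exact h2
        · have h2 := hex (p - q) (by rw [mem_Icc]; omega)
          have h3 : ((p : ℝ) - q) * α = ((p - q : ℕ) : ℝ) * α := by
            rw [Nat.cast_sub (by omega)]
          rw [h3]
          exact h2
      have h4 := geo_bound 1 (M + 1) (by omega) (M := (M : ℝ)) (by push_cast; linarith) (((p : ℝ) - q) * α)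
      refine h4.trans ((KK_le' (Nat.cast_nonneg M) (by positivity) hdd).trans (le_of_eq ?_))
      rw [hK]
      field_simp) f hf
    have h0 : Ioc 0 H = Icc 1 H := by
      ext m
      rw [mem_Ioc, mem_Icc]
      omega
    rw [h0] at h1
    exact h1

end Pool.Agent.TH935.EL
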