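import Pool.Agent.TH935.EL1
import Pool.Agent.TH823.Fam.Fam1

set_option autoImplicit false

/-! Correlations of a bounded multiplicative function with small means in residue classes with arbitrary functions,
for almost all shifts of a family of minimal energy. -/

namespace Pool.Agent.TH935.EL
open Finset
open Pool.Agent.H807R2.Dav
open Pool.Agent.W24.Katai (Mul1)
open Pool.Agent.H373R2.T7 (exI energy fz bil_main moment_energy)
open Pool.Agent.TH823.Fam (spread grid_step exI_norm)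

/-- small means in residue classes -/
def SM (f : ℕ → ℂ) (A M : ℕ) : Prop := ∀ q r y : ℕ, 1 ≤ q → q ≤ A → y ≤ M →
  ‖∑ n ∈ (Icc 1 y).filter (fun n => n ≡ r [MOD q]), f n‖ ≤ M / A

set_option maxHeartbeats 1000000 in
/-- the first moment over a family of shifts of minimal energy -/
theorem l1_f (p B : ℕ) (C ε : ℝ) (hC : 0 < C) (hε : 0 < ε) : ∃ A N0 : ℕ, 1 ≤ A ∧ ∀ N : ℕ, N0 ≤ N →
    ∀ (x : ℕ) (s : ℕ → ℤ), (∀ m ∈ Icc 1 x, |s m| ≤ B * N) →
    (energy p x s : ℝ) * N ≤ C * (x : ℝ) ^ (2 * p) →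
    ∀ f : ℕ → ℂ, Mul1 f → SM f A (2 * ((B + 1) * N)) →
    ∀ Y : ℕ, Y ≤ B * N → ∀ G : ℕ → ℂ, (∀ a, ‖G a‖ ≤ 1) →
    ∑ m ∈ Icc 1 x, ‖∑ a ∈ Icc 1 Y, G a * exI f (a + s m)‖ ≤ ε * (N * x) := by
  obtain ⟨B1, hB1⟩ : ∃ B1, B1 = B + 1 := ⟨_, rfl⟩
  have hB1pos : 1 ≤ B1 := by omega
  have hB1r : (1 : ℝ) ≤ B1 := by exact_mod_cast hB1pos
  obtain ⟨η, hη'⟩ : ∃ η, η = ε / (4 * B1) := ⟨_, rfl⟩
  have hη : 0 < η := by rw [hη']; positivity
  obtain ⟨C0, hC0⟩ : ∃ C0, C0 = (4 * (p : ℝ) + 5) * B1 * C := ⟨_, rfl⟩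
  have hC00 : 0 < C0 := by rw [hC0]; positivity
  obtain ⟨δ, hδ'⟩ : ∃ δ, δ = ε * η ^ (2 * p) / (4 * B1 * C0) := ⟨_, rfl⟩
  have hδ : 0 < δ := by rw [hδ']; positivity
  obtain ⟨A0, H0, hA1, hsup⟩ := sup_mul hδ
  refine ⟨A0, H0 + 1, hA1, fun N hN x s hs hE f hf hsm Y hY G hG => ?_⟩
  have hN0 : (0 : ℝ) < N := by exact_mod_cast (by omega : 0 < N)
  rcases Nat.eq_zero_or_pos x with hx | hx
  · rw [hx]; simp
  have hx0 : (0 : ℝ) < x := by exact_mod_cast hx
  obtain ⟨H, hH⟩ : ∃ H, H = 2 * (B1 * N) := ⟨_, rfl⟩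
  obtain ⟨M, hM⟩ : ∃ M, M = (4 * p + 5) * (B1 * N) := ⟨_, rfl⟩
  have hBN : B * N ≤ B1 * N := Nat.mul_le_mul_right _ (by omega)
  have hB1N : 1 ≤ B1 * N := Nat.mul_pos hB1pos (by omega)
  have hHN : N ≤ H := by
    have : N ≤ B1 * N := Nat.le_mul_of_pos_left _ hB1pos
    omega
  have hM5 : 5 * (B1 * N) ≤ M := by
    rw [hM]; exact Nat.mul_le_mul_right _ (by omega)
  have hM1 : 1 ≤ M := by omega
  have hHM : H ≤ M := by omega
  have hHr : (H : ℝ) = 2 * (B1 * N) := by rw [hH]; push_cast; ring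
  have hMr : (M : ℝ) = (4 * p + 5) * (B1 * N) := by rw [hM]; push_cast; ring
  have hsup1 : ∀ α : ℝ, ‖∑ n ∈ Icc 1 H, f n * ee ((n : ℝ) * α)‖ ≤ δ * H := by
    intro α
    apply hsup H (by omega) f hf
    intro q r y h1 h2 h3
    rw [← hB1, ← hH] at hsm
    exact hsm q r y h1 h2 h3
  have hcond : ∀ a ∈ Icc 1 Y, ∀ m ∈ Icc 1 x, ∀ n ∈ Icc 1 H, |(a : ℤ) + s m - n| < M := by
    intro a ha m hm n hn
    have h4 := abs_le.1 (hs m hm)
    rw [mem_Icc] at ha hn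
    have h5 : (a : ℤ) ≤ B * N := by exact_mod_cast ha.2.trans hY
    have h6 : (n : ℤ) ≤ 2 * (B1 * N) := by rw [hH] at hn; exact_mod_cast hn.2
    have h7 : (5 : ℤ) * (B1 * N) ≤ M := by exact_mod_cast hM5
    have h8 : (B : ℤ) * N ≤ B1 * N := by exact_mod_cast hBN
    have h9 : (1 : ℤ) ≤ B1 * N := by exact_mod_cast hB1N
    have h10 : (0 : ℤ) ≤ a := by positivity
    have h11 : (0 : ℤ) ≤ n := by positivity
    rw [abs_lt]
    constructor <;> linarith [h4.1, h4.2]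
  have hYM : Y ≤ M := hY.trans (by omega)
  have hmomE := moment_energy p x s M (B * N) hM1 (fun m hm => by
    have := hs m hm
    push_cast
    exact this) (by
    have h4 : 2 * p * (B * N) ≤ 2 * p * (B1 * N) := Nat.mul_le_mul_left _ hBN
    have h5 : 2 * p * (B1 * N) < (4 * p + 5) * (B1 * N) := Nat.mul_lt_mul_of_pos_right (by omega) hB1N
    omega)
  have hmom : ∑ t ∈ range M, (‖∑ m ∈ Icc 1 x, ee ((t : ℝ) * ((s m : ℝ) / M))‖ / x) ^ (2 * p) ≤ C0 := by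
    have h2 : ∑ t ∈ range M, (‖∑ m ∈ Icc 1 x, ee ((t : ℝ) * ((s m : ℝ) / M))‖ / x) ^ (2 * p) =
        (M * energy p x s) / (x : ℝ) ^ (2 * p) := by
      rw [← hmomE, sum_div]
      exact sum_congr rfl fun t _ => div_pow _ _ _
    rw [h2, div_le_iff₀ (by positivity), hMr]
    calc (4 * (p : ℝ) + 5) * (B1 * N) * energy p x s = (4 * p + 5) * B1 * (energy p x s * N) := by ring
      _ ≤ (4 * p + 5) * B1 * (C * (x : ℝ) ^ (2 * p)) := mul_le_mul_of_nonneg_left hE (by positivity)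
      _ = _ := by rw [hC0]; ring
  have hfs : ∑ n ∈ Icc 1 H, ‖f n‖ ^ 2 ≤ H := by
    have h4 : ∀ n ∈ Icc 1 H, ‖f n‖ ^ 2 ≤ 1 := fun n _ => pow_le_one₀ (norm_nonneg _) (hf.1 n)
    refine (sum_le_sum h4).trans ?_
    rw [sum_const, Nat.card_Icc, nsmul_eq_mul]
    simp
  obtain ⟨S, hS⟩ : ∃ S : ℕ → ℂ, S = fun m => ∑ a ∈ Icc 1 Y, G a * exI f (a + s m) := ⟨_, rfl⟩
  obtain ⟨c, hc⟩ : ∃ c : ℕ → ℂ, c = fun m => (starRingEnd ℂ) (S m) / ‖S m‖ := ⟨_, rfl⟩
  have hc1 : ∀ m, ‖c m‖ ≤ 1 := by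
    intro m
    rw [hc]
    simp only [norm_div, RCLike.norm_conj, Complex.norm_real, norm_norm]
    exact div_self_le_one _
  have key := bil_main Y H x M hM1 f G c s (δ * H) η p C0
    H hcond hYM hHM hx hsup1 hG hc1 hmom hfs hη
  have heq : ∑ a ∈ Icc 1 Y, ∑ m ∈ Icc 1 x, G a * c m * fz f H (a + s m) =
      ((∑ m ∈ Icc 1 x, ‖S m‖ : ℝ) : ℂ) := by
    have e0 : ∑ a ∈ Icc 1 Y, ∑ m ∈ Icc 1 x, G a * c m * fz f H (a + s m) =
        ∑ a ∈ Icc 1 Y, ∑ m ∈ Icc 1 x, G a * c m * exI f (a + s m) := by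
      apply sum_congr rfl
      intro a ha
      apply sum_congr rfl
      intro m hm
      congr 1
      unfold fz exI
      have h4 := abs_le.1 (hs m hm)
      rw [mem_Icc] at ha
      have h5 : (a : ℤ) ≤ B * N := by exact_mod_cast ha.2.trans hY
      have h8 : (B : ℤ) * N ≤ B1 * N := by exact_mod_cast hBN
      have h9 : (H : ℤ) = 2 * (B1 * N) := by rw [hH]; push_cast; ring
      by_cases h6 : 1 ≤ (a : ℤ) + s m
      · rw [if_pos h6, if_pos ⟨h6, by linarith [h4.2]⟩]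
      · rw [if_neg h6, if_neg (fun h => h6 h.1)]
    rw [e0, sum_comm]
    push_cast
    apply sum_congr rfl
    intro m _
    have e1 : ∑ a ∈ Icc 1 Y, G a * c m * exI f (a + s m) = c m * S m := by
      rw [hS, mul_sum]
      apply sum_congr rfl
      intro a _
      ring
    rw [e1, hc]
    simp only
    by_cases h0 : ‖S m‖ = 0
    · rw [norm_eq_zero.1 h0]; simp
    · have h0' : ((‖S m‖ : ℝ) : ℂ) ≠ 0 := by exact_mod_cast h0
      rw [div_mul_eq_mul_div, mul_comm, Complex.mul_conj', pow_two]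
      field_simp
  rw [heq, Complex.norm_real, Real.norm_of_nonneg (sum_nonneg fun _ _ => norm_nonneg _)] at key
  rw [hS] at key
  refine key.trans ?_
  have hYr : (Y : ℝ) ≤ B1 * N := by exact_mod_cast hY.trans hBN
  have hY0 : (0 : ℝ) ≤ Y := Nat.cast_nonneg _
  have hM0 : (0 : ℝ) < M := by exact_mod_cast hM1
  have t1 : C0 / η ^ (2 * p) * (δ * H) * Y * x / M ≤ ε / 2 * (N * x) := by
    have hYM' : (Y : ℝ) ≤ M := by exact_mod_cast hYM
    have h4 : C0 / η ^ (2 * p) * (δ * H) = ε / 2 * N := by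
      rw [hδ', hHr]
      have : η ^ (2 * p) ≠ 0 := by positivity
      field_simp
      ring
    rw [h4]
    rw [div_le_iff₀ hM0]
    have h6 : 0 ≤ ε / 2 * (N : ℝ) * x := by positivity
    calc ε / 2 * (N : ℝ) * Y * x = (ε / 2 * N * x) * Y := by ring
      _ ≤ (ε / 2 * N * x) * M := mul_le_mul_of_nonneg_left hYM' h6
      _ = _ := by ring
  have t2 : η * x * Real.sqrt (H * Y) ≤ ε / 2 * (N * x) := by
    have h4 : Real.sqrt (H * Y) ≤ 2 * (B1 * N) := by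
      rw [Real.sqrt_le_left (by positivity), hHr]
      have h5 : 2 * ((B1 : ℝ) * N) * Y ≤ 2 * (B1 * N) * (B1 * N) := mul_le_mul_of_nonneg_left hYr (by positivity)
      have h6 : 0 ≤ (B1 : ℝ) * N := by positivity
      nlinarith
    calc η * x * Real.sqrt (H * Y) ≤ η * x * (2 * (B1 * N)) :=
          mul_le_mul_of_nonneg_left h4 (by positivity)
      _ = _ := by rw [hη']; field_simp; ring
  calc C0 / η ^ (2 * p) * (δ * H) * Y * x / M + η * x * Real.sqrt (H * Y) ≤ ε / 2 * (N * x) + ε / 2 * (N * x) := add_le_add t1 t2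
    _ = _ := by ring

set_option maxHeartbeats 1000000 in
/-- almost all shifts, boundedly many weights, all lengths -/
theorem fam_mul (p B K : ℕ) (C ε : ℝ) (hC : 0 < C) (hε : 0 < ε) : ∃ A N0 : ℕ, 1 ≤ A ∧ ∀ N : ℕ, N0 ≤ N →
    ∀ (x : ℕ) (s : ℕ → ℤ), (∀ m ∈ Icc 1 x, |s m| ≤ B * N) →
    (energy p x s : ℝ) * N ≤ C * (x : ℝ) ^ (2 * p) →
    ∀ f : ℕ → ℂ, Mul1 f → SM f A (2 * ((B + 1) * N)) →
    ∀ (α : ℕ → ℕ) (g : ℕ → ℕ → ℂ), (∀ l < K, 1 ≤ α l) → (∀ l < K, ∀ n, ‖g l n‖ ≤ 1) →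
    ∀ E : ℕ → Prop, [DecidablePred E] →
    (∀ m ∈ Icc 1 x, E m → ∃ l < K, ∃ X : ℕ, α l * X ≤ B * N ∧
      ε * N < ‖∑ n ∈ Icc 1 X, g l n * exI f (((α l * n : ℕ) : ℤ) + s m)‖) →
    (((Icc 1 x).filter E).card : ℝ) ≤ ε * x := by
  classical
  obtain ⟨J, hJ⟩ := exists_nat_ge (4 * B / ε + 1)
  obtain ⟨ε', hε''⟩ : ∃ ε', ε' = ε ^ 2 / (2 * ((K + 1) * (J + 1))) := ⟨_, rfl⟩
  have hε' : 0 < ε' := by rw [hε'']; positivity
  obtain ⟨A, N1, hA1, h1⟩ := l1_f p B C ε' hC hε'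
  obtain ⟨N2, hN2⟩ := exists_nat_ge (4 / ε)
  refine ⟨A, N1 + N2 + 1, hA1, fun N hN x s hs hE f hf hsm α g hα hg E _ hEm => ?_⟩
  have hN0 : (0 : ℝ) < N := by exact_mod_cast (by omega : 0 < N)
  have hNε : 4 ≤ ε * N := by
    have h2 : (N2 : ℝ) ≤ N := by exact_mod_cast (by omega : N2 ≤ N)
    have h3 := hN2.trans h2
    rw [div_le_iff₀ hε] at h3
    linarith
  have hl1 := h1 N (by omega) x s hs hE f hf hsm
  obtain ⟨D, hD⟩ : ∃ D, D = ⌊ε * N / 2⌋₊ := ⟨_, rfl⟩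
  have hD1 : (D : ℝ) ≤ ε * N / 2 := by rw [hD]; exact Nat.floor_le (by positivity)
  have hD2 : ε * N / 4 ≤ D := by
    have h2 : ε * N / 2 < D + 1 := by rw [hD]; exact Nat.lt_floor_add_one _
    linarith
  have hDpos : 1 ≤ D := by
    have : (0 : ℝ) < D := by linarith
    exact_mod_cast this
  obtain ⟨G, hG⟩ : ∃ G : ℕ → ℕ → ℂ, G = fun l m => if α l ∣ m then (if l < K then g l (m / α l) else 0) else 0 := ⟨_, rfl⟩
  have hGb : ∀ l m, ‖G l m‖ ≤ 1 := by
    intro l m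
    rw [hG]
    simp only
    split_ifs with h2 h3
    · exact hg l h3 _
    · simp
    · simp
  obtain ⟨T, hT⟩ : ∃ T : ℕ → ℕ → ℕ → ℝ, T = fun l j m => ‖∑ a ∈ Icc 1 (j * D), G l a * exI f (a + s m)‖ := ⟨_, rfl⟩
  -- every bad m is bad for some sum on the grid
  have hcov : (Icc 1 x).filter E ⊆ ((range K) ×ˢ (range (J + 1))).biUnion
      (fun q => (Icc 1 x).filter (fun m => q.2 * D ≤ B * N ∧ ε * N / 2 < T q.1 q.2 m)) := by
    intro m hm
    rw [mem_filter] at hm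
    obtain ⟨l, hl, X, hX, hlt⟩ := hEm m hm.1 hm.2
    rw [mem_biUnion]
    refine ⟨(l, α l * X / D), ?_, ?_⟩
    · rw [mem_product, mem_range, mem_range]
      refine ⟨hl, ?_⟩
      have h2 : ((α l * X / D : ℕ) : ℝ) ≤ (α l * X : ℕ) / (D : ℝ) := Nat.cast_div_le
      have hD0 : (0 : ℝ) < D := by exact_mod_cast hDpos
      have h3 : ((α l * X : ℕ) : ℝ) / (D : ℝ) ≤ 4 * B / ε := by
        rw [div_le_div_iff₀ hD0 hε]
        have h4 : ((α l * X : ℕ) : ℝ) ≤ B * N := by exact_mod_cast hX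
        have hB0 : (0 : ℝ) ≤ B := Nat.cast_nonneg _
        calc ((α l * X : ℕ) : ℝ) * ε ≤ (B * N) * ε := mul_le_mul_of_nonneg_right h4 hε.le
          _ = 4 * B * (ε * N / 4) := by ring
          _ ≤ 4 * B * D := mul_le_mul_of_nonneg_left hD2 (by positivity)
      have h4 : ((α l * X / D : ℕ) : ℝ) ≤ J := by linarith
      have h5 : α l * X / D ≤ J := by exact_mod_cast h4
      omega
    · rw [mem_filter]
      refine ⟨hm.1, (Nat.div_mul_le_self _ _).trans hX, ?_⟩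
      have h2 : ∑ n ∈ Icc 1 X, g l n * exI f (((α l * n : ℕ) : ℤ) + s m) =
          ∑ a ∈ Icc 1 (α l * X), G l a * exI f (a + s m) := by
        rw [spread (fun a => exI f ((a : ℤ) + s m)) (g l) (α l) X (hα l hl)]
        apply sum_congr rfl
        intro a _
        rw [hG]
        simp only [hl, if_true]
      rw [h2] at hlt
      have h3 := grid_step (fun a => exI f ((a : ℤ) + s m)) (G l) (α l * X) D hDpos 1
        (fun a => exI_norm f hf.1 _) (fun a _ => hGb l a) zero_le_one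
      rw [one_mul] at h3
      rw [hT]
      simp only
      linarith
  have hone : ∀ q ∈ (range K) ×ˢ (range (J + 1)), (((Icc 1 x).filter (fun m => q.2 * D ≤ B * N ∧ ε * N / 2 < T q.1 q.2 m)).card : ℝ) ≤
      2 * ε' / ε * x := by
    intro q _
    by_cases hq : q.2 * D ≤ B * N
    · have h2 := hl1 (q.2 * D) hq (G q.1) (hGb q.1)
      have h3 : (((Icc 1 x).filter (fun m => q.2 * D ≤ B * N ∧ ε * N / 2 < T q.1 q.2 m)).card : ℝ) * (ε * N / 2) ≤
          ∑ m ∈ Icc 1 x, T q.1 q.2 m := by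
        rw [← nsmul_eq_mul, ← sum_const]
        refine (sum_le_sum (g := fun m => T q.1 q.2 m) ?_).trans ?_
        · intro m hm
          rw [mem_filter] at hm
          exact hm.2.2.le
        · apply sum_le_sum_of_subset_of_nonneg (filter_subset _ _)
          intro m _ _
          rw [hT]
          exact norm_nonneg _
      have h4 : ∑ m ∈ Icc 1 x, T q.1 q.2 m ≤ ε' * (N * x) := by
        rw [hT]
        exact h2
      have h5 := h3.trans h4
      rw [← le_div_iff₀ (by positivity)] at h5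
      refine h5.trans (le_of_eq ?_)
      field_simp
    · have h2 : (Icc 1 x).filter (fun m => q.2 * D ≤ B * N ∧ ε * N / 2 < T q.1 q.2 m) = ∅ := by
        apply filter_eq_empty_iff.2
        intro m _ h
        exact hq h.1
      rw [h2]
      simp only [card_empty, Nat.cast_zero]
      positivity
  calc (((Icc 1 x).filter E).card : ℝ) ≤ ((((range K) ×ˢ (range (J + 1))).biUnion
      (fun q => (Icc 1 x).filter (fun m => q.2 * D ≤ B * N ∧ ε * N / 2 < T q.1 q.2 m))).card : ℝ) := by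
        exact_mod_cast card_le_card hcov
    _ ≤ ∑ q ∈ (range K) ×ˢ (range (J + 1)), (((Icc 1 x).filter (fun m => q.2 * D ≤ B * N ∧ ε * N / 2 < T q.1 q.2 m)).card : ℝ) := by
        exact_mod_cast card_biUnion_le
    _ ≤ ∑ _q ∈ (range K) ×ˢ (range (J + 1)), (2 * ε' / ε * x : ℝ) := sum_le_sum hone
    _ = (K * (J + 1)) * (2 * ε' / ε * x) := by
        rw [sum_const, card_product, card_range, card_range, nsmul_eq_mul]
        push_cast
        ring
    _ ≤ ((K + 1) * (J + 1)) * (2 * ε' / ε * x) := by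
        apply mul_le_mul_of_nonneg_right _ (by positivity)
        apply mul_le_mul_of_nonneg_right _ (by positivity)
        linarith
    _ = ε * x := by
        rw [hε'']
        field_simp

end Pool.Agent.TH935.EL
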