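import Pool.Agent.TH894.PV6
import Pool.Agent.TH935.DF2

set_option autoImplicit false

/-! Hooley's variance for almost all moduli in thin families. -/

namespace Pool.Agent.TH935.HM
open Finset
open Pool.Agent.H373R2.T7
open Pool.Agent.TH894.PA (cz cz_split)
open Pool.Agent.TH894.PV (G det_var)

lemma energy_mul (h x : ℕ) (s : ℕ → ℤ) (k : ℤ) (hk : k ≠ 0) : energy h x (fun m => k * s m) = energy h x s := by
  unfold energy
  congr 1
  apply filter_congr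
  intro q _
  rw [← mul_sum, ← mul_sum]
  exact ⟨fun h => mul_left_cancel₀ hk h, fun h => by rw [h]⟩

set_option maxHeartbeats 4000000 in
theorem mult_fam (h C κ V U : ℕ) : ∃ B0 : ℕ, ∀ E : ℕ, ∃ N₀ : ℕ, ∀ N : ℕ, N₀ ≤ N → ∀ z : ℕ, Real.log N ^ B0 ≤ z → (z : ℝ) ≤ Real.log N ^ E →
    ∀ (x : ℕ) (s : ℕ → ℤ), (∀ m ∈ Icc 1 x, |s m| ≤ N) →
    (energy h x s : ℝ) * N ≤ Real.log N ^ C * (x : ℝ) ^ (2 * h) →
    ∀ S : Finset ℕ, S ⊆ Icc 1 x → (∀ m ∈ S, 0 < s m ∧ ∃ k : ℕ, 1 ≤ k ∧ (k : ℝ) ≤ Real.log N ^ κ ∧ ∃ N₁ : ℕ,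
      (N₁ : ℝ) ≤ N * Real.log N ^ κ ∧ N / Real.log N ^ V < |cz z N₁ (k * (s m).toNat)|) → (S.card : ℝ) ≤ x / Real.log N ^ U := by
  classical
  obtain ⟨B1, hB1⟩ := Pool.Agent.TH935.DF.mom h (C + κ + 1) 0 (V + κ + 2) (V + κ + 5) (U + κ + 1)
  refine ⟨B1 + 1, fun E => ?_⟩
  obtain ⟨n1, h1⟩ := hB1 E
  obtain ⟨n2, h2⟩ := Vz_inv_small E
  obtain ⟨n3, h3⟩ := ev_L' (2 ^ B1 + 200)
  obtain ⟨n4, h4⟩ := ev_log' (V + κ + 5) (2 ^ (V + κ + 5) * 2)
  obtain ⟨n5, h5⟩ := ev_log' (κ + 1) 1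
  refine ⟨n1 + n2 + n3 + n4 + n5 + 3, fun N hN z hz1 hz2 x s hs hE S hSx hS => ?_⟩
  have c2 := h2 N (by omega)
  have c3 := h3 N (by omega)
  have c4 := h4 N (by omega)
  have c5 := h5 N (by omega)
  obtain ⟨L, hL⟩ : ∃ L, L = Real.log (N : ℝ) := ⟨_, rfl⟩
  rw [← hL] at c2 c3 c4 c5 hz1 hz2 hE hS ⊢
  have h2B : (1 : ℝ) ≤ 2 ^ B1 := one_le_pow₀ (by norm_num)
  have hL200 : 200 ≤ L := by linarith
  have hL1 : 1 ≤ L := by linarith
  have hL0 : 0 < L := by linarith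
  have hN3 : (3 : ℝ) ≤ N := by exact_mod_cast (by omega : 3 ≤ N)
  have hN0 : (0 : ℝ) < N := by linarith
  obtain ⟨K0, hK0⟩ : ∃ K0, K0 = ⌈L ^ κ⌉₊ := ⟨_, rfl⟩
  have hK1 : L ^ κ ≤ (K0 : ℝ) := by rw [hK0]; exact Nat.le_ceil _
  have hLκ : 1 ≤ L ^ κ := one_le_pow₀ hL1
  have hK2 : (K0 : ℝ) ≤ L ^ (κ + 1) := by
    have h6 : (K0 : ℝ) < L ^ κ + 1 := by rw [hK0]; exact Nat.ceil_lt_add_one (by positivity)
    rw [pow_succ]
    nlinarith
  have hK0' : 1 ≤ K0 := by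
    have : (1 : ℝ) ≤ K0 := hLκ.trans hK1
    exact_mod_cast this
  obtain ⟨X, hX⟩ : ∃ X, X = N * K0 := ⟨_, rfl⟩
  have hNX : N ≤ X := by rw [hX]; exact Nat.le_mul_of_pos_right _ hK0'
  have hNXr : (N : ℝ) ≤ X := by exact_mod_cast hNX
  have hX0 : (0 : ℝ) < X := by linarith
  have hXr : (X : ℝ) ≤ N * L ^ (κ + 1) := by
    rw [hX]; push_cast
    exact mul_le_mul_of_nonneg_left hK2 hN0.le
  obtain ⟨l, hl⟩ : ∃ l, l = Real.log (X : ℝ) := ⟨_, rfl⟩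
  have hLl : L ≤ l := by rw [hL, hl]; exact Real.log_le_log hN0 hNXr
  have hl2 : l ≤ 2 * L := by
    have h6 : (X : ℝ) ≤ N * N := by
      refine hXr.trans (mul_le_mul_of_nonneg_left ?_ hN0.le)
      rw [one_mul] at c5
      refine c5.trans ?_
      rw [Real.sqrt_le_left (by linarith)]
      nlinarith
    rw [hl, hL]
    calc Real.log (X : ℝ) ≤ Real.log ((N : ℝ) * N) := Real.log_le_log hX0 h6
      _ = 2 * Real.log (N : ℝ) := by rw [Real.log_mul hN0.ne' hN0.ne']; ring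
  have hl0 : 0 < l := by linarith
  have hl1 : 1 ≤ l := by linarith
  have c1 := h1 X (by omega) z (by
    rw [← hl]
    calc l ^ B1 ≤ (2 * L) ^ B1 := pow_le_pow_left₀ hl0.le hl2 _
      _ = 2 ^ B1 * L ^ B1 := mul_pow _ _ _
      _ ≤ L * L ^ B1 := mul_le_mul_of_nonneg_right (by linarith) (by positivity)
      _ = L ^ (B1 + 1) := by rw [pow_succ]; ring
      _ ≤ z := hz1) (by
    rw [← hl]
    exact hz2.trans (pow_le_pow_left₀ hL0.le hLl _))
  rw [← hl] at c1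
  obtain ⟨T, hT⟩ : ∃ T, T = ⌈l ^ (V + κ + 4)⌉₊ := ⟨_, rfl⟩
  have hT1 : l ^ (V + κ + 4) ≤ (T : ℝ) := by rw [hT]; exact Nat.le_ceil _
  have hT2 : (T : ℝ) ≤ l ^ (V + κ + 5) := by
    have h6 : (T : ℝ) < l ^ (V + κ + 4) + 1 := by rw [hT]; exact Nat.ceil_lt_add_one (by positivity)
    have h7 : 1 ≤ l ^ (V + κ + 4) := one_le_pow₀ hl1
    have h8 : l ^ (V + κ + 5) = l ^ (V + κ + 4) * l := by rw [← pow_succ]
    rw [h8]
    nlinarith
  have hTpos : 0 < T := by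
    have h7 : 1 ≤ l ^ (V + κ + 4) := one_le_pow₀ hl1
    have : (0 : ℝ) < T := by linarith
    exact_mod_cast this
  have hTr0 : (0 : ℝ) < T := by exact_mod_cast hTpos
  have hTX : (T : ℝ) ≤ X := by
    calc (T : ℝ) ≤ l ^ (V + κ + 5) := hT2
      _ ≤ (2 * L) ^ (V + κ + 5) := pow_le_pow_left₀ hl0.le hl2 _
      _ = 2 ^ (V + κ + 5) * L ^ (V + κ + 5) := mul_pow _ _ _
      _ ≤ 2 ^ (V + κ + 5) * 2 * L ^ (V + κ + 5) := by nlinarith [show (0:ℝ) ≤ 2 ^ (V + κ + 5) * L ^ (V + κ + 5) by positivity]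
      _ ≤ √N := c4
      _ ≤ N := by
        rw [Real.sqrt_le_left (by linarith)]
        nlinarith
      _ ≤ X := hNXr
  obtain ⟨s₀, hs₀⟩ : ∃ s₀, s₀ = X / T + 1 := ⟨_, rfl⟩
  have hs₀pos : 1 ≤ s₀ := by rw [hs₀]; exact Nat.le_add_left 1 _
  have hs₀r : (s₀ : ℝ) ≤ 2 * (X / T) := by
    have h6 : ((X / T : ℕ) : ℝ) ≤ (X : ℝ) / T := Nat.cast_div_le
    have h7 : 1 ≤ (X : ℝ) / T := by rw [le_div_iff₀ hTr0]; linarith
    rw [hs₀]; push_cast
    linarith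
  have hz1' : 1 ≤ z := by
    have h6 : (1 : ℝ) ≤ L ^ (B1 + 1) := one_le_pow₀ hL1
    have : (1 : ℝ) ≤ z := h6.trans hz1
    exact_mod_cast this
  have hV := c2 z hz1' hz2
  -- the exceptional sets
  have hsub : S ⊆ (Icc 1 K0).biUnion (fun k => S.filter (fun m => ∃ N₁ : ℕ, (N₁ : ℝ) ≤ N * L ^ κ ∧ N / L ^ V < |cz z N₁ (k * (s m).toNat)|)) := by
    intro m hm
    obtain ⟨_, k, hk1, hk2, N₁, hN1, hlt⟩ := hS m hm
    rw [mem_biUnion]
    refine ⟨k, ?_, ?_⟩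
    · rw [mem_Icc]
      refine ⟨hk1, ?_⟩
      have : (k : ℝ) ≤ K0 := hk2.trans hK1
      exact_mod_cast this
    · rw [mem_filter]
      exact ⟨hm, N₁, hN1, hlt⟩
  have hk : ∀ k ∈ Icc 1 K0, ((S.filter (fun m => ∃ N₁ : ℕ, (N₁ : ℝ) ≤ N * L ^ κ ∧ N / L ^ V < |cz z N₁ (k * (s m).toNat)|)).card : ℝ) ≤ x / l ^ (U + κ + 1) := by
    intro k hk
    rw [mem_Icc] at hk
    refine c1 T s₀ hT2 x (fun m => (k : ℤ) * s m) (fun m hm => ?_) ?_ _ ((filter_subset _ _).trans hSx) ?_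
    · have h6 := hs m hm
      rw [abs_mul, abs_of_nonneg (Int.natCast_nonneg k)]
      have h7 : (k : ℤ) ≤ K0 := by exact_mod_cast hk.2
      have h8 : (k : ℤ) * |s m| ≤ (K0 : ℤ) * N := mul_le_mul h7 h6 (abs_nonneg _) (Int.natCast_nonneg _)
      have h9 : ((X : ℕ) : ℤ) = (N : ℤ) * K0 := by rw [hX]; push_cast; ring
      have h10 : (0 : ℤ) ≤ (X : ℤ) := Int.natCast_nonneg _
      nlinarith
    · rw [energy_mul h x s (k : ℤ) (by exact_mod_cast (by omega : k ≠ 0))]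
      calc (energy h x s : ℝ) * X = ((energy h x s : ℝ) * N) * K0 := by rw [hX]; push_cast; ring
        _ ≤ (L ^ C * (x : ℝ) ^ (2 * h)) * L ^ (κ + 1) := mul_le_mul hE hK2 (by positivity) (by positivity)
        _ = L ^ (C + κ + 1) * (x : ℝ) ^ (2 * h) := by rw [show C + κ + 1 = C + (κ + 1) by ring, pow_add]; ring
        _ ≤ l ^ (C + κ + 1) * (x : ℝ) ^ (2 * h) := by
          apply mul_le_mul_of_nonneg_right (pow_le_pow_left₀ hL0.le hLl _) (by positivity)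
    · intro m hm
      rw [mem_filter] at hm
      obtain ⟨hmS, N₁, hN1, hlt⟩ := hm
      obtain ⟨hm0, _⟩ := hS m hmS
      have e1 : (((s m).toNat : ℕ) : ℤ) = s m := Int.toNat_of_nonneg hm0.le
      have hsm : (s m).toNat ≤ N := by
        have h6 := hs m (hSx hmS)
        rw [abs_of_pos hm0, ← e1] at h6
        exact_mod_cast h6
      have hN1X : N₁ ≤ X := by
        have h6 : (N₁ : ℝ) ≤ N * K0 := hN1.trans (mul_le_mul_of_nonneg_left hK1 hN0.le)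
        rw [hX]; exact_mod_cast h6
      have hy : k * (s m).toNat ≤ X := by
        rw [hX]
        calc k * (s m).toNat ≤ K0 * N := Nat.mul_le_mul hk.2 hsm
          _ = N * K0 := Nat.mul_comm _ _
      have hspl := cz_split z s₀ (N₁ / s₀) N₁ (k * (s m).toNat) (2 * X) (4 * L) rfl hs₀pos (by omega) (by
        push_cast
        rw [Real.log_mul (by norm_num) hX0.ne', ← hl]
        have h6 : Real.log 2 ≤ 1 := by
          have := Real.log_two_lt_d9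
          linarith
        linarith)
      have hj : N₁ / s₀ ≤ T := by
        apply Nat.le_of_lt_succ
        rw [Nat.div_lt_iff_lt_mul hs₀pos]
        have h6 : X < T * s₀ := by
          rw [hs₀, Nat.mul_add, Nat.mul_one, Nat.mul_comm]
          exact Nat.lt_div_mul_add hTpos
        calc N₁ ≤ X := hN1X
          _ < T * s₀ := h6
          _ ≤ (T + 1) * s₀ := Nat.mul_le_mul_right _ (by omega)
      refine ⟨N₁ / s₀, mem_range.2 (by omega), 1, 0, by simp, by norm_num, ?_⟩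
      have hmin : min (N₁ / s₀ * s₀) X = N₁ / s₀ * s₀ := min_eq_left ((Nat.div_mul_le_self _ _).trans hN1X)
      rw [hmin]
      have hsum : ∑ n ∈ Icc 1 (N₁ / s₀ * s₀), (if n ≡ 0 [MOD 1] then ArithmeticFunction.vonMangoldt n else 0) *
          (lamI ((n : ℤ) + (k : ℤ) * s m) - lamzI z ((n : ℤ) + (k : ℤ) * s m)) = cz z (N₁ / s₀ * s₀) (k * (s m).toNat) := by
        unfold cz
        apply sum_congr rfl
        intro n _
        rw [if_pos (Nat.modEq_one)]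
        push_cast
        rw [Int.toNat_of_nonneg hm0.le]
      rw [hsum]
      have hb1 : (s₀ : ℝ) * (4 * L * (4 * L)) ≤ N / L ^ V / 2 := by
        have h6 : (X : ℝ) / T ≤ N * L ^ (κ + 1) / L ^ (V + κ + 4) := by
          apply div_le_div₀ (by positivity) hXr (by positivity)
          exact (pow_le_pow_left₀ hL0.le hLl _).trans hT1
        have h7 : (N : ℝ) * L ^ (κ + 1) / L ^ (V + κ + 4) = N / L ^ V / L ^ 3 := by
          rw [show V + κ + 4 = V + 3 + (κ + 1) by ring, pow_add L (V + 3), pow_add L V]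
          field_simp
        have h8 : (0 : ℝ) ≤ N / L ^ V := by positivity
        calc (s₀ : ℝ) * (4 * L * (4 * L)) ≤ (2 * (N / L ^ V / L ^ 3)) * (4 * L * (4 * L)) := by
              apply mul_le_mul_of_nonneg_right _ (by positivity)
              rw [← h7]
              linarith
          _ = (N / L ^ V) * (32 / L) := by field_simp; ring
          _ ≤ (N / L ^ V) * (1 / 2) := by
              apply mul_le_mul_of_nonneg_left _ h8
              rw [div_le_iff₀ hL0]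
              linarith
          _ = N / L ^ V / 2 := by ring
      have hb2 : (X : ℝ) / l ^ (V + κ + 2) ≤ N / L ^ V / 2 := by
        have h6 : (X : ℝ) / l ^ (V + κ + 2) ≤ N * L ^ (κ + 1) / L ^ (V + κ + 2) := by
          apply div_le_div₀ (by positivity) hXr (by positivity)
          exact pow_le_pow_left₀ hL0.le hLl _
        have h7 : (N : ℝ) * L ^ (κ + 1) / L ^ (V + κ + 2) = N / L ^ V / L := by
          rw [show V + κ + 2 = V + 1 + (κ + 1) by ring, pow_add L (V + 1), pow_add L V, pow_one]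
          field_simp
        refine h6.trans ?_
        rw [h7]
        apply div_le_div_of_nonneg_left (by positivity) (by norm_num) (by linarith)
      linarith
  have hfin : (S.card : ℝ) ≤ K0 * (x / l ^ (U + κ + 1)) := by
    calc (S.card : ℝ) ≤ (((Icc 1 K0).biUnion (fun k => S.filter (fun m => ∃ N₁ : ℕ, (N₁ : ℝ) ≤ N * L ^ κ ∧ N / L ^ V < |cz z N₁ (k * (s m).toNat)|))).card : ℝ) := by
          exact_mod_cast card_le_card hsub
      _ ≤ ∑ k ∈ Icc 1 K0, ((S.filter (fun m => ∃ N₁ : ℕ, (N₁ : ℝ) ≤ N * L ^ κ ∧ N / L ^ V < |cz z N₁ (k * (s m).toNat)|)).card : ℝ) := by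
          exact_mod_cast card_biUnion_le
      _ ≤ ∑ _k ∈ Icc 1 K0, (x / l ^ (U + κ + 1) : ℝ) := sum_le_sum hk
      _ = K0 * (x / l ^ (U + κ + 1)) := by rw [sum_const, Nat.card_Icc, nsmul_eq_mul]; simp
  refine hfin.trans ?_
  have hx0 : (0 : ℝ) ≤ x := Nat.cast_nonneg _
  calc (K0 : ℝ) * (x / l ^ (U + κ + 1)) ≤ L ^ (κ + 1) * (x / L ^ (U + κ + 1)) := by
        apply mul_le_mul hK2 _ (by positivity) (by positivity)
        exact div_le_div_of_nonneg_left hx0 (by positivity) (pow_le_pow_left₀ hL0.le hLl _)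
    _ = x / L ^ U := by
        rw [show U + κ + 1 = U + (κ + 1) by ring, pow_add L U (κ + 1)]
        field_simp

set_option maxHeartbeats 1000000 in
theorem mod_fam (h C κ U : ℕ) (ε : ℝ) (hε : 0 < ε) (hε1 : ε ≤ 1) : ∃ N₀ : ℕ, ∀ N : ℕ, N₀ ≤ N →
    ∀ (x : ℕ) (s : ℕ → ℤ), (∀ m ∈ Icc 1 x, |s m| ≤ N) →
    (energy h x s : ℝ) * N ≤ Real.log N ^ C * (x : ℝ) ^ (2 * h) →
    ∀ S : Finset ℕ, S ⊆ Icc 1 x → (∀ m ∈ S, 0 < s m ∧ (N : ℝ) ≤ (s m).toNat * Real.log N ^ κ ∧ ∃ y : ℝ,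
      ((s m).toNat : ℝ) ≤ y ∧ y ≤ (s m).toNat * Real.log N ^ κ ∧
      ¬ |G y (s m).toNat - y * Real.log (s m).toNat| ≤ ε * (y * Real.log (s m).toNat)) → (S.card : ℝ) ≤ x / Real.log N ^ U := by
  obtain ⟨B0, hB0⟩ := mult_fam h C κ (2 * κ) U
  obtain ⟨E1, hE1⟩ : ∃ E1, E1 = B0 + κ + 2 := ⟨_, rfl⟩
  obtain ⟨n1, h1⟩ := hB0 (E1 + 1)
  obtain ⟨n2, h2⟩ := det_var κ ε hε hε1 (E1 + 1)
  obtain ⟨n3, h3⟩ := ev_L' 2
  refine ⟨n1 + n2 + n3 + 3, fun N hN x s hs hE S hSx hS => ?_⟩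
  have c1 := h1 N (by omega)
  have c2 := h2 N (by omega)
  have c3 := h3 N (by omega)
  obtain ⟨L, hL⟩ : ∃ L, L = Real.log (N : ℝ) := ⟨_, rfl⟩
  rw [← hL] at c1 c2 c3 hE hS ⊢
  have hL1 : 1 ≤ L := by linarith
  have hL0 : 0 < L := by linarith
  obtain ⟨z, hz⟩ : ∃ z, z = ⌈L ^ E1⌉₊ := ⟨_, rfl⟩
  have hz1 : L ^ E1 ≤ (z : ℝ) := by rw [hz]; exact Nat.le_ceil _
  have hz2 : (z : ℝ) ≤ L ^ (E1 + 1) := by
    have h6 : (z : ℝ) < L ^ E1 + 1 := by rw [hz]; exact Nat.ceil_lt_add_one (by positivity)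
    have h7 : 1 ≤ L ^ E1 := one_le_pow₀ hL1
    rw [pow_succ]
    nlinarith
  refine c1 z ((pow_le_pow_right₀ hL1 (by omega)).trans hz1) hz2 x s hs hE S hSx ?_
  intro m hm
  obtain ⟨hm0, hm1, y, hy1, hy2, hbad⟩ := hS m hm
  refine ⟨hm0, ?_⟩
  by_contra hcon
  push Not at hcon
  apply hbad
  have hsm : (s m).toNat ≤ N := by
    have h6 := hs m (hSx hm)
    rw [abs_of_pos hm0, ← Int.toNat_of_nonneg hm0.le] at h6
    exact_mod_cast h6
  refine c2 z ((pow_le_pow_right₀ hL1 (by omega)).trans hz1) hz2 (s m).toNat hsm hm1 y hy1 hy2 ?_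
  intro k hk1 hk2 N₁ hN1
  exact hcon k hk1 hk2 N₁ hN1

end Pool.Agent.TH935.HM
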