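import Pool.Agent.TH935.HM1
import Pool.Agent.TH823.Fam.Fam2

set_option autoImplicit false

/-! Hooley's variance for the values of polynomials. -/

namespace Pool.Agent.TH935.HM
open Finset
open Pool.Agent.H373R2.T7
open Pool.Agent.TH894.PV (G)

/-- bounds for the values of a polynomial -/
lemma poly_bd (f : Polynomial ℤ) (hd : 1 ≤ f.natDegree) (hl : 0 < f.leadingCoeff) :
    ∃ K m₁ : ℕ, 1 ≤ K ∧ (∀ x m : ℕ, 1 ≤ m → m ≤ x → |f.eval (m : ℤ)| ≤ ((K * x ^ f.natDegree : ℕ) : ℤ)) ∧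
      ∀ m : ℕ, m₁ ≤ m → ((m ^ f.natDegree : ℕ) : ℤ) ≤ 2 * f.eval (m : ℤ) := by
  classical
  obtain ⟨d, hd'⟩ : ∃ d, d = f.natDegree := ⟨_, rfl⟩
  rw [← hd'] at hd ⊢
  refine ⟨∑ i ∈ range (d + 1), (f.coeff i).natAbs + 1, 2 * (∑ i ∈ range (d + 1), (f.coeff i).natAbs) + 1, by omega, ?_, ?_⟩
  · intro x m hm hmx
    have h1 : f.eval (m : ℤ) = ∑ i ∈ range (d + 1), f.coeff i * (m : ℤ) ^ i := by
      rw [hd']; exact Polynomial.eval_eq_sum_range _
    rw [h1]
    refine (abs_sum_le_sum_abs _ _).trans ?_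
    push_cast
    rw [add_mul, sum_mul]
    have h2 : ∀ i ∈ range (d + 1), |f.coeff i * (m : ℤ) ^ i| ≤ |f.coeff i| * (x : ℤ) ^ d := by
      intro i hi
      rw [mem_range] at hi
      rw [abs_mul, abs_pow, Nat.abs_cast]
      apply mul_le_mul_of_nonneg_left _ (abs_nonneg _)
      have h3 : m ^ i ≤ x ^ d := (Nat.pow_le_pow_left hmx i).trans (Nat.pow_le_pow_right (by omega) (by omega))
      exact_mod_cast h3
    have h4 := sum_le_sum h2
    have h5 : (0 : ℤ) ≤ 1 * (x : ℤ) ^ d := by positivity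
    linarith
  · intro m hm
    have h1 : f.eval (m : ℤ) = ∑ i ∈ range (d + 1), f.coeff i * (m : ℤ) ^ i := by
      rw [hd']; exact Polynomial.eval_eq_sum_range _
    rw [sum_range_succ] at h1
    have h2 : (m : ℤ) ^ d ≤ f.coeff d * (m : ℤ) ^ d := by
      have h3 : 1 ≤ f.coeff d := by
        have : f.leadingCoeff = f.coeff d := by rw [hd']; rfl
        rw [← this]; omega
      have h4 : (0 : ℤ) ≤ (m : ℤ) ^ d := by positivity
      nlinarith
    have h5 : |∑ i ∈ range d, f.coeff i * (m : ℤ) ^ i| ≤ (∑ i ∈ range d, |f.coeff i|) * (m : ℤ) ^ (d - 1) := by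
      refine (abs_sum_le_sum_abs _ _).trans ?_
      rw [sum_mul]
      apply sum_le_sum
      intro i hi
      rw [mem_range] at hi
      rw [abs_mul, abs_pow, Nat.abs_cast]
      apply mul_le_mul_of_nonneg_left _ (abs_nonneg _)
      have h3 : m ^ i ≤ m ^ (d - 1) := Nat.pow_le_pow_right (by omega) (by omega)
      exact_mod_cast h3
    have h6 : 2 * (∑ i ∈ range d, |f.coeff i|) ≤ (m : ℤ) := by
      have h7 : ∑ i ∈ range d, (f.coeff i).natAbs ≤ ∑ i ∈ range (d + 1), (f.coeff i).natAbs :=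
        sum_le_sum_of_subset (range_mono (by omega))
      have h8 : 2 * ∑ i ∈ range d, (f.coeff i).natAbs ≤ m := by omega
      have h9 : ((∑ i ∈ range d, (f.coeff i).natAbs : ℕ) : ℤ) = ∑ i ∈ range d, |f.coeff i| := by
        push_cast
        rfl
      rw [← h9]
      exact_mod_cast h8
    have h7 : (m : ℤ) ^ d = m * (m : ℤ) ^ (d - 1) := by
      rw [← pow_succ']; congr 1; omega
    have h8 : (0 : ℤ) ≤ (m : ℤ) ^ (d - 1) := by positivity
    have h9 : 2 * ((∑ i ∈ range d, |f.coeff i|) * (m : ℤ) ^ (d - 1)) ≤ (m : ℤ) ^ d := by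
      rw [h7]
      nlinarith
    rw [h1]
    push_cast
    have h10 := neg_abs_le (∑ i ∈ range d, f.coeff i * (m : ℤ) ^ i)
    linarith

set_option maxHeartbeats 1000000 in
theorem mod_poly (f : Polynomial ℤ) (hd : 1 ≤ f.natDegree) (hl : 0 < f.leadingCoeff) (κ U : ℕ) (ε : ℝ) (hε : 0 < ε) (hε1 : ε ≤ 1) :
    ∃ x₀ : ℕ, ∀ x : ℕ, x₀ ≤ x → ∀ S : Finset ℕ, S ⊆ Icc 1 x → (∀ m ∈ S, ¬ (0 < f.eval (m : ℤ) ∧ ∀ y : ℝ,
      ((f.eval (m : ℤ)).toNat : ℝ) ≤ y → y ≤ (f.eval (m : ℤ)).toNat * Real.log x ^ κ →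
      |G y (f.eval (m : ℤ)).toNat - y * Real.log (f.eval (m : ℤ)).toNat| ≤ ε * (y * Real.log (f.eval (m : ℤ)).toNat))) →
      (S.card : ℝ) ≤ x / Real.log x ^ U := by
  classical
  obtain ⟨K, m₁, hK, hup, hlow⟩ := poly_bd f hd hl
  obtain ⟨p, C, hC, hen⟩ := Pool.Agent.TH823.Fam.energy_poly' f hd
  obtain ⟨d, hd'⟩ : ∃ d, d = f.natDegree := ⟨_, rfl⟩
  rw [← hd'] at hd hup hlow hen
  obtain ⟨κ', hκ'⟩ : ∃ κ', κ' = κ + d * (U + 2) := ⟨_, rfl⟩
  obtain ⟨N₀, h0⟩ := mod_fam p 1 κ' (U + 1) ε hε hε1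
  obtain ⟨n1, h1⟩ := ev_L' (8 * K + C * K + 4 * d + Real.log K + 8)
  obtain ⟨n2, h2⟩ := ev_log' U 4
  refine ⟨N₀ + n1 + n2 + 16 * (m₁ + 1) ^ 2 + 3, fun x hx S hSx hS => ?_⟩
  have hx3 : 3 ≤ x := by omega
  have c1 := h1 x (by omega)
  have c2 := h2 x (by omega)
  obtain ⟨N, hN⟩ : ∃ N, N = K * x ^ d := ⟨_, rfl⟩
  have hxN : x ≤ N := by
    rw [hN]
    calc x = 1 * x ^ 1 := by ring
      _ ≤ K * x ^ d := Nat.mul_le_mul hK (Nat.pow_le_pow_right (by omega) hd)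
  have hx0 : (0 : ℝ) < x := by exact_mod_cast (by omega : 0 < x)
  have hN0 : (0 : ℝ) < N := by exact_mod_cast (by omega : 0 < N)
  obtain ⟨l, hl'⟩ : ∃ l, l = Real.log (x : ℝ) := ⟨_, rfl⟩
  obtain ⟨L, hL⟩ : ∃ L, L = Real.log (N : ℝ) := ⟨_, rfl⟩
  have hlL : l ≤ L := by
    rw [hl', hL]; exact Real.log_le_log hx0 (by exact_mod_cast hxN)
  have hK0 : (0 : ℝ) < K := by exact_mod_cast (by omega : 0 < K)
  have hlK : 0 ≤ Real.log (K : ℝ) := Real.log_natCast_nonneg K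
  rw [← hl'] at c1 c2 hS ⊢
  have hd0 : (0 : ℝ) ≤ d := Nat.cast_nonneg d
  have hK1 : (1 : ℝ) ≤ K := by exact_mod_cast hK
  have hCK : 0 < C * K := by positivity
  have hl8 : 8 ≤ l := by nlinarith
  have hl0 : 0 < l := by linarith
  have hL0 : 0 < L := by linarith
  have hL1 : 1 ≤ L := by linarith
  -- the energy
  have hE : (energy p x (fun m => f.eval (m : ℤ)) : ℝ) * N ≤ L ^ 1 * (x : ℝ) ^ (2 * p) := by
    have h3 := hen x (by omega) 0
    simp only [zero_add] at h3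
    rw [hN]
    push_cast
    calc (energy p x (fun m => f.eval (m : ℤ)) : ℝ) * ((K : ℝ) * (x : ℝ) ^ d) = K * ((energy p x (fun m => f.eval (m : ℤ)) : ℝ) * (x : ℝ) ^ d) := by ring
      _ ≤ K * (C * (x : ℝ) ^ (2 * p)) := mul_le_mul_of_nonneg_left h3 hK0.le
      _ = (C * K) * (x : ℝ) ^ (2 * p) := by ring
      _ ≤ L ^ 1 * (x : ℝ) ^ (2 * p) := by
        apply mul_le_mul_of_nonneg_right _ (by positivity)
        rw [pow_one]
        nlinarith
  have c0 := h0 N (by omega) x (fun m => f.eval (m : ℤ)) (fun m hm => by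
    rw [mem_Icc] at hm
    have h3 := hup x m hm.1 hm.2
    rw [← hN] at h3
    exact h3) (by rw [← hL]; exact hE)
  rw [← hL] at c0
  -- the small values
  obtain ⟨S1, hS1⟩ : ∃ S1, S1 = S.filter (fun m : ℕ => 0 < f.eval (m : ℤ) ∧ (N : ℝ) ≤ (f.eval (m : ℤ)).toNat * L ^ κ') := ⟨_, rfl⟩
  have b1 : (S1.card : ℝ) ≤ x / L ^ (U + 1) := by
    refine c0 S1 (by rw [hS1]; exact (filter_subset _ _).trans hSx) ?_
    intro m hm
    rw [hS1, mem_filter] at hm
    obtain ⟨hmS, hm0, hm1⟩ := hm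
    refine ⟨hm0, hm1, ?_⟩
    have h3 := hS m hmS
    push Not at h3
    obtain ⟨y, hy1, hy2, hy3⟩ := h3 hm0
    refine ⟨y, hy1, hy2.trans ?_, not_le.2 hy3⟩
    apply mul_le_mul_of_nonneg_left _ (Nat.cast_nonneg _)
    calc l ^ κ ≤ L ^ κ := pow_le_pow_left₀ hl0.le hlL _
      _ ≤ L ^ κ' := pow_le_pow_right₀ hL1 (by omega)
  have b2 : (((S.filter (fun m : ℕ => ¬ (0 < f.eval (m : ℤ) ∧ (N : ℝ) ≤ (f.eval (m : ℤ)).toNat * L ^ κ'))).card : ℕ) : ℝ) ≤ m₁ + 2 * K * x / L ^ (U + 2) := by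
    have hsub : S.filter (fun m : ℕ => ¬ (0 < f.eval (m : ℤ) ∧ (N : ℝ) ≤ (f.eval (m : ℤ)).toNat * L ^ κ')) ⊆ Icc 1 (m₁ + ⌊2 * K * x / L ^ (U + 2)⌋₊) := by
      intro m hm
      rw [mem_filter] at hm
      obtain ⟨hmS, hm1⟩ := hm
      have hm2 := mem_Icc.1 (hSx hmS)
      rw [mem_Icc]
      refine ⟨hm2.1, ?_⟩
      by_cases h3 : m₁ ≤ m
      · have h4 := hlow m h3
        have hpos : 0 < f.eval (m : ℤ) := by
          have h5 : (0 : ℤ) < ((m ^ d : ℕ) : ℤ) := by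
            have : 0 < m ^ d := Nat.pow_pos (by omega)
            exact_mod_cast this
          omega
        push Not at hm1
        have h5 := hm1 hpos
        have h6 : (m : ℝ) ^ d ≤ 2 * ((f.eval (m : ℤ)).toNat : ℝ) := by
          have h7 : ((m ^ d : ℕ) : ℤ) ≤ ((2 * (f.eval (m : ℤ)).toNat : ℕ) : ℤ) := by
            push_cast
            rw [Int.toNat_of_nonneg hpos.le]
            push_cast at h4
            exact h4
          have h8 : m ^ d ≤ 2 * (f.eval (m : ℤ)).toNat := by exact_mod_cast h7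
          exact_mod_cast h8
        have hpw : L ^ κ' ≥ (L ^ (U + 2)) ^ d := by
          rw [← pow_mul]
          apply pow_le_pow_right₀ hL1
          rw [hκ']
          nlinarith
        have h7 : (m : ℝ) ^ d * (L ^ (U + 2)) ^ d ≤ (2 * K * x) ^ d := by
          calc (m : ℝ) ^ d * (L ^ (U + 2)) ^ d ≤ (2 * ((f.eval (m : ℤ)).toNat : ℝ)) * L ^ κ' :=
                mul_le_mul h6 hpw (by positivity) (by positivity)
            _ = 2 * (((f.eval (m : ℤ)).toNat : ℝ) * L ^ κ') := by ring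
            _ ≤ 2 * N := by linarith
            _ = 2 * K * (x : ℝ) ^ d := by rw [hN]; push_cast; ring
            _ ≤ (2 * K) ^ d * (x : ℝ) ^ d := by
              apply mul_le_mul_of_nonneg_right _ (by positivity)
              calc (2 * K : ℝ) = (2 * K) ^ 1 := by ring
                _ ≤ (2 * K) ^ d := pow_le_pow_right₀ (by linarith) hd
            _ = (2 * K * x) ^ d := by rw [← mul_pow]
        rw [← mul_pow] at h7
        have h8 : (m : ℝ) * L ^ (U + 2) ≤ 2 * K * x := le_of_pow_le_pow_left₀ (by omega) (by positivity) h7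
        have h9 : (m : ℝ) ≤ 2 * K * x / L ^ (U + 2) := by
          rw [le_div_iff₀ (by positivity)]
          exact h8
        have h10 := Nat.le_floor h9
        omega
      · omega
    have h3 := card_le_card hsub
    rw [Nat.card_Icc, Nat.add_sub_cancel] at h3
    have h4 : (⌊2 * K * x / L ^ (U + 2)⌋₊ : ℝ) ≤ 2 * K * x / L ^ (U + 2) := Nat.floor_le (by positivity)
    calc (((S.filter (fun m : ℕ => ¬ (0 < f.eval (m : ℤ) ∧ (N : ℝ) ≤ (f.eval (m : ℤ)).toNat * L ^ κ'))).card : ℕ) : ℝ) ≤ ((m₁ + ⌊2 * K * x / L ^ (U + 2)⌋₊ : ℕ) : ℝ) := by exact_mod_cast h3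
      _ ≤ m₁ + 2 * K * x / L ^ (U + 2) := by push_cast; linarith
  have b3 : (S.card : ℝ) = S1.card + (((S.filter (fun m : ℕ => ¬ (0 < f.eval (m : ℤ) ∧ (N : ℝ) ≤ (f.eval (m : ℤ)).toNat * L ^ κ'))).card : ℕ) : ℝ) := by
    rw [hS1]
    exact_mod_cast (card_filter_add_card_filter_not (s := S) _).symm
  rw [b3]
  have e1 : (x : ℝ) / L ^ (U + 1) ≤ x / l ^ U / 8 := by
    calc (x : ℝ) / L ^ (U + 1) ≤ x / l ^ (U + 1) := div_le_div_of_nonneg_left hx0.le (by positivity) (pow_le_pow_left₀ hl0.le hlL _)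
      _ = x / l ^ U / l := by rw [pow_succ, div_div]
      _ ≤ x / l ^ U / 8 := div_le_div_of_nonneg_left (by positivity) (by norm_num) hl8
  have e2 : 2 * K * x / L ^ (U + 2) ≤ x / l ^ U / 4 := by
    calc 2 * K * x / L ^ (U + 2) ≤ 2 * K * x / l ^ (U + 2) := div_le_div_of_nonneg_left (by positivity) (by positivity) (pow_le_pow_left₀ hl0.le hlL _)
      _ = x / l ^ U * (2 * K / l ^ 2) := by rw [pow_add]; field_simp
      _ ≤ x / l ^ U * (1 / 4) := by
        apply mul_le_mul_of_nonneg_left _ (by positivity)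
        rw [div_le_iff₀ (by positivity)]
        nlinarith
      _ = x / l ^ U / 4 := by ring
  have e3 : (m₁ : ℝ) ≤ x / l ^ U / 4 := by
    have hsx : (m₁ : ℝ) ≤ √x := by
      apply Real.le_sqrt_of_sq_le
      have h3 : m₁ ^ 2 ≤ x := by nlinarith
      exact_mod_cast h3
    have h4 : (0 : ℝ) < l ^ U := by positivity
    rw [div_div, le_div_iff₀ (by positivity)]
    calc (m₁ : ℝ) * (l ^ U * 4) ≤ √x * √x := mul_le_mul hsx (by linarith) (by positivity) (by positivity)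
      _ = x := Real.mul_self_sqrt hx0.le
  have e4 : (0 : ℝ) ≤ x / l ^ U := by positivity
  linarith

end Pool.Agent.TH935.HM
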