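import Pool.Agent.TH935.HM1

set_option autoImplicit false

/-! Consequences of Hooley's variance for the classes of a modulus. -/

namespace Pool.Agent.TH935.HM
open Finset
open Pool.Agent.H373R2.T7
open Pool.Agent.TH894.PV (G psiAP CQ CQ_one CQ_le totient_fac card_pf Vz_root)

open Classical in
/-- Chebyshev's inequality -/
lemma cheb (Q : ℕ) (y η W : ℝ) (hQ : 1 ≤ Q) (hy : 0 < y) (hη : 0 < η) (hG : G y Q ≤ W) :
    (((range Q).filter (fun b => Nat.Coprime b Q ∧ η * (y / (Nat.totient Q : ℝ)) ≤ |psiAP y Q b - y / (Nat.totient Q : ℝ)|)).card : ℝ) ≤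
      W * (Nat.totient Q : ℝ) ^ 2 / (η ^ 2 * y ^ 2) := by
  have hφ : (0 : ℝ) < (Nat.totient Q : ℝ) := by exact_mod_cast Nat.totient_pos.2 hQ
  rw [le_div_iff₀ (by positivity)]
  have h1 : (((range Q).filter (fun b => Nat.Coprime b Q ∧ η * (y / (Nat.totient Q : ℝ)) ≤ |psiAP y Q b - y / (Nat.totient Q : ℝ)|)).card : ℝ) *
      (η * (y / (Nat.totient Q : ℝ))) ^ 2 ≤ G y Q := by
    rw [← nsmul_eq_mul, ← sum_const]
    unfold G
    have h2 : ∀ b ∈ (range Q).filter (fun b => Nat.Coprime b Q ∧ η * (y / (Nat.totient Q : ℝ)) ≤ |psiAP y Q b - y / (Nat.totient Q : ℝ)|),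
        (η * (y / (Nat.totient Q : ℝ))) ^ 2 ≤ (psiAP y Q b - y / (Nat.totient Q : ℝ)) ^ 2 := by
      intro b hb
      rw [mem_filter] at hb
      rw [← sq_abs (psiAP y Q b - y / (Nat.totient Q : ℝ))]
      exact pow_le_pow_left₀ (by positivity) hb.2.2 2
    refine (sum_le_sum h2).trans ?_
    apply sum_le_sum_of_subset_of_nonneg
    · intro b hb
      rw [mem_filter] at hb ⊢
      exact ⟨hb.1, hb.2.1⟩
    · intro b _ _
      positivity
  have h2 := h1.trans hG
  calc (((range Q).filter (fun b => Nat.Coprime b Q ∧ η * (y / (Nat.totient Q : ℝ)) ≤ |psiAP y Q b - y / (Nat.totient Q : ℝ)|)).card : ℝ) * (η ^ 2 * y ^ 2)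
      = ((((range Q).filter (fun b => Nat.Coprime b Q ∧ η * (y / (Nat.totient Q : ℝ)) ≤ |psiAP y Q b - y / (Nat.totient Q : ℝ)|)).card : ℝ) *
      (η * (y / (Nat.totient Q : ℝ))) ^ 2) * (Nat.totient Q : ℝ) ^ 2 := by field_simp
    _ ≤ W * (Nat.totient Q : ℝ) ^ 2 := mul_le_mul_of_nonneg_right h2 (by positivity)

open Classical in
/-- classes without primes -/
lemma empty_classes (Q : ℕ) (y : ℝ) (hQ : 1 ≤ Q) (hy : 1 ≤ y) :
    (((range Q).filter (fun b => Nat.Coprime b Q ∧ ∀ p : ℕ, p.Prime → (p : ℝ) ≤ y → ¬ p % Q = b)).card : ℝ) ≤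
      (((range Q).filter (fun b => Nat.Coprime b Q ∧ 1 * (y / (Nat.totient Q : ℝ)) ≤ |psiAP y Q b - y / (Nat.totient Q : ℝ)|)).card : ℝ) +
        4 * (√y * Real.log y) := by
  have hφ : (0 : ℝ) < (Nat.totient Q : ℝ) := by exact_mod_cast Nat.totient_pos.2 hQ
  obtain ⟨E, hE⟩ : ∃ E, E = (range Q).filter (fun b => Nat.Coprime b Q ∧ ∀ p : ℕ, p.Prime → (p : ℝ) ≤ y → ¬ p % Q = b) := ⟨_, rfl⟩
  rw [← hE]
  rw [← card_filter_add_card_filter_not (s := E) (fun b => psiAP y Q b = 0)]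
  push_cast
  apply add_le_add
  · apply Nat.cast_le.2
    apply card_le_card
    intro b hb
    rw [mem_filter, hE, mem_filter] at hb
    obtain ⟨⟨h1, h2, _⟩, h3⟩ := hb
    rw [mem_filter]
    refine ⟨h1, h2, ?_⟩
    rw [h3, zero_sub, abs_neg, one_mul, abs_of_pos (by positivity)]
  · -- proper prime powers
    have h1 : ∀ b ∈ E.filter (fun b => ¬ psiAP y Q b = 0), (1 / 2 : ℝ) ≤
        ∑ n ∈ (Icc 1 ⌊y⌋₊).filter (fun n => n % Q = b), (if n.Prime then 0 else ArithmeticFunction.vonMangoldt n) := by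
      intro b hb
      rw [mem_filter, hE, mem_filter] at hb
      obtain ⟨⟨hb1, hb2, hb3⟩, hb4⟩ := hb
      have h2 : psiAP y Q b = ∑ n ∈ (Icc 1 ⌊y⌋₊).filter (fun n => n % Q = b), (if n.Prime then 0 else ArithmeticFunction.vonMangoldt n) := by
        unfold psiAP
        apply sum_congr rfl
        intro n hn
        rw [mem_filter, mem_Icc] at hn
        rw [if_neg]
        intro hp
        refine hb3 n hp ?_ hn.2
        exact (Nat.cast_le.2 hn.1.2).trans (Nat.floor_le (by linarith))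
      rw [← h2]
      unfold psiAP at hb4 ⊢
      obtain ⟨n, hn, hn0⟩ := exists_ne_zero_of_sum_ne_zero hb4
      have h3 : ArithmeticFunction.vonMangoldt n ≤ ∑ n ∈ (Icc 1 ⌊y⌋₊).filter (fun n => n % Q = b), ArithmeticFunction.vonMangoldt n :=
        single_le_sum (f := fun n => ArithmeticFunction.vonMangoldt n) (fun i _ => ArithmeticFunction.vonMangoldt_nonneg) hn
      refine le_trans ?_ h3
      have h4 : IsPrimePow n := by
        by_contra hcon
        exact hn0 (ArithmeticFunction.vonMangoldt_eq_zero_iff.2 hcon)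
      rw [ArithmeticFunction.vonMangoldt_apply, if_pos h4]
      have h5 : (2 : ℝ) ≤ n.minFac := by
        exact_mod_cast (Nat.minFac_prime (by
          intro h
          rw [h] at h4
          exact not_isPrimePow_one h4)).two_le
      have h6 := Real.log_two_gt_d9
      have h7 := Real.log_le_log (by norm_num) h5
      linarith
    have h2 : ∑ b ∈ E.filter (fun b => ¬ psiAP y Q b = 0), (1 / 2 : ℝ) ≤ Chebyshev.psi y - Chebyshev.theta y := by
      refine (sum_le_sum h1).trans ?_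
      have h3 : ∑ b ∈ E.filter (fun b => ¬ psiAP y Q b = 0),
          ∑ n ∈ (Icc 1 ⌊y⌋₊).filter (fun n => n % Q = b), (if n.Prime then 0 else ArithmeticFunction.vonMangoldt n) ≤
          ∑ b ∈ range Q, ∑ n ∈ (Icc 1 ⌊y⌋₊).filter (fun n => n % Q = b), (if n.Prime then 0 else ArithmeticFunction.vonMangoldt n) := by
        apply sum_le_sum_of_subset_of_nonneg
        · intro b hb
          rw [mem_filter, hE, mem_filter] at hb
          exact hb.1.1
        · intro b _ _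
          apply sum_nonneg
          intro n _
          split_ifs
          · exact le_rfl
          · exact ArithmeticFunction.vonMangoldt_nonneg
      refine h3.trans (le_of_eq ?_)
      have h4 : ∑ b ∈ range Q, ∑ n ∈ (Icc 1 ⌊y⌋₊).filter (fun n => n % Q = b), (if n.Prime then 0 else ArithmeticFunction.vonMangoldt n) =
          ∑ n ∈ Icc 1 ⌊y⌋₊, (if n.Prime then 0 else ArithmeticFunction.vonMangoldt n) := by
        apply sum_fiberwise_of_maps_to
        intro n _
        rw [mem_range]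
        exact Nat.mod_lt _ hQ
      rw [h4]
      unfold Chebyshev.psi Chebyshev.theta
      have h5 : Ioc 0 ⌊y⌋₊ = Icc 1 ⌊y⌋₊ := rfl
      rw [h5, sum_filter, ← sum_sub_distrib]
      apply sum_congr rfl
      intro n _
      split_ifs with hp
      · rw [ArithmeticFunction.vonMangoldt_apply_prime hp, sub_self]
      · rw [sub_zero]
    have h3 := Chebyshev.abs_psi_sub_theta_le_sqrt_mul_log hy
    have h4 := le_abs_self (Chebyshev.psi y - Chebyshev.theta y)
    rw [sum_const, nsmul_eq_mul] at h2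
    nlinarith

/-- the totient is not small -/
lemma tot_low : ∃ N₀ : ℕ, ∀ N : ℕ, N₀ ≤ N → ∀ Q : ℕ, 1 ≤ Q → Q ≤ N → (Q : ℝ) / (Nat.totient Q : ℝ) ≤ 6 * Real.log N ^ (1 / 4 : ℝ) := by
  obtain ⟨n0, h0⟩ := Vz_root 3
  obtain ⟨n1, h1⟩ := ev_L' 4
  refine ⟨n0 + n1 + 1, fun N hN Q hQ hQN => ?_⟩
  have c0 := h0 N (by omega)
  have c1 := h1 N (by omega)
  obtain ⟨L, hL⟩ : ∃ L, L = Real.log (N : ℝ) := ⟨_, rfl⟩
  rw [← hL] at c0 c1 ⊢
  have hL1 : 1 ≤ L := by linarith
  obtain ⟨z, hz⟩ : ∃ z, z = ⌈L ^ 2⌉₊ := ⟨_, rfl⟩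
  have hz1 : L ^ 2 ≤ (z : ℝ) := by rw [hz]; exact Nat.le_ceil _
  have hz2 : (z : ℝ) ≤ L ^ 3 := by
    have h6 : (z : ℝ) < L ^ 2 + 1 := by rw [hz]; exact Nat.ceil_lt_add_one (by positivity)
    nlinarith [show L ^ 3 = L ^ 2 * L by ring, show (1:ℝ) ≤ L ^ 2 by nlinarith]
  have hz0 : 1 ≤ z := by
    have : (1 : ℝ) ≤ z := by nlinarith
    exact_mod_cast this
  have hω : (Q.primeFactors.card : ℝ) ≤ z := by
    have h2 := card_pf Q hQ
    have h3 : Real.log (Q : ℝ) ≤ L := by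
      rw [hL]; exact Real.log_le_log (by exact_mod_cast hQ) (by exact_mod_cast hQN)
    nlinarith
  have h2 := (totient_fac z Q hz0 hQ hω).2
  have h3 := (CQ_le z Q).trans (c0 z hz0 hz2)
  have h4 : (Q.primeFactors.card : ℝ) / z ≤ 1 := by
    rw [div_le_one (by exact_mod_cast hz0)]
    exact hω
  have h5 : 0 ≤ CQ z Q := zero_le_one.trans (CQ_one z Q)
  calc (Q : ℝ) / (Nat.totient Q : ℝ) ≤ CQ z Q * (1 + 2 * (Q.primeFactors.card / z)) := h2
    _ ≤ CQ z Q * 3 := mul_le_mul_of_nonneg_left (by linarith) h5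
    _ ≤ (2 * L ^ (1 / 4 : ℝ)) * 3 := mul_le_mul_of_nonneg_right h3 (by norm_num)
    _ = 6 * L ^ (1 / 4 : ℝ) := by ring

end Pool.Agent.TH935.HM
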