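import Pool.Agent.TH935.HM3

set_option autoImplicit false

/-! The least primes in almost all classes of almost all moduli in thin families. -/

namespace Pool.Agent.TH935.HM
open Finset
open Pool.Agent.H373R2.T7
open Pool.Agent.TH894.PV (G psiAP)

open Classical in
/-- the property of the modulus `Q` -/
def Lp (ε : ℝ) (κ N Q : ℕ) : Prop :=
  ∀ lam : ℝ, 1 ≤ lam → lam ≤ Real.log N ^ κ →
    (((range Q).filter (fun b => Nat.Coprime b Q ∧ ∀ p : ℕ, p.Prime → (p : ℝ) ≤ lam * (Nat.totient Q * Real.log Q) → ¬ p % Q = b)).card : ℝ) ≤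
      (1 + ε) * Nat.totient Q / lam ∧
    ∀ η : ℝ, 0 < η → (((range Q).filter (fun b => Nat.Coprime b Q ∧ η * (lam * Real.log Q) ≤
      |psiAP (lam * (Nat.totient Q * Real.log Q)) Q b - lam * Real.log Q|)).card : ℝ) ≤ (1 + ε) * Nat.totient Q / (lam * η ^ 2)

set_option maxHeartbeats 1000000 in
/-- from the variance to the least primes -/
theorem lp_of_var (κ : ℕ) (ε : ℝ) (hε : 0 < ε) (hε1 : ε ≤ 1) : ∃ N₀ : ℕ, ∀ N : ℕ, N₀ ≤ N → ∀ Q : ℕ, Q ≤ N → (N : ℝ) ≤ Q * Real.log N ^ κ →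
    (∀ y : ℝ, (Q : ℝ) ≤ y → y ≤ Q * Real.log N ^ (κ + 1) → |G y Q - y * Real.log Q| ≤ ε / 4 * (y * Real.log Q)) → Lp ε κ N Q := by
  obtain ⟨n0, h0⟩ := tot_low
  obtain ⟨n1, h1⟩ := ev_L' 20736
  obtain ⟨n2, h2⟩ := ev_log' (3 * κ + 4) (128 / ε)
  obtain ⟨n3, h3⟩ := ev_log' κ 1
  refine ⟨n0 + n1 + n2 + n3 + 3, fun N hN Q hQN hNQ hvar lam hlam1 hlam2 => ?_⟩
  have c0 := h0 N (by omega)
  have c1 := h1 N (by omega)
  have c2 := h2 N (by omega)
  have c3 := h3 N (by omega)
  obtain ⟨L, hL⟩ : ∃ L, L = Real.log (N : ℝ) := ⟨_, rfl⟩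
  rw [← hL] at c0 c1 c2 c3 hNQ hvar hlam2
  have hL1 : 1 ≤ L := by linarith
  have hL0 : 0 < L := by linarith
  have hN0 : (0 : ℝ) < N := by exact_mod_cast (by omega : 0 < N)
  have hN1 : (1 : ℝ) ≤ N := by exact_mod_cast (by omega : 1 ≤ N)
  have hsq : √(N : ℝ) * √(N : ℝ) = N := Real.mul_self_sqrt hN0.le
  have hs1 : 1 ≤ √(N : ℝ) := by rw [Real.one_le_sqrt]; exact hN1
  rw [one_mul] at c3
  -- the size of `Q`
  have hQs : √(N : ℝ) ≤ Q := by
    have h5 : √(N : ℝ) * √(N : ℝ) ≤ Q * √(N : ℝ) := by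
      rw [hsq]
      exact hNQ.trans (mul_le_mul_of_nonneg_left c3 (Nat.cast_nonneg _))
    exact le_of_mul_le_mul_right h5 (by linarith)
  have hQ0 : (0 : ℝ) < Q := by linarith
  have hQ1 : 1 ≤ Q := by
    have : 0 < Q := by exact_mod_cast hQ0
    omega
  have hQ1r : (1 : ℝ) ≤ Q := by exact_mod_cast hQ1
  have hlQ2 : L / 2 ≤ Real.log Q := by
    calc L / 2 = Real.log (√(N : ℝ)) := by rw [Real.log_sqrt hN0.le, hL]
      _ ≤ Real.log Q := Real.log_le_log (by linarith) hQs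
  have hlQ3 : Real.log Q ≤ L := by rw [hL]; exact Real.log_le_log hQ0 (by exact_mod_cast hQN)
  have hlQ0 : 0 < Real.log Q := by linarith
  have hφ : (0 : ℝ) < (Nat.totient Q : ℝ) := by exact_mod_cast Nat.totient_pos.2 hQ1
  have hφQ : (Nat.totient Q : ℝ) ≤ Q := by exact_mod_cast Nat.totient_le Q
  -- the totient
  obtain ⟨r, hr⟩ : ∃ r, r = L ^ (1 / 4 : ℝ) := ⟨_, rfl⟩
  have hr0 : 0 ≤ r := by rw [hr]; positivity
  have hr4 : r ^ 4 = L := by
    rw [hr, ← Real.rpow_natCast, ← Real.rpow_mul hL0.le]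
    norm_num
  have hr12 : 12 ≤ r := by
    by_contra hcon
    push Not at hcon
    have h5 : r ^ 4 < 12 ^ 4 := pow_lt_pow_left₀ hcon hr0 (by norm_num)
    rw [hr4] at h5
    norm_num at h5
    linarith
  have hr5 : 6 * r ≤ L / 2 := by
    rw [← hr4]
    have h5 : (12 : ℝ) ^ 3 ≤ r ^ 3 := pow_le_pow_left₀ (by norm_num) hr12 3
    have h6 : r ^ 4 = r ^ 3 * r := by ring
    rw [h6]
    nlinarith
  have htot := c0 Q hQ1 hQN
  rw [← hr] at htot
  have htot2 : (Q : ℝ) ≤ Nat.totient Q * Real.log Q := by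
    rw [div_le_iff₀ hφ] at htot
    calc (Q : ℝ) ≤ 6 * r * Nat.totient Q := htot
      _ ≤ Real.log Q * Nat.totient Q := mul_le_mul_of_nonneg_right (by linarith) hφ.le
      _ = _ := mul_comm _ _
  have htot3 : (Q : ℝ) ≤ Nat.totient Q * L := htot2.trans (mul_le_mul_of_nonneg_left hlQ3 hφ.le)
  obtain ⟨y, hy⟩ : ∃ y, y = lam * (Nat.totient Q * Real.log Q) := ⟨_, rfl⟩
  have hlam0 : 0 < lam := by linarith
  have hyQ : (Q : ℝ) ≤ y := by
    rw [hy]
    calc (Q : ℝ) ≤ 1 * (Nat.totient Q * Real.log Q) := by rw [one_mul]; exact htot2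
      _ ≤ _ := mul_le_mul_of_nonneg_right hlam1 (by positivity)
  have hyQ2 : y ≤ Q * L ^ (κ + 1) := by
    rw [hy, pow_succ]
    calc lam * (Nat.totient Q * Real.log Q) ≤ L ^ κ * (Q * L) := by
          apply mul_le_mul hlam2 _ (by positivity) (by positivity)
          exact mul_le_mul hφQ hlQ3 hlQ0.le hQ0.le
      _ = Q * (L ^ κ * L) := by ring
  have hy0 : 0 < y := by linarith
  have hy1 : 1 ≤ y := by linarith
  have hG : G y Q ≤ (1 + ε / 4) * (y * Real.log Q) := by
    have h5 := hvar y hyQ hyQ2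
    have h6 := le_abs_self (G y Q - y * Real.log Q)
    linarith
  have hyφ : y / (Nat.totient Q : ℝ) = lam * Real.log Q := by rw [hy]; field_simp
  have hch : ∀ η : ℝ, 0 < η → (((range Q).filter (fun b => Nat.Coprime b Q ∧ η * (lam * Real.log Q) ≤
      |psiAP y Q b - lam * Real.log Q|)).card : ℝ) ≤ (1 + ε / 4) * Nat.totient Q / (lam * η ^ 2) := by
    intro η hη
    have h5 := cheb Q y η _ hQ1 hy0 hη hG
    rw [hyφ] at h5
    refine h5.trans (le_of_eq ?_)
    have h6 : y = lam * Real.log Q * Nat.totient Q := by rw [← hyφ]; field_simp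
    rw [h6]
    field_simp
  rw [← hy]
  refine ⟨?_, fun η hη => (hch η hη).trans ?_⟩
  · have h5 := empty_classes Q y hQ1 hy1
    rw [hyφ] at h5
    have h6 := hch 1 one_pos
    rw [one_pow, mul_one] at h6
    refine h5.trans ((add_le_add h6 le_rfl).trans ?_)
    -- the prime powers
    have h7 : 4 * (√y * Real.log y) ≤ 3 * ε / 4 * Nat.totient Q / lam := by
      rw [le_div_iff₀ hlam0]
      have a1 : √y ≤ √(N : ℝ) * L ^ (κ + 1) := by
        rw [Real.sqrt_le_left (by positivity)]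
        calc y ≤ Q * L ^ (κ + 1) := hyQ2
          _ ≤ N * L ^ (κ + 1) := mul_le_mul_of_nonneg_right (by exact_mod_cast hQN) (by positivity)
          _ ≤ N * (L ^ (κ + 1) * L ^ (κ + 1)) := by
            apply mul_le_mul_of_nonneg_left _ hN0.le
            have : 1 ≤ L ^ (κ + 1) := one_le_pow₀ hL1
            nlinarith
          _ = (√(N : ℝ) * L ^ (κ + 1)) ^ 2 := by rw [mul_pow, Real.sq_sqrt hN0.le]; ring
      have a2 : Real.log y ≤ 2 * L := by
        have b1 : y ≤ N * N := by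
          calc y ≤ Q * L ^ (κ + 1) := hyQ2
            _ ≤ N * N := by
              apply mul_le_mul (by exact_mod_cast hQN) _ (by positivity) hN0.le
              have b2 : L ^ (κ + 1) ≤ 128 / ε * L ^ (3 * κ + 4) := by
                have b3 : L ^ (κ + 1) ≤ L ^ (3 * κ + 4) := pow_le_pow_right₀ hL1 (by omega)
                have b4 : 1 ≤ 128 / ε := by rw [le_div_iff₀ hε]; linarith
                have b5 : 0 ≤ L ^ (3 * κ + 4) := by positivity
                nlinarith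
              have b6 : √(N : ℝ) ≤ N := by nlinarith
              linarith
        calc Real.log y ≤ Real.log ((N : ℝ) * N) := Real.log_le_log hy0 b1
          _ = 2 * L := by rw [Real.log_mul hN0.ne' hN0.ne', hL]; ring
      have a3 : (0 : ℝ) ≤ Real.log y := Real.log_nonneg hy1
      have a4 : (N : ℝ) ≤ Nat.totient Q * L ^ (κ + 1) := by
        calc (N : ℝ) ≤ Q * L ^ κ := hNQ
          _ ≤ (Nat.totient Q * L) * L ^ κ := mul_le_mul_of_nonneg_right htot3 (by positivity)
          _ = _ := by rw [pow_succ]; ring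
      calc 4 * (√y * Real.log y) * lam ≤ 4 * ((√(N : ℝ) * L ^ (κ + 1)) * (2 * L)) * L ^ κ := by
            apply mul_le_mul _ hlam2 hlam0.le (by positivity)
            apply mul_le_mul_of_nonneg_left _ (by norm_num)
            exact mul_le_mul a1 a2 a3 (by positivity)
        _ = 8 * √(N : ℝ) * L ^ (2 * κ + 2) := by ring
        _ ≤ 3 * ε / 4 * Nat.totient Q := by
          have a5 : (0 : ℝ) < L ^ (κ + 1) := by positivity
          rw [← mul_le_mul_iff_left₀ a5]
          have a6 : 128 * L ^ (3 * κ + 4) ≤ ε * √(N : ℝ) := by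
            have := mul_le_mul_of_nonneg_left c2 hε.le
            calc 128 * L ^ (3 * κ + 4) = ε * (128 / ε * L ^ (3 * κ + 4)) := by field_simp
              _ ≤ _ := this
          have a7 : L ^ (3 * κ + 3) ≤ L ^ (3 * κ + 4) := pow_le_pow_right₀ hL1 (by omega)
          calc 8 * √(N : ℝ) * L ^ (2 * κ + 2) * L ^ (κ + 1) = 8 * √(N : ℝ) * L ^ (3 * κ + 3) := by ring
            _ ≤ √(N : ℝ) * (ε / 16 * √(N : ℝ)) := by nlinarith
            _ = ε / 16 * (√(N : ℝ) * √(N : ℝ)) := by ring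
            _ = ε / 16 * N := by rw [hsq]
            _ ≤ ε / 16 * (Nat.totient Q * L ^ (κ + 1)) := mul_le_mul_of_nonneg_left a4 (by positivity)
            _ ≤ 3 * ε / 4 * Nat.totient Q * L ^ (κ + 1) := by
              have a8 : 0 ≤ (Nat.totient Q : ℝ) * L ^ (κ + 1) := by positivity
              nlinarith
    have h8 : (1 + ε) * (Nat.totient Q : ℝ) / lam = (1 + ε / 4) * Nat.totient Q / lam + 3 * ε / 4 * Nat.totient Q / lam := by ring
    rw [h8]
    linarith
  · apply div_le_div_of_nonneg_right _ (by positivity)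
    apply mul_le_mul_of_nonneg_right _ hφ.le
    linarith

end Pool.Agent.TH935.HM
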