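import Pool.Agent.TH935.HM4
import Pool.Agent.TH935.HM2

set_option autoImplicit false

/-! The least primes in almost all classes: families and polynomials. -/

namespace Pool.Agent.TH935.HM
open Finset
open Pool.Agent.H373R2.T7
open Pool.Agent.TH894.PV (G psiAP)

lemma lp_mono (ε : ℝ) (κ N Q : ℕ) (hQ : 1 ≤ Q) (hQN : Q ≤ N) (h : Lp ε κ N Q) : Lp ε κ Q Q := by
  intro lam h1 h2
  refine h lam h1 (h2.trans ?_)
  apply pow_le_pow_left₀ (Real.log_natCast_nonneg Q)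
  exact Real.log_le_log (by exact_mod_cast hQ) (by exact_mod_cast hQN)

theorem lp_fam (h C κ U : ℕ) (ε : ℝ) (hε : 0 < ε) (hε1 : ε ≤ 1) : ∃ N₀ : ℕ, ∀ N : ℕ, N₀ ≤ N →
    ∀ (x : ℕ) (s : ℕ → ℤ), (∀ m ∈ Icc 1 x, |s m| ≤ N) →
    (energy h x s : ℝ) * N ≤ Real.log N ^ C * (x : ℝ) ^ (2 * h) →
    ∀ S : Finset ℕ, S ⊆ Icc 1 x → (∀ m ∈ S, 0 < s m ∧ (N : ℝ) ≤ (s m).toNat * Real.log N ^ κ ∧
      ¬ Lp ε κ (s m).toNat (s m).toNat) → (S.card : ℝ) ≤ x / Real.log N ^ U := by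
  obtain ⟨n0, h0⟩ := lp_of_var κ ε hε hε1
  obtain ⟨n1, h1⟩ := mod_fam h C (κ + 1) U (ε / 4) (by linarith) (by linarith)
  obtain ⟨n2, h2⟩ := ev_L' 1
  refine ⟨n0 + n1 + n2, fun N hN x s hs hE S hSx hS => ?_⟩
  have c2 := h2 N (by omega)
  refine h1 N (by omega) x s hs hE S hSx ?_
  intro m hm
  obtain ⟨hm0, hm1, hm2⟩ := hS m hm
  have hQN : (s m).toNat ≤ N := by
    have h6 := hs m (hSx hm)
    rw [abs_of_pos hm0, ← Int.toNat_of_nonneg hm0.le] at h6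
    exact_mod_cast h6
  have hQ1 : 1 ≤ (s m).toNat := by omega
  refine ⟨hm0, hm1.trans (mul_le_mul_of_nonneg_left (pow_le_pow_right₀ c2 (by omega)) (Nat.cast_nonneg _)), ?_⟩
  by_contra hcon
  push Not at hcon
  apply hm2
  apply lp_mono ε κ N _ hQ1 hQN
  exact h0 N (by omega) _ hQN hm1 hcon

set_option maxHeartbeats 1000000 in
theorem lp_poly (f : Polynomial ℤ) (hd : 1 ≤ f.natDegree) (hl : 0 < f.leadingCoeff) (κ U : ℕ) (ε : ℝ) (hε : 0 < ε) (hε1 : ε ≤ 1) :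
    ∃ x₀ : ℕ, ∀ x : ℕ, x₀ ≤ x → ∀ S : Finset ℕ, S ⊆ Icc 1 x → (∀ m ∈ S, ¬ (0 < f.eval (m : ℤ) ∧
      Lp ε κ (f.eval (m : ℤ)).toNat (f.eval (m : ℤ)).toNat)) → (S.card : ℝ) ≤ x / Real.log x ^ U := by
  classical
  obtain ⟨K, m₁, hK, hup, hlow⟩ := poly_bd f hd hl
  obtain ⟨n0, h0⟩ := lp_of_var κ ε hε hε1
  obtain ⟨n1, h1⟩ := mod_poly f hd hl (κ + 2) (U + 1) (ε / 4) (by linarith) (by linarith)
  obtain ⟨d, hd'⟩ : ∃ d, d = f.natDegree := ⟨_, rfl⟩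
  rw [← hd'] at hd hup hlow
  obtain ⟨n2, h2⟩ := ev_L' (Real.log K + (d + 1) ^ (κ + 1) + 2)
  obtain ⟨n3, h3⟩ := ev_log' U 2
  obtain ⟨m₂, hm₂⟩ : ∃ m₂, m₂ = m₁ + 2 * n0 + 7 := ⟨_, rfl⟩
  refine ⟨n1 + n2 + n3 + m₂ ^ 2 + 3, fun x hx S hSx hS => ?_⟩
  have c1 := h1 x (by omega)
  have c2 := h2 x (by omega)
  have c3 := h3 x (by omega)
  obtain ⟨l, hl'⟩ : ∃ l, l = Real.log (x : ℝ) := ⟨_, rfl⟩
  rw [← hl'] at c1 c2 c3 ⊢
  have hx0 : (0 : ℝ) < x := by exact_mod_cast (by omega : 0 < x)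
  have hlK : 0 ≤ Real.log (K : ℝ) := Real.log_natCast_nonneg K
  have hdκ : (0 : ℝ) ≤ ((d : ℝ) + 1) ^ (κ + 1) := by positivity
  have hl2 : 2 ≤ l := by linarith
  have hl0 : 0 < l := by linarith
  have hK0 : (0 : ℝ) < K := by exact_mod_cast (by omega : 0 < K)
  have b1 : (((S.filter (fun m => m₂ ≤ m)).card : ℕ) : ℝ) ≤ x / l ^ (U + 1) := by
    refine c1 _ ((filter_subset _ _).trans hSx) ?_
    intro m hm hcon
    rw [mem_filter] at hm
    obtain ⟨hmS, hmm⟩ := hm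
    apply hS m hmS
    obtain ⟨hpos, hvar⟩ := hcon
    refine ⟨hpos, ?_⟩
    have hmx := mem_Icc.1 (hSx hmS)
    obtain ⟨Q, hQ⟩ : ∃ Q, Q = (f.eval (m : ℤ)).toNat := ⟨_, rfl⟩
    have hQz : (Q : ℤ) = f.eval (m : ℤ) := by rw [hQ]; exact Int.toNat_of_nonneg hpos.le
    rw [← hQ] at hvar ⊢
    have hQ1 : 1 ≤ Q := by omega
    have hmQ : m ≤ 2 * Q := by
      have h5 := hlow m (by omega)
      rw [← hQz] at h5
      have h6 : m ^ d ≤ 2 * Q := by exact_mod_cast h5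
      calc m = m ^ 1 := (pow_one m).symm
        _ ≤ m ^ d := Nat.pow_le_pow_right (by omega) hd
        _ ≤ 2 * Q := h6
    have hQn : n0 ≤ Q := by omega
    have hQ3 : 3 ≤ Q := by omega
    have hQK : Q ≤ K * x ^ d := by
      have h5 := hup x m hmx.1 hmx.2
      rw [← hQz, abs_of_nonneg (Int.natCast_nonneg _)] at h5
      exact_mod_cast h5
    have hQ0r : (0 : ℝ) < Q := by exact_mod_cast hQ1
    have hlQ : Real.log Q ≤ (d + 1) * l := by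
      calc Real.log Q ≤ Real.log ((K : ℝ) * (x : ℝ) ^ d) := Real.log_le_log hQ0r (by exact_mod_cast hQK)
        _ = Real.log K + d * l := by rw [Real.log_mul hK0.ne' (by positivity), Real.log_pow, hl']
        _ ≤ (d + 1) * l := by linarith
    have hlQ0 : 0 ≤ Real.log (Q : ℝ) := Real.log_natCast_nonneg Q
    have hlQp : Real.log Q ^ (κ + 1) ≤ l ^ (κ + 2) := by
      calc Real.log Q ^ (κ + 1) ≤ ((d + 1) * l) ^ (κ + 1) := pow_le_pow_left₀ hlQ0 hlQ _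
        _ = (d + 1) ^ (κ + 1) * l ^ (κ + 1) := mul_pow _ _ _
        _ ≤ l * l ^ (κ + 1) := mul_le_mul_of_nonneg_right (by linarith) (by positivity)
        _ = l ^ (κ + 2) := by rw [pow_succ l (κ + 1)]; ring
    have hlog : 1 ≤ Real.log (Q : ℝ) := by
      rw [Real.le_log_iff_exp_le hQ0r]
      have h5 : (3 : ℝ) ≤ Q := by exact_mod_cast (by omega : 3 ≤ Q)
      linarith [Real.exp_one_lt_d9]
    refine h0 Q hQn Q le_rfl ?_ ?_
    · calc (Q : ℝ) = Q * 1 := by ring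
        _ ≤ Q * Real.log Q ^ κ := mul_le_mul_of_nonneg_left (one_le_pow₀ hlog) hQ0r.le
    · intro y hy1 hy2
      exact hvar y hy1 (hy2.trans (mul_le_mul_of_nonneg_left hlQp hQ0r.le))
  have b2 : (((S.filter (fun m => ¬ m₂ ≤ m)).card : ℕ) : ℝ) ≤ m₂ := by
    have hsub : S.filter (fun m => ¬ m₂ ≤ m) ⊆ Icc 1 m₂ := by
      intro m hm
      rw [mem_filter] at hm
      have := mem_Icc.1 (hSx hm.1)
      rw [mem_Icc]
      omega
    have h5 := card_le_card hsub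
    rw [Nat.card_Icc, Nat.add_sub_cancel] at h5
    exact_mod_cast h5
  have b3 : (S.card : ℝ) = ((S.filter (fun m => m₂ ≤ m)).card : ℕ) + (((S.filter (fun m => ¬ m₂ ≤ m)).card : ℕ) : ℝ) := by
    exact_mod_cast (card_filter_add_card_filter_not (s := S) _).symm
  rw [b3]
  have e1 : (x : ℝ) / l ^ (U + 1) ≤ x / l ^ U / 2 := by
    rw [pow_succ, ← div_div]
    exact div_le_div_of_nonneg_left (by positivity) (by norm_num) hl2
  have e3 : (m₂ : ℝ) ≤ x / l ^ U / 2 := by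
    have hsx : (m₂ : ℝ) ≤ √x := by
      apply Real.le_sqrt_of_sq_le
      have h3 : m₂ ^ 2 ≤ x := by omega
      exact_mod_cast h3
    have h4 : (0 : ℝ) < l ^ U := by positivity
    rw [div_div, le_div_iff₀ (by positivity)]
    calc (m₂ : ℝ) * (l ^ U * 2) ≤ √x * √x := mul_le_mul hsx (by linarith) (by positivity) (by positivity)
      _ = x := Real.mul_self_sqrt hx0.le
  linarith

end Pool.Agent.TH935.HM
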