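import Pool.Agent.TH935.LF9
import Pool.Agent.W93.GB2

set_option autoImplicit false

/-! Values of linear forms at primes in windows: from weights to numbers of prime pairs. -/

namespace Pool.Agent.TH935.LF

open Finset Pool.Agent.H373R2.T7
open Pool.Agent.H560R3.GB (sing)
open Pool.Agent.W93.GB (vM_le one_le_sing pp pp_nonneg lam_nat sum_pp)

open Classical in
/-- the number of primes `q` in `(y₁, y₂]` for which `(c + b q) / a` is a prime -/
noncomputable def cn (a : ℕ) (b c : ℤ) (y₁ y₂ : ℕ) : ℕ :=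
  ((Ioc y₁ y₂).filter (fun q : ℕ => q.Prime ∧ ∃ p : ℕ, p.Prime ∧ (a : ℤ) * p = c + b * q)).card

lemma wt_le (a : ℕ) (b c : ℤ) (X y₁ y₂ : ℕ) (ha : 1 ≤ a) (hb : b ≠ 0) (hX : 1 ≤ X) (hy : y₂ ≤ X)
    (hpos : ∀ q ∈ Ioc y₁ y₂, 0 < c + b * (q : ℤ) ∧ c + b * (q : ℤ) ≤ X) :
    Wt a b c y₁ y₂ ≤ cn a b c y₁ y₂ * Real.log X ^ 2 + 4 * √(X : ℝ) * Real.log X ^ 2 := by
  classical
  have hlog : 0 ≤ Real.log X := Real.log_natCast_nonneg X
  have ha0 : (0 : ℤ) < a := by exact_mod_cast ha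
  obtain ⟨k, hk⟩ : ∃ k : ℕ → ℕ, k = fun q : ℕ => ((c + b * (q : ℤ)) / a).toNat := ⟨_, rfl⟩
  -- facts about `k`
  have hkq : ∀ q ∈ Ioc y₁ y₂, (a : ℤ) ∣ c + b * (q : ℤ) → (a : ℤ) * k q = c + b * q ∧ 1 ≤ k q ∧ k q ≤ X ∧ ((k q : ℕ) : ℤ) = (c + b * q) / a := by
    intro q hq hd
    obtain ⟨h1, h2⟩ := hpos q hq
    have h3 := Int.mul_ediv_cancel' hd
    have h4 : 1 ≤ (c + b * (q : ℤ)) / a := by
      by_contra h
      have : (c + b * (q : ℤ)) / a ≤ 0 := by omega
      nlinarith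
    have h5 : (((c + b * (q : ℤ)) / a).toNat : ℤ) = (c + b * q) / a := Int.toNat_of_nonneg (by omega)
    rw [hk]
    simp only
    rw [h5]
    refine ⟨h3, ?_, ?_, rfl⟩
    · have : (1 : ℤ) ≤ (((c + b * (q : ℤ)) / a).toNat : ℤ) := by rw [h5]; exact h4
      exact_mod_cast this
    · have : (((c + b * (q : ℤ)) / a).toNat : ℤ) ≤ X := by rw [h5]; nlinarith
      exact_mod_cast this
  have key : ∀ n : ℕ, n ≤ X → lamP (n : ℤ) ≤ Real.log X := by
    intro n hn
    have := lamP_le (n : ℤ)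
    rw [lam_nat] at this
    exact this.trans (vM_le n X hX hn)
  have hLa : ∀ q ∈ Ioc y₁ y₂, La a (c + b * q) = if (a : ℤ) ∣ c + b * (q : ℤ) then ArithmeticFunction.vonMangoldt (k q) else 0 := by
    intro q hq
    unfold La
    split_ifs with hd
    · obtain ⟨_, _, _, h4⟩ := hkq q hq hd
      rw [← h4, lam_nat]
    · rfl
  have h1 : ∀ q ∈ Ioc y₁ y₂, ArithmeticFunction.vonMangoldt q * La a (c + b * q) ≤
      (if q.Prime ∧ ∃ p : ℕ, p.Prime ∧ (a : ℤ) * p = c + b * q then Real.log X ^ 2 else 0) +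
        Real.log X * (pp q + (if (a : ℤ) ∣ c + b * (q : ℤ) then pp (k q) else 0)) := by
    intro q hq
    have hq' := mem_Ioc.1 hq
    rw [hLa q hq]
    have a4 := pp_nonneg q
    have hite : 0 ≤ (if q.Prime ∧ ∃ p : ℕ, p.Prime ∧ (a : ℤ) * p = c + b * q then Real.log X ^ 2 else (0 : ℝ)) := by
      split_ifs
      · positivity
      · exact le_rfl
    by_cases hd : (a : ℤ) ∣ c + b * (q : ℤ)
    · simp only [if_pos hd]
      obtain ⟨g1, g2, g3, _⟩ := hkq q hq hd
      have a1 := vM_le (k q) X hX g3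
      have a3 := key q (by omega)
      have a3' := key (k q) g3
      have a5 := pp_nonneg (k q)
      have a7 := lamP_nonneg (q : ℤ)
      have a7' := lamP_nonneg ((k q : ℕ) : ℤ)
      have e : ArithmeticFunction.vonMangoldt q * ArithmeticFunction.vonMangoldt (k q) =
          lamP (q : ℤ) * lamP ((k q : ℕ) : ℤ) + (pp q * ArithmeticFunction.vonMangoldt (k q) + lamP (q : ℤ) * pp (k q)) := by
        unfold pp
        ring
      rw [e]
      have a8 : pp q * ArithmeticFunction.vonMangoldt (k q) ≤ pp q * Real.log X := mul_le_mul_of_nonneg_left a1 a4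
      have a9 : lamP (q : ℤ) * pp (k q) ≤ Real.log X * pp (k q) := mul_le_mul_of_nonneg_right a3 a5
      have a10 : lamP (q : ℤ) * lamP ((k q : ℕ) : ℤ) ≤
          (if q.Prime ∧ ∃ p : ℕ, p.Prime ∧ (a : ℤ) * p = c + b * q then Real.log X ^ 2 else 0) := by
        by_cases hc : q.Prime ∧ (k q).Prime
        · rw [if_pos ⟨hc.1, k q, hc.2, g1⟩, sq]
          exact mul_le_mul a3 a3' a7' hlog
        · refine le_trans (le_of_eq ?_) hite
          unfold lamP
          rw [Int.toNat_natCast, Int.toNat_natCast]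
          rw [not_and_or] at hc
          rcases hc with hc | hc
          · rw [if_neg hc, zero_mul]
          · rw [if_neg hc, mul_zero]
      linarith
    · simp only [if_neg hd, mul_zero, add_zero]
      have := mul_nonneg hlog a4
      linarith
  unfold Wt
  refine (sum_le_sum h1).trans ?_
  rw [sum_add_distrib, ← mul_sum, sum_add_distrib]
  have h2 : ∑ q ∈ Ioc y₁ y₂, (if q.Prime ∧ ∃ p : ℕ, p.Prime ∧ (a : ℤ) * p = c + b * q then Real.log X ^ 2 else (0 : ℝ)) =
      cn a b c y₁ y₂ * Real.log X ^ 2 := by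
    rw [← sum_filter, sum_const, nsmul_eq_mul]
    rfl
  have h3 : ∑ q ∈ Ioc y₁ y₂, pp q ≤ 2 * √(X : ℝ) * Real.log X := by
    refine le_trans ?_ (sum_pp X hX)
    apply sum_le_sum_of_subset_of_nonneg
    · intro q hq
      rw [mem_Ioc] at hq
      rw [mem_Icc]
      omega
    · intro q _ _
      exact pp_nonneg q
  have h4 : ∑ q ∈ Ioc y₁ y₂, (if (a : ℤ) ∣ c + b * (q : ℤ) then pp (k q) else 0) ≤ 2 * √(X : ℝ) * Real.log X := by
    refine le_trans ?_ (sum_pp X hX)
    rw [← sum_filter]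
    rw [← sum_image (f := fun n => pp n) (s := (Ioc y₁ y₂).filter (fun q : ℕ => (a : ℤ) ∣ c + b * (q : ℤ))) (g := k)]
    · apply sum_le_sum_of_subset_of_nonneg
      · intro n hn
        rw [mem_image] at hn
        obtain ⟨q, hq, rfl⟩ := hn
        rw [mem_filter] at hq
        obtain ⟨_, g2, g3, _⟩ := hkq q hq.1 hq.2
        exact mem_Icc.2 ⟨g2, g3⟩
      · intro n _ _
        exact pp_nonneg n
    · intro q hq q' hq' h
      rw [mem_coe, mem_filter] at hq hq'
      obtain ⟨g1, _, _, _⟩ := hkq q hq.1 hq.2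
      obtain ⟨g1', _, _, _⟩ := hkq q' hq'.1 hq'.2
      rw [h, g1'] at g1
      have h5 : b * (q' : ℤ) = b * q := by linarith
      have h6 := mul_left_cancel₀ hb h5
      exact_mod_cast h6.symm
  rw [h2]
  have h5 : Real.log X * (∑ q ∈ Ioc y₁ y₂, pp q + ∑ q ∈ Ioc y₁ y₂, (if (a : ℤ) ∣ c + b * (q : ℤ) then pp (k q) else 0)) ≤
      Real.log X * (2 * √(X : ℝ) * Real.log X + 2 * √(X : ℝ) * Real.log X) :=
    mul_le_mul_of_nonneg_left (add_le_add h3 h4) hlog
  have e : Real.log X * (2 * √(X : ℝ) * Real.log X + 2 * √(X : ℝ) * Real.log X) = 4 * √(X : ℝ) * Real.log X ^ 2 := by ring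
  linarith

lemma cn_le (a : ℕ) (b c : ℤ) (y₁ y₂ y : ℕ) (ha : 1 ≤ a) (hb : b ≠ 0) (hy : 2 ≤ y) :
    (cn a b c y₁ y₂ : ℝ) ≤ 2 * y + Wt a b c y₁ y₂ / Real.log y ^ 2 := by
  classical
  have hly : 0 < Real.log y := Real.log_pos (by exact_mod_cast (by omega : 1 < y))
  have ha0 : (0 : ℤ) < a := by exact_mod_cast ha
  obtain ⟨P, hP⟩ : ∃ P : Finset ℕ, P = (Ioc y₁ y₂).filter (fun q : ℕ => q.Prime ∧ ∃ p : ℕ, p.Prime ∧ (a : ℤ) * p = c + b * q) := ⟨_, rfl⟩
  have hcn : cn a b c y₁ y₂ = P.card := by rw [hP]; rfl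
  obtain ⟨P1, hP1⟩ : ∃ P1 : Finset ℕ, P1 = P.filter (fun q => q ≤ y) := ⟨_, rfl⟩
  obtain ⟨P2, hP2⟩ : ∃ P2 : Finset ℕ, P2 = P.filter (fun q : ℕ => ∃ p : ℕ, p ≤ y ∧ (a : ℤ) * p = c + b * q) := ⟨_, rfl⟩
  obtain ⟨P3, hP3⟩ : ∃ P3 : Finset ℕ, P3 = (Ioc y₁ y₂).filter (fun q : ℕ => q.Prime ∧ y < q ∧ ∃ p : ℕ, p.Prime ∧ y < p ∧ (a : ℤ) * p = c + b * q) := ⟨_, rfl⟩
  have hsub : P ⊆ P1 ∪ P2 ∪ P3 := by
    intro q hq
    have hq0 := hq
    rw [hP, mem_filter] at hq
    obtain ⟨hq1, hqp, p, hp, hpe⟩ := hq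
    rw [mem_union, mem_union, hP1, hP2, hP3, mem_filter, mem_filter, mem_filter]
    by_cases h1 : q ≤ y
    · exact Or.inl (Or.inl ⟨hq0, h1⟩)
    · by_cases h2 : p ≤ y
      · exact Or.inl (Or.inr ⟨hq0, p, h2, hpe⟩)
      · exact Or.inr ⟨hq1, hqp, by omega, p, hp, by omega, hpe⟩
  have hc1 : P1.card ≤ y := by
    have : P1 ⊆ Icc 1 y := by
      intro q hq
      rw [hP1, mem_filter, hP, mem_filter] at hq
      exact mem_Icc.2 ⟨hq.1.2.1.one_lt.le, hq.2⟩
    refine (card_le_card this).trans ?_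
    rw [Nat.card_Icc]; omega
  have hc2 : P2.card ≤ y := by
    have h1 : P2.card ≤ (Icc 1 y).card := by
      apply card_le_card_of_injOn (fun q : ℕ => ((c + b * (q : ℤ)) / a).toNat)
      · intro q hq
        rw [hP2, mem_coe, mem_filter, hP, mem_filter] at hq
        obtain ⟨⟨_, _, p', hp', hpe'⟩, p, hp, hpe⟩ := hq
        have hpp : p = p' := by
          have : (a : ℤ) * p = a * p' := by rw [hpe, hpe']
          exact_mod_cast mul_left_cancel₀ ha0.ne' this
        simp only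
        rw [← hpe, Int.mul_ediv_cancel_left _ ha0.ne', Int.toNat_natCast]
        rw [mem_coe, mem_Icc]
        have := hp'.one_lt
        omega
      · intro q hq q' hq' h
        rw [hP2, mem_coe, mem_filter] at hq hq'
        obtain ⟨_, p, _, hpe⟩ := hq
        obtain ⟨_, p', _, hpe'⟩ := hq'
        simp only at h
        rw [← hpe, ← hpe', Int.mul_ediv_cancel_left _ ha0.ne', Int.mul_ediv_cancel_left _ ha0.ne', Int.toNat_natCast, Int.toNat_natCast] at h
        rw [h, hpe'] at hpe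
        have h5 : b * (q' : ℤ) = b * q := by linarith
        have h6 := mul_left_cancel₀ hb h5
        exact_mod_cast h6.symm
    rw [Nat.card_Icc] at h1
    omega
  have hc3 : (P3.card : ℝ) * Real.log y ^ 2 ≤ Wt a b c y₁ y₂ := by
    rw [hP3, card_filter]
    push_cast
    rw [sum_mul]
    unfold Wt
    apply sum_le_sum
    intro q _
    split_ifs with h
    · obtain ⟨hq, hyq, p, hp, hyp, hpe⟩ := h
      have e1 : La a (c + b * q) = ArithmeticFunction.vonMangoldt p := by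
        unfold La
        rw [if_pos ⟨p, hpe.symm⟩, ← hpe, Int.mul_ediv_cancel_left _ ha0.ne', lam_nat]
      rw [e1, ArithmeticFunction.vonMangoldt_apply_prime hq, ArithmeticFunction.vonMangoldt_apply_prime hp, one_mul, sq]
      have a1 : Real.log y ≤ Real.log q := Real.log_le_log (by exact_mod_cast (by omega : 0 < y)) (by exact_mod_cast hyq.le)
      have a2 : Real.log y ≤ Real.log p := Real.log_le_log (by exact_mod_cast (by omega : 0 < y)) (by exact_mod_cast hyp.le)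
      exact mul_le_mul a1 a2 hly.le (hly.le.trans a1)
    · rw [zero_mul]
      exact mul_nonneg ArithmeticFunction.vonMangoldt_nonneg (La_nonneg _ _)
  have h4 : P.card ≤ y + y + P3.card := by
    refine (card_le_card hsub).trans ((card_union_le _ _).trans ?_)
    have := card_union_le P1 P2
    omega
  have h5 : (P3.card : ℝ) ≤ Wt a b c y₁ y₂ / Real.log y ^ 2 := by
    rw [le_div_iff₀ (by positivity)]
    exact hc3
  have h6 : (P.card : ℝ) ≤ ((y + y + P3.card : ℕ) : ℝ) := by exact_mod_cast h4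
  push_cast at h6
  rw [hcn]
  linarith

end Pool.Agent.TH935.LF
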