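import Pool.Agent.TH935.LF2

set_option autoImplicit false

/-! The von Mangoldt function minus its model on the values of a linear form: the first moment. -/

namespace Pool.Agent.TH935.LF

open Finset Pool.Agent.H373R2.T7
open Pool.Agent.H807R2.Dav

lemma energy_shift (h x : ℕ) (s : ℕ → ℤ) (c : ℤ) : energy h x (fun m => s m - c) = energy h x s := by
  unfold energy
  congr 1
  apply filter_congr
  intro q _
  change (∑ i, (s (q.1 i) - c) = ∑ i, (s (q.2 i) - c)) ↔ _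
  rw [sum_sub_distrib, sum_sub_distrib, sub_left_inj]

set_option maxHeartbeats 4000000 in
theorem lin_mom (h C U D : ℕ) : ∃ B0 : ℕ, ∀ E : ℕ, ∃ N0 : ℕ, ∀ N : ℕ, N0 ≤ N → ∀ (x : ℕ) (s : ℕ → ℤ),
    (∀ m ∈ Icc 1 x, |s m| ≤ N) →
    (energy h x s : ℝ) * N ≤ Real.log N ^ C * (x : ℝ) ^ (2 * h) →
    ∀ z : ℕ, Real.log N ^ B0 ≤ z → (z : ℝ) ≤ Real.log N ^ E →
    ∀ a : ℕ, 1 ≤ a → (a : ℝ) ≤ Real.log N ^ D → ∀ b : ℤ, b ≠ 0 → ∀ y : ℕ, b.natAbs * y ≤ N →
    ∀ K : ℝ, 0 < K → ∀ G : ℕ → ℝ, (∀ q ∈ Icc 1 y, |G q| ≤ K) →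
    ∑ m ∈ Icc 1 x, |∑ q ∈ Icc 1 y, G q * Dz z a (s m + b * q)| ≤ K * (N * x / Real.log N ^ U) := by
  classical
  obtain ⟨U', n0, hlf⟩ := lam_f h 3 C U
  obtain ⟨B0, hB0⟩ := fa_sup D U'
  refine ⟨B0 + 1, fun E => ?_⟩
  obtain ⟨n1, h1⟩ := hB0 E
  obtain ⟨n2, h2⟩ := ev_L' (2 ^ B0 + 10)
  obtain ⟨n3, h3⟩ := Vz_inv_small E
  refine ⟨n0 + n1 + n2 + n3 + 3, fun N hN x s hs hE z hz1 hz2 a ha1 ha2 b hb y hy K hK G hG => ?_⟩
  have c0 := hlf N (by omega)
  have c2 := h2 N (by omega)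
  have c3 := h3 N (by omega)
  have hN3 : 3 ≤ N := by omega
  have hNr : (3 : ℝ) ≤ N := by exact_mod_cast hN3
  have hN0 : (0 : ℝ) < N := by linarith
  obtain ⟨L, hL⟩ : ∃ L, L = Real.log (N : ℝ) := ⟨_, rfl⟩
  rw [← hL] at c0 c2 c3 hz1 hz2 ha2 hE ⊢
  have hp : (0 : ℝ) < 2 ^ B0 := by positivity
  have hL10 : 10 ≤ L := by linarith
  have hL1 : 1 ≤ L := by linarith
  have hL0 : 0 < L := by linarith
  obtain ⟨H, hH⟩ : ∃ H : ℕ, H = 2 * ((3 + 1) * N) := ⟨_, rfl⟩
  rw [← hH] at c0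
  have hHr : (H : ℝ) = 8 * N := by rw [hH]; push_cast; ring
  have hlogH1 : L ≤ Real.log H := by
    rw [hL]
    apply Real.log_le_log hN0
    rw [hHr]; linarith
  have hlogH2 : Real.log H ≤ 2 * L := by
    rw [hHr, Real.log_mul (by norm_num) hN0.ne', ← hL]
    have : Real.log 8 ≤ 7 := by
      have := Real.log_le_sub_one_of_pos (show (0 : ℝ) < 8 by norm_num)
      linarith
    linarith
  have hlogH0 : 0 < Real.log H := by linarith
  have hzn : 1 ≤ z := by
    have : (1 : ℝ) ≤ z := (one_le_pow₀ hL1).trans hz1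
    exact_mod_cast this
  have hV := c3 z hzn hz2
  have hzH1 : Real.log H ^ B0 ≤ z := by
    calc Real.log H ^ B0 ≤ (2 * L) ^ B0 := pow_le_pow_left₀ hlogH0.le hlogH2 _
      _ = 2 ^ B0 * L ^ B0 := mul_pow _ _ _
      _ ≤ L * L ^ B0 := mul_le_mul_of_nonneg_right (by linarith) (by positivity)
      _ = L ^ (B0 + 1) := by ring
      _ ≤ z := hz1
  have hsup := h1 H (by omega) z hzH1 (hz2.trans (pow_le_pow_left₀ hL0.le hlogH1 _)) a ha1
    (ha2.trans (pow_le_pow_left₀ hL0.le hlogH1 _))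
  have hsup' : ∀ α : ℝ, ‖∑ n ∈ Icc 1 H, fa z a n * ee ((n : ℝ) * α)‖ ≤ (H : ℝ) / L ^ U' := by
    intro α
    refine (hsup α).trans ?_
    apply div_le_div_of_nonneg_left (by positivity) (by positivity)
    exact pow_le_pow_left₀ hL0.le hlogH1 _
  have hfa : ∀ n ∈ Icc 1 H, ‖fa z a n‖ ≤ 2 * L := by
    intro n hn
    rw [mem_Icc] at hn
    unfold fa
    split_ifs
    · rw [Complex.norm_real, Real.norm_eq_abs]
      have h4 : n / a ≤ n := Nat.div_le_self n a
      have h5 : ArithmeticFunction.vonMangoldt (n / a) ≤ 2 * L := by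
        rcases Nat.eq_zero_or_pos (n / a) with h6 | h6
        · rw [h6, ArithmeticFunction.map_zero]; linarith
        · refine ArithmeticFunction.vonMangoldt_le_log.trans (le_trans ?_ hlogH2)
          exact Real.log_le_log (by exact_mod_cast h6) (by exact_mod_cast h4.trans hn.2)
      have h6 : (0 : ℝ) ≤ ArithmeticFunction.vonMangoldt (n / a) := ArithmeticFunction.vonMangoldt_nonneg
      have h7 := lamz_nonneg z (n / a)
      have h8 : lamz z (n / a) ≤ L := by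
        unfold lamz
        split_ifs
        · exact hV
        · exact hL0.le
      rw [abs_le]
      constructor <;> linarith
    · rw [norm_zero]; linarith
  -- the two signs
  obtain ⟨B, hB⟩ : ∃ B, B = b.natAbs := ⟨_, rfl⟩
  have hBpos : 1 ≤ B := by rw [hB]; exact Int.natAbs_pos.2 hb
  rw [← hB] at hy
  obtain ⟨A, hA⟩ : ∃ A, A = B * y := ⟨_, rfl⟩
  rw [← hA] at hy
  have hAN : (A : ℤ) ≤ N := by exact_mod_cast hy
  have main : ∀ (c : ℤ) (φ : ℕ → ℕ), |c| ≤ N + 1 → (∀ q ∈ Icc 1 y, φ q ∈ Icc 1 A) →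
      (∀ q ∈ Icc 1 y, ∀ q' ∈ Icc 1 y, φ q = φ q' → q = q') →
      (∀ q ∈ Icc 1 y, ((φ q : ℕ) : ℤ) - c = b * q) →
      ∑ m ∈ Icc 1 x, |∑ q ∈ Icc 1 y, G q * Dz z a (s m + b * q)| ≤ K * (N * x / L ^ U) := by
    intro c φ hc hφ hinj hval
    obtain ⟨G', hG', hF⟩ := reidx y A φ hφ hinj G K hK hG
    have hcN := abs_le.1 hc
    have h5 := c0 x (fun m => s m - c) (by
      intro m hm
      have h6 := abs_le.1 (hs m hm)
      have h7 : (3 : ℤ) ≤ N := by exact_mod_cast hN3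
      rw [abs_le]
      push_cast
      constructor <;> linarith [h6.1, h6.2, hcN.1, hcN.2]) (by rw [energy_shift]; exact hE)
      (fa z a) hsup' hfa A (hy.trans (by omega)) G' hG'
    have h6 : ∀ m ∈ Icc 1 x, ‖∑ a' ∈ Icc 1 A, G' a' * fz (fa z a) H ((a' : ℤ) + (s m - c))‖ =
        |∑ q ∈ Icc 1 y, G q * Dz z a (s m + b * q)| / K := by
      intro m hm
      have h7 : ∑ a' ∈ Icc 1 A, G' a' * fz (fa z a) H ((a' : ℤ) + (s m - c)) =
          ∑ a' ∈ Icc 1 A, G' a' * ((Dz z a ((a' : ℤ) + (s m - c)) : ℝ) : ℂ) := by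
        apply sum_congr rfl
        intro a' ha'
        rw [mem_Icc] at ha'
        rw [fz_fa z a H ha1]
        have h8 := abs_le.1 (hs m hm)
        have h9 : (a' : ℤ) ≤ A := by exact_mod_cast ha'.2
        have h10 : (H : ℤ) = 8 * N := by rw [hH]; push_cast; ring
        have h11 : (3 : ℤ) ≤ N := by exact_mod_cast hN3
        rw [h10]
        linarith [h8.2, hcN.1]
      rw [h7, ← hF (fun a' => Dz z a ((a' : ℤ) + (s m - c))), Complex.norm_real, Real.norm_eq_abs, abs_div, abs_of_pos hK]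
      congr 2
      apply sum_congr rfl
      intro q hq
      rw [show ((φ q : ℕ) : ℤ) + (s m - c) = s m + (((φ q : ℕ) : ℤ) - c) by ring, hval q hq]
    rw [sum_congr rfl h6, ← sum_div, div_le_iff₀ hK] at h5
    linarith
  rcases Int.natAbs_eq b with hbs | hbs
  · -- positive
    rw [← hB] at hbs
    refine main 0 (fun q => B * q) (by rw [abs_zero]; positivity) ?_ ?_ ?_
    · intro q hq
      rw [mem_Icc] at hq
      rw [mem_Icc, hA]
      exact ⟨Nat.mul_pos hBpos hq.1, Nat.mul_le_mul_left _ hq.2⟩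
    · intro q _ q' _ h4
      exact Nat.eq_of_mul_eq_mul_left hBpos h4
    · intro q _
      rw [hbs]
      push_cast
      ring
  · rw [← hB] at hbs
    refine main ((A : ℤ) + 1) (fun q => A + 1 - B * q) ?_ ?_ ?_ ?_
    · rw [abs_le]
      have : (0 : ℤ) ≤ A := Int.natCast_nonneg _
      constructor <;> linarith
    · intro q hq
      rw [mem_Icc] at hq
      have h4 : B * q ≤ A := by rw [hA]; exact Nat.mul_le_mul_left _ hq.2
      have h5 : 1 ≤ B * q := Nat.mul_pos hBpos hq.1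
      rw [mem_Icc]
      omega
    · intro q hq q' hq' h4
      rw [mem_Icc] at hq hq'
      have h5 : B * q ≤ A := by rw [hA]; exact Nat.mul_le_mul_left _ hq.2
      have h6 : B * q' ≤ A := by rw [hA]; exact Nat.mul_le_mul_left _ hq'.2
      exact Nat.eq_of_mul_eq_mul_left hBpos (by omega)
    · intro q hq
      rw [mem_Icc] at hq
      have h5 : B * q ≤ A := by rw [hA]; exact Nat.mul_le_mul_left _ hq.2
      have h6 : ((A + 1 - B * q : ℕ) : ℤ) = (A : ℤ) + 1 - B * q := by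
        rw [Nat.cast_sub (by omega)]; push_cast; ring
      rw [h6, hbs]
      ring

end Pool.Agent.TH935.LF
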