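import Pool.Agent.TH935.LF3
import Pool.Agent.W93.PP7

set_option autoImplicit false

/-! The main term for the values `(c + b q) / a` of a linear form: arithmetic. -/

namespace Pool.Agent.TH935.LF

open Finset Pool.Agent.H373R2.T7

lemma exists_shift (z : ℕ) (a b c : ℤ) : ∃ t : ℕ, ∀ p : ℕ, p.Prime → p ≤ z →
    (((p : ℤ) ∣ a * b → (p : ℤ) ∣ (t : ℤ)) ∧ (¬ (p : ℤ) ∣ a * b → (p : ℤ) ∣ b * t - c)) := by
  classical
  obtain ⟨P1, hP1⟩ : ∃ P1 : ℤ, P1 = ∏ p ∈ (pz z).filter (fun p : ℕ => ¬ (p : ℤ) ∣ a * b), (p : ℤ) := ⟨_, rfl⟩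
  obtain ⟨P, hP⟩ : ∃ P : ℤ, P = ∏ p ∈ pz z, (p : ℤ) := ⟨_, rfl⟩
  have hPpos : 0 < P := by
    rw [hP]
    apply prod_pos
    intro p hp
    exact_mod_cast (mem_pz.1 hp).2.pos
  have hco : IsCoprime (a * b) P1 := by
    rw [hP1]
    apply IsCoprime.prod_right
    intro p hp
    rw [mem_filter, mem_pz] at hp
    exact ((Nat.prime_iff_prime_int.1 hp.1.2).coprime_iff_not_dvd.2 hp.2).symm
  obtain ⟨u, v, huv⟩ := hco
  obtain ⟨t0, ht0⟩ : ∃ t0 : ℤ, t0 = a ^ 2 * b * c * u ^ 2 := ⟨_, rfl⟩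
  refine ⟨(t0 % P).toNat, fun p hp hpz => ?_⟩
  have h1 : (((t0 % P).toNat : ℕ) : ℤ) = t0 % P := Int.toNat_of_nonneg (Int.emod_nonneg _ hPpos.ne')
  have hpP : (p : ℤ) ∣ P := by
    rw [hP]
    exact dvd_prod_of_mem (fun p : ℕ => (p : ℤ)) (mem_pz.2 ⟨hpz, hp⟩)
  have h2 : (p : ℤ) ∣ t0 - t0 % P := by
    have : t0 - t0 % P = P * (t0 / P) := by
      have := Int.emod_add_mul_ediv t0 P
      linarith
    rw [this]
    exact dvd_mul_of_dvd_left hpP _
  rw [h1]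
  constructor
  · intro hab
    have h3 : (p : ℤ) ∣ t0 := by
      rw [ht0, show a ^ 2 * b * c * u ^ 2 = a * b * (a * c * u ^ 2) by ring]
      exact dvd_mul_of_dvd_left hab _
    have h4 := dvd_sub h3 h2
    rwa [sub_sub_cancel] at h4
  · intro hab
    have hpP1 : (p : ℤ) ∣ P1 := by
      rw [hP1]
      exact dvd_prod_of_mem (fun p : ℕ => (p : ℤ)) (mem_filter.2 ⟨mem_pz.2 ⟨hpz, hp⟩, hab⟩)
    have h3 : (p : ℤ) ∣ b * t0 - c := by
      have e : b * t0 - c = P1 * (c * (-v) * (u * (a * b) + 1)) := by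
        have e1 : u * (a * b) - 1 = -v * P1 := by linarith
        rw [ht0]
        calc b * (a ^ 2 * b * c * u ^ 2) - c = c * (u * (a * b) - 1) * (u * (a * b) + 1) := by ring
          _ = c * (-v * P1) * (u * (a * b) + 1) := by rw [e1]
          _ = _ := by ring
      rw [e]
      exact dvd_mul_of_dvd_left hpP1 _
    have e2 : b * (t0 % P) - c = (b * t0 - c) - b * (t0 - t0 % P) := by ring
    rw [e2]
    exact dvd_sub h3 (dvd_mul_of_dvd_right h2 _)

open Classical in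
/-- the good classes modulo `a ^ 2` -/
noncomputable def RR (a : ℕ) (b c : ℤ) : Finset ℕ :=
  (range (a ^ 2)).filter (fun r : ℕ => (a : ℤ) ∣ c + b * r ∧ IsCoprime ((c + b * r) / a) (a : ℤ))

lemma mem_RR {a : ℕ} {b c : ℤ} {r : ℕ} : r ∈ RR a b c ↔
    r < a ^ 2 ∧ (a : ℤ) ∣ c + b * r ∧ IsCoprime ((c + b * r) / a) (a : ℤ) := by
  unfold RR
  rw [mem_filter, mem_range]

lemma card_RR (a : ℕ) (b c : ℤ) (ha : 1 ≤ a) (hab : IsCoprime (a : ℤ) b) : (RR a b c).card = Nat.totient a := by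
  classical
  rw [Nat.totient_eq_card_coprime]
  have ha0 : (0 : ℤ) < a := by exact_mod_cast ha
  have ha2 : (0 : ℤ) < (a : ℤ) ^ 2 := by positivity
  apply card_bij (fun (r : ℕ) _ => (((c + b * (r : ℤ)) / a) % a).toNat)
  · intro r hr
    rw [mem_RR] at hr
    rw [mem_filter, mem_range]
    have h1 : 0 ≤ ((c + b * r) / a) % (a : ℤ) := Int.emod_nonneg _ ha0.ne'
    have h2 : ((c + b * r) / a) % (a : ℤ) < a := Int.emod_lt_of_pos _ ha0
    have h3 : (((((c + b * r) / a) % a).toNat : ℕ) : ℤ) = ((c + b * r) / a) % a := Int.toNat_of_nonneg h1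
    constructor
    · have : (((((c + b * r) / a) % a).toNat : ℕ) : ℤ) < a := by rw [h3]; exact h2
      exact_mod_cast this
    · rw [← Nat.isCoprime_iff_coprime, h3]
      have h4 := hr.2.2
      have h5 : ((c + b * r) / a) % (a : ℤ) = (c + b * r) / a + a * (-(((c + b * r) / a) / a)) := by
        have := Int.emod_add_mul_ediv ((c + b * r) / a) (a : ℤ)
        linarith
      rw [h5]
      exact h4.symm.add_mul_left_right _
  · intro r hr r' hr' h
    rw [mem_RR] at hr hr'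
    have g1 : 0 ≤ ((c + b * r) / a) % (a : ℤ) := Int.emod_nonneg _ ha0.ne'
    have g2 : 0 ≤ ((c + b * r') / a) % (a : ℤ) := Int.emod_nonneg _ ha0.ne'
    have h1 : ((c + b * r) / a) % (a : ℤ) = ((c + b * r') / a) % (a : ℤ) := by
      rw [← Int.toNat_of_nonneg g1, ← Int.toNat_of_nonneg g2, h]
    have h2 : (a : ℤ) ∣ (c + b * r) / a - (c + b * r') / a := Int.ModEq.dvd (Int.ModEq.symm h1)
    obtain ⟨k, hk⟩ := h2
    have e1 := Int.ediv_mul_cancel hr.2.1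
    have e2 := Int.ediv_mul_cancel hr'.2.1
    have h3 : b * ((r : ℤ) - r') = (a : ℤ) ^ 2 * k := by
      calc b * ((r : ℤ) - r') = (c + b * r) - (c + b * r') := by ring
        _ = (c + b * r) / a * a - (c + b * r') / a * a := by rw [e1, e2]
        _ = ((c + b * r) / a - (c + b * r') / a) * a := by ring
        _ = (a * k) * a := by rw [hk]
        _ = _ := by ring
    have h4 : (a : ℤ) ^ 2 ∣ (r : ℤ) - r' := by
      have hc : IsCoprime ((a : ℤ) ^ 2) b := hab.pow_left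
      exact hc.dvd_of_dvd_mul_left ⟨k, h3⟩
    have h5 : |(r : ℤ) - r'| < (a : ℤ) ^ 2 := by
      have b1 : (r : ℤ) < (a : ℤ) ^ 2 := by exact_mod_cast hr.1
      have b2 : (r' : ℤ) < (a : ℤ) ^ 2 := by exact_mod_cast hr'.1
      have b3 : (0 : ℤ) ≤ r := Int.natCast_nonneg _
      have b4 : (0 : ℤ) ≤ r' := Int.natCast_nonneg _
      rw [abs_lt]
      constructor <;> linarith
    have h6 := Int.eq_zero_of_abs_lt_dvd h4 h5
    omega
  · intro k hk
    rw [mem_filter, mem_range] at hk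
    obtain ⟨u, v, huv⟩ : IsCoprime b ((a : ℤ) ^ 2) := (hab.pow_left (m := 2)).symm
    obtain ⟨r0, hr0⟩ : ∃ r0 : ℤ, r0 = (u * (a * k - c)) % (a : ℤ) ^ 2 := ⟨_, rfl⟩
    have g1 : 0 ≤ r0 := by rw [hr0]; exact Int.emod_nonneg _ ha2.ne'
    have g2 : r0 < (a : ℤ) ^ 2 := by rw [hr0]; exact Int.emod_lt_of_pos _ ha2
    obtain ⟨r, hr⟩ : ∃ r : ℕ, (r : ℤ) = r0 := ⟨r0.toNat, Int.toNat_of_nonneg g1⟩
    obtain ⟨j, hj⟩ : ∃ j : ℤ, c + b * r = a * (k + a * j) := by
      have e1 : r0 = u * (a * k - c) - (a : ℤ) ^ 2 * ((u * (a * k - c)) / (a : ℤ) ^ 2) := by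
        have := Int.emod_add_mul_ediv (u * (a * k - c)) ((a : ℤ) ^ 2)
        rw [hr0]; linarith
      refine ⟨-v * (a * k - c) - b * ((u * (a * k - c)) / (a : ℤ) ^ 2), ?_⟩
      rw [hr]
      calc c + b * r0 = c + b * (u * (a * k - c) - (a : ℤ) ^ 2 * ((u * (a * k - c)) / (a : ℤ) ^ 2)) := by rw [← e1]
        _ = c + (u * b) * (a * k - c) - b * (a : ℤ) ^ 2 * ((u * (a * k - c)) / (a : ℤ) ^ 2) := by ring
        _ = c + (1 - v * (a : ℤ) ^ 2) * (a * k - c) - b * (a : ℤ) ^ 2 * ((u * (a * k - c)) / (a : ℤ) ^ 2) := by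
            rw [show u * b = 1 - v * (a : ℤ) ^ 2 by linarith]
        _ = _ := by ring
    have hdiv : (c + b * r) / a = k + a * j := by
      rw [hj, Int.mul_ediv_cancel_left _ ha0.ne']
    refine ⟨r, ?_, ?_⟩
    · rw [mem_RR]
      refine ⟨?_, ⟨_, hj⟩, ?_⟩
      · have : (r : ℤ) < ((a ^ 2 : ℕ) : ℤ) := by push_cast; rw [hr]; exact g2
        exact_mod_cast this
      · rw [hdiv]
        have h7 : IsCoprime (k : ℤ) (a : ℤ) := (Nat.isCoprime_iff_coprime.2 hk.2).symm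
        exact h7.add_mul_left_left j
    · rw [hdiv, Int.add_mul_emod_self_left]
      have h8 : (k : ℤ) % (a : ℤ) = k := Int.emod_eq_of_lt (Int.natCast_nonneg _) (by exact_mod_cast hk.1)
      rw [h8, Int.toNat_natCast]

end Pool.Agent.TH935.LF
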