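import Pool.Agent.TH935.LF4

set_option autoImplicit false

/-! The main term for the values `(c + b q) / a` of a linear form: the pointwise identity. -/

namespace Pool.Agent.TH935.LF

open Finset Pool.Agent.H373R2.T7

/-- the model on the values of the linear form -/
noncomputable def Lz (z a : ℕ) (k : ℤ) : ℝ := if (a : ℤ) ∣ k then lamzI z (k / a) else 0

/-- the von Mangoldt function on the values of the linear form -/
noncomputable def La (a : ℕ) (k : ℤ) : ℝ := if (a : ℤ) ∣ k then lamI (k / a) else 0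

lemma Dz_eq (z a : ℕ) (k : ℤ) : Dz z a k = La a k - Lz z a k := by
  unfold Dz La Lz
  split_ifs <;> ring

lemma lamzI_le' (z : ℕ) (k : ℤ) : lamzI z k ≤ (Vz z)⁻¹ := by
  unfold lamzI lamz
  have := (inv_pos.2 (Vz_pos z)).le
  split_ifs
  · exact le_rfl
  · exact this
  · exact this

lemma Lz_nonneg (z a : ℕ) (k : ℤ) : 0 ≤ Lz z a k := by
  unfold Lz
  split_ifs
  · exact lamzI_nonneg _ _
  · exact le_rfl

lemma Lz_le (z a : ℕ) (k : ℤ) : Lz z a k ≤ (Vz z)⁻¹ := by
  unfold Lz
  split_ifs
  · exact lamzI_le' _ _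
  · exact (inv_pos.2 (Vz_pos z)).le

lemma La_nonneg (a : ℕ) (k : ℤ) : 0 ≤ La a k := by
  unfold La
  split_ifs
  · exact lamI_nonneg _
  · exact le_rfl

/-- at most one class contributes -/
lemma class_le (z a t : ℕ) (b c : ℤ) (q : ℕ) :
    0 ≤ ∑ r ∈ RR a b c, (if q ≡ r [MOD a ^ 2] then (1 : ℝ) else 0) * lamzI z ((q : ℤ) + (t : ℤ)) ∧
    ∑ r ∈ RR a b c, (if q ≡ r [MOD a ^ 2] then (1 : ℝ) else 0) * lamzI z ((q : ℤ) + (t : ℤ)) ≤ (Vz z)⁻¹ := by
  constructor
  · apply sum_nonneg
    intro r _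
    apply mul_nonneg _ (lamzI_nonneg _ _)
    split_ifs <;> norm_num
  · rw [← sum_mul]
    have h1 : ∑ r ∈ RR a b c, (if q ≡ r [MOD a ^ 2] then (1 : ℝ) else 0) ≤ 1 := by
      by_cases h : ∃ r ∈ RR a b c, q ≡ r [MOD a ^ 2]
      · obtain ⟨r, hr, hqr⟩ := h
        rw [sum_eq_single_of_mem r hr]
        · rw [if_pos hqr]
        · intro r' hr' hne
          rw [if_neg]
          intro h2
          apply hne
          have h3 : r' ≡ r [MOD a ^ 2] := h2.symm.trans hqr
          have h4 := (mem_RR.1 hr').1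
          have h5 := (mem_RR.1 hr).1
          exact Nat.ModEq.eq_of_lt_of_lt h3 h4 h5
      · rw [sum_eq_zero]
        · norm_num
        · intro r hr
          rw [if_neg]
          intro h2
          exact h ⟨r, hr, h2⟩
    calc (∑ r ∈ RR a b c, (if q ≡ r [MOD a ^ 2] then (1 : ℝ) else 0)) * lamzI z ((q : ℤ) + (t : ℤ))
        ≤ 1 * lamzI z ((q : ℤ) + (t : ℤ)) := mul_le_mul_of_nonneg_right h1 (lamzI_nonneg _ _)
      _ ≤ (Vz z)⁻¹ := by rw [one_mul]; exact lamzI_le' _ _

/-- the pointwise identity -/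
lemma pointwise (z a t : ℕ) (b c : ℤ) (ha : 1 ≤ a) (haz : a ≤ z) (hac : IsCoprime (a : ℤ) c) (hbc : IsCoprime b c)
    (ht : ∀ p : ℕ, p.Prime → p ≤ z → (((p : ℤ) ∣ a * b → (p : ℤ) ∣ (t : ℤ)) ∧ (¬ (p : ℤ) ∣ a * b → (p : ℤ) ∣ b * t - c)))
    (q : ℕ) (hq : 1 ≤ q) (hqb : IsCoprime (q : ℤ) b) (hpos : 0 < c + b * q) :
    Lz z a (c + b * q) =
      ∑ r ∈ RR a b c, (if q ≡ r [MOD a ^ 2] then (1 : ℝ) else 0) * lamzI z ((q : ℤ) + (t : ℤ)) := by
  have ha0 : (0 : ℤ) < a := by exact_mod_cast ha
  have ha2 : (0 : ℤ) < (a : ℤ) ^ 2 := by positivity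
  -- the class of `q`
  obtain ⟨r0, hr0⟩ : ∃ r0, r0 = q % a ^ 2 := ⟨_, rfl⟩
  have hr0lt : r0 < a ^ 2 := by rw [hr0]; exact Nat.mod_lt _ (by positivity)
  have hr0q : q ≡ r0 [MOD a ^ 2] := by rw [hr0]; exact (Nat.mod_modEq q (a ^ 2)).symm
  obtain ⟨j, hj⟩ : ∃ j : ℤ, (q : ℤ) = r0 + (a : ℤ) ^ 2 * j := by
    obtain ⟨m, hm⟩ : ∃ m, m = q / a ^ 2 := ⟨_, rfl⟩
    have h1 := Nat.mod_add_div q (a ^ 2)
    rw [← hr0, ← hm] at h1
    refine ⟨(m : ℤ), ?_⟩
    rw [← h1]
    push_cast
    ring
  have hval : c + b * q = (c + b * r0) + a * (a * b * j) := by rw [hj]; ring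
  by_cases hmem : r0 ∈ RR a b c
  · -- the class is good
    obtain ⟨_, hd, hco⟩ := mem_RR.1 hmem
    have hdq : (a : ℤ) ∣ c + b * q := by
      rw [hval]
      exact dvd_add hd (dvd_mul_right _ _)
    have hquot : (c + b * q) / a = (c + b * r0) / a + a * (b * j) := by
      rw [hval, Int.add_ediv_of_dvd_left hd, Int.mul_ediv_cancel_left _ ha0.ne']
      ring
    obtain ⟨k, hk⟩ : ∃ k, k = (c + b * q) / a := ⟨_, rfl⟩
    have hka : k * a = c + b * q := by rw [hk]; exact Int.ediv_mul_cancel hdq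
    have hkpos : 1 ≤ k := by
      by_contra h
      have : k ≤ 0 := by omega
      nlinarith
    have hkco : IsCoprime k (a : ℤ) := by
      rw [hk, hquot]
      exact hco.add_mul_left_left _
    have hsum : ∑ r ∈ RR a b c, (if q ≡ r [MOD a ^ 2] then (1 : ℝ) else 0) * lamzI z ((q : ℤ) + (t : ℤ)) =
        lamzI z ((q : ℤ) + (t : ℤ)) := by
      rw [sum_eq_single_of_mem r0 hmem]
      · rw [if_pos hr0q, one_mul]
      · intro r' hr' hne
        rw [if_neg, zero_mul]
        intro h2
        apply hne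
        exact Nat.ModEq.eq_of_lt_of_lt (h2.symm.trans hr0q) (mem_RR.1 hr').1 hr0lt
    rw [hsum]
    unfold Lz
    rw [if_pos hdq, ← hk]
    unfold lamzI
    rw [if_pos hkpos, if_pos (show (1 : ℤ) ≤ (q : ℤ) + (t : ℤ) by omega)]
    unfold lamz
    have hiff : ∀ p ∈ pz z, (p ∣ k.toNat ↔ p ∣ ((q : ℤ) + (t : ℤ)).toNat) := by
      intro p hp
      obtain ⟨hpz, hpp⟩ := mem_pz.1 hp
      have hpi : Prime (p : ℤ) := Nat.prime_iff_prime_int.1 hpp
      have e1 : (p ∣ k.toNat) ↔ (p : ℤ) ∣ k := by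
        rw [← Int.natCast_dvd_natCast, Int.toNat_of_nonneg (by omega)]
      have e2 : (p ∣ ((q : ℤ) + (t : ℤ)).toNat) ↔ (p : ℤ) ∣ (q : ℤ) + (t : ℤ) := by
        rw [← Int.natCast_dvd_natCast, Int.toNat_of_nonneg (by omega)]
      rw [e1, e2]
      obtain ⟨t1, t2⟩ := ht p hpp hpz
      by_cases hpa : (p : ℤ) ∣ a
      · constructor
        · intro h
          exfalso
          exact hpi.not_isUnit (hkco.isUnit_of_dvd' h hpa)
        · intro h
          exfalso
          have h1 : (p : ℤ) ∣ t := t1 (dvd_mul_of_dvd_left hpa _)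
          have h2 : (p : ℤ) ∣ q := by
            have := dvd_sub h h1
            rwa [add_sub_cancel_right] at this
          have h3 : (p : ℤ) ∣ c + b * q := dvd_trans hpa hdq
          have h4 : (p : ℤ) ∣ c := by
            have := dvd_sub h3 (dvd_mul_of_dvd_right h2 b)
            rwa [add_sub_cancel_right] at this
          exact hpi.not_isUnit (hac.isUnit_of_dvd' hpa h4)
      · by_cases hpb : (p : ℤ) ∣ b
        · constructor
          · intro h
            exfalso
            have h3 : (p : ℤ) ∣ c + b * q := by rw [← hka]; exact dvd_mul_of_dvd_left h _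
            have h4 : (p : ℤ) ∣ c := by
              have := dvd_sub h3 (dvd_mul_of_dvd_left hpb (q : ℤ))
              rwa [add_sub_cancel_right] at this
            exact hpi.not_isUnit (hbc.isUnit_of_dvd' hpb h4)
          · intro h
            exfalso
            have h1 : (p : ℤ) ∣ t := t1 (dvd_mul_of_dvd_right hpb _)
            have h2 : (p : ℤ) ∣ q := by
              have := dvd_sub h h1
              rwa [add_sub_cancel_right] at this
            exact hpi.not_isUnit (hqb.isUnit_of_dvd' h2 hpb)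
        · have hpab : ¬ (p : ℤ) ∣ a * b := fun h => (hpi.dvd_or_dvd h).elim hpa hpb
          have h5 := t2 hpab
          have e3 : b * ((q : ℤ) + t) = k * a + (b * t - c) := by rw [hka]; ring
          constructor
          · intro h
            have h6 : (p : ℤ) ∣ b * ((q : ℤ) + t) := by
              rw [e3]
              exact dvd_add (dvd_mul_of_dvd_left h _) h5
            exact (hpi.dvd_or_dvd h6).resolve_left hpb
          · intro h
            have h6 : (p : ℤ) ∣ k * a := by
              have h7 := dvd_sub (dvd_mul_of_dvd_right h b) h5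
              rwa [e3, add_sub_cancel_right] at h7
            exact (hpi.dvd_or_dvd h6).resolve_right hpa
    by_cases hall : ∀ p ∈ pz z, ¬ p ∣ k.toNat
    · rw [if_pos hall, if_pos (fun p hp h => hall p hp ((hiff p hp).2 h))]
    · rw [if_neg hall, if_neg (fun h => hall fun p hp h' => h p hp ((hiff p hp).1 h'))]
  · -- the class is bad
    have hsum : ∑ r ∈ RR a b c, (if q ≡ r [MOD a ^ 2] then (1 : ℝ) else 0) * lamzI z ((q : ℤ) + (t : ℤ)) = 0 := by
      apply sum_eq_zero
      intro r hr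
      rw [if_neg, zero_mul]
      intro h2
      apply hmem
      have := Nat.ModEq.eq_of_lt_of_lt (h2.symm.trans hr0q) (mem_RR.1 hr).1 hr0lt
      rw [← this]; exact hr
    rw [hsum]
    unfold Lz
    split_ifs with hdq
    · have hd : (a : ℤ) ∣ c + b * r0 := by
        have h1 : c + b * r0 = (c + b * q) - a * (a * b * j) := by rw [hval]; ring
        rw [h1]
        exact dvd_sub hdq (dvd_mul_right _ _)
      have hquot : (c + b * q) / a = (c + b * r0) / a + a * (b * j) := by
        rw [hval, Int.add_ediv_of_dvd_left hd, Int.mul_ediv_cancel_left _ ha0.ne']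
        ring
      have hnco : ¬ IsCoprime ((c + b * r0) / a) (a : ℤ) := fun h => hmem (mem_RR.2 ⟨hr0lt, hd, h⟩)
      have hnco2 : ¬ IsCoprime ((c + b * q) / a) (a : ℤ) := by
        intro h
        apply hnco
        rw [hquot] at h
        have := h.add_mul_left_left (-(b * j))
        have e : (c + b * r0) / a + a * (b * j) + a * (-(b * j)) = (c + b * r0) / a := by ring
        rwa [e] at this
      obtain ⟨k, hk⟩ : ∃ k, k = (c + b * q) / a := ⟨_, rfl⟩
      rw [← hk] at hnco2 ⊢
      have hka : k * a = c + b * q := by rw [hk]; exact Int.ediv_mul_cancel hdq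
      have hkpos : 1 ≤ k := by
        by_contra h
        have : k ≤ 0 := by omega
        nlinarith
      rw [Int.isCoprime_iff_gcd_eq_one] at hnco2
      obtain ⟨p, hp, hpd⟩ := Nat.exists_prime_and_dvd hnco2
      have hpk : (p : ℤ) ∣ k := dvd_trans (Int.natCast_dvd_natCast.2 hpd) (Int.gcd_dvd_left ..)
      have hpa : (p : ℤ) ∣ a := dvd_trans (Int.natCast_dvd_natCast.2 hpd) (Int.gcd_dvd_right ..)
      have hpan : p ∣ a := by exact_mod_cast hpa
      have hpz : p ≤ z := (Nat.le_of_dvd (by omega) hpan).trans haz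
      unfold lamzI
      rw [if_pos hkpos]
      unfold lamz
      rw [if_neg]
      intro h
      apply h p (mem_pz.2 ⟨hpz, hp⟩)
      rw [← Int.natCast_dvd_natCast, Int.toNat_of_nonneg (by omega)]
      exact hpk
    · rfl

end Pool.Agent.TH935.LF
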