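import Pool.Agent.TH935.LF5

set_option autoImplicit false

/-! The main term for the values `(c + b q) / a` of a linear form: sums. -/

namespace Pool.Agent.TH935.LF

open Finset Pool.Agent.H373R2.T7
open Pool.Agent.H560R3.GB (sing)
open Pool.Agent.W93.GB (sh vM_le one_le_sing)
open Pool.Agent.W93.PP (MT PS mem_PS ap_main MT_sing MT_one Cnt)

lemma totient_sq (a : ℕ) (ha : 1 ≤ a) : Nat.totient (a ^ 2) = a * Nat.totient a := by
  have h := Nat.totient_gcd_mul_totient_mul a a
  rw [Nat.gcd_self] at h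
  have h1 : 0 < Nat.totient a := Nat.totient_pos.2 (by omega)
  rw [pow_two]
  apply Nat.eq_of_mul_eq_mul_left h1
  rw [h]
  ring

/-- prime powers dividing a fixed number are rare -/
lemma bad_sum (b y : ℕ) (hb : 1 ≤ b) (hy : 1 ≤ y) :
    ∑ q ∈ (Icc 1 y).filter (fun q => ¬ Nat.Coprime q b), ArithmeticFunction.vonMangoldt q ≤
      ((b : ℝ) + 1) * ((Nat.log 2 y : ℝ) + 1) * Real.log y := by
  classical
  have hly : 0 ≤ Real.log y := Real.log_natCast_nonneg y
  obtain ⟨F, hF⟩ : ∃ F, F = (Icc 1 y).filter (fun q => ¬ Nat.Coprime q b ∧ IsPrimePow q) := ⟨_, rfl⟩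
  have h1 : ∑ q ∈ (Icc 1 y).filter (fun q => ¬ Nat.Coprime q b), ArithmeticFunction.vonMangoldt q =
      ∑ q ∈ F, ArithmeticFunction.vonMangoldt q := by
    symm
    apply sum_subset
    · intro q hq
      rw [hF, mem_filter] at hq
      exact mem_filter.2 ⟨hq.1, hq.2.1⟩
    · intro q hq hq2
      rw [mem_filter] at hq
      rw [ArithmeticFunction.vonMangoldt_eq_zero_iff]
      intro h
      apply hq2
      rw [hF, mem_filter]
      exact ⟨hq.1, hq.2, h⟩
  have hcard : F.card ≤ (b + 1) * (Nat.log 2 y + 1) := by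
    rw [← card_range (b + 1), ← card_range (Nat.log 2 y + 1), ← card_product]
    apply card_le_card_of_injOn (fun q => (q.minFac, q.factorization q.minFac))
    · intro q hq
      rw [hF, mem_coe, mem_filter, mem_Icc] at hq
      obtain ⟨⟨hq1, hqy⟩, hco, hpp⟩ := hq
      have hq1' : q ≠ 1 := fun h => by rw [h] at hpp; exact not_isPrimePow_one hpp
      have hmp := Nat.minFac_prime hq1'
      have heq := hpp.minFac_pow_factorization_eq
      rw [mem_coe, mem_product, mem_range, mem_range]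
      constructor
      · simp only
        obtain ⟨p, hp, hpq, hpb⟩ := Nat.Prime.not_coprime_iff_dvd.1 hco
        have h2 : p ∣ q.minFac := by
          rw [← heq] at hpq
          exact hp.dvd_of_dvd_pow hpq
        have h3 : p = q.minFac := (Nat.prime_dvd_prime_iff_eq hp hmp).1 h2
        have h4 := Nat.le_of_dvd hb hpb
        omega
      · simp only
        have h2 : 2 ^ (q.factorization q.minFac) ≤ q := by
          calc 2 ^ (q.factorization q.minFac) ≤ q.minFac ^ (q.factorization q.minFac) := Nat.pow_le_pow_left hmp.two_le _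
            _ = q := heq
        have h3 := Nat.le_log_of_pow_le (by norm_num) (h2.trans hqy)
        omega
    · intro q hq q' hq' h
      rw [hF, mem_coe, mem_filter] at hq hq'
      simp only [Prod.mk.injEq] at h
      calc q = q.minFac ^ (q.factorization q.minFac) := hq.2.2.minFac_pow_factorization_eq.symm
        _ = q'.minFac ^ (q'.factorization q'.minFac) := by rw [h.2, h.1]
        _ = q' := hq'.2.2.minFac_pow_factorization_eq
  rw [h1]
  calc ∑ q ∈ F, ArithmeticFunction.vonMangoldt q ≤ ∑ _q ∈ F, Real.log y := by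
        apply sum_le_sum
        intro q hq
        rw [hF, mem_filter, mem_Icc] at hq
        exact vM_le q y hy hq.1.2
    _ = F.card * Real.log y := by rw [sum_const, nsmul_eq_mul]
    _ ≤ _ := by
        apply mul_le_mul_of_nonneg_right _ hly
        exact_mod_cast hcard

lemma MT_nonneg' (z q h : ℕ) : 0 ≤ MT z q h := by
  unfold MT
  apply mul_nonneg
  · exact div_nonneg (inv_pos.2 (Vz_pos z)).le (Nat.cast_nonneg _)
  · apply prod_nonneg
    intro p hp
    have hp2 : (2 : ℝ) ≤ p := by exact_mod_cast (mem_PS.1 hp).1.2.two_le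
    have h7 : 1 / ((p : ℝ) - 1) ≤ 1 := by rw [div_le_one (by linarith)]; linarith
    linarith

lemma MT_le' (z q h : ℕ) (hq : 1 ≤ q) : MT z q h ≤ (Vz z)⁻¹ := by
  unfold MT
  have hV := (inv_pos.2 (Vz_pos z)).le
  have ht : (1 : ℝ) ≤ Nat.totient q := by exact_mod_cast Nat.totient_pos.2 (by omega)
  have h1 : (Vz z)⁻¹ / (Nat.totient q : ℝ) ≤ (Vz z)⁻¹ := div_le_self hV ht
  refine le_trans (mul_le_of_le_one_right (div_nonneg hV (by linarith)) ?_) h1
  apply prod_le_one
  · intro p hp
    have hp2 : (2 : ℝ) ≤ p := by exact_mod_cast (mem_PS.1 hp).1.2.two_le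
    have h7 : 1 / ((p : ℝ) - 1) ≤ 1 := by rw [div_le_one (by linarith)]; linarith
    linarith
  · intro p hp
    have hp2 : (2 : ℝ) ≤ p := by exact_mod_cast (mem_PS.1 hp).1.2.two_le
    have h8 : 0 ≤ 1 / ((p : ℝ) - 1) := div_nonneg zero_le_one (by linarith)
    linarith

/-- the sum over a class -/
noncomputable def TT (z q r t y : ℕ) : ℝ :=
  ∑ n ∈ Icc 1 y, (if n ≡ r [MOD q] then ArithmeticFunction.vonMangoldt n else 0) * lamzI z ((n : ℤ) + (t : ℤ))

/-- uniform version -/
lemma ap_all (E V : ℕ) : ∃ X0 : ℕ, ∀ X : ℕ, X0 ≤ X → ∀ z : ℕ, 1 ≤ z → (z : ℝ) ≤ Real.log X ^ E →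
    ∀ q r t : ℕ, 1 ≤ q → (q : ℝ) ≤ Real.log X ^ E → Nat.Coprime r q → Nat.Coprime (r + t) q → ∀ y : ℕ, y ≤ X →
    |TT z q r t y - MT z q t * y| ≤ X / Real.log X ^ V := by
  obtain ⟨N0, h0⟩ := ap_main (E + 1) (V + 1)
  obtain ⟨n2, h2⟩ := ev_L' (2 * 2 ^ E + 2 ^ (V + 1) + 4)
  obtain ⟨n3, h3⟩ := Vz_inv_small E
  obtain ⟨n4, h4⟩ := ev_log' (V + 3) 1
  refine ⟨N0 ^ 2 + n2 + n3 + n4 + 4, fun X hX z hz1 hz2 q r t hq1 hq2 hr hrt y hy => ?_⟩
  have a2 := h2 X (by omega)
  have hV := h3 X (by omega) z hz1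
  have a4 := h4 X (by omega)
  obtain ⟨L, hL⟩ : ∃ L, L = Real.log (X : ℝ) := ⟨_, rfl⟩
  rw [← hL] at a2 hV a4 hz2 hq2 ⊢
  rw [one_mul] at a4
  have hp1 : (0 : ℝ) < 2 ^ E := by positivity
  have hp2 : (0 : ℝ) < 2 ^ (V + 1) := by positivity
  have hL4 : 4 ≤ L := by linarith
  have hL1 : 1 ≤ L := by linarith
  have hL0 : 0 < L := by linarith
  have hX4 : (4 : ℝ) ≤ X := by exact_mod_cast (by omega : 4 ≤ X)
  have hX0 : (0 : ℝ) < X := by linarith
  have hss : √(X : ℝ) * √(X : ℝ) = X := Real.mul_self_sqrt hX0.le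
  have hs0 : 0 < √(X : ℝ) := Real.sqrt_pos.2 hX0
  have hV' := hV hz2
  have hyX : (y : ℝ) ≤ X := by exact_mod_cast hy
  have hy0 : (0 : ℝ) ≤ y := Nat.cast_nonneg _
  rcases le_or_gt (√(X : ℝ)) y with hysq | hysq
  · have hy0' : (0 : ℝ) < y := lt_of_lt_of_le hs0 hysq
    have hlogy : L / 2 ≤ Real.log y := by
      have h6 : Real.log (√(X : ℝ)) = L / 2 := by rw [Real.log_sqrt hX0.le, ← hL]
      rw [← h6]
      exact Real.log_le_log hs0 hysq
    have hly0 : 0 < Real.log y := by linarith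
    have hyN : N0 ≤ y := by
      have h6 : ((N0 : ℝ)) ≤ √(X : ℝ) := by
        apply Real.le_sqrt_of_sq_le
        exact_mod_cast (by omega : N0 ^ 2 ≤ X)
      exact_mod_cast h6.trans hysq
    have hLy : L ^ E ≤ Real.log y ^ (E + 1) := by
      calc L ^ E ≤ (2 * Real.log y) ^ E := pow_le_pow_left₀ hL0.le (by linarith) _
        _ = 2 ^ E * Real.log y ^ E := mul_pow _ _ _
        _ ≤ Real.log y * Real.log y ^ E := mul_le_mul_of_nonneg_right (by linarith) (by positivity)
        _ = Real.log y ^ (E + 1) := by ring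
    have key := h0 y hyN z hz1 (hz2.trans hLy) q r t hq1 (hq2.trans hLy) hr hrt
    unfold TT
    refine key.trans ?_
    rw [div_le_div_iff₀ (by positivity) (by positivity)]
    calc (y : ℝ) * L ^ V ≤ X * L ^ V := mul_le_mul_of_nonneg_right hyX (by positivity)
      _ ≤ X * (L / 2) ^ (V + 1) := by
          apply mul_le_mul_of_nonneg_left _ hX0.le
          rw [div_pow, le_div_iff₀ hp2, pow_succ L V]
          apply mul_le_mul_of_nonneg_left _ (by positivity)
          linarith
      _ ≤ X * Real.log y ^ (V + 1) := by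
          apply mul_le_mul_of_nonneg_left _ hX0.le
          exact pow_le_pow_left₀ (by linarith) hlogy _
  · have g1 : |TT z q r t y| ≤ y * (L * L) := by
      unfold TT
      refine (abs_sum_le_sum_abs _ _).trans ?_
      have h5 : ∀ n ∈ Icc 1 y, |(if n ≡ r [MOD q] then ArithmeticFunction.vonMangoldt n else 0) * lamzI z ((n : ℤ) + (t : ℤ))| ≤ L * L := by
        intro n hn
        rw [mem_Icc] at hn
        rw [abs_mul, abs_of_nonneg (lamzI_nonneg _ _)]
        apply mul_le_mul _ ((lamzI_le' _ _).trans hV') (lamzI_nonneg _ _) hL0.le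
        split_ifs
        · rw [abs_of_nonneg ArithmeticFunction.vonMangoldt_nonneg, hL]
          exact vM_le n X (by omega) (by omega)
        · rw [abs_zero]; exact hL0.le
      refine (sum_le_sum h5).trans (le_of_eq ?_)
      rw [sum_const, Nat.card_Icc, nsmul_eq_mul, Nat.add_sub_cancel]
    have g2 : |MT z q t * y| ≤ y * (L * L) := by
      rw [abs_of_nonneg (mul_nonneg (MT_nonneg' _ _ _) hy0), mul_comm]
      apply mul_le_mul_of_nonneg_left _ hy0
      exact ((MT_le' z q t hq1).trans hV').trans (by nlinarith)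
    have g3 : (y : ℝ) * (L * L) * 2 ≤ X / L ^ V := by
      rw [le_div_iff₀ (by positivity)]
      calc (y : ℝ) * (L * L) * 2 * L ^ V ≤ √X * (L * L) * L * L ^ V := by gcongr; linarith
        _ = √X * L ^ (V + 3) := by ring
        _ ≤ √X * √X := mul_le_mul_of_nonneg_left a4 hs0.le
        _ = X := hss
    have g4 := abs_sub (TT z q r t y) (MT z q t * y)
    linarith

end Pool.Agent.TH935.LF
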