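import Pool.Agent.TH935.LF6

set_option autoImplicit false

/-! The main term for the values `(c + b q) / a` of a linear form: the result. -/

namespace Pool.Agent.TH935.LF

open Finset Pool.Agent.H373R2.T7
open Pool.Agent.H560R3.GB (sing)
open Pool.Agent.W93.GB (sh vM_le one_le_sing)
open Pool.Agent.W93.PP (MT PS mem_PS ap_main MT_sing MT_one Cnt)

/-- the total main term -/
lemma total (z a t : ℕ) (b c : ℤ) (ha : 1 ≤ a) (hab : IsCoprime (a : ℤ) b)
    (ht : ∀ p : ℕ, p.Prime → p ≤ z → (((p : ℤ) ∣ a * b → (p : ℤ) ∣ (t : ℤ)) ∧ (¬ (p : ℤ) ∣ a * b → (p : ℤ) ∣ b * t - c))) :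
    ((RR a b c).card : ℝ) * MT z (a ^ 2) t = MT z 1 (a * b * c).natAbs / a := by
  have ha0 : (0 : ℝ) < a := by exact_mod_cast ha
  have hφ : (0 : ℝ) < Nat.totient a := by exact_mod_cast Nat.totient_pos.2 (by omega)
  have hPS : PS z (a ^ 2) t = PS z 1 (a * b * c).natAbs := by
    ext p
    rw [mem_PS, mem_PS]
    have h1 : ∀ hp : p ≤ z ∧ p.Prime, ((¬ p ∣ a ^ 2 ∧ ¬ p ∣ t) ↔ (¬ p ∣ 1 ∧ ¬ p ∣ (a * b * c).natAbs)) := by
      rintro ⟨hpz, hp⟩
      have hpi : Prime (p : ℤ) := Nat.prime_iff_prime_int.1 hp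
      obtain ⟨t1, t2⟩ := ht p hp hpz
      have e1 : p ∣ (a * b * c).natAbs ↔ (p : ℤ) ∣ a * b * c := by
        rw [← Int.natCast_dvd_natCast, Int.dvd_natAbs]
      have e2 : p ∣ t ↔ (p : ℤ) ∣ (t : ℤ) := Int.natCast_dvd_natCast.symm
      have e3 : p ∣ a ^ 2 ↔ (p : ℤ) ∣ (a : ℤ) := by
        rw [Int.natCast_dvd_natCast]
        exact ⟨fun h => hp.dvd_of_dvd_pow h, fun h => dvd_pow h (by norm_num)⟩
      have e4 : ¬ p ∣ 1 := hp.one_lt.ne' ∘ Nat.dvd_one.1
      rw [e1, e2, e3]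
      constructor
      · rintro ⟨g1, g2⟩
        refine ⟨e4, fun h => ?_⟩
        rcases hpi.dvd_or_dvd h with h | h
        · exact g2 (t1 h)
        · by_cases h3 : (p : ℤ) ∣ a * b
          · exact g2 (t1 h3)
          · have h4 : (p : ℤ) ∣ b * t := by
              have := dvd_add (t2 h3) h
              rwa [sub_add_cancel] at this
            rcases hpi.dvd_or_dvd h4 with h5 | h5
            · exact h3 (dvd_mul_of_dvd_right h5 _)
            · exact g2 h5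
      · rintro ⟨_, g2⟩
        have h3 : ¬ (p : ℤ) ∣ a * b := fun h => g2 (dvd_mul_of_dvd_left h _)
        refine ⟨fun h => h3 (dvd_mul_of_dvd_left h _), fun h => g2 ?_⟩
        have h4 : (p : ℤ) ∣ c := by
          have := dvd_sub (dvd_mul_of_dvd_right h b) (t2 h3)
          rwa [sub_sub_cancel] at this
        exact dvd_mul_of_dvd_right h4 _
    constructor
    · rintro ⟨h2, h3⟩
      exact ⟨h2, (h1 h2).1 h3⟩
    · rintro ⟨h2, h3⟩
      exact ⟨h2, (h1 h2).2 h3⟩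
  unfold MT
  rw [hPS, card_RR a b c ha hab, totient_sq a ha, Nat.totient_one]
  push_cast
  field_simp

/-- the sum of the class sums over a window -/
lemma class_window (z a t : ℕ) (b c : ℤ) (y₁ y₂ : ℕ) (h12 : y₁ ≤ y₂) :
    ∑ q ∈ Ioc y₁ y₂, ArithmeticFunction.vonMangoldt q *
      (∑ r ∈ RR a b c, (if q ≡ r [MOD a ^ 2] then (1 : ℝ) else 0) * lamzI z ((q : ℤ) + (t : ℤ))) =
    ∑ r ∈ RR a b c, (TT z (a ^ 2) r t y₂ - TT z (a ^ 2) r t y₁) := by
  have h1 : ∀ r, TT z (a ^ 2) r t y₂ - TT z (a ^ 2) r t y₁ =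
      ∑ q ∈ Ioc y₁ y₂, (if q ≡ r [MOD a ^ 2] then ArithmeticFunction.vonMangoldt q else 0) * lamzI z ((q : ℤ) + (t : ℤ)) := by
    intro r
    unfold TT
    have h3 : Icc 1 y₂ = Icc 1 y₁ ∪ Ioc y₁ y₂ := by
      ext n
      rw [mem_union, mem_Icc, mem_Icc, mem_Ioc]
      omega
    have h4 : Disjoint (Icc 1 y₁) (Ioc y₁ y₂) := by
      rw [disjoint_left]
      intro n h5 h6
      rw [mem_Icc] at h5
      rw [mem_Ioc] at h6
      omega
    rw [h3, sum_union h4]
    ring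
  simp only [h1]
  rw [sum_comm]
  apply sum_congr rfl
  intro q _
  rw [mul_sum]
  apply sum_congr rfl
  intro r _
  split_ifs <;> ring

set_option maxHeartbeats 4000000 in
theorem main_lin (D V : ℕ) : ∀ E1 : ℕ, V + 2 * D + 8 ≤ E1 → ∃ X0 : ℕ, ∀ X : ℕ, X0 ≤ X →
    ∀ (a : ℕ) (b c : ℤ), 1 ≤ a → (a : ℝ) ≤ Real.log X ^ D → b ≠ 0 → (b.natAbs : ℝ) ≤ Real.log X ^ D → c ≠ 0 → c.natAbs ≤ X →
    IsCoprime (a : ℤ) b → IsCoprime (a : ℤ) c → IsCoprime b c → 2 ∣ a * b * c →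
    ∀ z : ℕ, Real.log X ^ E1 ≤ z → (z : ℝ) ≤ Real.log X ^ (E1 + 1) → ∀ y₁ y₂ : ℕ, y₁ ≤ y₂ → y₂ ≤ X →
    (∑ q ∈ Ioc y₁ y₂, ArithmeticFunction.vonMangoldt q * Lz z a (c + b * q) ≤
      sing (a * b * c).natAbs / a * ((y₂ : ℝ) - y₁) + X / Real.log X ^ V) ∧
    ((∀ q ∈ Ioc y₁ y₂, 0 < c + b * (q : ℤ)) →
      sing (a * b * c).natAbs / a * ((y₂ : ℝ) - y₁) - X / Real.log X ^ V ≤
      ∑ q ∈ Ioc y₁ y₂, ArithmeticFunction.vonMangoldt q * Lz z a (c + b * q)) ∧
    sing (a * b * c).natAbs ≤ 4 * Real.log X := by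
  classical
  intro E1 hE1
  obtain ⟨N0, h0⟩ := ap_all (E1 + 1) (V + D + 1)
  obtain ⟨n2, h2⟩ := ev_L' 100
  obtain ⟨n3, h3⟩ := Vz_inv_small (E1 + 1)
  obtain ⟨n4, h4⟩ := ev_log' (V + 2 * D + 8) 1
  refine ⟨N0 + n2 + n3 + n4 + 4, fun X hX a b c ha haL hb hbL hc hcX hab hac hbc h2abc z hz1 hz2 y₁ y₂ h12 hy2 => ?_⟩
  have hap := h0 X (by omega)
  have a2 := h2 X (by omega)
  have hV := h3 X (by omega) z
  have a4 := h4 X (by omega)
  obtain ⟨L, hL⟩ : ∃ L, L = Real.log (X : ℝ) := ⟨_, rfl⟩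
  rw [← hL] at hap a2 hV a4 haL hbL hz1 hz2 ⊢
  rw [one_mul] at a4
  have hL1 : 1 ≤ L := by linarith
  have hL0 : 0 < L := by linarith
  have hX4 : (4 : ℝ) ≤ X := by exact_mod_cast (by omega : 4 ≤ X)
  have hX0 : (0 : ℝ) < X := by linarith
  have hss : √(X : ℝ) * √(X : ℝ) = X := Real.mul_self_sqrt hX0.le
  have hs0 : 0 < √(X : ℝ) := Real.sqrt_pos.2 hX0
  have hz0 : (1 : ℝ) ≤ z := (one_le_pow₀ hL1).trans hz1
  have hzn : 1 ≤ z := by exact_mod_cast hz0
  have hV' := hV hzn hz2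
  have hVi := (inv_pos.2 (Vz_pos z)).le
  have ha0 : (0 : ℝ) < a := by exact_mod_cast ha
  have ha1 : (1 : ℝ) ≤ a := by exact_mod_cast ha
  have haz : a ≤ z := by
    have : (a : ℝ) ≤ z := haL.trans ((pow_le_pow_right₀ hL1 (by omega)).trans hz1)
    exact_mod_cast this
  obtain ⟨t, ht⟩ := exists_shift z a b c
  obtain ⟨m, hm⟩ : ∃ m, m = (a * b * c).natAbs := ⟨_, rfl⟩
  have htot := total z a t b c ha hab ht
  rw [← hm] at htot ⊢
  -- the number `m`
  have hm0 : m ≠ 0 := by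
    rw [hm]
    apply Int.natAbs_ne_zero.2
    apply mul_ne_zero (mul_ne_zero _ hb) hc
    exact_mod_cast (by omega : a ≠ 0)
  have hm2 : 2 ∣ m := by rw [hm]; exact Int.natCast_dvd.1 (by exact_mod_cast h2abc)
  have hmX : (m : ℝ) ≤ X ^ 2 := by
    have e1 : (m : ℝ) = a * b.natAbs * c.natAbs := by
      rw [hm, Int.natAbs_mul, Int.natAbs_mul, Int.natAbs_natCast]
      push_cast
      ring
    rw [e1]
    have e2 : (c.natAbs : ℝ) ≤ X := by exact_mod_cast hcX
    have e3 : (a : ℝ) * b.natAbs ≤ X := by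
      calc (a : ℝ) * b.natAbs ≤ L ^ D * L ^ D := mul_le_mul haL hbL (Nat.cast_nonneg _) (by positivity)
        _ = L ^ (D + D) := by rw [pow_add]
        _ ≤ L ^ (V + 2 * D + 8) := pow_le_pow_right₀ hL1 (by omega)
        _ ≤ √X := a4
        _ ≤ √X * √X := le_mul_of_one_le_left hs0.le ((one_le_pow₀ hL1).trans a4)
        _ = X := hss
    calc (a : ℝ) * b.natAbs * c.natAbs ≤ X * X := mul_le_mul e3 e2 (Nat.cast_nonneg _) hX0.le
      _ = (X : ℝ) ^ 2 := by ring
  have hlogm : (Nat.log 2 m : ℝ) ≤ 2 * (2 * L) := by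
    refine (natlog_le m (by omega)).trans ?_
    have h5 : Real.log m ≤ 2 * L := by
      have := Real.log_le_log (by exact_mod_cast Nat.pos_of_ne_zero hm0) hmX
      rw [Real.log_pow, ← hL] at this
      exact_mod_cast this
    linarith
  have hcnt : Cnt 1 m = 1 := by
    unfold Cnt
    rw [range_one, filter_singleton, if_pos (by simp), card_singleton]
  have hzL : L ^ (V + 5) * 100 ≤ z := by
    refine le_trans ?_ hz1
    calc L ^ (V + 5) * 100 ≤ L ^ (V + 5) * L := mul_le_mul_of_nonneg_left a2 (by positivity)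
      _ = L ^ (V + 6) := by ring
      _ ≤ L ^ E1 := pow_le_pow_right₀ hL1 (by omega)
  have hz8L : 8 * (2 * L) ≤ z := by
    refine le_trans ?_ hzL
    have : L ≤ L ^ (V + 5) := le_self_pow₀ hL1 (by omega)
    linarith
  obtain ⟨m1, _, m3⟩ := MT_sing z 1 m (2 * L) (by linarith) le_rfl hzn hm2 hm0 (by rw [hcnt]; exact Nat.one_pos)
    (by linarith) hlogm hz8L
  rw [hcnt, Nat.cast_one, div_one] at m1 m3
  obtain ⟨S, hS⟩ : ∃ S, S = sing m := ⟨_, rfl⟩
  rw [← hS] at m1 m3 ⊢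
  have hS1 : 1 ≤ S := by rw [hS]; exact one_le_sing m
  -- the class sums
  obtain ⟨w, hw⟩ : ∃ w : ℕ → ℝ, w = fun q => ∑ r ∈ RR a b c, (if q ≡ r [MOD a ^ 2] then (1 : ℝ) else 0) * lamzI z ((q : ℤ) + (t : ℤ)) := ⟨_, rfl⟩
  have hw0 : ∀ q, 0 ≤ w q := by intro q; rw [hw]; exact (class_le z a t b c q).1
  have hw1 : ∀ q, w q ≤ (Vz z)⁻¹ := by intro q; rw [hw]; exact (class_le z a t b c q).2
  obtain ⟨bad, hbad⟩ : ∃ bad : ℕ → ℝ, bad = fun q => if Nat.Coprime q b.natAbs then 0 else ArithmeticFunction.vonMangoldt q * (Vz z)⁻¹ := ⟨_, rfl⟩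
  have hcop : ∀ q : ℕ, Nat.Coprime q b.natAbs → IsCoprime (q : ℤ) b := by
    intro q h
    rw [Int.isCoprime_iff_gcd_eq_one]
    exact h
  have hup : ∀ q ∈ Ioc y₁ y₂, ArithmeticFunction.vonMangoldt q * Lz z a (c + b * q) ≤ ArithmeticFunction.vonMangoldt q * w q + bad q := by
    intro q hq
    rw [mem_Ioc] at hq
    have hΛ : 0 ≤ ArithmeticFunction.vonMangoldt q := ArithmeticFunction.vonMangoldt_nonneg
    rw [hbad]
    simp only
    split_ifs with hco
    · rw [add_zero]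
      apply mul_le_mul_of_nonneg_left _ hΛ
      rcases lt_or_ge 0 (c + b * (q : ℤ)) with hpos | hneg
      · rw [hw]
        exact (pointwise z a t b c ha haz hac hbc ht q (by omega) (hcop q hco) hpos).le
      · have : Lz z a (c + b * q) = 0 := by
          unfold Lz
          split_ifs with hd
          · unfold lamzI
            rw [if_neg]
            intro h5
            have h6 := Int.ediv_mul_cancel hd
            have h7 : (0 : ℤ) < a := by exact_mod_cast ha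
            nlinarith
          · rfl
        rw [this]
        exact hw0 q
    · have := mul_le_mul_of_nonneg_left (Lz_le z a (c + b * q)) hΛ
      have := mul_nonneg hΛ (hw0 q)
      linarith
  have hlow : (∀ q ∈ Ioc y₁ y₂, 0 < c + b * (q : ℤ)) → ∀ q ∈ Ioc y₁ y₂,
      ArithmeticFunction.vonMangoldt q * w q - bad q ≤ ArithmeticFunction.vonMangoldt q * Lz z a (c + b * q) := by
    intro hpos q hq
    have hpq := hpos q hq
    rw [mem_Ioc] at hq
    have hΛ : 0 ≤ ArithmeticFunction.vonMangoldt q := ArithmeticFunction.vonMangoldt_nonneg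
    rw [hbad]
    simp only
    split_ifs with hco
    · rw [sub_zero]
      apply mul_le_mul_of_nonneg_left _ hΛ
      rw [hw]
      exact (pointwise z a t b c ha haz hac hbc ht q (by omega) (hcop q hco) hpq).ge
    · have h5 := mul_le_mul_of_nonneg_left (hw1 q) hΛ
      have h6 := mul_nonneg hΛ (Lz_nonneg z a (c + b * q))
      linarith
  -- the bad sum
  have hbadsum : ∑ q ∈ Ioc y₁ y₂, bad q ≤ X / L ^ (V + 1) := by
    have e1 : ∑ q ∈ Ioc y₁ y₂, bad q ≤ ∑ q ∈ Icc 1 X, bad q := by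
      apply sum_le_sum_of_subset_of_nonneg
      · intro q hq
        rw [mem_Ioc] at hq
        rw [mem_Icc]
        omega
      · intro q _ _
        rw [hbad]
        simp only
        split_ifs
        · exact le_rfl
        · exact mul_nonneg ArithmeticFunction.vonMangoldt_nonneg hVi
    have e2 : ∑ q ∈ Icc 1 X, bad q = (∑ q ∈ (Icc 1 X).filter (fun q => ¬ Nat.Coprime q b.natAbs), ArithmeticFunction.vonMangoldt q) * (Vz z)⁻¹ := by
      rw [sum_mul, sum_filter]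
      apply sum_congr rfl
      intro q _
      rw [hbad]
      simp only
      split_ifs with h5
      · rfl
      · rfl
    have e3 := bad_sum b.natAbs X (Int.natAbs_pos.2 hb) (by omega)
    rw [← hL] at e3
    have e4 : (Nat.log 2 X : ℝ) ≤ 2 * L := by
      have := natlog_le X (by omega)
      rwa [← hL] at this
    have hLD : 1 ≤ L ^ D := one_le_pow₀ hL1
    have e5 : ((b.natAbs : ℝ) + 1) * ((Nat.log 2 X : ℝ) + 1) * L ≤ L ^ (D + 1) * (L * L) * L := by
      have f1 : (b.natAbs : ℝ) + 1 ≤ L ^ (D + 1) := by rw [pow_succ]; nlinarith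
      have f2 : (Nat.log 2 X : ℝ) + 1 ≤ L * L := by nlinarith
      gcongr
    have e6 : (∑ q ∈ (Icc 1 X).filter (fun q => ¬ Nat.Coprime q b.natAbs), ArithmeticFunction.vonMangoldt q) * (Vz z)⁻¹ ≤
        (L ^ (D + 1) * (L * L) * L) * L := mul_le_mul (e3.trans e5) hV' hVi (by positivity)
    refine e1.trans (e2.le.trans (e6.trans ?_))
    rw [le_div_iff₀ (by positivity)]
    calc (L ^ (D + 1) * (L * L) * L) * L * L ^ (V + 1) = L ^ (V + D + 6) := by ring
      _ ≤ L ^ (V + 2 * D + 8) := pow_le_pow_right₀ hL1 (by omega)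
      _ ≤ √X := a4
      _ ≤ √X * √X := le_mul_of_one_le_left hs0.le ((one_le_pow₀ hL1).trans a4)
      _ = X := hss
  -- the class sums
  have hsumw : |∑ q ∈ Ioc y₁ y₂, ArithmeticFunction.vonMangoldt q * w q - S / a * ((y₂ : ℝ) - y₁)| ≤ 3 * (X / L ^ (V + 1)) := by
    have e0 : ∑ q ∈ Ioc y₁ y₂, ArithmeticFunction.vonMangoldt q * w q = ∑ r ∈ RR a b c, (TT z (a ^ 2) r t y₂ - TT z (a ^ 2) r t y₁) := by
      rw [hw]
      exact class_window z a t b c y₁ y₂ h12
    have hcopr : ∀ r ∈ RR a b c, Nat.Coprime r (a ^ 2) ∧ Nat.Coprime (r + t) (a ^ 2) := by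
      intro r hr
      obtain ⟨_, hd, _⟩ := mem_RR.1 hr
      have key : ∀ p : ℕ, p.Prime → p ∣ a → ¬ p ∣ r := by
        intro p hp hpa hpr
        have h5 : (p : ℤ) ∣ c + b * r := dvd_trans (by exact_mod_cast hpa) hd
        have h6 : (p : ℤ) ∣ c := by
          have := dvd_sub h5 (dvd_mul_of_dvd_right (show (p : ℤ) ∣ (r : ℤ) by exact_mod_cast hpr) b)
          rwa [add_sub_cancel_right] at this
        exact (Nat.prime_iff_prime_int.1 hp).not_isUnit (hac.isUnit_of_dvd' (by exact_mod_cast hpa) h6)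
      constructor
      · apply Nat.Coprime.pow_right
        by_contra h
        obtain ⟨p, hp, hpr, hpa⟩ := Nat.Prime.not_coprime_iff_dvd.1 h
        exact key p hp hpa hpr
      · apply Nat.Coprime.pow_right
        by_contra h
        obtain ⟨p, hp, hprt, hpa⟩ := Nat.Prime.not_coprime_iff_dvd.1 h
        have hpz : p ≤ z := (Nat.le_of_dvd (by omega) hpa).trans haz
        have hpt : p ∣ t := by
          have := (ht p hp hpz).1 (dvd_mul_of_dvd_left (by exact_mod_cast hpa) _)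
          exact_mod_cast this
        exact key p hp hpa ((Nat.dvd_add_left hpt).1 hprt)
    have hq2 : ((a ^ 2 : ℕ) : ℝ) ≤ L ^ (E1 + 1) := by
      push_cast
      calc (a : ℝ) ^ 2 ≤ (L ^ D) ^ 2 := pow_le_pow_left₀ ha0.le haL _
        _ = L ^ (D * 2) := by rw [← pow_mul]
        _ ≤ L ^ (E1 + 1) := pow_le_pow_right₀ hL1 (by omega)
    have e1 : |∑ r ∈ RR a b c, (TT z (a ^ 2) r t y₂ - TT z (a ^ 2) r t y₁) - ((RR a b c).card : ℝ) * MT z (a ^ 2) t * ((y₂ : ℝ) - y₁)| ≤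
        (RR a b c).card * (2 * (X / L ^ (V + D + 1))) := by
      have e2 : ∑ r ∈ RR a b c, (TT z (a ^ 2) r t y₂ - TT z (a ^ 2) r t y₁) - ((RR a b c).card : ℝ) * MT z (a ^ 2) t * ((y₂ : ℝ) - y₁) =
          ∑ r ∈ RR a b c, ((TT z (a ^ 2) r t y₂ - MT z (a ^ 2) t * y₂) - (TT z (a ^ 2) r t y₁ - MT z (a ^ 2) t * y₁)) := by
        have e3 : ((RR a b c).card : ℝ) * MT z (a ^ 2) t * ((y₂ : ℝ) - y₁) = ∑ _r ∈ RR a b c, MT z (a ^ 2) t * ((y₂ : ℝ) - y₁) := by
          rw [sum_const, nsmul_eq_mul]; ring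
        rw [e3, ← sum_sub_distrib]
        apply sum_congr rfl
        intro r _
        ring
      rw [e2]
      refine (abs_sum_le_sum_abs _ _).trans ?_
      have e4 : ∀ r ∈ RR a b c, |(TT z (a ^ 2) r t y₂ - MT z (a ^ 2) t * y₂) - (TT z (a ^ 2) r t y₁ - MT z (a ^ 2) t * y₁)| ≤
          2 * (X / L ^ (V + D + 1)) := by
        intro r hr
        obtain ⟨k1, k2⟩ := hcopr r hr
        have k3 := hap z hzn hz2 (a ^ 2) r t (Nat.pow_pos (by omega)) hq2 k1 k2 y₂ hy2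
        have k4 := hap z hzn hz2 (a ^ 2) r t (Nat.pow_pos (by omega)) hq2 k1 k2 y₁ (h12.trans hy2)
        refine (abs_sub _ _).trans ?_
        linarith
      refine (sum_le_sum e4).trans (le_of_eq ?_)
      rw [sum_const, nsmul_eq_mul]
    have hcardR : ((RR a b c).card : ℝ) ≤ L ^ D := by
      rw [card_RR a b c ha hab]
      have : (Nat.totient a : ℝ) ≤ a := by exact_mod_cast Nat.totient_le a
      linarith
    have e5 : ((RR a b c).card : ℝ) * (2 * (X / L ^ (V + D + 1))) ≤ 2 * (X / L ^ (V + 1)) := by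
      calc ((RR a b c).card : ℝ) * (2 * (X / L ^ (V + D + 1))) ≤ L ^ D * (2 * (X / L ^ (V + D + 1))) :=
            mul_le_mul_of_nonneg_right hcardR (by positivity)
        _ = 2 * (X / L ^ (V + 1)) := by
            rw [show V + D + 1 = D + (V + 1) by ring, pow_add L D]
            field_simp
    have hy1X : (0 : ℝ) ≤ (y₂ : ℝ) - y₁ := by
      have : (y₁ : ℝ) ≤ y₂ := by exact_mod_cast h12
      linarith
    have hyX : (y₂ : ℝ) - y₁ ≤ X := by
      have : (y₂ : ℝ) ≤ X := by exact_mod_cast hy2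
      have : (0 : ℝ) ≤ y₁ := Nat.cast_nonneg _
      linarith
    have e6 : |MT z 1 m / a * ((y₂ : ℝ) - y₁) - S / a * ((y₂ : ℝ) - y₁)| ≤ X / L ^ (V + 1) := by
      have e7 : MT z 1 m / a * ((y₂ : ℝ) - y₁) - S / a * ((y₂ : ℝ) - y₁) = (MT z 1 m - S) * (((y₂ : ℝ) - y₁) / a) := by
        field_simp
      rw [e7, abs_mul, abs_of_nonneg (div_nonneg hy1X ha0.le)]
      have e8 : ((y₂ : ℝ) - y₁) / a ≤ X := (div_le_self hy1X ha1).trans hyX
      calc |MT z 1 m - S| * (((y₂ : ℝ) - y₁) / a) ≤ (8 * (2 * L) ^ 2 / z) * X :=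
            mul_le_mul m1 e8 (div_nonneg hy1X ha0.le) (by positivity)
        _ ≤ X / L ^ (V + 1) := by
            rw [div_mul_eq_mul_div, div_le_div_iff₀ (by linarith) (by positivity)]
            calc 8 * (2 * L) ^ 2 * X * L ^ (V + 1) = X * (32 * L ^ (V + 3)) := by ring
              _ ≤ X * z := by
                  apply mul_le_mul_of_nonneg_left _ hX0.le
                  refine le_trans ?_ hzL
                  have : L ^ (V + 3) ≤ L ^ (V + 5) := pow_le_pow_right₀ hL1 (by omega)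
                  nlinarith [pow_pos hL0 (V + 3)]
    rw [htot] at e1
    rw [e0]
    have e9 : ∑ r ∈ RR a b c, (TT z (a ^ 2) r t y₂ - TT z (a ^ 2) r t y₁) - S / a * ((y₂ : ℝ) - y₁) =
        (∑ r ∈ RR a b c, (TT z (a ^ 2) r t y₂ - TT z (a ^ 2) r t y₁) - MT z 1 m / a * ((y₂ : ℝ) - y₁)) +
        (MT z 1 m / a * ((y₂ : ℝ) - y₁) - S / a * ((y₂ : ℝ) - y₁)) := by ring
    rw [e9]
    refine (abs_add_le _ _).trans ?_
    linarith
  have hfin : 4 * (X / L ^ (V + 1)) ≤ X / L ^ V := by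
    have : X / L ^ (V + 1) = X / L ^ V / L := by rw [pow_succ, div_div]
    rw [this]
    have hq : 0 ≤ X / L ^ V := by positivity
    have : X / L ^ V / L ≤ X / L ^ V / 4 := div_le_div_of_nonneg_left hq (by norm_num) (by linarith)
    linarith
  rw [abs_le] at hsumw
  refine ⟨?_, ?_, by linarith⟩
  · have := sum_le_sum hup
    rw [sum_add_distrib] at this
    linarith [hsumw.2]
  · intro hpos
    have := sum_le_sum (hlow hpos)
    rw [sum_sub_distrib] at this
    linarith [hsumw.1]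

end Pool.Agent.TH935.LF
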