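import Pool.Agent.TH935.LF7
import Pool.Agent.W93.PP8

set_option autoImplicit false

/-! Values of linear forms at primes in windows, for almost all members of a family of nearly minimal
additive energy: weighted sums. -/

namespace Pool.Agent.TH935.LF

open Finset Pool.Agent.H373R2.T7
open Pool.Agent.H560R3.GB (sing)
open Pool.Agent.W93.GB (vM_le one_le_sing)
open Pool.Agent.W93.PP (markov)

/-- the weighted number of prime solutions of `a p = c + b q` with `q` in a window -/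
noncomputable def Wt (a : ℕ) (b c : ℤ) (y₁ y₂ : ℕ) : ℝ :=
  ∑ q ∈ Ioc y₁ y₂, ArithmeticFunction.vonMangoldt q * La a (c + b * q)

/-- the weighted numbers are as predicted -/
def GG (V D X Y : ℕ) (c : ℤ) : Prop :=
  ∀ (a : ℕ) (b : ℤ), 1 ≤ a → (a : ℝ) ≤ Real.log X ^ D → b ≠ 0 → (b.natAbs : ℝ) ≤ Real.log X ^ D →
    IsCoprime (a : ℤ) b → IsCoprime (a : ℤ) c → IsCoprime b c → 2 ∣ a * b * c →
    ∀ y₁ y₂ : ℕ, y₁ ≤ y₂ → y₂ ≤ Y → (∀ q ∈ Ioc y₁ y₂, 0 < c + b * (q : ℤ)) →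
      |Wt a b c y₁ y₂ - sing (a * b * c).natAbs / a * ((y₂ : ℝ) - y₁)| ≤ X / Real.log X ^ V

/-- the deterministic part -/
theorem gg_det (V D E1 : ℕ) (hE1 : V + 2 + 2 * D + 8 ≤ E1) : ∃ X0 : ℕ, ∀ X : ℕ, X0 ≤ X → ∀ c : ℤ, c ≠ 0 → c.natAbs ≤ X →
    ∀ Y : ℕ, Y ≤ X →
    ∀ z : ℕ, Real.log X ^ E1 ≤ z → (z : ℝ) ≤ Real.log X ^ (E1 + 1) → ∀ T : ℕ, Real.log X ^ (V + 4) ≤ T →
    (∀ i ∈ range (T + 1), ∀ (a : ℕ) (b : ℤ), 1 ≤ a → (a : ℝ) ≤ Real.log X ^ D → b ≠ 0 → (b.natAbs : ℝ) ≤ Real.log X ^ D →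
      |∑ q ∈ Icc 1 (min (i * (Y / T + 1)) Y), ArithmeticFunction.vonMangoldt q * Dz z a (c + b * q)| ≤ X / Real.log X ^ (V + 2)) →
    GG V D X Y c := by
  classical
  obtain ⟨X1, hmain⟩ := main_lin D (V + 2) E1 hE1
  obtain ⟨n2, h2⟩ := ev_L' 100
  obtain ⟨n4, h4⟩ := ev_log' (V + 8) 1
  refine ⟨X1 + n2 + n4 + 4, fun X hX c hc hcX Y hYX z hz1 hz2 T hT hyp a b ha haL hb hbL hab hac hbc h2abc y₁ y₂ h12 hy2 hpos => ?_⟩
  have hm := hmain X (by omega) a b c ha haL hb hbL hc hcX hab hac hbc h2abc z hz1 hz2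
  have a2 := h2 X (by omega)
  have a4 := h4 X (by omega)
  obtain ⟨L, hL⟩ : ∃ L, L = Real.log (X : ℝ) := ⟨_, rfl⟩
  rw [← hL] at hm a2 a4 haL hbL hz1 hz2 hT hyp ⊢
  rw [one_mul] at a4
  have hL1 : 1 ≤ L := by linarith
  have hL0 : 0 < L := by linarith
  have hX4 : (4 : ℝ) ≤ X := by exact_mod_cast (by omega : 4 ≤ X)
  have hX0 : (0 : ℝ) < X := by linarith
  have hss : √(X : ℝ) * √(X : ℝ) = X := Real.mul_self_sqrt hX0.le
  have hs0 : 0 < √(X : ℝ) := Real.sqrt_pos.2 hX0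
  have hs1 : 1 ≤ √(X : ℝ) := (one_le_pow₀ hL1).trans a4
  have hT0 : (1 : ℝ) ≤ T := (one_le_pow₀ hL1).trans hT
  have hTn : 1 ≤ T := by exact_mod_cast hT0
  have ha0 : (0 : ℝ) < a := by exact_mod_cast ha
  have ha1 : (1 : ℝ) ≤ a := by exact_mod_cast ha
  obtain ⟨δ, hδ⟩ : ∃ δ : ℝ, δ = X / L ^ (V + 2) := ⟨_, rfl⟩
  have hδ0 : 0 < δ := by rw [hδ]; positivity
  rw [← hδ] at hm hyp
  obtain ⟨S, hS⟩ : ∃ S, S = sing (a * b * c).natAbs := ⟨_, rfl⟩
  rw [← hS] at hm ⊢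
  have hS1 : 1 ≤ S := by rw [hS]; exact one_le_sing _
  have hS4 : S ≤ 4 * L := (hm 0 0 le_rfl (by omega)).2.2
  have hSa0 : 0 ≤ S / a := by positivity
  have hSa : S / a ≤ 4 * L := (div_le_self (by linarith) ha1).trans hS4
  obtain ⟨s, hs⟩ : ∃ s, s = Y / T + 1 := ⟨_, rfl⟩
  rw [← hs] at hyp
  have hspos : 0 < s := by rw [hs]; exact Nat.succ_pos _
  have hsr : (s : ℝ) ≤ 2 * (X / L ^ (V + 4)) := by
    have e1 : (s : ℝ) ≤ X / T + 1 := by
      rw [hs]
      push_cast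
      have e2 : ((Y / T : ℕ) : ℝ) ≤ Y / T := Nat.cast_div_le
      have e3 : (Y : ℝ) / T ≤ X / T := by
        apply div_le_div_of_nonneg_right _ (by linarith)
        exact_mod_cast hYX
      linarith
    have e2 : (X : ℝ) / T ≤ X / L ^ (V + 4) := div_le_div_of_nonneg_left hX0.le (by positivity) hT
    have e3 : 1 ≤ (X : ℝ) / L ^ (V + 4) := by
      rw [le_div_iff₀ (by positivity), one_mul]
      calc L ^ (V + 4) ≤ L ^ (V + 8) := pow_le_pow_right₀ hL1 (by omega)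
        _ ≤ √X := a4
        _ ≤ √X * √X := le_mul_of_one_le_left hs0.le hs1
        _ = X := hss
    linarith
  have hTs : Y ≤ T * s := by
    rw [hs]
    have := Nat.div_add_mod Y T
    have h5 := Nat.mod_lt Y (show 0 < T by omega)
    rw [mul_add, mul_one]
    omega
  -- the two cumulative sums
  obtain ⟨F, hF⟩ : ∃ F : ℕ → ℝ, F = fun y => ∑ q ∈ Icc 1 y, ArithmeticFunction.vonMangoldt q * La a (c + b * q) := ⟨_, rfl⟩
  obtain ⟨M, hM⟩ : ∃ M : ℕ → ℝ, M = fun y => ∑ q ∈ Icc 1 y, ArithmeticFunction.vonMangoldt q * Lz z a (c + b * q) := ⟨_, rfl⟩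
  have hsplit : ∀ (w : ℕ → ℝ) (u v : ℕ), u ≤ v → ∑ q ∈ Icc 1 v, w q = ∑ q ∈ Icc 1 u, w q + ∑ q ∈ Ioc u v, w q := by
    intro w u v huv
    have h3 : Icc 1 v = Icc 1 u ∪ Ioc u v := by
      ext n
      rw [mem_union, mem_Icc, mem_Icc, mem_Ioc]
      omega
    have h4 : Disjoint (Icc 1 u) (Ioc u v) := by
      rw [disjoint_left]
      intro n h5 h6
      rw [mem_Icc] at h5
      rw [mem_Ioc] at h6
      omega
    rw [h3, sum_union h4]
  have hFd : ∀ u v : ℕ, u ≤ v → F v - F u = Wt a b c u v := by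
    intro u v huv
    rw [hF]
    simp only
    rw [hsplit _ u v huv]
    unfold Wt
    ring
  have hMd : ∀ u v : ℕ, u ≤ v → M v - M u = ∑ q ∈ Ioc u v, ArithmeticFunction.vonMangoldt q * Lz z a (c + b * q) := by
    intro u v huv
    rw [hM]
    simp only
    rw [hsplit _ u v huv]
    ring
  have hFM : ∀ i ≤ T, |F (min (i * s) Y) - M (min (i * s) Y)| ≤ δ := by
    intro i hi
    have h5 := hyp i (mem_range.2 (by omega)) a b ha haL hb hbL
    rw [hF, hM]
    simp only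
    rw [← sum_sub_distrib]
    refine le_trans (le_of_eq ?_) h5
    congr 1
    apply sum_congr rfl
    intro q _
    rw [Dz_eq]
    ring
  have hmono : ∀ u v u' v' : ℕ, u' ≤ u → v ≤ v' → Wt a b c u v ≤ Wt a b c u' v' := by
    intro u v u' v' h5 h6
    unfold Wt
    apply sum_le_sum_of_subset_of_nonneg
    · intro q hq
      rw [mem_Ioc] at hq ⊢
      omega
    · intro q _ _
      exact mul_nonneg ArithmeticFunction.vonMangoldt_nonneg (La_nonneg _ _)
  have hW0 : ∀ u v : ℕ, 0 ≤ Wt a b c u v := by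
    intro u v
    unfold Wt
    exact sum_nonneg fun q _ => mul_nonneg ArithmeticFunction.vonMangoldt_nonneg (La_nonneg _ _)
  have hSs : S / a * (2 * s) ≤ δ := by
    calc S / a * (2 * s) ≤ (4 * L) * (2 * (2 * (X / L ^ (V + 4)))) := by gcongr
      _ = 16 * (δ / L) := by
          rw [hδ, show V + 4 = (V + 2) + 1 + 1 by ring, pow_succ L (V + 2 + 1), pow_succ L (V + 2)]
          field_simp
          ring
      _ ≤ δ := by
          have : δ / L ≤ δ / 100 := div_le_div_of_nonneg_left hδ0.le (by norm_num) a2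
          linarith
  have hfinal : 4 * δ ≤ X / L ^ V := by
    have h6 : X / L ^ V = δ * L ^ 2 := by
      rw [hδ, pow_add L V 2]
      field_simp
    rw [h6]
    have h8 : (4 : ℝ) ≤ L ^ 2 := by nlinarith
    have h9 := mul_le_mul_of_nonneg_left h8 hδ0.le
    linarith
  -- the grid points
  obtain ⟨i₁, hi₁⟩ : ∃ i, i = y₁ / s := ⟨_, rfl⟩
  obtain ⟨i₂, hi₂⟩ : ∃ i, i = y₂ / s := ⟨_, rfl⟩
  have b1 : i₁ * s ≤ y₁ := by rw [hi₁]; exact Nat.div_mul_le_self y₁ s
  have b2 : y₁ < (i₁ + 1) * s := by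
    rw [hi₁]
    have := Nat.lt_div_mul_add hspos (a := y₁)
    rw [add_mul, one_mul]
    exact this
  have b3 : i₂ * s ≤ y₂ := by rw [hi₂]; exact Nat.div_mul_le_self y₂ s
  have b4 : y₂ < (i₂ + 1) * s := by
    rw [hi₂]
    have := Nat.lt_div_mul_add hspos (a := y₂)
    rw [add_mul, one_mul]
    exact this
  have hi12 : i₁ ≤ i₂ := by rw [hi₁, hi₂]; exact Nat.div_le_div_right h12
  have hi₂T : i₂ ≤ T := by
    have h5 : i₂ * s ≤ T * s := b3.trans (hy2.trans hTs)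
    exact Nat.le_of_mul_le_mul_right h5 hspos
  have hg₁ : min (i₁ * s) Y = i₁ * s := min_eq_left (by omega)
  have hg₂ : min (i₂ * s) Y = i₂ * s := min_eq_left (by omega)
  have b2r : (y₁ : ℝ) ≤ (i₁ + 1) * s := by exact_mod_cast b2.le
  have b1r : (i₁ : ℝ) * s ≤ y₁ := by exact_mod_cast b1
  have b3r : (i₂ : ℝ) * s ≤ y₂ := by exact_mod_cast b3
  have b4r : (y₂ : ℝ) ≤ (i₂ + 1) * s := by exact_mod_cast b4.le
  have hs0r : (0 : ℝ) < s := by exact_mod_cast hspos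
  have hup : Wt a b c y₁ y₂ ≤ S / a * ((y₂ : ℝ) - y₁) + 4 * δ := by
    rcases Nat.lt_or_ge i₂ T with hlt | hge
    · obtain ⟨g, hg⟩ : ∃ g, g = min ((i₂ + 1) * s) Y := ⟨_, rfl⟩
      have k1 := hFM (i₂ + 1) (by omega)
      have k2 := hFM i₁ (by omega)
      rw [← hg] at k1
      rw [hg₁] at k2
      have hyg : y₂ ≤ g := by rw [hg]; exact le_min b4.le hy2
      have hgY : g ≤ Y := by rw [hg]; exact min_le_right _ _
      have hgle : (g : ℝ) ≤ y₂ + s := by
        have : g ≤ (i₂ + 1) * s := by rw [hg]; exact min_le_left _ _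
        have h5 : (g : ℝ) ≤ (i₂ + 1) * s := by exact_mod_cast this
        linarith
      have k3 := (hm (i₁ * s) g (by omega) (by omega)).1
      rw [← hMd _ _ (show i₁ * s ≤ g by omega)] at k3
      have k4 := hmono y₁ y₂ (i₁ * s) g b1 hyg
      rw [← hFd (i₁ * s) g (by omega)] at k4
      rw [abs_le] at k1 k2
      have k5 : S / a * ((g : ℝ) - ((i₁ * s : ℕ) : ℝ)) ≤ S / a * ((y₂ : ℝ) - y₁) + S / a * (2 * s) := by
        rw [← mul_add]
        apply mul_le_mul_of_nonneg_left _ hSa0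
        push_cast
        linarith
      linarith [k1.2, k2.1]
    · -- `i₂ = T`
      have hi : i₂ = T := by omega
      have k1 := hFM i₂ (by omega)
      have k2 := hFM i₁ (by omega)
      have hy2e : y₂ = i₂ * s := by
        have h5 : Y ≤ i₂ * s := by rw [hi]; exact hTs
        omega
      rw [hg₂] at k1
      rw [hg₁] at k2
      have k3 := (hm (i₁ * s) (i₂ * s) (by omega) (by omega)).1
      rw [← hMd _ _ (show i₁ * s ≤ i₂ * s by omega)] at k3
      have k4 := hmono y₁ y₂ (i₁ * s) (i₂ * s) b1 (by omega)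
      rw [← hFd (i₁ * s) (i₂ * s) (by omega)] at k4
      rw [abs_le] at k1 k2
      have k5 : S / a * (((i₂ * s : ℕ) : ℝ) - ((i₁ * s : ℕ) : ℝ)) ≤ S / a * ((y₂ : ℝ) - y₁) + S / a * (2 * s) := by
        rw [← mul_add]
        apply mul_le_mul_of_nonneg_left _ hSa0
        push_cast
        linarith
      linarith [k1.2, k2.1]
  have hlow : S / a * ((y₂ : ℝ) - y₁) - 4 * δ ≤ Wt a b c y₁ y₂ := by
    rcases Nat.lt_or_ge i₂ (i₁ + 1) with hlt | hge
    · have hi : i₂ = i₁ := by omega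
      have k5 : S / a * ((y₂ : ℝ) - y₁) ≤ S / a * (2 * s) := by
        apply mul_le_mul_of_nonneg_left _ hSa0
        rw [hi] at b4r
        linarith
      have := hW0 y₁ y₂
      linarith
    · have k1 := hFM i₂ (by omega)
      have k2 := hFM (i₁ + 1) (by omega)
      have h5 : (i₁ + 1) * s ≤ i₂ * s := Nat.mul_le_mul_right _ hge
      rw [hg₂] at k1
      rw [min_eq_left (by omega)] at k2
      have k3 := (hm ((i₁ + 1) * s) (i₂ * s) h5 (by omega)).2.1 (by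
        intro q hq
        apply hpos q
        rw [mem_Ioc] at hq ⊢
        omega)
      rw [← hMd _ _ h5] at k3
      have k4 := hmono ((i₁ + 1) * s) (i₂ * s) y₁ y₂ b2.le b3
      rw [← hFd ((i₁ + 1) * s) (i₂ * s) h5] at k4
      rw [abs_le] at k1 k2
      have k5 : S / a * ((y₂ : ℝ) - y₁) - S / a * (2 * s) ≤ S / a * (((i₂ * s : ℕ) : ℝ) - (((i₁ + 1) * s : ℕ) : ℝ)) := by
        rw [← mul_sub]
        apply mul_le_mul_of_nonneg_left _ hSa0
        push_cast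
        linarith
      linarith [k1.1, k2.2]
  rw [abs_le]
  constructor <;> linarith

end Pool.Agent.TH935.LF
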