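import Pool.Agent.TH935.LF8

set_option autoImplicit false

/-! Values of linear forms at primes in windows, for almost all members of a family of nearly minimal
additive energy: the exceptional set. -/

namespace Pool.Agent.TH935.LF

open Finset Pool.Agent.H373R2.T7
open Pool.Agent.W93.GB (vM_le)
open Pool.Agent.W93.PP (markov)

set_option maxHeartbeats 4000000 in
theorem gg_fam (h C D V U : ℕ) : ∃ X0 : ℕ, ∀ X : ℕ, X0 ≤ X → ∀ Y : ℕ, (Y : ℝ) * Real.log X ^ D ≤ X →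
    ∀ (x : ℕ) (s : ℕ → ℤ), (∀ m ∈ Icc 1 x, |s m| ≤ X ∧ s m ≠ 0) →
    (energy h x s : ℝ) * X ≤ Real.log X ^ C * (x : ℝ) ^ (2 * h) →
    ∀ S : Finset ℕ, S ⊆ Icc 1 x → (∀ m ∈ S, ¬ GG V D X Y (s m)) → (S.card : ℝ) ≤ x / Real.log X ^ U := by
  classical
  obtain ⟨U', hU'⟩ : ∃ U', U' = U + 2 * V + 3 * D + 20 := ⟨_, rfl⟩
  obtain ⟨B0, hB0⟩ := lin_mom h C U' D
  obtain ⟨E1, hE1⟩ : ∃ E1, E1 = B0 + V + 2 * D + 10 := ⟨_, rfl⟩
  obtain ⟨n1, h1⟩ := hB0 (E1 + 1)
  obtain ⟨X1, hdet⟩ := gg_det V D E1 (by omega)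
  obtain ⟨n3, h3⟩ := ev_L' 10
  refine ⟨n1 + X1 + n3 + 3, fun X hX Y hY x s hs hE S hSx hS => ?_⟩
  have c1 := h1 X (by omega) x s (fun m hm => (hs m hm).1)
  have c3 := h3 X (by omega)
  obtain ⟨L, hL⟩ : ∃ L, L = Real.log (X : ℝ) := ⟨_, rfl⟩
  rw [← hL] at c1 c3 hY hE ⊢
  have c1' := c1 hE
  have hL1 : 1 ≤ L := by linarith
  have hL0 : 0 < L := by linarith
  have hX3 : (3 : ℝ) ≤ X := by exact_mod_cast (by omega : 3 ≤ X)
  have hX0 : (0 : ℝ) < X := by linarith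
  have hY0 : (0 : ℝ) ≤ Y := Nat.cast_nonneg _
  have hYX : Y ≤ X := by
    have h5 : (Y : ℝ) ≤ X := (le_mul_of_one_le_right hY0 (one_le_pow₀ hL1)).trans hY
    exact_mod_cast h5
  have hfl : ∀ E : ℕ, L ^ E ≤ (⌈L ^ E⌉₊ : ℝ) ∧ (⌈L ^ E⌉₊ : ℝ) ≤ L ^ (E + 1) := by
    intro E
    refine ⟨Nat.le_ceil _, ?_⟩
    have h5 : (⌈L ^ E⌉₊ : ℝ) < L ^ E + 1 := Nat.ceil_lt_add_one (by positivity)
    have h6 : 1 ≤ L ^ E := one_le_pow₀ hL1
    rw [pow_succ]
    nlinarith
  obtain ⟨z, hz⟩ : ∃ z, z = ⌈L ^ E1⌉₊ := ⟨_, rfl⟩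
  obtain ⟨T, hT⟩ : ∃ T, T = ⌈L ^ (V + 4)⌉₊ := ⟨_, rfl⟩
  have hz1 : L ^ E1 ≤ z := by rw [hz]; exact (hfl E1).1
  have hz2 : (z : ℝ) ≤ L ^ (E1 + 1) := by rw [hz]; exact (hfl E1).2
  have hT1 : L ^ (V + 4) ≤ T := by rw [hT]; exact (hfl (V + 4)).1
  have hT2 : (T : ℝ) ≤ L ^ (V + 5) := by rw [hT]; exact (hfl (V + 4)).2
  obtain ⟨R, hR⟩ : ∃ R : ℕ, R = ⌊L ^ D⌋₊ := ⟨_, rfl⟩
  have hRL : (R : ℝ) ≤ L ^ D := by rw [hR]; exact Nat.floor_le (by positivity)
  obtain ⟨I, hI⟩ : ∃ I : Finset (ℕ × ℕ × ℤ), I = range (T + 1) ×ˢ range (R + 1) ×ˢ Icc (-(R : ℤ)) (R : ℤ) := ⟨_, rfl⟩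
  have hIcard : (I.card : ℝ) ≤ L ^ (V + 2 * D + 9) := by
    rw [hI, card_product, card_product, card_range, card_range, Int.card_Icc]
    have e1 : ((R : ℤ) + 1 - -(R : ℤ)).toNat = 2 * R + 1 := by omega
    rw [e1]
    push_cast
    have hLD : 1 ≤ L ^ D := one_le_pow₀ hL1
    have f1 : (T : ℝ) + 1 ≤ L ^ (V + 6) := by
      have h6 : 1 ≤ L ^ (V + 5) := one_le_pow₀ hL1
      rw [show V + 6 = (V + 5) + 1 by ring, pow_succ L (V + 5)]
      nlinarith
    have f2 : (R : ℝ) + 1 ≤ L ^ (D + 1) := by rw [pow_succ]; nlinarith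
    have f3 : 2 * (R : ℝ) + 1 ≤ L ^ (D + 1) := by rw [pow_succ]; nlinarith
    have g1 : (0 : ℝ) ≤ T := Nat.cast_nonneg _
    have g2 : (0 : ℝ) ≤ R := Nat.cast_nonneg _
    calc ((T : ℝ) + 1) * (((R : ℝ) + 1) * (2 * (R : ℝ) + 1)) ≤ L ^ (V + 6) * (L ^ (D + 1) * L ^ (D + 1)) := by gcongr
      _ = L ^ (V + 2 * D + 8) := by rw [← pow_add, ← pow_add]; congr 1; ring
      _ ≤ L ^ (V + 2 * D + 9) := pow_le_pow_right₀ hL1 (by omega)
  have key := markov (Icc 1 x) I (fun _ => (1 : ℝ)) (fun _ _ => zero_le_one)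
    (fun m i => if 1 ≤ i.2.1 ∧ i.2.2 ≠ 0 then |∑ q ∈ Icc 1 (min (i.1 * (Y / T + 1)) Y), ArithmeticFunction.vonMangoldt q *
        Dz z i.2.1 (s m + i.2.2 * q)| else 0)
    (fun _ _ => by split_ifs <;> positivity) (fun m => m ∈ S) (X / L ^ (V + 2)) (L * (X * x / L ^ U')) (by positivity) (by
      intro m hm hmS
      by_contra hcon
      push Not at hcon
      apply hS m hmS
      obtain ⟨a1, a2⟩ := hs m hm
      have a3 : (s m).natAbs ≤ X := by
        have : ((s m).natAbs : ℤ) ≤ X := by rw [Int.natCast_natAbs]; exact a1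
        exact_mod_cast this
      refine hdet X (by omega) (s m) a2 a3 Y hYX z (by rw [← hL]; exact hz1) (by rw [← hL]; exact hz2) T
        (by rw [← hL]; exact hT1) ?_
      intro i hi a b ha haL hb hbL
      rw [← hL] at haL hbL ⊢
      have haR : a ≤ R := by rw [hR]; exact Nat.le_floor haL
      have hbR : b.natAbs ≤ R := by rw [hR]; exact Nat.le_floor hbL
      have hmem : (i, a, b) ∈ I := by
        have hi' := mem_range.1 hi
        simp only [hI, mem_product, mem_range, mem_Icc]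
        omega
      have h5 := hcon (i, a, b) hmem
      simp only at h5
      rw [if_pos ⟨ha, hb⟩] at h5
      exact h5.le)
    (by
      intro i hi
      simp only [hI, mem_product, mem_range, mem_Icc] at hi
      simp only [one_mul]
      by_cases hab : 1 ≤ i.2.1 ∧ i.2.2 ≠ 0
      · simp only [if_pos hab]
        have haL : (i.2.1 : ℝ) ≤ L ^ D := by
          have : i.2.1 ≤ R := by omega
          have : (i.2.1 : ℝ) ≤ R := by exact_mod_cast this
          linarith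
        refine c1' z ?_ hz2 i.2.1 hab.1 haL i.2.2 hab.2 (min (i.1 * (Y / T + 1)) Y) ?_ L hL0
          (fun q => ArithmeticFunction.vonMangoldt q) ?_
        · exact (pow_le_pow_right₀ hL1 (by omega)).trans hz1
        · have h5 : i.2.2.natAbs ≤ R := by omega
          have h6 : i.2.2.natAbs * min (i.1 * (Y / T + 1)) Y ≤ R * Y := Nat.mul_le_mul h5 (min_le_right _ _)
          have h7 : (R : ℝ) * Y ≤ X := by
            calc (R : ℝ) * Y ≤ L ^ D * Y := mul_le_mul_of_nonneg_right hRL hY0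
              _ = Y * L ^ D := mul_comm _ _
              _ ≤ X := hY
          have h8 : R * Y ≤ X := by exact_mod_cast h7
          exact h6.trans h8
        · intro q hq
          rw [mem_Icc] at hq
          rw [abs_of_nonneg ArithmeticFunction.vonMangoldt_nonneg, hL]
          exact vM_le q X (by omega) ((hq.2.trans (min_le_right _ _)).trans hYX)
      · simp only [if_neg hab, sum_const_zero]
        positivity)
  have hleft : (S.card : ℝ) = ∑ m ∈ Icc 1 x, (if m ∈ S then (1 : ℝ) else 0) := by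
    rw [sum_ite_mem, inter_eq_right.2 hSx, sum_const, nsmul_eq_mul, mul_one]
  rw [← hleft] at key
  refine key.trans ?_
  have hx0 : (0 : ℝ) ≤ x := Nat.cast_nonneg _
  calc (I.card : ℝ) * (L * (X * x / L ^ U')) / (X / L ^ (V + 2))
      ≤ L ^ (V + 2 * D + 9) * (L * (X * x / L ^ U')) / (X / L ^ (V + 2)) := by gcongr
    _ = x * L ^ (2 * V + 2 * D + 12) / L ^ U' := by
        rw [show 2 * V + 2 * D + 12 = (V + 2 * D + 9) + 1 + (V + 2) by ring, pow_add L (V + 2 * D + 9 + 1), pow_succ L (V + 2 * D + 9)]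
        field_simp
    _ ≤ x / L ^ U := by
        rw [div_le_div_iff₀ (by positivity) (by positivity)]
        calc x * L ^ (2 * V + 2 * D + 12) * L ^ U = x * L ^ (2 * V + 2 * D + 12 + U) := by rw [pow_add]; ring
          _ ≤ x * L ^ U' := by
              apply mul_le_mul_of_nonneg_left _ hx0
              exact pow_le_pow_right₀ hL1 (by omega)

end Pool.Agent.TH935.LF
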