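import Pool.Agent.TH935.PW1
import Pool.Agent.TH935.DS13

set_option autoImplicit false

/-! Logarithmic sums with power saving errors. -/

namespace Pool.Agent.TH935.PW
open Finset Polynomial
open Pool.Agent.W93.LV (dir harm log1_nonneg)
open Pool.Agent.TH935.DS (dk dk_succ log_step pow_diff abel_log D_le)

/-- if the differences of `s` are those of a polynomial in `log n`, up to a summable error, then `s` is a polynomial in
`log n`, up to a power saving -/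
lemma PL.of_diff {m : ℕ} (s : ℕ → ℝ) (R : ℝ[X]) (hR : R.natDegree ≤ m) (C δ : ℝ) (hC : 0 ≤ C) (hδ : 0 < δ)
    (h : ∀ n : ℕ, 1 ≤ n → |(s (n + 1) - R.eval (Real.log (n + 1 : ℕ))) - (s n - R.eval (Real.log n))| ≤ C * (n : ℝ) ^ (-(1 + δ))) :
    PL m (fun y => s ⌊y⌋₊) := by
  obtain ⟨L, D, hD, h1⟩ := seq_lim (fun n => s n - R.eval (Real.log n)) C δ hC hδ (fun n hn => h n hn)
  apply PL.of_seq s (R + Polynomial.C L) _ D δ hD hδ
  · intro n hn
    have := h1 n hn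
    rw [eval_add, eval_C]
    rw [sub_sub] at this
    exact this
  · refine (natDegree_add_le _ _).trans (max_le hR ?_)
    rw [natDegree_C]
    omega

lemma log_succ_le (n : ℕ) (hn : 1 ≤ n) : ((n + 1 : ℕ) : ℝ) ^ (1 / 2 : ℝ) ≤ 2 * (n : ℝ) ^ (1 / 2 : ℝ) := by
  have hn1 : (1 : ℝ) ≤ n := by exact_mod_cast hn
  have h1 : ((n + 1 : ℕ) : ℝ) ≤ 4 * n := by push_cast; linarith
  have h2 : ((n + 1 : ℕ) : ℝ) ^ (1 / 2 : ℝ) ≤ (4 * (n : ℝ)) ^ (1 / 2 : ℝ) := Real.rpow_le_rpow (by positivity) h1 (by norm_num)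
  refine h2.trans (le_of_eq ?_)
  rw [Real.mul_rpow (by norm_num) (by positivity)]
  congr 1
  rw [show (4 : ℝ) = 2 ^ (2 : ℝ) by norm_num, ← Real.rpow_mul (by norm_num)]
  norm_num

/-- the sums of `log ^ j k / k` -/
theorem logsum_PL (j : ℕ) : PL (j + 1) (fun y => ∑ k ∈ Icc 1 ⌊y⌋₊, Real.log k ^ j / k) := by
  obtain ⟨L, hL, hl⟩ := poly_lip (X ^ j : ℝ[X])
  obtain ⟨c, hc, h2⟩ := poly_bd ((1 + 2 * X : ℝ[X]) ^ j) (1 / 2) (by norm_num)
  apply PL.of_diff (fun n => ∑ k ∈ Icc 1 n, Real.log k ^ j / k) (Polynomial.C (1 / ((j : ℝ) + 1)) * X ^ (j + 1))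
    ((natDegree_C_mul_le _ _).trans (by rw [natDegree_X_pow])) ((L + 1) * (2 * c)) (1 / 2) (by positivity) (by norm_num)
  intro n hn
  have hn0 : (0 : ℝ) < n := by exact_mod_cast hn
  have hn1 : (1 : ℝ) ≤ n := by exact_mod_cast hn
  rw [sum_Icc_succ_top (by omega)]
  simp only [eval_mul, eval_C, eval_pow, eval_X]
  obtain ⟨s1, s2⟩ := log_step n hn
  obtain ⟨u, hu⟩ : ∃ u, u = Real.log (n + 1 : ℕ) := ⟨_, rfl⟩
  obtain ⟨v, hv⟩ : ∃ v, v = Real.log n := ⟨_, rfl⟩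
  rw [← hu, ← hv] at s1 s2 ⊢
  have hv0 : 0 ≤ v := by rw [hv]; exact Real.log_nonneg hn1
  have hn10 : (0 : ℝ) < (n : ℝ) + 1 := by positivity
  have hw : 0 < u - v := lt_of_lt_of_le (by positivity) s1
  have huv : v ≤ u := by linarith
  obtain ⟨p1, p2⟩ := pow_diff j hv0 huv
  have hj : (0 : ℝ) < (j : ℝ) + 1 := by positivity
  have hl1 := hl u v
  simp only [eval_pow, eval_X, natDegree_X_pow] at hl1
  have hu0 : 0 ≤ u := hv0.trans huv
  rw [abs_of_nonneg (pow_le_pow_left₀ hv0 huv j |> sub_nonneg.2), abs_of_pos hw, abs_of_nonneg hu0, abs_of_nonneg hv0] at hl1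
  obtain ⟨B, hB⟩ : ∃ B, B = (1 + 2 * u) ^ j := ⟨_, rfl⟩
  have hB1 : (1 + u + v) ^ j ≤ B := by rw [hB]; exact pow_le_pow_left₀ (by linarith) (by linarith) j
  have hB2 : u ^ j ≤ B := by rw [hB]; exact pow_le_pow_left₀ hu0 (by linarith) j
  have hB0 : 0 ≤ B := by rw [hB]; positivity
  have hBn : B ≤ 2 * c * (n : ℝ) ^ (1 / 2 : ℝ) := by
    have h3 := h2 ((n + 1 : ℕ) : ℝ) (by push_cast; linarith)
    rw [eval_pow, eval_add, eval_mul, eval_X, eval_one, eval_ofNat, ← hu, ← hB, abs_of_nonneg hB0] at h3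
    calc B ≤ c * ((n + 1 : ℕ) : ℝ) ^ (1 / 2 : ℝ) := h3
      _ ≤ c * (2 * (n : ℝ) ^ (1 / 2 : ℝ)) := mul_le_mul_of_nonneg_left (log_succ_le n hn) hc
      _ = _ := by ring
  have e1 : ∑ k ∈ Icc 1 n, Real.log k ^ j / k + u ^ j / ((n + 1 : ℕ) : ℝ) - 1 / ((j : ℝ) + 1) * u ^ (j + 1) -
      (∑ k ∈ Icc 1 n, Real.log k ^ j / k - 1 / ((j : ℝ) + 1) * v ^ (j + 1)) =
      u ^ j / ((n : ℝ) + 1) - (u ^ (j + 1) - v ^ (j + 1)) / ((j : ℝ) + 1) := by
    push_cast
    ring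
  rw [e1]
  have q1 : v ^ j * (u - v) ≤ (u ^ (j + 1) - v ^ (j + 1)) / ((j : ℝ) + 1) := by
    rw [le_div_iff₀ hj]; linarith
  have q2 : (u ^ (j + 1) - v ^ (j + 1)) / ((j : ℝ) + 1) ≤ u ^ j * (u - v) := by
    rw [div_le_iff₀ hj]; linarith
  have hnn : (0 : ℝ) < (n : ℝ) * ((n : ℝ) + 1) := by positivity
  have key : |u ^ j / ((n : ℝ) + 1) - (u ^ (j + 1) - v ^ (j + 1)) / ((j : ℝ) + 1)| ≤ (L + 1) * B / (n * ((n : ℝ) + 1)) := by
    rw [abs_le]
    constructor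
    · have a1 : u ^ j * (u - v) ≤ u ^ j * (1 / n) := mul_le_mul_of_nonneg_left s2 (pow_nonneg hu0 j)
      have a2 : u ^ j * (1 / n) - u ^ j / ((n : ℝ) + 1) = u ^ j / (n * ((n : ℝ) + 1)) := by field_simp; ring
      have a3 : u ^ j / (n * ((n : ℝ) + 1)) ≤ (L + 1) * B / (n * ((n : ℝ) + 1)) := by
        apply div_le_div_of_nonneg_right _ hnn.le
        nlinarith
      linarith
    · have a1 : v ^ j / ((n : ℝ) + 1) ≤ v ^ j * (u - v) := by
        rw [div_eq_mul_one_div]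
        exact mul_le_mul_of_nonneg_left s1 (pow_nonneg hv0 j)
      have a2 : (u ^ j - v ^ j) / ((n : ℝ) + 1) ≤ L * B / (n * ((n : ℝ) + 1)) := by
        rw [div_le_div_iff₀ hn10 hnn]
        have a3 : (u - v) * n ≤ 1 := by
          have := mul_le_mul_of_nonneg_right s2 hn0.le
          rwa [one_div, inv_mul_cancel₀ hn0.ne'] at this
        have a4 : (u ^ j - v ^ j) * n ≤ L * B := by
          calc (u ^ j - v ^ j) * n ≤ (L * ((u - v) * (1 + u + v) ^ j)) * n := mul_le_mul_of_nonneg_right hl1 hn0.le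
            _ = L * (((u - v) * n) * (1 + u + v) ^ j) := by ring
            _ ≤ L * (1 * B) := by
                apply mul_le_mul_of_nonneg_left _ hL
                exact mul_le_mul a3 hB1 (by positivity) zero_le_one
            _ = L * B := by ring
        calc (u ^ j - v ^ j) * (n * ((n : ℝ) + 1)) = ((u ^ j - v ^ j) * n) * ((n : ℝ) + 1) := by ring
          _ ≤ (L * B) * ((n : ℝ) + 1) := mul_le_mul_of_nonneg_right a4 hn10.le
      have a5 : L * B / (n * ((n : ℝ) + 1)) ≤ (L + 1) * B / (n * ((n : ℝ) + 1)) := by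
        apply div_le_div_of_nonneg_right _ hnn.le
        nlinarith
      have a6 : u ^ j / ((n : ℝ) + 1) - v ^ j / ((n : ℝ) + 1) = (u ^ j - v ^ j) / ((n : ℝ) + 1) := by ring
      linarith
  refine key.trans ?_
  have h5 : (L + 1) * B / (n * ((n : ℝ) + 1)) ≤ (L + 1) * (2 * c * (n : ℝ) ^ (1 / 2 : ℝ)) / (n * n) := by
    apply div_le_div₀ (by positivity) (mul_le_mul_of_nonneg_left hBn (by positivity)) (by positivity)
    nlinarith
  refine h5.trans (le_of_eq ?_)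
  have h6 : (n : ℝ) ^ (-(1 + 1 / 2) : ℝ) = (n : ℝ) ^ (1 / 2 : ℝ) / (n * n) := by
    rw [eq_div_iff (by positivity), show (n : ℝ) * n = (n : ℝ) ^ (2 : ℝ) by rw [Real.rpow_two]; ring, ← Real.rpow_add hn0]
    norm_num
  rw [h6]
  ring

/-- the sums of `P(log k) / k` -/
theorem polysum_PL (P : ℝ[X]) (m : ℕ) (hP : P.natDegree ≤ m) : PL (m + 1) (fun y => ∑ k ∈ Icc 1 ⌊y⌋₊, P.eval (Real.log k) / k) := by
  have h1 : PL (m + 1) (fun y => ∑ i ∈ range (P.natDegree + 1), P.coeff i * ∑ k ∈ Icc 1 ⌊y⌋₊, Real.log k ^ i / k) := by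
    apply PL.sum
    intro i hi
    rw [mem_range] at hi
    exact ((logsum_PL i).mono (by omega)).smul _
  apply h1.eq
  intro y _
  have e : ∀ k ∈ Icc 1 ⌊y⌋₊, P.eval (Real.log k) / k = ∑ i ∈ range (P.natDegree + 1), P.coeff i * (Real.log k ^ i / k) := by
    intro k _
    rw [eval_eq_sum_range, sum_div]
    apply sum_congr rfl
    intro i _
    ring
  rw [sum_congr rfl e, sum_comm]
  apply sum_congr rfl
  intro i _
  rw [mul_sum]

lemma floor_one {y : ℝ} (hy : 1 ≤ y) : 1 ≤ ⌊y⌋₊ := Nat.le_floor (by simpa using hy)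

/-- `⌊y⌋ / y` -/
lemma floor_PL (m : ℕ) : PL m (fun y => (⌊y⌋₊ : ℝ) / y) := by
  apply (PL.const 1 m).congr_err 1 1 zero_le_one one_pos
  intro y hy
  have hy0 : 0 < y := by linarith
  have h1 := Nat.floor_le hy0.le
  have h2 := Nat.lt_floor_add_one y
  rw [Real.rpow_neg_one, one_mul, div_sub_one hy0.ne', abs_div, abs_of_pos hy0, abs_of_nonpos (by linarith), inv_eq_one_div]
  apply div_le_div_of_nonneg_right _ hy0.le
  linarith

/-- `y / (⌊y⌋ + 1)` -/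
lemma floor_PL' (m : ℕ) : PL m (fun y => y / ((⌊y⌋₊ : ℝ) + 1)) := by
  apply (PL.const 1 m).congr_err 1 1 zero_le_one one_pos
  intro y hy
  have hy0 : 0 < y := by linarith
  have h1 := Nat.floor_le hy0.le
  have h2 := Nat.lt_floor_add_one y
  have h3 : (0 : ℝ) < (⌊y⌋₊ : ℝ) + 1 := by positivity
  rw [Real.rpow_neg_one, one_mul, div_sub_one h3.ne', abs_div, abs_of_pos h3, abs_of_nonpos (by linarith), inv_eq_one_div]
  apply div_le_div₀ zero_le_one (by linarith) hy0 (by linarith)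

/-- partial summation -/
theorem avg_PL {m : ℕ} (a : ℕ → ℝ) (h : PL m (fun y => (∑ k ∈ Icc 1 ⌊y⌋₊, a k) / y)) :
    PL (m + 1) (fun y => ∑ k ∈ Icc 1 ⌊y⌋₊, a k / k) := by
  obtain ⟨A, hA⟩ : ∃ A : ℕ → ℝ, A = fun n => ∑ k ∈ Icc 1 n, a k := ⟨_, rfl⟩
  have e1 : ∀ y : ℝ, 1 ≤ y → ∑ k ∈ Icc 1 ⌊y⌋₊, a k / k = (A ⌊y⌋₊ / y) * (y / ((⌊y⌋₊ : ℝ) + 1)) +
      ∑ k ∈ Icc 1 ⌊y⌋₊, A k / ((k : ℝ) * (k + 1)) := by
    intro y hy
    have hy0 : 0 < y := by linarith
    have h3 : (0 : ℝ) < (⌊y⌋₊ : ℝ) + 1 := by positivity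
    rw [abel_log a ⌊y⌋₊, hA]
    congr 1
    field_simp
  have hA' : PL m (fun y => A ⌊y⌋₊ / y) := by rw [hA]; exact h
  have h1 : PL (m + 1) (fun y => (A ⌊y⌋₊ / y) * (y / ((⌊y⌋₊ : ℝ) + 1))) := by
    have := hA'.mul (floor_PL' 1)
    exact this
  obtain ⟨P, hP, D, δ, hD, hδ, h2⟩ := hA'
  have h3 : PL (m + 1) (fun y => ∑ k ∈ Icc 1 ⌊y⌋₊, (A k / ((k : ℝ) * (k + 1)) - P.eval (Real.log k) / k)) := by
    obtain ⟨c, hc, h5⟩ := poly_bd P (1 / 2) (by norm_num)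
    obtain ⟨e, he⟩ : ∃ e, e = min δ (1 / 2) := ⟨_, rfl⟩
    have he0 : 0 < e := by rw [he]; exact lt_min hδ (by norm_num)
    apply PL.of_diff (fun n => ∑ k ∈ Icc 1 n, (A k / ((k : ℝ) * (k + 1)) - P.eval (Real.log k) / k)) 0 (by simp) (D + 2 * c) e
      (by positivity) he0
    intro n hn
    have hn0 : (0 : ℝ) < n := by exact_mod_cast hn
    have hn1 : (1 : ℝ) ≤ n := by exact_mod_cast hn
    rw [sum_Icc_succ_top (by omega)]
    simp only [eval_zero, sub_zero, add_sub_cancel_left]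
    obtain ⟨N, hN⟩ : ∃ N : ℕ, N = n + 1 := ⟨_, rfl⟩
    rw [← hN]
    have hNn : (N : ℝ) = n + 1 := by rw [hN]; push_cast; ring
    have hN0 : (0 : ℝ) < N := by rw [hNn]; positivity
    have hN1 : (1 : ℝ) ≤ N := by rw [hNn]; linarith
    have h6 := h2 N hN1
    simp only [Nat.floor_natCast] at h6
    have h7 := h5 N hN1
    have e2 : A N / ((N : ℝ) * (N + 1)) - P.eval (Real.log N) / N =
        (A N / N - P.eval (Real.log N)) / (N + 1) - P.eval (Real.log N) / (N * (N + 1)) := by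
      field_simp
      ring
    rw [e2]
    refine (abs_sub _ _).trans ?_
    rw [add_mul, abs_div, abs_div, abs_of_pos (by positivity : (0 : ℝ) < N + 1), abs_of_pos (by positivity : (0 : ℝ) < N * (N + 1))]
    have hpow : ∀ t : ℝ, e ≤ t → (N : ℝ) ^ (-t) ≤ (n : ℝ) ^ (-e) := by
      intro t ht
      calc (N : ℝ) ^ (-t) ≤ (N : ℝ) ^ (-e) := rp_mono hN1 ht
        _ ≤ (n : ℝ) ^ (-e) := by
            rw [Real.rpow_neg hN0.le, Real.rpow_neg hn0.le]
            apply inv_anti₀ (Real.rpow_pos_of_pos hn0 _)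
            exact Real.rpow_le_rpow hn0.le (by rw [hNn]; linarith) he0.le
    have hsplit : (n : ℝ) ^ (-(1 + e)) = (n : ℝ) ^ (-e) / n := by
      rw [show -(1 + e) = -e + -1 by ring, Real.rpow_add hn0, Real.rpow_neg_one, div_eq_mul_inv]
    rw [hsplit]
    apply add_le_add
    · calc |A N / N - P.eval (Real.log N)| / (N + 1) ≤ (D * (n : ℝ) ^ (-e)) / n := by
            apply div_le_div₀ (by positivity) _ hn0 (by rw [hNn]; linarith)
            exact h6.trans (mul_le_mul_of_nonneg_left (hpow δ (by rw [he]; exact min_le_left _ _)) hD)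
        _ = D * ((n : ℝ) ^ (-e) / n) := by ring
    · have h8 : |P.eval (Real.log N)| / (N * (N + 1)) ≤ (c * (N : ℝ) ^ (1 / 2 : ℝ)) / (N * n) := by
        apply div_le_div₀ (by positivity) h7 (by positivity)
        apply mul_le_mul_of_nonneg_left _ hN0.le
        rw [hNn]; linarith
      have h9 : (c * (N : ℝ) ^ (1 / 2 : ℝ)) / (N * n) = c * (N : ℝ) ^ (-(1 / 2) : ℝ) / n := by
        have : (N : ℝ) ^ (-(1 / 2) : ℝ) = (N : ℝ) ^ (1 / 2 : ℝ) / N := by
          rw [eq_div_iff hN0.ne']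
          nth_rewrite 2 [← Real.rpow_one (N : ℝ)]
          rw [← Real.rpow_add hN0]
          norm_num
        rw [this]
        field_simp
      rw [h9] at h8
      refine h8.trans ?_
      have h10 := hpow (1 / 2) (by rw [he]; exact min_le_right _ _)
      calc c * (N : ℝ) ^ (-(1 / 2) : ℝ) / n ≤ c * (n : ℝ) ^ (-e) / n :=
            div_le_div_of_nonneg_right (mul_le_mul_of_nonneg_left h10 hc) hn0.le
        _ ≤ 2 * c * ((n : ℝ) ^ (-e) / n) := by
            have : 0 ≤ c * ((n : ℝ) ^ (-e) / n) := by positivity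
            calc c * (n : ℝ) ^ (-e) / n = c * ((n : ℝ) ^ (-e) / n) := by ring
              _ ≤ 2 * c * ((n : ℝ) ^ (-e) / n) := by linarith
  have h4 := (h3.add (polysum_PL P m hP)).add h1
  apply h4.eq
  intro y hy
  rw [e1 y hy, sum_sub_distrib]
  ring

end Pool.Agent.TH935.PW
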