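import Pool.Agent.TH935.PW2

set_option autoImplicit false

/-! The divisor problem of Piltz with a power saving. -/

namespace Pool.Agent.TH935.PW
open Finset Polynomial
open Pool.Agent.W93.LV (dir harm log1_nonneg)
open Pool.Agent.TH935.DS (dk dk_succ log_step pow_diff abel_log D_le)

/-- the summatory function of `d_r` -/
noncomputable def SD (r X : ℕ) : ℝ := ∑ n ∈ Icc 1 X, (dk r n : ℝ)

lemma SD_nonneg (r X : ℕ) : 0 ≤ SD r X := sum_nonneg fun _ _ => by positivity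

lemma SD_le (r X : ℕ) (hr : 1 ≤ r) : SD r X ≤ X * (1 + Real.log X) ^ (r - 1) := D_le r X hr

/-- the hyperbola method -/
lemma hyper (r X K : ℕ) (h1 : K * K ≤ X) (h2 : X < (K + 1) * (K + 1)) :
    SD (r + 1) X = ∑ k ∈ Icc 1 K, SD r (X / k) + ∑ m ∈ Icc 1 K, (dk r m : ℝ) * (((X / m : ℕ) : ℝ) - K) := by
  have e1 : SD (r + 1) X = ∑ d ∈ Icc 1 X, (dk r d : ℝ) * ((X / d : ℕ) : ℝ) := by
    unfold SD
    have e := dir X (fun d _ => (dk r d : ℝ))
    have e2 : ∀ n ∈ Icc 1 X, (dk (r + 1) n : ℝ) = ∑ d ∈ n.divisors, (dk r d : ℝ) := by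
      intro n _
      rw [dk_succ]
      push_cast
      rfl
    rw [sum_congr rfl e2, e]
    apply sum_congr rfl
    intro d _
    rw [sum_const, nsmul_eq_mul, Nat.card_Icc, Nat.add_sub_cancel]
    ring
  have e2 : ∀ d ∈ Icc 1 X, (dk r d : ℝ) * ((X / d : ℕ) : ℝ) = (dk r d : ℝ) * ((min K (X / d) : ℕ) : ℝ) +
      (dk r d : ℝ) * ((X / d - K : ℕ) : ℝ) := by
    intro d _
    rw [← mul_add, ← Nat.cast_add]
    congr 2
    omega
  rw [e1, sum_congr rfl e2, sum_add_distrib]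
  congr 1
  · have e3 : ∀ d ∈ Icc 1 X, (dk r d : ℝ) * ((min K (X / d) : ℕ) : ℝ) = ∑ k ∈ Icc 1 K, if k * d ≤ X then (dk r d : ℝ) else 0 := by
      intro d hd
      rw [mem_Icc] at hd
      rw [← sum_filter, sum_const, nsmul_eq_mul, mul_comm]
      congr 2
      have : (Icc 1 K).filter (fun k => k * d ≤ X) = Icc 1 (min K (X / d)) := by
        ext k
        rw [mem_filter, mem_Icc, mem_Icc, le_min_iff, Nat.le_div_iff_mul_le (by omega)]
        tauto
      rw [this, Nat.card_Icc, Nat.add_sub_cancel]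
    rw [sum_congr rfl e3, sum_comm]
    apply sum_congr rfl
    intro k hk
    rw [mem_Icc] at hk
    unfold SD
    rw [← sum_filter]
    apply sum_congr _ (fun _ _ => rfl)
    ext d
    rw [mem_filter, mem_Icc, mem_Icc, Nat.le_div_iff_mul_le (by omega), mul_comm k d]
    constructor
    · rintro ⟨⟨a, b⟩, c⟩; exact ⟨a, c⟩
    · rintro ⟨a, c⟩
      refine ⟨⟨a, ?_⟩, c⟩
      exact le_trans (Nat.le_mul_of_pos_right d (by omega)) c
  · symm
    have hsub : Icc 1 K ⊆ Icc 1 X := by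
      apply Icc_subset_Icc_right
      nlinarith
    have e4 : ∀ m ∈ Icc 1 K, (dk r m : ℝ) * (((X / m : ℕ) : ℝ) - K) = (dk r m : ℝ) * ((X / m - K : ℕ) : ℝ) := by
      intro m hm
      rw [mem_Icc] at hm
      have : K ≤ X / m := by
        rw [Nat.le_div_iff_mul_le (by omega)]
        exact le_trans (Nat.mul_le_mul_left K hm.2) h1
      rw [Nat.cast_sub this]
    rw [sum_congr rfl e4]
    apply sum_subset hsub
    intro m hm hm'
    rw [mem_Icc] at hm hm'
    have h3 : K < m := by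
      by_contra hc
      exact hm' ⟨hm.1, by omega⟩
    have h4 : X / m ≤ K := by
      have h5 : X / m < K + 1 := by
        rw [Nat.div_lt_iff_lt_mul (by omega)]
        exact lt_of_lt_of_le h2 (Nat.mul_le_mul_left _ h3)
      omega
    rw [Nat.sub_eq_zero_of_le h4]
    simp

lemma K_props {y : ℝ} (hy : 1 ≤ y) : ⌊Real.sqrt y⌋₊ * ⌊Real.sqrt y⌋₊ ≤ ⌊y⌋₊ ∧ ⌊y⌋₊ < (⌊Real.sqrt y⌋₊ + 1) * (⌊Real.sqrt y⌋₊ + 1) := by
  have hy0 : 0 ≤ y := by linarith
  have hs := Real.sqrt_nonneg y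
  have h1 := Nat.floor_le hs
  have h2 := Nat.lt_floor_add_one (Real.sqrt y)
  have h3 := Real.mul_self_sqrt hy0
  constructor
  · apply Nat.le_floor
    push_cast
    nlinarith
  · rw [Nat.floor_lt hy0]
    push_cast
    nlinarith

/-- the main part of the first sum in the hyperbola method -/
lemma conv_PL (P : ℝ[X]) (m : ℕ) (hP : P.natDegree ≤ m) :
    PL (m + 1) (fun y => ∑ k ∈ Icc 1 ⌊Real.sqrt y⌋₊, P.eval (Real.log (y / k)) / k) := by
  have h1 : PL (m + 1) (fun y => ∑ i ∈ range (P.natDegree + 1), ∑ l ∈ range (i + 1), P.coeff i * ((-1) ^ (i - l) * (i.choose l : ℝ)) *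
      ((X ^ l : ℝ[X]).eval (Real.log y) * ∑ k ∈ Icc 1 ⌊Real.sqrt y⌋₊, Real.log k ^ (i - l) / k)) := by
    apply PL.sum
    intro i hi
    apply PL.sum
    intro l hl
    rw [mem_range] at hi hl
    have h2 := (PL.of_poly (X ^ l) l (by rw [natDegree_X_pow])).mul (logsum_PL (i - l)).sqrt
    exact (h2.smul _).mono (by omega)
  apply h1.eq
  intro y hy
  have e : ∀ k ∈ Icc 1 ⌊Real.sqrt y⌋₊, P.eval (Real.log (y / k)) / k = ∑ i ∈ range (P.natDegree + 1), ∑ l ∈ range (i + 1),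
      P.coeff i * ((-1) ^ (i - l) * (i.choose l : ℝ)) * ((X ^ l : ℝ[X]).eval (Real.log y) * (Real.log k ^ (i - l) / k)) := by
    intro k hk
    rw [mem_Icc] at hk
    have hk0 : (k : ℝ) ≠ 0 := by
      have : 0 < k := by omega
      positivity
    rw [Real.log_div (by linarith) hk0, eval_eq_sum_range, sum_div]
    apply sum_congr rfl
    intro i _
    rw [sub_eq_add_neg, add_pow, mul_sum, sum_div]
    apply sum_congr rfl
    intro l _
    rw [eval_pow, eval_X, neg_pow]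
    ring
  rw [sum_congr rfl e, sum_comm]
  apply sum_congr rfl
  intro i _
  rw [sum_comm]
  apply sum_congr rfl
  intro l _
  rw [mul_sum, mul_sum]

/-- **the divisor problem of Piltz with a power saving** -/
theorem piltz (r : ℕ) : PL r (fun y => SD (r + 1) ⌊y⌋₊ / y) := by
  induction r with
  | zero =>
    have h : ∀ y : ℝ, 1 ≤ y → SD (0 + 1) ⌊y⌋₊ / y = (⌊y⌋₊ : ℝ) / y := by
      intro y _
      congr 1
      unfold SD
      have e : ∀ n ∈ Icc 1 ⌊y⌋₊, (dk (0 + 1) n : ℝ) = 1 := by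
        intro n hn
        rw [mem_Icc] at hn
        unfold dk
        rw [zero_add, pow_one, ArithmeticFunction.zeta_apply, if_neg (by omega), Nat.cast_one]
      rw [sum_congr rfl e, sum_const, nsmul_eq_mul, Nat.card_Icc, Nat.add_sub_cancel, mul_one]
    exact (floor_PL 0).eq h
  | succ r ih =>
    -- the two parts
    have hB : PL (r + 1) (fun y => ∑ m ∈ Icc 1 ⌊Real.sqrt y⌋₊, (dk (r + 1) m : ℝ) / m) := (avg_PL (fun n => (dk (r + 1) n : ℝ)) ih).sqrt
    have hT : PL (r + 1) (fun y => (SD (r + 1) ⌊Real.sqrt y⌋₊ / Real.sqrt y) * ((⌊Real.sqrt y⌋₊ : ℝ) / Real.sqrt y)) :=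
      (ih.sqrt.mul (floor_PL 0).sqrt).mono (by omega)
    obtain ⟨P, hP, C, δ, hC, hδ, h1⟩ := ih
    have hA := conv_PL P r hP
    obtain ⟨ε, hε⟩ : ∃ ε, ε = min (δ / 4) (1 / 4) := ⟨_, rfl⟩
    have hε0 : 0 < ε := by rw [hε]; exact lt_min (by positivity) (by norm_num)
    obtain ⟨c1, hc1, hl1⟩ := poly_bd (1 + X : ℝ[X]) ε hε0
    obtain ⟨c2, hc2, hl2⟩ := poly_bd ((1 + X : ℝ[X]) ^ r) (1 / 4) (by norm_num)
    have hmain := (hA.add hB).add (hT.smul (-1))
    apply hmain.congr_err (C * c1 + c2) ε (by positivity) hε0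
    intro y hy
    have hy0 : 0 < y := by linarith
    obtain ⟨K, hK⟩ : ∃ K, K = ⌊Real.sqrt y⌋₊ := ⟨_, rfl⟩
    obtain ⟨k1, k2⟩ := K_props hy
    rw [← hK] at k1 k2
    have hs0 : 0 < Real.sqrt y := Real.sqrt_pos.2 hy0
    have hss : Real.sqrt y * Real.sqrt y = y := Real.mul_self_sqrt hy0.le
    have hs1 : 1 ≤ Real.sqrt y := by rw [← Real.sqrt_one]; exact Real.sqrt_le_sqrt hy
    have hKs : (K : ℝ) ≤ Real.sqrt y := by rw [hK]; exact Nat.floor_le hs0.le
    have hK1 : 1 ≤ K := by rw [hK]; exact floor_one hs1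
    have hK1' : (1 : ℝ) ≤ K := by exact_mod_cast hK1
    have hsy : Real.sqrt y ≤ y := by nlinarith
    have hX := Nat.floor_le hy0.le
    have hX' := Nat.lt_floor_add_one y
    rw [hyper (r + 1) ⌊y⌋₊ K k1 k2]
    rw [← hK]
    have hlogK : Real.log K ≤ Real.log y := Real.log_le_log (by linarith) (hKs.trans hsy)
    have hlK0 : 0 ≤ Real.log K := Real.log_nonneg hK1'
    -- first part
    have hP1 : |(∑ k ∈ Icc 1 K, SD (r + 1) (⌊y⌋₊ / k)) / y - ∑ k ∈ Icc 1 K, P.eval (Real.log (y / k)) / k| ≤ C * c1 * y ^ (-ε) := by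
      rw [sum_div, ← sum_sub_distrib]
      have e3 : ∀ k ∈ Icc 1 K, |SD (r + 1) (⌊y⌋₊ / k) / y - P.eval (Real.log (y / k)) / k| ≤ C * y ^ (-(2 * ε)) * (1 / k) := by
        intro k hk
        rw [mem_Icc] at hk
        have hk0 : (0 : ℝ) < k := by
          have : 0 < k := by omega
          positivity
        have hkK : (k : ℝ) ≤ K := by exact_mod_cast hk.2
        have hks : (k : ℝ) ≤ Real.sqrt y := hkK.trans hKs
        have hyk : Real.sqrt y ≤ y / k := by
          rw [le_div_iff₀ hk0]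
          nlinarith
        have h2 : |SD (r + 1) ⌊y / k⌋₊ / (y / k) - P.eval (Real.log (y / k))| ≤ C * (y / k) ^ (-δ) := h1 (y / k) (hs1.trans hyk)
        rw [Nat.floor_div_natCast] at h2
        have e4 : SD (r + 1) (⌊y⌋₊ / k) / y - P.eval (Real.log (y / k)) / k =
            (SD (r + 1) (⌊y⌋₊ / k) / (y / k) - P.eval (Real.log (y / k))) * (1 / k) := by
          field_simp
        rw [e4, abs_mul, abs_of_pos (by positivity : (0 : ℝ) < 1 / k)]
        apply mul_le_mul_of_nonneg_right _ (by positivity)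
        refine h2.trans (mul_le_mul_of_nonneg_left ?_ hC)
        have h5 : (y / k) ^ (-δ) ≤ (Real.sqrt y) ^ (-δ) := by
          rw [Real.rpow_neg (by positivity), Real.rpow_neg hs0.le]
          apply inv_anti₀ (Real.rpow_pos_of_pos hs0 _)
          exact Real.rpow_le_rpow hs0.le hyk hδ.le
        refine h5.trans ?_
        rw [Real.sqrt_eq_rpow, ← Real.rpow_mul hy0.le]
        apply Real.rpow_le_rpow_of_exponent_le hy
        have := min_le_left (δ / 4) (1 / 4)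
        rw [← hε] at this
        linarith
      refine (abs_sum_le_sum_abs _ _).trans ((sum_le_sum e3).trans ?_)
      rw [← mul_sum]
      have h6 : ∑ k ∈ Icc 1 K, (1 : ℝ) / k ≤ c1 * y ^ ε := by
        refine (harm K).trans ?_
        have h7 := hl1 y hy
        rw [eval_add, eval_one, eval_X] at h7
        have := (le_abs_self _).trans h7
        linarith
      calc C * y ^ (-(2 * ε)) * ∑ k ∈ Icc 1 K, (1 : ℝ) / k ≤ C * y ^ (-(2 * ε)) * (c1 * y ^ ε) :=
            mul_le_mul_of_nonneg_left h6 (by positivity)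
        _ = C * c1 * (y ^ (-(2 * ε)) * y ^ ε) := by ring
        _ = C * c1 * y ^ (-ε) := by rw [← Real.rpow_add hy0]; congr 2; ring
    -- second part
    have hP2 : |(∑ m ∈ Icc 1 K, (dk (r + 1) m : ℝ) * (((⌊y⌋₊ / m : ℕ) : ℝ) - K)) / y -
        (∑ m ∈ Icc 1 K, (dk (r + 1) m : ℝ) / m + -1 * ((SD (r + 1) K / Real.sqrt y) * ((K : ℝ) / Real.sqrt y)))| ≤ c2 * y ^ (-ε) := by
      have e5 : (∑ m ∈ Icc 1 K, (dk (r + 1) m : ℝ) * (((⌊y⌋₊ / m : ℕ) : ℝ) - K)) / y -
          (∑ m ∈ Icc 1 K, (dk (r + 1) m : ℝ) / m + -1 * ((SD (r + 1) K / Real.sqrt y) * ((K : ℝ) / Real.sqrt y))) =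
          (∑ m ∈ Icc 1 K, (dk (r + 1) m : ℝ) * (((⌊y⌋₊ / m : ℕ) : ℝ) - y / m)) / y := by
        have e6 : ∑ m ∈ Icc 1 K, (dk (r + 1) m : ℝ) * (((⌊y⌋₊ / m : ℕ) : ℝ) - y / m) =
            ∑ m ∈ Icc 1 K, (dk (r + 1) m : ℝ) * (((⌊y⌋₊ / m : ℕ) : ℝ) - K) - y * ∑ m ∈ Icc 1 K, (dk (r + 1) m : ℝ) / m + K * SD (r + 1) K := by
          unfold SD
          rw [mul_sum, mul_sum, ← sum_sub_distrib, ← sum_add_distrib]
          apply sum_congr rfl
          intro m _
          ring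
        rw [e6, div_mul_div_comm, hss]
        field_simp
        ring
      rw [e5, abs_div, abs_of_pos hy0]
      have h7 : |∑ m ∈ Icc 1 K, (dk (r + 1) m : ℝ) * (((⌊y⌋₊ / m : ℕ) : ℝ) - y / m)| ≤ SD (r + 1) K := by
        refine (abs_sum_le_sum_abs _ _).trans (sum_le_sum fun m hm => ?_)
        rw [mem_Icc] at hm
        have hm0 : (0 : ℝ) < m := by
          have : 0 < m := by omega
          positivity
        rw [abs_mul, abs_of_nonneg (Nat.cast_nonneg _)]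
        have h8 : |((⌊y⌋₊ / m : ℕ) : ℝ) - y / m| ≤ 1 := by
          rw [← Nat.floor_div_natCast]
          have a1 := Nat.floor_le (by positivity : 0 ≤ y / m)
          have a2 := Nat.lt_floor_add_one (y / m)
          rw [abs_le]
          constructor <;> linarith
        calc (dk (r + 1) m : ℝ) * |((⌊y⌋₊ / m : ℕ) : ℝ) - y / m| ≤ (dk (r + 1) m : ℝ) * 1 := mul_le_mul_of_nonneg_left h8 (Nat.cast_nonneg _)
          _ = _ := mul_one _
      have h9 : SD (r + 1) K ≤ Real.sqrt y * (c2 * y ^ (1 / 4 : ℝ)) := by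
        refine (SD_le (r + 1) K (by omega)).trans ?_
        rw [Nat.add_sub_cancel]
        apply mul_le_mul hKs _ (by positivity) hs0.le
        have h10 := hl2 y hy
        rw [eval_pow, eval_add, eval_one, eval_X] at h10
        refine le_trans ?_ ((le_abs_self _).trans h10)
        exact pow_le_pow_left₀ (by linarith) (by linarith) r
      calc |∑ m ∈ Icc 1 K, (dk (r + 1) m : ℝ) * (((⌊y⌋₊ / m : ℕ) : ℝ) - y / m)| / y ≤ (Real.sqrt y * (c2 * y ^ (1 / 4 : ℝ))) / y :=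
            div_le_div_of_nonneg_right (h7.trans h9) hy0.le
        _ = c2 * (y ^ (1 / 2 : ℝ) * y ^ (1 / 4 : ℝ) * y ^ (-1 : ℝ)) := by
            rw [Real.sqrt_eq_rpow, Real.rpow_neg_one]; ring
        _ = c2 * y ^ (-(1 / 4) : ℝ) := by
            rw [← Real.rpow_add hy0, ← Real.rpow_add hy0]; norm_num
        _ ≤ c2 * y ^ (-ε) := mul_le_mul_of_nonneg_left (rp_mono hy (by rw [hε]; exact min_le_right _ _)) hc2
    have e9 : (∑ k ∈ Icc 1 K, SD (r + 1) (⌊y⌋₊ / k) + ∑ m ∈ Icc 1 K, (dk (r + 1) m : ℝ) * (((⌊y⌋₊ / m : ℕ) : ℝ) - K)) / y -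
        (∑ k ∈ Icc 1 K, P.eval (Real.log (y / k)) / k + ∑ m ∈ Icc 1 K, (dk (r + 1) m : ℝ) / m +
          -1 * ((SD (r + 1) K / Real.sqrt y) * ((K : ℝ) / Real.sqrt y))) =
        ((∑ k ∈ Icc 1 K, SD (r + 1) (⌊y⌋₊ / k)) / y - ∑ k ∈ Icc 1 K, P.eval (Real.log (y / k)) / k) +
        ((∑ m ∈ Icc 1 K, (dk (r + 1) m : ℝ) * (((⌊y⌋₊ / m : ℕ) : ℝ) - K)) / y -
        (∑ m ∈ Icc 1 K, (dk (r + 1) m : ℝ) / m + -1 * ((SD (r + 1) K / Real.sqrt y) * ((K : ℝ) / Real.sqrt y)))) := by ring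
    rw [e9, add_mul]
    exact (abs_add_le _ _).trans (add_le_add hP1 hP2)

end Pool.Agent.TH935.PW
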