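import Pool.Agent.TH935.PW8
import Pool.Agent.TH935.DS11

set_option autoImplicit false

/-! The exponential sums of the divisor functions at rational frequencies. -/

namespace Pool.Agent.TH935.PW
open Finset Polynomial
open Pool.Agent.TH935.DS (dk ww Par dsh dsh_at major0 ww_le' ww_nonneg)
open Pool.Agent.TH212.DV (kap)
open Pool.Agent.H807R2.Dav
open Pool.Agent.W93.LV (log1_nonneg harm)

/-- interpolation -/
lemma lag (s : ℕ) (v : ℕ → ℝ) (hv : Set.InjOn v (range (s + 1) : Finset ℕ)) (P : ℝ[X]) (hP : P.natDegree ≤ s) (u : ℝ) :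
    P.eval u = ∑ i ∈ range (s + 1), P.eval (v i) * (Lagrange.basis (range (s + 1)) v i).eval u := by
  have hd : P.degree < ((range (s + 1)).card : WithBot ℕ) := by
    rw [card_range]
    exact lt_of_le_of_lt degree_le_natDegree (by exact_mod_cast Nat.lt_succ_of_le hP)
  have h := Lagrange.eq_interpolate (s := range (s + 1)) (v := v) hv (f := P) hd
  conv_lhs => rw [h]
  rw [Lagrange.interpolate_apply, eval_finset_sum]
  apply sum_congr rfl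
  intro i _
  rw [eval_mul, eval_C]

/-- a uniform bound for the polynomials -/
lemma P_bd (s : ℕ) (P : ℕ → ℝ[X]) (hP : ∀ q, (P q).natDegree ≤ s) (h : ∃ K d : ℝ, 0 ≤ K ∧ 0 < d ∧ ∀ (E : ℕ → ℝ) (Y q n : ℕ),
    Hyp E Y (s + 1) → 1 ≤ q → 1 ≤ Y → 2 * Y ^ (s + 1) ≤ n → n ≤ (Y + 1) ^ (s + 2) →
    |wt E Y q n - (P q).eval (Real.log n)| ≤ K * (q : ℝ) ^ (2 * s + 4) * (n : ℝ) ^ (-d)) (ε : ℝ) (hε : 0 < ε) :
    ∃ C : ℝ, 0 ≤ C ∧ ∀ q : ℕ, 1 ≤ q → ∀ y : ℝ, 1 ≤ y → |(P q).eval (Real.log y)| ≤ C * (q : ℝ) ^ (2 * s + 4) * y ^ ε := by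
  obtain ⟨K, d, hK, hd, h⟩ := h
  obtain ⟨m, hm⟩ : ∃ m : ℕ → ℕ, m = fun i => 2 * (2 + i) ^ (s + 1) := ⟨_, rfl⟩
  obtain ⟨v, hv⟩ : ∃ v : ℕ → ℝ, v = fun i => Real.log (m i) := ⟨_, rfl⟩
  have hm0 : ∀ i, 0 < m i := fun i => by rw [hm]; positivity
  have hmono : StrictMono m := by
    intro i j hij
    rw [hm]
    simp only
    exact Nat.mul_lt_mul_of_pos_left (Nat.pow_lt_pow_left (by omega) (by omega)) (by norm_num)
  have hinj : Set.InjOn v (range (s + 1) : Finset ℕ) := by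
    intro i _ j _ hij
    rw [hv] at hij
    simp only at hij
    have h1 : ((m i : ℕ) : ℝ) = m j := Real.log_injOn_pos (Set.mem_Ioi.2 (by exact_mod_cast hm0 i))
      (Set.mem_Ioi.2 (by exact_mod_cast hm0 j)) hij
    exact hmono.injective (by exact_mod_cast h1)
  choose c hc hcb using fun i => poly_bd (Lagrange.basis (range (s + 1)) v i) ε hε
  obtain ⟨B, hB⟩ : ∃ B : ℕ → ℝ, B = fun i => (∑ a ∈ Icc 1 (m i), (Pool.Agent.TH212.PS.EE (2 + i) (s + 1) a : ℝ) / a) + K := ⟨_, rfl⟩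
  have hB0 : ∀ i, 0 ≤ B i := fun i => by
    rw [hB]
    exact add_nonneg (sum_nonneg fun a _ => by positivity) hK
  refine ⟨∑ i ∈ range (s + 1), B i * c i, sum_nonneg fun i _ => mul_nonneg (hB0 i) (hc i), fun q hq y hy => ?_⟩
  have hq1 : (1 : ℝ) ≤ q := by exact_mod_cast hq
  have hQ1 : (1 : ℝ) ≤ (q : ℝ) ^ (2 * s + 4) := one_le_pow₀ hq1
  rw [lag s v hinj (P q) (hP q) (Real.log y)]
  refine (abs_sum_le_sum_abs _ _).trans ?_
  rw [sum_mul, sum_mul]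
  apply sum_le_sum
  intro i _
  rw [abs_mul]
  have h2 : 2 * (2 + i) ^ (s + 1) ≤ (2 + i + 1) ^ (s + 2) := by
    rw [pow_succ (2 + i + 1) (s + 1), mul_comm]
    exact Nat.mul_le_mul (Nat.pow_le_pow_left (by omega) _) (by omega)
  have h3 := h (fun a => (Pool.Agent.TH212.PS.EE (2 + i) (s + 1) a : ℝ)) (2 + i) q (m i) (hyp_EE (2 + i) s) hq (by omega)
    (by rw [hm]) (by rw [hm]; exact h2)
  have hw0 : 0 ≤ wt (fun a => (Pool.Agent.TH212.PS.EE (2 + i) (s + 1) a : ℝ)) (2 + i) q (m i) :=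
    sum_nonneg fun a _ => by positivity
  have hw1 : wt (fun a => (Pool.Agent.TH212.PS.EE (2 + i) (s + 1) a : ℝ)) (2 + i) q (m i) ≤
      ∑ a ∈ Icc 1 (m i), (Pool.Agent.TH212.PS.EE (2 + i) (s + 1) a : ℝ) / a := by
    unfold wt
    apply sum_le_sum_of_subset_of_nonneg (filter_subset _ _)
    intro a _ _
    positivity
  have hpow : ((m i : ℕ) : ℝ) ^ (-d) ≤ 1 := by
    apply Real.rpow_le_one_of_one_le_of_nonpos _ (by linarith)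
    exact_mod_cast hm0 i
  have h4 : |(P q).eval (v i)| ≤ B i * (q : ℝ) ^ (2 * s + 4) := by
    have e : (P q).eval (v i) = wt (fun a => (Pool.Agent.TH212.PS.EE (2 + i) (s + 1) a : ℝ)) (2 + i) q (m i) -
        (wt (fun a => (Pool.Agent.TH212.PS.EE (2 + i) (s + 1) a : ℝ)) (2 + i) q (m i) - (P q).eval (Real.log (m i))) := by
      rw [hv]; ring
    rw [e]
    refine (abs_sub _ _).trans ?_
    rw [abs_of_nonneg hw0, hB]
    simp only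
    rw [add_mul]
    apply add_le_add
    · refine hw1.trans (le_mul_of_one_le_right (sum_nonneg fun a _ => by positivity) hQ1)
    · refine h3.trans ?_
      calc K * (q : ℝ) ^ (2 * s + 4) * ((m i : ℕ) : ℝ) ^ (-d) ≤ K * (q : ℝ) ^ (2 * s + 4) * 1 :=
            mul_le_mul_of_nonneg_left hpow (by positivity)
        _ = _ := mul_one _
  calc |(P q).eval (v i)| * |(Lagrange.basis (range (s + 1)) v i).eval (Real.log y)| ≤ (B i * (q : ℝ) ^ (2 * s + 4)) * (c i * y ^ ε) :=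
        mul_le_mul h4 (hcb i y hy) (abs_nonneg _) (mul_nonneg (hB0 i) (by positivity))
    _ = B i * c i * (q : ℝ) ^ (2 * s + 4) * y ^ ε := by ring

/-- the exponential sum and the smooth weights -/
lemma exp_bd (r Y x q c : ℕ) (hY : 1 ≤ Y) (hq : 1 ≤ q) (hc : Nat.Coprime c q) (hYr : Y ^ r ≤ x) :
    ‖∑ n ∈ Icc 1 x, (dk r n : ℂ) * ee ((n : ℝ) * ((c : ℝ) / q)) - ((∑ n ∈ Icc 1 x, ww r Y q n : ℝ) : ℂ)‖ ≤
      (3 * (q : ℝ) ^ 4 * (r * ((x : ℝ) / Y * (1 + Real.log x) ^ (2 ^ r))) + (Y : ℝ) ^ r * (1 + Real.log x) ^ (2 ^ r)) +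
        q * (q * (2 * (r * (1 + Real.log x) ^ (2 ^ r)) * (3 / 4 * (q : ℝ) ^ 2))) := by
  have e1 := dsh_at r Y q x q x le_rfl hq c hc le_rfl
  have e2 := major0 r Y q x q x hY le_rfl hq (c : ℤ) (Nat.isCoprime_iff_coprime.2 hc) le_rfl hYr
  have e3 : ∑ n ∈ Icc 1 x, (dk r n : ℂ) * ee ((n : ℝ) * ((c : ℝ) / q)) - ((∑ n ∈ Icc 1 x, ww r Y q n : ℝ) : ℂ) =
      ∑ n ∈ Icc 1 x, ((dk r n : ℂ) - (dsh r Y q n : ℂ)) * ee ((n : ℝ) * (((c : ℤ) : ℝ) / q)) +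
      (∑ n ∈ Icc 1 x, ((dsh r Y q n : ℝ) : ℂ) * ee ((n : ℝ) * ((c : ℝ) / q)) - ((∑ n ∈ Icc 1 x, ww r Y q n : ℝ) : ℂ)) := by
    have e4 : ((c : ℤ) : ℝ) = (c : ℝ) := by simp
    rw [e4]
    simp only [sub_mul]
    rw [sum_sub_distrib]
    ring
  rw [e3]
  exact (norm_add_le _ _).trans (add_le_add e2 e1)

lemma exists_Y (k N : ℕ) (hk : 1 ≤ k) : ∃ Y : ℕ, Y ^ k ≤ N ∧ N < (Y + 1) ^ k := by
  refine ⟨Nat.findGreatest (fun y => y ^ k ≤ N) N, ?_, ?_⟩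
  · have := Nat.findGreatest_spec (P := fun y => y ^ k ≤ N) (Nat.zero_le N) (by
      show 0 ^ k ≤ N
      rw [zero_pow (by omega)]
      omega)
    exact this
  · by_contra hcon
    push Not at hcon
    have h1 : Nat.findGreatest (fun y => y ^ k ≤ N) N + 1 ≤ N := (Nat.le_self_pow (by omega) _).trans hcon
    exact Nat.findGreatest_is_greatest (P := fun y => y ^ k ≤ N) (Nat.lt_succ_self _) h1 hcon

lemma sum_rpow_le (x : ℕ) (hx : 1 ≤ x) (t : ℝ) (ht1 : t ≤ 1) : ∑ n ∈ Icc 1 x, (n : ℝ) ^ (-t) ≤ (x : ℝ) ^ (1 - t) * (1 + Real.log x) := by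
  have h1 : ∀ n ∈ Icc 1 x, (n : ℝ) ^ (-t) ≤ (x : ℝ) ^ (1 - t) * (1 / n) := by
    intro n hn
    rw [mem_Icc] at hn
    have hn0 : (0 : ℝ) < n := by exact_mod_cast hn.1
    have e : (n : ℝ) ^ (-t) = (n : ℝ) ^ (1 - t) * (1 / n) := by
      rw [show -t = (1 - t) + (-1) by ring, Real.rpow_add hn0, Real.rpow_neg_one, one_div]
    rw [e]
    apply mul_le_mul_of_nonneg_right _ (by positivity)
    exact Real.rpow_le_rpow hn0.le (by exact_mod_cast hn.2) (by linarith)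
  refine (sum_le_sum h1).trans ?_
  rw [← mul_sum]
  exact mul_le_mul_of_nonneg_left (harm x) (by positivity)

/-- the sums of the smooth weights and of the polynomials -/
lemma ww_P (s : ℕ) (P : ℕ → ℝ[X]) (hP : ∀ q, (P q).natDegree ≤ s) (h : ∀ k : ℕ, ∃ K d : ℝ, 0 ≤ K ∧ 0 < d ∧ ∀ (E : ℕ → ℝ) (Y q n : ℕ),
    Hyp E Y (s + 1) → 1 ≤ q → 1 ≤ Y → 2 * Y ^ (s + 1) ≤ n → n ≤ (Y + 1) ^ k →
    |wt E Y q n - (P q).eval (Real.log n)| ≤ K * (q : ℝ) ^ (2 * s + 4) * (n : ℝ) ^ (-d)) :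
    ∃ e0 : ℝ, 0 < e0 ∧ ∀ e : ℝ, 0 < e → e ≤ e0 → ∃ C : ℝ, 0 ≤ C ∧ ∀ q Y x : ℕ, 1 ≤ q → 1 ≤ Y → 1 ≤ x → Y ^ (2 * (s + 1)) ≤ x → x < (Y + 1) ^ (2 * (s + 1)) →
    |∑ n ∈ Icc 1 x, ww (s + 1) Y q n - ∑ n ∈ Icc 1 x, (P q).eval (Real.log n)| ≤ C * (q : ℝ) ^ (2 * s + 4) * (x : ℝ) ^ (1 - e) := by
  obtain ⟨K, d, hK, hd, h2⟩ := h (2 * (s + 1))
  refine ⟨min (d / 2) (1 / 4), lt_min (by positivity) (by norm_num), fun e he0 he => ?_⟩
  have hed : 2 * e ≤ d := by have := min_le_left (d / 2) (1 / 4); linarith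
  have he4 : e ≤ 1 / 4 := he.trans (min_le_right _ _)
  obtain ⟨C1, hC1, b1⟩ := P_bd s P hP (h (s + 2)) e he0
  obtain ⟨C2, hC2, b2⟩ := poly_bd ((1 + X : ℝ[X]) ^ (2 ^ (s + 1))) e he0
  obtain ⟨C3, hC3, b3⟩ := poly_bd (1 + X : ℝ[X]) e he0
  refine ⟨K * C3 + 2 * ((s + 1) * C2 + C1), by positivity, fun q Y x hq hY hx hYx hxY => ?_⟩
  have hx0 : (0 : ℝ) < x := by exact_mod_cast hx
  have hx1 : (1 : ℝ) ≤ x := by exact_mod_cast hx
  have hq1 : (1 : ℝ) ≤ q := by exact_mod_cast hq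
  have hQ1 : (1 : ℝ) ≤ (q : ℝ) ^ (2 * s + 4) := one_le_pow₀ hq1
  have hlx : 0 ≤ Real.log x := Real.log_nonneg hx1
  have c2 : (1 + Real.log x) ^ (2 ^ (s + 1)) ≤ C2 * (x : ℝ) ^ e := by
    have := b2 x hx1
    rw [eval_pow, eval_add, eval_one, eval_X] at this
    exact (le_abs_self _).trans this
  have c3 : 1 + Real.log x ≤ C3 * (x : ℝ) ^ e := by
    have := b3 x hx1
    rw [eval_add, eval_one, eval_X] at this
    exact (le_abs_self _).trans this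
  rw [← sum_sub_distrib]
  have hterm : ∀ n ∈ Icc 1 x, |ww (s + 1) Y q n - (P q).eval (Real.log n)| ≤
      K * (q : ℝ) ^ (2 * s + 4) * (n : ℝ) ^ (-(2 * e)) + if n < 2 * Y ^ (s + 1) then ((s + 1) * C2 + C1) * (q : ℝ) ^ (2 * s + 4) * (x : ℝ) ^ e else 0 := by
    intro n hn
    rw [mem_Icc] at hn
    have hn0 : (0 : ℝ) < n := by exact_mod_cast hn.1
    have hn1 : (1 : ℝ) ≤ n := by exact_mod_cast hn.1
    have hnx : (n : ℝ) ≤ x := by exact_mod_cast hn.2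
    split_ifs with hlt
    · have a1 : |ww (s + 1) Y q n| ≤ (s + 1) * C2 * (q : ℝ) ^ (2 * s + 4) * (x : ℝ) ^ e := by
        rw [abs_of_nonneg (ww_nonneg _ _ _ _)]
        refine (ww_le' (s + 1) Y q n x hn.2).trans ?_
        push_cast
        calc ((s : ℝ) + 1) * (1 + Real.log x) ^ (2 ^ (s + 1)) ≤ (s + 1) * (C2 * (x : ℝ) ^ e) := mul_le_mul_of_nonneg_left c2 (by positivity)
          _ = (s + 1) * C2 * 1 * (x : ℝ) ^ e := by ring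
          _ ≤ (s + 1) * C2 * (q : ℝ) ^ (2 * s + 4) * (x : ℝ) ^ e := by
              apply mul_le_mul_of_nonneg_right _ (by positivity)
              exact mul_le_mul_of_nonneg_left hQ1 (by positivity)
      have a2 : |(P q).eval (Real.log n)| ≤ C1 * (q : ℝ) ^ (2 * s + 4) * (x : ℝ) ^ e := by
        refine (b1 q hq n hn1).trans ?_
        apply mul_le_mul_of_nonneg_left _ (by positivity)
        exact Real.rpow_le_rpow hn0.le hnx he0.le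
      have a3 : 0 ≤ K * (q : ℝ) ^ (2 * s + 4) * (n : ℝ) ^ (-(2 * e)) := by positivity
      refine (abs_sub _ _).trans ?_
      have : ((s + 1) * C2 + C1) * (q : ℝ) ^ (2 * s + 4) * (x : ℝ) ^ e =
          (s + 1) * C2 * (q : ℝ) ^ (2 * s + 4) * (x : ℝ) ^ e + C1 * (q : ℝ) ^ (2 * s + 4) * (x : ℝ) ^ e := by ring
      rw [this]
      linarith
    · rw [add_zero, ww_eq_wt]
      refine (h2 _ Y q n (hyp_EE Y s) hq hY (by omega) (by omega)).trans ?_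
      apply mul_le_mul_of_nonneg_left _ (by positivity)
      exact rp_mono hn1 hed
  refine (abs_sum_le_sum_abs _ _).trans ((sum_le_sum hterm).trans ?_)
  rw [sum_add_distrib, ← mul_sum, ← sum_filter, sum_const, nsmul_eq_mul]
  have hcard : (((Icc 1 x).filter (fun n => n < 2 * Y ^ (s + 1))).card : ℝ) ≤ 2 * (x : ℝ) ^ (1 / 2 : ℝ) := by
    have a1 : ((Icc 1 x).filter (fun n => n < 2 * Y ^ (s + 1))).card ≤ 2 * Y ^ (s + 1) := by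
      have : (Icc 1 x).filter (fun n => n < 2 * Y ^ (s + 1)) ⊆ Ico 0 (2 * Y ^ (s + 1)) := by
        intro n hn
        rw [mem_filter] at hn
        rw [mem_Ico]
        exact ⟨Nat.zero_le _, hn.2⟩
      refine (card_le_card this).trans ?_
      rw [Nat.card_Ico]
      omega
    have a2 : ((Y ^ (s + 1) : ℕ) : ℝ) ≤ (x : ℝ) ^ (1 / 2 : ℝ) := by
      rw [← Real.sqrt_eq_rpow]
      apply Real.le_sqrt_of_sq_le
      have : (Y ^ (s + 1)) ^ 2 ≤ x := by rw [← pow_mul, mul_comm (s + 1) 2]; exact hYx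
      exact_mod_cast this
    calc (((Icc 1 x).filter (fun n => n < 2 * Y ^ (s + 1))).card : ℝ) ≤ ((2 * Y ^ (s + 1) : ℕ) : ℝ) := by exact_mod_cast a1
      _ = 2 * ((Y ^ (s + 1) : ℕ) : ℝ) := by push_cast; ring
      _ ≤ _ := by linarith
  have hs1 : ∑ n ∈ Icc 1 x, (n : ℝ) ^ (-(2 * e)) ≤ C3 * (x : ℝ) ^ (1 - e) := by
    refine (sum_rpow_le x hx (2 * e) (by linarith)).trans ?_
    calc (x : ℝ) ^ (1 - 2 * e) * (1 + Real.log x) ≤ (x : ℝ) ^ (1 - 2 * e) * (C3 * (x : ℝ) ^ e) := mul_le_mul_of_nonneg_left c3 (by positivity)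
      _ = C3 * ((x : ℝ) ^ (1 - 2 * e) * (x : ℝ) ^ e) := by ring
      _ = C3 * (x : ℝ) ^ (1 - e) := by rw [← Real.rpow_add hx0]; congr 2; ring
  have hs2 : (x : ℝ) ^ (1 / 2 : ℝ) * (x : ℝ) ^ e ≤ (x : ℝ) ^ (1 - e) := by
    rw [← Real.rpow_add hx0]
    exact Real.rpow_le_rpow_of_exponent_le hx1 (by linarith)
  calc K * (q : ℝ) ^ (2 * s + 4) * ∑ n ∈ Icc 1 x, (n : ℝ) ^ (-(2 * e)) +
      (((Icc 1 x).filter (fun n => n < 2 * Y ^ (s + 1))).card : ℝ) * (((s + 1) * C2 + C1) * (q : ℝ) ^ (2 * s + 4) * (x : ℝ) ^ e) ≤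
      K * (q : ℝ) ^ (2 * s + 4) * (C3 * (x : ℝ) ^ (1 - e)) + (2 * (x : ℝ) ^ (1 / 2 : ℝ)) * (((s + 1) * C2 + C1) * (q : ℝ) ^ (2 * s + 4) * (x : ℝ) ^ e) :=
        add_le_add (mul_le_mul_of_nonneg_left hs1 (by positivity)) (mul_le_mul_of_nonneg_right hcard (by positivity))
    _ = K * C3 * (q : ℝ) ^ (2 * s + 4) * (x : ℝ) ^ (1 - e) + 2 * ((s + 1) * C2 + C1) * (q : ℝ) ^ (2 * s + 4) * ((x : ℝ) ^ (1 / 2 : ℝ) * (x : ℝ) ^ e) := by ring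
    _ ≤ K * C3 * (q : ℝ) ^ (2 * s + 4) * (x : ℝ) ^ (1 - e) + 2 * ((s + 1) * C2 + C1) * (q : ℝ) ^ (2 * s + 4) * (x : ℝ) ^ (1 - e) :=
        add_le_add le_rfl (mul_le_mul_of_nonneg_left hs2 (by positivity))
    _ = _ := by ring

set_option maxHeartbeats 800000 in
/-- **the exponential sums of `d_r` at rational frequencies** -/
theorem exp_mean (s : ℕ) (P : ℕ → ℝ[X]) (hP : ∀ q, (P q).natDegree ≤ s) (h : ∀ k : ℕ, ∃ K d : ℝ, 0 ≤ K ∧ 0 < d ∧ ∀ (E : ℕ → ℝ) (Y q n : ℕ),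
    Hyp E Y (s + 1) → 1 ≤ q → 1 ≤ Y → 2 * Y ^ (s + 1) ≤ n → n ≤ (Y + 1) ^ k →
    |wt E Y q n - (P q).eval (Real.log n)| ≤ K * (q : ℝ) ^ (2 * s + 4) * (n : ℝ) ^ (-d)) :
    ∃ C d : ℝ, 0 ≤ C ∧ 0 < d ∧ ∀ q c x : ℕ, 1 ≤ q → Nat.Coprime c q → 1 ≤ x →
    ‖∑ n ∈ Icc 1 x, (dk (s + 1) n : ℂ) * ee ((n : ℝ) * ((c : ℝ) / q)) - ((∑ n ∈ Icc 1 x, (P q).eval (Real.log n) : ℝ) : ℂ)‖ ≤
      C * (q : ℝ) ^ (2 * s + 4) * (x : ℝ) ^ (1 - d) := by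
  obtain ⟨e0, he0, h1⟩ := ww_P s P hP h
  obtain ⟨κ, hκ⟩ : ∃ κ : ℝ, κ = 1 / (2 * (s + 1)) := ⟨_, rfl⟩
  have hκ0 : 0 < κ := by rw [hκ]; positivity
  obtain ⟨e, he⟩ : ∃ e, e = min e0 (min (κ / 2) (1 / 4)) := ⟨_, rfl⟩
  have hee : 0 < e := by rw [he]; exact lt_min he0 (lt_min (by positivity) (by norm_num))
  have hee0 : e ≤ e0 := by rw [he]; exact min_le_left _ _
  have heκ : 2 * e ≤ κ := by
    have : e ≤ κ / 2 := by rw [he]; exact (min_le_right _ _).trans (min_le_left _ _)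
    linarith
  have he4 : e ≤ 1 / 4 := by rw [he]; exact (min_le_right _ _).trans (min_le_right _ _)
  obtain ⟨C, hC, h2⟩ := h1 e hee hee0
  obtain ⟨C2, hC2, b2⟩ := poly_bd ((1 + X : ℝ[X]) ^ (2 ^ (s + 1))) e hee
  refine ⟨C + (8 * (s + 1) + 1) * C2, e, by positivity, hee, fun q c x hq hc hx => ?_⟩
  obtain ⟨Y, hY1, hY2⟩ := exists_Y (2 * (s + 1)) x (by omega)
  have hY : 1 ≤ Y := by
    by_contra hcon
    have : Y = 0 := by omega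
    rw [this, zero_add, one_pow] at hY2
    omega
  have hx0 : (0 : ℝ) < x := by exact_mod_cast hx
  have hx1 : (1 : ℝ) ≤ x := by exact_mod_cast hx
  have hq1 : (1 : ℝ) ≤ q := by exact_mod_cast hq
  have hY0 : (0 : ℝ) < Y := by exact_mod_cast hY
  have hY1' : (1 : ℝ) ≤ Y := by exact_mod_cast hY
  have hYr : Y ^ (s + 1) ≤ x := (Nat.pow_le_pow_right hY (by omega)).trans hY1
  have c2 : (1 + Real.log x) ^ (2 ^ (s + 1)) ≤ C2 * (x : ℝ) ^ e := by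
    have := b2 x hx1
    rw [eval_pow, eval_add, eval_one, eval_X] at this
    exact (le_abs_self _).trans this
  have hL0 : 0 ≤ (1 + Real.log x) ^ (2 ^ (s + 1)) := by
    have := Real.log_nonneg hx1
    positivity
  obtain ⟨L, hL⟩ : ∃ L, L = (1 + Real.log x) ^ (2 ^ (s + 1)) := ⟨_, rfl⟩
  have g1 := exp_bd (s + 1) Y x q c hY hq hc hYr
  have g2 := h2 q Y x hq hY hx hY1 hY2
  rw [← hL] at g1 c2 hL0
  obtain ⟨Q, hQ⟩ : ∃ Q : ℝ, Q = (q : ℝ) ^ (2 * s + 4) := ⟨_, rfl⟩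
  have hQ4 : (q : ℝ) ^ 4 ≤ Q := by rw [hQ]; exact pow_le_pow_right₀ hq1 (by omega)
  have hQ1 : 1 ≤ Q := by rw [hQ]; exact one_le_pow₀ hq1
  rw [← hQ] at g2 ⊢
  obtain ⟨T, hT⟩ : ∃ T : ℝ, T = (x : ℝ) ^ (1 - e) := ⟨_, rfl⟩
  rw [← hT] at g2 ⊢
  have hT0 : 0 < T := by rw [hT]; positivity
  have t1 : (x : ℝ) / Y * L ≤ 2 * C2 * T := by
    have b3 : (x : ℝ) ^ κ ≤ 2 * Y := by
      have b4 : (x : ℝ) ≤ ((Y : ℝ) + 1) ^ (2 * (s + 1)) := by exact_mod_cast hY2.le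
      calc (x : ℝ) ^ κ ≤ (((Y : ℝ) + 1) ^ (2 * (s + 1))) ^ κ := Real.rpow_le_rpow hx0.le b4 hκ0.le
        _ = (Y : ℝ) + 1 := by
            rw [← Real.rpow_natCast, ← Real.rpow_mul (by positivity), hκ]
            have : ((2 * (s + 1) : ℕ) : ℝ) * (1 / (2 * ((s : ℝ) + 1))) = 1 := by push_cast; field_simp
            rw [this, Real.rpow_one]
        _ ≤ 2 * Y := by linarith
    have b5 : (x : ℝ) / Y ≤ 2 * (x : ℝ) ^ (1 - κ) := by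
      rw [div_le_iff₀ hY0, Real.rpow_sub hx0, Real.rpow_one]
      have : 0 < (x : ℝ) ^ κ := Real.rpow_pos_of_pos hx0 _
      rw [show 2 * ((x : ℝ) / (x : ℝ) ^ κ) * Y = (x : ℝ) * ((2 * Y) / (x : ℝ) ^ κ) by ring]
      have b5 : 1 ≤ (2 * (Y : ℝ)) / (x : ℝ) ^ κ := by rw [le_div_iff₀ this]; linarith
      nlinarith
    calc (x : ℝ) / Y * L ≤ (2 * (x : ℝ) ^ (1 - κ)) * (C2 * (x : ℝ) ^ e) := mul_le_mul b5 c2 hL0 (by positivity)
      _ = 2 * C2 * ((x : ℝ) ^ (1 - κ) * (x : ℝ) ^ e) := by ring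
      _ ≤ 2 * C2 * T := by
          apply mul_le_mul_of_nonneg_left _ (by positivity)
          rw [hT, ← Real.rpow_add hx0]
          exact Real.rpow_le_rpow_of_exponent_le hx1 (by linarith)
  have t2 : (Y : ℝ) ^ (s + 1) * L ≤ C2 * T := by
    have a2 : (Y : ℝ) ^ (s + 1) ≤ (x : ℝ) ^ (1 / 2 : ℝ) := by
      rw [← Real.sqrt_eq_rpow]
      apply Real.le_sqrt_of_sq_le
      have : (Y ^ (s + 1)) ^ 2 ≤ x := by rw [← pow_mul, mul_comm (s + 1) 2]; exact hY1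
      exact_mod_cast this
    calc (Y : ℝ) ^ (s + 1) * L ≤ (x : ℝ) ^ (1 / 2 : ℝ) * (C2 * (x : ℝ) ^ e) := mul_le_mul a2 c2 hL0 (by positivity)
      _ = C2 * ((x : ℝ) ^ (1 / 2 : ℝ) * (x : ℝ) ^ e) := by ring
      _ ≤ C2 * T := by
          apply mul_le_mul_of_nonneg_left _ hC2
          rw [hT, ← Real.rpow_add hx0]
          exact Real.rpow_le_rpow_of_exponent_le hx1 (by linarith)
  have t3 : L ≤ C2 * T := by
    refine c2.trans (mul_le_mul_of_nonneg_left ?_ hC2)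
    rw [hT]
    exact Real.rpow_le_rpow_of_exponent_le hx1 (by linarith)
  have hsplit : ∑ n ∈ Icc 1 x, (dk (s + 1) n : ℂ) * ee ((n : ℝ) * ((c : ℝ) / q)) - ((∑ n ∈ Icc 1 x, (P q).eval (Real.log n) : ℝ) : ℂ) =
      (∑ n ∈ Icc 1 x, (dk (s + 1) n : ℂ) * ee ((n : ℝ) * ((c : ℝ) / q)) - ((∑ n ∈ Icc 1 x, ww (s + 1) Y q n : ℝ) : ℂ)) +
      ((∑ n ∈ Icc 1 x, ww (s + 1) Y q n - ∑ n ∈ Icc 1 x, (P q).eval (Real.log n) : ℝ) : ℂ) := by
    push_cast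
    ring
  rw [hsplit]
  refine (norm_add_le _ _).trans ?_
  rw [Complex.norm_real, Real.norm_eq_abs]
  have g3 : (3 * (q : ℝ) ^ 4 * (((s + 1 : ℕ) : ℝ) * ((x : ℝ) / Y * L)) + (Y : ℝ) ^ (s + 1) * L) +
        q * (q * (2 * (((s + 1 : ℕ) : ℝ) * L) * (3 / 4 * (q : ℝ) ^ 2))) ≤ (8 * (s + 1) + 1) * C2 * Q * T := by
    push_cast
    have hs0 : (0 : ℝ) ≤ s := Nat.cast_nonneg s
    have r1 : 3 * (q : ℝ) ^ 4 * (((s : ℝ) + 1) * ((x : ℝ) / Y * L)) ≤ 3 * Q * ((s + 1) * (2 * C2 * T)) := by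
      apply mul_le_mul (mul_le_mul_of_nonneg_left hQ4 (by norm_num)) (mul_le_mul_of_nonneg_left t1 (by positivity)) (by positivity) (by positivity)
    have r2 : (Y : ℝ) ^ (s + 1) * L ≤ Q * (C2 * T) := t2.trans (le_mul_of_one_le_left (by positivity) hQ1)
    have r3 : (q : ℝ) * (q * (2 * (((s : ℝ) + 1) * L) * (3 / 4 * (q : ℝ) ^ 2))) ≤ 3 / 2 * (Q * ((s + 1) * (C2 * T))) := by
      calc (q : ℝ) * (q * (2 * (((s : ℝ) + 1) * L) * (3 / 4 * (q : ℝ) ^ 2))) = 3 / 2 * ((q : ℝ) ^ 4 * ((s + 1) * L)) := by ring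
        _ ≤ 3 / 2 * (Q * ((s + 1) * (C2 * T))) := by
            apply mul_le_mul_of_nonneg_left _ (by norm_num)
            exact mul_le_mul hQ4 (mul_le_mul_of_nonneg_left t3 (by positivity)) (by positivity) (by positivity)
    have r4 : 0 ≤ Q * ((s + 1) * (C2 * T)) := by positivity
    have e5 : (8 * ((s : ℝ) + 1) + 1) * C2 * Q * T = 8 * (Q * ((s + 1) * (C2 * T))) + Q * (C2 * T) := by ring
    have e6 : 3 * Q * ((s + 1) * (2 * C2 * T)) = 6 * (Q * ((s + 1) * (C2 * T))) := by ring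
    rw [e5]
    rw [e6] at r1
    linarith
  calc ‖∑ n ∈ Icc 1 x, (dk (s + 1) n : ℂ) * ee ((n : ℝ) * ((c : ℝ) / q)) - ((∑ n ∈ Icc 1 x, ww (s + 1) Y q n : ℝ) : ℂ)‖ +
      |∑ n ∈ Icc 1 x, ww (s + 1) Y q n - ∑ n ∈ Icc 1 x, (P q).eval (Real.log n)| ≤ (8 * (s + 1) + 1) * C2 * Q * T + C * Q * T :=
        add_le_add (g1.trans g3) g2
    _ = (C + (8 * (s + 1) + 1) * C2) * Q * T := by ring

/-- **everything about the polynomials** -/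
theorem W_full (r : ℕ) (hr : 1 ≤ r) : ∃ P : ℕ → ℝ[X], (∀ q, (P q).natDegree ≤ r - 1) ∧
    (∀ q, 1 ≤ q → (P q).coeff (r - 1) = kap (r - 1) q / ((r - 1).factorial : ℝ)) ∧
    (∀ k : ℕ, ∃ C A d : ℝ, 0 < d ∧ ∀ q Y n : ℕ,
      1 ≤ q → 2 ≤ Y → 2 * Y ^ r ≤ n → n ≤ (Y + 1) ^ k →
      |(∑ a ∈ (Icc 1 n).filter (fun a => q ∣ a ∧ a * Y < n), (Pool.Agent.TH212.PS.EE Y r a : ℝ) / a) - (P q).eval (Real.log n)| ≤
        C * (q : ℝ) ^ A * (n : ℝ) ^ (-d)) ∧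
    (∃ C A d : ℝ, 0 < d ∧ ∀ q b x : ℕ, 1 ≤ q → Nat.Coprime b q → 1 ≤ x →
      ‖(∑ n ∈ Icc 1 x, (dk r n : ℂ) * Complex.exp (2 * Real.pi * Complex.I * (b * n / q))) -
        ((∑ n ∈ Icc 1 x, (P q).eval (Real.log n) : ℝ) : ℂ)‖ ≤ C * (q : ℝ) ^ A * (x : ℝ) ^ (1 - d)) := by
  obtain ⟨s, rfl⟩ : ∃ s, r = s + 1 := ⟨r - 1, by omega⟩
  obtain ⟨P, hP, h0⟩ := wt_asym s
  refine ⟨P, hP, fun q hq => lead s P hP (h0 (2 * (s + 1))) q hq, fun k => ?_, ?_⟩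
  · obtain ⟨K, d, hK, hd, h⟩ := h0 k
    refine ⟨K, ((2 * s + 4 : ℕ) : ℝ), d, hd, fun q Y n hq hY hn1 hn2 => ?_⟩
    rw [Real.rpow_natCast]
    exact h (fun a => (Pool.Agent.TH212.PS.EE Y (s + 1) a : ℝ)) Y q n (hyp_EE Y s) hq (by omega) hn1 hn2
  · obtain ⟨C, d, hC, hd, h1⟩ := exp_mean s P hP h0
    refine ⟨C, ((2 * s + 4 : ℕ) : ℝ), d, hd, fun q b x hq hb hx => ?_⟩
    rw [Real.rpow_natCast]
    have h2 := h1 q b x hq hb hx
    have e : ∀ n ∈ Icc 1 x, (dk (s + 1) n : ℂ) * Complex.exp (2 * Real.pi * Complex.I * (b * n / q)) =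
        (dk (s + 1) n : ℂ) * ee ((n : ℝ) * ((b : ℝ) / q)) := by
      intro n _
      unfold ee
      congr 2
      push_cast
      ring
    rw [sum_congr rfl e]
    exact h2

end Pool.Agent.TH935.PW
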