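import Mathlib

set_option autoImplicit false

/-! The sums of the powers of the logarithm. -/

namespace Pool.Agent.TH935.PW
open Finset Polynomial

/-- the polynomials with `Lk k + (Lk k)' = X ^ k` -/
noncomputable def Lk : ℕ → ℝ[X]
  | 0 => 1
  | k + 1 => X ^ (k + 1) - Polynomial.C ((k : ℝ) + 1) * Lk k

lemma Lk_zero : Lk 0 = 1 := rfl

lemma Lk_succ (k : ℕ) : Lk (k + 1) = X ^ (k + 1) - Polynomial.C ((k : ℝ) + 1) * Lk k := rfl

lemma Lk_deriv (k : ℕ) : Lk k + derivative (Lk k) = X ^ k := by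
  induction k with
  | zero => rw [Lk_zero]; simp
  | succ k ih =>
    rw [Lk_succ, derivative_sub, derivative_X_pow, derivative_C_mul, Nat.add_sub_cancel]
    have e : (((k + 1 : ℕ) : ℝ)) = (k : ℝ) + 1 := by push_cast; ring
    rw [e]
    calc X ^ (k + 1) - Polynomial.C ((k : ℝ) + 1) * Lk k + (Polynomial.C ((k : ℝ) + 1) * X ^ k - Polynomial.C ((k : ℝ) + 1) * derivative (Lk k)) =
        X ^ (k + 1) + Polynomial.C ((k : ℝ) + 1) * (X ^ k - (Lk k + derivative (Lk k))) := by ring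
      _ = X ^ (k + 1) := by rw [ih, sub_self, mul_zero, add_zero]

lemma Lk_natDegree_le (k : ℕ) : (Lk k).natDegree ≤ k := by
  induction k with
  | zero => rw [Lk_zero]; simp
  | succ k ih =>
    rw [Lk_succ]
    refine (natDegree_sub_le _ _).trans (max_le (by rw [natDegree_X_pow]) ?_)
    exact (natDegree_C_mul_le _ _).trans (ih.trans (by omega))

lemma Lk_coeff (k : ℕ) : (Lk k).coeff k = 1 := by
  cases k with
  | zero => rw [Lk_zero]; simp
  | succ k =>
    rw [Lk_succ, coeff_sub, coeff_X_pow, if_pos rfl, coeff_C_mul, coeff_eq_zero_of_natDegree_lt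
      (lt_of_le_of_lt (Lk_natDegree_le k) (by omega)), mul_zero, sub_zero]

lemma Lk_natDegree (k : ℕ) : (Lk k).natDegree = k := by
  apply le_antisymm (Lk_natDegree_le k)
  apply le_natDegree_of_ne_zero
  rw [Lk_coeff]
  exact one_ne_zero

lemma Lk_monic (k : ℕ) : (Lk k).Monic := by
  unfold Monic leadingCoeff
  rw [Lk_natDegree, Lk_coeff]

/-- **the sums of the powers of the logarithm** -/
theorem sum_log_pow (k : ℕ) : ∃ C : ℝ, 0 ≤ C ∧ ∀ x : ℕ, 1 ≤ x →
    |(∑ n ∈ Icc 1 x, Real.log n ^ k) - x * (Lk k).eval (Real.log x)| ≤ C * (1 + Real.log x) ^ k := by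
  obtain ⟨g, hg⟩ : ∃ g : ℕ → ℝ, g = fun x : ℕ => (∑ n ∈ Icc 1 x, Real.log n ^ k) - x * (Lk k).eval (Real.log x) := ⟨_, rfl⟩
  have hder : ∀ x : ℝ, 0 < x → HasDerivAt (fun t : ℝ => t * (Lk k).eval (Real.log t)) (Real.log x ^ k) x := by
    intro x hx
    have d1 : HasDerivAt (fun t : ℝ => (Lk k).eval (Real.log t)) ((derivative (Lk k)).eval (Real.log x) * x⁻¹) x :=
      ((Lk k).hasDerivAt (Real.log x)).comp x (Real.hasDerivAt_log hx.ne')
    refine ((hasDerivAt_id' x).fun_mul d1).congr_deriv ?_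
    have h := congrArg (fun Q : ℝ[X] => Q.eval (Real.log x)) (Lk_deriv k)
    simp only [eval_add, eval_pow, eval_X] at h
    rw [← h, one_mul, mul_comm ((derivative (Lk k)).eval (Real.log x)), ← mul_assoc, mul_inv_cancel₀ hx.ne', one_mul]
  have step : ∀ x : ℕ, 1 ≤ x → 0 ≤ g (x + 1) - g x ∧ g (x + 1) - g x ≤ Real.log (x + 1 : ℕ) ^ k - Real.log x ^ k := by
    intro x hx
    have hx0 : (0 : ℝ) < x := by exact_mod_cast hx
    have hx1 : (1 : ℝ) ≤ x := by exact_mod_cast hx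
    have hlt : (x : ℝ) < ((x + 1 : ℕ) : ℝ) := by push_cast; linarith
    obtain ⟨ξ, hξ, hs⟩ := exists_hasDerivAt_eq_slope (fun t : ℝ => t * (Lk k).eval (Real.log t)) (fun t => Real.log t ^ k) hlt
      (fun t ht => (hder t (hx0.trans_le ht.1)).continuousAt.continuousWithinAt) (fun t ht => hder t (hx0.trans ht.1))
    have hd : ((x + 1 : ℕ) : ℝ) - x = 1 := by push_cast; ring
    rw [hd, div_one] at hs
    have e : g (x + 1) - g x = Real.log (x + 1 : ℕ) ^ k - Real.log ξ ^ k := by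
      rw [hg, hs]
      simp only
      rw [sum_Icc_succ_top (by omega)]
      ring
    have l0 : 0 ≤ Real.log x := Real.log_nonneg hx1
    have l1 : Real.log x ≤ Real.log ξ := Real.log_le_log hx0 hξ.1.le
    have l2 : Real.log ξ ≤ Real.log (x + 1 : ℕ) := Real.log_le_log (hx0.trans hξ.1) hξ.2.le
    rw [e]
    have p1 := pow_le_pow_left₀ l0 l1 k
    have p2 := pow_le_pow_left₀ (l0.trans l1) l2 k
    constructor <;> linarith
  have tel : ∀ x : ℕ, 1 ≤ x → 0 ≤ g x - g 1 ∧ g x - g 1 ≤ Real.log x ^ k - Real.log (1 : ℕ) ^ k := by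
    intro x hx
    induction x, hx using Nat.le_induction with
    | base => constructor <;> linarith
    | succ x hx ih =>
      obtain ⟨s1, s2⟩ := step x hx
      obtain ⟨i1, i2⟩ := ih
      constructor <;> linarith
  refine ⟨1 + |g 1|, by positivity, fun x hx => ?_⟩
  have hx1 : (1 : ℝ) ≤ x := by exact_mod_cast hx
  have l0 : 0 ≤ Real.log x := Real.log_nonneg hx1
  obtain ⟨t1, t2⟩ := tel x hx
  have h1 : 1 ≤ (1 + Real.log x) ^ k := one_le_pow₀ (by linarith)
  have h2 : Real.log x ^ k ≤ (1 + Real.log x) ^ k := pow_le_pow_left₀ l0 (by linarith) k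
  have h3 : 0 ≤ Real.log (1 : ℕ) ^ k := pow_nonneg (Real.log_natCast_nonneg 1) k
  have h4 : (∑ n ∈ Icc 1 x, Real.log n ^ k) - x * (Lk k).eval (Real.log x) = g x := by rw [hg]
  rw [h4]
  have h5 : |g x| ≤ |g x - g 1| + |g 1| := by
    have := abs_add_le (g x - g 1) (g 1)
    rwa [sub_add_cancel] at this
  rw [abs_of_nonneg t1] at h5
  have h6 : |g 1| ≤ |g 1| * (1 + Real.log x) ^ k := le_mul_of_one_le_right (abs_nonneg _) h1
  rw [add_mul, one_mul]
  linarith

end Pool.Agent.TH935.PW
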