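import Pool.Agent.H373R2.T7.SingLim

set_option autoImplicit false

/-! Products of local factors: convergence with a quantitative tail bound, lower and upper bounds
(following `H373R2/T7/SingTail.lean`, `SingLim.lean`, for arbitrary local data). -/

namespace Pool.Agent.TH935.TF
open Finset
open Pool.Agent.H373R2.T7

/-- local factor -/
noncomputable def Fq (ν : ℕ → ℕ) (m p : ℕ) : ℝ := (1 - (ν p : ℝ) / p) / (1 - 1 / (p : ℝ)) ^ m

/-- the product of the local factors -/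
noncomputable def Gz (ν : ℕ → ℕ) (m z : ℕ) : ℝ := ∏ p ∈ pz z, Fq ν m p

/-- the local data: `ν p ≤ m`, with equality outside of `bad` -/
structure Loc (ν : ℕ → ℕ) (m : ℕ) (bad : Finset ℕ) : Prop where
  le : ∀ p : ℕ, p.Prime → ν p ≤ m
  lt : ∀ p : ℕ, p.Prime → ν p + 1 ≤ p
  good : ∀ p : ℕ, p.Prime → p ∉ bad → m ≤ ν p

variable {ν : ℕ → ℕ} {m : ℕ} {bad : Finset ℕ}

lemma Fq_pos (h : Loc ν m bad) (p : ℕ) (hp : p.Prime) : 0 < Fq ν m p := by
  have hp2 : (2 : ℝ) ≤ p := by exact_mod_cast hp.two_le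
  have hp0 : (0 : ℝ) < p := by linarith
  have hq : 0 < 1 - 1 / (p : ℝ) := by rw [sub_pos, div_lt_one hp0]; linarith
  unfold Fq
  apply div_pos _ (by positivity)
  rw [sub_pos, div_lt_one hp0]
  exact_mod_cast h.lt p hp

lemma Gz_pos (h : Loc ν m bad) (z : ℕ) : 0 < Gz ν m z := prod_pos fun p hp => Fq_pos h p (mem_pz.1 hp).2

/-- bounds for the local factors at large primes -/
lemma Fq_bounds (h : Loc ν m bad) (hm0 : 1 ≤ m) (p : ℕ) (hp : p.Prime) (h3 : 3 * m ≤ p) :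
    Real.exp (-((m : ℝ) ^ 2 * (1 / (p : ℝ) ^ 2))) ≤ Fq ν m p ∧
    Fq ν m p ≤ Real.exp (if p ∈ bad then 2 * (m : ℝ) / p else 0) := by
  have hp2 : (2 : ℝ) ≤ p := by exact_mod_cast hp.two_le
  have hp0 : (0 : ℝ) < p := by linarith
  have hm3 : (3 * m : ℝ) ≤ p := by exact_mod_cast h3
  have hm1 : (1 : ℝ) ≤ m := by exact_mod_cast hm0
  have hq : 0 < 1 - 1 / (p : ℝ) := by rw [sub_pos, div_lt_one hp0]; linarith
  have hy : (m : ℝ) / p ≤ 1 / 3 := by rw [div_le_iff₀ hp0]; linarith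
  have hy0 : 0 ≤ (m : ℝ) / p := by positivity
  have hbern : 1 - (m : ℝ) / p ≤ (1 - 1 / (p : ℝ)) ^ m := by
    have h4 := one_add_mul_le_pow (a := -(1 / (p : ℝ))) (by linarith) m
    have e : 1 + (m : ℝ) * -(1 / (p : ℝ)) = 1 - m / p := by ring
    rw [e] at h4
    exact h4
  have hνm : (ν p : ℝ) ≤ m := by exact_mod_cast h.le p hp
  have hν0 : (0 : ℝ) ≤ ν p := Nat.cast_nonneg _
  constructor
  · unfold Fq
    rw [le_div_iff₀ (by positivity)]
    have h4 := exp_low hy0 hy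
    have h5 : (1 - 1 / (p : ℝ)) ^ m ≤ Real.exp (-((m : ℝ) / p)) := by
      have h6 : 1 - 1 / (p : ℝ) ≤ Real.exp (-(1 / p)) := by
        have := Real.add_one_le_exp (-(1 / (p : ℝ)))
        linarith
      calc (1 - 1 / (p : ℝ)) ^ m ≤ (Real.exp (-(1 / p))) ^ m := pow_le_pow_left₀ hq.le h6 m
        _ = Real.exp (-((m : ℝ) / p)) := by rw [← Real.exp_nat_mul]; congr 1; ring
    have h6 : 1 - (m : ℝ) / p ≤ 1 - (ν p : ℝ) / p := by
      have := div_le_div_of_nonneg_right hνm hp0.le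
      linarith
    calc Real.exp (-((m : ℝ) ^ 2 * (1 / (p : ℝ) ^ 2))) * (1 - 1 / (p : ℝ)) ^ m
        ≤ Real.exp (-((m : ℝ) ^ 2 * (1 / (p : ℝ) ^ 2))) * Real.exp (-((m : ℝ) / p)) := mul_le_mul_of_nonneg_left h5 (Real.exp_pos _).le
      _ = Real.exp (-((m : ℝ) / p + ((m : ℝ) / p) ^ 2)) := by rw [← Real.exp_add]; congr 1; ring
      _ ≤ 1 - (m : ℝ) / p := h4
      _ ≤ _ := h6
  · unfold Fq
    split_ifs with hb
    · have h4 : 1 - (ν p : ℝ) / p ≤ 1 := by
        have : 0 ≤ (ν p : ℝ) / p := by positivity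
        linarith
      rw [div_le_iff₀ (by positivity)]
      have h5 : 1 + 2 * ((m : ℝ) / p) ≤ Real.exp (2 * (m : ℝ) / p) := by
        have := Real.add_one_le_exp (2 * (m : ℝ) / p)
        have e : 2 * (m : ℝ) / p = 2 * ((m : ℝ) / p) := by ring
        rw [e] at this ⊢
        linarith
      have h6 : 1 ≤ (1 + 2 * ((m : ℝ) / p)) * (1 - (m : ℝ) / p) := by nlinarith
      calc 1 - (ν p : ℝ) / p ≤ 1 := h4
        _ ≤ (1 + 2 * ((m : ℝ) / p)) * (1 - (m : ℝ) / p) := h6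
        _ ≤ Real.exp (2 * (m : ℝ) / p) * (1 - 1 / (p : ℝ)) ^ m := by
            apply mul_le_mul h5 hbern (by linarith) (Real.exp_pos _).le
    · rw [Real.exp_zero, div_le_one (by positivity)]
      have h4 := h.good p hp hb
      have h5 : (m : ℝ) ≤ ν p := by exact_mod_cast h4
      have := div_le_div_of_nonneg_right h5 hp0.le
      linarith

/-- the tail -/
lemma tail_bd (h : Loc ν m bad) (hm0 : 1 ≤ m) (z z' : ℕ) (hz : 3 * m ≤ z)
    (hzz : z ≤ z') : ∃ R : ℝ, Gz ν m z' = Gz ν m z * R ∧ Real.exp (-((m : ℝ) ^ 2 / z)) ≤ R ∧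
      R ≤ Real.exp (2 * (m : ℝ) * bad.card / z) := by
  have hz0 : (0 : ℝ) < z := by exact_mod_cast (by omega : 0 < z)
  refine ⟨∏ p ∈ (pz z').filter (fun p => ¬ p ≤ z), Fq ν m p, ?_, ?_, ?_⟩
  · unfold Gz
    rw [← prod_filter_mul_prod_filter_not (pz z') (fun p => p ≤ z)]
    congr 1
    apply prod_congr _ (fun _ _ => rfl)
    ext p
    rw [mem_filter, mem_pz, mem_pz]
    constructor
    · rintro ⟨⟨_, h1⟩, h2⟩; exact ⟨h2, h1⟩
    · rintro ⟨h1, h2⟩; exact ⟨⟨h1.trans hzz, h2⟩, h1⟩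
  · have h1 : ∀ p ∈ (pz z').filter (fun p => ¬ p ≤ z), Real.exp (-((m : ℝ) ^ 2 * (1 / (p : ℝ) ^ 2))) ≤ Fq ν m p := by
      intro p hp
      rw [mem_filter, mem_pz] at hp
      exact (Fq_bounds h hm0 p hp.1.2 (by omega)).1
    refine le_trans ?_ (prod_le_prod (fun p _ => (Real.exp_pos _).le) h1)
    rw [← Real.exp_sum]
    apply Real.exp_le_exp.2
    rw [sum_neg_distrib, ← mul_sum]
    have h2 : ∑ p ∈ (pz z').filter (fun p => ¬ p ≤ z), 1 / (p : ℝ) ^ 2 ≤ ∑ n ∈ Ioc z z', 1 / (n : ℝ) ^ 2 := by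
      apply sum_le_sum_of_subset_of_nonneg
      · intro p hp
        rw [mem_filter, mem_pz] at hp
        rw [mem_Ioc]
        omega
      · intro _ _ _; positivity
    have h3 := tail_sq z z' (by omega) hzz
    have h4 : (0 : ℝ) ≤ 1 / (z' : ℝ) := by positivity
    have h5 : ((m : ℝ)) ^ 2 * ∑ p ∈ (pz z').filter (fun p => ¬ p ≤ z), 1 / (p : ℝ) ^ 2 ≤ (m : ℝ) ^ 2 * (1 / z) :=
      mul_le_mul_of_nonneg_left (by linarith) (by positivity)
    rw [mul_one_div] at h5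
    linarith
  · have h1 : ∀ p ∈ (pz z').filter (fun p => ¬ p ≤ z), Fq ν m p ≤ Real.exp (if p ∈ bad then 2 * (m : ℝ) / p else 0) := by
      intro p hp
      rw [mem_filter, mem_pz] at hp
      exact (Fq_bounds h hm0 p hp.1.2 (by omega)).2
    have h0 : ∀ p ∈ (pz z').filter (fun p => ¬ p ≤ z), 0 ≤ Fq ν m p := by
      intro p hp
      rw [mem_filter, mem_pz] at hp
      exact (Fq_pos h p hp.1.2).le
    refine (prod_le_prod h0 h1).trans ?_
    rw [← Real.exp_sum]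
    apply Real.exp_le_exp.2
    rw [← sum_filter]
    calc ∑ p ∈ ((pz z').filter (fun p => ¬ p ≤ z)).filter (fun p => p ∈ bad), 2 * (m : ℝ) / p
        ≤ ∑ _p ∈ ((pz z').filter (fun p => ¬ p ≤ z)).filter (fun p => p ∈ bad), 2 * (m : ℝ) / z := by
          apply sum_le_sum
          intro p hp
          rw [mem_filter, mem_filter] at hp
          apply div_le_div_of_nonneg_left (by positivity) hz0
          exact_mod_cast (by omega : z ≤ p)
      _ = ((((pz z').filter (fun p => ¬ p ≤ z)).filter (fun p => p ∈ bad)).card : ℝ) * (2 * (m : ℝ) / z) := by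
          rw [sum_const, nsmul_eq_mul]
      _ ≤ (bad.card : ℝ) * (2 * (m : ℝ) / z) := by
          apply mul_le_mul_of_nonneg_right _ (by positivity)
          exact_mod_cast card_le_card (fun p hp => (mem_filter.1 hp).2)
      _ = _ := by ring

/-- the constant in the tail bound -/
noncomputable def KK (m : ℕ) (bad : Finset ℕ) : ℝ := (m : ℝ) ^ 2 + 4 * (m : ℝ) * bad.card

lemma KK_nonneg (m : ℕ) (bad : Finset ℕ) : 0 ≤ KK m bad := by unfold KK; positivity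

lemma step_bd (h : Loc ν m bad) (hm0 : 1 ≤ m) (z z' : ℕ) (hz : 3 * m ≤ z)
    (hK : KK m bad ≤ z) (hzz : z ≤ z') : |Gz ν m z' - Gz ν m z| ≤ Gz ν m z * (KK m bad / z) := by
  obtain ⟨R, hR, h1, h2⟩ := tail_bd h hm0 z z' hz hzz
  have hz0 : (0 : ℝ) < z := by exact_mod_cast (by omega : 0 < z)
  have hs := (Gz_pos h z).le
  have hA : 0 ≤ (m : ℝ) ^ 2 := by positivity
  have hB : 0 ≤ 4 * (m : ℝ) * bad.card := by positivity
  have hKd : KK m bad = (m : ℝ) ^ 2 + 4 * (m : ℝ) * bad.card := rfl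
  have e1 : 1 - KK m bad / z ≤ R := by
    refine le_trans ?_ h1
    have h3 := Real.add_one_le_exp (-((m : ℝ) ^ 2 / z))
    have h4 : (m : ℝ) ^ 2 / z ≤ KK m bad / z := div_le_div_of_nonneg_right (by linarith) hz0.le
    linarith
  have e2 : R ≤ 1 + KK m bad / z := by
    refine h2.trans ?_
    obtain ⟨t, ht⟩ : ∃ t, t = 2 * (m : ℝ) * bad.card / z := ⟨_, rfl⟩
    rw [← ht]
    have ht0 : 0 ≤ t := by rw [ht]; positivity
    have ht1 : 2 * t ≤ KK m bad / z := by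
      rw [ht, mul_div_assoc']
      apply div_le_div_of_nonneg_right _ hz0.le
      linarith
    have ht2 : KK m bad / z ≤ 1 := by rw [div_le_one hz0]; exact hK
    have h3 := Real.abs_exp_sub_one_sub_id_le (x := t) (by rw [abs_of_nonneg ht0]; linarith)
    have h4 := (abs_le.1 h3).2
    nlinarith
  have e : Gz ν m z' - Gz ν m z = Gz ν m z * (R - 1) := by rw [hR]; ring
  rw [e, abs_mul, abs_of_nonneg hs]
  apply mul_le_mul_of_nonneg_left _ hs
  rw [abs_le]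
  constructor <;> linarith

theorem limit_bd (h : Loc ν m bad) (hm0 : 1 ≤ m) :
    ∃ S : ℝ, Filter.Tendsto (fun z => Gz ν m z) Filter.atTop (nhds S) ∧
      ∀ z : ℕ, 3 * m ≤ z → KK m bad ≤ z → |S - Gz ν m z| ≤ Gz ν m z * (KK m bad / z) := by
  have hK0 := KK_nonneg m bad
  have hcau : CauchySeq (fun z => Gz ν m z) := by
    rw [Metric.cauchySeq_iff']
    intro ε hε
    obtain ⟨z0, hz0⟩ : ∃ z0, z0 = max (3 * m) ⌈KK m bad⌉₊ := ⟨_, rfl⟩
    have hz0K : KK m bad ≤ z0 := by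
      rw [hz0]
      exact (Nat.le_ceil _).trans (by exact_mod_cast le_max_right _ _)
    have hz03 : 3 * m ≤ z0 := by rw [hz0]; exact le_max_left _ _
    have hs0 := (Gz_pos h z0).le
    obtain ⟨M, hM⟩ := exists_nat_gt (2 * Gz ν m z0 * KK m bad / ε)
    refine ⟨max z0 (M + 1), fun n hn => ?_⟩
    obtain ⟨Z, hZ⟩ : ∃ Z, Z = max z0 (M + 1) := ⟨_, rfl⟩
    rw [← hZ] at hn ⊢
    have hZ0 : z0 ≤ Z := by rw [hZ]; exact le_max_left _ _
    have hZM : M + 1 ≤ Z := by rw [hZ]; exact le_max_right _ _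
    have hZr : (0 : ℝ) < Z := by exact_mod_cast (by omega : 0 < Z)
    have h1 := step_bd h hm0 Z n (hz03.trans hZ0) (hz0K.trans (by exact_mod_cast hZ0)) hn
    have h2 := step_bd h hm0 z0 Z hz03 hz0K hZ0
    have hz0r : (0 : ℝ) < z0 := by exact_mod_cast (by omega : 0 < z0)
    have h3 : Gz ν m Z ≤ 2 * Gz ν m z0 := by
      have h4 := (abs_le.1 h2).2
      have h5 : KK m bad / z0 ≤ 1 := by rw [div_le_one hz0r]; exact hz0K
      nlinarith
    rw [Real.dist_eq]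
    refine lt_of_le_of_lt h1 ?_
    have h4 : Gz ν m Z * (KK m bad / Z) ≤ 2 * Gz ν m z0 * (KK m bad / Z) := mul_le_mul_of_nonneg_right h3 (by positivity)
    refine lt_of_le_of_lt h4 ?_
    rw [mul_div_assoc', div_lt_iff₀ hZr]
    rw [div_lt_iff₀ hε] at hM
    have h5 : (M : ℝ) ≤ Z := by exact_mod_cast (by omega : M ≤ Z)
    nlinarith
  obtain ⟨S, hS⟩ := cauchySeq_tendsto_of_complete hcau
  refine ⟨S, hS, fun z hz hK => ?_⟩
  have h1 : Filter.Tendsto (fun z' => |Gz ν m z' - Gz ν m z|) Filter.atTop (nhds |S - Gz ν m z|) :=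
    (hS.sub_const _).abs
  apply le_of_tendsto h1
  filter_upwards [Filter.eventually_ge_atTop z] with z' hz'
  exact step_bd h hm0 z z' hz hK hz'

/-- the lower bound -/
theorem Gz_low (m : ℕ) (hm0 : 1 ≤ m) : ∃ c : ℝ, 0 < c ∧ ∀ (ν : ℕ → ℕ) (bad : Finset ℕ), Loc ν m bad → ∀ z : ℕ, c ≤ Gz ν m z := by
  refine ⟨(1 / (3 * m : ℝ)) ^ (3 * m) * Real.exp (-(2 * (m : ℝ) ^ 2)), by positivity, fun ν bad h z => ?_⟩
  exact local_low m hm0 ν z (fun p hp => h.le p (mem_pz.1 hp).2) (fun p hp => h.lt p (mem_pz.1 hp).2)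

/-- the upper bound -/
lemma Gz_le (h : Loc ν m bad) (z : ℕ) : Gz ν m z ≤ (Vz z)⁻¹ ^ m := by
  unfold Gz
  have e : (Vz z)⁻¹ ^ m = ∏ p ∈ pz z, 1 / (1 - 1 / (p : ℝ)) ^ m := by
    unfold Vz
    rw [← prod_inv_distrib, ← prod_pow]
    apply prod_congr rfl
    intro p _
    rw [inv_pow, one_div ((1 - 1 / (p : ℝ)) ^ m)]
  rw [e]
  apply prod_le_prod
  · intro p hp
    exact (Fq_pos h p (mem_pz.1 hp).2).le
  · intro p hp
    have hp2 : (2 : ℝ) ≤ p := by exact_mod_cast (mem_pz.1 hp).2.two_le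
    have hp0 : (0 : ℝ) < p := by linarith
    have hq : 0 < 1 - 1 / (p : ℝ) := by rw [sub_pos, div_lt_one hp0]; linarith
    unfold Fq
    apply div_le_div_of_nonneg_right _ (by positivity)
    have : 0 ≤ (ν p : ℝ) / p := by positivity
    linarith

/-- the limit -/
theorem limit_full (h : Loc ν m bad) (hm0 : 1 ≤ m) :
    ∃ S : ℝ, Filter.Tendsto (fun z => Gz ν m z) Filter.atTop (nhds S) ∧
      (∀ z : ℕ, 3 * m ≤ z → 2 * KK m bad ≤ z → |Gz ν m z - S| ≤ S * (2 * KK m bad / z)) ∧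
      (∀ c : ℝ, (∀ z, c ≤ Gz ν m z) → c ≤ S) := by
  obtain ⟨S, hS, h1⟩ := limit_bd h hm0
  refine ⟨S, hS, fun z hz hK => ?_, fun c hc => ge_of_tendsto' hS hc⟩
  have hK0 := KK_nonneg m bad
  have hz0 : (0 : ℝ) < z := by exact_mod_cast (by omega : 0 < z)
  have h2 := h1 z hz (by linarith)
  have hG := (Gz_pos h z).le
  obtain ⟨t, ht⟩ : ∃ t, t = KK m bad / z := ⟨_, rfl⟩
  have ht0 : 0 ≤ t := by rw [ht]; positivity
  have ht1 : t ≤ 1 / 2 := by
    rw [ht, div_le_iff₀ hz0]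
    linarith
  have e : 2 * KK m bad / z = 2 * t := by rw [ht]; ring
  rw [e]
  rw [← ht] at h2
  have h3 : Gz ν m z ≤ 2 * S := by
    have := (abs_le.1 h2).1
    nlinarith
  rw [abs_sub_comm]
  refine h2.trans ?_
  nlinarith

end Pool.Agent.TH935.TF
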