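import Pool.Agent.TH935.TF1
import Pool.Agent.H373R2.T7.TupleMain2

set_option autoImplicit false

/-! Systems of linear forms: local data and the sieve model. -/

namespace Pool.Agent.TH935.TF
open Finset
open Pool.Agent.H373R2.T7

/-- the number of classes `r` modulo `p` in which one of the forms `α i * x + β i` vanishes -/
def om {k : ℕ} (α β : Fin k → ℤ) (p : ℕ) : ℕ := ((range p).filter (fun r : ℕ => ∃ i, (p : ℤ) ∣ α i * (r : ℤ) + β i)).card

/-- no fixed prime divisor -/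
def Adm {k : ℕ} (α β : Fin k → ℤ) : Prop := ∀ p : ℕ, p.Prime → ∃ r : ℤ, ∀ i, ¬ (p : ℤ) ∣ α i * r + β i

/-- no two forms equal up to sign -/
def Dist {k : ℕ} (α β : Fin k → ℤ) : Prop :=
  ∀ i j, i ≠ j → ¬ (α i = α j ∧ β i = β j) ∧ ¬ (α i = -α j ∧ β i = -β j)

/-- bad primes -/
def badF {k : ℕ} (α β : Fin k → ℤ) : Finset ℕ :=
  (univ.biUnion fun i => (α i).natAbs.primeFactors) ∪
    (univ.filter (fun q : Fin k × Fin k => q.1 ≠ q.2)).biUnion fun q => (α q.1 * β q.2 - α q.2 * β q.1).natAbs.primeFactors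

lemma adm_ndvd {k : ℕ} {α β : Fin k → ℤ} (h : Adm α β) (p : ℕ) (hp : p.Prime) (i : Fin k) (h1 : (p : ℤ) ∣ α i) : ¬ (p : ℤ) ∣ β i := by
  intro h2
  obtain ⟨r, hr⟩ := h p hp
  exact hr i (dvd_add (dvd_mul_of_dvd_left h1 r) h2)

lemma adm_coprime {k : ℕ} {α β : Fin k → ℤ} (h : Adm α β) (i : Fin k) : IsCoprime (α i) (β i) := by
  rw [Int.isCoprime_iff_gcd_eq_one]
  by_contra hne
  obtain ⟨p, hp, hpd⟩ := Nat.exists_prime_and_dvd hne
  have h1 : (p : ℤ) ∣ α i := (Int.natCast_dvd_natCast.2 hpd).trans (Int.gcd_dvd_left ..)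
  have h2 : (p : ℤ) ∣ β i := (Int.natCast_dvd_natCast.2 hpd).trans (Int.gcd_dvd_right ..)
  exact adm_ndvd h p hp i h1 h2

lemma det_ne {k : ℕ} {α β : Fin k → ℤ} (h : Adm α β) (hd : Dist α β) (i j : Fin k) (hij : i ≠ j) :
    α i * β j - α j * β i ≠ 0 := by
  intro h0
  have h1 : α i * β j = α j * β i := by linarith
  have c1 := adm_coprime h i
  have c2 := adm_coprime h j
  have d1 : α i ∣ α j := by
    have : α i ∣ α j * β i := ⟨β j, h1.symm⟩
    exact c1.dvd_of_dvd_mul_right this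
  have d2 : α j ∣ α i := by
    have : α j ∣ α i * β j := ⟨β i, h1⟩
    exact c2.dvd_of_dvd_mul_right this
  have h2 : α i = α j ∨ α i = -α j := by
    have := Int.natAbs_eq_of_dvd_dvd d1 d2
    exact Int.natAbs_eq_natAbs_iff.1 this
  obtain ⟨g1, g2⟩ := hd i j hij
  by_cases hz : α j = 0
  · -- both zero: coprimality gives units
    have hi0 : α i = 0 := by rcases h2 with h2 | h2 <;> rw [h2, hz] <;> simp
    rw [hi0] at c1
    rw [hz] at c2
    have u1 : IsUnit (β i) := isCoprime_zero_left.1 c1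
    have u2 : IsUnit (β j) := isCoprime_zero_left.1 c2
    rcases Int.isUnit_iff.1 u1 with e1 | e1 <;> rcases Int.isUnit_iff.1 u2 with e2 | e2
    · exact g1 ⟨by rw [hi0, hz], by rw [e1, e2]⟩
    · exact g2 ⟨by rw [hi0, hz]; simp, by rw [e1, e2]; simp⟩
    · exact g2 ⟨by rw [hi0, hz]; simp, by rw [e1, e2]⟩
    · exact g1 ⟨by rw [hi0, hz], by rw [e1, e2]⟩
  · rcases h2 with h2 | h2
    · rw [h2] at h1
      exact g1 ⟨h2, (mul_left_cancel₀ hz h1).symm⟩
    · rw [h2] at h1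
      have h3 : α j * (-β j) = α j * β i := by linarith
      have h4 := mul_left_cancel₀ hz h3
      exact g2 ⟨h2, h4.symm⟩

lemma om_le {k : ℕ} {α β : Fin k → ℤ} (h : Adm α β) (p : ℕ) (hp : p.Prime) : om α β p ≤ k := by
  classical
  have hpi : Prime (p : ℤ) := Nat.prime_iff_prime_int.1 hp
  unfold om
  have h1 : (range p).filter (fun r : ℕ => ∃ i, (p : ℤ) ∣ α i * (r : ℤ) + β i) ⊆
      univ.biUnion fun i : Fin k => (range p).filter (fun r : ℕ => (p : ℤ) ∣ α i * (r : ℤ) + β i) := by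
    intro r hr
    rw [mem_filter] at hr
    obtain ⟨hr1, i, hi⟩ := hr
    rw [mem_biUnion]
    exact ⟨i, mem_univ _, mem_filter.2 ⟨hr1, hi⟩⟩
  refine (card_le_card h1).trans (card_biUnion_le.trans ?_)
  have h2 : ∀ i ∈ (univ : Finset (Fin k)), ((range p).filter (fun r : ℕ => (p : ℤ) ∣ α i * (r : ℤ) + β i)).card ≤ 1 := by
    intro i _
    rw [card_le_one]
    intro r hr r' hr'
    rw [mem_filter, mem_range] at hr hr'
    have h3 := dvd_sub hr.2 hr'.2
    have e : α i * (r : ℤ) + β i - (α i * (r' : ℤ) + β i) = α i * ((r : ℤ) - r') := by ring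
    rw [e] at h3
    rcases hpi.dvd_or_dvd h3 with h4 | h4
    · exfalso
      have h5 : (p : ℤ) ∣ β i := by
        have := dvd_sub hr.2 (dvd_mul_of_dvd_left h4 (r : ℤ))
        rwa [add_sub_cancel_left] at this
      exact adm_ndvd h p hp i h4 h5
    · have h5 : |(r : ℤ) - r'| < p := by
        rw [abs_lt]
        constructor <;> omega
      have h6 := Int.eq_zero_of_abs_lt_dvd h4 h5
      omega
  refine (sum_le_sum h2).trans ?_
  simp

lemma om_lt {k : ℕ} {α β : Fin k → ℤ} (h : Adm α β) (p : ℕ) (hp : p.Prime) : om α β p + 1 ≤ p := by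
  classical
  obtain ⟨r, hr⟩ := h p hp
  have hp0 : (0 : ℤ) < p := by exact_mod_cast hp.pos
  obtain ⟨r', hr'⟩ : ∃ r' : ℕ, (r' : ℤ) = r % p := ⟨(r % p).toNat, Int.toNat_of_nonneg (Int.emod_nonneg _ hp0.ne')⟩
  have h2 : r' < p := by
    have := Int.emod_lt_of_pos r hp0
    omega
  have h3 : (r' : ℤ) = r + p * (-(r / p)) := by
    rw [hr']
    have := Int.emod_add_mul_ediv r p
    linarith
  unfold om
  have h4 : (range p).filter (fun r : ℕ => ∃ i, (p : ℤ) ∣ α i * (r : ℤ) + β i) ⊆ (range p).erase r' := by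
    intro s hs
    rw [mem_filter] at hs
    rw [mem_erase]
    refine ⟨?_, hs.1⟩
    rintro rfl
    obtain ⟨i, hi⟩ := hs.2
    rw [h3] at hi
    have e : α i * (r + p * (-(r / p))) + β i = (α i * r + β i) + p * (α i * (-(r / p))) := by ring
    rw [e] at hi
    exact hr i ((Int.dvd_add_left (dvd_mul_right _ _)).1 hi)
  have h5 := card_le_card h4
  rw [card_erase_of_mem (mem_range.2 h2), card_range] at h5
  have := hp.pos
  omega

lemma om_ge {k : ℕ} {α β : Fin k → ℤ} (hα : ∀ i, α i ≠ 0) (hdet : ∀ i j, i ≠ j → α i * β j - α j * β i ≠ 0)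
    (p : ℕ) (hp : p.Prime) (hb : p ∉ badF α β) : k ≤ om α β p := by
  classical
  haveI := Fact.mk hp
  have h1 : ∀ i, (α i : ZMod p) ≠ 0 := by
    intro i h0
    apply hb
    unfold badF
    rw [mem_union, mem_biUnion]
    left
    have hd : (p : ℤ) ∣ α i := (ZMod.intCast_zmod_eq_zero_iff_dvd _ _).1 h0
    exact ⟨i, mem_univ _, Nat.mem_primeFactors.2 ⟨hp, Int.natCast_dvd.1 hd, by simpa using hα i⟩⟩
  have h2 : ∀ i j, i ≠ j → ((α i * β j - α j * β i : ℤ) : ZMod p) ≠ 0 := by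
    intro i j hij h0
    apply hb
    unfold badF
    rw [mem_union, mem_biUnion, mem_biUnion]
    right
    have hd : (p : ℤ) ∣ α i * β j - α j * β i := (ZMod.intCast_zmod_eq_zero_iff_dvd _ _).1 h0
    exact ⟨(i, j), by simpa using hij, Nat.mem_primeFactors.2 ⟨hp, Int.natCast_dvd.1 hd, by simpa using hdet i j hij⟩⟩
  obtain ⟨g, hg⟩ : ∃ g : Fin k → ℕ, g = fun i => (-(β i : ZMod p) * (α i : ZMod p)⁻¹).val := ⟨_, rfl⟩
  have hgz : ∀ i, ((g i : ℕ) : ZMod p) = -(β i : ZMod p) * (α i : ZMod p)⁻¹ := by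
    intro i
    rw [hg]
    simp only
    rw [ZMod.natCast_val, ZMod.cast_id]
  have hgd : ∀ i, (p : ℤ) ∣ α i * ((g i : ℕ) : ℤ) + β i := by
    intro i
    rw [← ZMod.intCast_zmod_eq_zero_iff_dvd]
    push_cast
    rw [hgz]
    have := h1 i
    field_simp
    ring
  have hinj : ∀ i j, g i = g j → i = j := by
    intro i j hij
    by_contra hne
    apply h2 i j hne
    have h3 : -(β i : ZMod p) * (α i : ZMod p)⁻¹ = -(β j : ZMod p) * (α j : ZMod p)⁻¹ := by rw [← hgz, ← hgz, hij]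
    have hi := h1 i
    have hj := h1 j
    field_simp at h3
    push_cast
    linear_combination h3
  unfold om
  calc k = (univ.image g).card := by
        rw [card_image_of_injective _ (fun i j h => hinj i j h), card_univ, Fintype.card_fin]
    _ ≤ _ := by
        apply card_le_card
        intro r hr
        rw [mem_image] at hr
        obtain ⟨i, _, rfl⟩ := hr
        rw [mem_filter, mem_range]
        refine ⟨?_, i, hgd i⟩
        rw [hg]
        exact ZMod.val_lt _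

lemma loc_of {k : ℕ} {α β : Fin k → ℤ} (h : Adm α β) (hd : Dist α β) (hα : ∀ i, α i ≠ 0) : Loc (om α β) k (badF α β) where
  le := fun p hp => om_le h p hp
  lt := fun p hp => om_lt h p hp
  good := fun p hp hb => om_ge hα (fun i j hij => det_ne h hd i j hij) p hp hb

lemma card_badF {k : ℕ} (α β : Fin k → ℤ) (Y : ℕ) (h1 : ∀ i, (α i).natAbs ≤ Y) (h2 : ∀ i j, (α i * β j - α j * β i).natAbs ≤ Y) :
    (badF α β).card ≤ (k + k * k) * Nat.log 2 Y := by
  have h3 : ∀ b : ℤ, b.natAbs ≤ Y → b.natAbs.primeFactors.card ≤ Nat.log 2 Y := by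
    intro b hb
    rcases Nat.eq_zero_or_pos b.natAbs with h | h
    · rw [h]; simp
    · exact (omega_le_log _ (by omega)).trans (Nat.log_mono_right hb)
  unfold badF
  refine (card_union_le _ _).trans ?_
  rw [add_mul]
  apply add_le_add
  · refine card_biUnion_le.trans ((sum_le_sum fun i _ => h3 (α i) (h1 i)).trans ?_)
    simp
  · refine card_biUnion_le.trans ((sum_le_sum fun q _ => h3 (α q.1 * β q.2 - α q.2 * β q.1) (h2 q.1 q.2)).trans ?_)
    rw [sum_const, smul_eq_mul]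
    apply Nat.mul_le_mul_right
    refine (card_filter_le _ _).trans ?_
    rw [card_univ, Fintype.card_prod, Fintype.card_fin]

/-- the sieve model at an integer -/
noncomputable def mdl (z : ℕ) (m : ℤ) : ℝ := if ∀ p ∈ pz z, ¬ (p : ℤ) ∣ m then (Vz z)⁻¹ else 0

lemma mdl_nonneg (z : ℕ) (m : ℤ) : 0 ≤ mdl z m := by
  unfold mdl
  split_ifs
  · exact (inv_pos.2 (Vz_pos z)).le
  · exact le_rfl

lemma mdl_le (z : ℕ) (m : ℤ) : mdl z m ≤ (Vz z)⁻¹ := by
  unfold mdl
  split_ifs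
  · exact le_rfl
  · exact (inv_pos.2 (Vz_pos z)).le

/-- the number of arguments at which all forms are free of small primes -/
lemma rough_sys {k : ℕ} (hk : 1 ≤ k) (α β : Fin k → ℤ) (hom : ∀ p : ℕ, p.Prime → om α β p ≤ k) (z y r : ℕ) :
    |(((Icc 1 y).filter (fun n : ℕ => ∀ p ∈ pz z, ¬ ∃ i, (p : ℤ) ∣ α i * (n : ℤ) + β i)).card : ℝ) -
      y * ∏ p ∈ pz z, (1 - (om α β p : ℝ) / p)| ≤
      (k : ℝ) ^ r * ((z : ℝ) + 1) ^ r + 2 * y * Real.exp (3 * (k * (1 + Real.log z)) - r) := by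
  classical
  have homp : ∀ p ∈ pz z, (om α β p : ℝ) ≤ p := by
    intro p hp
    have : om α β p ≤ p := by
      unfold om
      exact (card_filter_le _ _).trans (by rw [card_range])
    exact_mod_cast this
  have hg : ∀ p ∈ pz z, 0 ≤ (om α β p : ℝ) / p ∧ (om α β p : ℝ) / p ≤ 1 := by
    intro p hp
    have hp2 : (2 : ℝ) ≤ p := by exact_mod_cast (mem_pz.1 hp).2.two_le
    exact ⟨by positivity, by rw [div_le_one (by linarith)]; exact homp p hp⟩
  have key := sieve_gen' (Icc 1 y) (fun _ => (1 : ℝ)) (fun _ _ => zero_le_one)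
    (fun (p n : ℕ) => ∃ i, (p : ℤ) ∣ α i * (n : ℤ) + β i) (pz z) (fun p => (om α β p : ℝ) / p) hg (y : ℝ) (Nat.cast_nonneg _)
    (fun _ => (k : ℝ) ^ r) r (by
      intro S hS hSr
      have hSp : ∀ p ∈ S, p.Prime := fun p hp => (mem_pz.1 (hS hp)).2
      have h := count_sys (fun (p a : ℕ) => ∃ i, (p : ℤ) ∣ α i * (a : ℤ) + β i) y S hSp 1 le_rfl
        (fun p hp h => (hSp p hp).one_lt.ne' (Nat.dvd_one.1 h)) 0
      have h3 : ∑ _i ∈ (Icc 1 y).filter (fun i : ℕ => ∀ p ∈ S, ∃ j, (p : ℤ) ∣ α j * (i : ℤ) + β j), (1 : ℝ) =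
          (((Icc 1 y).filter (fun n : ℕ => n ≡ 0 [MOD 1] ∧ ∀ p ∈ S, ∃ i, (p : ℤ) ∣ α i * (((n % p : ℕ)) : ℤ) + β i)).card : ℝ) := by
        rw [sum_const, nsmul_eq_mul, mul_one]
        congr 2
        apply filter_congr
        intro n _
        have hmod : ∀ p : ℕ, ∀ i, ((p : ℤ) ∣ α i * (n : ℤ) + β i ↔ (p : ℤ) ∣ α i * (((n % p : ℕ)) : ℤ) + β i) := by
          intro p i
          have h1 : (n : ℤ) = ((n % p : ℕ) : ℤ) + p * ((n / p : ℕ) : ℤ) := by
            have := Nat.mod_add_div n p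
            exact_mod_cast this.symm
          have h2 : α i * (n : ℤ) + β i = (α i * ((n % p : ℕ) : ℤ) + β i) + p * (α i * ((n / p : ℕ) : ℤ)) := by
            calc α i * (n : ℤ) + β i = α i * (((n % p : ℕ) : ℤ) + p * ((n / p : ℕ) : ℤ)) + β i := by rw [← h1]
              _ = _ := by ring
          rw [h2]
          exact Int.dvd_add_left (dvd_mul_right _ _)
        constructor
        · intro h
          refine ⟨Nat.modEq_one, fun p hp => ?_⟩
          obtain ⟨i, hi⟩ := h p hp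
          exact ⟨i, (hmod p i).1 hi⟩
        · rintro ⟨_, h⟩ p hp
          obtain ⟨i, hi⟩ := h p hp
          exact ⟨i, (hmod p i).2 hi⟩
      rw [h3]
      have h4 : ∏ p ∈ S, (((range p).filter (fun a : ℕ => ∃ i, (p : ℤ) ∣ α i * (a : ℤ) + β i)).card : ℝ) ≤ (k : ℝ) ^ r := by
        calc ∏ p ∈ S, (((range p).filter (fun a : ℕ => ∃ i, (p : ℤ) ∣ α i * (a : ℤ) + β i)).card : ℝ) ≤ ∏ _p ∈ S, (k : ℝ) := by
              apply prod_le_prod (fun _ _ => Nat.cast_nonneg _)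
              intro p hp
              exact_mod_cast hom p (hSp p hp)
          _ = (k : ℝ) ^ S.card := prod_const _
          _ ≤ (k : ℝ) ^ r := pow_le_pow_right₀ (by exact_mod_cast hk) hSr
      refine le_trans (le_of_eq ?_) (h.trans h4)
      congr 1
      rw [Nat.cast_one, div_one]
      rfl)
  have e2 : ∑ _i ∈ (Icc 1 y).filter (fun i : ℕ => ∀ p ∈ pz z, ¬ ∃ j, (p : ℤ) ∣ α j * (i : ℤ) + β j), (1 : ℝ) =
      (((Icc 1 y).filter (fun n : ℕ => ∀ p ∈ pz z, ¬ ∃ i, (p : ℤ) ∣ α i * (n : ℤ) + β i)).card : ℝ) := by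
    rw [sum_const, nsmul_eq_mul, mul_one]
  rw [e2] at key
  refine key.trans ?_
  have h4 : ∑ j ∈ range (r + 1), ∑ S ∈ (pz z).powersetCard j, (k : ℝ) ^ r ≤ (k : ℝ) ^ r * ((z : ℝ) + 1) ^ r := by
    have h5 := card_small (pz z) r
    have h6 : ∑ j ∈ range (r + 1), ∑ S ∈ (pz z).powersetCard j, (k : ℝ) ^ r =
        (k : ℝ) ^ r * ((∑ j ∈ range (r + 1), ((pz z).powersetCard j).card : ℕ) : ℝ) := by
      push_cast
      rw [mul_sum]
      apply sum_congr rfl
      intro j _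
      rw [sum_const, nsmul_eq_mul, mul_comm]
    rw [h6]
    apply mul_le_mul_of_nonneg_left _ (by positivity)
    refine h5.trans ?_
    have h7 : ((pz z).card : ℝ) ≤ z := by exact_mod_cast card_pz_le z
    gcongr
  have h5 : es (fun p => (om α β p : ℝ) / p) (pz z) r ≤ Real.exp (3 * (k * (1 + Real.log z)) - r) := by
    refine (es_le (fun p hp => (hg p hp).1) r).trans ?_
    apply Real.exp_le_exp.2
    have h6 : ∑ p ∈ pz z, (om α β p : ℝ) / p ≤ k * (1 + Real.log z) := by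
      calc ∑ p ∈ pz z, (om α β p : ℝ) / p ≤ ∑ p ∈ pz z, (k : ℝ) * (1 / (p : ℝ)) := by
            apply sum_le_sum
            intro p hp
            rw [mul_one_div]
            apply div_le_div_of_nonneg_right _ (Nat.cast_nonneg _)
            exact_mod_cast hom p (mem_pz.1 hp).2
        _ = k * ∑ p ∈ pz z, 1 / (p : ℝ) := by rw [mul_sum]
        _ ≤ k * (1 + Real.log z) := mul_le_mul_of_nonneg_left (sum_pz_le z) (Nat.cast_nonneg _)
    linarith
  have h7 : 2 * (y : ℝ) * es (fun p => (om α β p : ℝ) / p) (pz z) r ≤ 2 * y * Real.exp (3 * (k * (1 + Real.log z)) - r) := by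
    apply mul_le_mul_of_nonneg_left h5 (by positivity)
  linarith

lemma Gz_eq {k : ℕ} (ν : ℕ → ℕ) (z : ℕ) : Gz ν k z = ((Vz z)⁻¹) ^ k * ∏ p ∈ pz z, (1 - (ν p : ℝ) / p) := by
  unfold Gz Fq Vz
  rw [← prod_inv_distrib, ← prod_pow, ← prod_mul_distrib]
  apply prod_congr rfl
  intro p _
  rw [inv_pow, div_eq_mul_inv, mul_comm]

/-- the main term, weight `1` -/
theorem main_one (k E U : ℕ) (hk : 1 ≤ k) : ∃ X0 : ℕ, ∀ X : ℕ, X0 ≤ X → ∀ z : ℕ, 1 ≤ z → (z : ℝ) ≤ Real.log X ^ E →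
    ∀ α β : Fin k → ℤ, (∀ p : ℕ, p.Prime → om α β p ≤ k) → ∀ y : ℕ, y ≤ X →
    |∑ n ∈ Icc 1 y, ∏ i, mdl z (α i * (n : ℤ) + β i) - Gz (om α β) k z * y| ≤ X / Real.log X ^ U := by
  classical
  obtain ⟨C', hC'⟩ : ∃ C', C' = (3 * (k * (1 + E)) + (U + k + 2) + 1) * k := ⟨_, rfl⟩
  obtain ⟨N0, h0⟩ := choice k E (U + k + 2) 2
  obtain ⟨n1, h1⟩ := ev_log' (C' + U + k + 2) 1
  obtain ⟨n2, h2⟩ := ev_L' 4
  obtain ⟨n3, h3⟩ := Vz_inv_small E
  refine ⟨N0 + n1 + n2 + n3 + 1, fun X hX z hz hzE α β hom y hy => ?_⟩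
  obtain ⟨r, hr1, hr2, hr3⟩ := h0 X (by omega) z hzE
  have a1 := h1 X (by omega)
  have hL := h2 X (by omega)
  have hV := h3 X (by omega) z hz hzE
  have hr3' := hr3 k
  obtain ⟨L, hLd⟩ : ∃ L, L = Real.log (X : ℝ) := ⟨_, rfl⟩
  rw [← hLd, ← hC'] at hr3'
  rw [← hLd] at hr1 a1 hL hV ⊢
  rw [one_mul] at a1
  have hL1 : 1 ≤ L := by linarith
  have hL0 : 0 < L := by linarith
  have hX1 : (1 : ℝ) ≤ X := by exact_mod_cast (by omega : 1 ≤ X)
  have hX0 : (0 : ℝ) < X := by linarith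
  have hss : √(X : ℝ) * √(X : ℝ) = X := Real.mul_self_sqrt hX0.le
  have hs0 : 0 < √(X : ℝ) := Real.sqrt_pos.2 hX0
  have hyX : (y : ℝ) ≤ X := by exact_mod_cast hy
  have hVpos : 0 < (Vz z)⁻¹ := inv_pos.2 (Vz_pos z)
  -- the sum
  have hsum : ∑ n ∈ Icc 1 y, ∏ i, mdl z (α i * (n : ℤ) + β i) = ((Vz z)⁻¹) ^ k *
      (((Icc 1 y).filter (fun n : ℕ => ∀ p ∈ pz z, ¬ ∃ i, (p : ℤ) ∣ α i * (n : ℤ) + β i)).card : ℝ) := by
    rw [card_filter]
    push_cast
    rw [mul_sum]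
    apply sum_congr rfl
    intro n _
    by_cases h5 : ∀ p ∈ pz z, ¬ ∃ i, (p : ℤ) ∣ α i * (n : ℤ) + β i
    · rw [if_pos h5, mul_one]
      have h7 : ∀ i : Fin k, mdl z (α i * (n : ℤ) + β i) = (Vz z)⁻¹ :=
        fun i => if_pos (fun p hp hd => h5 p hp ⟨i, hd⟩)
      rw [prod_congr rfl (fun i _ => h7 i), prod_const, card_univ, Fintype.card_fin]
    · rw [if_neg h5, mul_zero]
      push Not at h5
      obtain ⟨p, hp, i, hi⟩ := h5
      exact prod_eq_zero (mem_univ i) (if_neg (fun h => h p hp hi))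
  rw [hsum, Gz_eq, mul_assoc, ← mul_sub, abs_mul, abs_of_pos (by positivity : 0 < ((Vz z)⁻¹) ^ k)]
  have h5 := rough_sys hk α β hom z y r
  have h6 : |(((Icc 1 y).filter (fun n : ℕ => ∀ p ∈ pz z, ¬ ∃ i, (p : ℤ) ∣ α i * (n : ℤ) + β i)).card : ℝ) -
      (∏ p ∈ pz z, (1 - (om α β p : ℝ) / p)) * y| ≤ 3 * (X / L ^ (U + k + 2)) := by
    rw [mul_comm (∏ p ∈ pz z, (1 - (om α β p : ℝ) / p)) (y : ℝ)]
    refine h5.trans ?_
    have g1 : ((z : ℝ) + 1) ^ r ≤ √X := by
      rw [← Real.sqrt_sq (by positivity : (0 : ℝ) ≤ ((z : ℝ) + 1) ^ r)]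
      exact Real.sqrt_le_sqrt hr2
    have g2 : (k : ℝ) ^ r * ((z : ℝ) + 1) ^ r ≤ X / L ^ (U + k + 2) := by
      rw [le_div_iff₀ (by positivity)]
      calc (k : ℝ) ^ r * ((z : ℝ) + 1) ^ r * L ^ (U + k + 2) ≤ L ^ C' * √X * L ^ (U + k + 2) := by gcongr
        _ = √X * L ^ (C' + U + k + 2) := by
            rw [show C' + U + k + 2 = C' + (U + k + 2) by ring, pow_add L C']
            ring
        _ ≤ √X * √X := mul_le_mul_of_nonneg_left a1 hs0.le
        _ = X := hss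
    have g3 : 2 * (y : ℝ) * Real.exp (3 * (k * (1 + Real.log z)) - r) ≤ 2 * (X / L ^ (U + k + 2)) := by
      calc 2 * (y : ℝ) * Real.exp (3 * (k * (1 + Real.log z)) - r) ≤ 2 * X * (1 / L ^ (U + k + 2)) := by
            apply mul_le_mul (by linarith) hr1 (Real.exp_pos _).le (by positivity)
        _ = _ := by ring
    linarith
  calc ((Vz z)⁻¹) ^ k * |(((Icc 1 y).filter (fun n : ℕ => ∀ p ∈ pz z, ¬ ∃ i, (p : ℤ) ∣ α i * (n : ℤ) + β i)).card : ℝ) -
      (∏ p ∈ pz z, (1 - (om α β p : ℝ) / p)) * y| ≤ L ^ k * (3 * (X / L ^ (U + k + 2))) := by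
        apply mul_le_mul _ h6 (abs_nonneg _) (by positivity)
        exact pow_le_pow_left₀ hVpos.le hV k
    _ = (3 / L ^ 2) * (X / L ^ U) := by
        rw [show U + k + 2 = U + k + 2 from rfl, pow_add L (U + k) 2, pow_add L U k]
        field_simp
    _ ≤ 1 * (X / L ^ U) := by
        apply mul_le_mul_of_nonneg_right _ (by positivity)
        rw [div_le_one (by positivity)]
        nlinarith
    _ = _ := one_mul _

end Pool.Agent.TH935.TF
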