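import Pool.Agent.TH935.TF2
import Pool.Agent.TH935.LF6

set_option autoImplicit false

/-! Systems of linear forms: the main term with the weight of von Mangoldt. -/

namespace Pool.Agent.TH935.TF
open Finset
open Pool.Agent.H373R2.T7
open Pool.Agent.TH935.LF (exists_shift bad_sum)
open Pool.Agent.W93.GB (vM_le)

/-- the slopes with the form `n` added -/
def consA {k : ℕ} (α : Fin k → ℤ) : Fin (k + 1) → ℤ := Fin.cons 1 α

/-- the constant terms with the form `n` added -/
def consB {k : ℕ} (β : Fin k → ℤ) : Fin (k + 1) → ℤ := Fin.cons 0 β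

lemma consA_zero {k : ℕ} (α : Fin k → ℤ) : consA α 0 = 1 := rfl
lemma consA_succ {k : ℕ} (α : Fin k → ℤ) (i : Fin k) : consA α i.succ = α i := rfl
lemma consB_zero {k : ℕ} (β : Fin k → ℤ) : consB β 0 = 0 := rfl
lemma consB_succ {k : ℕ} (β : Fin k → ℤ) (i : Fin k) : consB β i.succ = β i := rfl

lemma Gz_nn {ν : ℕ → ℕ} {m : ℕ} (hlt : ∀ p : ℕ, p.Prime → ν p + 1 ≤ p) (z : ℕ) :
    0 ≤ Gz ν m z ∧ Gz ν m z ≤ (Vz z)⁻¹ ^ m := by
  have h0 : ∀ p ∈ pz z, 0 ≤ Fq ν m p ∧ Fq ν m p ≤ 1 / (1 - 1 / (p : ℝ)) ^ m := by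
    intro p hp
    have hpp := (mem_pz.1 hp).2
    have hp2 : (2 : ℝ) ≤ p := by exact_mod_cast hpp.two_le
    have hp0 : (0 : ℝ) < p := by linarith
    have hq : 0 < 1 - 1 / (p : ℝ) := by rw [sub_pos, div_lt_one hp0]; linarith
    have h1 : (ν p : ℝ) / p ≤ 1 := by
      rw [div_le_one hp0]
      have : ν p ≤ p := by have := hlt p hpp; omega
      exact_mod_cast this
    have h2 : 0 ≤ (ν p : ℝ) / p := by positivity
    unfold Fq
    constructor
    · apply div_nonneg _ (by positivity)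
      linarith
    · apply div_le_div_of_nonneg_right _ (by positivity)
      linarith
  have e : (Vz z)⁻¹ ^ m = ∏ p ∈ pz z, 1 / (1 - 1 / (p : ℝ)) ^ m := by
    unfold Vz
    rw [← prod_inv_distrib, ← prod_pow]
    apply prod_congr rfl
    intro p _
    rw [inv_pow, one_div ((1 - 1 / (p : ℝ)) ^ m)]
  unfold Gz
  rw [e]
  exact ⟨prod_nonneg fun p hp => (h0 p hp).1, prod_le_prod (fun p hp => (h0 p hp).1) fun p hp => (h0 p hp).2⟩

/-- the local equivalence -/
lemma loc_iff {k : ℕ} {α β : Fin k → ℤ} (h : Adm (consA α) (consB β)) (p : ℕ) (hp : p.Prime) (i : Fin k) (t : ℕ)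
    (ht : ((p : ℤ) ∣ 1 * α i → (p : ℤ) ∣ (t : ℤ)) ∧ (¬ (p : ℤ) ∣ 1 * α i → (p : ℤ) ∣ α i * t - β i)) (n : ℤ)
    (hn : (p : ℤ) ∣ α i → ¬ (p : ℤ) ∣ n) : (p : ℤ) ∣ n + t ↔ (p : ℤ) ∣ α i * n + β i := by
  have hpi : Prime (p : ℤ) := Nat.prime_iff_prime_int.1 hp
  rw [one_mul] at ht
  by_cases hα : (p : ℤ) ∣ α i
  · have h1 := hn hα
    have h2 := ht.1 hα
    have h3 : ¬ (p : ℤ) ∣ β i := by
      have := adm_ndvd h p hp i.succ (by rw [consA_succ]; exact hα)
      rwa [consB_succ] at this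
    constructor
    · intro h4
      exfalso
      apply h1
      have := dvd_sub h4 h2
      rwa [add_sub_cancel_right] at this
    · intro h4
      exfalso
      apply h3
      have := dvd_sub h4 (dvd_mul_of_dvd_left hα n)
      rwa [add_sub_cancel_left] at this
  · have h2 := ht.2 hα
    have e : α i * (n + t) = (α i * n + β i) + (α i * t - β i) := by ring
    constructor
    · intro h4
      have h5 : (p : ℤ) ∣ α i * (n + t) := dvd_mul_of_dvd_right h4 _
      rw [e] at h5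
      exact (Int.dvd_add_left h2).1 h5
    · intro h4
      have h5 : (p : ℤ) ∣ α i * (n + t) := by
        rw [e]
        exact dvd_add h4 h2
      exact (hpi.dvd_or_dvd h5).resolve_left hα

lemma nuP_om {k : ℕ} {α β : Fin k → ℤ} (h : Adm (consA α) (consB β)) (z : ℕ) (t : Fin k → ℕ)
    (ht : ∀ i, ∀ p : ℕ, p.Prime → p ≤ z → (((p : ℤ) ∣ 1 * α i → (p : ℤ) ∣ (t i : ℤ)) ∧ (¬ (p : ℤ) ∣ 1 * α i → (p : ℤ) ∣ α i * t i - β i)))
    (p : ℕ) (hp : p.Prime) (hpz : p ≤ z) : nuP (fun i => (t i : ℤ)) p = om (consA α) (consB β) p := by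
  unfold nuP om
  congr 1
  apply filter_congr
  intro r _
  rw [Fin.exists_fin_succ, consA_zero, consB_zero, one_mul, add_zero, Int.natCast_dvd_natCast]
  by_cases hr : p ∣ r
  · simp [hr]
  · apply or_congr Iff.rfl
    apply exists_congr
    intro i
    rw [consA_succ, consB_succ]
    exact loc_iff h p hp i (t i) (ht i p hp hpz) r (fun _ h2 => hr (Int.natCast_dvd_natCast.1 h2))


set_option maxHeartbeats 4000000 in
/-- the main term, weight of von Mangoldt -/
theorem main_lam (k E D U : ℕ) (hk : 1 ≤ k) : ∃ X0 : ℕ, ∀ X : ℕ, X0 ≤ X → ∀ z : ℕ, 1 ≤ z → (z : ℝ) ≤ Real.log X ^ E →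
    ∀ α β : Fin k → ℤ, (∀ i, α i ≠ 0) → (∀ i, ((α i).natAbs : ℝ) ≤ Real.log X ^ D) → Adm (consA α) (consB β) →
    ∀ y : ℕ, y ≤ X →
    |∑ n ∈ Icc 1 y, ArithmeticFunction.vonMangoldt n * ∏ i, mdl z (α i * (n : ℤ) + β i) -
      Gz (om (consA α) (consB β)) (k + 1) z * y| ≤ X / Real.log X ^ U := by
  classical
  obtain ⟨N0, h0⟩ := tuple_main k (E + 1) (U + 2) hk
  obtain ⟨n2, h2⟩ := ev_L' (2 * 2 ^ E + 2 ^ (U + 2) + 10)
  obtain ⟨n3, h3⟩ := Vz_inv_small E
  obtain ⟨n4, h4⟩ := ev_log' (k * D + U + k + 6) 1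
  refine ⟨N0 ^ 2 + n2 + n3 + n4 + 4, fun X hX z hz1 hz2 α β hα hαL hadm y hy => ?_⟩
  have a2 := h2 X (by omega)
  have hV := h3 X (by omega) z hz1
  have a4 := h4 X (by omega)
  obtain ⟨L, hL⟩ : ∃ L, L = Real.log (X : ℝ) := ⟨_, rfl⟩
  rw [← hL] at a2 hV a4 hz2 hαL ⊢
  rw [one_mul] at a4
  have hp1 : (0 : ℝ) < 2 ^ E := by positivity
  have hp2 : (0 : ℝ) < 2 ^ (U + 2) := by positivity
  have hL10 : 10 ≤ L := by linarith
  have hL1 : 1 ≤ L := by linarith
  have hL0 : 0 < L := by linarith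
  have hX4 : (4 : ℝ) ≤ X := by exact_mod_cast (by omega : 4 ≤ X)
  have hX0 : (0 : ℝ) < X := by linarith
  have hss : √(X : ℝ) * √(X : ℝ) = X := Real.mul_self_sqrt hX0.le
  have hs0 : 0 < √(X : ℝ) := Real.sqrt_pos.2 hX0
  have hV' := hV hz2
  have hVp : 0 < (Vz z)⁻¹ := inv_pos.2 (Vz_pos z)
  have hyX : (y : ℝ) ≤ X := by exact_mod_cast hy
  have hy0 : (0 : ℝ) ≤ y := Nat.cast_nonneg _
  obtain ⟨hG0, hG1⟩ := Gz_nn (m := k + 1) (fun p hp => om_lt hadm p hp) z
  obtain ⟨G, hG⟩ : ∃ G, G = Gz (om (consA α) (consB β)) (k + 1) z := ⟨_, rfl⟩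
  rw [← hG] at hG0 hG1 ⊢
  have hG2 : G ≤ L ^ (k + 1) := hG1.trans (pow_le_pow_left₀ hVp.le hV' _)
  have hprod : ∀ n : ℕ, 0 ≤ ∏ i, mdl z (α i * (n : ℤ) + β i) ∧ ∏ i, mdl z (α i * (n : ℤ) + β i) ≤ L ^ k := by
    intro n
    refine ⟨prod_nonneg fun i _ => mdl_nonneg _ _, ?_⟩
    calc ∏ i, mdl z (α i * (n : ℤ) + β i) ≤ ∏ _i : Fin k, L := prod_le_prod (fun i _ => mdl_nonneg _ _) (fun i _ => (mdl_le _ _).trans hV')
      _ = L ^ k := by rw [prod_const, card_univ, Fintype.card_fin]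
  rcases le_or_gt (√(X : ℝ)) y with hysq | hysq
  · have hy0' : (0 : ℝ) < y := lt_of_lt_of_le hs0 hysq
    have hlogy : L / 2 ≤ Real.log y := by
      have h6 : Real.log (√(X : ℝ)) = L / 2 := by rw [Real.log_sqrt hX0.le, ← hL]
      rw [← h6]
      exact Real.log_le_log hs0 hysq
    have hly0 : 0 < Real.log y := by linarith
    have hlyL : Real.log y ≤ L := by rw [hL]; exact Real.log_le_log hy0' hyX
    have hyN : N0 ≤ y := by
      have h6 : ((N0 : ℝ)) ≤ √(X : ℝ) := by
        apply Real.le_sqrt_of_sq_le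
        exact_mod_cast (by omega : N0 ^ 2 ≤ X)
      exact_mod_cast h6.trans hysq
    have hLy : L ^ E ≤ Real.log y ^ (E + 1) := by
      calc L ^ E ≤ (2 * Real.log y) ^ E := pow_le_pow_left₀ hL0.le (by linarith) _
        _ = 2 ^ E * Real.log y ^ E := mul_pow _ _ _
        _ ≤ Real.log y * Real.log y ^ E := mul_le_mul_of_nonneg_right (by linarith) (by positivity)
        _ = Real.log y ^ (E + 1) := by ring
    choose t ht using fun i => exists_shift z 1 (α i) (β i)
    have key := h0 y hyN z hz1 (hz2.trans hLy) (fun i => (t i : ℤ))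
    -- the constants
    have hsing : singZ (fun i => (t i : ℤ)) z = G := by
      rw [hG]
      unfold singZ Gz pz Fq
      apply prod_congr rfl
      intro p hp
      rw [mem_filter, mem_Icc] at hp
      rw [nuP_om hadm z t ht p hp.2 hp.1.2]
    rw [hsing] at key
    -- the product of the slopes
    obtain ⟨b, hb⟩ : ∃ b, b = ∏ i, (α i).natAbs := ⟨_, rfl⟩
    have hb1 : 1 ≤ b := by
      rw [hb]
      exact Nat.pos_of_ne_zero (prod_ne_zero_iff.2 fun i _ => Int.natAbs_ne_zero.2 (hα i))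
    have hbL : (b : ℝ) ≤ L ^ (k * D) := by
      rw [hb]
      push_cast
      calc ∏ i, ((α i).natAbs : ℝ) ≤ ∏ _i : Fin k, L ^ D := prod_le_prod (fun i _ => Nat.cast_nonneg _) (fun i _ => hαL i)
        _ = L ^ (k * D) := by rw [prod_const, card_univ, Fintype.card_fin, ← pow_mul, mul_comm]
    -- comparison
    have hcmp : |∑ n ∈ Icc 1 y, ArithmeticFunction.vonMangoldt n * ∏ i, mdl z (α i * (n : ℤ) + β i) -
        ∑ n ∈ Icc 1 y, ArithmeticFunction.vonMangoldt n *
          ∏ i, (if ∀ p ∈ pz z, ¬ (p : ℤ) ∣ (n : ℤ) + (t i : ℤ) then (Vz z)⁻¹ else 0)| ≤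
        L ^ k * (((b : ℝ) + 1) * ((Nat.log 2 y : ℝ) + 1) * Real.log y) := by
      rw [← sum_sub_distrib]
      refine (abs_sum_le_sum_abs _ _).trans ?_
      have hyn : 1 ≤ y := by exact_mod_cast hy0'
      have h5 := bad_sum b y hb1 hyn
      refine le_trans ?_ (mul_le_mul_of_nonneg_left h5 (by positivity : (0 : ℝ) ≤ L ^ k))
      rw [mul_sum, sum_filter]
      apply sum_le_sum
      intro n _
      by_cases hco : Nat.Coprime n b
      swap
      · -- not coprime
        rw [if_pos hco, ← mul_sub, abs_mul, abs_of_nonneg ArithmeticFunction.vonMangoldt_nonneg, mul_comm]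
        apply mul_le_mul_of_nonneg_right _ ArithmeticFunction.vonMangoldt_nonneg
        have h6 : 0 ≤ ∏ i, (if ∀ p ∈ pz z, ¬ (p : ℤ) ∣ (n : ℤ) + (t i : ℤ) then (Vz z)⁻¹ else 0) := by
          apply prod_nonneg
          intro i _
          split_ifs
          · exact hVp.le
          · exact le_rfl
        have h7 : ∏ i, (if ∀ p ∈ pz z, ¬ (p : ℤ) ∣ (n : ℤ) + (t i : ℤ) then (Vz z)⁻¹ else 0) ≤ L ^ k := by
          calc ∏ i, (if ∀ p ∈ pz z, ¬ (p : ℤ) ∣ (n : ℤ) + (t i : ℤ) then (Vz z)⁻¹ else 0) ≤ ∏ _i : Fin k, L := by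
                apply prod_le_prod
                · intro i _
                  split_ifs
                  · exact hVp.le
                  · exact le_rfl
                · intro i _
                  split_ifs
                  · exact hV'
                  · exact hL0.le
            _ = L ^ k := by rw [prod_const, card_univ, Fintype.card_fin]
        obtain ⟨g1, g2⟩ := hprod n
        rw [abs_le]
        constructor <;> linarith
      · -- coprime
        rw [if_neg (not_not.2 hco)]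
        have hco' : Nat.Coprime n b := hco
        have h6 : ∏ i, mdl z (α i * (n : ℤ) + β i) =
            ∏ i, (if ∀ p ∈ pz z, ¬ (p : ℤ) ∣ (n : ℤ) + (t i : ℤ) then (Vz z)⁻¹ else 0) := by
          apply prod_congr rfl
          intro i _
          unfold mdl
          have h7 : ∀ p ∈ pz z, ((p : ℤ) ∣ (n : ℤ) + (t i : ℤ) ↔ (p : ℤ) ∣ α i * (n : ℤ) + β i) := by
            intro p hp
            obtain ⟨hpz, hpp⟩ := mem_pz.1 hp
            refine loc_iff hadm p hpp i (t i) (ht i p hpp hpz) n fun h8 h9 => ?_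
            have h10 : p ∣ b := by
              rw [hb]
              exact (Int.natCast_dvd.1 h8).trans (dvd_prod_of_mem _ (mem_univ i))
            exact hpp.one_lt.ne' (Nat.dvd_one.1 (hco' ▸ Nat.dvd_gcd (Int.natCast_dvd_natCast.1 h9) h10))
          by_cases hall : ∀ p ∈ pz z, ¬ (p : ℤ) ∣ α i * (n : ℤ) + β i
          · rw [if_pos hall, if_pos (fun p hp h => hall p hp ((h7 p hp).1 h))]
          · rw [if_neg hall, if_neg (fun h => hall fun p hp h' => h p hp ((h7 p hp).2 h'))]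
        rw [h6, sub_self, abs_zero]
    have hlog2 : (Nat.log 2 y : ℝ) ≤ 2 * L := by
      refine (natlog_le y (by exact_mod_cast hy0')).trans ?_
      linarith
    have h6 : L ^ k * (((b : ℝ) + 1) * ((Nat.log 2 y : ℝ) + 1) * Real.log y) ≤ X / L ^ (U + 1) := by
      rw [le_div_iff₀ (by positivity)]
      have g1 : (b : ℝ) + 1 ≤ L ^ (k * D + 1) := by
        have : 1 ≤ L ^ (k * D) := one_le_pow₀ hL1
        rw [pow_succ]
        nlinarith
      have g2 : (Nat.log 2 y : ℝ) + 1 ≤ L ^ 2 := by nlinarith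
      calc L ^ k * (((b : ℝ) + 1) * ((Nat.log 2 y : ℝ) + 1) * Real.log y) * L ^ (U + 1)
          ≤ L ^ k * (L ^ (k * D + 1) * L ^ 2 * L) * L ^ (U + 1) := by gcongr
        _ = L ^ (k * D + U + k + 5) := by ring
        _ ≤ L ^ (k * D + U + k + 6) := pow_le_pow_right₀ hL1 (by omega)
        _ ≤ √X := a4
        _ ≤ √X * √X := by
            have : 1 ≤ √(X : ℝ) := (one_le_pow₀ hL1).trans a4
            nlinarith
        _ = X := hss
    have h7 : (y : ℝ) / Real.log y ^ (U + 2) ≤ X / L ^ (U + 1) := by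
      rw [div_le_div_iff₀ (by positivity) (by positivity)]
      calc (y : ℝ) * L ^ (U + 1) ≤ X * L ^ (U + 1) := mul_le_mul_of_nonneg_right hyX (by positivity)
        _ ≤ X * (L / 2) ^ (U + 2) := by
            apply mul_le_mul_of_nonneg_left _ hX0.le
            rw [div_pow, le_div_iff₀ hp2, show U + 2 = (U + 1) + 1 by ring, pow_succ L (U + 1)]
            apply mul_le_mul_of_nonneg_left _ (by positivity)
            rw [show U + 1 + 1 = U + 2 by ring]
            linarith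
        _ ≤ X * Real.log y ^ (U + 2) := by
            apply mul_le_mul_of_nonneg_left _ hX0.le
            exact pow_le_pow_left₀ (by linarith) hlogy _
    have h8 : 2 * (X / L ^ (U + 1)) ≤ X / L ^ U := by
      rw [pow_succ L U, ← div_div]
      have h9 : 0 ≤ X / L ^ U := by positivity
      rw [← mul_div_assoc, div_le_iff₀ hL0]
      nlinarith
    have h9 := abs_le.1 hcmp
    have h10 := abs_le.1 key
    rw [abs_le]
    constructor <;> linarith [h9.1, h9.2, h10.1, h10.2]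
  · have g1 : |∑ n ∈ Icc 1 y, ArithmeticFunction.vonMangoldt n * ∏ i, mdl z (α i * (n : ℤ) + β i)| ≤ y * L ^ (k + 1) := by
      refine (abs_sum_le_sum_abs _ _).trans ?_
      have h5 : ∀ n ∈ Icc 1 y, |ArithmeticFunction.vonMangoldt n * ∏ i, mdl z (α i * (n : ℤ) + β i)| ≤ L ^ (k + 1) := by
        intro n hn
        rw [mem_Icc] at hn
        obtain ⟨g1, g2⟩ := hprod n
        rw [abs_mul, abs_of_nonneg ArithmeticFunction.vonMangoldt_nonneg, abs_of_nonneg g1, pow_succ, mul_comm (L ^ k)]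
        apply mul_le_mul _ g2 g1 hL0.le
        rw [hL]
        exact vM_le n X (by omega) (by omega)
      refine (sum_le_sum h5).trans (le_of_eq ?_)
      rw [sum_const, Nat.card_Icc, nsmul_eq_mul, Nat.add_sub_cancel]
    have g2 : |G * y| ≤ y * L ^ (k + 1) := by
      rw [abs_of_nonneg (mul_nonneg hG0 hy0), mul_comm]
      exact mul_le_mul_of_nonneg_left hG2 hy0
    have g3 : (y : ℝ) * L ^ (k + 1) * 2 ≤ X / L ^ U := by
      rw [le_div_iff₀ (by positivity)]
      calc (y : ℝ) * L ^ (k + 1) * 2 * L ^ U ≤ √X * L ^ (k + 1) * L * L ^ U := by gcongr; linarith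
        _ = √X * L ^ (k + U + 2) := by ring
        _ ≤ √X * L ^ (k * D + U + k + 6) := mul_le_mul_of_nonneg_left (pow_le_pow_right₀ hL1 (by omega)) hs0.le
        _ ≤ √X * √X := mul_le_mul_of_nonneg_left a4 hs0.le
        _ = X := hss
    have g4 := abs_sub (∑ n ∈ Icc 1 y, ArithmeticFunction.vonMangoldt n * ∏ i, mdl z (α i * (n : ℤ) + β i)) (G * y)
    linarith

end Pool.Agent.TH935.TF
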