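import Pool.Agent.TH935.TF3
import Pool.Agent.H373R2.T7.Telesc

set_option autoImplicit false

/-! Systems of linear forms: the first moment over products of families. -/

namespace Pool.Agent.TH935.TF
open Finset
open Pool.Agent.H373R2.T7
open Pool.Agent.TH935.LF (Dz lin_mom)
open Pool.Agent.W93.GB (vM_le)

/-- `Λ(|m|)` -/
noncomputable def LL (m : ℤ) : ℝ := ArithmeticFunction.vonMangoldt m.natAbs

lemma LL_nonneg (m : ℤ) : 0 ≤ LL m := ArithmeticFunction.vonMangoldt_nonneg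

lemma LL_le (m : ℤ) (X : ℕ) (hX : 1 ≤ X) (h : m.natAbs ≤ X) : LL m ≤ Real.log X := vM_le _ _ hX h

lemma Dz_one (z : ℕ) (m : ℤ) : Dz z 1 m = lamI m - lamzI z m := by
  unfold Dz
  simp

lemma LL_sub (z : ℕ) (hz : 2 ≤ z) (m : ℤ) : LL m - mdl z m = Dz z 1 m + Dz z 1 (-m) := by
  have h2 : 2 ∈ pz z := mem_pz.2 ⟨hz, Nat.prime_two⟩
  rw [Dz_one, Dz_one]
  unfold LL mdl lamI lamzI lamz
  rcases lt_trichotomy m 0 with h | h | h
  · have e1 : ¬ 1 ≤ m := by omega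
    have e2 : 1 ≤ -m := by omega
    rw [if_neg e1, if_pos e2, if_neg e1, if_pos e2]
    have e3 : (-m).toNat = m.natAbs := by omega
    rw [e3]
    have e4 : (∀ p ∈ pz z, ¬ p ∣ m.natAbs) ↔ (∀ p ∈ pz z, ¬ (p : ℤ) ∣ m) := by
      apply forall_congr'
      intro p
      rw [Int.natCast_dvd]
    by_cases h5 : ∀ p ∈ pz z, ¬ (p : ℤ) ∣ m
    · rw [if_pos h5, if_pos (e4.2 h5)]; ring
    · rw [if_neg h5, if_neg (fun h => h5 (e4.1 h))]; ring
  · subst h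
    simp only [neg_zero]
    have e1 : ¬ (1 : ℤ) ≤ 0 := by omega
    rw [if_neg e1, if_neg e1, if_neg]
    · simp
    · intro h
      exact h 2 h2 (dvd_zero _)
  · have e1 : 1 ≤ m := by omega
    have e2 : ¬ 1 ≤ -m := by omega
    rw [if_pos e1, if_neg e2, if_pos e1, if_neg e2]
    have e3 : m.toNat = m.natAbs := by omega
    rw [e3]
    have e4 : (∀ p ∈ pz z, ¬ p ∣ m.natAbs) ↔ (∀ p ∈ pz z, ¬ (p : ℤ) ∣ m) := by
      apply forall_congr'
      intro p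
      rw [Int.natCast_dvd]
    by_cases h5 : ∀ p ∈ pz z, ¬ (p : ℤ) ∣ m
    · rw [if_pos h5, if_pos (e4.2 h5)]; ring
    · rw [if_neg h5, if_neg (fun h => h5 (e4.1 h))]; ring

lemma energy_neg (h x : ℕ) (s : ℕ → ℤ) : energy h x (fun m => -s m) = energy h x s := by
  unfold energy
  congr 1
  apply filter_congr
  intro q _
  change (∑ i, -s (q.1 i) = ∑ i, -s (q.2 i)) ↔ _
  rw [sum_neg_distrib, sum_neg_distrib, neg_inj]

/-- one coordinate -/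
theorem one_mom (h C U D : ℕ) : ∃ B0 : ℕ, ∀ E : ℕ, ∃ N0 : ℕ, ∀ N : ℕ, N0 ≤ N → ∀ (x : ℕ) (s : ℕ → ℤ),
    (∀ m ∈ Icc 1 x, |s m| ≤ N) →
    (energy h x s : ℝ) * N ≤ Real.log N ^ C * (x : ℝ) ^ (2 * h) →
    ∀ z : ℕ, Real.log N ^ B0 ≤ z → (z : ℝ) ≤ Real.log N ^ E →
    ∀ α : ℤ, α ≠ 0 → ∀ y : ℕ, α.natAbs * y ≤ N →
    ∀ K : ℝ, 0 < K → ∀ G : ℕ → ℝ, (∀ q ∈ Icc 1 y, |G q| ≤ K) →
    ∑ m ∈ Icc 1 x, |∑ q ∈ Icc 1 y, G q * (LL (α * q + s m) - mdl z (α * q + s m))| ≤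
      K * ((2 * N / Real.log N ^ U) * x) := by
  obtain ⟨B0, h0⟩ := lin_mom h C U D
  refine ⟨B0 + 1, fun E => ?_⟩
  obtain ⟨n1, h1⟩ := h0 E
  obtain ⟨n2, h2⟩ := ev_L' 2
  refine ⟨n1 + n2, fun N hN x s hs hE z hz1 hz2 α hα y hy K hK G hG => ?_⟩
  have hL := h2 N (by omega)
  have hL1 : 1 ≤ Real.log (N : ℝ) := by linarith
  have hz : 2 ≤ z := by
    have h5 : (2 : ℝ) ≤ z := by
      refine le_trans ?_ hz1
      calc (2 : ℝ) ≤ Real.log N := hL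
        _ ≤ Real.log N ^ (B0 + 1) := le_self_pow₀ hL1 (by omega)
    exact_mod_cast h5
  have hzB : Real.log N ^ B0 ≤ z := (pow_le_pow_right₀ hL1 (by omega)).trans hz1
  have k1 := h1 N (by omega) x s hs hE z hzB hz2 1 le_rfl (by rw [Nat.cast_one]; exact one_le_pow₀ hL1) α hα y hy K hK G hG
  have k2 := h1 N (by omega) x (fun m => -s m) (fun m hm => by rw [abs_neg]; exact hs m hm) (by rw [energy_neg]; exact hE)
    z hzB hz2 1 le_rfl (by rw [Nat.cast_one]; exact one_le_pow₀ hL1) (-α) (neg_ne_zero.2 hα) y (by rw [Int.natAbs_neg]; exact hy) K hK G hG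
  have h3 : ∀ m ∈ Icc 1 x, |∑ q ∈ Icc 1 y, G q * (LL (α * q + s m) - mdl z (α * q + s m))| ≤
      |∑ q ∈ Icc 1 y, G q * Dz z 1 (s m + α * q)| + |∑ q ∈ Icc 1 y, G q * Dz z 1 (-s m + -α * q)| := by
    intro m _
    refine le_trans (le_of_eq ?_) (abs_add_le _ _)
    rw [← sum_add_distrib]
    congr 1
    apply sum_congr rfl
    intro q _
    rw [LL_sub z hz, show s m + α * (q : ℤ) = α * q + s m by ring, show -s m + -α * (q : ℤ) = -(α * q + s m) by ring]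
    ring
  refine (sum_le_sum h3).trans ?_
  rw [sum_add_distrib]
  calc _ ≤ K * (N * x / Real.log N ^ U) + K * (N * x / Real.log N ^ U) := add_le_add k1 k2
    _ = _ := by ring

set_option maxHeartbeats 4000000 in
/-- products of families -/
theorem prod_mom (k h C U D : ℕ) : ∃ B0 : ℕ, ∀ E : ℕ, ∃ N0 : ℕ, ∀ N : ℕ, N0 ≤ N →
    ∀ (x : Fin k → ℕ) (s : Fin k → ℕ → ℤ), (∀ i, 1 ≤ x i) → (∀ i, ∀ m ∈ Icc 1 (x i), |s i m| ≤ N) →
    (∀ i, (energy h (x i) (s i) : ℝ) * N ≤ Real.log N ^ C * (x i : ℝ) ^ (2 * h)) →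
    ∀ z : ℕ, Real.log N ^ B0 ≤ z → (z : ℝ) ≤ Real.log N ^ E →
    ∀ α : Fin k → ℤ, (∀ i, α i ≠ 0) → ∀ y : ℕ, (∀ i, (α i).natAbs * y ≤ N) →
    ∀ w : ℕ → ℝ, (∀ n ∈ Icc 1 y, |w n| ≤ Real.log N) →
    ∑ m ∈ Fintype.piFinset (fun i => Icc 1 (x i)),
      |∑ n ∈ Icc 1 y, w n * (∏ i, LL (α i * n + s i (m i)) - ∏ i, mdl z (α i * n + s i (m i)))| ≤
      (N / Real.log N ^ U) * ∏ i, (x i : ℝ) := by
  classical
  obtain ⟨B0, h0⟩ := one_mom h C (U + k + 2) D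
  refine ⟨B0 + 1, fun E => ?_⟩
  obtain ⟨n1, h1⟩ := h0 E
  obtain ⟨n2, h2⟩ := ev_L' (k * 2 ^ k * 2 + 2)
  obtain ⟨n3, h3⟩ := Vz_inv_small E
  refine ⟨n1 + n2 + n3 + 2, fun N hN x s hx hs hE z hz1 hz2 α hα y hy w hw => ?_⟩
  have hL := h2 N (by omega)
  obtain ⟨L, hLd⟩ : ∃ L, L = Real.log (N : ℝ) := ⟨_, rfl⟩
  have hq : (0 : ℝ) ≤ k * 2 ^ k * 2 := by positivity
  have c1 := h1 N (by omega)
  have c3 := h3 N (by omega) z
  rw [← hLd] at hL c1 c3 hE hz1 hz2 hw ⊢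
  have hL1 : 1 ≤ L := by linarith
  have hL2 : 2 ≤ L := by linarith
  have hL0 : 0 < L := by linarith
  have hz1' : 1 ≤ z := by
    have : (1 : ℝ) ≤ z := (one_le_pow₀ hL1).trans hz1
    exact_mod_cast this
  have hV := c3 hz1' hz2
  have hN2 : (2 : ℝ) ≤ N := by exact_mod_cast (by omega : 2 ≤ N)
  have hN0 : (0 : ℝ) < N := by linarith
  have hval : ∀ i, ∀ n ∈ Icc 1 y, ∀ v ∈ Icc 1 (x i), (α i * n + s i v).natAbs ≤ 2 * N := by
    intro i n hn v hv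
    rw [mem_Icc] at hn
    have e1 := hs i v hv
    have e2 : (α i).natAbs * n ≤ N := (Nat.mul_le_mul_left _ hn.2).trans (hy i)
    have e3 : (α i * (n : ℤ)).natAbs ≤ N := by rw [Int.natAbs_mul, Int.natAbs_natCast]; exact e2
    have e4 : (s i v).natAbs ≤ N := by
      have : ((s i v).natAbs : ℤ) ≤ N := by rw [Int.natCast_natAbs]; exact e1
      exact_mod_cast this
    have := Int.natAbs_add_le (α i * (n : ℤ)) (s i v)
    omega
  have hlog2N : Real.log ((2 * N : ℕ) : ℝ) ≤ 2 * L := by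
    push_cast
    have e1 : (2 : ℝ) * N ≤ N ^ 2 := by nlinarith
    have e2 := Real.log_le_log (by positivity) e1
    rw [Real.log_pow, ← hLd] at e2
    exact_mod_cast e2
  have hP : ∀ i, ∀ n ∈ Icc 1 y, ∀ v ∈ Icc 1 (x i), |LL (α i * n + s i v)| ≤ 2 * L := by
    intro i n hn v hv
    rw [abs_of_nonneg (LL_nonneg _)]
    exact (LL_le _ (2 * N) (by omega) (hval i n hn v hv)).trans hlog2N
  have hQ : ∀ i, ∀ n ∈ Icc 1 y, ∀ v ∈ Icc 1 (x i), |mdl z (α i * n + s i v)| ≤ 2 * L := by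
    intro i n hn v hv
    rw [abs_of_nonneg (mdl_nonneg _ _)]
    exact (mdl_le _ _).trans (by linarith)
  have key := tele y x hx (fun i n v => LL (α i * n + s i v)) (fun i n v => mdl z (α i * n + s i v)) (2 * L)
    (2 * N / L ^ (U + k + 2)) (by linarith) (by positivity) hP hQ
    (by
      intro i K hK G hG
      exact c1 (x i) (s i) (hs i) (hE i) z ((pow_le_pow_right₀ hL1 (by omega)).trans hz1) hz2 (α i) (hα i) y (hy i) K hK G hG)
    univ L hL0 (fun n _ => w n) (fun n hn m _ => hw n hn) (fun _ _ _ _ _ => rfl)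
  refine key.trans ?_
  rw [card_univ, Fintype.card_fin]
  apply mul_le_mul_of_nonneg_right _ (prod_nonneg fun i _ => Nat.cast_nonneg _)
  have e : (k : ℝ) * (L * (2 * L) ^ k * (2 * N / L ^ (U + k + 2))) = (k * 2 ^ k * 2 / L) * (N / L ^ U) := by
    rw [mul_pow, show U + k + 2 = U + k + 1 + 1 by ring, pow_succ L (U + k + 1), pow_succ L (U + k), pow_add L U k]
    field_simp
  rw [e]
  have h5 : (k * 2 ^ k * 2 / L : ℝ) ≤ 1 := by
    rw [div_le_one hL0]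
    linarith
  calc (k * 2 ^ k * 2 / L : ℝ) * (N / L ^ U) ≤ 1 * (N / L ^ U) := mul_le_mul_of_nonneg_right h5 (by positivity)
    _ = _ := one_mul _

end Pool.Agent.TH935.TF
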