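import Pool.Agent.TH935.TF4

set_option autoImplicit false

/-! Systems of linear forms: from grid points to windows. -/

namespace Pool.Agent.TH935.TF
open Finset
open Pool.Agent.H373R2.T7
open Pool.Agent.W93.GB (vM_le)

lemma icc_split (w : ℕ → ℝ) (u v : ℕ) (huv : u ≤ v) : ∑ q ∈ Icc 1 v, w q = ∑ q ∈ Icc 1 u, w q + ∑ q ∈ Ioc u v, w q := by
  have h3 : Icc 1 v = Icc 1 u ∪ Ioc u v := by
    ext n
    rw [mem_union, mem_Icc, mem_Icc, mem_Ioc]
    omega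
  have h4 : Disjoint (Icc 1 u) (Ioc u v) := by
    rw [disjoint_left]
    intro n h5 h6
    rw [mem_Icc] at h5
    rw [mem_Ioc] at h6
    omega
  rw [h3, sum_union h4]

lemma icc_mono (f : ℕ → ℝ) (hf : ∀ n, 0 ≤ f n) (u v : ℕ) (huv : u ≤ v) : ∑ q ∈ Icc 1 u, f q ≤ ∑ q ∈ Icc 1 v, f q := by
  rw [icc_split f u v huv]
  have : 0 ≤ ∑ q ∈ Ioc u v, f q := sum_nonneg fun n _ => hf n
  linarith

/-- from grid points to all points -/
lemma grid_all (f g : ℕ → ℝ) (hf : ∀ n, 0 ≤ f n) (Y T s : ℕ) (hs : 1 ≤ s) (hT : Y ≤ T * s) (G δ : ℝ) (hG : 0 ≤ G)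
    (h1 : ∀ y ≤ Y, |∑ n ∈ Icc 1 y, g n - G * y| ≤ δ)
    (h2 : ∀ i ≤ T, |∑ n ∈ Icc 1 (min (i * s) Y), f n - ∑ n ∈ Icc 1 (min (i * s) Y), g n| ≤ δ) (y : ℕ) (hy : y ≤ Y) :
    |∑ n ∈ Icc 1 y, f n - G * y| ≤ 2 * δ + G * s := by
  have hgrid : ∀ i ≤ T, |∑ n ∈ Icc 1 (min (i * s) Y), f n - G * ((min (i * s) Y : ℕ) : ℝ)| ≤ 2 * δ := by
    intro i hi
    have a1 := h1 (min (i * s) Y) (min_le_right _ _)
    have a2 := h2 i hi
    rw [abs_le] at a1 a2 ⊢
    constructor <;> linarith [a1.1, a1.2, a2.1, a2.2]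
  obtain ⟨i, hi⟩ : ∃ i, i = y / s := ⟨_, rfl⟩
  have b1 : i * s ≤ y := by rw [hi]; exact Nat.div_mul_le_self y s
  have b2 : y < (i + 1) * s := by
    rw [hi]
    have := Nat.lt_div_mul_add (show 0 < s by omega) (a := y)
    rw [add_mul, one_mul]
    exact this
  have hiT : i ≤ T := by
    have h5 : i * s ≤ T * s := b1.trans (hy.trans hT)
    exact Nat.le_of_mul_le_mul_right h5 (by omega)
  have hlow := hgrid i hiT
  rw [min_eq_left (b1.trans hy)] at hlow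
  have c1 := icc_mono f hf _ _ b1
  have b2r : (y : ℝ) ≤ (i * s : ℕ) + s := by
    have : y ≤ i * s + s := by rw [add_mul, one_mul] at b2; omega
    exact_mod_cast this
  have d1 : G * (y : ℝ) ≤ G * ((i * s : ℕ) : ℝ) + G * s := by
    rw [← mul_add]
    exact mul_le_mul_of_nonneg_left b2r hG
  have hsr : (0 : ℝ) ≤ s := Nat.cast_nonneg _
  have hGs : 0 ≤ G * s := mul_nonneg hG hsr
  rw [abs_le] at hlow
  have hup : ∑ n ∈ Icc 1 y, f n ≤ G * y + (2 * δ + G * s) := by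
    rcases Nat.lt_or_ge i T with hlt | hge
    · have hhi := hgrid (i + 1) hlt
      have hyg : y ≤ min ((i + 1) * s) Y := le_min b2.le hy
      have c2 := icc_mono f hf _ _ hyg
      have b3 : (((min ((i + 1) * s) Y : ℕ)) : ℝ) ≤ y + s := by
        have : min ((i + 1) * s) Y ≤ y + s := by
          refine (min_le_left _ _).trans ?_
          rw [add_mul, one_mul]
          omega
        exact_mod_cast this
      have d2 : G * (((min ((i + 1) * s) Y : ℕ)) : ℝ) ≤ G * y + G * s := by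
        rw [← mul_add]
        exact mul_le_mul_of_nonneg_left b3 hG
      rw [abs_le] at hhi
      linarith [hhi.2]
    · have hi' : i = T := by omega
      have hye : y = i * s := by
        have h5 : Y ≤ i * s := by rw [hi']; exact hT
        omega
      rw [← hye] at hlow
      linarith [hlow.2]
  rw [abs_le]
  constructor
  · linarith [hlow.1]
  · linarith

/-- the data: weight `w`, local densities `ν`, local conditions `Cond` -/
structure Dat (k m : ℕ) (w : ℕ → ℝ) (ν : (Fin k → ℤ) → (Fin k → ℤ) → ℕ → ℕ) (Cond : (Fin k → ℤ) → (Fin k → ℤ) → Prop) : Prop where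
  hm : 1 ≤ m
  w0 : ∀ n, 0 ≤ w n
  w1 : ∀ X n : ℕ, 3 ≤ X → n ≤ X → w n ≤ Real.log X
  loc : ∃ c : ℕ, ∀ X : ℕ, 1 ≤ X → ∀ α β, (∀ i, α i ≠ 0) → (∀ i, (α i).natAbs ≤ X) → (∀ i, (β i).natAbs ≤ X) → Cond α β →
    ∃ bad : Finset ℕ, Loc (ν α β) m bad ∧ bad.card ≤ c * Nat.log 2 (2 * X ^ 2)
  main : ∀ E D U : ℕ, ∃ X0 : ℕ, ∀ X : ℕ, X0 ≤ X → ∀ z : ℕ, 1 ≤ z → (z : ℝ) ≤ Real.log X ^ E →
    ∀ α β : Fin k → ℤ, (∀ i, α i ≠ 0) → (∀ i, ((α i).natAbs : ℝ) ≤ Real.log X ^ D) → Cond α β →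
    ∀ y : ℕ, y ≤ X → |∑ n ∈ Icc 1 y, w n * ∏ i, mdl z (α i * (n : ℤ) + β i) - Gz (ν α β) m z * y| ≤ X / Real.log X ^ U

variable {k m : ℕ} {w : ℕ → ℝ} {ν : (Fin k → ℤ) → (Fin k → ℤ) → ℕ → ℕ} {Cond : (Fin k → ℤ) → (Fin k → ℤ) → Prop}

/-- the weighted asymptotic formula in all windows for all slopes -/
def GG (k m : ℕ) (w : ℕ → ℝ) (ν : (Fin k → ℤ) → (Fin k → ℤ) → ℕ → ℕ) (Cond : (Fin k → ℤ) → (Fin k → ℤ) → Prop)
    (V D X Y : ℕ) (β : Fin k → ℤ) : Prop :=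
  ∀ α : Fin k → ℤ, (∀ i, α i ≠ 0) → (∀ i, ((α i).natAbs : ℝ) ≤ Real.log X ^ D) → Cond α β →
    ∀ S : ℝ, Filter.Tendsto (fun z => Gz (ν α β) m z) Filter.atTop (nhds S) →
    ∀ y₁ y₂ : ℕ, y₁ ≤ y₂ → y₂ ≤ Y →
    |∑ n ∈ Ioc y₁ y₂, w n * ∏ i, LL (α i * (n : ℤ) + β i) - S * ((y₂ : ℝ) - y₁)| ≤ X / Real.log X ^ V

set_option maxHeartbeats 4000000 in
theorem gg_det (hd : Dat k m w ν Cond) (V D : ℕ) : ∀ E1 : ℕ, V + m + 8 ≤ E1 → ∃ X0 : ℕ, ∀ X : ℕ, X0 ≤ X →
    ∀ β : Fin k → ℤ, (∀ i, (β i).natAbs ≤ X) → ∀ Y : ℕ, Y ≤ X →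
    ∀ z : ℕ, Real.log X ^ E1 ≤ z → (z : ℝ) ≤ Real.log X ^ (E1 + 1) →
    ∀ T : ℕ, Real.log X ^ (V + m + 4) ≤ T →
    (∀ i ≤ T, ∀ α : Fin k → ℤ, (∀ i, α i ≠ 0) → (∀ i, ((α i).natAbs : ℝ) ≤ Real.log X ^ D) →
      |∑ n ∈ Icc 1 (min (i * (Y / T + 1)) Y), w n * (∏ i, LL (α i * (n : ℤ) + β i) - ∏ i, mdl z (α i * (n : ℤ) + β i))| ≤
        X / Real.log X ^ (V + 2)) →
    GG k m w ν Cond V D X Y β := by
  intro E1 hE1
  obtain ⟨c, hloc⟩ := hd.loc
  obtain ⟨X1, hmain⟩ := hd.main (E1 + 1) D (V + 2)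
  obtain ⟨n2, h2⟩ := ev_L' (m ^ 2 + 4 * m * (c * 6) + 3 * m + 20)
  obtain ⟨n3, h3⟩ := Vz_inv_small (E1 + 1)
  obtain ⟨n4, h4⟩ := ev_log' (V + m + D + 8) 1
  refine ⟨X1 + n2 + n3 + n4 + 4, fun X hX β hβ Y hYX z hz1 hz2 T hT hyp α hα hαL hc S hS y₁ y₂ h12 hy2 => ?_⟩
  have c1 := hmain X (by omega) z
  have a2 := h2 X (by omega)
  have a3 := h3 X (by omega) z
  have a4 := h4 X (by omega)
  obtain ⟨L, hL⟩ : ∃ L, L = Real.log (X : ℝ) := ⟨_, rfl⟩
  rw [← hL] at c1 a2 a3 a4 hz1 hz2 hT hyp hαL ⊢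
  rw [one_mul] at a4
  have q1 : (0 : ℝ) ≤ m ^ 2 + 4 * m * (c * 6) := by positivity
  have q2 : (0 : ℝ) ≤ 3 * m := by positivity
  have hL20 : 20 ≤ L := by linarith
  have hL1 : 1 ≤ L := by linarith
  have hL0 : 0 < L := by linarith
  have hX4 : (4 : ℝ) ≤ X := by exact_mod_cast (by omega : 4 ≤ X)
  have hX0 : (0 : ℝ) < X := by linarith
  have hss : √(X : ℝ) * √(X : ℝ) = X := Real.mul_self_sqrt hX0.le
  have hs0 : 0 < √(X : ℝ) := Real.sqrt_pos.2 hX0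
  have hs1 : 1 ≤ √(X : ℝ) := (one_le_pow₀ hL1).trans a4
  have hT0 : (1 : ℝ) ≤ T := (one_le_pow₀ hL1).trans hT
  have hTn : 1 ≤ T := by exact_mod_cast hT0
  have hz0 : (1 : ℝ) ≤ z := (one_le_pow₀ hL1).trans hz1
  have hzn : 1 ≤ z := by exact_mod_cast hz0
  have hz0' : (0 : ℝ) < z := by linarith
  have hV := a3 hzn hz2
  have hVp : 0 < (Vz z)⁻¹ := inv_pos.2 (Vz_pos z)
  have hαX : ∀ i, (α i).natAbs ≤ X := by
    intro i
    have h5 : ((α i).natAbs : ℝ) ≤ X := by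
      calc ((α i).natAbs : ℝ) ≤ L ^ D := hαL i
        _ ≤ L ^ (V + m + D + 8) := pow_le_pow_right₀ hL1 (by omega)
        _ ≤ √X := a4
        _ ≤ √X * √X := by nlinarith
        _ = X := hss
    exact_mod_cast h5
  obtain ⟨bad, hLoc, hbad⟩ := hloc X (by omega) α β hα hαX hβ hc
  have hm0 := hd.hm
  have hmL : (3 * m : ℝ) ≤ L := by linarith
  -- the constant of the tail
  have hKK : KK m bad ≤ L ^ 2 := by
    have e1 : (bad.card : ℝ) ≤ c * (6 * L) := by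
      have hXn : 0 < X := by omega
      have hX2n : 0 < 2 * X ^ 2 := by positivity
      have e2 : (Nat.log 2 (2 * X ^ 2) : ℝ) ≤ 2 * Real.log ((2 * X ^ 2 : ℕ) : ℝ) := natlog_le _ hX2n
      have e3 : Real.log ((2 * X ^ 2 : ℕ) : ℝ) ≤ 3 * L := by
        have e4 : ((2 * X ^ 2 : ℕ) : ℝ) ≤ (X : ℝ) ^ 3 := by
          push_cast
          have : 0 ≤ (X : ℝ) ^ 2 := by positivity
          nlinarith
        have e5 := Real.log_le_log (by exact_mod_cast hX2n) e4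
        rw [Real.log_pow, ← hL] at e5
        exact_mod_cast e5
      have e6 : (bad.card : ℝ) ≤ c * (Nat.log 2 (2 * X ^ 2) : ℝ) := by exact_mod_cast hbad
      refine e6.trans (mul_le_mul_of_nonneg_left (by linarith) (Nat.cast_nonneg _))
    unfold KK
    calc (m : ℝ) ^ 2 + 4 * m * bad.card ≤ m ^ 2 + 4 * m * (c * (6 * L)) := by gcongr
      _ ≤ m ^ 2 * L + 4 * m * (c * 6) * L := by
          have : (m : ℝ) ^ 2 ≤ m ^ 2 * L := le_mul_of_one_le_right (by positivity) hL1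
          linarith
      _ = (m ^ 2 + 4 * m * (c * 6)) * L := by ring
      _ ≤ L * L := mul_le_mul_of_nonneg_right (by linarith) hL0.le
      _ = L ^ 2 := by ring
  obtain ⟨S', hS', hS'1, -⟩ := limit_full hLoc hm0
  have hSS : S' = S := tendsto_nhds_unique hS' hS
  rw [hSS] at hS'1
  have hzL : L ^ 8 ≤ z := (pow_le_pow_right₀ hL1 (by omega)).trans hz1
  have hLL8 : L ≤ L ^ 8 := le_self_pow₀ hL1 (by norm_num)
  have hG1 := hS'1 z (by
      have : (3 * m : ℝ) ≤ z := by linarith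
      exact_mod_cast this) (by
      have e1 : L ^ 8 = L ^ 2 * L ^ 6 := by ring
      have e2 : (2 : ℝ) ≤ L ^ 6 := by
        calc (2 : ℝ) ≤ L := by linarith
          _ ≤ L ^ 6 := le_self_pow₀ hL1 (by norm_num)
      have e3 : 0 ≤ L ^ 2 := by positivity
      nlinarith)
  have hGpos := Gz_pos hLoc z
  have hGle := Gz_le hLoc z
  obtain ⟨G, hG⟩ : ∃ G, G = Gz (ν α β) m z := ⟨_, rfl⟩
  rw [← hG] at hG1 hGpos hGle
  have hGL : G ≤ L ^ m := hGle.trans (pow_le_pow_left₀ hVp.le hV _)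
  have hmn := fun y hy => c1 hzn hz2 α β hα hαL hc y hy
  rw [← hG] at hmn
  -- the sequences
  obtain ⟨δ, hδ⟩ : ∃ δ : ℝ, δ = X / L ^ (V + 2) := ⟨_, rfl⟩
  have hδ0 : 0 < δ := by rw [hδ]; positivity
  rw [← hδ] at hmn hyp
  obtain ⟨s, hs⟩ : ∃ s, s = Y / T + 1 := ⟨_, rfl⟩
  rw [← hs] at hyp
  have hspos : 1 ≤ s := by rw [hs]; exact Nat.le_add_left 1 _
  have hsr : (s : ℝ) ≤ 2 * (X / L ^ (V + m + 4)) := by
    have e1 : (s : ℝ) ≤ X / T + 1 := by
      rw [hs]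
      push_cast
      have e2 : ((Y / T : ℕ) : ℝ) ≤ Y / T := Nat.cast_div_le
      have e3 : (Y : ℝ) / T ≤ X / T := by
        apply div_le_div_of_nonneg_right _ (by linarith)
        exact_mod_cast hYX
      linarith
    have e2 : (X : ℝ) / T ≤ X / L ^ (V + m + 4) := div_le_div_of_nonneg_left hX0.le (by positivity) hT
    have e3 : 1 ≤ (X : ℝ) / L ^ (V + m + 4) := by
      rw [le_div_iff₀ (by positivity), one_mul]
      calc L ^ (V + m + 4) ≤ L ^ (V + m + D + 8) := pow_le_pow_right₀ hL1 (by omega)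
        _ ≤ √X := a4
        _ ≤ √X * √X := le_mul_of_one_le_left hs0.le hs1
        _ = X := hss
    linarith
  have hTs : Y ≤ T * s := by
    rw [hs]
    have := Nat.div_add_mod Y T
    have h5 := Nat.mod_lt Y (show 0 < T by omega)
    rw [mul_add, mul_one]
    omega
  have hgrid := grid_all (fun n => w n * ∏ i, LL (α i * (n : ℤ) + β i)) (fun n => w n * ∏ i, mdl z (α i * (n : ℤ) + β i))
    (fun n => mul_nonneg (hd.w0 n) (prod_nonneg fun i _ => LL_nonneg _)) Y T s hspos hTs G δ hGpos.le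
    (fun y hy => hmn y (hy.trans hYX)) (fun i hi => by
      rw [← sum_sub_distrib]
      refine le_trans (le_of_eq ?_) (hyp i hi α hα hαL)
      congr 1
      apply sum_congr rfl
      intro n _
      ring)
  have g1 := hgrid y₁ (h12.trans hy2)
  have g2 := hgrid y₂ hy2
  have hGs : G * s ≤ δ / 4 := by
    calc G * s ≤ L ^ m * (2 * (X / L ^ (V + m + 4))) := mul_le_mul hGL hsr (Nat.cast_nonneg _) (by positivity)
      _ = (2 / L ^ 2) * δ := by
          rw [hδ, show V + m + 4 = m + 2 + (V + 2) by ring, pow_add L (m + 2), pow_add L m]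
          field_simp
      _ ≤ (1 / 4) * δ := by
          apply mul_le_mul_of_nonneg_right _ hδ0.le
          rw [div_le_div_iff₀ (by positivity) (by norm_num)]
          nlinarith
      _ = δ / 4 := by ring
  -- the limit
  have hSG : |G - S| * X ≤ δ := by
    have e1 : 2 * KK m bad / z ≤ 2 * L ^ 2 / L ^ E1 := by
      apply div_le_div₀ (by positivity) (by linarith) (by positivity) hz1
    have e2 : 2 * L ^ 2 / L ^ E1 ≤ 1 / 2 * (1 / L ^ (V + m + 3)) := by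
      rw [div_le_iff₀ (by positivity)]
      have e3 : L ^ (V + m + 8) ≤ L ^ E1 := pow_le_pow_right₀ hL1 hE1
      calc 2 * L ^ 2 ≤ 1 / 2 * L ^ 5 := by
            have : L ^ 5 = L ^ 2 * L ^ 3 := by ring
            have h5 : (4 : ℝ) ≤ L ^ 3 := by
              calc (4 : ℝ) ≤ L := by linarith
                _ ≤ L ^ 3 := le_self_pow₀ hL1 (by norm_num)
            have h6 : 0 ≤ L ^ 2 := by positivity
            nlinarith
        _ = 1 / 2 * (1 / L ^ (V + m + 3)) * L ^ (V + m + 8) := by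
            rw [show V + m + 8 = (V + m + 3) + 5 by ring, pow_add L (V + m + 3)]
            field_simp
        _ ≤ _ := mul_le_mul_of_nonneg_left e3 (by positivity)
    have e4 : 0 ≤ S := ge_of_tendsto' hS (fun z => (Gz_pos hLoc z).le)
    have e5 : |G - S| ≤ S * (1 / 2 * (1 / L ^ (V + m + 3))) := hG1.trans (mul_le_mul_of_nonneg_left (e1.trans e2) e4)
    have e6 : 1 / L ^ (V + m + 3) ≤ 1 := by
      rw [div_le_one (by positivity)]
      exact one_le_pow₀ hL1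
    have e7 : S ≤ 2 * G := by
      have := (abs_le.1 e5).1
      nlinarith
    calc |G - S| * X ≤ (S * (1 / 2 * (1 / L ^ (V + m + 3)))) * X := mul_le_mul_of_nonneg_right e5 hX0.le
      _ ≤ (2 * L ^ m * (1 / 2 * (1 / L ^ (V + m + 3)))) * X := by
          apply mul_le_mul_of_nonneg_right _ hX0.le
          apply mul_le_mul_of_nonneg_right _ (by positivity)
          linarith
      _ = (1 / L) * δ := by
          rw [hδ, show V + m + 3 = m + 1 + (V + 2) by ring, pow_add L (m + 1), pow_add L m]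
          field_simp
      _ ≤ 1 * δ := by
          apply mul_le_mul_of_nonneg_right _ hδ0.le
          rw [div_le_one hL0]
          exact hL1
      _ = δ := one_mul _
  have h12r : (y₁ : ℝ) ≤ y₂ := by exact_mod_cast h12
  have hy2r : (y₂ : ℝ) ≤ X := by exact_mod_cast hy2.trans hYX
  have hy1r : (0 : ℝ) ≤ y₁ := Nat.cast_nonneg _
  have hSG2 : |(G - S) * ((y₂ : ℝ) - y₁)| ≤ δ := by
    rw [abs_mul, abs_of_nonneg (by linarith : (0 : ℝ) ≤ (y₂ : ℝ) - y₁)]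
    exact (mul_le_mul_of_nonneg_left (by linarith) (abs_nonneg _)).trans hSG
  have hsplit := icc_split (fun n => w n * ∏ i, LL (α i * (n : ℤ) + β i)) y₁ y₂ h12
  have hfinal : 6 * δ ≤ X / L ^ V := by
    have h6 : X / L ^ V = δ * L ^ 2 := by
      rw [hδ, pow_add L V 2]
      field_simp
    rw [h6]
    have h8 : (6 : ℝ) ≤ L ^ 2 := by nlinarith
    have h9 := mul_le_mul_of_nonneg_left h8 hδ0.le
    linarith
  rw [abs_le] at g1 g2 hSG2 ⊢
  have e : G * ((y₂ : ℝ) - y₁) = (G - S) * ((y₂ : ℝ) - y₁) + S * ((y₂ : ℝ) - y₁) := by ring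
  constructor <;> linarith [g1.1, g1.2, g2.1, g2.2, hSG2.1, hSG2.2]

end Pool.Agent.TH935.TF
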