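import Pool.Agent.TH935.TF5
import Pool.Agent.W93.PP8

set_option autoImplicit false

/-! Systems of linear forms: the exceptional set for products of families of nearly minimal energy. -/

namespace Pool.Agent.TH935.TF
open Finset
open Pool.Agent.H373R2.T7
open Pool.Agent.W93.PP (markov)

variable {k m : ℕ} {w : ℕ → ℝ} {ν : (Fin k → ℤ) → (Fin k → ℤ) → ℕ → ℕ} {Cond : (Fin k → ℤ) → (Fin k → ℤ) → Prop}

set_option maxHeartbeats 4000000 in
theorem gg_fam (hd : Dat k m w ν Cond) (h C D V U : ℕ) : ∃ X0 : ℕ, ∀ X : ℕ, X0 ≤ X → ∀ Y : ℕ, (Y : ℝ) * Real.log X ^ D ≤ X →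
    ∀ (x : Fin k → ℕ) (s : Fin k → ℕ → ℤ), (∀ i, ∀ j ∈ Icc 1 (x i), |s i j| ≤ X) →
    (∀ i, (energy h (x i) (s i) : ℝ) * X ≤ Real.log X ^ C * (x i : ℝ) ^ (2 * h)) →
    ∀ 𝒮 : Finset (Fin k → ℕ), 𝒮 ⊆ Fintype.piFinset (fun i => Icc 1 (x i)) →
    (∀ q ∈ 𝒮, ¬ GG k m w ν Cond V D X Y (fun i => s i (q i))) → (𝒮.card : ℝ) ≤ (∏ i, (x i : ℝ)) / Real.log X ^ U := by
  classical
  obtain ⟨U', hU'⟩ : ∃ U', U' = U + 2 * V + m + k * (D + 1) + 12 := ⟨_, rfl⟩
  obtain ⟨B0, hB0⟩ := prod_mom k h C U' D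
  obtain ⟨E1, hE1⟩ : ∃ E1, E1 = B0 + V + m + 8 := ⟨_, rfl⟩
  obtain ⟨n1, h1⟩ := hB0 (E1 + 1)
  obtain ⟨X1, hdet⟩ := gg_det hd V D E1 (by omega)
  obtain ⟨n3, h3⟩ := ev_L' 10
  refine ⟨n1 + X1 + n3 + 3, fun X hX Y hY x s hs hE 𝒮 hSx hS => ?_⟩
  have c1 := h1 X (by omega) x s
  have c3 := h3 X (by omega)
  obtain ⟨L, hL⟩ : ∃ L, L = Real.log (X : ℝ) := ⟨_, rfl⟩
  rw [← hL] at c1 c3 hY hE ⊢
  have hL1 : 1 ≤ L := by linarith
  have hL0 : 0 < L := by linarith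
  have hX3 : (3 : ℝ) ≤ X := by exact_mod_cast (by omega : 3 ≤ X)
  have hX0 : (0 : ℝ) < X := by linarith
  have hY0 : (0 : ℝ) ≤ Y := Nat.cast_nonneg _
  have hYX : Y ≤ X := by
    have h5 : (Y : ℝ) ≤ X := (le_mul_of_one_le_right hY0 (one_le_pow₀ hL1)).trans hY
    exact_mod_cast h5
  have hprod0 : (0 : ℝ) ≤ ∏ i, (x i : ℝ) := prod_nonneg fun i _ => Nat.cast_nonneg _
  by_cases hx : ∀ i, 1 ≤ x i
  swap
  · push Not at hx
    obtain ⟨i, hi⟩ := hx
    have h5 : Fintype.piFinset (fun i => Icc 1 (x i)) = ∅ := by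
      rw [Fintype.piFinset_eq_empty]
      exact ⟨i, Icc_eq_empty (by omega)⟩
    rw [h5] at hSx
    rw [subset_empty.1 hSx, card_empty, Nat.cast_zero]
    positivity
  have hfl : ∀ E : ℕ, L ^ E ≤ (⌈L ^ E⌉₊ : ℝ) ∧ (⌈L ^ E⌉₊ : ℝ) ≤ L ^ (E + 1) := by
    intro E
    refine ⟨Nat.le_ceil _, ?_⟩
    have h5 : (⌈L ^ E⌉₊ : ℝ) < L ^ E + 1 := Nat.ceil_lt_add_one (by positivity)
    have h6 : 1 ≤ L ^ E := one_le_pow₀ hL1
    rw [pow_succ]
    nlinarith
  obtain ⟨z, hz⟩ : ∃ z, z = ⌈L ^ E1⌉₊ := ⟨_, rfl⟩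
  obtain ⟨T, hT⟩ : ∃ T, T = ⌈L ^ (V + m + 4)⌉₊ := ⟨_, rfl⟩
  have hz1 : L ^ E1 ≤ z := by rw [hz]; exact (hfl E1).1
  have hz2 : (z : ℝ) ≤ L ^ (E1 + 1) := by rw [hz]; exact (hfl E1).2
  have hT1 : L ^ (V + m + 4) ≤ T := by rw [hT]; exact (hfl (V + m + 4)).1
  have hT2 : (T : ℝ) ≤ L ^ (V + m + 5) := by rw [hT]; exact (hfl (V + m + 4)).2
  obtain ⟨R, hR⟩ : ∃ R : ℕ, R = ⌊L ^ D⌋₊ := ⟨_, rfl⟩
  have hRL : (R : ℝ) ≤ L ^ D := by rw [hR]; exact Nat.floor_le (by positivity)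
  obtain ⟨I, hI⟩ : ∃ I : Finset (ℕ × (Fin k → ℤ)), I = range (T + 1) ×ˢ Fintype.piFinset (fun _ => Icc (-(R : ℤ)) (R : ℤ)) := ⟨_, rfl⟩
  have hIcard : (I.card : ℝ) ≤ L ^ (V + m + 6 + k * (D + 1)) := by
    rw [hI, card_product, Fintype.card_piFinset, prod_const, card_univ, Fintype.card_fin, card_range, Int.card_Icc]
    have e1 : ((R : ℤ) + 1 - -(R : ℤ)).toNat = 2 * R + 1 := by omega
    rw [e1]
    push_cast
    have hLD : 1 ≤ L ^ D := one_le_pow₀ hL1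
    have f1 : (T : ℝ) + 1 ≤ L ^ (V + m + 6) := by
      have h6 : 1 ≤ L ^ (V + m + 5) := one_le_pow₀ hL1
      rw [show V + m + 6 = (V + m + 5) + 1 by ring, pow_succ L (V + m + 5)]
      nlinarith
    have f3 : 2 * (R : ℝ) + 1 ≤ L ^ (D + 1) := by rw [pow_succ]; nlinarith
    calc ((T : ℝ) + 1) * (2 * (R : ℝ) + 1) ^ k ≤ L ^ (V + m + 6) * (L ^ (D + 1)) ^ k := by gcongr
      _ = L ^ (V + m + 6 + k * (D + 1)) := by rw [← pow_mul, ← pow_add]; congr 1; ring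
  have key := markov (Fintype.piFinset (fun i => Icc 1 (x i))) I (fun _ => (1 : ℝ)) (fun _ _ => zero_le_one)
    (fun q i => if ∀ j, i.2 j ≠ 0 then |∑ n ∈ Icc 1 (min (i.1 * (Y / T + 1)) Y),
        w n * (∏ j, LL (i.2 j * (n : ℤ) + s j (q j)) - ∏ j, mdl z (i.2 j * (n : ℤ) + s j (q j)))| else 0)
    (fun _ _ => by split_ifs <;> positivity) (fun q => q ∈ 𝒮) (X / L ^ (V + 2)) ((X / L ^ U') * ∏ i, (x i : ℝ)) (by positivity) (by
      intro q hq hqS
      by_contra hcon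
      push Not at hcon
      apply hS q hqS
      refine hdet X (by omega) (fun i => s i (q i)) ?_ Y hYX z (by rw [← hL]; exact hz1) (by rw [← hL]; exact hz2) T
        (by rw [← hL]; exact hT1) ?_
      · intro i
        have a1 := hs i (q i) (Fintype.mem_piFinset.1 hq i)
        have : ((s i (q i)).natAbs : ℤ) ≤ X := by rw [Int.natCast_natAbs]; exact a1
        exact_mod_cast this
      intro i hi α hα hαL
      rw [← hL] at hαL ⊢
      have hmem : (i, α) ∈ I := by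
        rw [hI, mem_product, mem_range, Fintype.mem_piFinset]
        refine ⟨by simp only; omega, fun j => ?_⟩
        have h7 : (α j).natAbs ≤ R := by rw [hR]; exact Nat.le_floor (hαL j)
        simp only [mem_Icc]
        omega
      have h5 := hcon (i, α) hmem
      simp only at h5
      rw [if_pos hα] at h5
      exact h5.le)
    (by
      intro i hi
      rw [hI, mem_product, mem_range, Fintype.mem_piFinset] at hi
      simp only [one_mul]
      by_cases hab : ∀ j, i.2 j ≠ 0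
      · simp only [if_pos hab]
        refine c1 hx hs hE z ((pow_le_pow_right₀ hL1 (by omega)).trans hz1) hz2 i.2 hab (min (i.1 * (Y / T + 1)) Y) ?_ w ?_
        · intro j
          have h4 := mem_Icc.1 (hi.2 j)
          have h5 : (i.2 j).natAbs ≤ R := by omega
          have h6 : (i.2 j).natAbs * min (i.1 * (Y / T + 1)) Y ≤ R * Y := Nat.mul_le_mul h5 (min_le_right _ _)
          have h7 : (R : ℝ) * Y ≤ X := by
            calc (R : ℝ) * Y ≤ L ^ D * Y := mul_le_mul_of_nonneg_right hRL hY0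
              _ = Y * L ^ D := mul_comm _ _
              _ ≤ X := hY
          have h8 : R * Y ≤ X := by exact_mod_cast h7
          exact h6.trans h8
        · intro n hn
          rw [mem_Icc] at hn
          rw [abs_of_nonneg (hd.w0 n), hL]
          exact hd.w1 X n (by omega) ((hn.2.trans (min_le_right _ _)).trans hYX)
      · simp only [if_neg hab, sum_const_zero]
        positivity)
  have hleft : (𝒮.card : ℝ) = ∑ q ∈ Fintype.piFinset (fun i => Icc 1 (x i)), (if q ∈ 𝒮 then (1 : ℝ) else 0) := by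
    rw [sum_ite_mem, inter_eq_right.2 hSx, sum_const, nsmul_eq_mul, mul_one]
  rw [← hleft] at key
  refine key.trans ?_
  obtain ⟨P, hP⟩ : ∃ P : ℝ, P = ∏ i, (x i : ℝ) := ⟨_, rfl⟩
  rw [← hP] at hprod0 ⊢
  calc (I.card : ℝ) * ((X / L ^ U') * P) / (X / L ^ (V + 2))
      ≤ L ^ (V + m + 6 + k * (D + 1)) * ((X / L ^ U') * P) / (X / L ^ (V + 2)) := by gcongr
    _ = P * L ^ (2 * V + m + 8 + k * (D + 1)) / L ^ U' := by
        rw [show 2 * V + m + 8 + k * (D + 1) = (V + m + 6 + k * (D + 1)) + (V + 2) by ring, pow_add L (V + m + 6 + k * (D + 1))]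
        field_simp
    _ ≤ P / L ^ U := by
        rw [div_le_div_iff₀ (by positivity) (by positivity)]
        calc P * L ^ (2 * V + m + 8 + k * (D + 1)) * L ^ U = P * L ^ (2 * V + m + 8 + k * (D + 1) + U) := by rw [pow_add L (2 * V + m + 8 + k * (D + 1)) U]; ring
          _ ≤ P * L ^ U' := by
              apply mul_le_mul_of_nonneg_left _ hprod0
              exact pow_le_pow_right₀ hL1 (by omega)

end Pool.Agent.TH935.TF
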