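import Pool.Agent.TH935.TF7

set_option autoImplicit false

/-! Systems of linear forms: numbers of prime values in windows for almost all members of products of
families of nearly minimal additive energy. -/

namespace Pool.Agent.TH935.TF
open Finset
open Pool.Agent.H373R2.T7
open Pool.Agent.W93.GB (vM_le)

lemma one_le_log {X : ℕ} (hX : 3 ≤ X) : 1 ≤ Real.log X := by
  rw [Real.le_log_iff_exp_le (by exact_mod_cast (by omega : 0 < X))]
  have h1 := Real.exp_one_lt_d9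
  have h2 : (3 : ℝ) ≤ X := by exact_mod_cast hX
  linarith

lemma det_bound (a b c d : ℤ) (X : ℕ) (ha : a.natAbs ≤ X) (hb : b.natAbs ≤ X) (hc : c.natAbs ≤ X) (hd : d.natAbs ≤ X) :
    (a * b - c * d).natAbs ≤ 2 * X ^ 2 := by
  have h1 : (a * b - c * d).natAbs ≤ (a * b).natAbs + (c * d).natAbs := Int.natAbs_sub_le _ _
  rw [Int.natAbs_mul, Int.natAbs_mul] at h1
  have h2 : a.natAbs * b.natAbs ≤ X * X := Nat.mul_le_mul ha hb
  have h3 : c.natAbs * d.natAbs ≤ X * X := Nat.mul_le_mul hc hd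
  have e : 2 * X ^ 2 = X * X + X * X := by ring
  omega

theorem dat_one (k : ℕ) (hk : 1 ≤ k) : Dat k k (fun _ => (1 : ℝ)) (fun α β => om α β) (fun α β => Adm α β ∧ Dist α β) where
  hm := hk
  w0 := fun _ => zero_le_one
  w1 := fun X n hX _ => one_le_log hX
  loc := by
    refine ⟨k + k * k, fun X hX α β hα hαX hβX hc => ⟨badF α β, loc_of hc.1 hc.2 hα, ?_⟩⟩
    apply card_badF
    · intro i
      refine (hαX i).trans ?_
      nlinarith
    · intro i j
      exact det_bound _ _ _ _ X (hαX i) (hβX j) (hαX j) (hβX i)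
  main := by
    intro E D U
    obtain ⟨X0, h⟩ := main_one k E U hk
    refine ⟨X0, fun X hX z hz hzE α β hα hαL hc y hy => ?_⟩
    have := h X hX z hz hzE α β (fun p hp => om_le hc.1 p hp) y hy
    simpa only [one_mul] using this

lemma cons_le {k : ℕ} (α : Fin k → ℤ) (X : ℕ) (hX : 1 ≤ X) (h : ∀ i, (α i).natAbs ≤ X) : ∀ i, (consA α i).natAbs ≤ X := by
  intro i
  refine Fin.cases ?_ (fun i => ?_) i
  · rw [consA_zero]; exact hX
  · rw [consA_succ]; exact h i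

lemma consB_le {k : ℕ} (β : Fin k → ℤ) (X : ℕ) (h : ∀ i, (β i).natAbs ≤ X) : ∀ i, (consB β i).natAbs ≤ X := by
  intro i
  refine Fin.cases ?_ (fun i => ?_) i
  · rw [consB_zero]; exact Nat.zero_le _
  · rw [consB_succ]; exact h i

lemma consA_ne {k : ℕ} (α : Fin k → ℤ) (h : ∀ i, α i ≠ 0) : ∀ i, consA α i ≠ 0 := by
  intro i
  refine Fin.cases ?_ (fun i => ?_) i
  · rw [consA_zero]; exact one_ne_zero
  · rw [consA_succ]; exact h i

theorem dat_lam (k : ℕ) (hk : 1 ≤ k) : Dat k (k + 1) (fun n => ArithmeticFunction.vonMangoldt n)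
    (fun α β => om (consA α) (consB β)) (fun α β => Adm (consA α) (consB β) ∧ Dist (consA α) (consB β)) where
  hm := by omega
  w0 := fun _ => ArithmeticFunction.vonMangoldt_nonneg
  w1 := fun X n hX hn => vM_le n X (by omega) hn
  loc := by
    refine ⟨(k + 1) + (k + 1) * (k + 1), fun X hX α β hα hαX hβX hc =>
      ⟨badF (consA α) (consB β), loc_of hc.1 hc.2 (consA_ne α hα), ?_⟩⟩
    have h1 := cons_le α X hX hαX
    have h2 := consB_le β X hβX
    apply card_badF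
    · intro i
      refine (h1 i).trans ?_
      nlinarith
    · intro i j
      exact det_bound _ _ _ _ X (h1 i) (h2 j) (h1 j) (h2 i)
  main := by
    intro E D U
    obtain ⟨X0, h⟩ := main_lam k E D U hk
    exact ⟨X0, fun X hX z hz hzE α β hα hαL hc y hy => h X hX z hz hzE α β hα hαL hc.1 y hy⟩

/-- a system of `m` forms built from `k` forms -/
structure Sys (k m : ℕ) (w : ℕ → ℝ) (sA sB : (Fin k → ℤ) → (Fin m → ℤ)) : Prop where
  dat : Dat k m w (fun α β => om (sA α) (sB β)) (fun α β => Adm (sA α) (sB β) ∧ Dist (sA α) (sB β))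
  wt : ∀ α β : Fin k → ℤ, ∀ n : ℕ, w n * ∏ i, LL (α i * (n : ℤ) + β i) = ∏ i, LL (sA α i * (n : ℤ) + sB β i)
  ne : ∀ α, (∀ i, α i ≠ 0) → ∀ i, sA α i ≠ 0
  leA : ∀ α, ∀ M : ℝ, 1 ≤ M → (∀ i, ((α i).natAbs : ℝ) ≤ M) → ∀ i, ((sA α i).natAbs : ℝ) ≤ M
  leB : ∀ β, ∀ M : ℕ, (∀ i, (β i).natAbs ≤ M) → ∀ i, (sB β i).natAbs ≤ M

theorem sys_one (k : ℕ) (hk : 1 ≤ k) : Sys k k (fun _ => (1 : ℝ)) (fun α => α) (fun β => β) where
  dat := dat_one k hk
  wt := fun α β n => one_mul _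
  ne := fun α h => h
  leA := fun α M _ h => h
  leB := fun β M h => h

theorem sys_lam (k : ℕ) (hk : 1 ≤ k) : Sys k (k + 1) (fun n => ArithmeticFunction.vonMangoldt n) consA consB where
  dat := dat_lam k hk
  wt := by
    intro α β n
    rw [Fin.prod_univ_succ, consA_zero, consB_zero]
    congr 1
    unfold LL
    rw [one_mul, add_zero, Int.natAbs_natCast]
  ne := consA_ne
  leA := by
    intro α M hM h i
    refine Fin.cases ?_ (fun i => ?_) i
    · rw [consA_zero]; simpa using hM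
    · rw [consA_succ]; exact h i
  leB := fun β M h => consB_le β M h

/-- all windows contain the expected number of arguments with prime values, for all systems with small slopes -/
def HW {k m : ℕ} (sA sB : (Fin k → ℤ) → (Fin m → ℤ)) (ε : ℝ) (A B D N : ℕ) (β : Fin k → ℤ) : Prop :=
  ∀ α : Fin k → ℤ, (∀ i, α i ≠ 0) → (∀ i, ((α i).natAbs : ℝ) ≤ Real.log N ^ D) →
    Adm (sA α) (sB β) → Dist (sA α) (sB β) →
    ∃ S : ℝ, 0 < S ∧ Filter.Tendsto (fun z => Gz (om (sA α) (sB β)) m z) Filter.atTop (nhds S) ∧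
    ∀ y₁ y₂ : ℕ, y₁ ≤ y₂ → y₂ ≤ B * N → (N : ℝ) / Real.log N ^ A ≤ (y₂ : ℝ) - y₁ →
      |(cn (sA α) (sB β) y₁ y₂ : ℝ) - S * ((y₂ : ℝ) - y₁) / Real.log N ^ m| ≤ ε * (S * ((y₂ : ℝ) - y₁) / Real.log N ^ m)

set_option maxHeartbeats 4000000 in
theorem fam_sys {k m : ℕ} {w : ℕ → ℝ} {sA sB : (Fin k → ℤ) → (Fin m → ℤ)} (hs : Sys k m w sA sB) (hk : 1 ≤ k)
    (h A B C D U : ℕ) (ε : ℝ) (hε : 0 < ε) : ∃ N0 : ℕ, ∀ N : ℕ, N0 ≤ N →
    ∀ (x : Fin k → ℕ) (s : Fin k → ℕ → ℤ), (∀ i, ∀ j ∈ Icc 1 (x i), |s i j| ≤ B * N) →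
    (∀ i, (energy h (x i) (s i) : ℝ) * N ≤ Real.log N ^ C * (x i : ℝ) ^ (2 * h)) →
    ∀ 𝒮 : Finset (Fin k → ℕ), 𝒮 ⊆ Fintype.piFinset (fun i => Icc 1 (x i)) →
    (∀ q ∈ 𝒮, ¬ HW sA sB ε A B D N (fun i => s i (q i))) → (𝒮.card : ℝ) ≤ (∏ i, (x i : ℝ)) / Real.log N ^ U := by
  have hm : 1 ≤ m := hs.dat.hm
  obtain ⟨X0, h0⟩ := gg_fam hs.dat h (C + D + 3) D (A + D + 4) U
  obtain ⟨c, hc, hlow⟩ := Gz_low m hm
  obtain ⟨n1, h1⟩ := conv m A B D hm ε c hε hc
  obtain ⟨n2, h2⟩ := ev_L' (B * 2 ^ D + B + 10)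
  obtain ⟨n3, h3⟩ := ev_log' (D + 3) 1
  obtain ⟨cc, hloc⟩ := hs.dat.loc
  refine ⟨X0 + n1 + n2 + n3 + 3, fun N hN x s hsb hE 𝒮 hSx hS => ?_⟩
  have b1 := h1 N (by omega)
  have b2 := h2 N (by omega)
  have b3 := h3 N (by omega)
  obtain ⟨L, hL⟩ : ∃ L, L = Real.log (N : ℝ) := ⟨_, rfl⟩
  rw [← hL] at b1 b2 b3 hE ⊢
  rw [one_mul] at b3
  have hB0 : (0 : ℝ) ≤ B := Nat.cast_nonneg _
  have hBD : 0 ≤ (B : ℝ) * 2 ^ D := by positivity
  have hL10 : 10 ≤ L := by linarith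
  have hL1 : 1 ≤ L := by linarith
  have hL0 : 0 < L := by linarith
  have hNr : (3 : ℝ) ≤ N := by exact_mod_cast (by omega : 3 ≤ N)
  have hN0 : (0 : ℝ) < N := by linarith
  obtain ⟨X, hX⟩ : ∃ X : ℕ, X = N * ⌈L ^ (D + 2)⌉₊ := ⟨_, rfl⟩
  have hc1 : L ^ (D + 2) ≤ (⌈L ^ (D + 2)⌉₊ : ℝ) := Nat.le_ceil _
  have hc2 : (⌈L ^ (D + 2)⌉₊ : ℝ) ≤ L ^ (D + 3) := by
    have h5 : (⌈L ^ (D + 2)⌉₊ : ℝ) < L ^ (D + 2) + 1 := Nat.ceil_lt_add_one (by positivity)
    have h6 : 1 ≤ L ^ (D + 2) := one_le_pow₀ hL1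
    rw [show D + 3 = (D + 2) + 1 by ring, pow_succ L (D + 2)]
    nlinarith
  have hXr : (X : ℝ) = N * (⌈L ^ (D + 2)⌉₊ : ℝ) := by rw [hX]; push_cast; rfl
  have hX1 : (N : ℝ) * L ^ (D + 2) ≤ X := by rw [hXr]; exact mul_le_mul_of_nonneg_left hc1 hN0.le
  have hX2 : (X : ℝ) ≤ N * L ^ (D + 3) := by rw [hXr]; exact mul_le_mul_of_nonneg_left hc2 hN0.le
  have hNX : (N : ℝ) ≤ X := (le_mul_of_one_le_right hN0.le (one_le_pow₀ hL1)).trans hX1
  have hNXn : N ≤ X := by exact_mod_cast hNX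
  have hX0 : (0 : ℝ) < X := by linarith
  obtain ⟨LX, hLX⟩ : ∃ LX, LX = Real.log (X : ℝ) := ⟨_, rfl⟩
  have hLLX : L ≤ LX := by rw [hL, hLX]; exact Real.log_le_log hN0 hNX
  have hLX0 : 0 < LX := by linarith
  have hLX2 : LX ≤ 2 * L := by
    have e1 : (X : ℝ) ≤ N ^ 2 := by
      refine hX2.trans ?_
      rw [sq]
      apply mul_le_mul_of_nonneg_left _ hN0.le
      refine b3.trans ?_
      rw [Real.sqrt_le_left hN0.le]
      nlinarith
    have e2 := Real.log_le_log hX0 e1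
    rw [Real.log_pow, ← hL, ← hLX] at e2
    exact_mod_cast e2
  have hBL : (B : ℝ) ≤ L ^ (D + 2) := by
    have : L ≤ L ^ (D + 2) := le_self_pow₀ hL1 (by omega)
    linarith
  have hBX : (B : ℝ) * N ≤ X := by
    refine le_trans ?_ hX1
    rw [mul_comm]
    exact mul_le_mul_of_nonneg_left hBL hN0.le
  have hBXn : B * N ≤ X := by exact_mod_cast hBX
  have hsX : ∀ i, ∀ j ∈ Icc 1 (x i), |s i j| ≤ X := by
    intro i j hj
    refine (hsb i j hj).trans ?_
    exact_mod_cast hBXn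
  have key := h0 X (by omega) (B * N) (by
      rw [← hLX]
      push_cast
      calc (B : ℝ) * N * LX ^ D ≤ B * N * (2 * L) ^ D := by gcongr
        _ = N * ((B * 2 ^ D) * L ^ D) := by rw [mul_pow]; ring
        _ ≤ N * (L * L ^ D) := by
            apply mul_le_mul_of_nonneg_left _ hN0.le
            apply mul_le_mul_of_nonneg_right _ (by positivity)
            linarith
        _ = N * L ^ (D + 1) := by ring
        _ ≤ N * L ^ (D + 2) := by
            apply mul_le_mul_of_nonneg_left _ hN0.le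
            exact pow_le_pow_right₀ hL1 (by omega)
        _ ≤ X := hX1) x s hsX (by
      intro i
      rw [← hLX]
      calc (energy h (x i) (s i) : ℝ) * X ≤ energy h (x i) (s i) * (N * L ^ (D + 3)) := mul_le_mul_of_nonneg_left hX2 (Nat.cast_nonneg _)
        _ = (energy h (x i) (s i) * N) * L ^ (D + 3) := by ring
        _ ≤ (L ^ C * (x i : ℝ) ^ (2 * h)) * L ^ (D + 3) := mul_le_mul_of_nonneg_right (hE i) (by positivity)
        _ = L ^ (C + D + 3) * (x i : ℝ) ^ (2 * h) := by ring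
        _ ≤ LX ^ (C + D + 3) * (x i : ℝ) ^ (2 * h) := by gcongr) 𝒮 hSx (by
      intro q hq hGG
      apply hS q hq
      intro α hα hαL hadm hdist
      have hβ : ∀ i, (s i (q i)).natAbs ≤ B * N := by
        intro i
        have a1 := hsb i (q i) (Fintype.mem_piFinset.1 (hSx hq) i)
        have : ((s i (q i)).natAbs : ℤ) ≤ ((B * N : ℕ) : ℤ) := by rw [Int.natCast_natAbs]; push_cast; exact a1
        exact_mod_cast this
      rw [← hL] at hαL ⊢
      have hαLX : ∀ i, ((α i).natAbs : ℝ) ≤ LX ^ D := fun i => (hαL i).trans (pow_le_pow_left₀ hL0.le hLLX _)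
      have hαX : ∀ i, (α i).natAbs ≤ X := by
        intro i
        have h5 : ((α i).natAbs : ℝ) ≤ X := by
          calc ((α i).natAbs : ℝ) ≤ L ^ D := hαL i
            _ ≤ L ^ (D + 2) := pow_le_pow_right₀ hL1 (by omega)
            _ ≤ N * L ^ (D + 2) := le_mul_of_one_le_left (by positivity) (by linarith)
            _ ≤ X := hX1
        exact_mod_cast h5
      obtain ⟨bad, hLoc, -⟩ := hloc X (by omega) α (fun i => s i (q i)) hα hαX (fun i => (hβ i).trans hBXn) ⟨hadm, hdist⟩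
      obtain ⟨S, hSt, -, hSlow⟩ := limit_full hLoc hm
      have hcS : c ≤ S := hSlow c (fun z => hlow _ bad hLoc z)
      refine ⟨S, lt_of_lt_of_le hc hcS, hSt, fun y₁ y₂ h12 hy2 hΔ => ?_⟩
      apply b1 (sA α) (sB fun i => s i (q i)) (hs.ne α hα) (hs.leA α (L ^ D) (one_le_pow₀ hL1) hαL)
        (hs.leB _ (B * N) hβ) y₁ y₂ h12 hy2 hΔ S hcS
      have g1 := hGG α hα (by rw [← hLX]; exact hαLX) ⟨hadm, hdist⟩ S hSt y₁ y₂ h12 hy2
      rw [← hLX] at g1
      have e1 : Wt (sA α) (sB fun i => s i (q i)) y₁ y₂ = ∑ n ∈ Ioc y₁ y₂, w n * ∏ i, LL (α i * (n : ℤ) + s i (q i)) := by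
        unfold Wt
        apply sum_congr rfl
        intro n _
        exact (hs.wt α (fun i => s i (q i)) n).symm
      rw [e1]
      refine g1.trans ?_
      calc (X : ℝ) / LX ^ (A + D + 4) ≤ N * L ^ (D + 3) / L ^ (A + D + 4) := by
            apply div_le_div₀ (by positivity) hX2 (by positivity)
            exact pow_le_pow_left₀ hL0.le hLLX _
        _ = N / L ^ (A + 1) := by
            rw [show A + D + 4 = (D + 3) + (A + 1) by ring, pow_add L (D + 3) (A + 1)]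
            field_simp)
  refine key.trans ?_
  rw [← hLX]
  apply div_le_div_of_nonneg_left _ (by positivity)
  · exact pow_le_pow_left₀ hL0.le hLLX _
  · exact prod_nonneg fun i _ => Nat.cast_nonneg _

end Pool.Agent.TH935.TF
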