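import Pool.Agent.TH935.TF8
import Pool.Agent.TH935.GF2

set_option autoImplicit false

/-! Products of families: from ranges to arbitrary finite types. -/

namespace Pool.Agent.TH935.TF
open Finset
open Pool.Agent.H373R2.T7 (ev_L' energy)
open Pool.Agent.TH935.GF (En)

theorem transferP {k : ℕ} (h B C U : ℕ) (P : ℕ → (Fin k → ℤ) → Prop)
    (H : ∃ N₀ : ℕ, ∀ N : ℕ, N₀ ≤ N → ∀ (x : Fin k → ℕ) (s : Fin k → ℕ → ℤ),
      (∀ i, ∀ j ∈ Icc 1 (x i), |s i j| ≤ B * N) →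
      (∀ i, (energy h (x i) (s i) : ℝ) * N ≤ Real.log N ^ C * (x i : ℝ) ^ (2 * h)) →
      ∀ 𝒮 : Finset (Fin k → ℕ), 𝒮 ⊆ Fintype.piFinset (fun i => Icc 1 (x i)) →
      (∀ q ∈ 𝒮, ¬ P N (fun i => s i (q i))) → (𝒮.card : ℝ) ≤ (∏ i, (x i : ℝ)) / Real.log N ^ U) :
    ∃ N₀ : ℕ, ∀ N : ℕ, N₀ ≤ N → ∀ (ι : Fin k → Type) [∀ i, Fintype (ι i)] (v : ∀ i, ι i → ℤ),
      (∀ i j, |v i j| ≤ B * N) →
      (∀ i, (En h (v i) : ℝ) * N ≤ Real.log N ^ C * (Fintype.card (ι i) : ℝ) ^ (2 * h)) →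
      ∀ 𝒮 : Finset (∀ i, ι i), (∀ q ∈ 𝒮, ¬ P N (fun i => v i (q i))) →
      (𝒮.card : ℝ) ≤ (∏ i, (Fintype.card (ι i) : ℝ)) / Real.log N ^ U := by
  classical
  obtain ⟨N₀, h0⟩ := H
  refine ⟨N₀, fun N hN ι _ v hv hE 𝒮 hS => ?_⟩
  rcases 𝒮.eq_empty_or_nonempty with he | ⟨q0, hq0⟩
  · rw [he, card_empty, Nat.cast_zero]
    apply div_nonneg (prod_nonneg fun i _ => Nat.cast_nonneg _)
    exact pow_nonneg (Real.log_natCast_nonneg N) _
  obtain ⟨x, hx⟩ : ∃ x : Fin k → ℕ, ∀ i, x i = Fintype.card (ι i) := ⟨_, fun _ => rfl⟩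
  obtain ⟨e⟩ : Nonempty (∀ i, (Icc 1 (x i) : Finset ℕ) ≃ ι i) :=
    ⟨fun i => Fintype.equivOfCardEq (by rw [Fintype.card_coe, Nat.card_Icc, hx i]; omega)⟩
  obtain ⟨f, hf⟩ : ∃ f : ∀ i, ℕ → ι i, f = fun i m => if hm : m ∈ Icc 1 (x i) then e i ⟨m, hm⟩ else q0 i := ⟨_, rfl⟩
  have hf1 : ∀ i m (hm : m ∈ Icc 1 (x i)), f i m = e i ⟨m, hm⟩ := by
    intro i m hm
    rw [hf]
    simp only
    rw [dif_pos hm]
  have hfinj : ∀ i, ∀ m ∈ Icc 1 (x i), ∀ m' ∈ Icc 1 (x i), f i m = f i m' → m = m' := by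
    intro i m hm m' hm' h2
    rw [hf1 i m hm, hf1 i m' hm'] at h2
    exact congrArg Subtype.val ((e i).injective h2)
  have hfsurj : ∀ i, ∀ j : ι i, ∃ m ∈ Icc 1 (x i), f i m = j := by
    intro i j
    refine ⟨((e i).symm j : ℕ), ((e i).symm j).2, ?_⟩
    rw [hf1 i _ ((e i).symm j).2]
    simp
  have hen : ∀ i, energy h (x i) (fun m => v i (f i m)) ≤ En h (v i) := by
    intro i
    unfold energy En
    rw [Nat.card_eq_fintype_card, Fintype.card_subtype]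
    apply card_le_card_of_injOn (fun q => (fun j => f i (q.1 j), fun j => f i (q.2 j)))
    · intro q hq
      rw [mem_coe, mem_filter, mem_product, Fintype.mem_piFinset, Fintype.mem_piFinset] at hq
      rw [mem_coe, mem_filter]
      exact ⟨mem_univ _, hq.2⟩
    · intro q hq q' hq' h2
      rw [mem_coe, mem_filter, mem_product, Fintype.mem_piFinset, Fintype.mem_piFinset] at hq hq'
      simp only [Prod.mk.injEq] at h2
      apply Prod.ext
      · funext j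
        exact hfinj i _ (hq.1.1 j) _ (hq'.1.1 j) (congrFun h2.1 j)
      · funext j
        exact hfinj i _ (hq.1.2 j) _ (hq'.1.2 j) (congrFun h2.2 j)
  have key := h0 N hN x (fun i m => v i (f i m)) (fun i j _ => hv i (f i j)) (by
    intro i
    have henr : (energy h (x i) (fun m => v i (f i m)) : ℝ) ≤ En h (v i) := by exact_mod_cast hen i
    calc (energy h (x i) (fun m => v i (f i m)) : ℝ) * N ≤ En h (v i) * N := mul_le_mul_of_nonneg_right henr (Nat.cast_nonneg _)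
      _ ≤ _ := by rw [hx i]; exact hE i)
    ((Fintype.piFinset (fun i => Icc 1 (x i))).filter (fun q => (fun i => f i (q i)) ∈ 𝒮)) (filter_subset _ _) (by
      intro q hq
      rw [mem_filter] at hq
      exact hS _ hq.2)
  have hcard : 𝒮.card ≤ ((Fintype.piFinset (fun i => Icc 1 (x i))).filter (fun q => (fun i => f i (q i)) ∈ 𝒮)).card := by
    refine le_trans (card_le_card ?_) (card_image_le (f := fun q : Fin k → ℕ => (fun i => f i (q i))))
    intro q hq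
    choose r hr1 hr2 using fun i => hfsurj i (q i)
    rw [mem_image]
    have e1 : (fun i => f i (r i)) = q := funext hr2
    exact ⟨r, mem_filter.2 ⟨Fintype.mem_piFinset.2 hr1, by rw [e1]; exact hq⟩, e1⟩
  calc (𝒮.card : ℝ) ≤ (((Fintype.piFinset (fun i => Icc 1 (x i))).filter (fun q => (fun i => f i (q i)) ∈ 𝒮)).card : ℝ) := by
        exact_mod_cast hcard
    _ ≤ (∏ i, (x i : ℝ)) / Real.log N ^ U := key
    _ = _ := by simp only [hx]

end Pool.Agent.TH935.TF
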