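import Pool.Agent.TH935.TF9

set_option autoImplicit false

/-! Systems of linear forms at the elements of arbitrary sets: from weighted sums to numbers of prime values. -/

namespace Pool.Agent.TH935.TG
open Finset
open Pool.Agent.H373R2.T7
open Pool.Agent.TH935.TF
open Pool.Agent.W93.GB (pp pp_nonneg)
open Pool.Agent.H560R3.GB (choose_delta)

/-- the number of `n` in `M` at which all forms are primes up to sign -/
def cnM {k : ℕ} (α β : Fin k → ℤ) (M : Finset ℕ) : ℕ :=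
  (M.filter (fun n : ℕ => ∀ i, (α i * (n : ℤ) + β i).natAbs.Prime)).card

/-- the weighted number -/
noncomputable def WtM {k : ℕ} (α β : Fin k → ℤ) (M : Finset ℕ) : ℝ := ∑ n ∈ M, ∏ i, LL (α i * (n : ℤ) + β i)

lemma wt_leM {k : ℕ} (hk : 1 ≤ k) (α β : Fin k → ℤ) (hα : ∀ i, α i ≠ 0) (X Y : ℕ) (hX : 1 ≤ X)
    (hb : ∀ i, ∀ n ∈ Ioc 0 Y, (α i * (n : ℤ) + β i).natAbs ≤ X) (M : Finset ℕ) (hM : M ⊆ Ioc 0 Y) :
    WtM α β M ≤ Real.log X ^ k * (cnM α β M + 4 * k * √(X : ℝ)) := by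
  classical
  obtain ⟨G, hG⟩ : ∃ G, G = Real.log (X : ℝ) := ⟨_, rfl⟩
  have hG0 : 0 ≤ G := by rw [hG]; exact Real.log_natCast_nonneg X
  rw [← hG]
  have h1 : ∀ n ∈ M, ∏ i, LL (α i * (n : ℤ) + β i) ≤
      (if ∀ i, (α i * (n : ℤ) + β i).natAbs.Prime then G ^ k else 0) +
        G ^ (k - 1) * ∑ i, pp (α i * (n : ℤ) + β i).natAbs := by
    intro n hn
    have hle : ∀ i, LL (α i * (n : ℤ) + β i) ≤ G := by
      intro i
      rw [hG]
      exact LL_le _ X hX (hb i n (hM hn))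
    have hpp0 : 0 ≤ ∑ i, pp (α i * (n : ℤ) + β i).natAbs := sum_nonneg fun i _ => pp_nonneg _
    by_cases hp : ∀ i, (α i * (n : ℤ) + β i).natAbs.Prime
    · rw [if_pos hp]
      have h2 : ∏ i, LL (α i * (n : ℤ) + β i) ≤ G ^ k := by
        calc ∏ i, LL (α i * (n : ℤ) + β i) ≤ ∏ _i : Fin k, G := prod_le_prod (fun i _ => LL_nonneg _) (fun i _ => hle i)
          _ = G ^ k := by rw [prod_const, card_univ, Fintype.card_fin]
      have : 0 ≤ G ^ (k - 1) * ∑ i, pp (α i * (n : ℤ) + β i).natAbs := by positivity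
      linarith
    · rw [if_neg hp, zero_add]
      push Not at hp
      obtain ⟨i₀, hi₀⟩ := hp
      have e1 : LL (α i₀ * (n : ℤ) + β i₀) = pp (α i₀ * (n : ℤ) + β i₀).natAbs := by
        unfold pp LL
        rw [lamP_nat, if_neg hi₀, sub_zero]
      rw [← mul_prod_erase univ (fun i => LL (α i * (n : ℤ) + β i)) (mem_univ i₀)]
      rw [e1]
      have e2 : ∏ i ∈ univ.erase i₀, LL (α i * (n : ℤ) + β i) ≤ G ^ (k - 1) := by
        calc ∏ i ∈ univ.erase i₀, LL (α i * (n : ℤ) + β i) ≤ ∏ _i ∈ univ.erase i₀, G :=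
              prod_le_prod (fun i _ => LL_nonneg _) (fun i _ => hle i)
          _ = G ^ (k - 1) := by rw [prod_const, card_erase_of_mem (mem_univ _), card_univ, Fintype.card_fin]
      have e3 : pp (α i₀ * (n : ℤ) + β i₀).natAbs ≤ ∑ i, pp (α i * (n : ℤ) + β i).natAbs :=
        single_le_sum (f := fun i => pp (α i * (n : ℤ) + β i).natAbs) (fun i _ => pp_nonneg _) (mem_univ i₀)
      rw [mul_comm]
      exact mul_le_mul e2 e3 (pp_nonneg _) (by positivity)
  unfold WtM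
  refine (sum_le_sum h1).trans ?_
  rw [sum_add_distrib, ← mul_sum]
  have h2 : ∑ n ∈ M, (if ∀ i, (α i * (n : ℤ) + β i).natAbs.Prime then G ^ k else 0) = cnM α β M * G ^ k := by
    rw [← sum_filter, sum_const, nsmul_eq_mul]
    rfl
  have h3 : ∑ n ∈ M, ∑ i, pp (α i * (n : ℤ) + β i).natAbs ≤ k * (4 * √(X : ℝ) * G) := by
    rw [sum_comm]
    calc ∑ i, ∑ n ∈ M, pp (α i * (n : ℤ) + β i).natAbs ≤ ∑ _i : Fin k, (4 * √(X : ℝ) * G) := by
          apply sum_le_sum
          intro i _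
          rw [hG]
          refine le_trans (sum_le_sum_of_subset_of_nonneg hM fun n _ _ => pp_nonneg _) ?_
          exact pp_form (α i) (β i) (hα i) X 0 Y hX (hb i)
      _ = _ := by rw [sum_const, card_univ, Fintype.card_fin, nsmul_eq_mul]
  rw [h2]
  have h4 : G ^ (k - 1) * ∑ n ∈ M, ∑ i, pp (α i * (n : ℤ) + β i).natAbs ≤ G ^ (k - 1) * (k * (4 * √(X : ℝ) * G)) :=
    mul_le_mul_of_nonneg_left h3 (by positivity)
  have e : G ^ (k - 1) * (k * (4 * √(X : ℝ) * G)) = G ^ k * (4 * k * √(X : ℝ)) := by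
    have : G ^ k = G ^ (k - 1) * G := by rw [← pow_succ]; congr 1; omega
    rw [this]
    ring
  rw [e] at h4
  rw [mul_add]
  linarith

lemma cn_leM {k : ℕ} (α β : Fin k → ℤ) (hα : ∀ i, α i ≠ 0) (Y t : ℕ) (ht : 2 ≤ t) (M : Finset ℕ) (hM : M ⊆ Ioc 0 Y) :
    (cnM α β M : ℝ) ≤ k * (2 * t + 1) + WtM α β M / Real.log t ^ k := by
  classical
  have hly : 0 < Real.log t := Real.log_pos (by exact_mod_cast (by omega : 1 < t))
  obtain ⟨P1, hP1⟩ : ∃ P1 : Finset ℕ, P1 = univ.biUnion (fun i : Fin k => (Ioc 0 Y).filter (fun n : ℕ => (α i * (n : ℤ) + β i).natAbs ≤ t)) := ⟨_, rfl⟩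
  obtain ⟨P3, hP3⟩ : ∃ P3 : Finset ℕ, P3 = M.filter (fun n : ℕ => ∀ i, (α i * (n : ℤ) + β i).natAbs.Prime ∧ t < (α i * (n : ℤ) + β i).natAbs) := ⟨_, rfl⟩
  have hsub : M.filter (fun n : ℕ => ∀ i, (α i * (n : ℤ) + β i).natAbs.Prime) ⊆ P1 ∪ P3 := by
    intro n hn
    rw [mem_filter] at hn
    rw [mem_union, hP1, hP3, mem_biUnion, mem_filter]
    by_cases h : ∃ i, (α i * (n : ℤ) + β i).natAbs ≤ t
    · obtain ⟨i, hi⟩ := h
      exact Or.inl ⟨i, mem_univ _, mem_filter.2 ⟨hM hn.1, hi⟩⟩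
    · push Not at h
      exact Or.inr ⟨hn.1, fun i => ⟨hn.2 i, h i⟩⟩
  have hc1 : P1.card ≤ k * (2 * t + 1) := by
    rw [hP1]
    refine card_biUnion_le.trans ((sum_le_sum fun i _ => small_cnt (α i) (β i) (hα i) 0 Y t).trans ?_)
    rw [sum_const, card_univ, Fintype.card_fin, smul_eq_mul]
  have hc3 : (P3.card : ℝ) * Real.log t ^ k ≤ WtM α β M := by
    rw [hP3, card_filter]
    push_cast
    rw [sum_mul]
    unfold WtM
    apply sum_le_sum
    intro n _
    split_ifs with h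
    · rw [one_mul]
      calc Real.log t ^ k = ∏ _i : Fin k, Real.log t := by rw [prod_const, card_univ, Fintype.card_fin]
        _ ≤ ∏ i, LL (α i * (n : ℤ) + β i) := by
            apply prod_le_prod (fun _ _ => hly.le)
            intro i _
            unfold LL
            rw [ArithmeticFunction.vonMangoldt_apply_prime (h i).1]
            exact Real.log_le_log (by exact_mod_cast (by omega : 0 < t)) (by exact_mod_cast (h i).2.le)
    · rw [zero_mul]
      exact prod_nonneg fun i _ => LL_nonneg _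
  have h4 : cnM α β M ≤ k * (2 * t + 1) + P3.card := by
    unfold cnM
    refine (card_le_card hsub).trans ((card_union_le _ _).trans ?_)
    omega
  have h5 : (P3.card : ℝ) ≤ WtM α β M / Real.log t ^ k := by
    rw [le_div_iff₀ (by positivity)]
    exact hc3
  have h6 : (cnM α β M : ℝ) ≤ ((k * (2 * t + 1) + P3.card : ℕ) : ℝ) := by exact_mod_cast h4
  push_cast at h6
  linarith

set_option maxHeartbeats 4000000 in
theorem convM (k A B D : ℕ) (hk : 1 ≤ k) (ε : ℝ) (hε : 0 < ε) : ∃ N0 : ℕ, ∀ N : ℕ, N0 ≤ N →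
    ∀ α β : Fin k → ℤ, (∀ i, α i ≠ 0) → (∀ i, ((α i).natAbs : ℝ) ≤ Real.log N ^ D) → (∀ i, (β i).natAbs ≤ B * N) →
    ∀ M : Finset ℕ, M ⊆ Ioc 0 (B * N) → ∀ Q : ℝ, (N : ℝ) / Real.log N ^ A ≤ Q →
    |WtM α β M - Q| ≤ N / Real.log N ^ (A + 1) →
    |(cnM α β M : ℝ) - Q / Real.log N ^ k| ≤ ε * (Q / Real.log N ^ k) := by
  obtain ⟨δ, hδ0, hδ1, hδa, hδb⟩ := choose_delta k ε hε
  obtain ⟨n1, h1⟩ := ev_loglog (A + k + D + 6) δ hδ0
  obtain ⟨n2, h2⟩ := ev_L' (2 / δ + 2 ^ k * (8 * k) / δ + 12 * k / δ + 2 * B + 4)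
  obtain ⟨n3, h3⟩ := ev_log' (A + k + D + 6) 1
  refine ⟨n1 + n2 + n3 + 4, fun N hN α β hα hαL hβ M hM Q hQlow hW => ?_⟩
  have b1 := h1 N (by omega)
  have b2 := h2 N (by omega)
  have b3 := h3 N (by omega)
  obtain ⟨L, hL⟩ : ∃ L, L = Real.log (N : ℝ) := ⟨_, rfl⟩
  rw [← hL] at b1 b2 b3 hαL hQlow hW ⊢
  rw [one_mul] at b3
  have hk1 : (1 : ℝ) ≤ k := by exact_mod_cast hk
  have q1 : 0 ≤ 2 / δ := by positivity
  have q2 : 0 ≤ 2 ^ k * (8 * k) / δ := by positivity
  have q3 : 0 ≤ 12 * k / δ := by positivity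
  have hB0 : (0 : ℝ) ≤ B := Nat.cast_nonneg _
  have hL4 : 4 ≤ L := by linarith
  have hL1 : 1 ≤ L := by linarith
  have hL0 : 0 < L := by linarith
  have hNr : (4 : ℝ) ≤ N := by exact_mod_cast (by omega : 4 ≤ N)
  have hN0 : (0 : ℝ) < N := by linarith
  have hss : √(N : ℝ) * √(N : ℝ) = N := Real.mul_self_sqrt hN0.le
  have hs0 : 0 < √(N : ℝ) := Real.sqrt_pos.2 hN0
  have hs1 : 1 ≤ √(N : ℝ) := (one_le_pow₀ hL1).trans b3
  have hQ0 : 0 < Q := lt_of_lt_of_le (by positivity) hQlow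
  obtain ⟨W, hWd⟩ : ∃ W, W = WtM α β M := ⟨_, rfl⟩
  rw [← hWd] at hW
  have hWQ : |W - Q| ≤ δ / 2 * Q := by
    refine hW.trans ?_
    have e1 : 2 ≤ L * δ := by
      have : 2 / δ ≤ L := by linarith
      rwa [div_le_iff₀ hδ0] at this
    calc (N : ℝ) / L ^ (A + 1) = (1 / L) * (N / L ^ A) := by rw [pow_succ]; field_simp
      _ ≤ (δ / 2) * (N / L ^ A) := by
          apply mul_le_mul_of_nonneg_right _ (by positivity)
          rw [div_le_iff₀ hL0]
          linarith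
      _ ≤ δ / 2 * Q := mul_le_mul_of_nonneg_left hQlow (by positivity)
  obtain ⟨w1, w2⟩ := abs_le.1 hWQ
  obtain ⟨P, hP⟩ : ∃ P : ℝ, P = (cnM α β M : ℝ) := ⟨_, rfl⟩
  have hP0 : 0 ≤ P := by rw [hP]; exact Nat.cast_nonneg _
  rw [← hP]
  -- the bound for the values
  obtain ⟨X, hX⟩ : ∃ X : ℕ, X = ⌈(N : ℝ) * L ^ (D + 2)⌉₊ := ⟨_, rfl⟩
  have hX1 : (N : ℝ) * L ^ (D + 2) ≤ X := by rw [hX]; exact Nat.le_ceil _
  have hX2 : (X : ℝ) ≤ N * L ^ (D + 3) := by
    have e1 : (X : ℝ) < N * L ^ (D + 2) + 1 := by rw [hX]; exact Nat.ceil_lt_add_one (by positivity)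
    have e2 : 1 ≤ (N : ℝ) * L ^ (D + 2) := by
      have := one_le_pow₀ (n := D + 2) hL1
      nlinarith
    rw [show D + 3 = (D + 2) + 1 by ring, pow_succ L (D + 2)]
    nlinarith
  have hX0 : (0 : ℝ) < X := lt_of_lt_of_le (by positivity) hX1
  have hXn : 1 ≤ X := by exact_mod_cast hX0
  have hlL0 : 0 ≤ Real.log L := Real.log_nonneg hL1
  have hlogX : Real.log X ≤ (1 + δ) * L := by
    have e1 := Real.log_le_log hX0 hX2
    rw [Real.log_mul hN0.ne' (by positivity), Real.log_pow, ← hL] at e1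
    have e2 : ((D + 3 : ℕ) : ℝ) * Real.log L ≤ ((A + k + D + 6 : ℕ) : ℝ) * Real.log L := by
      apply mul_le_mul_of_nonneg_right _ hlL0
      exact_mod_cast (by omega : D + 3 ≤ A + k + D + 6)
    linarith
  have hlogX0 : 0 ≤ Real.log X := Real.log_natCast_nonneg X
  have hsqX : √(X : ℝ) ≤ √(N : ℝ) * L ^ (D + 3) := by
    rw [Real.sqrt_le_left (by positivity)]
    refine hX2.trans ?_
    rw [mul_pow, Real.sq_sqrt hN0.le]
    apply mul_le_mul_of_nonneg_left _ hN0.le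
    have := one_le_pow₀ (n := D + 3) hL1
    nlinarith
  have hval : ∀ i, ∀ n ∈ Ioc 0 (B * N), (α i * (n : ℤ) + β i).natAbs ≤ X := by
    intro i n hn
    rw [mem_Ioc] at hn
    have e1 : (α i * (n : ℤ) + β i).natAbs ≤ (α i).natAbs * n + (β i).natAbs := by
      refine (Int.natAbs_add_le _ _).trans ?_
      rw [Int.natAbs_mul, Int.natAbs_natCast]
    have e2 : (((α i * (n : ℤ) + β i).natAbs : ℕ) : ℝ) ≤ X := by
      have f1 : (((α i * (n : ℤ) + β i).natAbs : ℕ) : ℝ) ≤ ((α i).natAbs : ℝ) * n + ((β i).natAbs : ℝ) := by exact_mod_cast e1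
      have f2 : (n : ℝ) ≤ B * N := by exact_mod_cast hn.2
      have f3 : ((β i).natAbs : ℝ) ≤ B * N := by exact_mod_cast hβ i
      have f4 : 1 ≤ L ^ D := one_le_pow₀ hL1
      have f5 : 0 ≤ (B : ℝ) * N := by positivity
      calc (((α i * (n : ℤ) + β i).natAbs : ℕ) : ℝ) ≤ ((α i).natAbs : ℝ) * n + ((β i).natAbs : ℝ) := f1
        _ ≤ L ^ D * (B * N) + L ^ D * (B * N) := by
            apply add_le_add
            · exact mul_le_mul (hαL i) f2 (Nat.cast_nonneg _) (by positivity)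
            · exact f3.trans (le_mul_of_one_le_left f5 f4)
        _ = N * (L ^ D * (2 * B)) := by ring
        _ ≤ N * (L ^ D * L ^ 2) := by
            apply mul_le_mul_of_nonneg_left _ hN0.le
            apply mul_le_mul_of_nonneg_left _ (by positivity)
            nlinarith
        _ = N * L ^ (D + 2) := by rw [pow_add]
        _ ≤ X := hX1
    exact_mod_cast e2
  have hLk : 0 < L ^ k := by positivity
  -- lower bound
  have g1 : (1 - ε) * Q ≤ L ^ k * P := by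
    have e1 := wt_leM hk α β hα X (B * N) hXn hval M hM
    rw [← hWd, ← hP] at e1
    have e2 : Real.log X ^ k ≤ (1 + δ) ^ k * L ^ k := by
      rw [← mul_pow]
      exact pow_le_pow_left₀ hlogX0 hlogX k
    have e3 : W ≤ (1 + δ) ^ k * L ^ k * (P + 4 * k * (√(N : ℝ) * L ^ (D + 3))) := by
      refine e1.trans (mul_le_mul e2 ?_ (by positivity) (by positivity))
      have : 4 * (k : ℝ) * √(X : ℝ) ≤ 4 * k * (√(N : ℝ) * L ^ (D + 3)) := mul_le_mul_of_nonneg_left hsqX (by positivity)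
      linarith
    have e4 : (1 + δ) ^ k * L ^ k * (4 * k * (√(N : ℝ) * L ^ (D + 3))) ≤ δ / 2 * Q := by
      have f1 : (1 + δ) ^ k ≤ 2 ^ k := pow_le_pow_left₀ (by linarith) (by linarith) k
      have f2 : 2 ^ k * (8 * k) ≤ L * δ := by
        have : 2 ^ k * (8 * k) / δ ≤ L := by linarith
        rwa [div_le_iff₀ hδ0] at this
      calc (1 + δ) ^ k * L ^ k * (4 * k * (√(N : ℝ) * L ^ (D + 3))) ≤ 2 ^ k * L ^ k * (4 * k * (√(N : ℝ) * L ^ (D + 3))) := by gcongr
        _ = (2 ^ k * (8 * k)) * (L ^ (k + D + 3) * √(N : ℝ)) / 2 := by ring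
        _ ≤ (L * δ) * (L ^ (k + D + 3) * √(N : ℝ)) / 2 := by gcongr
        _ = δ / 2 * (L ^ (A + k + D + 4) * √(N : ℝ) / L ^ A) := by
            rw [show A + k + D + 4 = (k + D + 3) + 1 + A by ring, pow_add L (k + D + 3 + 1) A, pow_succ L (k + D + 3)]
            field_simp
        _ ≤ δ / 2 * (N / L ^ A) := by
            apply mul_le_mul_of_nonneg_left _ (by positivity)
            apply div_le_div_of_nonneg_right _ (by positivity)
            calc L ^ (A + k + D + 4) * √(N : ℝ) ≤ L ^ (A + k + D + 6) * √(N : ℝ) := by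
                  apply mul_le_mul_of_nonneg_right _ hs0.le
                  exact pow_le_pow_right₀ hL1 (by omega)
              _ ≤ √(N : ℝ) * √(N : ℝ) := mul_le_mul_of_nonneg_right b3 hs0.le
              _ = N := hss
        _ ≤ δ / 2 * Q := mul_le_mul_of_nonneg_left hQlow (by positivity)
    have e5 : (1 - δ) * Q ≤ (1 + δ) ^ (k + 1) * (L ^ k * P) := by
      have f1 : (1 + δ) ^ k * L ^ k * (P + 4 * k * (√(N : ℝ) * L ^ (D + 3))) =
          (1 + δ) ^ k * (L ^ k * P) + (1 + δ) ^ k * L ^ k * (4 * k * (√(N : ℝ) * L ^ (D + 3))) := by ring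
      have f2 : (1 + δ) ^ k * (L ^ k * P) ≤ (1 + δ) ^ (k + 1) * (L ^ k * P) := by
        apply mul_le_mul_of_nonneg_right _ (by positivity)
        exact pow_le_pow_right₀ (by linarith) (by omega)
      linarith
    have p1 : 0 < (1 + δ) ^ (k + 1) := by positivity
    have h6 : (1 - ε) * (1 + δ) ^ (k + 1) * Q ≤ (1 - δ) * Q := mul_le_mul_of_nonneg_right hδa hQ0.le
    have h7 : (1 + δ) ^ (k + 1) * ((1 - ε) * Q) ≤ (1 + δ) ^ (k + 1) * (L ^ k * P) := by
      have : (1 + δ) ^ (k + 1) * ((1 - ε) * Q) = (1 - ε) * (1 + δ) ^ (k + 1) * Q := by ring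
      linarith
    exact le_of_mul_le_mul_left h7 p1
  -- upper bound
  have g2 : L ^ k * P ≤ (1 + ε) * Q := by
    obtain ⟨t, ht⟩ : ∃ t, t = ⌈(N : ℝ) / L ^ (A + k + 3)⌉₊ := ⟨_, rfl⟩
    have hq : √(N : ℝ) ≤ (N : ℝ) / L ^ (A + k + 3) := by
      rw [le_div_iff₀ (by positivity)]
      calc √(N : ℝ) * L ^ (A + k + 3) ≤ √(N : ℝ) * L ^ (A + k + D + 6) :=
            mul_le_mul_of_nonneg_left (pow_le_pow_right₀ hL1 (by omega)) hs0.le
        _ ≤ √(N : ℝ) * √(N : ℝ) := mul_le_mul_of_nonneg_left b3 hs0.le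
        _ = N := hss
    have hsN2 : 2 ≤ √(N : ℝ) := by
      apply Real.le_sqrt_of_sq_le
      linarith
    have ht1 : (N : ℝ) / L ^ (A + k + 3) ≤ t := by rw [ht]; exact Nat.le_ceil _
    have ht2 : (t : ℝ) ≤ (N : ℝ) / L ^ (A + k + 3) + 1 := by rw [ht]; exact (Nat.ceil_lt_add_one (by positivity)).le
    have ht2n : 2 ≤ t := by
      have : (2 : ℝ) ≤ t := by linarith
      exact_mod_cast this
    have c0 := cn_leM α β hα (B * N) t ht2n M hM
    rw [← hWd, ← hP] at c0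
    have hlogt : (1 - δ) * L ≤ Real.log t := by
      have d1 : Real.log ((N : ℝ) / L ^ (A + k + 3)) ≤ Real.log t := Real.log_le_log (by positivity) ht1
      rw [Real.log_div hN0.ne' (by positivity), Real.log_pow, ← hL] at d1
      have d7 : ((A + k + 3 : ℕ) : ℝ) * Real.log L ≤ ((A + k + D + 6 : ℕ) : ℝ) * Real.log L := by
        apply mul_le_mul_of_nonneg_right _ hlL0
        exact_mod_cast (by omega : A + k + 3 ≤ A + k + D + 6)
      linarith
    have hδL : 0 < (1 - δ) * L := mul_pos (by linarith) hL0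
    have hδk : 0 < (1 - δ) ^ k := by
      have : 0 < 1 - δ := by linarith
      positivity
    have hlt0 : 0 < Real.log t := lt_of_lt_of_le hδL hlogt
    have c1 : L ^ k * (k * (2 * t + 1)) ≤ δ / 2 * Q := by
      have d1 : 2 * (t : ℝ) + 1 ≤ 6 * (N / L ^ (A + k + 3)) := by linarith
      have f2 : 12 * k ≤ L * δ := by
        have : 12 * k / δ ≤ L := by linarith
        rwa [div_le_iff₀ hδ0] at this
      calc L ^ k * (k * (2 * t + 1)) ≤ L ^ k * (k * (6 * (N / L ^ (A + k + 3)))) := by gcongr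
        _ = (12 * k) * (N / L ^ (A + 3)) / 2 := by
            rw [show A + k + 3 = k + (A + 3) by ring, pow_add L k (A + 3)]
            field_simp
            ring
        _ ≤ (L * δ) * (N / L ^ (A + 3)) / 2 := by gcongr
        _ = δ / 2 * (N / L ^ A) / L ^ 2 := by
            rw [pow_add L A 3]
            field_simp
        _ ≤ δ / 2 * (N / L ^ A) := div_le_self (by positivity) (one_le_pow₀ hL1)
        _ ≤ δ / 2 * Q := mul_le_mul_of_nonneg_left hQlow (by positivity)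
    have hW0 : 0 ≤ W := by
      have h9 : (1 - δ / 2) * Q ≤ W := by linarith
      exact le_trans (mul_nonneg (by linarith) hQ0.le) h9
    have c2 : (1 - δ) ^ k * (L ^ k * (W / Real.log t ^ k)) ≤ W := by
      rw [← mul_assoc, ← mul_pow, mul_div_assoc', div_le_iff₀ (by positivity), mul_comm]
      apply mul_le_mul_of_nonneg_left _ hW0
      exact pow_le_pow_left₀ hδL.le hlogt k
    have c3 : (1 - δ) ^ k * (L ^ k * P) ≤ δ / 2 * Q + W := by
      have f1 : L ^ k * P ≤ L ^ k * (k * (2 * t + 1)) + L ^ k * (W / Real.log t ^ k) := by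
        rw [← mul_add]
        exact mul_le_mul_of_nonneg_left c0 hLk.le
      have f2 : (1 - δ) ^ k ≤ 1 := pow_le_one₀ (by linarith) (by linarith)
      have f3 : (1 - δ) ^ k * (L ^ k * (k * (2 * t + 1))) ≤ L ^ k * (k * (2 * t + 1)) :=
        mul_le_of_le_one_left (by positivity) f2
      calc (1 - δ) ^ k * (L ^ k * P) ≤ (1 - δ) ^ k * (L ^ k * (k * (2 * t + 1)) + L ^ k * (W / Real.log t ^ k)) :=
            mul_le_mul_of_nonneg_left f1 hδk.le
        _ = (1 - δ) ^ k * (L ^ k * (k * (2 * t + 1))) + (1 - δ) ^ k * (L ^ k * (W / Real.log t ^ k)) := by ring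
        _ ≤ _ := by linarith
    have c4 : (1 + 2 * δ) * Q ≤ (1 + ε) * (1 - δ) ^ (k + 1) * Q := mul_le_mul_of_nonneg_right hδb hQ0.le
    have c5 : (1 - δ) ^ (k + 1) ≤ (1 - δ) ^ k := pow_le_pow_of_le_one (by linarith) (by linarith) (by omega)
    have c6 : (1 + ε) * (1 - δ) ^ (k + 1) * Q ≤ (1 + ε) * (1 - δ) ^ k * Q := by gcongr
    have c7 : (1 - δ) ^ k * (L ^ k * P) ≤ (1 - δ) ^ k * ((1 + ε) * Q) := by
      have e1 : (1 - δ) ^ k * ((1 + ε) * Q) = (1 + ε) * (1 - δ) ^ k * Q := by ring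
      have e2 : 0 ≤ δ * Q := by positivity
      rw [e1]
      linarith
    exact le_of_mul_le_mul_left c7 hδk
  have e2 : P = L ^ k * P / L ^ k := by field_simp
  rw [e2, ← sub_div, abs_div, abs_of_pos hLk, ← mul_div_assoc]
  apply div_le_div_of_nonneg_right _ hLk.le
  rw [abs_le]
  constructor <;> linarith

end Pool.Agent.TH935.TG
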