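import Pool.Agent.TH935.TG1

set_option autoImplicit false

/-! Systems of linear forms at the elements of arbitrary sets, for almost all vectors of constant terms from
products of families of nearly minimal additive energy. -/

namespace Pool.Agent.TH935.TG
open Finset
open Pool.Agent.H373R2.T7
open Pool.Agent.TH935.TF
open Pool.Agent.W93.PP (markov)

/-- the number of `n` in `M` at which all forms are free of prime factors `≤ z` -/
def rgM {k : ℕ} (α β : Fin k → ℤ) (z : ℕ) (M : Finset ℕ) : ℕ :=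
  (M.filter (fun n : ℕ => ∀ i, ∀ p ∈ pz z, ¬ (p : ℤ) ∣ α i * (n : ℤ) + β i)).card

lemma sum_mdl {k : ℕ} (α β : Fin k → ℤ) (z : ℕ) (M : Finset ℕ) :
    ∑ n ∈ M, ∏ i, mdl z (α i * (n : ℤ) + β i) = (Vz z)⁻¹ ^ k * rgM α β z M := by
  classical
  unfold rgM
  rw [card_filter]
  push_cast
  rw [mul_sum]
  apply sum_congr rfl
  intro n _
  by_cases h5 : ∀ i, ∀ p ∈ pz z, ¬ (p : ℤ) ∣ α i * (n : ℤ) + β i
  · rw [if_pos h5, mul_one]
    have h7 : ∀ i : Fin k, mdl z (α i * (n : ℤ) + β i) = (Vz z)⁻¹ := fun i => if_pos (h5 i)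
    rw [prod_congr rfl (fun i _ => h7 i), prod_const, card_univ, Fintype.card_fin]
  · rw [if_neg h5, mul_zero]
    push Not at h5
    obtain ⟨i, p, hp, hi⟩ := h5
    exact prod_eq_zero (mem_univ i) (if_neg (fun h => h p hp hi))

lemma Vz_le_one (z : ℕ) : Vz z ≤ 1 := by
  unfold Vz
  apply prod_le_one
  · intro p hp
    have hp2 : (2 : ℝ) ≤ p := by exact_mod_cast (mem_pz.1 hp).2.two_le
    rw [sub_nonneg, div_le_one (by linarith)]
    linarith
  · intro p _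
    have : (0 : ℝ) ≤ 1 / p := by positivity
    linarith

/-- for all systems with small slopes and all the sets: the number of arguments with prime values is the
expected proportion of the number of arguments with rough values -/
def HA {k : ℕ} {τ : Type} (ε : ℝ) (K D N z : ℕ) (𝒩 : τ → Finset ℕ) (β : Fin k → ℤ) : Prop :=
  ∀ α : Fin k → ℤ, (∀ i, α i ≠ 0) → (∀ i, ((α i).natAbs : ℝ) ≤ Real.log N ^ D) → ∀ l : τ,
    (N : ℝ) / Real.log N ^ K ≤ rgM α β z (𝒩 l) →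
    |(cnM α β (𝒩 l) : ℝ) - rgM α β z (𝒩 l) / (Vz z * Real.log N) ^ k| ≤ ε * (rgM α β z (𝒩 l) / (Vz z * Real.log N) ^ k)

set_option maxHeartbeats 4000000 in
theorem fam_arb (k h B C D T U K : ℕ) (hk : 1 ≤ k) (ε : ℝ) (hε : 0 < ε) : ∃ E0 : ℕ, ∀ E : ℕ, E0 ≤ E →
    ∃ N0 : ℕ, ∀ N : ℕ, N0 ≤ N → ∀ (τ : Type) [Fintype τ], (Fintype.card τ : ℝ) ≤ Real.log N ^ T →
    ∀ 𝒩 : τ → Finset ℕ, (∀ l, 𝒩 l ⊆ Ioc 0 (B * N)) →
    ∀ (x : Fin k → ℕ) (s : Fin k → ℕ → ℤ), (∀ i, ∀ j ∈ Icc 1 (x i), |s i j| ≤ B * N) →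
    (∀ i, (energy h (x i) (s i) : ℝ) * N ≤ Real.log N ^ C * (x i : ℝ) ^ (2 * h)) →
    ∀ 𝒮 : Finset (Fin k → ℕ), 𝒮 ⊆ Fintype.piFinset (fun i => Icc 1 (x i)) →
    (∀ q ∈ 𝒮, ¬ HA ε K D N ⌊Real.log N ^ E⌋₊ 𝒩 (fun i => s i (q i))) →
    (𝒮.card : ℝ) ≤ (∏ i, (x i : ℝ)) / Real.log N ^ U := by
  classical
  obtain ⟨V, hV⟩ : ∃ V, V = K + D + 4 := ⟨_, rfl⟩
  obtain ⟨U', hU'⟩ : ∃ U', U' = U + V + T + k * (D + 1) := ⟨_, rfl⟩
  obtain ⟨B0, hB0⟩ := prod_mom k h (C + D + 3) U' D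
  refine ⟨B0 + 2, fun E hE0 => ?_⟩
  obtain ⟨n0, h0⟩ := hB0 E
  obtain ⟨n1, h1⟩ := convM k K B D hk ε hε
  obtain ⟨n2, h2⟩ := ev_L' (2 ^ B0 + B + 10)
  obtain ⟨n3, h3⟩ := ev_log' (D + 3) 1
  refine ⟨n0 + n1 + n2 + n3 + 3, fun N hN τ _ ht 𝒩 h𝒩 x s hsb hE 𝒮 hSx hS => ?_⟩
  have b1 := h1 N (by omega)
  have b2 := h2 N (by omega)
  have b3 := h3 N (by omega)
  obtain ⟨L, hL⟩ : ∃ L, L = Real.log (N : ℝ) := ⟨_, rfl⟩
  obtain ⟨z, hz⟩ : ∃ z : ℕ, z = ⌊Real.log N ^ E⌋₊ := ⟨_, rfl⟩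
  rw [← hz] at hS
  rw [← hL] at b1 b2 b3 hE ht hz ⊢
  rw [one_mul] at b3
  have hB0' : (0 : ℝ) ≤ B := Nat.cast_nonneg _
  have hp2 : (0 : ℝ) < 2 ^ B0 := by positivity
  have hL10 : 10 ≤ L := by linarith
  have hL1 : 1 ≤ L := by linarith
  have hL0 : 0 < L := by linarith
  have hNr : (3 : ℝ) ≤ N := by exact_mod_cast (by omega : 3 ≤ N)
  have hN0 : (0 : ℝ) < N := by linarith
  have hprod0 : (0 : ℝ) ≤ ∏ i, (x i : ℝ) := prod_nonneg fun i _ => Nat.cast_nonneg _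
  by_cases hx : ∀ i, 1 ≤ x i
  swap
  · push Not at hx
    obtain ⟨i, hi⟩ := hx
    have h5 : Fintype.piFinset (fun i => Icc 1 (x i)) = ∅ := by
      rw [Fintype.piFinset_eq_empty]
      exact ⟨i, Icc_eq_empty (by omega)⟩
    rw [h5] at hSx
    rw [subset_empty.1 hSx, card_empty, Nat.cast_zero]
    positivity
  obtain ⟨X, hX⟩ : ∃ X : ℕ, X = N * ⌈L ^ (D + 2)⌉₊ := ⟨_, rfl⟩
  have hc1 : L ^ (D + 2) ≤ (⌈L ^ (D + 2)⌉₊ : ℝ) := Nat.le_ceil _
  have hc2 : (⌈L ^ (D + 2)⌉₊ : ℝ) ≤ L ^ (D + 3) := by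
    have h5 : (⌈L ^ (D + 2)⌉₊ : ℝ) < L ^ (D + 2) + 1 := Nat.ceil_lt_add_one (by positivity)
    have h6 : 1 ≤ L ^ (D + 2) := one_le_pow₀ hL1
    rw [show D + 3 = (D + 2) + 1 by ring, pow_succ L (D + 2)]
    nlinarith
  have hXr : (X : ℝ) = N * (⌈L ^ (D + 2)⌉₊ : ℝ) := by rw [hX]; push_cast; rfl
  have hX1 : (N : ℝ) * L ^ (D + 2) ≤ X := by rw [hXr]; exact mul_le_mul_of_nonneg_left hc1 hN0.le
  have hX2 : (X : ℝ) ≤ N * L ^ (D + 3) := by rw [hXr]; exact mul_le_mul_of_nonneg_left hc2 hN0.le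
  have hNX : (N : ℝ) ≤ X := (le_mul_of_one_le_right hN0.le (one_le_pow₀ hL1)).trans hX1
  have hNXn : N ≤ X := by exact_mod_cast hNX
  have hX0 : (0 : ℝ) < X := by linarith
  obtain ⟨LX, hLX⟩ : ∃ LX, LX = Real.log (X : ℝ) := ⟨_, rfl⟩
  have hLLX : L ≤ LX := by rw [hL, hLX]; exact Real.log_le_log hN0 hNX
  have hLX0 : 0 < LX := by linarith
  have hLX1 : 1 ≤ LX := by linarith
  have hLX2 : LX ≤ 2 * L := by
    have e1 : (X : ℝ) ≤ N ^ 2 := by
      refine hX2.trans ?_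
      rw [sq]
      apply mul_le_mul_of_nonneg_left _ hN0.le
      refine b3.trans ?_
      rw [Real.sqrt_le_left hN0.le]
      nlinarith
    have e2 := Real.log_le_log hX0 e1
    rw [Real.log_pow, ← hL, ← hLX] at e2
    exact_mod_cast e2
  have hBL : (B : ℝ) ≤ L ^ (D + 2) := by
    have : L ≤ L ^ (D + 2) := le_self_pow₀ hL1 (by omega)
    linarith
  have hBX : (B : ℝ) * N ≤ X := by
    refine le_trans ?_ hX1
    rw [mul_comm]
    exact mul_le_mul_of_nonneg_left hBL hN0.le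
  have hBXn : B * N ≤ X := by exact_mod_cast hBX
  have hsX : ∀ i, ∀ j ∈ Icc 1 (x i), |s i j| ≤ X := by
    intro i j hj
    refine (hsb i j hj).trans ?_
    exact_mod_cast hBXn
  -- `z`
  have hz2 : (z : ℝ) ≤ LX ^ E := by
    rw [hz]
    exact (Nat.floor_le (by positivity)).trans (pow_le_pow_left₀ hL0.le hLLX E)
  have hz1 : LX ^ B0 ≤ z := by
    have e1 : L ^ E < z + 1 := by rw [hz]; exact Nat.lt_floor_add_one _
    have e2 : LX ^ B0 ≤ L ^ (B0 + 1) := by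
      calc LX ^ B0 ≤ (2 * L) ^ B0 := pow_le_pow_left₀ hLX0.le hLX2 _
        _ = 2 ^ B0 * L ^ B0 := mul_pow _ _ _
        _ ≤ L * L ^ B0 := mul_le_mul_of_nonneg_right (by linarith) (by positivity)
        _ = L ^ (B0 + 1) := by ring
    have e3 : L ^ (B0 + 2) ≤ L ^ E := pow_le_pow_right₀ hL1 hE0
    have e4 : L ^ (B0 + 2) = L ^ (B0 + 1) * L := by rw [← pow_succ]
    have e5 : 1 ≤ L ^ (B0 + 1) := one_le_pow₀ hL1
    nlinarith
  -- the index set
  obtain ⟨R, hR⟩ : ∃ R : ℕ, R = ⌊L ^ D⌋₊ := ⟨_, rfl⟩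
  have hRL : (R : ℝ) ≤ L ^ D := by rw [hR]; exact Nat.floor_le (by positivity)
  obtain ⟨I, hI⟩ : ∃ I : Finset (τ × (Fin k → ℤ)), I = univ ×ˢ Fintype.piFinset (fun _ => Icc (-(R : ℤ)) (R : ℤ)) := ⟨_, rfl⟩
  have hIcard : (I.card : ℝ) ≤ LX ^ (T + k * (D + 1)) := by
    rw [hI, card_product, Fintype.card_piFinset, prod_const, card_univ, card_univ, Fintype.card_fin, Int.card_Icc]
    have e1 : ((R : ℤ) + 1 - -(R : ℤ)).toNat = 2 * R + 1 := by omega
    rw [e1]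
    push_cast
    have hLD : 1 ≤ L ^ D := one_le_pow₀ hL1
    have f3 : 2 * (R : ℝ) + 1 ≤ L ^ (D + 1) := by rw [pow_succ]; nlinarith
    calc (Fintype.card τ : ℝ) * (2 * (R : ℝ) + 1) ^ k ≤ L ^ T * (L ^ (D + 1)) ^ k := by gcongr
      _ = L ^ (T + k * (D + 1)) := by rw [← pow_mul, ← pow_add]; congr 1; ring
      _ ≤ _ := pow_le_pow_left₀ hL0.le hLLX _
  have c0 := h0 X (by omega) x s hx hsX (by
      intro i
      rw [← hLX]
      calc (energy h (x i) (s i) : ℝ) * X ≤ energy h (x i) (s i) * (N * L ^ (D + 3)) := mul_le_mul_of_nonneg_left hX2 (Nat.cast_nonneg _)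
        _ = (energy h (x i) (s i) * N) * L ^ (D + 3) := by ring
        _ ≤ (L ^ C * (x i : ℝ) ^ (2 * h)) * L ^ (D + 3) := mul_le_mul_of_nonneg_right (hE i) (by positivity)
        _ = L ^ (C + D + 3) * (x i : ℝ) ^ (2 * h) := by ring
        _ ≤ LX ^ (C + D + 3) * (x i : ℝ) ^ (2 * h) := by gcongr) z (by rw [← hLX]; exact hz1) (by rw [← hLX]; exact hz2)
  rw [← hLX] at c0
  have hindic : ∀ (M : Finset ℕ), M ⊆ Ioc 0 (B * N) → ∀ f : ℕ → ℝ,
      ∑ n ∈ Icc 1 (B * N), (if n ∈ M then (1 : ℝ) else 0) * f n = ∑ n ∈ M, f n := by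
    intro M hM f
    have hsub : M ⊆ Icc 1 (B * N) := by
      intro n hn
      have := mem_Ioc.1 (hM hn)
      rw [mem_Icc]
      omega
    simp only [ite_mul, one_mul, zero_mul]
    rw [sum_ite_mem, inter_eq_right.2 hsub]
  have key := markov (Fintype.piFinset (fun i => Icc 1 (x i))) I (fun _ => (1 : ℝ)) (fun _ _ => zero_le_one)
    (fun q i => if ∀ j, i.2 j ≠ 0 then |∑ n ∈ Icc 1 (B * N),
        (if n ∈ 𝒩 i.1 then (1 : ℝ) else 0) * (∏ j, LL (i.2 j * (n : ℤ) + s j (q j)) - ∏ j, mdl z (i.2 j * (n : ℤ) + s j (q j)))| else 0)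
    (fun _ _ => by split_ifs <;> positivity) (fun q => q ∈ 𝒮) (X / LX ^ V) ((X / LX ^ U') * ∏ i, (x i : ℝ)) (by positivity) (by
      intro q hq hqS
      by_contra hcon
      push Not at hcon
      apply hS q hqS
      intro α hα hαL l hRl
      have hβ : ∀ i, (s i (q i)).natAbs ≤ B * N := by
        intro i
        have a1 := hsb i (q i) (Fintype.mem_piFinset.1 hq i)
        have : ((s i (q i)).natAbs : ℤ) ≤ ((B * N : ℕ) : ℤ) := by rw [Int.natCast_natAbs]; push_cast; exact a1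
        exact_mod_cast this
      rw [← hL] at hαL hRl ⊢
      have hmem : (l, α) ∈ I := by
        rw [hI, mem_product, Fintype.mem_piFinset]
        refine ⟨mem_univ _, fun j => ?_⟩
        have h7 : (α j).natAbs ≤ R := by rw [hR]; exact Nat.le_floor (hαL j)
        simp only [mem_Icc]
        omega
      have h5 := hcon (l, α) hmem
      simp only at h5
      rw [if_pos hα, hindic (𝒩 l) (h𝒩 l), sum_sub_distrib, sum_mdl] at h5
      have hVinv : 1 ≤ (Vz z)⁻¹ ^ k := one_le_pow₀ ((one_le_inv₀ (Vz_pos z)).2 (Vz_le_one z))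
      have hR0 : (0 : ℝ) ≤ rgM α (fun i => s i (q i)) z (𝒩 l) := Nat.cast_nonneg _
      have h6 := b1 α (fun i => s i (q i)) hα hαL hβ (𝒩 l) (h𝒩 l) ((Vz z)⁻¹ ^ k * rgM α (fun i => s i (q i)) z (𝒩 l))
        (hRl.trans (le_mul_of_one_le_left hR0 hVinv)) (by
          refine h5.le.trans ?_
          calc (X : ℝ) / LX ^ V ≤ N * L ^ (D + 3) / L ^ V := by
                apply div_le_div₀ (by positivity) hX2 (by positivity)
                exact pow_le_pow_left₀ hL0.le hLLX _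
            _ = N / L ^ (K + 1) := by
                rw [hV, show K + D + 4 = (D + 3) + (K + 1) by ring, pow_add L (D + 3) (K + 1)]
                field_simp)
      have e1 : (Vz z)⁻¹ ^ k * (rgM α (fun i => s i (q i)) z (𝒩 l) : ℝ) / L ^ k =
          rgM α (fun i => s i (q i)) z (𝒩 l) / (Vz z * L) ^ k := by
        have := (Vz_pos z).ne'
        rw [mul_pow, inv_pow]
        field_simp
      rw [e1] at h6
      exact h6)
    (by
      intro i hi
      rw [hI, mem_product, Fintype.mem_piFinset] at hi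
      simp only [one_mul]
      by_cases hab : ∀ j, i.2 j ≠ 0
      · simp only [if_pos hab]
        refine c0 i.2 hab (B * N) ?_ (fun n => if n ∈ 𝒩 i.1 then (1 : ℝ) else 0) ?_
        · intro j
          have h4 := mem_Icc.1 (hi.2 j)
          have h5 : (i.2 j).natAbs ≤ R := by omega
          have h6 : (i.2 j).natAbs * (B * N) ≤ R * (B * N) := Nat.mul_le_mul_right _ h5
          have h7 : (R : ℝ) * (B * N) ≤ X := by
            calc (R : ℝ) * (B * N) ≤ L ^ D * (L * N) := by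
                  apply mul_le_mul hRL _ (by positivity) (by positivity)
                  apply mul_le_mul_of_nonneg_right _ hN0.le
                  linarith
              _ = N * L ^ (D + 1) := by ring
              _ ≤ N * L ^ (D + 2) := by
                  apply mul_le_mul_of_nonneg_left _ hN0.le
                  exact pow_le_pow_right₀ hL1 (by omega)
              _ ≤ X := hX1
          have h8 : R * (B * N) ≤ X := by exact_mod_cast h7
          exact h6.trans h8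
        · intro n _
          split_ifs
          · rw [abs_one]; exact hLX1
          · rw [abs_zero]; exact hLX0.le
      · simp only [if_neg hab, sum_const_zero]
        positivity)
  have hleft : (𝒮.card : ℝ) = ∑ q ∈ Fintype.piFinset (fun i => Icc 1 (x i)), (if q ∈ 𝒮 then (1 : ℝ) else 0) := by
    rw [sum_ite_mem, inter_eq_right.2 hSx, sum_const, nsmul_eq_mul, mul_one]
  rw [← hleft] at key
  refine key.trans ?_
  obtain ⟨P, hP⟩ : ∃ P : ℝ, P = ∏ i, (x i : ℝ) := ⟨_, rfl⟩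
  rw [← hP] at hprod0 ⊢
  calc (I.card : ℝ) * ((X / LX ^ U') * P) / (X / LX ^ V)
      ≤ LX ^ (T + k * (D + 1)) * ((X / LX ^ U') * P) / (X / LX ^ V) := by gcongr
    _ = P / LX ^ U := by
        rw [hU', show U + V + T + k * (D + 1) = U + V + (T + k * (D + 1)) by ring, pow_add LX (U + V), pow_add LX U V]
        field_simp
    _ ≤ P / L ^ U := by
        apply div_le_div_of_nonneg_left hprod0 (by positivity)
        exact pow_le_pow_left₀ hL0.le hLLX _

end Pool.Agent.TH935.TG
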